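import Pool.Agent.Lib.MP_58a483_pr.Defs

/-!
The finite algorithm for the coefficients of the expansion of the critical value.
-/

open Finset

namespace HamPerc

open Polynomial in
open Classical in
/-- The susceptibility of the Hamming graph with side `n + 1` and dimension `v` at the vertex `0`,
as a polynomial in `p`. -/
noncomputable def suscP (v n : ℕ) : ℚ[X] :=
  ∑ ω ∈ (hamming v (n + 1)).edgeFinset.powerset,
    X ^ ω.card * (1 - X) ^ ((hamming v (n + 1)).edgeFinset.card - ω.card) *
      C ((univ.filter fun y => (SimpleGraph.fromEdgeSet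
        (ω : Set (Sym2 (Fin v → Fin (n + 1))))).Reachable 0 y).card : ℚ)

/-- The coefficient of `p ^ k * n ^ (k - i)` in the susceptibility of `K_n^v`, by Lagrange
interpolation at `n = 1, ..., k + 1`. -/
noncomputable def cf (v k i : ℕ) : ℚ :=
  if i ≤ k then (Lagrange.interpolate (range (k + 1)) (fun n => (n : ℚ) + 1)
    fun n => (suscP v n).coeff k).coeff (k - i) else 0

/-- The exponent in the denominator. -/
def ex (i : ℕ) : ℕ := (2 * i + 1) * (i + 1) ^ 2

open Polynomial in
/-- The denominator: the product of `1 - s`, `1 - 2 s`, ..., `1 - v s` to the power `ex i`. -/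
noncomputable def den (v i : ℕ) : ℚ[X] := ∏ j ∈ Icc 1 v, (1 - C (j : ℚ) * X) ^ ex i

/-- The numerator: the terms of degree at most `ex i * (v + 2)` of the product of `den v i` with the
series `∑ k, cf v k i * s ^ k`. -/
noncomputable def num (v i : ℕ) : Polynomial ℚ :=
  PowerSeries.trunc ((v + 2) * ex i + 1) ((PowerSeries.mk fun k => cf v k i) * den v i)

open PowerSeries in
/-- One step of the iteration in power series in `X = 1 / n`: Newton extrapolation of order `K`
to dimension `d` of the inverse susceptibilities at `p = σ / n`. -/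
noncomputable def step (d K : ℕ) (σ : ℚ⟦X⟧) : ℚ⟦X⟧ :=
  σ + C (1 / d : ℚ) * ∑ u ∈ range (K + 1), C (d.choose u : ℚ) *
    ∑ v ∈ range (u + 1), C ((-1) ^ (u + v) * u.choose v : ℚ) * (∑ i ∈ range (K + 1),
      X ^ i * (Polynomial.aeval σ (num v i) * (Polynomial.aeval σ (den v i))⁻¹))⁻¹

/-- The coefficient `a_i(d)`. -/
noncomputable def acoef (d i : ℕ) : ℚ :=
  PowerSeries.coeff (i - 1) ((step d (i - 1))^[i - 1] (PowerSeries.C (1 / d : ℚ)))

end HamPerc
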