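import Pool.Agent.Lib.MP_58a483_pr.Orbit

/-!
Shape weights as entire functions of `1 / n` and the rescaled parameter.
-/

open Finset

namespace HamPerc

variable {d n : ℕ}

/-- the entire function `(1 - exp (-w)) / w` -/
noncomputable def gg (w : ℂ) : ℂ := dslope (fun w => 1 - Complex.exp (-w)) 0 w

theorem gg_diff : Differentiable ℂ gg := by
  rw [← differentiableOn_univ]
  exact (Complex.differentiableOn_dslope Filter.univ_mem).2 (by fun_prop)

theorem mul_gg (w : ℂ) : w * gg w = 1 - Complex.exp (-w) := by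
  have := sub_smul_dslope (fun w => 1 - Complex.exp (-w)) 0 w
  simpa [gg] using this

theorem gg_zero : gg 0 = 1 := by
  unfold gg
  rw [dslope_same]
  have : HasDerivAt (fun w : ℂ => 1 - Complex.exp (-w)) (-(Complex.exp (-0) * -1)) 0 :=
    ((hasDerivAt_neg (0 : ℂ)).cexp).const_sub 1
  rw [this.deriv]; simp

theorem norm_gg_sub_one {w : ℂ} (h : ‖w‖ ≤ 1) : ‖gg w - 1‖ ≤ ‖w‖ := by
  by_cases h0 : w = 0
  · simp [h0, gg_zero]
  have h1 := Complex.norm_exp_sub_one_sub_id_le (x := -w) (by simpa using h)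
  have h2 : w * (gg w - 1) = -(Complex.exp (-w) - 1 - -w) := by rw [mul_sub, mul_gg]; ring
  have h3 : ‖w‖ * ‖gg w - 1‖ ≤ ‖w‖ * ‖w‖ := by
    rw [← norm_mul, h2, norm_neg]; simpa [sq] using h1
  exact le_of_mul_le_mul_left h3 (norm_pos_iff.2 h0)

/-- weight of a shape as an entire function -/
noncomputable def WW (d : ℕ) (s : ℝ) (k : Fin d → ℕ) (a b e : ℕ) (ε : ℂ) : ℂ :=
  ε ^ (a - ∑ i, k i) * (∏ i, ∏ r ∈ range (k i), (1 - (r + 1) * ε) / (r + 1)) *
    (s * gg (s * ε)) ^ a * Complex.exp (-s * (b * d) + s * ε * (b * d + e))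

theorem WW_diff (s : ℝ) (k : Fin d → ℕ) (a b e : ℕ) : Differentiable ℂ (WW d s k a b e) := by
  unfold WW
  have := gg_diff
  fun_prop

/-- weight of a shape in the box of side `n` -/
noncomputable def wR (d n : ℕ) (s : ℝ) (k : Fin d → ℕ) (a b e : ℕ) : ℝ :=
  (∏ i, ((n - 1).choose (k i) : ℝ)) *
    wt (1 - Real.exp (-(s / n))) (s / n) (d * (n - 1) : ℕ) a b e

theorem choose_eq (hn : 1 ≤ n) (k : ℕ) : ((n - 1).choose k : ℝ) =
    n ^ k * ∏ r ∈ range k, (1 - (r + 1) * (n : ℝ)⁻¹) / (r + 1) := by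
  have h0 : (0 : ℝ) < n := by exact_mod_cast hn
  induction k with
  | zero => simp
  | succ k ih =>
    have h1 : ((n - 1).choose (k + 1) : ℝ) * (k + 1) = (n - 1).choose k * ((n : ℝ) - (k + 1)) := by
      by_cases hk : k ≤ n - 1
      · have := Nat.choose_succ_right_eq (n - 1) k
        have h2 : ((n - 1 - k : ℕ) : ℝ) = n - (k + 1) := by
          rw [Nat.sub_sub, Nat.cast_sub (by omega)]; push_cast; ring
        rw [← h2]; exact_mod_cast this
      · rw [Nat.choose_eq_zero_of_lt (by omega), Nat.choose_eq_zero_of_lt (by omega)]; simp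
    rw [prod_range_succ, pow_succ, mul_mul_mul_comm, ← ih, eq_div_of_mul_eq (by positivity) h1]
    field_simp

theorem wR_eq (hn : 1 ≤ n) (s : ℝ) (k : Fin d → ℕ) (a b e : ℕ) :
    wR d n s k a b e = (n : ℝ) ^ (∑ i, k i) *
      (∏ i, ∏ r ∈ range (k i), (1 - (r + 1) * (n : ℝ)⁻¹) / (r + 1)) *
      (1 - Real.exp (-(s * (n : ℝ)⁻¹))) ^ a *
        Real.exp (-s * (b * d) + s * (n : ℝ)⁻¹ * (b * d + e)) := by
  have h0 : (0 : ℝ) < n := by exact_mod_cast hn
  unfold wR wt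
  simp only [choose_eq hn]
  rw [prod_mul_distrib, prod_pow_eq_pow_sum, div_eq_mul_inv s, mul_assoc _ _ (Real.exp _)]
  congr 3
  push_cast [Nat.cast_sub hn]
  field_simp
  ring

theorem WW_real (hn : 1 ≤ n) (s : ℝ) {k : Fin d → ℕ} {a : ℕ} (h : ∑ i, k i ≤ a) (b e : ℕ) :
    WW d s k a b e (n : ℂ)⁻¹ = wR d n s k a b e := by
  have h0 : (n : ℂ) ≠ 0 := by exact_mod_cast (by omega : n ≠ 0)
  rw [wR_eq hn]
  unfold WW
  push_cast
  rw [← mul_gg]
  obtain ⟨x, rfl⟩ := Nat.exists_eq_add_of_le h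
  rw [Nat.add_sub_cancel_left]
  congr 1
  generalize (∏ i, ∏ r ∈ range (k i), (1 - ((r : ℂ) + 1) * (n : ℂ)⁻¹) / (r + 1)) = P
  generalize gg (s * (n : ℂ)⁻¹) = g
  simp only [mul_pow, pow_add, inv_pow]
  field_simp

/-- leading constant of a shape weight -/
noncomputable def base (d : ℕ) (s : ℝ) (k : Fin d → ℕ) (a b : ℕ) : ℝ :=
  (∏ i, ∏ r ∈ range (k i), 1 / ((r : ℝ) + 1)) * s ^ a * Real.exp (-s * (b * d))

theorem wR_nonneg {s : ℝ} (hs : 0 ≤ s) (k : Fin d → ℕ) (a b e : ℕ) : 0 ≤ wR d n s k a b e := by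
  unfold wR wt
  have : 0 ≤ 1 - Real.exp (-(s / n)) := by
    rw [sub_nonneg, Real.exp_le_one_iff, neg_nonpos]; positivity
  positivity

theorem wR_lower {s : ℝ} (hs0 : 0 ≤ s) (hs1 : s ≤ 1) {B : ℕ} (hB : 1 ≤ B) (hn : 2 * B ^ 2 ≤ n)
    {k : Fin d → ℕ} {a : ℕ} (hk : ∑ i, k i ≤ B) (ha : a ≤ B) (b e : ℕ) :
    (n : ℝ) ^ (∑ i, k i) * (n : ℝ)⁻¹ ^ a * base d s k a b / 4 ≤ wR d n s k a b e := by
  have hn1 : 1 ≤ n := by nlinarith
  have h0 : (0 : ℝ) < n := by exact_mod_cast hn1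
  have hB' : (1 : ℝ) ≤ B := by exact_mod_cast hB
  set ε : ℝ := (n : ℝ)⁻¹ with hε
  have hε0 : 0 < ε := by positivity
  have hBε : (B : ℝ) * (B * ε) ≤ 1 / 2 := by
    have : (2 * B ^ 2 : ℝ) ≤ n := by exact_mod_cast hn
    rw [hε, ← mul_assoc, mul_inv_le_iff₀ h0]; nlinarith
  have hBε1 : (B : ℝ) * ε ≤ 1 / 2 := le_trans (le_mul_of_one_le_left (by positivity) hB') hBε
  have hε1 : ε ≤ 1 / 2 := le_trans (le_mul_of_one_le_left (by positivity) hB') hBε1
  have bern : ∀ (x : ℝ) (m : ℕ), 0 ≤ x → x ≤ B * ε → m ≤ B → 1 / 2 ≤ (1 - x) ^ m := by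
    intro x m hx0 hx hm
    have h1 := one_add_mul_le_pow (a := -x) (by linarith) m
    have h2 : (m : ℝ) * x ≤ B * (B * ε) :=
      mul_le_mul (by exact_mod_cast hm) hx hx0 (by positivity)
    rw [← sub_eq_add_neg] at h1
    linarith
  have f1 : (∏ i, ∏ r ∈ range (k i), 1 / ((r : ℝ) + 1)) * (1 / 2) ≤
      ∏ i, ∏ r ∈ range (k i), (1 - (r + 1) * ε) / (r + 1) := by
    refine (mul_le_mul_of_nonneg_left (bern (B * ε) _ (by positivity) le_rfl hk)
      (by positivity)).trans ?_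
    rw [← prod_pow_eq_pow_sum, ← prod_mul_distrib]
    refine prod_le_prod (fun i _ => mul_nonneg (by positivity) (pow_nonneg (by linarith) _))
      fun i _ => ?_
    rw [← card_range (k i), ← prod_const, card_range, ← prod_mul_distrib]
    refine prod_le_prod (fun r _ => mul_nonneg (by positivity) (by linarith)) fun r hr => ?_
    have : r + 1 ≤ B := (mem_range.1 hr).trans_le
      ((single_le_sum (f := k) (fun _ _ => Nat.zero_le _) (mem_univ i)).trans hk)
    have : (r + 1 : ℝ) ≤ B := by exact_mod_cast this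
    rw [one_div_mul_eq_div]
    exact div_le_div_of_nonneg_right (by nlinarith) (by positivity)
  have f2 : ε ^ a * s ^ a * (1 / 2) ≤ (1 - Real.exp (-(s * ε))) ^ a := by
    refine (mul_le_mul_of_nonneg_left (bern ε _ hε0.le (le_mul_of_one_le_left hε0.le hB') ha)
      (by positivity)).trans ?_
    rw [← mul_pow, ← mul_pow]
    refine pow_le_pow_left₀ (mul_nonneg (by positivity) (by linarith)) ?_ _
    have x0 : 0 ≤ s * ε := by positivity
    have x1 : s * ε ≤ ε := mul_le_of_le_one_left hε0.le hs1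
    have := Real.abs_exp_sub_one_sub_id_le (x := -(s * ε)) (by rw [abs_neg, abs_of_nonneg x0]; linarith)
    have := (abs_le.1 this).2
    nlinarith
  have f3 : Real.exp (-s * (b * d)) ≤ Real.exp (-s * (b * d) + s * ε * (b * d + e)) :=
    Real.exp_le_exp.2 (le_add_of_nonneg_right (by positivity))
  rw [wR_eq hn1]
  have := mul_le_mul (mul_le_mul (mul_le_mul_of_nonneg_left f1 (pow_nonneg h0.le (∑ i, k i))) f2
    (by positivity) (mul_nonneg (by positivity) (le_trans (by positivity) f1))) f3 (by positivity)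
    (mul_nonneg (mul_nonneg (by positivity) (le_trans (by positivity) f1))
      (le_trans (by positivity) f2))
  refine le_trans (le_of_eq ?_) this
  unfold base
  ring

theorem pow_le_exp_one {x : ℝ} {m : ℕ} (hx : 0 ≤ x) (h : m * x ≤ 1) :
    (1 + x) ^ m ≤ Real.exp 1 := by
  refine (pow_le_pow_left₀ (by positivity) (b := Real.exp x)
    (by linarith [Real.add_one_le_exp x]) m).trans ?_
  rw [← Real.exp_nat_mul]
  exact Real.exp_le_exp.2 h

theorem WW_upper {s : ℝ} (hs0 : 0 ≤ s) (hs1 : s ≤ 1) {B : ℕ} (hB : 1 ≤ B) {k : Fin d → ℕ}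
    {a b e : ℕ} (hk : ∑ i, k i ≤ B) (ha : a ≤ B) (hb : b * d + e ≤ B) {ε : ℂ}
    (hε : ‖ε‖ ≤ ((2 * B ^ 2 : ℕ) : ℝ)⁻¹) :
    ‖WW d s k a b e ε‖ ≤ ‖ε‖ ^ (a - ∑ i, k i) * base d s k a b * Real.exp 1 ^ 3 := by
  have hB' : (1 : ℝ) ≤ B := by exact_mod_cast hB
  set r : ℝ := ((2 * B ^ 2 : ℕ) : ℝ)⁻¹ with hr
  have hr0 : 0 < r := by rw [hr]; positivity
  have hBr : (B : ℝ) * (B * r) = 1 / 2 := by rw [hr]; push_cast; field_simp
  have hBr1 : (B : ℝ) * r ≤ 1 / 2 :=
    le_trans (le_mul_of_one_le_left (by positivity) hB') hBr.le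
  have hr1 : r ≤ 1 / 2 := le_trans (le_mul_of_one_le_left (by positivity) hB') hBr1
  have hs : ‖(s : ℂ)‖ = s := by rw [Complex.norm_real, Real.norm_of_nonneg hs0]
  have hsε : ‖s * ε‖ ≤ r := by
    rw [norm_mul, hs]
    exact (mul_le_mul hs1 hε (norm_nonneg _) zero_le_one).trans_eq (one_mul r)
  have ha' : (a : ℝ) ≤ B := by exact_mod_cast ha
  have hb' : (b : ℝ) * d + e ≤ B := by exact_mod_cast hb
  have f1 : ‖∏ i, ∏ r ∈ range (k i), (1 - ((r : ℂ) + 1) * ε) / (r + 1)‖ ≤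
      (∏ i, ∏ r ∈ range (k i), 1 / ((r : ℝ) + 1)) * Real.exp 1 := by
    refine le_trans ?_ (mul_le_mul_of_nonneg_left (pow_le_exp_one (x := B * r) (m := ∑ i, k i)
      (by positivity) ?_) (by positivity))
    · rw [← prod_pow_eq_pow_sum, ← prod_mul_distrib, norm_prod]
      refine prod_le_prod (fun i _ => norm_nonneg _) fun i _ => ?_
      rw [← card_range (k i), ← prod_const, card_range, ← prod_mul_distrib, norm_prod]
      refine prod_le_prod (fun i _ => norm_nonneg _) fun t ht => ?_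
      have : t + 1 ≤ B := (mem_range.1 ht).trans_le
        ((single_le_sum (f := k) (fun _ _ => Nat.zero_le _) (mem_univ i)).trans hk)
      have : (t + 1 : ℝ) ≤ B := by exact_mod_cast this
      have e1 : ‖(t : ℂ) + 1‖ = t + 1 := by exact_mod_cast Complex.norm_natCast (t + 1)
      rw [one_div_mul_eq_div, norm_div, e1]
      refine div_le_div_of_nonneg_right ((norm_sub_le _ _).trans ?_) (by positivity)
      rw [norm_one, norm_mul, e1]
      exact add_le_add le_rfl (mul_le_mul this hε (norm_nonneg _) (by positivity))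
    · have : ((∑ i, k i : ℕ) : ℝ) ≤ B := by exact_mod_cast hk
      nlinarith [show 0 ≤ (B : ℝ) * r by positivity]
  have f2 : ‖(s * gg (s * ε)) ^ a‖ ≤ s ^ a * Real.exp 1 := by
    have g1 : ‖gg (s * ε)‖ ≤ 1 + r := by
      have := norm_add_le (gg (s * ε) - 1) 1
      have := norm_gg_sub_one (w := s * ε) (by linarith)
      simp only [sub_add_cancel, norm_one] at *
      linarith
    rw [norm_pow, norm_mul, hs]
    refine (pow_le_pow_left₀ (by positivity) (mul_le_mul_of_nonneg_left g1 hs0) a).trans ?_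
    rw [mul_pow]
    exact mul_le_mul_of_nonneg_left (pow_le_exp_one hr0.le (by nlinarith)) (by positivity)
  have f3 : ‖Complex.exp (-s * (b * d) + s * ε * (b * d + e))‖ ≤
      Real.exp (-s * (b * d)) * Real.exp 1 := by
    have e1 : (-s * (b * d) : ℂ) = ((-s * (b * d) : ℝ) : ℂ) := by push_cast; ring
    rw [e1, Complex.exp_add, norm_mul, Complex.norm_exp_ofReal]
    refine mul_le_mul_of_nonneg_left ((Complex.norm_exp_le_exp_norm _).trans
      (Real.exp_le_exp.2 ?_)) (by positivity)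
    have e3 : ‖(b : ℂ) * d + e‖ = b * d + e := by exact_mod_cast Complex.norm_natCast (b * d + e)
    rw [norm_mul (s * ε), e3]
    have u2 : ‖s * ε‖ * (b * d + e) ≤ r * B := mul_le_mul hsε hb' (by positivity) hr0.le
    linarith
  unfold WW
  rw [norm_mul, norm_mul, norm_mul, norm_pow ε]
  refine (mul_le_mul (mul_le_mul (mul_le_mul_of_nonneg_left f1 (by positivity)) f2 (norm_nonneg _)
    (by positivity)) f3 (norm_nonneg _) (by positivity)).trans (le_of_eq ?_)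
  unfold base
  ring

theorem WW_le_wR {s : ℝ} (hs0 : 0 ≤ s) (hs1 : s ≤ 1) {B : ℕ} (hB : 1 ≤ B) {k : Fin d → ℕ}
    {a b e : ℕ} (hk : ∑ i, k i ≤ a) (ha : a ≤ B) (hb : b * d + e ≤ B) {ε : ℂ}
    (hε : ‖ε‖ ≤ ((2 * B ^ 2 : ℕ) : ℝ)⁻¹) :
    ‖WW d s k a b e ε‖ ≤ 108 * wR d (2 * B ^ 2) s k a b e := by
  have h2 := wR_lower (d := d) hs0 hs1 hB le_rfl (hk.trans ha) ha b e
  refine (WW_upper hs0 hs1 hB (hk.trans ha) ha hb hε).trans ?_
  obtain ⟨x, rfl⟩ := Nat.exists_eq_add_of_le hk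
  set m : ℝ := ((2 * B ^ 2 : ℕ) : ℝ) with hm
  have hm0 : 0 < m := by rw [hm]; positivity
  have h3 : m ^ (∑ i, k i) * m⁻¹ ^ (∑ i, k i + x) = m⁻¹ ^ x := by
    rw [pow_add, ← mul_assoc, ← mul_pow, mul_inv_cancel₀ hm0.ne']; simp
  rw [h3] at h2
  rw [Nat.add_sub_cancel_left]
  have h5 : ‖ε‖ ^ x ≤ m⁻¹ ^ x := pow_le_pow_left₀ (norm_nonneg _) hε x
  have h6 : Real.exp 1 ^ 3 ≤ 3 ^ 3 :=
    pow_le_pow_left₀ (by positivity) (by linarith [Real.exp_one_lt_d9]) 3
  have h7 : 0 ≤ base d s k (∑ i, k i + x) b := by unfold base; positivity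
  calc _ ≤ m⁻¹ ^ x * base d s k (∑ i, k i + x) b * 3 ^ 3 := by gcongr
    _ ≤ _ := by linarith

/-- Taylor coefficient at the origin -/
noncomputable def tc (f : ℂ → ℂ) (i : ℕ) : ℂ := (i.factorial : ℂ)⁻¹ * iteratedDeriv i f 0

theorem norm_tc_le {f : ℂ → ℂ} {r R M : ℝ} (hr : 0 < r) (hR : r < R)
    (hf : DifferentiableOn ℂ f (Metric.ball 0 R)) (hM : ∀ z : ℂ, ‖z‖ ≤ r → ‖f z‖ ≤ M) (i : ℕ) :
    ‖tc f i‖ ≤ M * r⁻¹ ^ i := by
  have := Complex.norm_iteratedDeriv_le_of_forall_mem_sphere_norm_le (C := M) i hr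
    (hf.diffContOnCl_ball (Metric.closedBall_subset_ball hR)) fun z hz =>
      hM z (by simpa using (mem_sphere_iff_norm.1 hz).le)
  rw [tc, norm_mul, norm_inv, Complex.norm_natCast, inv_mul_le_iff₀ (by positivity)]
  refine this.trans (le_of_eq ?_)
  rw [inv_pow]; ring

theorem taylor_rem {f : ℂ → ℂ} {r R M : ℝ} (hr : 0 < r) (hR : r < R)
    (hf : DifferentiableOn ℂ f (Metric.ball 0 R)) (hM : ∀ z : ℂ, ‖z‖ ≤ r → ‖f z‖ ≤ M) (K : ℕ)
    {z : ℂ} (hz : ‖z‖ ≤ r / 2) :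
    ‖f z - ∑ i ∈ range K, tc f i * z ^ i‖ ≤ 2 * M * (‖z‖ * r⁻¹) ^ K := by
  have hM0 : 0 ≤ M := (norm_nonneg _).trans (hM 0 (by simpa using hr.le))
  have h1 : HasSum (fun i => tc f i * z ^ i) (f z) := by
    have := Complex.hasSum_taylorSeries_on_ball hf (z := z) (by
      rw [mem_ball_zero_iff]; linarith)
    have e : (fun i => tc f i * z ^ i) =
        fun n : ℕ => (n.factorial : ℂ)⁻¹ • (z - 0) ^ n • iteratedDeriv n f 0 :=
      funext fun i => by simp only [tc, sub_zero, smul_eq_mul]; ring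
    rw [e]; exact this
  have h2 := (hasSum_nat_add_iff' K).2 h1
  have h3 := hasSum_geometric_two.mul_left (M * (‖z‖ * r⁻¹) ^ K)
  refine (h2.norm_le_of_bounded h3 fun i => ?_).trans (le_of_eq (by ring))
  rw [norm_mul, norm_pow]
  refine (mul_le_mul_of_nonneg_right (norm_tc_le hr hR hf hM _) (by positivity)).trans ?_
  have h4 : ‖z‖ * r⁻¹ ≤ 1 / 2 := by rw [mul_inv_le_iff₀ hr]; linarith
  have h5 := pow_le_pow_left₀ (by positivity) h4 i
  calc _ = M * (‖z‖ * r⁻¹) ^ K * (‖z‖ * r⁻¹) ^ i := by ring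
    _ ≤ _ := by gcongr

theorem poly_coeff_zero (R : Polynomial ℝ) (K : ℕ) (C : ℝ)
    (h : ∀ᶠ n : ℕ in Filter.atTop, |R.eval (n : ℝ)⁻¹| ≤ C * (n : ℝ)⁻¹ ^ K) :
    ∀ i < K, R.coeff i = 0 := by
  rw [← Polynomial.X_pow_dvd_iff]
  induction K generalizing C with
  | zero => simp
  | succ K ih =>
    obtain ⟨Q, rfl⟩ : Polynomial.X ^ K ∣ R := by
      refine ih |C| ((h.and (Filter.eventually_ge_atTop 1)).mono fun n hn => hn.1.trans ?_)
      have := inv_le_one' hn.2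
      rw [pow_succ, ← mul_assoc]
      exact (mul_le_mul_of_nonneg_right (mul_le_mul_of_nonneg_right (le_abs_self C)
        (by positivity)) (by positivity)).trans (mul_le_of_le_one_right (by positivity) this)
    rw [pow_succ]
    refine mul_dvd_mul_left _ (Polynomial.X_dvd_iff.2 ?_)
    have t1 : Filter.Tendsto (fun n : ℕ => |Q.eval (n : ℝ)⁻¹|) Filter.atTop (nhds |Q.eval 0|) :=
      ((Q.continuous.tendsto 0).comp tendsto_inv_atTop_nhds_zero_nat).abs
    have t2 := (tendsto_inv_atTop_nhds_zero_nat (𝕜 := ℝ)).const_mul C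
    have := le_of_tendsto_of_tendsto t1 t2 ((h.and (Filter.eventually_ge_atTop 1)).mono
      fun n hn => by
        have h0 : (0 : ℝ) < (n : ℝ)⁻¹ ^ K := by have := hn.2; positivity
        have := hn.1
        simp only [Polynomial.eval_mul, Polynomial.eval_pow, Polynomial.eval_X, abs_mul,
          abs_of_pos h0] at this
        refine le_of_mul_le_mul_left (this.trans (le_of_eq ?_)) h0
        ring)
    rw [mul_zero, abs_nonpos_iff] at this
    rwa [Polynomial.coeff_zero_eq_eval_zero]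

end HamPerc
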