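import Mathlib

/-!
Bond percolation on the Hamming graph: definitions used in the final statement.
-/

open Finset Filter Topology Asymptotics

namespace HamPerc

/-- The Hamming graph `K_n^d`: vertices are words of length `d` over `n` letters, adjacent iff
they differ in exactly one coordinate. -/
def hamming (d n : ℕ) : SimpleGraph (Fin d → Fin n) where
  Adj x y := hammingDist x y = 1
  symm := ⟨fun x y h => by rwa [hammingDist_comm]⟩
  loopless := ⟨fun x h => by simp at h⟩

open Classical in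
/-- The susceptibility: the expected number of vertices joined to `x` by open paths when every
edge of `K_n^d` is open independently with probability `p`. -/
noncomputable def susc (d n : ℕ) (x : Fin d → Fin n) (p : ℝ) : ℝ :=
  ∑ ω ∈ (hamming d n).edgeFinset.powerset,
    p ^ ω.card * (1 - p) ^ ((hamming d n).edgeFinset.card - ω.card) *
      ((univ.filter fun y => (SimpleGraph.fromEdgeSet (ω : Set (Sym2 (Fin d → Fin n)))).Reachable
        x y).card : ℝ)

/-- `c v k i` is the coefficient of `p ^ k * n ^ (k - i)` in the susceptibility of `K_n^v`. -/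
def IsCoef (c : ℕ → ℕ → ℕ → ℝ) : Prop :=
  (∀ v k i, k < i → c v k i = 0) ∧
  ∀ (v n : ℕ) (x : Fin v → Fin n) (p : ℝ), 1 ≤ n →
    HasSum (fun k => (∑ i ∈ range (k + 1), c v k i * (n : ℝ) ^ (k - i)) * p ^ k) (susc v n x p)

/-- Newton extrapolation to dimension `d` of the inverse susceptibilities of the graphs `K_n^v`,
`v ≤ d / 3`, at `p = σ / n`, expanded to order `d / 3` in `ε = 1 / n`. -/
noncomputable def newton (c : ℕ → ℕ → ℕ → ℝ) (d : ℕ) (ε σ : ℝ) : ℝ :=
  ∑ u ∈ range (d / 3 + 1), (d.choose u : ℝ) * ∑ v ∈ range (u + 1), (-1) ^ (u + v) * u.choose v *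
    (∑ i ∈ range (d / 3 + 1), ε ^ i * ∑' k, c v k i * σ ^ k)⁻¹

/-- `σ = a 1 + a 2 * ε + ...` starts at `1 / d` and solves the extrapolated equation up to
order `ε ^ (d / 3)` included. -/
def IsSol (c : ℕ → ℕ → ℕ → ℝ) (d : ℕ) (a : ℕ → ℝ) : Prop :=
  a 1 = 1 / d ∧ (fun ε => newton c d ε (∑ i ∈ range (d / 3 + 1), a (i + 1) * ε ^ i)) =O[𝓝 0]
    fun ε : ℝ => ε ^ (d / 3 + 1)

end HamPerc
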