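import Pool.Agent.Lib.MP_58a483_pr.Main
import Pool.Agent.Lib.MP_58a483_pr.Defs

/-!
Translation to the Hamming graph on `Fin d → Fin n`.
-/

open Finset Filter Topology Asymptotics

namespace HamPerc

variable {d n : ℕ}

theorem reach_iff {α : Type*} [DecidableEq α] (ω : Finset (Sym2 α)) (x y : α) :
    (SimpleGraph.fromEdgeSet (ω : Set (Sym2 α))).Reachable x y ↔ Rch ω x y := by
  constructor
  · rw [SimpleGraph.reachable_iff_reflTransGen]
    intro h
    induction h with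
    | refl => exact Rch.refl _ _
    | tail _ h ih => exact ih.step ((SimpleGraph.fromEdgeSet_adj _).1 h).1
  · intro h
    refine h.induction (P := fun v => (SimpleGraph.fromEdgeSet (ω : Set (Sym2 α))).Reachable x v)
      (SimpleGraph.Reachable.refl _) fun a b ha he => ?_
    by_cases e : a = b
    · exact e ▸ ha
    · exact ha.trans (SimpleGraph.Adj.reachable ((SimpleGraph.fromEdgeSet_adj _).2 ⟨he, e⟩))

theorem susc_eq (x : Fin d → Fin n) (p : ℝ) (hn : 1 ≤ n) : susc d n x p = chi d n p := by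
  classical
  set ι : (Fin d → Fin n) → Vx d := fun x i => x i with hι
  have hinj : Function.Injective ι := fun a b h => funext fun i => Fin.ext (congrFun h i)
  have hb : box d n = univ.image ι := by
    ext y
    simp only [mem_box, mem_image, mem_univ, true_and]
    exact ⟨fun h => ⟨fun i => ⟨y i, h i⟩, rfl⟩, fun ⟨a, h⟩ i => h ▸ (a i).2⟩
  have ha : ∀ a b, Adj (ι a) (ι b) ↔ (hamming d n).Adj a b := by
    intro a b
    change _ ↔ hammingDist a b = 1
    rw [hammingDist, card_eq_one]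
    simp only [Adj, hι, ne_eq, Fin.val_inj, Finset.ext_iff, mem_filter, mem_univ, true_and,
      mem_singleton]
    refine exists_congr fun i => ⟨fun h j => ⟨fun h1 => ?_, fun h1 => h1 ▸ h.1⟩,
      fun h => ⟨(h i).2 rfl, fun j hj => ?_⟩⟩
    · by_contra hj; exact h1 (h.2 j hj)
    · by_contra h1; exact hj ((h j).1 h1)
  have hE : edges d n = (hamming d n).edgeFinset.image (Sym2.map ι) := by
    ext e
    induction e using Sym2.ind with
    | _ a b =>
      rw [mk_mem_edges, hb]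
      constructor
      · rintro ⟨h1, h2, h3⟩
        obtain ⟨a, _, rfl⟩ := mem_image.1 h1
        obtain ⟨b, _, rfl⟩ := mem_image.1 h2
        exact mem_image.2 ⟨s(a, b), by simpa using (ha a b).1 h3, rfl⟩
      · intro h
        obtain ⟨e, he, h2⟩ := mem_image.1 h
        rw [← hb, ← mk_mem_edges, ← h2]
        induction e using Sym2.ind with
        | _ a b =>
          rw [Sym2.map_mk, mk_mem_edges, hb, ha]
          exact ⟨mem_image_of_mem _ (mem_univ _), mem_image_of_mem _ (mem_univ _), by simpa using he⟩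
  rw [← chi_trans (y := ι x) (hb ▸ mem_image_of_mem _ (mem_univ _))]
  unfold tau Pr
  rw [← Ex_sum, hE, Ex_image p _ (Sym2.map.injective hinj)]
  unfold susc Ex
  refine sum_congr (by congr) fun ω _ => ?_
  congr 1
  beta_reduce
  rw [hb, sum_image fun _ _ _ _ h => hinj h, ← sum_ind]
  exact sum_congr rfl fun y _ => ind_congr ((reach_iff ω x y).trans (rch_map hinj).symm)

theorem isCoef_QQ : IsCoef fun v k i => (QQ v k).coeff i := by
  refine ⟨fun v k i h => Polynomial.coeff_eq_zero_of_natDegree_lt ((QQ_deg v k).trans_lt h),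
    fun v n x p hn => ?_⟩
  rw [susc_eq x p hn, chi_eq_Ex hn, Ex_csz]
  simp only [← gam_eq_coef hn]
  exact hasSum_sum_of_ne_finset_zero fun k hk => by rw [gam_eq_zero (by simpa using hk), zero_mul]

theorem series_unique {a b : ℕ → ℝ} {f : ℝ → ℝ} (ha : ∀ p, HasSum (fun k => a k * p ^ k) (f p))
    (hb : ∀ p, HasSum (fun k => b k * p ^ k) (f p)) : a = b := by
  have h : ∀ a : ℕ → ℝ, (∀ p, HasSum (fun k => a k * p ^ k) (f p)) →
      HasFPowerSeriesAt f (FormalMultilinearSeries.ofScalars ℝ a) 0 := fun a ha =>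
    hasFPowerSeriesAt_iff.2 (Eventually.of_forall fun z => by simpa [mul_comm] using ha z)
  exact FormalMultilinearSeries.ofScalars_series_injective ℝ ℝ
    ((h a ha).eq_formalMultilinearSeries (h b hb))

theorem IsCoef.unique {c c' : ℕ → ℕ → ℕ → ℝ} (h : IsCoef c) (h' : IsCoef c') : c' = c := by
  funext v k i
  by_cases hi : k < i
  · rw [h.1 v k i hi, h'.1 v k i hi]
  have := poly_coeff_zero (∑ i ∈ range (k + 1), Polynomial.monomial i (c' v k i - c v k i))
    (k + 1) 0 ?_ i (by omega)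
  · rw [Polynomial.finset_sum_coeff, sum_eq_single i] at this
    · rw [Polynomial.coeff_monomial_same] at this; linarith
    · intro j _ hj; exact Polynomial.coeff_monomial_of_ne _ hj.symm
    · intro h; exact absurd (mem_range.2 (by omega)) h
  filter_upwards [eventually_ge_atTop 1] with n hn
  have h0 : (0 : ℝ) < n := by exact_mod_cast hn
  have h1 := congrFun (series_unique (fun p => h'.2 v n (fun _ => ⟨0, hn⟩) p hn)
    fun p => h.2 v n _ p hn) k
  rw [← sub_eq_zero, ← sum_sub_distrib] at h1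
  rw [zero_mul, abs_nonpos_iff, Polynomial.eval_finset_sum, ← mul_zero ((n : ℝ) ^ k)⁻¹, ← h1,
    mul_sum]
  refine sum_congr rfl fun i hi => ?_
  rw [Polynomial.eval_monomial, pow_sub₀ _ h0.ne' (Nat.lt_succ_iff.1 (mem_range.1 hi)), inv_pow]
  field_simp

theorem coef_summable (hd : 3 ≤ d) : ∃ r : ℝ, 1 / d < r ∧ ∀ v ≤ d / 3, ∀ i,
    Summable fun k => |(QQ v k).coeff i| * r ^ k := by
  refine ⟨_, (le_abs_self _).trans_lt (inv_lt_rad hd).1, fun v hv i => ?_⟩
  obtain ⟨a, b, c⟩ := par hd hv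
  obtain ⟨C, hC⟩ := coef_le a b c i
  refine Summable.of_nonneg_of_le (fun k => by positivity) (fun k => ?_)
    ((summable_geometric_of_lt_one (r := 17 / 18) (by norm_num) (by norm_num)).mul_left C)
  refine (mul_le_mul_of_nonneg_right (hC k) (by positivity)).trans (le_of_eq ?_)
  rw [mul_assoc, ← mul_pow, mul_left_comm, inv_mul_cancel₀ (by positivity), mul_one]

theorem pc_expansion (hd : 3 ≤ d) {a : ℕ → ℝ} (ha : IsSol (fun v k i => (QQ v k).coeff i) d a)
    {lam : ℝ} (hl : 0 < lam) : ∃ (C : ℝ) (n₀ : ℕ), ∀ n ≥ n₀, ∀ x : Fin d → Fin n,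
      (∃ p ∈ Set.Icc (0 : ℝ) 1, susc d n x p = lam * ((n : ℝ) ^ d) ^ (1 / 3 : ℝ)) ∧
      ∀ p ∈ Set.Icc (0 : ℝ) 1, susc d n x p = lam * ((n : ℝ) ^ d) ^ (1 / 3 : ℝ) →
        |p - ∑ i ∈ Icc 1 ⌈(d : ℝ) / 3⌉₊, a i / (n : ℝ) ^ i| ≤ C * (n : ℝ) ^ (-1 - (d : ℝ) / 3) := by
  obtain ⟨C, hC⟩ := main hd (a := fun i => a (i + 1)) ha.1 ha.2 hl
  obtain ⟨n₀, h⟩ := eventually_atTop.1 ((hC.and (exists_pc hd hl)).and (eventually_ge_atTop 1))
  refine ⟨C + |a (d / 3 + 1)|, n₀, fun n hn x => ?_⟩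
  obtain ⟨⟨h1, h2⟩, hn⟩ := h n hn
  have h0 : (0 : ℝ) < n := by exact_mod_cast hn
  have e : ((n : ℝ) ^ d) ^ (1 / 3 : ℝ) = WV d n := by
    rw [WV, ← Real.rpow_natCast, ← Real.rpow_mul h0.le, mul_one_div]
  have e2 : (n : ℝ) ^ (-1 - (d : ℝ) / 3) = (n : ℝ)⁻¹ * (WV d n)⁻¹ := by
    rw [Real.rpow_sub h0, Real.rpow_neg_one]; rfl
  simp only [susc_eq x _ hn, e]
  refine ⟨h2.imp fun p hp => ⟨⟨hp.1, hp.2.1⟩, hp.2.2⟩, fun p hp hχ => ?_⟩
  have h3 := mul_le_mul_of_nonneg_left (h1 p hp.1 hp.2 hχ) (inv_pos.2 h0).le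
  have e3 : ∀ m, ∑ i ∈ Icc 1 m, a i / (n : ℝ) ^ i =
      (n : ℝ)⁻¹ * ∑ i ∈ range m, a (i + 1) * (n : ℝ)⁻¹ ^ i := fun m => by
    rw [mul_sum, ← Ico_add_one_right_eq_Icc, sum_Ico_eq_sum_range, Nat.add_sub_cancel]
    exact sum_congr rfl fun i _ => by rw [add_comm 1, inv_pow, pow_succ]; field_simp
  rw [← abs_of_pos (inv_pos.2 h0), ← abs_mul, mul_sub, mul_comm p, inv_mul_cancel_left₀ h0.ne',
    abs_of_pos (inv_pos.2 h0)] at h3
  have hW : 0 < (n : ℝ)⁻¹ * (WV d n)⁻¹ := by rw [← e2]; positivity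
  rw [e2, e3]
  have e4 : (d : ℝ) = 3 * (d / 3 : ℕ) + (d % 3 : ℕ) := by exact_mod_cast (Nat.div_add_mod d 3).symm
  by_cases h4 : d % 3 = 0
  · have e5 : (d : ℝ) / 3 = (d / 3 : ℕ) := by rw [h4] at e4; push_cast at e4; linarith
    have e6 : (WV d n)⁻¹ = (n : ℝ)⁻¹ ^ (d / 3) := by rw [WV, e5, Real.rpow_natCast, inv_pow]
    rw [e5, Nat.ceil_natCast]
    rw [sum_range_succ, ← e6] at h3
    have h5 := mul_le_mul_of_nonneg_right (le_abs_self (a (d / 3 + 1))) hW.le
    have h6 := mul_le_mul_of_nonneg_right (neg_abs_le (a (d / 3 + 1))) hW.le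
    rw [abs_le] at *
    constructor <;> linarith [h3.1, h3.2]
  · have e5 : ⌈(d : ℝ) / 3⌉₊ = d / 3 + 1 := by
      have b1 : (1 : ℝ) ≤ (d % 3 : ℕ) := by exact_mod_cast (by omega)
      have b2 : ((d % 3 : ℕ) : ℝ) ≤ 2 := by exact_mod_cast (by omega)
      rw [Nat.ceil_eq_iff (by omega), Nat.add_sub_cancel]
      push_cast [-Nat.cast_div]
      constructor <;> linarith
    rw [e5]
    refine h3.trans ?_
    have := mul_nonneg (abs_nonneg (a (d / 3 + 1))) hW.le
    linarith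

end HamPerc
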