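import Pool.Agent.Lib.MP_58a483_pr.Subcrit

/-!
The coefficients of the susceptibility as polynomials in the side length, and the subcritical
expansion in terms of them.
-/

open Finset

namespace HamPerc

variable {d n : ℕ}

theorem tc_yy_le {s : ℝ} (hs0 : 0 < s) (hs1 : s ≤ 1 / 2) (hs : d * s ≤ 1 / 2) (K b k i : ℕ) :
    |(tc (yy d s K b k) i).re| ≤ 432 * (1 + 2 ^ 2 ^ K) * (2 * (2 * d + 6) ^ 2) ^ i *
      ((3 / 4 * s)⁻¹ ^ k * ((b + 1) ^ (4 * i + 1) * (10 / 11) ^ b)) := by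
  have hm0 : (0 : ℝ) < ((2 * Bb d b ^ 2 : ℕ) : ℝ) := by have := Bb_pos d b; positivity
  have := (Complex.abs_re_le_norm _).trans (norm_tc_le (inv_pos.2 hm0)
    ((Bb_inv_le d b).trans_lt (by norm_num)) (yy_diff hs0 hs1 K b k)
    (fun z hz => yy_bound hs0 hs1 hs K b k hz) i)
  refine this.trans (le_of_eq ?_)
  rw [inv_inv, Bb]
  push_cast
  simp only [mul_pow, ← pow_mul]
  ring

/-- coefficient of order `i` in `1 / n` as a sum over shapes -/
noncomputable def cc (d : ℕ) (s : ℝ) (K k i : ℕ) : ℝ := ∑' b, (tc (yy d s K b k) i).re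

theorem cc_le {s : ℝ} (hs0 : 0 < s) (hs1 : s ≤ 1 / 2) (hs : d * s ≤ 1 / 2) (K i : ℕ) :
    ∃ C : ℝ, ∀ k, |cc d s K k i| ≤ C * (3 / 4 * s)⁻¹ ^ k := by
  refine ⟨432 * (1 + 2 ^ 2 ^ K) * (2 * (2 * d + 6) ^ 2) ^ i *
    ∑' b : ℕ, ((b : ℝ) + 1) ^ (4 * i + 1) * (10 / 11) ^ b, fun k => ?_⟩
  have := (((summable_poly (4 * i + 1)).hasSum.mul_left ((3 / 4 * s)⁻¹ ^ k)).mul_left
    (432 * (1 + 2 ^ 2 ^ K) * (2 * (2 * d + 6) ^ 2) ^ i : ℝ))
  refine (tsum_of_norm_bounded (f := fun b => (tc (yy d s K b k) i).re) this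
    fun b => tc_yy_le hs0 hs1 hs K b k i).trans (le_of_eq ?_)
  ring

theorem hasSum_cc {s ρ : ℝ} (hs0 : 0 < s) (hs1 : s ≤ 1 / 2) (hs : d * s ≤ 1 / 2) (K i : ℕ)
    (hρ0 : 0 ≤ ρ) (hρ : ρ < 1) {t : ℕ → ℝ} (ht : ∀ k, |t k| ≤ (ρ * (3 / 4 * s)) ^ k) :
    HasSum (fun b => ∑ k ∈ range (b + 1), t k * (tc (yy d s K b k) i).re)
      (∑' k, t k * cc d s K k i) := by
  have h1 : Summable fun q : ℕ × ℕ => t q.2 * (tc (yy d s K q.1 q.2) i).re := by
    refine Summable.of_norm_bounded (((summable_poly (4 * i + 1)).mul_of_nonneg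
      (summable_geometric_of_lt_one hρ0 hρ) (fun b => by positivity)
      fun k => by positivity).mul_left (432 * (1 + 2 ^ 2 ^ K) * (2 * (2 * d + 6) ^ 2) ^ i : ℝ))
      fun q => ?_
    rw [Real.norm_eq_abs, abs_mul]
    refine (mul_le_mul (ht q.2) (tc_yy_le hs0 hs1 hs K _ _ i) (abs_nonneg _)
      (by positivity)).trans (le_of_eq ?_)
    have : (3 / 4 * s) ^ q.2 * (3 / 4 * s)⁻¹ ^ q.2 = 1 := by
      rw [← mul_pow, mul_inv_cancel₀ (by positivity), one_pow]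
    rw [mul_pow]
    linear_combination (ρ ^ q.2 * (432 * (1 + 2 ^ 2 ^ K) * (2 * (2 * d + 6) ^ 2) ^ i *
      ((q.1 + 1) ^ (4 * i + 1) * (10 / 11) ^ q.1))) * this
  have h2 := h1.hasSum.prod_fiberwise (g := fun b => ∑ k ∈ range (b + 1),
    t k * (tc (yy d s K b k) i).re) fun b => hasSum_sum_of_ne_finset_zero fun k hk => by
      simp only []
      rw [yy_zero s K (by simpa using hk)]
      simp [tc]
  have h3 : ∑' q : ℕ × ℕ, t q.2 * (tc (yy d s K q.1 q.2) i).re = ∑' k, t k * cc d s K k i := by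
    rw [h1.tsum_prod, ← Summable.tsum_comm (f := fun b k => t k * (tc (yy d s K b k) i).re) h1]
    exact tsum_congr fun k => tsum_mul_left
  rwa [h3] at h2

theorem sub_exp {s ρ : ℝ} (hs0 : 0 < s) (hs1 : s ≤ 1 / 2) (hs : d * s ≤ 1 / 2) (K : ℕ)
    (hρ0 : 0 ≤ ρ) (hρ : ρ < 1) (A : ℝ) (r : ℕ) :
    ∃ C : ℝ, ∀ n : ℕ, 2 ≤ n → ∀ t : ℕ → ℝ, (∀ k, |t k| ≤ (ρ * (3 / 4 * s)) ^ k) →
      (∀ S : Finset (Sym2 (Vx d)), |∑ k ∈ range (S.card + 1),
        gam S k * t k * ((n : ℝ)⁻¹ / (1 - Real.exp (-(s / n)))) ^ k| ≤ A * (S.card + 1) ^ r) →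
      |∑ k ∈ range ((edges d n).card + 1), gam (edges d n) k * (n : ℝ)⁻¹ ^ k * t k -
        ∑ i ∈ range (K + 1), (n : ℝ)⁻¹ ^ i * ∑' k, t k * cc d s K k i| ≤
        C * (n : ℝ)⁻¹ ^ (K + 1) := by
  obtain ⟨C, h0⟩ := (((summable_poly (r + 4 * (K + 1))).mul_left (24 * A)).add
    ((summable_poly (2 + 4 * (K + 1))).mul_left
      ((K + 2) * (432 * (1 + 2 ^ 2 ^ K)) : ℝ))).mul_left
      ((4 * (2 * d + 6) ^ 2 : ℝ) ^ (K + 1))
  refine ⟨C, fun n hn t ht hA => ?_⟩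
  · have h1 := (hasSum_shapes (d := d) (n := n) (by omega) hs0 t).sub (hasSum_sum
      (s := range (K + 1)) fun i _ => (hasSum_cc hs0 hs1 hs K i hρ0 hρ ht).mul_left
        ((n : ℝ)⁻¹ ^ i))
    refine h1.norm_le_of_bounded (h0.mul_right ((n : ℝ)⁻¹ ^ (K + 1))) fun b => ?_
    refine (shape_est hs0 hs1 hs K b hn (fun k => (ht k).trans (pow_le_pow_left₀ (by positivity)
      (mul_le_of_le_one_left (by positivity) hρ.le) k)) hA).trans (le_of_eq ?_)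
    rw [Bb]
    push_cast
    rw [show (2 * (2 * ((2 * d + 6) * (b + 1) ^ 2) ^ 2) * (n : ℝ)⁻¹) =
      (4 * (2 * d + 6) ^ 2) * (b + 1) ^ 4 * (n : ℝ)⁻¹ by ring]
    simp only [mul_pow _ _ (K + 1), ← pow_mul]
    ring

/-- the coefficient of `p ^ k` divided by `n ^ k`, as a polynomial in `1 / n` -/
noncomputable def QQ (d k : ℕ) : Polynomial ℝ :=
  ∑ S ∈ Sh d k, Polynomial.C (dlt csz S) * (Polynomial.X ^ (k - ∑ i, kS S i) *
    ∏ i, ∏ r ∈ range (kS S i), (Polynomial.C (1 / ((r : ℝ) + 1)) - Polynomial.X))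

theorem QQ_deg (d k : ℕ) : (QQ d k).natDegree ≤ k := by
  refine Polynomial.natDegree_sum_le_of_forall_le _ _ fun S hS => ?_
  obtain ⟨a1, a2, a3, _⟩ := Sh_prop hS
  have h1 := sum_kS_le a1 a2
  refine (Polynomial.natDegree_C_mul_le _ _).trans (Polynomial.natDegree_mul_le.trans ?_)
  have h2 : (∏ i, ∏ r ∈ range (kS S i),
      (Polynomial.C (1 / ((r : ℝ) + 1)) - Polynomial.X)).natDegree ≤ ∑ i, kS S i := by
    refine (Polynomial.natDegree_prod_le _ _).trans (sum_le_sum fun i _ =>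
      (Polynomial.natDegree_prod_le _ _).trans ((sum_le_card_nsmul _ _ 1 fun r _ => ?_).trans
        (by simp)))
    compute_degree
  rw [Polynomial.natDegree_X_pow]
  omega

theorem QQ_eval (hn : 1 ≤ n) (k : ℕ) :
    (QQ d k).eval (n : ℝ)⁻¹ = gam (edges d n) k * (n : ℝ)⁻¹ ^ k := by
  have h0 : (0 : ℝ) < n := by exact_mod_cast hn
  have h1 := orbit1 (d := d) hn k (dlt csz) fun s hi h0 S => dlt_csz_emap (cw_inj hi) h0 S
  have h2 : gam (edges d n) k =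
      ∑ S ∈ (edges d n).powerset, ind (conn S ∧ S.card = k) * dlt csz S := by
    rw [gam, powersetCard_eq_filter, sum_filter]
    refine sum_congr rfl fun S _ => ?_
    by_cases h : dlt csz S = 0
    · simp [h]
    by_cases h' : S.card = k
    · rw [if_pos h', ind_pos ⟨conn_of_dlt h, h'⟩, one_mul]
    · rw [if_neg h', ind_neg fun h => h' h.2, zero_mul]
  rw [h2, h1, QQ, Polynomial.eval_finset_sum, sum_mul]
  refine sum_congr rfl fun S hS => ?_
  obtain ⟨a1, a2, a3, _⟩ := Sh_prop hS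
  obtain ⟨x, hx⟩ := Nat.exists_eq_add_of_le (sum_kS_le a1 a2)
  simp only [Polynomial.eval_mul, Polynomial.eval_C, Polynomial.eval_pow, Polynomial.eval_X,
    Polynomial.eval_prod, Polynomial.eval_sub, choose_eq hn]
  have e1 : ∀ r : ℕ, (1 - (r + 1) * (n : ℝ)⁻¹) / (r + 1) = 1 / ((r : ℝ) + 1) - (n : ℝ)⁻¹ :=
    fun r => by field_simp
  simp only [e1]
  rw [prod_mul_distrib, prod_pow_eq_pow_sum, ← a3, hx, Nat.add_sub_cancel_left, pow_add,
    inv_pow _ (∑ i, kS S i)]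
  field_simp

theorem gam_eq_coef (hn : 1 ≤ n) (k : ℕ) :
    gam (edges d n) k = ∑ i ∈ range (k + 1), (QQ d k).coeff i * (n : ℝ) ^ (k - i) := by
  have h0 : (0 : ℝ) < n := by exact_mod_cast hn
  have h1 := QQ_eval (d := d) hn k
  rw [Polynomial.eval_eq_sum_range' (Nat.lt_succ_of_le (QQ_deg d k))] at h1
  rw [inv_pow, eq_mul_inv_iff_mul_eq₀ (by positivity), sum_mul] at h1
  rw [← h1]
  refine sum_congr rfl fun i hi => ?_
  rw [pow_sub₀ _ h0.ne' (Nat.lt_succ_iff.1 (mem_range.1 hi)), inv_pow]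
  ring

theorem lam_le {s : ℝ} (hs0 : 0 < s) (hs1 : s ≤ 1 / 2) (hn : 2 ≤ n) :
    0 ≤ (n : ℝ)⁻¹ / (1 - Real.exp (-(s / n))) ∧
      3 / 4 * s * ((n : ℝ)⁻¹ / (1 - Real.exp (-(s / n)))) ≤ 1 := by
  have h0 : (2 : ℝ) ≤ n := by exact_mod_cast hn
  have h1 : 0 < s / n := by positivity
  have h2 : s / n ≤ 1 / 4 := by rw [div_le_iff₀ (by linarith)]; linarith
  have h3 := (abs_le.1 (Real.abs_exp_sub_one_sub_id_le (x := -(s / n))
    (by rw [abs_neg, abs_of_pos h1]; linarith))).2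
  have h4 : 3 / 4 * (s / n) ≤ 1 - Real.exp (-(s / n)) := by nlinarith
  refine ⟨div_nonneg (by positivity) (by linarith), ?_⟩
  rw [← mul_div_assoc, div_le_one (by linarith), mul_assoc, ← div_eq_mul_inv]
  exact h4

theorem cc_eq {s : ℝ} (hs0 : 0 < s) (hs1 : s ≤ 1 / 2) (hs : d * s ≤ 1 / 2) {K i : ℕ} (hi : i ≤ K)
    (k : ℕ) : cc d s K k i = (QQ d k).coeff i := by
  obtain ⟨C, hC⟩ := sub_exp hs0 hs1 hs K (ρ := 1 / 2) (by norm_num) (by norm_num)
    (2 ^ k * (2 * k + 1)) k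
  set τ : ℝ := (1 / 2 * (3 / 4 * s)) ^ k with hτ
  have hτ0 : 0 < τ := by positivity
  have := poly_coeff_zero (QQ d k - ∑ i ∈ range (K + 1), Polynomial.monomial i (cc d s K k i))
    (K + 1) (C / τ) ?_ i (by omega)
  · rw [Polynomial.coeff_sub, Polynomial.finset_sum_coeff, sum_eq_single i] at this
    · rw [Polynomial.coeff_monomial_same] at this; linarith
    · intro j _ hj; exact Polynomial.coeff_monomial_of_ne _ hj.symm
    · intro h; exact absurd (mem_range.2 (by omega)) h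
  refine (Filter.eventually_ge_atTop 2).mono fun n hn => ?_
  have h1 := hC n hn (fun j => if j = k then τ else 0) (fun j => ?_) fun S => ?_
  · rw [sum_eq_single k] at h1
    · simp only [ite_mul, zero_mul, tsum_ite_eq, if_true] at h1
      rw [Polynomial.eval_sub, QQ_eval (by omega), Polynomial.eval_finset_sum, div_mul_eq_mul_div,
        le_div_iff₀ hτ0, ← abs_of_pos hτ0, ← abs_mul, sub_mul, sum_mul]
      refine le_trans (le_of_eq ?_) h1
      congr 2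
      exact sum_congr rfl fun i _ => by rw [Polynomial.eval_monomial]; ring
    · intro j _ hj; rw [if_neg hj, mul_zero]
    · intro h; rw [gam_eq_zero (by simpa using h)]; simp
  · split_ifs with h
    · rw [h, abs_of_pos hτ0]
    · rw [abs_zero]; positivity
  · obtain ⟨l0, l1⟩ := lam_le hs0 hs1 hn
    rw [sum_eq_single k]
    · rw [if_pos rfl, mul_assoc, abs_mul, hτ, ← mul_pow]
      refine (mul_le_of_le_one_right (abs_nonneg _) ?_).trans (abs_gam_le S k)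
      rw [abs_of_nonneg (by positivity)]
      exact pow_le_one₀ (by positivity) (by nlinarith)
    · intro j _ hj; rw [if_neg hj, mul_zero, zero_mul]
    · intro h; rw [gam_eq_zero (by simpa using h)]; simp

theorem coef_le {s : ℝ} (hs0 : 0 < s) (hs1 : s ≤ 1 / 2) (hs : d * s ≤ 1 / 2) (i : ℕ) :
    ∃ C : ℝ, ∀ k, |(QQ d k).coeff i| ≤ C * (3 / 4 * s)⁻¹ ^ k := by
  obtain ⟨C, hC⟩ := cc_le hs0 hs1 hs i i
  exact ⟨C, fun k => cc_eq hs0 hs1 hs le_rfl k ▸ hC k⟩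

theorem chi_exp {s ρ : ℝ} (hs0 : 0 < s) (hs1 : s ≤ 1 / 2) (hs : d * s ≤ 1 / 2) (K : ℕ)
    (hρ0 : 0 ≤ ρ) (hρ : ρ < 1) :
    ∃ C : ℝ, ∀ n : ℕ, 2 ≤ n → ∀ σ : ℝ, 0 ≤ σ → σ ≤ ρ * (3 / 4 * s) →
      |chi d n (σ * (n : ℝ)⁻¹) -
        ∑ i ∈ range (K + 1), (n : ℝ)⁻¹ ^ i * ∑' k, (QQ d k).coeff i * σ ^ k| ≤
        C * (n : ℝ)⁻¹ ^ (K + 1) := by
  obtain ⟨C, hC⟩ := sub_exp hs0 hs1 hs K hρ0 hρ 2 1
  refine ⟨C, fun n hn σ h0 h1 => ?_⟩
  have h2 := hC n hn (fun k => σ ^ k) (fun k => ?_) fun S => ?_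
  · refine le_trans (le_of_eq ?_) h2
    rw [chi_eq_Ex (by omega), Ex_csz]
    congr 2
    · exact sum_congr rfl fun k _ => by ring
    · refine sum_congr rfl fun i hi => ?_
      congr 1
      exact tsum_congr fun k => by
        rw [cc_eq hs0 hs1 hs (Nat.lt_succ_iff.1 (mem_range.1 hi)), mul_comm]
  · rw [abs_of_nonneg (by positivity)]
    exact pow_le_pow_left₀ h0 h1 k
  · obtain ⟨l0, l1⟩ := lam_le hs0 hs1 hn
    set l := (n : ℝ)⁻¹ / (1 - Real.exp (-(s / n)))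
    have q0 : 0 ≤ σ * l := by positivity
    have q1 : σ * l ≤ 1 := (mul_le_mul_of_nonneg_right (h1.trans
      (mul_le_of_le_one_left (by positivity) hρ.le)) l0).trans l1
    simp only [mul_assoc, ← mul_pow]
    rw [← Ex_csz, abs_of_nonneg (Ex_nonneg q0 q1 fun _ _ => csz_nonneg _), pow_one,
      ← Ex_const (σ * l) S (2 * (S.card + 1))]
    refine Ex_mono q0 q1 fun ω hω => (csz_le ω).trans ?_
    have : (ω.card : ℝ) ≤ S.card := by exact_mod_cast card_le_card hω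
    linarith

end HamPerc
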