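import Pool.Agent.Lib.MP_58a483_pr.H80Solve
import Pool.Agent.Lib.MP_58a483_pr.Defs

set_option autoImplicit false
set_option linter.unusedSectionVars false
set_option linter.unusedVariables false
set_option linter.deprecated false

namespace Pool.Agent.Lib.MP_58a483_pr.H80

open Finset Filter Topology

lemma chiH_mono {d n : ℕ} (o : Fin d → Fin n) {p p' : ℝ} (h0 : 0 ≤ p) (h : p ≤ p') (h1 : p' ≤ 1) :
    chiH d n p o ≤ chiH d n p' o :=
  sum_le_sum fun y _ => Ex_mono_p _ h0 h h1 _ fun a b hab => ind_mono fun c => c.mono hab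

lemma scale {d n : ℕ} (hd : 7 ≤ d) (hn : 1 ≤ n) {s : ℝ} (s0 : 0 < s) (hs : s ^ 3 = (n : ℝ) ^ d) :
    (1 / (n : ℝ)) ^ d * s ^ 2 = 1 / s ∧ 1 / s ≤ (1 / (n : ℝ)) ^ 2 := by
  have n1 : (1 : ℝ) ≤ n := by exact_mod_cast hn
  constructor
  · rw [one_div_pow, ← hs]; field_simp
  · rw [one_div_pow]
    refine one_div_le_one_div_of_le (by positivity) ?_
    refine le_of_pow_le_pow_left₀ (n := 3) (by norm_num) s0.le ?_
    rw [hs, ← pow_mul]
    exact pow_le_pow_right₀ n1 (by omega)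

lemma apriori {d : ℕ} (hd : 7 ≤ d) {lam : ℝ} (hl : 0 < lam) : ∃ (C0 : ℝ) (n0 : ℕ), 0 ≤ C0 ∧
    ∀ n ≥ n0, 40 ≤ n ∧ 2 * d * C0 ≤ n ∧ ∀ (o : Fin d → Fin n) (p s : ℝ), 0 < s →
      s ^ 3 = (n : ℝ) ^ d → p ≤ 1 → chiH d n p o ≤ lam * s → d * (p * n) ≤ 1 + C0 / n := by
  have d7 : (7 : ℝ) ≤ d := by exact_mod_cast hd
  obtain ⟨f1, f2⟩ := bd_F (X := {c : ℝ // 0 ≤ c ∧ c ≤ 1 / 4}) d (c := fun i => i.1)
    (fun i => i.2.1) fun i => i.2.2
  obtain ⟨M1, m1, h1⟩ := f1.nonneg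
  obtain ⟨M2, m2, h2⟩ := f2.nonneg
  have c0 : 0 ≤ d * (M1 + 1) := by positivity
  obtain ⟨C, C0, h⟩ := fam_rel hd c0
  obtain ⟨n0, hn0⟩ := exists_nat_gt (40 + 2 * d * (d * (M1 + 1)) + (M2 + C * (1 + lam ^ 2)))
  refine ⟨_, n0, c0, fun n hn => ?_⟩
  have n1 : (n0 : ℝ) ≤ n := by exact_mod_cast hn
  have a1 : 0 ≤ 2 * d * (d * (M1 + 1)) := by positivity
  have a2 : 0 ≤ M2 + C * (1 + lam ^ 2) := by positivity
  have n2 : (40 : ℝ) ≤ n := by linarith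
  have n3 : 40 ≤ n := by exact_mod_cast n2
  refine ⟨n3, by linarith, fun o p s s0 hs p1 hχ => ?_⟩
  by_contra hne
  obtain ⟨q, hq⟩ : ∃ q : ℝ, q = (1 + d * (M1 + 1) / n) / (d * n) := ⟨_, rfl⟩
  have q0 : 0 ≤ q := by rw [hq]; positivity
  have q1 : d * (q * n) = 1 + d * (M1 + 1) / n := by rw [hq]; field_simp
  have q2 : q ≤ p := by
    by_contra hh
    have := mul_le_mul_of_nonneg_left (mul_le_mul_of_nonneg_right (not_le.1 hh).le
      (show (0 : ℝ) ≤ n by linarith)) (show (0 : ℝ) ≤ d by linarith)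
    linarith
  obtain ⟨b1, t, t0, -, b2⟩ := h n q o n3 (by linarith) q0 q1.le
  have c1 : 0 ≤ q * n := by positivity
  have b3 := (le_abs_self _).trans (h1 ⟨q * n, c1, b1⟩)
  have b4 := (le_abs_self _).trans (h2 ⟨q * n, c1, b1⟩)
  simp only at b3 b4
  obtain ⟨e1, e2⟩ := scale hd (by omega) s0 hs
  have χ0 : 0 ≤ chiH d n q o := sum_nonneg fun _ _ =>
    Ex_nonneg q0 (q2.trans p1) fun _ _ => ind_nonneg _
  have b5 : (1 / (n : ℝ)) ^ d * chiH d n q o ^ 2 ≤ lam ^ 2 * (1 / (n : ℝ)) ^ 2 := by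
    have := pow_le_pow_left₀ χ0 ((chiH_mono o q0 q2 p1).trans hχ) 2
    calc _ ≤ (1 / (n : ℝ)) ^ d * (lam * s) ^ 2 := mul_le_mul_of_nonneg_left this (by positivity)
      _ = lam ^ 2 * ((1 / (n : ℝ)) ^ d * s ^ 2) := by ring
      _ ≤ _ := by rw [e1]; exact mul_le_mul_of_nonneg_left e2 (by positivity)
  have b6 : q * n - 1 / d = (M1 + 1) * (1 / n) := by rw [hq]; field_simp; ring
  have z0 : (0 : ℝ) < 1 / n := by positivity
  have zn : n * (1 / n : ℝ) = 1 := by field_simp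
  have z1 : (1 / n : ℝ) ≤ 1 := by rw [div_le_one (by linarith)]; linarith
  have b7 := (le_abs_self _).trans b2
  rw [b6] at b7
  generalize (1 / (n : ℝ)) ^ d * chiH d n q o ^ 2 = g at *
  generalize (1 / n : ℝ) = z at *
  have k1 := mul_le_mul_of_nonneg_left b3 z0.le
  have k2 := mul_le_mul_of_nonneg_left b4 (sq_nonneg z)
  have k3 : z ^ 3 ≤ z ^ 2 := pow_le_pow_of_le_one z0.le z1 (by norm_num)
  have k4 := mul_le_mul_of_nonneg_left (add_le_add k3 b5) C0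
  have k5 : z ≤ (M2 + C * (1 + lam ^ 2)) * z ^ 2 := by linarith
  have k6 := mul_lt_mul_of_pos_right (show M2 + C * (1 + lam ^ 2) < n by linarith) (pow_pos z0 2)
  have k7 : n * z ^ 2 = z := by rw [sq, ← mul_assoc, zn, one_mul]
  linarith

theorem pc_three {d : ℕ} (hd : 7 ≤ d) {lam : ℝ} (hl : 0 < lam) : ∃ (C : ℝ) (n0 : ℕ),
    ∀ n ≥ n0, ∀ (o : Fin d → Fin n) (p s : ℝ), 0 < s → s ^ 3 = (n : ℝ) ^ d → 0 ≤ p → p ≤ 1 →
      chiH d n p o = lam * s →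
      |p * n - 1 / d - 1 / n * a2 d - (1 / (n : ℝ)) ^ 2 * a3 d| ≤ C * ((1 / (n : ℝ)) ^ 3 + 1 / s) := by
  have d7 : (7 : ℝ) ≤ d := by exact_mod_cast hd
  obtain ⟨C0, n0, c0, h0⟩ := apriori hd hl
  obtain ⟨C, C1, h⟩ := fam_rel hd c0
  obtain ⟨A, hA⟩ : ∃ A, A = C * (1 + lam ^ 2 + 1 / lam) := ⟨_, rfl⟩
  have A0 : 0 ≤ A := by rw [hA]; positivity
  obtain ⟨C2, c2, h2⟩ := solve d7 (2 * A)
  refine ⟨C2 + A, n0, fun n hn o p s s0 hs p0 p1 hχ => ?_⟩
  obtain ⟨n1, n2, n3⟩ := h0 n hn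
  obtain ⟨b1, t, t0, t1, b2⟩ := h n p o n1 n2 p0 (n3 o p s s0 hs p1 hχ.le)
  obtain ⟨e1, e2⟩ := scale hd (by omega) s0 hs
  have n4 : (40 : ℝ) ≤ n := by exact_mod_cast n1
  have z0 : (0 : ℝ) < 1 / n := by positivity
  have z1 : (1 / n : ℝ) ≤ 1 := by rw [div_le_one (by linarith)]; linarith
  have c1 : 0 ≤ p * n := by positivity
  have e3 : (1 / (n : ℝ)) ^ d * (lam * s) ^ 2 = lam ^ 2 * (1 / s) := by rw [← e1]; ring
  have e4 : C / (lam * s) = C * (1 / lam) * (1 / s) := by field_simp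
  rw [hχ, e3] at b2
  rw [hχ, e4] at t1
  have u0 : 0 < 1 / s := by positivity
  have l0 : 0 < 1 / lam := by positivity
  generalize 1 / s = u at *
  generalize 1 / lam = l at *
  generalize (1 / n : ℝ) = z at *
  generalize p * n = c at *
  have z3 : 0 < z ^ 3 := by positivity
  have k1 : |c - 1 / d - z * F1 d c - z ^ 2 * F2 d c| ≤ A * (z ^ 3 + u) := by
    have a1 : 0 ≤ C * (lam ^ 2 + l) * z ^ 3 := by positivity
    have a2 : 0 ≤ C * u := by positivity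
    rw [abs_le] at b2 ⊢
    rw [hA]
    constructor <;> nlinarith [b2.1, b2.2, mul_nonneg (mul_nonneg C1 l0.le) u0.le]
  have k3 : z ^ 3 ≤ z ^ 2 := pow_le_pow_of_le_one z0.le z1 (by norm_num)
  have k2 := h2 z c _ z0 z1 c1 b1 (by ring) (k1.trans ((mul_le_mul_of_nonneg_left
    (add_le_add k3 e2) A0).trans (le_of_eq (by ring))))
  have k4 := mul_nonneg c2 u0.le
  rw [abs_le] at k1 k2 ⊢
  constructor <;> linarith [k1.1, k1.2, k2.1, k2.2]

lemma susc_eq_chiH {d n : ℕ} (x : Fin d → Fin n) (p : ℝ) : HamPerc.susc d n x p = chiH d n p x := by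
  classical
  have hE : (HamPerc.hamming d n).edgeFinset = EH d n := by
    ext e
    induction e using Sym2.ind with
    | _ a b =>
    rw [mem_EH, SimpleGraph.mem_edgeFinset, SimpleGraph.mem_edgeSet]
    change hammingDist a b = 1 ↔ _
    rw [hammingDist, card_eq_one]
    simp only [AdjC, ne_eq, Finset.ext_iff, mem_filter, mem_univ, true_and, mem_singleton]
    refine exists_congr fun i => ⟨fun h => ⟨(h i).2 rfl, fun j hj => ?_⟩,
      fun h j => ⟨fun h1 => ?_, fun h1 => h1 ▸ h.1⟩⟩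
    · by_contra h1; exact hj ((h j).1 h1)
    · by_contra hj; exact h1 (h.2 j hj)
  have hR : ∀ (ω : Finset (Sym2 (Fin d → Fin n))) y,
      (SimpleGraph.fromEdgeSet (ω : Set (Sym2 (Fin d → Fin n)))).Reachable x y ↔ Conn ω x y := by
    intro ω y
    constructor
    · rw [SimpleGraph.reachable_iff_reflTransGen]
      intro h
      induction h with
      | refl => exact Conn.refl _ _
      | tail _ h ih => exact ih.tail ((SimpleGraph.fromEdgeSet_adj _).1 h).1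
    · intro h
      refine h.closure (fun v => (SimpleGraph.fromEdgeSet (ω : Set (Sym2 (Fin d → Fin n)))).Reachable
        x v) (SimpleGraph.Reachable.refl _) fun a b ha he => ?_
      by_cases e : a = b
      · exact e ▸ ha
      · exact ha.trans (SimpleGraph.Adj.reachable ((SimpleGraph.fromEdgeSet_adj _).2 ⟨he, e⟩))
  unfold chiH tau
  rw [← Ex_sum, ← hE]
  unfold HamPerc.susc Ex
  refine sum_congr (by congr) fun ω _ => ?_
  congr 1
  rw [← sum_ind_eq_card]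
  exact sum_congr rfl fun y _ => ind_congr (hR ω y)

lemma coef_zero {α β C : ℝ} (h : ∀ᶠ n : ℕ in atTop,
    |α + β * (1 / (n : ℝ))| ≤ C * (n : ℝ) ^ (-(4 / 3) : ℝ)) : α = 0 ∧ β = 0 := by
  have t1 : Tendsto (fun n : ℕ => 1 / (n : ℝ)) atTop (𝓝 0) := tendsto_one_div_atTop_nhds_zero_nat
  have t2 : ∀ e : ℝ, 0 < e → Tendsto (fun n : ℕ => C * (n : ℝ) ^ (-e)) atTop (𝓝 0) := fun e he => by
    simpa using ((tendsto_rpow_neg_atTop he).comp tendsto_natCast_atTop_atTop).const_mul C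
  have a0 : α = 0 := by
    have := le_of_tendsto_of_tendsto ((t1.const_mul β).const_add α).abs (t2 _ (by norm_num)) h
    simpa using this
  refine ⟨a0, abs_nonpos_iff.1 (ge_of_tendsto (t2 (1 / 3) (by norm_num)) ?_)⟩
  filter_upwards [h, eventually_gt_atTop 0] with n h1 h2
  have n0 : (0 : ℝ) < n := by exact_mod_cast h2
  rw [a0, zero_add, abs_mul, abs_of_pos (one_div_pos.2 n0), mul_one_div, div_le_iff₀ n0] at h1
  refine h1.trans (le_of_eq ?_)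
  rw [mul_assoc, ← Real.rpow_add_one n0.ne']
  norm_num

theorem coef_eq {d : ℕ} (hd : 7 ≤ d) {a : ℕ → ℝ} (a1 : a 1 = 1 / d) {C : ℝ} {n₀ : ℕ}
    (h : ∀ n ≥ n₀, ∀ x : Fin d → Fin n,
      (∃ p ∈ Set.Icc (0 : ℝ) 1, HamPerc.susc d n x p = 1 * ((n : ℝ) ^ d) ^ (1 / 3 : ℝ)) ∧
      ∀ p ∈ Set.Icc (0 : ℝ) 1, HamPerc.susc d n x p = 1 * ((n : ℝ) ^ d) ^ (1 / 3 : ℝ) →
        |p - ∑ i ∈ Icc 1 ⌈(d : ℝ) / 3⌉₊, a i / (n : ℝ) ^ i| ≤ C * (n : ℝ) ^ (-1 - (d : ℝ) / 3)) :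
    a 2 = a2 d ∧ a 3 = a3 d := by
  have d7 : (7 : ℝ) ≤ d := by exact_mod_cast hd
  obtain ⟨C', n1, h'⟩ := pc_three hd one_pos
  have m3 : 3 ≤ ⌈(d : ℝ) / 3⌉₊ := Nat.succ_le_of_lt (Nat.lt_ceil.2 (by push_cast; linarith))
  generalize ⌈(d : ℝ) / 3⌉₊ = m at *
  have := coef_zero (α := a 2 - a2 d) (β := a 3 - a3 d)
    (C := |C| + 2 * |C'| + ∑ i ∈ Icc 4 m, |a i|) ?_
  · exact ⟨sub_eq_zero.1 this.1, sub_eq_zero.1 this.2⟩
  filter_upwards [eventually_ge_atTop n₀, eventually_ge_atTop n1, eventually_ge_atTop 1]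
    with n h1 h2 h3
  have n0 : (1 : ℝ) ≤ n := by exact_mod_cast h3
  have n0' : (0 : ℝ) < n := by linarith
  obtain ⟨⟨p, hp, e⟩, k⟩ := h n h1 fun _ => ⟨0, h3⟩
  have k1 := k p hp e
  rw [susc_eq_chiH] at e
  have k2 := h' n h2 _ p _ (by positivity) (by
    rw [← Real.rpow_natCast, ← Real.rpow_mul (by positivity)]; norm_num) hp.1 hp.2 e
  set u := (n : ℝ) ^ (-(4 / 3) : ℝ) with hu
  have u0 : 0 < u := by positivity
  have up : ∀ (j : ℕ) (t : ℝ), j + t ≤ -(4 / 3) → (n : ℝ) ^ j * (n : ℝ) ^ t ≤ u := fun j t ht => by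
    rw [← Real.rpow_natCast, ← Real.rpow_add n0']
    exact Real.rpow_le_rpow_of_exponent_le n0 ht
  have b1 : (n : ℝ) ^ 2 * |p - ∑ i ∈ Icc 1 m, a i / (n : ℝ) ^ i| ≤ |C| * u := by
    have := mul_le_mul_of_nonneg_left (up 2 (-1 - d / 3) (by push_cast; linarith)) (abs_nonneg C)
    have k3 := mul_le_mul_of_nonneg_left (k1.trans (mul_le_mul_of_nonneg_right (le_abs_self C)
      (by positivity))) (pow_nonneg n0'.le 2)
    linarith
  have b2 : (n : ℝ) * |p * n - 1 / d - 1 / n * a2 d - (1 / (n : ℝ)) ^ 2 * a3 d| ≤ 2 * |C'| * u := by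
    have e1 : (1 / (n : ℝ)) ^ 3 = (n : ℝ) ^ (-3 : ℝ) := by
      rw [Real.rpow_neg n0'.le, one_div, inv_pow]; norm_cast
    have e2 : 1 / ((n : ℝ) ^ d) ^ (1 / 3 : ℝ) = (n : ℝ) ^ (-((d : ℝ) / 3)) := by
      rw [Real.rpow_neg n0'.le, one_div, ← Real.rpow_natCast, ← Real.rpow_mul n0'.le, mul_one_div]
    rw [e1, e2] at k2
    have c1 := up 1 (-3) (by norm_num)
    have c2 := up 1 (-((d : ℝ) / 3)) (by push_cast; linarith)
    have c3 := mul_le_mul_of_nonneg_left (add_le_add c1 c2) (abs_nonneg C')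
    have k3 := mul_le_mul_of_nonneg_left (k2.trans (mul_le_mul_of_nonneg_right (le_abs_self C')
      (by positivity))) n0'.le
    linarith
  have b3 : (n : ℝ) ^ 2 * |∑ i ∈ Icc 4 m, a i / (n : ℝ) ^ i| ≤ (∑ i ∈ Icc 4 m, |a i|) * u := by
    refine (mul_le_mul_of_nonneg_left (abs_sum_le_sum_abs _ _) (by positivity)).trans ?_
    rw [mul_sum, sum_mul]
    refine sum_le_sum fun i hi => ?_
    have c0 : (4 : ℝ) ≤ i := by exact_mod_cast (mem_Icc.1 hi).1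
    have c1 := mul_le_mul_of_nonneg_left (up 2 (-(i : ℝ)) (by push_cast; linarith))
      (abs_nonneg (a i))
    rw [Real.rpow_neg n0'.le, Real.rpow_natCast] at c1
    rw [abs_div, abs_of_pos (pow_pos n0' i)]
    exact le_trans (le_of_eq (by ring)) c1
  have e3 : ∑ i ∈ Icc 1 m, a i / (n : ℝ) ^ i = a 1 / n + a 2 / (n : ℝ) ^ 2 + a 3 / (n : ℝ) ^ 3 +
      ∑ i ∈ Icc 4 m, a i / (n : ℝ) ^ i := by
    rw [← insert_Icc_add_one_left_eq_Icc (show 1 ≤ m by omega), sum_insert (by simp),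
      ← insert_Icc_add_one_left_eq_Icc (show 1 + 1 ≤ m by omega), sum_insert (by simp),
      ← insert_Icc_add_one_left_eq_Icc (show 1 + 1 + 1 ≤ m by omega), sum_insert (by simp)]
    norm_num
    ring
  rw [e3, a1] at b1
  generalize ∑ i ∈ Icc 4 m, a i / (n : ℝ) ^ i = T at *
  have e4 : a 2 - a2 d + (a 3 - a3 d) * (1 / n) =
      n * (p * n - 1 / d - 1 / n * a2 d - (1 / (n : ℝ)) ^ 2 * a3 d) -
      (n : ℝ) ^ 2 * (p - (1 / d / n + a 2 / (n : ℝ) ^ 2 + a 3 / (n : ℝ) ^ 3 + T)) -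
      (n : ℝ) ^ 2 * T := by
    field_simp
    ring
  rw [e4]
  refine (abs_sub _ _).trans ((add_le_add (abs_sub _ _) le_rfl).trans ?_)
  rw [abs_mul, abs_mul, abs_mul, abs_of_pos n0', abs_of_pos (pow_pos n0' 2)]
  linarith

end Pool.Agent.Lib.MP_58a483_pr.H80
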