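import Pool.Agent.Lib.MP_58a483_pr.Bridge
import Pool.Agent.Lib.MP_58a483_pr.H80Fin

/-!
Asymptotic expansion to all orders of the critical value of percolation on Hamming graphs: the
coefficients are determined by Newton extrapolation in the dimension, and the first three are
given in closed form.
-/

open Finset HamPerc

theorem Pool.Agent.Results.MP_58a483_pr.Complete.result :
    ∃ c : ℕ → ℕ → ℕ → ℝ, IsCoef c ∧ (∀ c', IsCoef c' → c' = c) ∧ ∀ d : ℕ, 3 ≤ d →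
      (∃ r : ℝ, 1 / (d : ℝ) < r ∧ ∀ v ≤ d / 3, ∀ i, Summable fun k => |c v k i| * r ^ k) ∧
      ∃ a : ℕ → ℝ, IsSol c d a ∧ (∀ b, IsSol c d b → ∀ i ∈ Icc 1 (d / 3 + 1), b i = a i) ∧
        a 1 = 1 / (d : ℝ) ∧
        (7 ≤ d →
          a 2 = (2 * (d : ℝ) ^ 3 - 2 * (d : ℝ) ^ 2 + 2 * (d : ℝ) - 1) /
            (2 * (d : ℝ) ^ 2 * ((d : ℝ) - 1) ^ 2) ∧
          a 3 = (6 * (d : ℝ) ^ 9 - 42 * (d : ℝ) ^ 8 + 129 * (d : ℝ) ^ 7 - 231 * (d : ℝ) ^ 6 +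
            285 * (d : ℝ) ^ 5 - 259 * (d : ℝ) ^ 4 + 159 * (d : ℝ) ^ 3 - 73 * (d : ℝ) ^ 2 +
            24 * (d : ℝ) - 4) / (6 * (d : ℝ) ^ 3 * ((d : ℝ) - 1) ^ 5 * ((d : ℝ) - 2) ^ 2)) ∧
        ∀ lam : ℝ, 0 < lam → ∃ (C : ℝ) (n₀ : ℕ), ∀ n ≥ n₀, ∀ x : Fin d → Fin n,
          (∃ p ∈ Set.Icc (0 : ℝ) 1, susc d n x p = lam * ((n : ℝ) ^ d) ^ (1 / 3 : ℝ)) ∧
          ∀ p ∈ Set.Icc (0 : ℝ) 1, susc d n x p = lam * ((n : ℝ) ^ d) ^ (1 / 3 : ℝ) →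
            |p - ∑ i ∈ Icc 1 ⌈(d : ℝ) / 3⌉₊, a i / (n : ℝ) ^ i| ≤
              C * (n : ℝ) ^ (-1 - (d : ℝ) / 3) := by
  refine ⟨_, isCoef_QQ, fun c' h => isCoef_QQ.unique h, fun d hd => ⟨coef_summable hd, ?_⟩⟩
  have hd' : (0 : ℝ) < d := by exact_mod_cast (by omega : 0 < d)
  obtain ⟨a, a0, a1⟩ := implicit_exists hd' (PS_analytic hd) (PS_zero hd) (d / 3)
  have h : IsSol (fun v k i => (QQ v k).coeff i) d fun i => a (i - 1) := ⟨a0, a1⟩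
  refine ⟨_, h, fun b hb i hi => ?_, h.1, fun h7 => ?_, fun lam hl => pc_expansion hd h hl⟩
  · rw [mem_Icc] at hi
    have := implicit_unique hd' (PS_analytic hd) (PS_zero hd) (d / 3) (a := fun i => b (i + 1))
      hb.1 a0 hb.2 a1 (i - 1) (by omega)
    rwa [Nat.sub_add_cancel hi.1] at this
  · obtain ⟨C, n₀, hC⟩ := pc_expansion hd h one_pos
    exact Pool.Agent.Lib.MP_58a483_pr.H80.coef_eq h7 h.1 hC
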