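import Mathlib

/-!
Finite product measure on subsets of a finite set: expectation, independence,
monotonicity in the parameter and the van den Berg-Kesten inequality for `p ≤ 1/2`.
-/

open Finset

namespace HamPerc

open Classical in
/-- real indicator of a proposition -/
noncomputable def ind (P : Prop) : ℝ := if P then 1 else 0

theorem ind_pos {P : Prop} (h : P) : ind P = 1 := by simp [ind, h]
theorem ind_neg {P : Prop} (h : ¬ P) : ind P = 0 := by simp [ind, h]
theorem ind_nonneg (P : Prop) : 0 ≤ ind P := by unfold ind; split_ifs <;> norm_num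
theorem ind_le_one (P : Prop) : ind P ≤ 1 := by unfold ind; split_ifs <;> norm_num
theorem ind_congr {P Q : Prop} (h : P ↔ Q) : ind P = ind Q := by rw [propext h]
theorem ind_mono {P Q : Prop} (h : P → Q) : ind P ≤ ind Q := by
  by_cases hp : P
  · rw [ind_pos hp, ind_pos (h hp)]
  · rw [ind_neg hp]; exact ind_nonneg _
theorem ind_and (P Q : Prop) : ind (P ∧ Q) = ind P * ind Q := by
  by_cases hp : P <;> by_cases hq : Q <;> simp [ind, hp, hq]
theorem ind_le_of {P : Prop} {x : ℝ} (h0 : 0 ≤ x) (h : P → 1 ≤ x) : ind P ≤ x := by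
  by_cases hp : P
  · rw [ind_pos hp]; exact h hp
  · rw [ind_neg hp]; exact h0
theorem ind_or_le (P Q : Prop) : ind (P ∨ Q) ≤ ind P + ind Q := by
  by_cases hp : P <;> by_cases hq : Q <;> simp [ind, hp, hq]
theorem ind_le_sum {ι : Type*} {P : Prop} (s : Finset ι) (Q : ι → Prop)
    (h : P → ∃ i ∈ s, Q i) : ind P ≤ ∑ i ∈ s, ind (Q i) := by
  refine ind_le_of (sum_nonneg fun _ _ => ind_nonneg _) fun hp => ?_
  obtain ⟨i, hi, hq⟩ := h hp
  calc (1 : ℝ) = ind (Q i) := (ind_pos hq).symm
    _ ≤ _ := single_le_sum (f := fun i => ind (Q i)) (fun _ _ => ind_nonneg _) hi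
theorem sum_ind {ι : Type*} (s : Finset ι) (Q : ι → Prop) [DecidablePred Q] :
    ∑ i ∈ s, ind (Q i) = ((s.filter Q).card : ℝ) := by
  rw [card_filter]; push_cast
  refine sum_congr rfl fun i _ => ?_
  by_cases h : Q i <;> simp [ind, h]

variable {β : Type*} [DecidableEq β]

/-- expectation of `f` when each element of `E` is kept independently with probability `p` -/
noncomputable def Ex (p : ℝ) (E : Finset β) (f : Finset β → ℝ) : ℝ :=
  ∑ ω ∈ E.powerset, p ^ ω.card * (1 - p) ^ (E.card - ω.card) * f ω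

/-- probability of an event -/
noncomputable def Pr (p : ℝ) (E : Finset β) (A : Finset β → Prop) : ℝ :=
  Ex p E fun ω => ind (A ω)

variable {p : ℝ} {E : Finset β} {f g : Finset β → ℝ}

theorem Ex_empty (p : ℝ) (f : Finset β → ℝ) : Ex p ∅ f = f ∅ := by simp [Ex]

theorem Ex_insert (p : ℝ) {e : β} (he : e ∉ E) (f : Finset β → ℝ) :
    Ex p (insert e E) f = (1 - p) * Ex p E f + p * Ex p E fun ω => f (insert e ω) := by
  unfold Ex
  rw [sum_powerset_insert he, mul_sum, mul_sum, card_insert_of_notMem he]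
  congr 1
  · refine sum_congr rfl fun ω hω => ?_
    have : ω.card ≤ E.card := card_le_card (mem_powerset.1 hω)
    rw [show E.card + 1 - ω.card = (E.card - ω.card) + 1 by omega]; ring
  · refine sum_congr rfl fun ω hω => ?_
    have h1 : e ∉ ω := fun h => he (mem_powerset.1 hω h)
    rw [card_insert_of_notMem h1, show E.card + 1 - (ω.card + 1) = E.card - ω.card by omega]
    ring

theorem Ex_congr (h : ∀ ω ⊆ E, f ω = g ω) : Ex p E f = Ex p E g :=
  sum_congr rfl fun ω hω => by rw [h ω (mem_powerset.1 hω)]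

theorem Ex_add (p : ℝ) (E : Finset β) (f g : Finset β → ℝ) :
    Ex p E (fun ω => f ω + g ω) = Ex p E f + Ex p E g := by
  unfold Ex; rw [← sum_add_distrib]; exact sum_congr rfl fun _ _ => by ring

theorem Ex_sub (p : ℝ) (E : Finset β) (f g : Finset β → ℝ) :
    Ex p E (fun ω => f ω - g ω) = Ex p E f - Ex p E g := by
  unfold Ex; rw [← sum_sub_distrib]; exact sum_congr rfl fun _ _ => by ring

theorem Ex_const_mul (p : ℝ) (E : Finset β) (c : ℝ) (f : Finset β → ℝ) :
    Ex p E (fun ω => c * f ω) = c * Ex p E f := by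
  unfold Ex; rw [mul_sum]; exact sum_congr rfl fun _ _ => by ring

theorem Ex_mul_const (p : ℝ) (E : Finset β) (c : ℝ) (f : Finset β → ℝ) :
    Ex p E (fun ω => f ω * c) = Ex p E f * c := by
  unfold Ex; rw [sum_mul]; exact sum_congr rfl fun _ _ => by ring

theorem Ex_sum {ι : Type*} (p : ℝ) (E : Finset β) (s : Finset ι) (f : ι → Finset β → ℝ) :
    Ex p E (fun ω => ∑ i ∈ s, f i ω) = ∑ i ∈ s, Ex p E (f i) := by
  unfold Ex; rw [sum_comm]; exact sum_congr rfl fun _ _ => by rw [mul_sum]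

theorem Ex_const (p : ℝ) (E : Finset β) (c : ℝ) : Ex p E (fun _ => c) = c := by
  induction E using Finset.induction_on with
  | empty => rw [Ex_empty]
  | insert e E he ih => rw [Ex_insert p he, ih]; ring

theorem Ex_mono (h0 : 0 ≤ p) (h1 : p ≤ 1) (h : ∀ ω ⊆ E, f ω ≤ g ω) : Ex p E f ≤ Ex p E g := by
  refine sum_le_sum fun ω hω => mul_le_mul_of_nonneg_left (h ω (mem_powerset.1 hω)) ?_
  have : 0 ≤ 1 - p := by linarith
  positivity

theorem Ex_nonneg (h0 : 0 ≤ p) (h1 : p ≤ 1) (h : ∀ ω ⊆ E, 0 ≤ f ω) : 0 ≤ Ex p E f := by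
  rw [← Ex_const p E 0]; exact Ex_mono h0 h1 h

theorem Ex_le_const (h0 : 0 ≤ p) (h1 : p ≤ 1) {c : ℝ} (h : ∀ ω ⊆ E, f ω ≤ c) :
    Ex p E f ≤ c := by
  rw [← Ex_const p E c]; exact Ex_mono h0 h1 h

theorem abs_Ex_le (h0 : 0 ≤ p) (h1 : p ≤ 1) (h : ∀ ω ⊆ E, |f ω| ≤ g ω) :
    |Ex p E f| ≤ Ex p E g := by
  rw [abs_le]; constructor
  · rw [← neg_one_mul, ← Ex_const_mul]
    exact Ex_mono h0 h1 fun ω hω => by have := (abs_le.1 (h ω hω)).1; linarith
  · exact Ex_mono h0 h1 fun ω hω => (abs_le.1 (h ω hω)).2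

theorem Pr_nonneg (h0 : 0 ≤ p) (h1 : p ≤ 1) (A : Finset β → Prop) : 0 ≤ Pr p E A :=
  Ex_nonneg h0 h1 fun _ _ => ind_nonneg _

theorem Pr_le_one (h0 : 0 ≤ p) (h1 : p ≤ 1) (A : Finset β → Prop) : Pr p E A ≤ 1 :=
  Ex_le_const h0 h1 fun _ _ => ind_le_one _

theorem Pr_mono (h0 : 0 ≤ p) (h1 : p ≤ 1) {A B : Finset β → Prop}
    (h : ∀ ω ⊆ E, A ω → B ω) : Pr p E A ≤ Pr p E B :=
  Ex_mono h0 h1 fun ω hω => ind_mono (h ω hω)

theorem Pr_congr {A B : Finset β → Prop} (h : ∀ ω ⊆ E, (A ω ↔ B ω)) : Pr p E A = Pr p E B :=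
  Ex_congr fun ω hω => ind_congr (h ω hω)

theorem Pr_le_sum {ι : Type*} (h0 : 0 ≤ p) (h1 : p ≤ 1) {A : Finset β → Prop} (s : Finset ι)
    (B : ι → Finset β → Prop) (h : ∀ ω ⊆ E, A ω → ∃ i ∈ s, B i ω) :
    Pr p E A ≤ ∑ i ∈ s, Pr p E (B i) := by
  unfold Pr
  rw [← Ex_sum]
  exact Ex_mono h0 h1 fun ω hω => ind_le_sum s (fun i => B i ω) (h ω hω)

theorem Ex_union (p : ℝ) {A B : Finset β} (h : Disjoint A B) (f : Finset β → ℝ) :
    Ex p (A ∪ B) f = Ex p A fun a => Ex p B fun b => f (a ∪ b) := by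
  induction A using Finset.induction_on generalizing f with
  | empty => simp [Ex_empty]
  | insert e A he ih =>
    rw [disjoint_insert_left] at h
    have h1 : e ∉ A ∪ B := by simp [he, h.1]
    rw [insert_union, Ex_insert p h1, Ex_insert p he, ih h.2, ih h.2]
    simp only [insert_union]

theorem Ex_split (p : ℝ) (E : Finset β) (t : β → Prop) [DecidablePred t]
    (F : Finset β → Finset β → ℝ) :
    Ex p E (fun ω => F (ω.filter t) (ω.filter fun e => ¬ t e)) =
      Ex p (E.filter t) fun a => Ex p (E.filter fun e => ¬ t e) fun b => F a b := by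
  conv_lhs => rw [← filter_union_filter_not_eq t E]
  rw [Ex_union p (disjoint_filter_filter_not E E t)]
  refine Ex_congr fun a ha => Ex_congr fun b hb => ?_
  have h1 : (a ∪ b).filter t = a := by
    ext e; simp only [mem_filter, mem_union]
    exact ⟨fun h => h.1.elim id fun hb' => absurd h.2 (mem_filter.1 (hb hb')).2,
      fun h => ⟨Or.inl h, (mem_filter.1 (ha h)).2⟩⟩
  have h2 : ((a ∪ b).filter fun e => ¬ t e) = b := by
    ext e; simp only [mem_filter, mem_union]
    exact ⟨fun h => h.1.elim (fun ha' => absurd (mem_filter.1 (ha ha')).2 h.2) id,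
      fun h => ⟨Or.inr h, (mem_filter.1 (hb h)).2⟩⟩
  rw [h1, h2]

theorem Ex_filter (p : ℝ) (E : Finset β) (t : β → Prop) [DecidablePred t]
    (f : Finset β → ℝ) : Ex p E (fun ω => f (ω.filter t)) = Ex p (E.filter t) f := by
  rw [Ex_split p E t fun a _ => f a]
  simp only [Ex_const]

theorem Ex_indep (p : ℝ) (E : Finset β) (t : β → Prop) [DecidablePred t]
    (f g : Finset β → ℝ) :
    Ex p E (fun ω => f (ω.filter t) * g (ω.filter fun e => ¬ t e)) =
      Ex p E (fun ω => f (ω.filter t)) * Ex p E fun ω => g (ω.filter fun e => ¬ t e) := by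
  rw [Ex_split p E t fun a b => f a * g b, Ex_filter, Ex_filter]
  simp only [Ex_const_mul, Ex_mul_const]

/-- strong Markov property for a stopping value -/
theorem Ex_stop {γ : Type*} (p : ℝ) (E : Finset β) (Q : Finset β → γ) (t : γ → β → Prop)
    [∀ q, DecidablePred (t q)] (A : Finset β → Prop)
    (hs : ∀ ω ω' : Finset β, A ω → ω.filter (t (Q ω)) = ω'.filter (t (Q ω)) → A ω' ∧ Q ω' = Q ω)
    (h : γ → Finset β → ℝ) :
    Ex p E (fun ω => ind (A ω) * h (Q ω) (ω.filter fun e => ¬ t (Q ω) e)) =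
      Ex p E fun ω => ind (A ω) * Ex p E fun ω' => h (Q ω) (ω'.filter fun e => ¬ t (Q ω) e) := by
  classical
  have key : ∀ (u : γ → Finset β → ℝ), Ex p E (fun ω => ind (A ω) * u (Q ω) ω) =
      ∑ q ∈ E.powerset.image Q, Ex p E fun ω =>
        ind (A (ω.filter (t q)) ∧ Q (ω.filter (t q)) = q) * u q ω := by
    intro u
    rw [← Ex_sum]
    refine Ex_congr fun ω hω => ?_
    have hiff : ∀ q, (A (ω.filter (t q)) ∧ Q (ω.filter (t q)) = q) ↔ (A ω ∧ Q ω = q) := by
      intro q
      constructor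
      · rintro ⟨h1, h2⟩
        have := hs _ ω h1 (by rw [h2, filter_filter]; simp)
        exact ⟨this.1, this.2.trans h2⟩
      · rintro ⟨h1, rfl⟩
        exact hs ω _ h1 (by rw [filter_filter]; simp)
    simp only [hiff]
    rw [sum_eq_single (Q ω)]
    · simp
    · intro q _ hq
      rw [ind_neg fun h => hq h.2.symm, zero_mul]
    · intro h
      exact absurd (mem_image_of_mem Q (mem_powerset.2 hω)) h
  rw [key fun q ω => h q (ω.filter fun e => ¬ t q e),
    key fun q _ => Ex p E fun ω' => h q (ω'.filter fun e => ¬ t q e)]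
  refine sum_congr rfl fun q _ => ?_
  rw [Ex_indep p E (t q) (fun a => ind (A a ∧ Q a = q)) (h q), Ex_mul_const]

theorem Ex_image {γ : Type*} [DecidableEq γ] (p : ℝ) (E : Finset β) {φ : β → γ}
    (hφ : Function.Injective φ) (f : Finset γ → ℝ) :
    Ex p (E.image φ) f = Ex p E fun ω => f (ω.image φ) := by
  induction E using Finset.induction_on generalizing f with
  | empty => simp [Ex_empty]
  | insert e E he ih =>
    have h1 : φ e ∉ E.image φ := by
      intro h
      obtain ⟨a, ha, hae⟩ := mem_image.1 h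
      exact he (hφ hae ▸ ha)
    rw [image_insert, Ex_insert p h1, Ex_insert p he, ih, ih]
    simp only [image_insert]

theorem Ex_mono_p {q : ℝ} (h0 : 0 ≤ p) (hpq : p ≤ q) (h1 : q ≤ 1)
    (hf : ∀ a b : Finset β, a ⊆ b → f a ≤ f b) : Ex p E f ≤ Ex q E f := by
  induction E using Finset.induction_on generalizing f with
  | empty => simp [Ex_empty]
  | insert e E he ih =>
    rw [Ex_insert p he, Ex_insert q he]
    have i1 := ih hf
    have i2 := ih (f := fun ω => f (insert e ω)) fun a b hab => hf _ _ (insert_subset_insert _ hab)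
    have i3 : Ex q E f ≤ Ex q E fun ω => f (insert e ω) :=
      Ex_mono (h0.trans hpq) h1 fun ω _ => hf _ _ (subset_insert _ _)
    nlinarith

theorem Ex_continuous (E : Finset β) (f : Finset β → ℝ) : Continuous fun p => Ex p E f := by
  unfold Ex; fun_prop

theorem Ex_zero (E : Finset β) (f : Finset β → ℝ) : Ex 0 E f = f ∅ := by
  induction E using Finset.induction_on generalizing f with
  | empty => rw [Ex_empty]
  | insert e E he ih => rw [Ex_insert 0 he, ih]; ring

theorem Ex_pow_card (p : ℝ) (E : Finset β) (y : ℝ) :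
    Ex p E (fun ω => y ^ ω.card) = (1 + p * (y - 1)) ^ E.card := by
  induction E using Finset.induction_on with
  | empty => simp [Ex_empty]
  | insert e E he ih =>
    have : Ex p E (fun ω => y ^ (insert e ω).card) = y * Ex p E fun ω => y ^ ω.card := by
      rw [← Ex_const_mul]
      refine Ex_congr fun ω hω => ?_
      rw [card_insert_of_notMem fun h => he (hω h)]; ring
    rw [Ex_insert p he, this, ih, card_insert_of_notMem he]; ring

theorem Pr_filter_eq (p : ℝ) (E : Finset β) (t : β → Prop) [DecidablePred t] {S : Finset β}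
    (hS : S ⊆ E.filter t) :
    Pr p E (fun ω => ω.filter t = S) = p ^ S.card * (1 - p) ^ ((E.filter t).card - S.card) := by
  unfold Pr
  rw [Ex_filter p E t fun a => ind (a = S)]
  unfold Ex
  rw [sum_eq_single S]
  · simp only []; rw [ind_pos trivial, mul_one]
  · intro a _ ha; simp only []; rw [ind_neg ha, mul_zero]
  · intro h; exact absurd (mem_powerset.2 hS) h

theorem Pr_mem (p : ℝ) {e : β} (he : e ∈ E) : Pr p E (fun ω => e ∈ ω) = p := by
  have h := Pr_filter_eq p E (fun a => a = e) (S := {e}) (by simp [he])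
  have h2 : E.filter (fun a => a = e) = {e} := by ext a; simp; rintro rfl; exact he
  rw [h2] at h
  simp only [card_singleton, pow_one, Nat.sub_self, pow_zero, mul_one] at h
  refine Eq.trans (Pr_congr fun ω _ => ?_) h
  constructor
  · intro h; ext a; simp; rintro rfl; exact h
  · intro h
    have : e ∈ ω.filter fun a => a = e := by rw [h]; simp
    exact (mem_filter.1 this).1

/-- some witness of the family is present -/
def Up (A : Finset β → Prop) (ω : Finset β) : Prop := ∃ W ⊆ ω, A W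

/-- disjoint witnesses of both families are present -/
def Dis (A B : Finset β → Prop) (ω : Finset β) : Prop :=
  ∃ W₁ ⊆ ω, ∃ W₂ ⊆ ω, Disjoint W₁ W₂ ∧ A W₁ ∧ B W₂

theorem BK (h0 : 0 ≤ p) (h2 : p ≤ 1 / 2) (A B : Finset β → Prop) :
    Pr p E (Dis A B) ≤ Pr p E (Up A) * Pr p E (Up B) := by
  have h1 : p ≤ 1 := by linarith
  induction E using Finset.induction_on generalizing A B with
  | empty =>
    simp only [Pr, Ex_empty]
    rw [← ind_and]
    refine ind_mono ?_
    rintro ⟨W₁, a, W₂, b, _, c, d⟩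
    exact ⟨⟨W₁, a, c⟩, ⟨W₂, b, d⟩⟩
  | insert e E he ih =>
    have hup : ∀ A : Finset β → Prop, Pr p (insert e E) (Up A) =
        (1 - p) * Pr p E (Up A) + p * Pr p E (Up fun W => A W ∨ A (insert e W)) := by
      intro A
      unfold Pr
      rw [Ex_insert p he]
      congr 2
      refine Ex_congr fun ω hω => ind_congr ?_
      constructor
      · rintro ⟨W, hW, hA⟩
        refine ⟨W.erase e, ?_, ?_⟩
        · rwa [← subset_insert_iff]
        · by_cases heW : e ∈ W
          · right; rwa [insert_erase heW]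
          · left; rwa [erase_eq_of_notMem heW]
      · rintro ⟨W, hW, hA | hA⟩
        · exact ⟨W, hW.trans (subset_insert _ _), hA⟩
        · exact ⟨insert e W, insert_subset_insert _ hW, hA⟩
    set A' : Finset β → Prop := fun W => A W ∨ A (insert e W) with hA'
    set B' : Finset β → Prop := fun W => B W ∨ B (insert e W) with hB'
    have hdis : Pr p (insert e E) (Dis A B) ≤ (1 - p) * Pr p E (Dis A B) +
        p * (Pr p E (Dis A' B) + Pr p E (Dis A B') - Pr p E (Dis A B)) := by
      unfold Pr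
      rw [Ex_insert p he, ← Ex_add, ← Ex_sub]
      refine add_le_add le_rfl (mul_le_mul_of_nonneg_left (Ex_mono h0 h1 fun ω hω => ?_) h0)
      by_cases hd : Dis A B ω
      · obtain ⟨W₁, a, W₂, b, c, d, d'⟩ := id hd
        rw [ind_pos hd, ind_pos (P := Dis A' B ω) ⟨W₁, a, W₂, b, c, Or.inl d, d'⟩,
          ind_pos (P := Dis A B' ω) ⟨W₁, a, W₂, b, c, d, Or.inl d'⟩]
        have := ind_le_one (Dis A B (insert e ω))
        linarith
      · rw [ind_neg hd, sub_zero]
        refine le_trans (ind_mono ?_) (ind_or_le _ _)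
        rintro ⟨W₁, a, W₂, b, c, d, d'⟩
        by_cases he1 : e ∈ W₁
        · have he2 : e ∉ W₂ := disjoint_left.1 c he1
          left
          refine ⟨W₁.erase e, by rwa [← subset_insert_iff], W₂,
            (subset_insert_iff_of_notMem he2).1 b, c.mono_left (erase_subset _ _), Or.inr ?_, d'⟩
          rwa [insert_erase he1]
        · right
          refine ⟨W₁, (subset_insert_iff_of_notMem he1).1 a, W₂.erase e,
            by rwa [← subset_insert_iff], c.mono_right (erase_subset _ _), d, ?_⟩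
          by_cases he2 : e ∈ W₂
          · right; rwa [insert_erase he2]
          · left; rwa [erase_eq_of_notMem he2]
    have ha : Pr p E (Up A) ≤ Pr p E (Up A') :=
      Pr_mono h0 h1 fun ω _ ⟨W, a, b⟩ => ⟨W, a, Or.inl b⟩
    have hb : Pr p E (Up B) ≤ Pr p E (Up B') :=
      Pr_mono h0 h1 fun ω _ ⟨W, a, b⟩ => ⟨W, a, Or.inl b⟩
    rw [hup A, hup B]
    have i1 := ih A B
    have i2 := ih A' B
    have i3 := ih A B'
    have e1 := mul_le_mul_of_nonneg_left i1 (show 0 ≤ 1 - 2 * p by linarith)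
    have e2 := mul_le_mul_of_nonneg_left i2 h0
    have e3 := mul_le_mul_of_nonneg_left i3 h0
    have e4 := mul_nonneg (mul_nonneg h0 h0) (mul_nonneg (sub_nonneg.2 ha) (sub_nonneg.2 hb))
    nlinarith

/-- three pairwise disjoint witnesses -/
def Dis3 (A B C : Finset β → Prop) (ω : Finset β) : Prop :=
  ∃ W₁ ⊆ ω, ∃ W₂ ⊆ ω, ∃ W₃ ⊆ ω, Disjoint W₁ W₂ ∧ Disjoint W₁ W₃ ∧ Disjoint W₂ W₃ ∧
    A W₁ ∧ B W₂ ∧ C W₃

theorem BK3 (h0 : 0 ≤ p) (h2 : p ≤ 1 / 2) (A B C : Finset β → Prop) :
    Pr p E (Dis3 A B C) ≤ Pr p E (Up A) * (Pr p E (Up B) * Pr p E (Up C)) := by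
  have h1 : p ≤ 1 := by linarith
  calc Pr p E (Dis3 A B C) ≤ Pr p E (Dis A (Dis B C)) := by
        refine Pr_mono h0 h1 fun ω _ => ?_
        rintro ⟨W₁, a, W₂, b, W₃, c, d, d', d'', e, e', e''⟩
        exact ⟨W₁, a, W₂ ∪ W₃, union_subset b c, disjoint_union_right.2 ⟨d, d'⟩, e,
          W₂, subset_union_left, W₃, subset_union_right, d'', e', e''⟩
    _ ≤ Pr p E (Up A) * Pr p E (Up (Dis B C)) := BK h0 h2 _ _
    _ ≤ _ := by
        refine mul_le_mul_of_nonneg_left (le_trans (Pr_mono h0 h1 fun ω _ => ?_) (BK h0 h2 B C))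
          (Pr_nonneg h0 h1 _)
        rintro ⟨W, a, W₁, b, W₂, c, d, e, e'⟩
        exact ⟨W₁, b.trans a, W₂, c.trans a, d, e, e'⟩

end HamPerc
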