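import Pool.Agent.Lib.MP_58a483_pr.Ex

/-!
Deterministic estimates for convolution diagrams built from a kernel `κ + δ`.
-/

open Finset

namespace HamPerc

variable {α : Type*}

/-- abstract properties of the comparison kernel -/
structure KH (Λ : Finset α) (κ : α → α → ℝ) (ν δ X C : ℝ) : Prop where
  C1 : 1 ≤ C
  k0 : ∀ x y, 0 ≤ κ x y
  ks : ∀ x y, κ x y = κ y x
  k1 : ∀ x, κ x x = 1
  ko : ∀ x y, x ≠ y → κ x y ≤ ν
  ksum : ∀ x ∈ Λ, ∑ y ∈ Λ, κ x y ≤ C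
  kconv : ∀ x ∈ Λ, ∀ y ∈ Λ, ∑ w ∈ Λ, κ x w * κ w y ≤ C * κ x y
  n0 : 0 ≤ ν
  n1 : ν ≤ 1
  d0 : 0 ≤ δ
  dV : (Λ.card : ℝ) * δ ≤ X
  X1 : 1 ≤ X
  X2 : X * δ ≤ 1
  X3 : X * (X * δ) ≤ C

variable {Λ : Finset α} {κ : α → α → ℝ} {ν δ X C : ℝ}

namespace KH

theorem dX (h : KH Λ κ ν δ X C) : δ ≤ X * δ := by nlinarith [h.X1, h.d0]

theorem d1 (h : KH Λ κ ν δ X C) : δ ≤ 1 := h.dX.trans h.X2

theorem t0 (h : KH Λ κ ν δ X C) (x y : α) : 0 ≤ κ x y + δ := add_nonneg (h.k0 _ _) h.d0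

theorem S1 (h : KH Λ κ ν δ X C) {x : α} (hx : x ∈ Λ) : ∑ y ∈ Λ, (κ x y + δ) ≤ 2 * C * X := by
  rw [sum_add_distrib, sum_const, nsmul_eq_mul]
  nlinarith [h.ksum x hx, h.dV, h.C1, h.X1]

theorem S2 (h : KH Λ κ ν δ X C) {x y : α} (hx : x ∈ Λ) (hy : y ∈ Λ) :
    ∑ w ∈ Λ, (κ x w + δ) * κ w y ≤ C * (κ x y + δ) := by
  simp only [add_mul]
  rw [sum_add_distrib, ← mul_sum]
  have h1 : ∑ w ∈ Λ, κ w y ≤ C := by simp only [fun w => h.ks w y]; exact h.ksum y hy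
  nlinarith [h.kconv x hx y hy, h.d0]

theorem S3 (h : KH Λ κ ν δ X C) {x y : α} (hx : x ∈ Λ) (hy : y ∈ Λ) :
    ∑ w ∈ Λ, (κ x w + δ) * (κ w y + δ) ≤ C * κ x y + 3 * C * (X * δ) := by
  simp only [mul_add]
  rw [sum_add_distrib, ← sum_mul]
  have h1 := mul_le_mul_of_nonneg_right (h.S1 hx) h.d0
  have h2 := mul_le_mul_of_nonneg_left h.dX (le_trans zero_le_one h.C1)
  nlinarith [h.S2 hx hy]

theorem D0 (h : KH Λ κ ν δ X C) {w z : α} (hw : w ∈ Λ) (hz : z ∈ Λ) :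
    (κ w z + δ) * ∑ y ∈ Λ, (κ w y + δ) * (ind (y ≠ z) * κ z y) ≤
      2 * C * ((ν + δ) * κ w z + δ * δ) := by
  have hC : 0 ≤ C := le_trans zero_le_one h.C1
  have hd := h.d0
  by_cases e : w = z
  · subst e
    have h1 : ∑ y ∈ Λ, (κ w y + δ) * (ind (y ≠ w) * κ w y) ≤ (ν + δ) * C := by
      refine le_trans (sum_le_sum (g := fun y => (ν + δ) * κ w y) fun y _ => ?_) ?_
      · by_cases hy : y = w
        · rw [ind_neg (not_not.2 hy), zero_mul, mul_zero]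
          exact mul_nonneg (add_nonneg h.n0 hd) (h.k0 _ _)
        · rw [ind_pos hy, one_mul]
          exact mul_le_mul_of_nonneg_right (by linarith [h.ko w y (Ne.symm hy)]) (h.k0 _ _)
      · rw [← mul_sum]
        exact mul_le_mul_of_nonneg_left (h.ksum w hw) (add_nonneg h.n0 hd)
    rw [h.k1]
    have h2 : (1 + δ) * ∑ y ∈ Λ, (κ w y + δ) * (ind (y ≠ w) * κ w y) ≤ 2 * ((ν + δ) * C) :=
      mul_le_mul (by linarith [h.d1]) h1 (sum_nonneg fun y _ =>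
        mul_nonneg (h.t0 _ _) (mul_nonneg (ind_nonneg _) (h.k0 _ _))) (by norm_num)
    nlinarith [mul_nonneg hC (mul_nonneg hd hd)]
  · have h1 : ∑ y ∈ Λ, (κ w y + δ) * (ind (y ≠ z) * κ z y) ≤ C * (κ w z + δ) := by
      refine le_trans (sum_le_sum fun y _ => ?_) (h.S2 hw hz)
      refine mul_le_mul_of_nonneg_left ?_ (h.t0 _ _)
      rw [h.ks z y]
      exact mul_le_of_le_one_left (h.k0 _ _) (ind_le_one _)
    have h2 := mul_le_mul_of_nonneg_left h1 (h.t0 w z)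
    have h3 := h.ko w z e
    have h4 := h.k0 w z
    have h5 : (κ w z + δ) * (κ w z + δ) ≤ 2 * ((ν + δ) * κ w z + δ * δ) := by
      nlinarith [mul_nonneg hd hd, mul_nonneg h.n0 h4]
    nlinarith [mul_le_mul_of_nonneg_left h5 hC]

theorem D1 (h : KH Λ κ ν δ X C) {z z' : α} (hz : z ∈ Λ) (hz' : z' ∈ Λ) {a c : ℝ}
    (ha : 0 ≤ a) (hac : a ≤ c) :
    ∑ y ∈ Λ, ind (y ≠ z') * ((a + c * (X * δ)) * κ z' y + c * δ) *
      ∑ w ∈ Λ, (κ z w + δ) * ((κ w y + δ) * (κ w z' + δ)) ≤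
      (22 * C ^ 3 * a * ν + 22 * C ^ 3 * c * (X * δ)) * κ z z' + 22 * C ^ 3 * c * δ := by
  have hC : 0 ≤ C := le_trans zero_le_one h.C1
  have hd := h.d0
  have hc : 0 ≤ c := ha.trans hac
  have hX : 0 ≤ X * δ := hd.trans h.dX
  set A := a + c * (X * δ) with hA
  have hA0 : 0 ≤ A := by positivity
  have hA2 : A ≤ 2 * c := by nlinarith [h.X2]
  have e1 : ∑ y ∈ Λ, ind (y ≠ z') * (A * κ z' y + c * δ) *
      ∑ w ∈ Λ, (κ z w + δ) * ((κ w y + δ) * (κ w z' + δ)) =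
      ∑ w ∈ Λ, (κ z w + δ) * (A * ((κ w z' + δ) *
        ∑ y ∈ Λ, (κ w y + δ) * (ind (y ≠ z') * κ z' y)) +
        c * δ * ((κ w z' + δ) * ∑ y ∈ Λ, ind (y ≠ z') * (κ w y + δ))) := by
    simp only [mul_sum, mul_add (κ z _ + δ), ← sum_add_distrib]
    rw [sum_comm]
    exact sum_congr rfl fun w _ => sum_congr rfl fun y _ => by ring
  rw [e1]
  have b1 : ∀ w ∈ Λ, (κ z w + δ) * (A * ((κ w z' + δ) *
        ∑ y ∈ Λ, (κ w y + δ) * (ind (y ≠ z') * κ z' y)) +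
        c * δ * ((κ w z' + δ) * ∑ y ∈ Λ, ind (y ≠ z') * (κ w y + δ))) ≤
      A * (2 * C) * (ν + δ) * ((κ z w + δ) * κ w z') + A * (2 * C) * (δ * δ) * (κ z w + δ) +
        c * δ * (2 * C * X) * ((κ z w + δ) * (κ w z' + δ)) := by
    intro w hw
    have i1 := mul_le_mul_of_nonneg_left (h.D0 hw hz') hA0
    have i2 : ∑ y ∈ Λ, ind (y ≠ z') * (κ w y + δ) ≤ 2 * C * X :=
      le_trans (sum_le_sum fun y _ => mul_le_of_le_one_left (h.t0 _ _) (ind_le_one _)) (h.S1 hw)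
    have i3 := mul_le_mul_of_nonneg_left (mul_le_mul_of_nonneg_left i2 (h.t0 w z'))
      (mul_nonneg hc hd)
    have := mul_le_mul_of_nonneg_left (add_le_add i1 i3) (h.t0 z w)
    refine this.trans (le_of_eq ?_)
    ring
  refine (sum_le_sum b1).trans ?_
  rw [sum_add_distrib, sum_add_distrib, ← mul_sum, ← mul_sum, ← mul_sum]
  have hX0 : 0 ≤ X := le_trans zero_le_one h.X1
  have hn := h.n0
  have j1 := mul_le_mul_of_nonneg_left (h.S2 hz hz')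
    (show 0 ≤ A * (2 * C) * (ν + δ) by positivity)
  have j2 := mul_le_mul_of_nonneg_left (h.S1 hz) (show 0 ≤ A * (2 * C) * (δ * δ) by positivity)
  have j3 := mul_le_mul_of_nonneg_left (h.S3 hz hz')
    (show 0 ≤ c * δ * (2 * C * X) by positivity)
  refine (add_le_add (add_le_add j1 j2) j3).trans ?_
  have hk := h.k0 z z'
  have hC2 : C ^ 2 ≤ C ^ 3 := pow_le_pow_right₀ h.C1 (by norm_num)
  have c1 : A * (ν + δ) ≤ a * ν + 3 * (c * (X * δ)) := by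
    have u1 : a * δ ≤ c * (X * δ) := mul_le_mul hac h.dX hd hc
    have u2 : c * (X * δ) * (ν + δ) ≤ c * (X * δ) * 2 :=
      mul_le_mul_of_nonneg_left (by linarith [h.n1, h.d1]) (by positivity)
    rw [hA]; nlinarith
  have c2 : A * (ν + δ) ≤ 4 * c := by nlinarith [h.n1, h.d1]
  have c3 : A * (X * δ) ≤ 2 * c := by nlinarith [h.X2]
  have c4 : c * (X * (X * δ)) ≤ c * C := mul_le_mul_of_nonneg_left h.X3 hc
  have k1 : 2 * C ^ 2 * (A * (ν + δ)) + 2 * C ^ 2 * (c * (X * δ)) ≤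
      22 * C ^ 3 * a * ν + 22 * C ^ 3 * c * (X * δ) := by
    have u0 : 0 ≤ a * ν := by positivity
    have u1 : 0 ≤ c * (X * δ) := by positivity
    have u2 : 0 ≤ C ^ 2 := by positivity
    nlinarith [mul_le_mul_of_nonneg_left c1 u2, mul_le_mul_of_nonneg_right hC2 u0,
      mul_le_mul_of_nonneg_right hC2 u1, mul_nonneg u2 u0, mul_nonneg u2 u1]
  have k2 : 2 * C ^ 2 * (A * (ν + δ)) + 4 * C ^ 2 * (A * (X * δ)) +
      6 * C ^ 2 * (c * (X * (X * δ))) ≤ 22 * C ^ 3 * c := by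
    have u2 : 0 ≤ C ^ 2 := by positivity
    nlinarith [mul_le_mul_of_nonneg_left c2 u2, mul_le_mul_of_nonneg_left c3 u2,
      mul_le_mul_of_nonneg_left c4 u2, mul_le_mul_of_nonneg_right hC2 hc]
  have := add_le_add (mul_le_mul_of_nonneg_right k1 hk) (mul_le_mul_of_nonneg_right k2 hd)
  refine le_trans (le_of_eq ?_) this
  ring

theorem D2 (h : KH Λ κ ν δ X C) {z' : α} (hz' : z' ∈ Λ) :
    ∑ y ∈ Λ, (κ z' y + δ) * ∑ w ∈ Λ, (κ w y + δ) * (κ w z' + δ) ≤ 8 * C ^ 3 := by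
  have hC : 0 ≤ C := le_trans zero_le_one h.C1
  have hX : 0 ≤ X * δ := h.d0.trans h.dX
  have b1 : ∀ y ∈ Λ, (κ z' y + δ) * ∑ w ∈ Λ, (κ w y + δ) * (κ w z' + δ) ≤
      C * ((κ z' y + δ) * κ y z') + 3 * C * (X * δ) * (κ z' y + δ) := by
    intro y hy
    have := h.S3 hy hz'
    have e : ∑ w ∈ Λ, (κ w y + δ) * (κ w z' + δ) = ∑ w ∈ Λ, (κ y w + δ) * (κ w z' + δ) :=
      sum_congr rfl fun w _ => by rw [h.ks w y]
    rw [e]
    have := mul_le_mul_of_nonneg_left this (h.t0 z' y)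
    refine this.trans (le_of_eq ?_); ring
  refine (sum_le_sum b1).trans ?_
  rw [sum_add_distrib, ← mul_sum, ← mul_sum]
  have j1 := mul_le_mul_of_nonneg_left (h.S2 hz' hz') hC
  have j2 := mul_le_mul_of_nonneg_left (h.S1 hz') (show 0 ≤ 3 * C * (X * δ) by positivity)
  rw [h.k1] at j1
  have hC2 : C ^ 2 ≤ C ^ 3 := pow_le_pow_right₀ h.C1 (by norm_num)
  have u2 : 0 ≤ C ^ 2 := by positivity
  nlinarith [mul_le_mul_of_nonneg_left h.X3 u2, mul_le_mul_of_nonneg_left h.d1 u2]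

theorem D3 (h : KH Λ κ ν δ X C) {z z' : α} (hz : z ∈ Λ) (hz' : z' ∈ Λ) :
    δ * ∑ y ∈ Λ, (κ z' y + δ) * ∑ w ∈ Λ, (κ z w + δ) * (κ w z' + δ) ≤
      2 * C ^ 2 * (X * δ) * κ z z' + 6 * C ^ 3 * δ := by
  have hC : 0 ≤ C := le_trans zero_le_one h.C1
  have hd := h.d0
  have hX : 0 ≤ X * δ := h.d0.trans h.dX
  rw [← sum_mul]
  have j := mul_le_mul (h.S1 hz') (h.S3 hz hz')
    (sum_nonneg fun w _ => mul_nonneg (h.t0 _ _) (h.t0 _ _))
    (mul_nonneg (by positivity) (le_trans zero_le_one h.X1))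
  have j2 := mul_le_mul_of_nonneg_left j hd
  have u2 : 0 ≤ C ^ 2 * δ := by positivity
  nlinarith [mul_le_mul_of_nonneg_left h.X3 u2]

end KH

end HamPerc
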