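import Pool.Agent.Lib.MP_58a483_pr.Explore
import Pool.Agent.Lib.MP_58a483_pr.Kernel

/-!
The exact one-step identity for the susceptibility, the localised operator and its bounds.
-/

open Finset

namespace HamPerc

variable {α γ : Type*} [DecidableEq α] [LinearOrder γ]

/-- two-point function -/
noncomputable def tau (p : ℝ) (E : Finset (Sym2 α)) (x y : α) : ℝ :=
  Pr p E fun ω => Rch ω x y

/-- expected size of the cluster of `z` off `B` -/
noncomputable def GG (p : ℝ) (E : Finset (Sym2 α)) (Λ : Finset α) (z : α) (B : Set α) : ℝ :=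
  Ex p E fun ω => ∑ v ∈ Λ, ind (Rch (off ω B) z v)

/-- admissible step of the localised exploration -/
def okS (rk : α → γ) (fl : Prop) (N : ℕ) (S : Finset (Sym2 α)) (B : Set α) (z z' : α) : Prop :=
  S.card ≤ N ∧ Ent S B z z' ∧ (z' ∈ PP rk S B z z' ↔ fl)

/-- one term of the localised operator -/
noncomputable def T1 (rk : α → γ) (p : ℝ) (E : Finset (Sym2 α)) (L N : ℕ) (fl : Prop)
    (g : α → Set α → ℝ) (z : α) (B : Set α) (z' : α) : ℝ :=
  Ex p E fun ω => ind (okS rk fl N (loc L ω z) B z z') * g z' (PP rk (loc L ω z) B z z')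

/-- the localised operator -/
noncomputable def Tl (rk : α → γ) (p : ℝ) (E : Finset (Sym2 α)) (Λ : Finset α) (L N : ℕ)
    (fl : Prop) : (α → Set α → ℝ) →ₗ[ℝ] (α → Set α → ℝ) where
  toFun g z B := ∑ z' ∈ Λ, T1 rk p E L N fl g z B z'
  map_add' g h := by
    funext z B
    simp only [T1, Pi.add_apply, mul_add, Ex_add, sum_add_distrib]
  map_smul' c g := by
    funext z B
    simp only [T1, Pi.smul_apply, smul_eq_mul, RingHom.id_apply, mul_sum, ← Ex_const_mul]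
    exact sum_congr rfl fun _ _ => Ex_congr fun _ _ => by ring

/-- probabilistic hypotheses -/
structure PH (p : ℝ) (E : Finset (Sym2 α)) (Λ : Finset α) (κ : α → α → ℝ) (ν δ X C χ : ℝ) :
    Prop extends KH Λ κ ν δ X C where
  p0 : 0 ≤ p
  p2 : p ≤ 1 / 2
  EΛ : ∀ e ∈ E, ∀ u ∈ e, u ∈ Λ
  chi : ∀ x ∈ Λ, ∑ v ∈ Λ, tau p E x v = χ
  tk : ∀ x ∈ Λ, ∀ y ∈ Λ, tau p E x y ≤ C * (κ x y + δ)
  dn : ∀ x ∈ Λ, ((Λ.filter fun y => y ≠ x ∧ s(x, y) ∈ E).card : ℝ) * ν ≤ C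
  dd : ∀ x ∈ Λ, ((Λ.filter fun y => y ≠ x ∧ s(x, y) ∈ E).card : ℝ) * δ ≤ C * (X * δ)

variable {rk : α → γ} {p : ℝ} {E : Finset (Sym2 α)} {Λ : Finset α} {κ : α → α → ℝ}
  {ν δ X C χ : ℝ} {L N : ℕ}

theorem tau_nonneg (h0 : 0 ≤ p) (h1 : p ≤ 1) (x y : α) : 0 ≤ tau p E x y := Pr_nonneg h0 h1 _

theorem vis_mem (hE : ∀ e ∈ E, ∀ u ∈ e, u ∈ Λ) {ω : Finset (Sym2 α)} (hω : ω ⊆ E) {x v : α}
    (hx : x ∈ Λ) (h : Vis x ω v) : v ∈ Λ := by
  rcases h with rfl | ⟨e, he, hv⟩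
  · exact hx
  · exact hE e (hω he) v hv

theorem tree_bound (h0 : 0 ≤ p) (h2 : p ≤ 1 / 2) (hE : ∀ e ∈ E, ∀ u ∈ e, u ∈ Λ) {z : α}
    (hz : z ∈ Λ) (y z' : α) :
    Pr p E (fun ω => Rch ω z y ∧ Rch ω z z') ≤
      ∑ w ∈ Λ, tau p E z w * (tau p E w y * tau p E w z') := by
  refine (Pr_le_sum h0 (by linarith) Λ (fun w => Dis3 (Tr z w) (Tr w y) (Tr w z')) ?_).trans
    (sum_le_sum fun w _ => BK3 h0 h2 _ _ _)
  rintro ω hω ⟨⟨W, hW, ht⟩, h'⟩
  obtain ⟨w, hw, W₁, a, W₂, b, W₃, c, d, e, f, g, i, j, _⟩ := tree_graph ht hW h'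
  exact ⟨w, vis_mem hE hω hz hw, W₁, a, W₂, b, W₃, c, d, e, f, g, i, j⟩

theorem tree_bound_long (h0 : 0 ≤ p) (h2 : p ≤ 1 / 2) (hE : ∀ e ∈ E, ∀ u ∈ e, u ∈ Λ) {z : α}
    (hz : z ∈ Λ) (y z' : α) {l : ℕ} (hl : 2 * l ≤ L) :
    Pr p E (fun ω => Lg ω (L + 1) z y ∧ Rch ω z z') ≤
      ∑ w ∈ Λ, (Pr p E (fun ω => Lg ω l z w) * (tau p E w y * tau p E w z') +
        tau p E z w * (Pr p E (fun ω => Lg ω l w y) * tau p E w z')) := by
  have h1 : p ≤ 1 := by linarith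
  refine (Pr_le_sum h0 h1 Λ (fun w ω =>
    Dis3 (fun W => Tr z w W ∧ l ≤ W.card) (Tr w y) (Tr w z') ω ∨
      Dis3 (Tr z w) (fun W => Tr w y W ∧ l ≤ W.card) (Tr w z') ω) ?_).trans
    (sum_le_sum fun w _ => le_trans ?_ (add_le_add (BK3 h0 h2 _ _ _) (BK3 h0 h2 _ _ _)))
  · rintro ω hω ⟨⟨W, hW, ht, hc⟩, h'⟩
    obtain ⟨w, hw, W₁, a, W₂, b, W₃, c, d, e, f, g, i, j, k⟩ := tree_graph ht hW h'
    refine ⟨w, vis_mem hE hω hz hw, ?_⟩
    by_cases h : l ≤ W₁.card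
    · exact Or.inl ⟨W₁, a, W₂, b, W₃, c, d, e, f, ⟨g, h⟩, i, j⟩
    · exact Or.inr ⟨W₁, a, W₂, b, W₃, c, d, e, f, g, ⟨i, by omega⟩, j⟩
  · unfold Pr
    rw [← Ex_add]
    exact Ex_mono h0 h1 fun ω _ => ind_or_le _ _

theorem GG_empty (z : α) : GG p E Λ z ∅ = ∑ v ∈ Λ, tau p E z v := by
  unfold GG tau Pr
  simp only [off_empty]
  rw [Ex_sum]

theorem GG_nonneg (h0 : 0 ≤ p) (h1 : p ≤ 1) (z : α) (B : Set α) : 0 ≤ GG p E Λ z B :=
  Ex_nonneg h0 h1 fun _ _ => sum_nonneg fun _ _ => ind_nonneg _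

namespace PH

theorem p1 (h : PH p E Λ κ ν δ X C χ) : p ≤ 1 := by linarith [h.p2]

theorem C0 (h : PH p E Λ κ ν δ X C χ) : 0 ≤ C := le_trans zero_le_one h.C1

theorem GG_le (h : PH p E Λ κ ν δ X C χ) {z : α} (hz : z ∈ Λ) (B : Set α) :
    GG p E Λ z B ≤ χ := by
  rw [← h.chi z hz, ← GG_empty]
  exact Ex_mono h.p0 h.p1 fun ω _ => sum_le_sum fun v _ =>
    ind_mono fun hr => hr.mono (off_mono subset_rfl (Set.empty_subset _))

theorem chi_ge (h : PH p E Λ κ ν δ X C χ) {z : α} (hz : z ∈ Λ) : 1 ≤ χ := by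
  rw [← h.chi z hz]
  refine le_trans ?_ (single_le_sum (f := fun v => tau p E z v)
    (fun v _ => tau_nonneg h.p0 h.p1 _ _) hz)
  unfold tau Pr
  simp only [ind_pos (Rch.refl _ z), Ex_const, le_refl]

theorem lip1 (h : PH p E Λ κ ν δ X C χ) (z : α) (hz : z ∈ Λ) (Q Q' : Set α) :
    GG p E Λ z Q - GG p E Λ z Q' ≤ χ * ∑ y ∈ Λ, ind (y ∈ Q' ∧ y ∉ Q) * tau p E z y := by
  unfold GG
  rw [← Ex_sub]
  calc _ ≤ Ex p E fun ω => ∑ y ∈ Λ, ∑ v ∈ Λ,
        ind (y ∈ Q' ∧ y ∉ Q) * ind (Dis (Tr z y) (Tr y v) ω) := by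
        refine Ex_mono h.p0 h.p1 fun ω hω => ?_
        rw [← sum_sub_distrib, sum_comm]
        refine sum_le_sum fun v _ => ?_
        simp only [← ind_and]
        by_cases h2 : Rch (off ω Q') z v
        · rw [ind_pos h2]
          have := ind_le_one (Rch (off ω Q) z v)
          have := sum_nonneg (s := Λ) fun y _ =>
            ind_nonneg ((y ∈ Q' ∧ y ∉ Q) ∧ Dis (Tr z y) (Tr y v) ω)
          linarith
        · rw [ind_neg h2, sub_zero]
          refine ind_le_sum Λ _ ?_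
          rintro ⟨W, hW, ht⟩
          have : ¬ W ⊆ off ω Q' := fun hs => h2 ⟨W, hs, ht⟩
          obtain ⟨e, he, hn⟩ := not_subset.1 this
          have : ∃ y ∈ e, y ∈ Q' := by
            by_contra hc
            push Not at hc
            exact hn (mem_off.2 ⟨off_subset (hW he), hc⟩)
          obtain ⟨y, hy, hq⟩ := this
          obtain ⟨W₁, W₂, hd, hu, t1, t2⟩ := ht.split (v := y) (Or.inr ⟨e, he, hy⟩)
          have hW' := hW.trans off_subset
          exact ⟨y, h.EΛ e (hω (hW' he)) y hy, ⟨hq, (mem_off.1 (hW he)).2 y hy⟩,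
            W₁, (hu ▸ subset_union_left : W₁ ⊆ W).trans hW', W₂,
            (hu ▸ subset_union_right : W₂ ⊆ W).trans hW', hd, t1, t2⟩
    _ ≤ _ := by
        rw [Ex_sum, mul_sum]
        refine sum_le_sum fun y hy => ?_
        rw [Ex_sum]
        simp only [Ex_const_mul]
        rw [← h.chi y hy, sum_mul]
        refine sum_le_sum fun v _ => ?_
        have := mul_le_mul_of_nonneg_left (BK (E := E) h.p0 h.p2 (Tr z y) (Tr y v))
          (ind_nonneg (y ∈ Q' ∧ y ∉ Q))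
        refine this.trans (le_of_eq ?_)
        change _ * (tau p E z y * tau p E y v) = _
        ring

theorem lip (h : PH p E Λ κ ν δ X C χ) (z : α) (hz : z ∈ Λ) (Q Q' : Set α) :
    |GG p E Λ z Q - GG p E Λ z Q'| ≤ χ * ∑ y ∈ Λ, ind (¬ (y ∈ Q' ↔ y ∈ Q)) * tau p E z y := by
  have hχ : 0 ≤ χ := le_trans zero_le_one (h.chi_ge hz)
  rw [abs_sub_le_iff]
  constructor
  · refine (h.lip1 z hz Q Q').trans (mul_le_mul_of_nonneg_left (sum_le_sum fun y _ =>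
      mul_le_mul_of_nonneg_right (ind_mono ?_) (tau_nonneg h.p0 h.p1 _ _)) hχ)
    tauto
  · refine (h.lip1 z hz Q' Q).trans (mul_le_mul_of_nonneg_left (sum_le_sum fun y _ =>
      mul_le_mul_of_nonneg_right (ind_mono ?_) (tau_nonneg h.p0 h.p1 _ _)) hχ)
    tauto

theorem identity (h : PH p E Λ κ ν δ X C χ) (hrk : Function.Injective rk) {z : α} (hz : z ∈ Λ)
    (B : Set α) : χ - GG p E Λ z B = ∑ z' ∈ Λ, Ex p E fun ω =>
      ind (Ent ω B z z' ∧ z' ∉ PP rk ω B z z') * GG p E Λ z' (PP rk ω B z z') := by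
  classical
  have e1 : χ - GG p E Λ z B = Ex p E fun ω => ∑ z' ∈ Λ,
      ind (Ent ω B z z' ∧ z' ∉ PP rk ω B z z') *
        ∑ y ∈ Λ, ind (Rch (off ω (PP rk ω B z z')) z' y) := by
    rw [← h.chi z hz, ← GG_empty]
    unfold GG
    rw [← Ex_sub]
    refine Ex_congr fun ω hω => ?_
    simp only [off_empty, mul_sum]
    rw [sum_comm, ← sum_sub_distrib]
    refine sum_congr rfl fun y _ => ?_
    rw [count_identity hrk Λ (fun e he => h.EΛ e (hω he)) B z y]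
    ring
  rw [e1, Ex_sum]
  refine sum_congr rfl fun z' _ => ?_
  have ho : ∀ (ω : Finset (Sym2 α)) (Q : Set α),
      off ω Q = ω.filter fun e => ¬ ∃ u ∈ e, u ∈ Q := by
    intro ω Q; ext e; simp [mem_off]
  unfold GG
  simp only [ho]
  refine Ex_stop p E (fun ω => PP rk ω B z z') (fun Q e => ∃ u ∈ e, u ∈ Q)
    (fun ω => Ent ω B z z' ∧ z' ∉ PP rk ω B z z') ?_
    (fun _ η => ∑ y ∈ Λ, ind (Rch η z' y))
  intro ω ω' hA hf
  have := PP_stop (rk := rk) (η := ω) (η' := ω') (B := B) (z := z) (z' := z') fun e he => by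
    have := Finset.ext_iff.1 hf e
    simp only [mem_filter, he, and_true] at this
    exact this
  exact ⟨⟨(this.2 _).2 hA.1, this.1 ▸ hA.2⟩, this.1⟩

end PH

/-- kernel bound for a function of a root and an avoided set -/
def KB (Λ : Finset α) (κ : α → α → ℝ) (δ X a c : ℝ) (g : α → Set α → ℝ) : Prop :=
  ∀ z ∈ Λ, ∀ B : Set α, z ∉ B →
    |g z B| ≤ ∑ y ∈ Λ, ind (y ∈ B) * ((a + c * (X * δ)) * κ z y + c * δ)

/-- kernel bound term by term -/
def PK (E : Finset (Sym2 α)) (Λ : Finset α) (κ : α → α → ℝ) (δ X a c : ℝ)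
    (g : α → Set α → α → ℝ) : Prop :=
  ∀ z ∈ Λ, ∀ B : Set α, z ∉ B → ∀ y ∈ Λ,
    |g z B y| ≤ ind (∃ η ⊆ E, Ent η B z y) * ((a + c * (X * δ)) * κ z y + c * δ)

theorem Cl_root {η : Finset (Sym2 α)} {z v : α} : v ∈ Cl η {z}ᶜ z ↔ v = z :=
  ⟨fun h => by simpa using Rch.notMem h (by simp), fun h => h ▸ self_mem_Cl⟩

theorem Ent_root {η : Finset (Sym2 α)} {z v : α} : Ent η {z}ᶜ z v ↔ v ≠ z ∧ s(z, v) ∈ η := by
  simp [Ent, Cl_root]

namespace PH

theorem ker0 (h : PH p E Λ κ ν δ X C χ) {a c : ℝ} (ha : 0 ≤ a) (hc : 0 ≤ c) (z y : α) :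
    0 ≤ (a + c * (X * δ)) * κ z y + c * δ := by
  have := h.d0
  have := h.k0 z y
  have : 0 ≤ X := le_trans zero_le_one h.X1
  positivity

theorem pk_kb (h : PH p E Λ κ ν δ X C χ) {a c : ℝ} (ha : 0 ≤ a) (hc : 0 ≤ c)
    {g : α → Set α → α → ℝ} (hg : PK E Λ κ δ X a c g) :
    KB Λ κ δ X a c fun z B => ∑ y ∈ Λ, g z B y := fun z hz B hB =>
  (abs_sum_le_sum_abs _ _).trans (sum_le_sum fun y hy => (hg z hz B hB y hy).trans
    (mul_le_mul_of_nonneg_right (ind_mono fun ⟨_, _, he⟩ => he.mem hB) (h.ker0 ha hc _ _)))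

theorem pk_root (h : PH p E Λ κ ν δ X C χ) {a c : ℝ} (ha : 0 ≤ a) (hc : 0 ≤ c)
    {g : α → Set α → α → ℝ} (hg : PK E Λ κ δ X a c g) {z : α} (hz : z ∈ Λ) :
    |∑ y ∈ Λ, g z {z}ᶜ y| ≤ C * (a + 2 * c * (X * δ)) := by
  have hX : 0 ≤ X * δ := h.d0.trans h.dX
  have hA : 0 ≤ a + c * (X * δ) := by positivity
  calc _ ≤ ∑ y ∈ Λ, ind (y ≠ z ∧ s(z, y) ∈ E) * ((a + c * (X * δ)) * ν + c * δ) := by
        refine (abs_sum_le_sum_abs _ _).trans (sum_le_sum fun y hy =>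
          (hg z hz _ (by simp) y hy).trans ?_)
        by_cases hy : ∃ η ⊆ E, Ent η {z}ᶜ z y
        · obtain ⟨η, h1, h2⟩ := id hy
          rw [Ent_root] at h2
          rw [ind_pos hy, ind_pos ⟨h2.1, h1 h2.2⟩, one_mul, one_mul]
          have := mul_le_mul_of_nonneg_left (h.ko z y h2.1.symm) hA
          linarith
        · rw [ind_neg hy, zero_mul]
          have := h.n0
          have := h.d0
          exact mul_nonneg (ind_nonneg _) (by positivity)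
    _ ≤ _ := by
        rw [← sum_mul, sum_ind]
        have i1 := mul_le_mul_of_nonneg_left (h.dn z hz) hA
        have i2 := mul_le_mul_of_nonneg_left (h.dd z hz) hc
        nlinarith

theorem T1_zero {fl : Prop} {g : α → Set α → ℝ} {z z' : α} {B : Set α}
    (hn : ¬ ∃ η ⊆ E, Ent η B z z') : T1 rk p E L N fl g z B z' = 0 := by
  unfold T1
  rw [← Ex_const p E 0]
  refine Ex_congr fun ω hω => ?_
  rw [ind_neg fun hk => hn ⟨_, loc_subset.trans hω, hk.2.1⟩, zero_mul]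

theorem tau3 (h : PH p E Λ κ ν δ X C χ) {z y z' : α} (hz : z ∈ Λ) (hy : y ∈ Λ) (hz' : z' ∈ Λ) :
    ∑ w ∈ Λ, tau p E z w * (tau p E w y * tau p E w z') ≤
      C ^ 3 * ∑ w ∈ Λ, (κ z w + δ) * ((κ w y + δ) * (κ w z' + δ)) := by
  rw [mul_sum]
  refine sum_le_sum fun w hw => ?_
  have := mul_le_mul (h.tk z hz w hw) (mul_le_mul (h.tk w hw y hy) (h.tk w hw z' hz')
    (tau_nonneg h.p0 h.p1 _ _) (mul_nonneg h.C0 (h.t0 _ _)))
    (mul_nonneg (tau_nonneg h.p0 h.p1 _ _) (tau_nonneg h.p0 h.p1 _ _))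
    (mul_nonneg h.C0 (h.t0 _ _))
  refine this.trans (le_of_eq ?_); ring

theorem T1_pk (h : PH p E Λ κ ν δ X C χ) {a c : ℝ} (ha : 0 ≤ a) (hac : a ≤ c)
    {g : α → Set α → ℝ} (hg : KB Λ κ δ X a c g) :
    PK E Λ κ δ X (22 * C ^ 6 * a * ν) (22 * C ^ 6 * c) (T1 rk p E L N False g) := by
  intro z hz B _ z' hz'
  by_cases hn : ∃ η ⊆ E, Ent η B z z'
  swap
  · rw [T1_zero hn, ind_neg hn]; simp
  rw [ind_pos hn, one_mul]
  have hc := ha.trans hac
  calc _ ≤ Ex p E fun ω => ∑ y ∈ Λ, ind (y ≠ z') * ((a + c * (X * δ)) * κ z' y + c * δ) *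
        ind (Rch ω z y ∧ Rch ω z z') := by
        refine abs_Ex_le h.p0 h.p1 fun ω _ => ?_
        by_cases hk : okS rk False N (loc L ω z) B z z'
        · rw [ind_pos hk, one_mul]
          have hn : z' ∉ PP rk (loc L ω z) B z z' := fun h => hk.2.2.1 h
          refine (hg z' hz' _ hn).trans (sum_le_sum fun y _ => ?_)
          rw [mul_right_comm, ← ind_and]
          refine mul_le_mul_of_nonneg_right (ind_mono fun hy => ?_) (h.ker0 ha hc _ _)
          exact ⟨fun e => hn (e ▸ hy), (PP_rch hy).mono loc_subset, hk.2.1.rch.mono loc_subset⟩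
        · rw [ind_neg hk, zero_mul, abs_zero]
          exact sum_nonneg fun y _ => mul_nonneg (mul_nonneg (ind_nonneg _) (h.ker0 ha hc _ _))
            (ind_nonneg _)
    _ ≤ C ^ 3 * ∑ y ∈ Λ, ind (y ≠ z') * ((a + c * (X * δ)) * κ z' y + c * δ) *
        ∑ w ∈ Λ, (κ z w + δ) * ((κ w y + δ) * (κ w z' + δ)) := by
        rw [Ex_sum, mul_sum]
        refine sum_le_sum fun y hy => ?_
        rw [Ex_const_mul, mul_left_comm (C ^ 3)]
        exact mul_le_mul_of_nonneg_left ((tree_bound h.p0 h.p2 h.EΛ hz y z').trans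
          (h.tau3 hz hy hz')) (mul_nonneg (ind_nonneg _) (h.ker0 ha hc _ _))
    _ ≤ _ := by
        refine (mul_le_mul_of_nonneg_left (h.D1 hz hz' ha hac) (pow_nonneg h.C0 3)).trans
          (le_of_eq ?_)
        ring

theorem T1_one_pk (h : PH p E Λ κ ν δ X C χ) (fl : Prop) :
    PK E Λ κ δ X C C (T1 rk p E L N fl 1) := by
  intro z hz B _ z' hz'
  by_cases hn : ∃ η ⊆ E, Ent η B z z'
  swap
  · rw [T1_zero hn, ind_neg hn]; simp
  rw [ind_pos hn, one_mul]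
  have h1 : |T1 rk p E L N fl 1 z B z'| ≤ tau p E z z' := by
    refine abs_Ex_le h.p0 h.p1 fun ω _ => ?_
    simp only [Pi.one_apply, mul_one]
    rw [abs_of_nonneg (ind_nonneg _)]
    exact ind_mono fun hk => hk.2.1.rch.mono loc_subset
  have hX : 0 ≤ X * δ := h.d0.trans h.dX
  nlinarith [h.tk z hz z' hz', mul_nonneg (mul_nonneg h.C0 hX) (h.k0 z z')]

theorem Tl_pow_kb (h : PH p E Λ κ ν δ X C χ) {a c : ℝ} (ha : 0 ≤ a) (hac : a ≤ c)
    {g : α → Set α → ℝ} (hg : KB Λ κ δ X a c g) (j : ℕ) :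
    KB Λ κ δ X ((22 * C ^ 6 * ν) ^ j * a) ((22 * C ^ 6) ^ j * c)
      ((Tl rk p E Λ L N False ^ j) g) := by
  have hC := h.C0
  have hn := h.n0
  induction j with
  | zero => simpa using hg
  | succ j ih =>
    have h1 : (22 * C ^ 6 * ν) ^ j * a ≤ (22 * C ^ 6) ^ j * c := by
      refine mul_le_mul (pow_le_pow_left₀ (by positivity) ?_ _) hac ha (by positivity)
      exact mul_le_of_le_one_right (by positivity) h.n1
    have := h.pk_kb (by positivity) (mul_nonneg (by positivity) (le_trans (by positivity) h1))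
      (h.T1_pk (rk := rk) (L := L) (N := N) (by positivity) h1 ih)
    rw [pow_succ' (Tl rk p E Λ L N False), Module.End.mul_apply]
    rw [show 22 * C ^ 6 * ((22 * C ^ 6 * ν) ^ j * a) * ν = (22 * C ^ 6 * ν) ^ (j + 1) * a by ring,
      show 22 * C ^ 6 * ((22 * C ^ 6) ^ j * c) = (22 * C ^ 6) ^ (j + 1) * c by ring] at this
    exact this

theorem Tl_pow_root (h : PH p E Λ κ ν δ X C χ) {a c : ℝ} (ha : 0 ≤ a) (hac : a ≤ c)
    {g : α → Set α → ℝ} (hg : KB Λ κ δ X a c g) (j : ℕ) {z : α} (hz : z ∈ Λ) :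
    |(Tl rk p E Λ L N False ^ (j + 1)) g z {z}ᶜ| ≤
      C * (22 * C ^ 6) ^ (j + 1) * (a * ν ^ (j + 1) + 2 * c * (X * δ)) := by
  have hC := h.C0
  have hn := h.n0
  have h1 : (22 * C ^ 6 * ν) ^ j * a ≤ (22 * C ^ 6) ^ j * c := by
    refine mul_le_mul (pow_le_pow_left₀ (by positivity) ?_ _) hac ha (by positivity)
    exact mul_le_of_le_one_right (by positivity) h.n1
  have := h.pk_root (by positivity) (mul_nonneg (by positivity) (le_trans (by positivity) h1))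
    (h.T1_pk (rk := rk) (L := L) (N := N) (by positivity) h1
      (h.Tl_pow_kb (rk := rk) (L := L) (N := N) ha hac hg j)) hz
  rw [pow_succ', Module.End.mul_apply]
  refine le_trans this (le_of_eq ?_)
  ring

end PH

end HamPerc
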