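import Pool.Agent.Lib.MP_58a483_pr.Trail

/-!
Sequential exploration of a cluster: the part off a set `B`, its entries into `B`, and
the sets explored before a given entry.
-/

open Finset

namespace HamPerc

variable {α γ : Type*} [DecidableEq α] [LinearOrder γ]

open Classical in
/-- edges avoiding `B` -/
noncomputable def off (η : Finset (Sym2 α)) (B : Set α) : Finset (Sym2 α) :=
  η.filter fun e => ∀ u ∈ e, u ∉ B

/-- cluster of `z` off `B` -/
def Cl (η : Finset (Sym2 α)) (B : Set α) (z : α) : Set α := {v | Rch (off η B) z v}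

/-- `z'` is outside the cluster of `z` off `B` and joined to it by an edge of `η` -/
def Ent (η : Finset (Sym2 α)) (B : Set α) (z z' : α) : Prop :=
  z' ∉ Cl η B z ∧ ∃ a ∈ Cl η B z, s(a, z') ∈ η

/-- the set explored before the entry `z'` -/
def PP (rk : α → γ) (η : Finset (Sym2 α)) (B : Set α) (z z' : α) : Set α :=
  {y | y ∈ Cl η B z ∨ ∃ z'', rk z'' < rk z' ∧ Ent η B z z'' ∧ Rch (off η (Cl η B z)) z'' y}

open Classical in
/-- edges touching the ball of radius `L` -/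
noncomputable def loc (L : ℕ) (η : Finset (Sym2 α)) (z : α) : Finset (Sym2 α) :=
  η.filter fun e => ∃ u ∈ e, Nr η L z u

variable {η η' W : Finset (Sym2 α)} {B B' : Set α} {x y z z' : α} {rk : α → γ}

theorem mem_off {e : Sym2 α} : e ∈ off η B ↔ e ∈ η ∧ ∀ u ∈ e, u ∉ B := by
  unfold off; simp

theorem off_subset : off η B ⊆ η := fun _ h => (mem_off.1 h).1

theorem off_mono (h : η ⊆ η') (hB : B' ⊆ B) : off η B ⊆ off η' B' := fun _ he =>
  mem_off.2 ⟨h (mem_off.1 he).1, fun u hu hb => (mem_off.1 he).2 u hu (hB hb)⟩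

theorem off_empty : off η ∅ = η := by ext e; simp [mem_off]

theorem mem_loc {L : ℕ} {e : Sym2 α} : e ∈ loc L η z ↔ e ∈ η ∧ ∃ u ∈ e, Nr η L z u := by
  unfold loc; simp

theorem loc_subset {L : ℕ} : loc L η z ⊆ η := fun _ h => (mem_loc.1 h).1

theorem Rch.notMem (h : Rch (off η B) x y) (hx : x ∉ B) : y ∉ B := by
  rcases h.vis with rfl | ⟨e, he, hy⟩
  · exact hx
  · exact (mem_off.1 he).2 y hy

theorem Cl_mono (h : η ⊆ η') : Cl η B z ⊆ Cl η' B z := fun _ hv =>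
  Rch.mono hv (off_mono h subset_rfl)

theorem self_mem_Cl : z ∈ Cl η B z := Rch.refl _ _

theorem Ent.mem (h : Ent η B z z') (hz : z ∉ B) : z' ∈ B := by
  obtain ⟨h1, a, ha, he⟩ := h
  by_contra hb
  refine h1 (Rch.step ha (mem_off.2 ⟨he, fun u hu => ?_⟩))
  rcases Sym2.mem_iff.1 hu with rfl | rfl
  · exact Rch.notMem ha hz
  · exact hb

theorem Ent.rch (h : Ent η B z z') : Rch η z z' :=
  let ⟨_, _, ha, he⟩ := h; (Rch.mono ha off_subset).step he

theorem Ent.ne (h : Ent η B z z') : z' ≠ z := fun e => h.1 (e ▸ self_mem_Cl)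

theorem PP_rch (h : y ∈ PP rk η B z z') : Rch η z y := by
  rcases h with h | ⟨z'', _, h1, h2⟩
  · exact Rch.mono h off_subset
  · exact h1.rch.trans (h2.mono off_subset)

theorem Cl_subset_PP : Cl η B z ⊆ PP rk η B z z' := fun _ h => Or.inl h

theorem rch_off_PP (hn : z' ∉ PP rk η B z z') :
    Rch (off η (PP rk η B z z')) z' y ↔ Rch (off η (Cl η B z)) z' y := by
  refine ⟨fun h => h.mono (off_mono subset_rfl Cl_subset_PP), fun h => ?_⟩
  refine h.induction (P := fun u => Rch (off η (PP rk η B z z')) z' u) (Rch.refl _ _) ?_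
  intro a b ha he
  refine ha.step (mem_off.2 ⟨(mem_off.1 he).1, fun u hu => ?_⟩)
  rcases Sym2.mem_iff.1 hu with rfl | rfl
  · exact ha.notMem hn
  · rintro (h | ⟨z'', h1, h2, h3⟩)
    · exact (mem_off.1 he).2 u hu h
    · refine hn (Or.inr ⟨z'', h1, h2, (h3.step (by rwa [Sym2.eq_swap])).trans ?_⟩)
      exact (ha.mono (off_mono subset_rfl Cl_subset_PP)).symm

theorem count_identity (hrk : Function.Injective rk) (Λ : Finset α)
    (hΛ : ∀ e ∈ η, ∀ u ∈ e, u ∈ Λ) (B : Set α) (z y : α) :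
    ind (Rch η z y) = ind (Rch (off η B) z y) + ∑ z' ∈ Λ,
      ind (Ent η B z z' ∧ z' ∉ PP rk η B z z') * ind (Rch (off η (PP rk η B z z')) z' y) := by
  classical
  simp only [← ind_and]
  by_cases hc : y ∈ Cl η B z
  · rw [ind_pos (Rch.mono hc off_subset), ind_pos (P := Rch (off η B) z y) hc, sum_eq_zero, add_zero]
    intro z' _
    exact ind_neg fun h => h.2.notMem h.1.2 (Or.inl hc)
  rw [ind_neg (P := Rch (off η B) z y) hc, zero_add]
  by_cases hr : Rch η z y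
  swap
  · rw [ind_neg hr, sum_eq_zero]
    intro z' _
    exact ind_neg fun h => hr (h.1.1.rch.trans (h.2.mono off_subset))
  have hT : y ∈ Cl η B z ∨ ∃ z'', Ent η B z z'' ∧ Rch (off η (Cl η B z)) z'' y := by
    refine hr.induction (P := fun u => u ∈ Cl η B z ∨
      ∃ z'', Ent η B z z'' ∧ Rch (off η (Cl η B z)) z'' u) (Or.inl self_mem_Cl) ?_
    intro a b ha he
    by_cases hb : b ∈ Cl η B z
    · exact Or.inl hb
    by_cases ha' : a ∈ Cl η B z
    · exact Or.inr ⟨b, ⟨hb, a, ha', he⟩, Rch.refl _ _⟩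
    obtain ⟨z'', h1, h2⟩ := ha.resolve_left ha'
    refine Or.inr ⟨z'', h1, h2.step (mem_off.2 ⟨he, fun u hu => ?_⟩)⟩
    rcases Sym2.mem_iff.1 hu with rfl | rfl
    · exact ha'
    · exact hb
  have hmem : ∀ z'', Ent η B z z'' → z'' ∈ Λ := fun z'' ⟨_, a, _, he⟩ =>
    hΛ _ he _ (Sym2.mem_mk_right _ _)
  obtain ⟨w, hw1, hw2⟩ := hT.resolve_left hc
  obtain ⟨z0, h0, hmin⟩ := exists_min_image
    (Λ.filter fun z'' => Ent η B z z'' ∧ Rch (off η (Cl η B z)) z'' y) rk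
    ⟨w, mem_filter.2 ⟨hmem w hw1, hw1, hw2⟩⟩
  obtain ⟨h0, h1, h2⟩ := mem_filter.1 h0
  have hn : z0 ∉ PP rk η B z z0 := by
    rintro (h | ⟨z'', a, b, c⟩)
    · exact h1.1 h
    · exact absurd (hmin z'' (mem_filter.2 ⟨hmem _ b, b, c.trans h2⟩)) (not_le.2 a)
  rw [ind_pos hr, sum_eq_single z0]
  · rw [ind_pos ⟨⟨h1, hn⟩, (rch_off_PP hn).2 h2⟩]
  · intro z' hz' hne
    refine ind_neg fun ⟨⟨a, b⟩, c⟩ => ?_
    have c' := (rch_off_PP b).1 c
    have := hmin z' (mem_filter.2 ⟨hz', a, c'⟩)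
    have hlt : rk z0 < rk z' := lt_of_le_of_ne this fun h => hne (hrk h).symm
    exact b (Or.inr ⟨z0, hlt, h1, h2.trans c'.symm⟩)
  · intro h; exact absurd h0 h

theorem Cl_stop (h : ∀ e, (∃ u ∈ e, u ∈ Cl η B z) → (e ∈ η ↔ e ∈ η')) :
    Cl η' B z = Cl η B z := by
  ext v
  refine Rch.stop fun e he => ?_
  rw [mem_off, mem_off, h e he]

theorem PP_stop (h : ∀ e, (∃ u ∈ e, u ∈ PP rk η B z z') → (e ∈ η ↔ e ∈ η')) :
    PP rk η' B z z' = PP rk η B z z' ∧ ∀ w, (Ent η' B z w ↔ Ent η B z w) := by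
  have hc : Cl η' B z = Cl η B z :=
    Cl_stop fun e ⟨u, hu, hu'⟩ => h e ⟨u, hu, Cl_subset_PP hu'⟩
  have he : ∀ w, (Ent η' B z w ↔ Ent η B z w) := by
    intro w
    unfold Ent
    rw [hc]
    refine and_congr_right fun _ => exists_congr fun a => and_congr_right fun ha => ?_
    exact (h _ ⟨a, Sym2.mem_mk_left _ _, Cl_subset_PP ha⟩).symm
  refine ⟨?_, he⟩
  ext y
  simp only [PP, Set.mem_setOf_eq, hc, he]
  refine or_congr_right (exists_congr fun w => and_congr_right fun h1 =>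
    and_congr_right fun h2 => Rch.stop fun e ⟨u, hu, hu'⟩ => ?_)
  rw [mem_off, mem_off, h e ⟨u, hu, Or.inr ⟨w, h1, h2, hu'⟩⟩]

theorem Tr.subset_loc {L : ℕ} (h : Tr z y W) (hW : W ⊆ η) (hL : W.card ≤ L) :
    W ⊆ loc L η z := by
  intro e he
  refine mem_loc.2 ⟨hW he, ?_⟩
  induction e using Sym2.ind with
  | _ a b => exact ⟨a, Sym2.mem_mk_left _ _,
      h.nr_vis hW hL (Or.inr ⟨_, he, Sym2.mem_mk_left _ _⟩)⟩

theorem Tr.inside (h : Tr z y W) (hW : W ⊆ off η B) : ∀ e ∈ W, ∀ u ∈ e, u ∈ Cl η B z :=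
  fun e he _ hu => h.rch_vis hW (Or.inr ⟨e, he, hu⟩)

theorem short_subset_loc {L : ℕ} (hs : ¬ Lg η (L + 1) z y) (h : Tr z y W) (hW : W ⊆ η) :
    W ⊆ loc L η z :=
  h.subset_loc hW (by by_contra hc; exact hs ⟨W, hW, h, by omega⟩)

theorem subset_off_of (h1 : W ⊆ off η B) (h2 : W ⊆ η') (hB : B' ⊆ B) : W ⊆ off η' B' :=
  fun _ he => mem_off.2 ⟨h2 he, fun u hu hb => (mem_off.1 (h1 he)).2 u hu (hB hb)⟩

theorem Cl_sub (h0 : η' ⊆ η) (hs : ∀ W ⊆ η, Tr z y W → W ⊆ η') :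
    y ∈ Cl η' B z ↔ y ∈ Cl η B z := by
  refine ⟨fun h => Cl_mono h0 h, ?_⟩
  rintro ⟨W, hW, ht⟩
  exact ⟨W, subset_off_of hW (hs _ (hW.trans off_subset) ht) subset_rfl, ht⟩

theorem Ent_sub (h0 : η' ⊆ η) (hs : ∀ W ⊆ η, Tr z y W → W ⊆ η') (w : α) :
    (Ent η' B z w ∧ Rch (off η' (Cl η' B z)) w y) ↔
      (Ent η B z w ∧ Rch (off η (Cl η B z)) w y) := by
  have hsub : Cl η' B z ⊆ Cl η B z := Cl_mono h0
  constructor
  · rintro ⟨⟨h1, a, ha, he⟩, W, hW, ht⟩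
    have key : ∀ v, Vis w W v → v ∉ Cl η B z := by
      intro v hv hc
      obtain ⟨W₁, W₂, _, hu, _, h2⟩ := ht.split hv
      have s2 : W₂ ⊆ W := hu ▸ subset_union_right
      obtain ⟨v', ⟨U, hU, htU⟩, hvis, W', hW', ht', hA⟩ := h2.last (Cl η B z) hc
      have hd : Disjoint U W' := by
        rw [disjoint_right]
        intro e he heU
        obtain ⟨u, hu, hn⟩ := hA e he
        exact hn (htU.inside hU e heU u hu)
      have hl := hs _ (union_subset (hU.trans off_subset)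
        (hW'.trans (s2.trans (hW.trans (off_subset.trans h0))))) (htU.append ht' hd)
      have hv' : v' ∈ Cl η' B z :=
        ⟨U, subset_off_of hU (subset_union_left.trans hl) subset_rfl, htU⟩
      have : Vis w W v' := by
        rcases hvis with rfl | ⟨e, he, hu⟩
        · exact hv
        · exact Or.inr ⟨e, s2 he, hu⟩
      rcases this with rfl | ⟨e, he, hu⟩
      · exact h1 hv'
      · exact (mem_off.1 (hW he)).2 _ hu hv'
    refine ⟨⟨key w (Or.inl rfl), a, hsub ha, h0 he⟩, W, fun e he => ?_, ht⟩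
    exact mem_off.2 ⟨h0 (off_subset (hW he)), fun u hu => key u (Or.inr ⟨e, he, hu⟩)⟩
  · rintro ⟨⟨h1, a, ⟨U, hU, htU⟩, he⟩, W, hW, ht⟩
    have n1 : s(a, w) ∉ U := fun h => h1 (htU.inside hU _ h w (Sym2.mem_mk_right _ _))
    have hd : Disjoint (insert s(a, w) U) W := by
      rw [disjoint_right]
      intro e heW heU
      rcases mem_insert.1 heU with rfl | heU
      · exact (mem_off.1 (hW heW)).2 a (Sym2.mem_mk_left _ _) ⟨U, hU, htU⟩
      · induction e using Sym2.ind with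
        | _ b c =>
          exact (mem_off.1 (hW heW)).2 b (Sym2.mem_mk_left _ _)
            (htU.inside hU _ heU b (Sym2.mem_mk_left _ _))
    have hl := hs _ (union_subset (insert_subset he (hU.trans off_subset)) (hW.trans off_subset))
      ((htU.snoc n1).append ht hd)
    refine ⟨⟨fun h => h1 (hsub h), a, ⟨U, subset_off_of hU ?_ subset_rfl, htU⟩,
      hl (mem_union_left _ (mem_insert_self _ _))⟩, W,
      subset_off_of hW (subset_union_right.trans hl) hsub, ht⟩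
    exact (subset_insert _ _).trans (subset_union_left.trans hl)

theorem PP_sub (h0 : η' ⊆ η) (hs : ∀ W ⊆ η, Tr z y W → W ⊆ η') :
    y ∈ PP rk η' B z z' ↔ y ∈ PP rk η B z z' := by
  simp only [PP, Set.mem_setOf_eq, Cl_sub h0 hs, Ent_sub h0 hs]

theorem Ent_sub' (h0 : η' ⊆ η) (hs : ∀ W ⊆ η, Tr z y W → W ⊆ η') :
    Ent η' B z y ↔ Ent η B z y := by
  have := Ent_sub (B := B) h0 hs y
  simpa only [Rch.refl, and_true] using this

theorem PP_loc {L : ℕ} (hs : ¬ Lg η (L + 1) z y) :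
    y ∈ PP rk (loc L η z) B z z' ↔ y ∈ PP rk η B z z' :=
  PP_sub loc_subset fun _ a b => short_subset_loc hs b a

theorem Ent_loc' {L : ℕ} (hs : ¬ Lg η (L + 1) z y) : Ent (loc L η z) B z y ↔ Ent η B z y :=
  Ent_sub' loc_subset fun _ a b => short_subset_loc hs b a

theorem off_congr (h : ∀ e ∈ η, ∀ u ∈ e, (u ∈ B ↔ u ∈ B')) : off η B = off η B' := by
  ext e
  simp only [mem_off]
  exact and_congr_right fun he => forall₂_congr fun u hu => not_congr (h e he u hu)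

theorem Cl_congr (h : ∀ e ∈ η, ∀ u ∈ e, (u ∈ B ↔ u ∈ B')) : Cl η B z = Cl η B' z := by
  unfold Cl; rw [off_congr h]

theorem Ent_congr (h : ∀ e ∈ η, ∀ u ∈ e, (u ∈ B ↔ u ∈ B')) : Ent η B z y ↔ Ent η B' z y := by
  unfold Ent; rw [Cl_congr h]

theorem PP_congr (h : ∀ e ∈ η, ∀ u ∈ e, (u ∈ B ↔ u ∈ B')) :
    PP rk η B z z' = PP rk η B' z z' := by
  unfold PP; simp only [Cl_congr h, Ent_congr h]

theorem loc_mono {L : ℕ} (h : η ⊆ η') : loc L η z ⊆ loc L η' z := fun _ he =>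
  let ⟨a, u, b, c⟩ := mem_loc.1 he; mem_loc.2 ⟨h a, u, b, c.mono h⟩

theorem loc_filter_loc {L : ℕ} (t : Sym2 α → Prop) [DecidablePred t] :
    loc L ((loc L η z).filter t) z = loc L (η.filter t) z := by
  refine Subset.antisymm (loc_mono (filter_subset_filter _ loc_subset)) fun e he => ?_
  obtain ⟨h1, u, hu, W, hW, ht, hL⟩ := mem_loc.1 he
  have hs : η.filter t ⊆ η := filter_subset _ _
  refine mem_loc.2 ⟨mem_filter.2 ⟨mem_loc.2 ⟨hs h1, u, hu, W, hW.trans hs, ht, hL⟩,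
    (mem_filter.1 h1).2⟩, u, hu, W, fun e' he' => ?_, ht, hL⟩
  exact mem_filter.2 ⟨ht.subset_loc (hW.trans hs) hL he', (mem_filter.1 (hW he')).2⟩

/-- characterisation of the value of `loc` -/
theorem loc_eq_iff {L : ℕ} {S : Finset (Sym2 α)} [DecidablePred fun e : Sym2 α => ∃ u ∈ e, Nr S L z u] :
    loc L η z = S ↔ loc L S z = S ∧ η.filter (fun e => ∃ u ∈ e, Nr S L z u) = S := by
  constructor
  · rintro rfl
    have h : ∀ u, Nr (loc L η z) L z u ↔ Nr η L z u := fun u =>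
      Nr.stop fun e he => by rw [mem_loc]; exact ⟨fun h => ⟨h, he⟩, fun h => h.1⟩
    constructor
    · ext e; simp only [mem_loc, h]; tauto
    · ext e; simp only [mem_loc, mem_filter, h]
  · rintro ⟨_, h2⟩
    have h : ∀ u, Nr η L z u ↔ Nr S L z u := fun u =>
      Nr.stop fun e he => by
        conv_lhs => rw [← h2]
        rw [mem_filter]; exact ⟨fun h => h.1, fun h => ⟨h, he⟩⟩
    conv_rhs => rw [← h2]
    ext e; simp only [mem_loc, mem_filter, h]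

section Map

variable {σ : α → α}

theorem off_emap (hσ : Function.Injective σ) :
    off (emap σ η) B = emap σ (off η (σ ⁻¹' B)) := by
  ext e'
  constructor
  · intro h
    obtain ⟨h1, h2⟩ := mem_off.1 h
    obtain ⟨e, he, rfl⟩ := mem_image.1 h1
    exact (mem_emap hσ).2 (mem_off.2 ⟨he, fun u hu => h2 _ (Sym2.mem_map.2 ⟨u, hu, rfl⟩)⟩)
  · intro h
    obtain ⟨e, he, rfl⟩ := mem_image.1 h
    refine mem_off.2 ⟨(mem_emap hσ).2 (mem_off.1 he).1, fun u hu => ?_⟩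
    obtain ⟨a, ha, rfl⟩ := Sym2.mem_map.1 hu
    exact (mem_off.1 he).2 a ha

theorem mem_Cl_emap (hσ : Function.Injective σ) {v : α} :
    v ∈ Cl (emap σ η) B (σ z) ↔ ∃ y, v = σ y ∧ y ∈ Cl η (σ ⁻¹' B) z := by
  unfold Cl
  rw [Set.mem_setOf_eq, off_emap hσ, rch_map_iff hσ]; rfl

theorem preimage_Cl_emap (hσ : Function.Injective σ) :
    σ ⁻¹' Cl (emap σ η) B (σ z) = Cl η (σ ⁻¹' B) z := by
  ext y
  rw [Set.mem_preimage, mem_Cl_emap hσ]
  exact ⟨fun ⟨_, a, b⟩ => hσ a ▸ b, fun h => ⟨y, rfl, h⟩⟩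

theorem Ent_emap_iff (hσ : Function.Injective σ) {v : α} :
    Ent (emap σ η) B (σ z) v ↔ ∃ y, v = σ y ∧ Ent η (σ ⁻¹' B) z y := by
  constructor
  · rintro ⟨h1, a, ha, he⟩
    obtain ⟨b, rfl, hb⟩ := (mem_Cl_emap hσ).1 ha
    obtain ⟨e, he1, he2⟩ := mem_image.1 he
    have hv : v ∈ Sym2.map σ e := he2 ▸ Sym2.mem_mk_right _ _
    obtain ⟨y, _, rfl⟩ := Sym2.mem_map.1 hv
    exact ⟨y, rfl, fun h => h1 ((mem_Cl_emap hσ).2 ⟨y, rfl, h⟩), b, hb,
      (mem_emap hσ (e := s(b, y))).1 he⟩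
  · rintro ⟨y, rfl, h1, a, ha, he⟩
    refine ⟨fun h => h1 ?_, σ a, (mem_Cl_emap hσ).2 ⟨a, rfl, ha⟩,
      (mem_emap hσ (e := s(a, y))).2 he⟩
    rw [← preimage_Cl_emap hσ]; exact h

theorem Ent_emap (hσ : Function.Injective σ) :
    Ent (emap σ η) B (σ z) (σ y) ↔ Ent η (σ ⁻¹' B) z y := by
  rw [Ent_emap_iff hσ]
  exact ⟨fun ⟨_, a, b⟩ => hσ a ▸ b, fun h => ⟨y, rfl, h⟩⟩

theorem preimage_PP_emap (hσ : Function.Injective σ)
    (hrk : ∀ a b, rk (σ a) < rk (σ b) ↔ rk a < rk b) :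
    σ ⁻¹' PP rk (emap σ η) B (σ z) (σ z') = PP rk η (σ ⁻¹' B) z z' := by
  ext y
  rw [Set.mem_preimage]
  refine or_congr ?_ ?_
  · rw [← preimage_Cl_emap hσ]; rfl
  · constructor
    · rintro ⟨v, h1, h2, h3⟩
      obtain ⟨w, rfl, hw⟩ := (Ent_emap_iff hσ).1 h2
      rw [off_emap hσ, rch_map hσ, preimage_Cl_emap hσ] at h3
      exact ⟨w, (hrk _ _).1 h1, hw, h3⟩
    · rintro ⟨w, h1, h2, h3⟩
      refine ⟨σ w, (hrk _ _).2 h1, (Ent_emap hσ).2 h2, ?_⟩
      rwa [off_emap hσ, rch_map hσ, preimage_Cl_emap hσ]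

theorem loc_emap (hσ : Function.Injective σ) {L : ℕ} :
    loc L (emap σ η) (σ z) = emap σ (loc L η z) := by
  ext e'
  constructor
  · intro h
    obtain ⟨h1, u, hu, h2⟩ := mem_loc.1 h
    obtain ⟨e, he, rfl⟩ := mem_image.1 h1
    obtain ⟨a, ha, rfl⟩ := Sym2.mem_map.1 hu
    exact (mem_emap hσ).2 (mem_loc.2 ⟨he, a, ha, (nr_map hσ).1 h2⟩)
  · intro h
    obtain ⟨e, he, rfl⟩ := mem_image.1 h
    obtain ⟨h1, u, hu, h2⟩ := mem_loc.1 he
    exact mem_loc.2 ⟨(mem_emap hσ).2 h1, σ u, Sym2.mem_map.2 ⟨u, hu, rfl⟩, (nr_map hσ).2 h2⟩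

end Map

end HamPerc
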