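import Pool.Agent.Lib.MP_58a483_pr.Irrel
import Pool.Agent.Lib.MP_58a483_pr.Analytic

/-!
Newton extrapolation in the dimension for the inverse susceptibility.
-/

open Finset

namespace HamPerc

variable {d n : ℕ}

theorem wR_upper (hn : 1 ≤ n) {s : ℝ} (hs0 : 0 ≤ s) (hs1 : s ≤ 1) (k : Fin d → ℕ) (a : ℕ)
    {b e : ℕ} (hb : b * d + e ≤ n) :
    wR d n s k a b e ≤ (n : ℝ) ^ (∑ i, k i) * (n : ℝ)⁻¹ ^ a * base d s k a b * 3 := by
  have h0 : (0 : ℝ) < n := by exact_mod_cast hn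
  have f1 : (∏ i, ((n - 1).choose (k i) : ℝ)) ≤
      (n : ℝ) ^ (∑ i, k i) * ∏ i, ∏ r ∈ range (k i), 1 / ((r : ℝ) + 1) := by
    rw [← prod_pow_eq_pow_sum, ← prod_mul_distrib]
    refine prod_le_prod (fun i _ => by positivity) fun i _ => ?_
    have h1 := Nat.choose_le_pow_div (α := ℝ) (k i) (n - 1)
    have h2 : (((n - 1 : ℕ) : ℝ)) ^ k i ≤ (n : ℝ) ^ k i :=
      pow_le_pow_left₀ (by positivity) (by exact_mod_cast Nat.sub_le n 1) _
    have h3 : ∏ r ∈ range (k i), 1 / ((r : ℝ) + 1) = 1 / ((k i).factorial : ℝ) := by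
      rw [prod_div_distrib, prod_const_one, ← Finset.prod_range_add_one_eq_factorial]
      push_cast; rfl
    rw [h3, mul_one_div]
    exact h1.trans (div_le_div_of_nonneg_right h2 (by positivity))
  have f2 : (1 - Real.exp (-(s / n))) ^ a ≤ ((n : ℝ)⁻¹ * s) ^ a := by
    refine pow_le_pow_left₀ ?_ ?_ a
    · rw [sub_nonneg, Real.exp_le_one_iff, neg_nonpos]; positivity
    · rw [← div_eq_inv_mul]; linarith [Real.add_one_le_exp (-(s / n))]
  have f3 : Real.exp (-(s / n) * (b * (d * (n - 1) : ℕ) - e)) ≤ Real.exp (-s * (b * d)) * 3 := by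
    have h1 : -(s / n) * (b * (d * (n - 1) : ℕ) - e) = -s * (b * d) + s * ((b * d + e) / n) := by
      push_cast [Nat.cast_sub hn]; field_simp; ring
    have h2 : ((b * d + e : ℝ)) / n ≤ 1 := by rw [div_le_one h0]; exact_mod_cast hb
    rw [h1, Real.exp_add]
    refine mul_le_mul_of_nonneg_left ((Real.exp_le_exp.2 (mul_le_one₀ hs1 (by positivity) h2)).trans
      ?_) (by positivity)
    linarith [Real.exp_one_lt_d9]
  unfold wR wt base
  refine (mul_le_mul f1 (mul_le_mul f2 f3 (by positivity) (by positivity)) (mul_nonneg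
    (pow_nonneg (by rw [sub_nonneg, Real.exp_le_one_iff, neg_nonpos]; positivity) _)
    (by positivity)) (by positivity)).trans (le_of_eq ?_)
  ring

theorem wR_compare {s : ℝ} (hs0 : 0 ≤ s) (hs1 : s ≤ 1) {B : ℕ} (hB : 1 ≤ B) (hn : 2 * B ^ 2 ≤ n)
    {k : Fin d → ℕ} {a b e x : ℕ} (hk : ∑ i, k i + x ≤ a) (ha : a ≤ B) (hb : b * d + e ≤ B) :
    wR d n s k a b e ≤ 12 * ((2 * B ^ 2 : ℕ) * (n : ℝ)⁻¹) ^ x * wR d (2 * B ^ 2) s k a b e := by
  have hn1 : 1 ≤ n := by nlinarith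
  have h1 := wR_lower (d := d) hs0 hs1 hB le_rfl (show ∑ i, k i ≤ B by omega) ha b e
  refine (wR_upper hn1 hs0 hs1 k a (hb.trans (by nlinarith))).trans ?_
  set m : ℝ := ((2 * B ^ 2 : ℕ) : ℝ) with hm
  have hm0 : 0 < m := by rw [hm]; positivity
  have h0 : (0 : ℝ) < n := by exact_mod_cast hn1
  obtain ⟨y, rfl⟩ := Nat.exists_eq_add_of_le hk
  have h2 : ∀ t : ℝ, 0 < t → t ^ (∑ i, k i) * t⁻¹ ^ (∑ i, k i + x + y) = t⁻¹ ^ x * t⁻¹ ^ y := by
    intro t ht
    rw [add_assoc, pow_add, pow_add, ← mul_assoc, ← mul_pow, mul_inv_cancel₀ ht.ne']; simp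
  rw [h2 _ hm0] at h1
  rw [h2 _ h0]
  have h3 : (n : ℝ)⁻¹ ^ y ≤ m⁻¹ ^ y :=
    pow_le_pow_left₀ (by positivity) (inv_anti₀ hm0 (by rw [hm]; exact_mod_cast hn)) y
  have h7 : 0 ≤ base d s k (∑ i, k i + x + y) b := by unfold base; positivity
  refine le_trans ?_ (mul_le_mul_of_nonneg_left h1 (by positivity))
  have h4 : (m * (n : ℝ)⁻¹) ^ x * m⁻¹ ^ x = (n : ℝ)⁻¹ ^ x := by
    rw [← mul_pow, mul_right_comm, mul_inv_cancel₀ hm0.ne', one_mul]
  calc _ ≤ (n : ℝ)⁻¹ ^ x * m⁻¹ ^ y * base d s k (∑ i, k i + x + y) b * 3 := by gcongr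
    _ = _ := by rw [← h4]; ring

theorem kk_cmap {s : Fin d → ℕ → ℕ} (hs : ∀ i, StrictMono (s i)) (h0 : ∀ i, s i 0 = 0) (c : Cf d) :
    kk (cmap (cw s) c) = kk c := by
  funext i
  rw [kk, uu_cmap (h0 i), card_image_of_injective _ (hs i).injective, kk]
  intro a ha
  have := hs i (Nat.pos_of_ne_zero (mem_uu.1 ha).1)
  omega

theorem excess_shape (hn : 1 ≤ n) (s : ℝ) (L N K j : ℕ) :
    ∑ c ∈ CS d n j, ind (okG L N stF nxF stF c 0 ∅ ∧ ∑ u, kk c u + K < sa c) *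
      wt (1 - Real.exp (-(s / n))) (s / n) (d * (n - 1) : ℕ) (sa c) (sb L c 0) (se L c 0) =
    ∑ c ∈ Comp d (j * (2 * N + 1)) j, ind (okG L N stF nxF stF c 0 ∅ ∧ ∑ u, kk c u + K < sa c) *
      wR d n s (kk c) (sa c) (sb L c 0) (se L c 0) := by
  rw [orbit hn (j * (2 * N + 1)) j]
  · exact sum_congr rfl fun c _ => by unfold wR; ring
  · intro s hs h0 c
    have hi : ∀ i, Function.Injective (s i) := fun i => (hs i).injective
    have e0 : cw s 0 = 0 := funext h0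
    have h1 := fr_cmap hi L N c 0 ∅
    have h2 := sb_cmap hi L c 0
    have h3 := se_cmap hi L c 0
    rw [e0] at h1 h2 h3
    simp only [h1, sa_cmap hi, h2, h3, kk_cmap hs h0]
  · intro c hc h
    have : okG L N stF nxF stF c 0 ∅ := by
      by_contra hn
      exact h (by simp [ind_neg, hn])
    rw [← hc]
    exact (okG_bounds this).1

theorem exp_param (s : ℝ) (hs : 0 ≤ s) :
    0 ≤ 1 - Real.exp (-(s / n)) ∧ 1 - Real.exp (-(s / n)) ≤ 1 :=
  ⟨by rw [sub_nonneg, Real.exp_le_one_iff, neg_nonpos]; positivity,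
    by linarith [Real.exp_pos (-(s / n))]⟩

theorem excess_bound {s : ℝ} (hs0 : 0 ≤ s) (hs1 : s ≤ 1) (L N K j : ℕ) {B : ℕ} (hB : 1 ≤ B)
    (hB1 : (j + 1) * (2 * N + 1) * d + (j + 1) * ((2 * N + 1) ^ 2 + N) ≤ B)
    (hn : 2 * B ^ 2 ≤ n) :
    ∑ c ∈ CS d n (j + 1), ind (okG L N stF nxF stF c 0 ∅ ∧ ∑ u, kk c u + K < sa c) *
      wt (1 - Real.exp (-(s / n))) (s / n) (d * (n - 1) : ℕ) (sa c) (sb L c 0) (se L c 0) ≤
      12 * ((2 * B ^ 2 : ℕ) * (n : ℝ)⁻¹) ^ (K + 1) * (2 * N) ^ (j + 1) := by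
  have h0 : 1 ≤ 2 * B ^ 2 := by nlinarith
  have hp := exp_param (n := 2 * B ^ 2) s hs0
  have h1 := TG_bound hp.1 hp.2 (edges d (2 * B ^ 2)) (box d (2 * B ^ 2)) L N (st := stF)
    (fun _ _ _ _ h => h) nxF (by positivity)
    (TG_iter_bound hp.1 hp.2 (edges d (2 * B ^ 2)) (box d (2 * B ^ 2)) L N (st := stF)
      (fun _ _ _ _ h => h) nxF j) 0 ∅
  rw [ThG_rep _ _ _ _ _ _ _ (zero_mem_box h0), ← pow_succ'] at h1
  have h2 := le_trans (sum_le_sum fun c _ =>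
    mul_le_mul_of_nonneg_right (ind_mono (P := _ ∧ ∑ u, kk c u + K < sa c) fun h => h.1)
      (show 0 ≤ wt _ _ _ _ _ _ from mul_nonneg (pow_nonneg hp.1 _) (Real.exp_pos _).le)) h1
  refine le_trans ?_ (mul_le_mul_of_nonneg_left h2 (by positivity))
  rw [excess_shape (h0.trans hn), excess_shape h0, mul_sum]
  refine sum_le_sum fun c hc => ?_
  by_cases h : okG L N stF nxF stF c 0 ∅ ∧ ∑ u, kk c u + K < sa c
  · rw [ind_pos h, one_mul, one_mul]
    have h2 := okG_bounds h.1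
    rw [(mem_CS.1 (mem_filter.1 hc).1).1] at h2
    refine wR_compare hs0 hs1 hB hn h.2 (h2.2.1.trans (le_trans ?_ hB1))
      (le_trans (add_le_add (Nat.mul_le_mul_right d h2.2.2.1) h2.2.2.2) hB1)
    exact (Nat.mul_le_mul_left _ (Nat.le_add_left _ _)).trans (Nat.le_add_left _ _)
  · simp [ind_neg h]

/-- edges in the directions of `U` -/
noncomputable def edU (d n : ℕ) (U : Finset (Fin d)) : Finset (Sym2 (Vx d)) :=
  (edges d n).filter (dirIn U)

theorem edU_univ : edU d n univ = edges d n := filter_true_of_mem fun _ _ _ h => absurd (mem_univ _) h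

theorem Th_newton {s : ℝ} (hs0 : 0 ≤ s) (hs1 : s ≤ 1) (L N K j : ℕ) {B : ℕ} (hB : 1 ≤ B)
    (hB1 : (j + 1) * (2 * N + 1) * d + (j + 1) * ((2 * N + 1) ^ 2 + N) ≤ B)
    (hn : 2 * B ^ 2 ≤ n) {β : ℝ} (hβ0 : 0 ≤ β) (hβ1 : β ≤ 1)
    (hβ : ∀ z ∈ box d n, Pr (1 - Real.exp (-(s / n))) (edges d n)
      (fun ω => N < (loc L ω z).card) ≤ β) {fl : Prop} (hfl : (fl ∧ j = 0) ∨ (¬ fl ∧ 1 ≤ j)) :
    |Th toLex (1 - Real.exp (-(s / n))) (edU d n univ) (box d n) L N fl j 0 -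
      Nw K fun U => Th toLex (1 - Real.exp (-(s / n))) (edU d n U) (box d n) L N fl j 0| ≤
      (1 + 4 ^ d) * ((6 * N) ^ (j + 1) * β +
        12 * ((2 * B ^ 2 : ℕ) * (n : ℝ)⁻¹) ^ (K + 1) * (2 * N) ^ (j + 1)) := by
  have h0 : 1 ≤ n := by nlinarith
  have hp := exp_param (n := n) s hs0
  set p := 1 - Real.exp (-(s / n)) with hpd
  set w : Cf d → ℝ := fun c => wt p (s / n) (d * (n - 1) : ℕ) (sa c) (sb L c 0) (se L c 0) with hw
  have h1 : ∀ U, |Th toLex p (edU d n U) (box d n) L N fl j 0 -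
      ∑ c ∈ CS d n (j + 1), ind (okU L N U fl c 0 {0}ᶜ) * w c| ≤ (6 * N) ^ (j + 1) * β := by
    intro U
    have := Th_TG (rk := toLex) hp.1 hp.2 (edges d n) (box d n) L N (dirIn U) hβ0 hβ1 hβ fl j 0
      (zero_mem_box h0)
    rwa [hpd, ThG_rep _ _ _ _ _ _ _ (zero_mem_box h0)] at this
  have h2 := abs_Nw_le K h1
  rw [Nw_sub, Nw_sum, Fintype.card_fin] at h2
  have h3 : |∑ c ∈ CS d n (j + 1), ind (okU L N univ fl c 0 {0}ᶜ) * w c -
      ∑ c ∈ CS d n (j + 1), (Nw K fun U => ind (okU L N U fl c 0 {0}ᶜ)) * w c| ≤ (1 + 4 ^ d) *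
        (12 * ((2 * B ^ 2 : ℕ) * (n : ℝ)⁻¹) ^ (K + 1) * (2 * N) ^ (j + 1)) := by
    refine le_trans ?_ (mul_le_mul_of_nonneg_left (excess_bound hs0 hs1 L N K j hB hB1 hn)
      (by positivity))
    rw [← sum_sub_distrib, mul_sum]
    refine (abs_sum_le_sum_abs _ _).trans (sum_le_sum fun c hc => ?_)
    have hw0 : 0 ≤ w c := mul_nonneg (pow_nonneg hp.1 _) (Real.exp_pos _).le
    rw [← sub_mul, abs_mul, abs_of_nonneg hw0, ← mul_assoc]
    refine mul_le_mul_of_nonneg_right (okU_newton ?_) hw0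
    rw [(mem_CS.1 hc).1]
    exact hfl.imp (fun h => ⟨h.1, by omega⟩) fun h => ⟨h.1, by omega⟩
  have h4 := h1 univ
  rw [abs_le] at *
  constructor <;> nlinarith [h2.1, h2.2, h3.1, h3.2, h4.1, h4.2]

section Sub

variable {α : Type*} [DecidableEq α] {p : ℝ} {E : Finset (Sym2 α)} {Λ : Finset α} {κ : α → α → ℝ}
  {ν δ X C χ : ℝ} {L N : ℕ}

theorem Pr_filter_le {β : Type*} [DecidableEq β] {E : Finset β} (h0 : 0 ≤ p) (h1 : p ≤ 1)
    (t : β → Prop) [DecidablePred t] {A : Finset β → Prop} (hA : ∀ a b, a ⊆ b → A a → A b) :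
    Pr p (E.filter t) A ≤ Pr p E A := by
  unfold Pr
  rw [← Ex_filter]
  exact Ex_mono h0 h1 fun ω _ => ind_mono (hA _ _ (filter_subset _ _))

theorem PH.sub (h : PH p E Λ κ ν δ X C χ) (t : Sym2 α → Prop) [DecidablePred t] {χ' : ℝ}
    (hχ : ∀ x ∈ Λ, ∑ v ∈ Λ, tau p (E.filter t) x v = χ') : PH p (E.filter t) Λ κ ν δ X C χ' := by
  have hc : ∀ x, ((Λ.filter fun y => y ≠ x ∧ s(x, y) ∈ E.filter t).card : ℝ) ≤
      (Λ.filter fun y => y ≠ x ∧ s(x, y) ∈ E).card := fun x => by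
    refine Nat.cast_le.2 (card_le_card fun y hy => ?_)
    rw [mem_filter] at hy ⊢
    exact ⟨hy.1, hy.2.1, (mem_filter.1 hy.2.2).1⟩
  exact
  { toKH := h.toKH
    p0 := h.p0
    p2 := h.p2
    EΛ := fun e he => h.EΛ e (mem_filter.1 he).1
    chi := hχ
    tk := fun x hx y hy => (Pr_filter_le h.p0 h.p1 t fun _ _ a b => b.mono a).trans (h.tk x hx y hy)
    dn := fun x hx => (mul_le_mul_of_nonneg_right (hc x) h.n0).trans (h.dn x hx)
    dd := fun x hx => (mul_le_mul_of_nonneg_right (hc x) h.d0).trans (h.dd x hx) }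

theorem LH.sub (h0 : 0 ≤ p) (h1 : p ≤ 1) (h : LH p E Λ δ C L N) (t : Sym2 α → Prop)
    [DecidablePred t] : LH p (E.filter t) Λ δ C L N := by
  obtain ⟨l, a, b⟩ := h.long
  exact ⟨⟨l, a, fun x hx y hy => (Pr_filter_le h0 h1 t fun _ _ hs ⟨W, c, e⟩ =>
      ⟨W, c.trans hs, e⟩).trans (b x hx y hy)⟩,
    fun z hz => (Pr_filter_le h0 h1 t fun _ _ hs c =>
      c.trans_le (card_le_card (loc_mono hs))).trans (h.bad z hz)⟩

end Sub

theorem chiU_trans {p : ℝ} (U : Finset (Fin d)) {y : Vx d} (hy : y ∈ box d n) :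
    ∑ v ∈ box d n, tau p (edU d n U) y v = ∑ v ∈ box d n, tau p (edU d n U) 0 v := by
  refine chi_trans' _ (fun s _ e he j hj => ?_) hy
  induction e using Sym2.ind with
  | _ a b =>
    rw [Sym2.map_mk, flat_mk]
    exact congrArg (s j) (flat_mk.1 (he j hj))

theorem chiU_eq (hn : 1 ≤ n) (p : ℝ) (U : Finset (Fin d)) :
    ∑ v ∈ box d n, tau p (edU d n U) 0 v = chi U.card n p := by
  classical
  set σ : Vx U.card → Vx d := fun x j => if h : j ∈ U then x (U.equivFin ⟨j, h⟩) else 0 with hσ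
  have e1 : ∀ x i, σ x (U.equivFin.symm i) = x i := fun x i => by simp [hσ]
  have e2 : ∀ x j, j ∉ U → σ x j = 0 := fun x j hj => by simp [hσ, hj]
  have hinj : Function.Injective σ := fun x y h => funext fun i => by rw [← e1 x, ← e1 y, h]
  have e3 : ∀ y : Vx d, (∀ j, j ∉ U → y j = 0) → ∃ x, σ x = y := by
    intro y hy
    refine ⟨fun i => y (U.equivFin.symm i), funext fun j => ?_⟩
    by_cases hj : j ∈ U
    · simp [hσ, hj]
    · simp [hσ, hj, hy j hj]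
  have e0 : σ 0 = 0 := by funext j; simp [hσ]
  have hb : ∀ x, σ x ∈ box d n ↔ x ∈ box U.card n := by
    intro x
    simp only [mem_box]
    refine ⟨fun h i => e1 x i ▸ h _, fun h j => ?_⟩
    by_cases hj : j ∈ U
    · simpa [hσ, hj] using h _
    · rw [e2 _ _ hj]; omega
  have ha : ∀ x y, Adj (σ x) (σ y) ↔ Adj x y := by
    intro x y
    constructor
    · rintro ⟨j, h1, h2⟩
      have hj : j ∈ U := by
        by_contra hj
        exact h1 (by rw [e2 _ _ hj, e2 _ _ hj])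
      refine ⟨U.equivFin ⟨j, hj⟩, by simpa [hσ, hj] using h1, fun i hi => ?_⟩
      rw [← e1 x, ← e1 y]
      refine h2 _ fun e => hi ?_
      subst e; simp
    · rintro ⟨i, h1, h2⟩
      refine ⟨U.equivFin.symm i, by rwa [e1, e1], fun j hj => ?_⟩
      by_cases hU : j ∈ U
      · simp only [hσ, dif_pos hU]
        refine h2 _ fun e => hj ?_
        subst e; simp
      · rw [e2 _ _ hU, e2 _ _ hU]
  have hE : (edU d n U).filter (fun e => ∀ x ∈ e, ∀ j, j ∉ U → x j = 0) =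
      emap σ (edges U.card n) := by
    ext e
    induction e using Sym2.ind with
    | _ a b =>
      constructor
      · intro h
        obtain ⟨h1, h2⟩ := mem_filter.1 h
        have h3 := mk_mem_edges.1 (mem_filter.1 h1).1
        obtain ⟨x, rfl⟩ := e3 a (h2 a (Sym2.mem_mk_left _ _))
        obtain ⟨y, rfl⟩ := e3 b (h2 b (Sym2.mem_mk_right _ _))
        rw [hb, hb, ha] at h3
        exact (mem_emap hinj (e := s(_, _))).2 (mk_mem_edges.2 h3)
      · intro h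
        obtain ⟨e, he, h2⟩ := mem_image.1 h
        rw [← h2]
        induction e using Sym2.ind with
        | _ x y =>
          have h3 := mk_mem_edges.1 he
          rw [← hb, ← hb, ← ha] at h3
          refine mem_filter.2 ⟨mem_filter.2 ⟨mk_mem_edges.2 h3, fun j hj => flat_mk.2 ?_⟩, ?_⟩
          · rw [e2 _ _ hj, e2 _ _ hj]
          · intro z hz j hj
            obtain ⟨w, _, rfl⟩ := Sym2.mem_map.1 hz
            exact e2 _ _ hj
  have ht : ∀ y, tau p (edU d n U) 0 y =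
      Ex p (edges U.card n) fun ω => ind (∃ x, y = σ x ∧ Rch ω 0 x) := by
    intro y
    have : tau p (edU d n U) 0 y = tau p (emap σ (edges U.card n)) 0 y := by
      rw [← hE]
      unfold tau Pr
      rw [← Ex_filter]
      refine Ex_congr fun ω hω => ind_congr (Rch.stop fun e ⟨u, hu, W, a, b⟩ => ?_).symm
      rw [mem_filter]
      refine ⟨fun he => ⟨he, fun x hx j hj => ?_⟩, fun h => h.1⟩
      rw [(mem_filter.1 (hω he)).2 j hj x hx u hu,
        b.flat_eq fun e he => (mem_filter.1 (hω (a he))).2 j hj]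
      rfl
    rw [this]
    unfold tau Pr emap
    rw [Ex_image p _ (Sym2.map.injective hinj)]
    refine Ex_congr fun ω _ => ind_congr ?_
    rw [← e0]
    exact rch_map_iff hinj
  simp only [ht]
  unfold chi
  rw [← sum_subset (s₁ := (box U.card n).image σ), sum_image fun _ _ _ _ h => hinj h]
  · refine sum_congr rfl fun x _ => Ex_congr fun ω _ => ind_congr ?_
    exact ⟨fun ⟨_, a, b⟩ => hinj a ▸ b, fun h => ⟨x, rfl, h⟩⟩
  · intro y hy
    obtain ⟨x, hx, rfl⟩ := mem_image.1 hy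
    exact (hb x).2 hx
  · intro y hy hy'
    rw [← Ex_const p (edges U.card n) 0]
    refine Ex_congr fun ω _ => ind_neg ?_
    rintro ⟨x, rfl, _⟩
    exact hy' (mem_image_of_mem _ ((hb x).1 hy))

theorem deg_edU (hn : 1 ≤ n) (U : Finset (Fin d)) :
    (((box d n).filter fun y => y ≠ 0 ∧ s(0, y) ∈ edU d n U).card : ℝ) =
      ∑ a, ind (a ∈ U) * (n - 1 : ℕ) := by
  classical
  have h1 : ((box d n).filter fun y => y ≠ 0 ∧ s(0, y) ∈ edU d n U) =
      (nbr n 0).filter fun y => dirIn U s(0, y) := by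
    rw [← filter_eq_nbr (zero_mem_box hn), filter_filter]
    exact filter_congr fun y _ => by simp [edU, and_assoc]
  rw [h1, ← sum_ind, sum_nbr (zero_mem_box hn)]
  refine sum_congr rfl fun i _ => ?_
  rw [sum_congr rfl (g := fun _ => ind (i ∈ U)), sum_const, card_erase_of_mem (a := (0 : Vx d) i) (mem_range.2 hn),
    card_range, nsmul_eq_mul, mul_comm]
  intro a ha
  refine ind_congr ⟨fun h => ?_, fun h j hj => flat_mk.2 ?_⟩
  · by_contra hi
    have := flat_mk.1 (h i hi)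
    rw [Function.update_self] at this
    exact (mem_erase.1 ha).1 this.symm
  · rw [Function.update_of_ne (by rintro rfl; exact hj h)]

theorem newton_chi {s : ℝ} (hs0 : 0 ≤ s) (hs1 : s ≤ 1) {ν δ X C : ℝ} {L N K B : ℕ}
    (h : PH (1 - Real.exp (-(s / n))) (edges d n) (box d n) (kap n) ν δ X C
      (chi d n (1 - Real.exp (-(s / n)))))
    (hl : LH (1 - Real.exp (-(s / n))) (edges d n) (box d n) δ C L N) (hK : 1 ≤ K) (hN : 1 ≤ N)
    (hB : (K + 1) * (2 * N + 1) * d + (K + 1) * ((2 * N + 1) ^ 2 + N) ≤ B)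
    (hn : 2 * B ^ 2 ≤ n) (hδ : C * δ ≤ 1) :
    |(chi d n (1 - Real.exp (-(s / n))))⁻¹ - ∑ u ∈ range (K + 1), d.choose u *
      ∑ v ∈ range (u + 1), (-1) ^ (u + v) * u.choose v * (chi v n (1 - Real.exp (-(s / n))))⁻¹| ≤
      (1 + 4 ^ d) * ((K + 2) * (32 * C ^ 8 * (22 * C ^ 6) ^ (K + 1)) * (ν ^ (K + 1) + X * δ) +
        C ^ 2 * (X * δ) + (K + 1) * ((6 * N) ^ (K + 1) * (C * δ) +
          12 * ((2 * B ^ 2 : ℕ) * (n : ℝ)⁻¹) ^ (K + 1) * (2 * N) ^ (K + 1))) := by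
  have hB1 : 1 ≤ B := le_trans (Nat.succ_le_of_lt (by positivity)) hB
  have h0 : 1 ≤ n := by nlinarith
  have hz := zero_mem_box (d := d) h0
  set p := 1 - Real.exp (-(s / n)) with hp
  have hC := h.C0
  have hd := h.d0
  have hU : ∀ U, PH p (edU d n U) (box d n) (kap n) ν δ X C (chi U.card n p) := fun U =>
    h.sub _ fun x hx => (chiU_trans U hx).trans (chiU_eq h0 p U)
  have hL : ∀ U, LH p (edU d n U) (box d n) δ C L N := fun U => hl.sub h.p0 h.p1 _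
  set θ : Prop → ℕ → Finset (Fin d) → ℝ := fun fl j U =>
    Th toLex p (edU d n U) (box d n) L N fl j 0 with hθ
  have a1 := fun U => (hU U).expansion (hL U) toLex.injective hz K
  have a2 := fun U => (hU U).Th_zero (rk := toLex) (hL U) hz
  simp only [deg_edU h0] at a2
  have a3 : ∀ (fl : Prop) (j : ℕ), j ≤ K → (fl ∧ j = 0) ∨ (¬ fl ∧ 1 ≤ j) →
      |θ fl j univ - Nw K (θ fl j)| ≤ (1 + 4 ^ d) * ((6 * N) ^ (K + 1) * (C * δ) +
        12 * ((2 * B ^ 2 : ℕ) * (n : ℝ)⁻¹) ^ (K + 1) * (2 * N) ^ (K + 1)) := by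
    intro fl j hj hfl
    have hN' : (1 : ℝ) ≤ N := by exact_mod_cast hN
    refine (Th_newton hs0 hs1 L N K j hB1 (le_trans (by gcongr) hB) hn (by positivity) hδ hl.bad
      hfl).trans ?_
    gcongr <;> linarith
  have b1 := abs_Nw_le K a1
  have b2 := abs_Nw_le K a2
  have c1 : Nw K (fun U : Finset (Fin d) => p * ∑ a, ind (a ∈ U) * ((n - 1 : ℕ) : ℝ)) =
      p * ∑ a : Fin d, ind (a ∈ (univ : Finset (Fin d))) * ((n - 1 : ℕ) : ℝ) := by
    simp only [mul_sum, mul_left_comm p]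
    rw [Nw_sum]
    refine sum_congr rfl fun a _ => ?_
    rw [Nw_eq {a} (by simpa using hK)]
    intro b hb T _
    exact ind_congr (by simp at hb; simp [Ne.symm hb])
  have c2 : Nw K (fun _ : Finset (Fin d) => (1 : ℝ)) = 1 := Nw_eq ∅ (by simp) fun _ _ _ _ => rfl
  have c3 : ∀ U, ∑ j ∈ range (K + 1), (-1) ^ j * Th toLex p (edU d n U) (box d n) L N False j 0 =
      ∑ j ∈ range (K + 1), θ False j U * (-1) ^ j := fun U => sum_congr rfl fun _ _ => mul_comm _ _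
  simp only [c3] at a1 b1
  rw [Nw_sub, Nw_sub, c2, Nw_sum, sum_range_succ', Nw_card K fun v => (chi v n p)⁻¹] at b1
  rw [Nw_sub, Nw_sub, c1] at b2
  have a4 := a1 univ
  have a5 := a2 univ
  have a6 := a3 True 0 (Nat.zero_le _) (Or.inl ⟨trivial, rfl⟩)
  have a7 : |∑ j ∈ range K, θ False (j + 1) univ * (-1) ^ (j + 1) -
      ∑ j ∈ range K, Nw K (θ False (j + 1)) * (-1) ^ (j + 1)| ≤ K * ((1 + 4 ^ d) *
        ((6 * N) ^ (K + 1) * (C * δ) +
          12 * ((2 * B ^ 2 : ℕ) * (n : ℝ)⁻¹) ^ (K + 1) * (2 * N) ^ (K + 1))) := by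
    rw [← sum_sub_distrib]
    refine (abs_sum_le_sum_abs _ _).trans ((sum_le_card_nsmul _ _ _ fun j hj => ?_).trans
      (by rw [card_range, nsmul_eq_mul]))
    rw [← sub_mul, abs_mul, abs_pow, abs_neg, abs_one, one_pow, mul_one]
    exact a3 False (j + 1) (mem_range.1 hj) (Or.inr ⟨not_false, by omega⟩)
  rw [sum_range_succ', card_univ, Fintype.card_fin] at a4
  simp only [Fintype.card_fin, pow_zero, mul_one] at a4 b1 b2
  change |_ - θ False 0 univ - θ True 0 univ| ≤ _ at a5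
  change |_ - Nw K (θ False 0) - Nw K (θ True 0)| ≤ _ at b2
  generalize (K + 2 : ℝ) * (32 * C ^ 8 * (22 * C ^ 6) ^ (K + 1)) * (ν ^ (K + 1) + X * δ) = E1 at *
  generalize C ^ 2 * (X * δ) = E2 at *
  generalize (6 * N : ℝ) ^ (K + 1) * (C * δ) +
    12 * ((2 * B ^ 2 : ℕ) * (n : ℝ)⁻¹) ^ (K + 1) * (2 * N) ^ (K + 1) = E3 at *
  rw [show (1 + 4 ^ d : ℝ) * (E1 + E2 + (K + 1) * E3) = E1 + E2 + 4 ^ d * E1 + 4 ^ d * E2 +
    (1 + 4 ^ d) * E3 + K * ((1 + 4 ^ d) * E3) by ring]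
  rw [abs_le] at *
  constructor <;> linarith [a4.1, a4.2, a5.1, a5.2, a6.1, a6.2, a7.1, a7.2, b1.1, b1.2, b2.1, b2.2]

end HamPerc
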