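import Mathlib

set_option autoImplicit false
set_option linter.unusedSectionVars false
set_option linter.unusedVariables false
set_option linter.deprecated false

namespace Pool.Agent.Lib.MP_58a483_pr.H80

/-- bounded function -/
@[fun_prop]
def Bd {X : Type} (f : X → ℝ) : Prop := ∃ C : ℝ, ∀ i, |f i| ≤ C

variable {X : Type}

@[fun_prop]
lemma Bd.const (a : ℝ) : Bd (fun _ : X => a) := ⟨|a|, fun _ => le_rfl⟩

@[fun_prop]
lemma Bd.add {f g : X → ℝ} (hf : Bd f) (hg : Bd g) : Bd (fun i => f i + g i) := by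
  obtain ⟨a, ha⟩ := hf
  obtain ⟨b, hb⟩ := hg
  exact ⟨a + b, fun i => (abs_add_le _ _).trans (add_le_add (ha i) (hb i))⟩

@[fun_prop]
lemma Bd.neg {f : X → ℝ} (hf : Bd f) : Bd (fun i => - f i) := by
  obtain ⟨a, ha⟩ := hf
  exact ⟨a, fun i => by rw [abs_neg]; exact ha i⟩

@[fun_prop]
lemma Bd.sub {f g : X → ℝ} (hf : Bd f) (hg : Bd g) : Bd (fun i => f i - g i) := by
  simpa [sub_eq_add_neg] using hf.add hg.neg

@[fun_prop]
lemma Bd.mul {f g : X → ℝ} (hf : Bd f) (hg : Bd g) : Bd (fun i => f i * g i) := by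
  obtain ⟨a, ha⟩ := hf
  obtain ⟨b, hb⟩ := hg
  refine ⟨a * b, fun i => ?_⟩
  rw [abs_mul]
  exact mul_le_mul (ha i) (hb i) (abs_nonneg _) ((abs_nonneg _).trans (ha i))

@[fun_prop]
lemma Bd.pow {f : X → ℝ} (hf : Bd f) (k : ℕ) : Bd (fun i => f i ^ k) := by
  obtain ⟨a, ha⟩ := hf
  exact ⟨a ^ k, fun i => by rw [abs_pow]; exact pow_le_pow_left₀ (abs_nonneg _) (ha i) k⟩

@[fun_prop]
lemma Bd.div_const {f : X → ℝ} (hf : Bd f) (a : ℝ) : Bd (fun i => f i / a) := by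
  simpa [div_eq_mul_inv] using hf.mul (Bd.const a⁻¹)

lemma Bd.of_le {f : X → ℝ} (C : ℝ) (h0 : ∀ i, 0 ≤ f i) (h : ∀ i, f i ≤ C) : Bd f :=
  ⟨C, fun i => by rw [abs_of_nonneg (h0 i)]; exact h i⟩

lemma Bd.nonneg {f : X → ℝ} (hf : Bd f) : ∃ C : ℝ, 0 ≤ C ∧ ∀ i, |f i| ≤ C := by
  obtain ⟨a, ha⟩ := hf
  exact ⟨|a|, abs_nonneg _, fun i => (ha i).trans (le_abs_self _)⟩

/-- `f = O(g)` uniformly -/
def OO (g f : X → ℝ) : Prop := ∃ b : X → ℝ, Bd b ∧ ∀ i, f i = g i * b i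

lemma OO.of_le {g f : X → ℝ} (hg : ∀ i, 0 < g i) (C : ℝ) (h : ∀ i, |f i| ≤ C * g i) : OO g f := by
  refine ⟨fun i => f i / g i, ⟨C, fun i => ?_⟩, fun i => ?_⟩
  · rw [abs_div, abs_of_pos (hg i), div_le_iff₀ (hg i)]; exact h i
  · field_simp [(hg i).ne']

lemma OO.le {g f : X → ℝ} (hg : ∀ i, 0 ≤ g i) (h : OO g f) :
    ∃ C : ℝ, 0 ≤ C ∧ ∀ i, |f i| ≤ C * g i := by
  obtain ⟨b, hb, e⟩ := h
  obtain ⟨C, h0, hC⟩ := hb.nonneg
  refine ⟨C, h0, fun i => ?_⟩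
  rw [e i, abs_mul, abs_of_nonneg (hg i), mul_comm]
  exact mul_le_mul_of_nonneg_right (hC i) (hg i)

example (a b : X → ℝ) (ha : Bd a) (hb : Bd b) :
    Bd (fun i => -(1 / 3) * a i ^ 3 * b i - 2 * (a i + 1) * b i ^ 2 + a i / 7) := by
  fun_prop

end Pool.Agent.Lib.MP_58a483_pr.H80
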