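import Pool.Agent.Lib.MP_58a483_pr.H80Est

set_option autoImplicit false
set_option linter.unusedSectionVars false
set_option linter.unusedVariables false
set_option linter.deprecated false

namespace Pool.Agent.Lib.MP_58a483_pr.H80

open Finset

variable {d n : ℕ}

lemma Inj.congr {V : Type} {x x' : ℕ → V} {l : ℕ} (h : Inj x l) (e : ∀ t, t ≤ l → x' t = x t) :
    Inj x' l := fun i j h1 h2 => by rw [e i (by omega), e j h2]; exact h i j h1 h2

/-- weight of the short walks that miss a direction -/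
noncomputable def sig (p : ℝ) (L : ℕ) (a b : Fin d → Fin n) : ℝ :=
  ∑ l ∈ range L, p ^ l * ∑ w : Fin l → Fin d, ∑ v : Fin l → Fin n,
    ind ((univ.image w).card < d ∧ pos a w v l = b)

section
variable (hn : 0 < n) {p : ℝ} (h0 : 0 ≤ p) (h1 : p ≤ 1 / 2) {χ : ℝ}
  (hχ : ∀ a, ∑ y, tau (EH d n) p a y = χ)
include hn h0 h1 hχ

lemma long_le (L : ℕ) (a b : Fin d → Fin n) :
    Ex (EH d n) p (fun ω => ind (Long L a b ω)) ≤ uu d (p * n) (1 / n) L 0 * χ := by
  have hp1 : p ≤ 1 := by linarith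
  have k1 : ∀ (w : Fin L → Fin d) (v : Fin L → Fin n),
      Ex (EH d n) p (fun ω => ind (((pe (pos a w v) L).card = L ∧ pe (pos a w v) L ⊆ EH d n) ∧
        pe (pos a w v) L ⊆ ω ∧ Conn (ω \ pe (pos a w v) L) (pos a w v L) b)) ≤
      ∑ u, ind (0 ≤ (univ.image w).card ∧ pos a w v L = u) * (p ^ L * tau (EH d n) p u b) := by
    intro w v
    rw [sum_eq_single (pos a w v L) (fun u _ hu => by rw [ind_neg fun h => hu h.2.symm, zero_mul])
      (by simp), ind_pos ⟨Nat.zero_le _, rfl⟩, one_mul]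
    by_cases hc : (pe (pos a w v) L).card = L ∧ pe (pos a w v) L ⊆ EH d n
    · have := sup_conn h0 h1 hc.2 (pos a w v L) b
      rw [hc.1] at this
      exact le_trans (Ex_mono h0 hp1 fun ω _ => ind_mono fun h => h.2) this
    · refine le_trans (Ex_mono h0 hp1 (g := fun _ => 0) fun ω _ =>
        le_of_eq (ind_neg fun h => hc h.1)) ?_
      rw [Ex_const]
      exact mul_nonneg (pow_nonneg h0 _) (tau_nonneg h0 h1 _ _)
  calc _ ≤ ∑ w : Fin L → Fin d, ∑ v : Fin L → Fin n, ∑ u,
        ind (0 ≤ (univ.image w).card ∧ pos a w v L = u) * (p ^ L * tau (EH d n) p u b) := by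
        refine le_trans ?_ (sum_le_sum fun w _ => sum_le_sum fun v _ => k1 w v)
        simp only [← Ex_sum]
        refine Ex_mono h0 hp1 fun ω hω => ?_
        refine ind_le_of (sum_nonneg fun _ _ => sum_nonneg fun _ _ => ind_nonneg _) ?_
        rintro ⟨l, x, hl, rfl, rfl, hp, hinj⟩
        have hp' : pe x L ⊆ ω := (pe_mono x hl).trans hp
        obtain ⟨w, v, hw, hv⟩ := exists_code (hp'.trans hω)
        refine le_trans ?_ (single_le_sum (fun _ _ => sum_nonneg fun _ _ => ind_nonneg _)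
          (mem_univ w))
        refine le_trans ?_ (single_le_sum (fun _ _ => ind_nonneg _) (mem_univ v))
        rw [ind_pos]
        rw [pe_congr hv, hv L le_rfl]
        refine ⟨⟨Inj.card_pe fun i j h1 h2 => hinj i j h1 (by omega), hp'.trans hω⟩, hp', ?_⟩
        refine conn_seg hl fun t h1 h2 => mem_sdiff.2 ⟨pe_sub.1 hp t h2, fun h => ?_⟩
        obtain ⟨i, hi, he⟩ := mem_pe.1 h
        have := edge_inj hinj.simple (Or.inr (hinj 0 l (by omega) le_rfl)) (by omega) h2 he
        omega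
    _ = ∑ u, (∑ w : Fin L → Fin d, ∑ v : Fin L → Fin n,
        ind (0 ≤ (univ.image w).card ∧ pos a w v L = u)) * (p ^ L * tau (EH d n) p u b) := by
        simp only [sum_mul]
        rw [sum_comm (t := (univ : Finset (Fin L → Fin d)))]
        exact sum_congr rfl fun w _ => sum_comm
    _ ≤ ∑ u, ((n : ℝ) ^ L * (d * ((d : ℝ) - 1) ^ L * (1 / (n : ℝ)) ^ 0 +
        (d : ℝ) ^ L * (1 / (n : ℝ)) ^ d)) * (p ^ L * tau (EH d n) p u b) :=
        sum_le_sum fun u _ => mul_le_mul_of_nonneg_right (count_ge hn a u 0)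
          (mul_nonneg (pow_nonneg h0 _) (tau_nonneg h0 h1 _ _))
    _ = _ := by
        rw [← mul_sum, ← mul_sum]
        simp only [tau_symm _ p _ b, hχ, uu, mul_pow]
        ring

lemma tau_split (L : ℕ) (a b : Fin d → Fin n) :
    tau (EH d n) p a b ≤ sig p L a b + (∑ l ∈ range L, (d * (p * n)) ^ l * (1 / (n : ℝ)) ^ d +
      uu d (p * n) (1 / n) L 0 * χ) := by
  have hp1 : p ≤ 1 := by linarith
  have k1 : ∀ l (w : Fin l → Fin d) (v : Fin l → Fin n),
      Ex (EH d n) p (fun ω => ind (pos a w v l = b ∧ ((pe (pos a w v) l).card = l ∧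
        pe (pos a w v) l ⊆ EH d n) ∧ pe (pos a w v) l ⊆ ω)) ≤ ind (pos a w v l = b) * p ^ l := by
    intro l w v
    simp only [ind_and (_ = b)]
    rw [Ex_mul_left]
    refine mul_le_mul_of_nonneg_left ?_ (ind_nonneg _)
    by_cases hc : (pe (pos a w v) l).card = l ∧ pe (pos a w v) l ⊆ EH d n
    · have := Ex_sup hc.2 p
      rw [hc.1] at this
      exact le_trans (Ex_mono h0 hp1 fun ω _ => ind_mono fun h => h.2) this.le
    · refine le_trans (Ex_mono h0 hp1 (g := fun _ => 0) fun ω _ =>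
        le_of_eq (ind_neg fun h => hc h.1)) ?_
      rw [Ex_const]
      exact pow_nonneg h0 _
  calc _ ≤ ∑ l ∈ range L, ∑ w : Fin l → Fin d, ∑ v : Fin l → Fin n,
        ind (pos a w v l = b) * p ^ l + uu d (p * n) (1 / n) L 0 * χ := by
        refine le_trans ?_ (add_le_add (sum_le_sum fun l _ => sum_le_sum fun w _ =>
          sum_le_sum fun v _ => k1 l w v) (long_le hn h0 h1 hχ L a b))
        simp only [← Ex_sum, ← Ex_add]
        refine Ex_mono h0 hp1 fun ω hω => ?_
        have nn : 0 ≤ ∑ l ∈ range L, ∑ w : Fin l → Fin d, ∑ v : Fin l → Fin n,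
            ind (pos a w v l = b ∧ ((pe (pos a w v) l).card = l ∧
              pe (pos a w v) l ⊆ EH d n) ∧ pe (pos a w v) l ⊆ ω) :=
          sum_nonneg fun _ _ => sum_nonneg fun _ _ => sum_nonneg fun _ _ => ind_nonneg _
        refine ind_le_of (add_nonneg nn (ind_nonneg _)) fun hc => ?_
        obtain ⟨l, x, rfl, rfl, hp, hinj⟩ := hc.exists_path
        by_cases hl : L ≤ l
        · rw [ind_pos (P := Long L _ _ ω) ⟨l, x, hl, rfl, rfl, hp, hinj⟩]
          linarith
        refine le_add_of_le_of_nonneg ?_ (ind_nonneg _)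
        obtain ⟨w, v, hw, hv⟩ := exists_code (hp.trans hω)
        refine le_trans ?_ (single_le_sum
          (fun _ _ => sum_nonneg fun _ _ => sum_nonneg fun _ _ => ind_nonneg _)
          (mem_range.2 (not_le.1 hl)))
        refine le_trans ?_ (single_le_sum (fun _ _ => sum_nonneg fun _ _ => ind_nonneg _)
          (mem_univ w))
        refine le_trans ?_ (single_le_sum (fun _ _ => ind_nonneg _) (mem_univ v))
        rw [ind_pos]
        rw [pe_congr hv, hv l le_rfl]
        exact ⟨rfl, ⟨hinj.card_pe, hp.trans hω⟩, hp⟩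
    _ ≤ _ := by
        rw [← add_assoc]
        refine add_le_add ?_ le_rfl
        unfold sig
        rw [← sum_add_distrib]
        refine sum_le_sum fun l _ => ?_
        have := mul_le_mul_of_nonneg_left (count_surj hn (l := l) a b) (pow_nonneg h0 l)
        refine le_trans ?_ (add_le_add le_rfl (this.trans (le_of_eq (by
          simp only [mul_pow]; ring))))
        simp only [← sum_mul]
        rw [← mul_add, mul_comm, ← sum_add_distrib]
        refine mul_le_mul_of_nonneg_left (sum_le_sum fun w _ => ?_) (pow_nonneg h0 l)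
        rw [← sum_add_distrib]
        refine sum_le_sum fun v _ => le_trans (ind_mono ?_) (ind_or_le _ _)
        tauto

omit hχ h1 in
lemma sig_nonneg (L : ℕ) (a b : Fin d → Fin n) : 0 ≤ sig p L a b :=
  sum_nonneg fun _ _ => mul_nonneg (pow_nonneg h0 _)
    (sum_nonneg fun _ _ => sum_nonneg fun _ _ => ind_nonneg _)

omit hχ h1 in
lemma sig_sum (L : ℕ) (a : Fin d → Fin n) :
    ∑ b, sig p L a b ≤ ∑ l ∈ range L, d * (((d : ℝ) - 1) * (p * n)) ^ l := by
  unfold sig
  rw [sum_comm]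
  refine sum_le_sum fun l _ => ?_
  rw [← mul_sum]
  refine (mul_le_mul_of_nonneg_left (count_ns_sum a) (pow_nonneg h0 l)).trans (le_of_eq ?_)
  simp only [mul_pow]; ring

omit hχ h1 in
lemma sig_ne (L : ℕ) {a b : Fin d → Fin n} (hab : a ≠ b) :
    sig p L a b ≤ (∑ l ∈ range L, d * (((d : ℝ) - 1) * (p * n)) ^ l) * (1 / n) := by
  unfold sig
  rw [sum_mul]
  refine sum_le_sum fun l _ => ?_
  refine le_trans ?_ ((mul_le_mul_of_nonneg_left (count_ns hn (l := l) a b 1)
    (pow_nonneg h0 l)).trans (le_of_eq (by simp only [mul_pow]; ring)))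
  refine mul_le_mul_of_nonneg_left (sum_le_sum fun w _ => sum_le_sum fun v _ =>
    ind_mono fun h => ⟨⟨h.1, ?_⟩, h.2⟩) (pow_nonneg h0 l)
  rcases Nat.eq_zero_or_pos l with rfl | hl
  · exact absurd h.2 hab
  · exact card_pos.2 ⟨_, mem_image_of_mem _ (mem_univ ⟨0, hl⟩)⟩

lemma eta_bound (L : ℕ) {D ν : ℝ} (hD : ∑ l ∈ range L, d * (((d : ℝ) - 1) * (p * n)) ^ l ≤ D)
    (hν : ∑ l ∈ range L, (d * (p * n)) ^ l * (1 / (n : ℝ)) ^ d +
      uu d (p * n) (1 / n) L 0 * χ ≤ ν) (ν0 : 0 ≤ ν) (a b c : Fin d → Fin n) (hab : a ≠ b)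
    (hca : c ≠ a) :
    tau (EH d n) p a b + ∑ z, tau (EH d n) p c z * tau (EH d n) p z a ≤
      (2 + D) * (D * (1 / n) + ν) + ν * χ := by
  have z0 : (0 : ℝ) ≤ 1 / n := by positivity
  have s1 : ∀ a b : Fin d → Fin n, a ≠ b → sig p L a b ≤ D * (1 / n) := fun a b h =>
    (sig_ne hn h0 L h).trans (mul_le_mul_of_nonneg_right hD z0)
  have t1 : ∀ a b : Fin d → Fin n, tau (EH d n) p a b ≤ sig p L a b + ν := fun a b =>
    (tau_split hn h0 h1 hχ L a b).trans (add_le_add le_rfl hν)
  have t2 : ∀ a b : Fin d → Fin n, a ≠ b → tau (EH d n) p a b ≤ D * (1 / n) + ν := fun a b h =>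
    (t1 a b).trans (add_le_add (s1 a b h) le_rfl)
  have t0 : 0 ≤ D * (1 / n) + ν := (tau_nonneg h0 h1 a b).trans (t2 a b hab)
  have k1 : ∑ z, tau (EH d n) p c z * tau (EH d n) p z a ≤
      ∑ z, sig p L c z * tau (EH d n) p z a + ν * χ := by
    rw [← hχ a, mul_sum, ← sum_add_distrib]
    refine sum_le_sum fun z _ => ?_
    rw [tau_symm _ p a z, ← add_mul]
    exact mul_le_mul_of_nonneg_right (t1 c z) (tau_nonneg h0 h1 _ _)
  have k2 : ∑ z, sig p L c z * tau (EH d n) p z a ≤ D * (1 / n) + D * (D * (1 / n) + ν) := by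
    rw [← add_sum_erase _ _ (mem_univ a)]
    refine add_le_add ?_ ?_
    · exact (mul_le_of_le_one_right (sig_nonneg hn h0 _ _ _) (tau_le_one h0 h1 _ _)).trans
        (s1 c a hca)
    · refine le_trans (sum_le_sum fun z hz => mul_le_mul_of_nonneg_left
        (t2 z a (mem_erase.1 hz).1) (sig_nonneg hn h0 _ _ _)) ?_
      rw [← sum_mul]
      refine mul_le_mul_of_nonneg_right (le_trans ?_ ((sig_sum hn h0 L c).trans hD)) t0
      exact sum_le_sum_of_subset_of_nonneg (subset_univ _) fun _ _ _ => sig_nonneg hn h0 _ _ _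
  have := t2 a b hab
  nlinarith

omit hn in
lemma one_le_chi (a : Fin d → Fin n) : 1 ≤ χ := by
  rw [← hχ a]
  refine le_trans ?_ (single_le_sum (fun _ _ => tau_nonneg h0 h1 _ _) (mem_univ a))
  unfold tau
  simp only [ind_pos (Conn.refl _ a), Ex_const, le_refl]

end

end Pool.Agent.Lib.MP_58a483_pr.H80
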