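import Pool.Agent.Lib.MP_58a483_pr.H80Prob

set_option autoImplicit false
set_option linter.unusedSectionVars false
set_option linter.unusedVariables false
set_option linter.deprecated false

namespace Pool.Agent.Lib.MP_58a483_pr.H80

open Finset

variable {V : Type} [DecidableEq V]

/-- connection by edges of `ω` -/
def Conn (ω : Finset (Sym2 V)) (a b : V) : Prop :=
  Relation.ReflTransGen (fun u v => s(u, v) ∈ ω) a b

lemma Conn.refl (ω : Finset (Sym2 V)) (a : V) : Conn ω a a := Relation.ReflTransGen.refl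

lemma Conn.single {ω : Finset (Sym2 V)} {a b : V} (h : s(a, b) ∈ ω) : Conn ω a b :=
  Relation.ReflTransGen.single h

lemma Conn.trans {ω : Finset (Sym2 V)} {a b c : V} (h : Conn ω a b) (h' : Conn ω b c) :
    Conn ω a c := Relation.ReflTransGen.trans h h'

lemma Conn.tail {ω : Finset (Sym2 V)} {a b c : V} (h : Conn ω a b) (h' : s(b, c) ∈ ω) :
    Conn ω a c := Relation.ReflTransGen.tail h h'

lemma Conn.closure {ω : Finset (Sym2 V)} {a b : V} (h : Conn ω a b) (A : V → Prop) (ha : A a)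
    (hs : ∀ u v, A u → s(u, v) ∈ ω → A v) : A b := by
  induction h with
  | refl => exact ha
  | tail _ h2 ih => exact hs _ _ ih h2

lemma Conn.symm {ω : Finset (Sym2 V)} {a b : V} (h : Conn ω a b) : Conn ω b a :=
  h.closure (fun u => Conn ω u a) (Conn.refl _ _) fun u v hu huv =>
    (Conn.single (by rw [Sym2.eq_swap]; exact huv)).trans hu

lemma Conn.mono {ω ω' : Finset (Sym2 V)} {a b : V} (h : Conn ω a b) (hω : ω ⊆ ω') :
    Conn ω' a b :=
  h.closure (fun u => Conn ω' a u) (Conn.refl _ _) fun u v hu huv => hu.tail (hω huv)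

lemma mono_conn (a b : V) : Mono (fun S : Finset (Sym2 V) => Conn S a b) :=
  fun _ _ h h' => h'.mono h

/-- the edges of the first `l` steps of a vertex sequence -/
def pe (x : ℕ → V) (l : ℕ) : Finset (Sym2 V) := (range l).image (fun i => s(x i, x (i + 1)))

lemma mem_pe {x : ℕ → V} {l : ℕ} {e : Sym2 V} : e ∈ pe x l ↔ ∃ i, i < l ∧ s(x i, x (i + 1)) = e := by
  simp [pe]

lemma pe_sub {x : ℕ → V} {l : ℕ} {ω : Finset (Sym2 V)} :
    pe x l ⊆ ω ↔ ∀ i, i < l → s(x i, x (i + 1)) ∈ ω := by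
  constructor
  · intro h i hi; exact h (mem_pe.2 ⟨i, hi, rfl⟩)
  · intro h e he
    obtain ⟨i, hi, rfl⟩ := mem_pe.1 he
    exact h i hi

lemma conn_seg {ω : Finset (Sym2 V)} {x : ℕ → V} {i j : ℕ} (hij : i ≤ j)
    (h : ∀ t, i ≤ t → t < j → s(x t, x (t + 1)) ∈ ω) : Conn ω (x i) (x j) := by
  induction j, hij using Nat.le_induction with
  | base => exact Conn.refl _ _
  | succ j hj ih =>
    exact (ih fun t h1 h2 => h t h1 (by omega)).tail (h j hj (by omega))

/-- injective on `[0, l]` -/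
def Inj (x : ℕ → V) (l : ℕ) : Prop := ∀ i j, i < j → j ≤ l → x i ≠ x j

lemma Inj.eq {x : ℕ → V} {l : ℕ} (h : Inj x l) {i j : ℕ} (hi : i ≤ l) (hj : j ≤ l)
    (hx : x i = x j) : i = j := by
  rcases lt_trichotomy i j with h1 | h1 | h1
  · exact absurd hx (h i j h1 hj)
  · exact h1
  · exact absurd hx.symm (h j i h1 hi)

lemma Conn.exists_path {ω : Finset (Sym2 V)} {a b : V} (h : Conn ω a b) :
    ∃ (l : ℕ) (x : ℕ → V), x 0 = a ∧ x l = b ∧ pe x l ⊆ ω ∧ Inj x l := by
  classical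
  have h1 : ∃ l : ℕ, ∃ x : ℕ → V, x 0 = a ∧ x l = b ∧ pe x l ⊆ ω := by
    refine h.closure (fun u => ∃ l : ℕ, ∃ x : ℕ → V, x 0 = a ∧ x l = u ∧ pe x l ⊆ ω)
      ⟨0, fun _ => a, rfl, rfl, by simp [pe]⟩ ?_
    rintro u v ⟨l, x, h0, hl, hp⟩ huv
    refine ⟨l + 1, fun i => if i ≤ l then x i else v, by simp [h0], by simp, ?_⟩
    rw [pe_sub] at hp ⊢
    intro i hi
    by_cases h2 : i < l
    · simp only [show i ≤ l by omega, show i + 1 ≤ l by omega, if_true]; exact hp i h2
    · obtain rfl : i = l := by omega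
      simp [hl, huv]
  obtain ⟨x, h0, hl, hp⟩ := Nat.find_spec h1
  refine ⟨Nat.find h1, x, h0, hl, hp, ?_⟩
  intro i j hij hj hx
  set l := Nat.find h1 with hl'
  have : l - (j - i) < l := by omega
  refine Nat.find_min h1 this ⟨fun t => if t ≤ i then x t else x (t + (j - i)), by simp [h0], ?_, ?_⟩
  · by_cases h2 : l - (j - i) ≤ i
    · simp only [h2, if_true]
      have : j = l := by omega
      rw [show l - (j - i) = i by omega, hx, this, hl]
    · simp only [h2, if_false]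
      rw [show l - (j - i) + (j - i) = l by omega, hl]
  · rw [pe_sub] at hp ⊢
    intro t ht
    by_cases h2 : t < i
    · simp only [show t ≤ i by omega, show t + 1 ≤ i by omega, if_true]; exact hp t (by omega)
    · by_cases h3 : t = i
      · subst h3
        simp only [le_refl, if_true, show ¬ (t + 1 ≤ t) by omega, if_false]
        rw [hx, show t + 1 + (j - t) = j + 1 by omega]; exact hp j (by omega)
      · simp only [show ¬ (t ≤ i) by omega, show ¬ (t + 1 ≤ i) by omega, if_false]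
        rw [show t + 1 + (j - i) = t + (j - i) + 1 by omega]; exact hp _ (by omega)

lemma mem_pe_left {x : ℕ → V} {l : ℕ} {u v : V} (h : s(u, v) ∈ pe x l) :
    ∃ i, i ≤ l ∧ x i = u := by
  obtain ⟨i, hi, he⟩ := mem_pe.1 h
  rcases Sym2.eq_iff.1 he with ⟨h1, _⟩ | ⟨_, h2⟩
  · exact ⟨i, by omega, h1⟩
  · exact ⟨i + 1, by omega, h2⟩

lemma mem_pe_right {x : ℕ → V} {l : ℕ} {u v : V} (h : s(u, v) ∈ pe x l) :
    ∃ i, i ≤ l ∧ x i = v := mem_pe_left (by rw [Sym2.eq_swap]; exact h)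

lemma meet {ω : Finset (Sym2 V)} {x : ℕ → V} {l i₀ : ℕ} {y : V} (hi : i₀ ≤ l)
    (h : Conn ω (x i₀) y) : ∃ i, i ≤ l ∧ Conn (ω \ pe x l) (x i) y := by
  refine h.closure (fun u => ∃ i, i ≤ l ∧ Conn (ω \ pe x l) (x i) u) ⟨i₀, hi, Conn.refl _ _⟩ ?_
  rintro u v ⟨i, hi, hc⟩ huv
  by_cases h2 : s(u, v) ∈ pe x l
  · obtain ⟨j, hj, rfl⟩ := mem_pe_right h2
    exact ⟨j, hj, Conn.refl _ _⟩
  · exact ⟨i, hi, hc.tail (mem_sdiff.2 ⟨huv, h2⟩)⟩

/-- a simple excursion from `Λ` to `Λ` (possibly a cycle) -/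
structure Ret (Λ : Finset V) (x : ℕ → V) (l : ℕ) : Prop where
  simple : ∀ i j, i < j → j ≤ l → x i = x j → i = 0 ∧ j = l
  first : x 0 ∈ Λ
  last : x l ∈ Λ
  inner : ∀ i, 0 < i → i < l → x i ∉ Λ

lemma edge_inj {x : ℕ → V} {l : ℕ} (hs : ∀ i j, i < j → j ≤ l → x i = x j → i = 0 ∧ j = l)
    (hl : 3 ≤ l ∨ x 0 ≠ x l) {i j : ℕ} (hi : i < l) (hj : j < l)
    (h : s(x i, x (i + 1)) = s(x j, x (j + 1))) : i = j := by
  have key : ∀ a b, a ≤ l → b ≤ l → x a = x b → a = b ∨ (a = 0 ∧ b = l) ∨ (b = 0 ∧ a = l) := by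
    intro a b ha hb hab
    rcases lt_trichotomy a b with h1 | h1 | h1
    · exact Or.inr (Or.inl (hs a b h1 hb hab))
    · exact Or.inl h1
    · exact Or.inr (Or.inr (hs b a h1 ha hab.symm))
  rcases Sym2.eq_iff.1 h with ⟨h1, _⟩ | ⟨h1, h2⟩
  · have := key i j (by omega) (by omega) h1; omega
  · have k1 := key i (j + 1) (by omega) (by omega) h1
    have k2 := key (i + 1) j (by omega) (by omega) h2
    rcases hl with hl | hl
    · omega
    · exfalso
      rcases k1 with k1 | ⟨k1, k3⟩ | k1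
      · rcases k2 with k2 | k2 | ⟨k2, k3⟩
        · omega
        · omega
        · apply hl; rw [← k3, h2, k2]
      · apply hl; rw [← k3, ← h1, k1]
      · omega

lemma card_pe {x : ℕ → V} {l : ℕ} (hs : ∀ i j, i < j → j ≤ l → x i = x j → i = 0 ∧ j = l)
    (hl : 3 ≤ l ∨ x 0 ≠ x l) : (pe x l).card = l := by
  unfold pe
  rw [card_image_of_injOn, card_range]
  intro i hi j hj h
  exact edge_inj hs hl (mem_range.1 hi) (mem_range.1 hj) h

lemma Inj.simple {x : ℕ → V} {l : ℕ} (h : Inj x l) :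
    ∀ i j, i < j → j ≤ l → x i = x j → i = 0 ∧ j = l :=
  fun i j h1 h2 h3 => absurd h3 (h i j h1 h2)

lemma Inj.card_pe {x : ℕ → V} {l : ℕ} (h : Inj x l) : (pe x l).card = l := by
  rcases Nat.eq_zero_or_pos l with rfl | hl
  · simp [pe]
  · exact H80.card_pe h.simple (Or.inr (h 0 l hl le_rfl))

lemma Ret.rev {Λ : Finset V} {x : ℕ → V} {l : ℕ} (h : Ret Λ x l) : Ret Λ (fun t => x (l - t)) l where
  simple := by
    intro i j hij hj hx
    have := h.simple (l - j) (l - i) (by omega) (by omega) hx.symm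
    omega
  first := by simpa using h.last
  last := by simpa using h.first
  inner := fun i h1 h2 => h.inner _ (by omega) (by omega)

lemma pe_rev (x : ℕ → V) (l : ℕ) : pe (fun t => x (l - t)) l = pe x l := by
  ext e
  simp only [mem_pe]
  constructor
  · rintro ⟨i, hi, rfl⟩
    refine ⟨l - (i + 1), by omega, ?_⟩
    rw [show l - (i + 1) + 1 = l - i by omega, Sym2.eq_swap]
  · rintro ⟨i, hi, rfl⟩
    refine ⟨l - (i + 1), by omega, ?_⟩
    rw [show l - (l - (i + 1)) = i + 1 by omega, show l - (l - (i + 1) + 1) = i by omega,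
      Sym2.eq_swap]

lemma Ret.forward {Λ : Finset V} {x x' : ℕ → V} {l l' : ℕ} (h : Ret Λ x l) (h' : Ret Λ x' l')
    (hl : 1 ≤ l) (hl' : 3 ≤ l') (hsub : pe x' l' ⊆ pe x l) (h0 : x' 0 = x 0) (h1 : x' 1 = x 1) :
    l' = l ∧ ∀ t, t ≤ l → x' t = x t := by
  have key : ∀ i, i + 1 ≤ l' → i + 1 ≤ l ∧ x' i = x i ∧ x' (i + 1) = x (i + 1) := by
    intro i
    induction i with
    | zero => intro _; exact ⟨hl, h0, h1⟩
    | succ i ih =>
      intro hi
      obtain ⟨a1, a2, a3⟩ := ih (by omega)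
      have b1 : x (i + 1) ∉ Λ := a3 ▸ h'.inner (i + 1) (by omega) (by omega)
      have b2 : i + 1 ≠ l := fun hh => b1 (hh ▸ h.last)
      obtain ⟨j, hj, he⟩ := mem_pe.1 (hsub (mem_pe.2 ⟨i + 1, by omega, rfl⟩))
      rcases Sym2.eq_iff.1 he with ⟨c1, c2⟩ | ⟨c1, c2⟩
      · have : j = i + 1 := by
          rcases lt_trichotomy j (i + 1) with d | d | d
          · have := h.simple j (i + 1) d a1 (c1.trans a3); omega
          · exact d
          · have := h.simple (i + 1) j d (by omega) (c1.trans a3).symm; omega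
        subst this
        exact ⟨by omega, a3, c2.symm⟩
      · have : j = i := by
          rcases lt_trichotomy (j + 1) (i + 1) with d | d | d
          · have := h.simple (j + 1) (i + 1) d a1 (c2.trans a3); omega
          · omega
          · have := h.simple (i + 1) (j + 1) d (by omega) (c2.trans a3).symm; omega
        subst this
        have := h'.simple j (j + 1 + 1) (by omega) hi (a2.trans c1)
        omega
  obtain ⟨a1, a2, a3⟩ := key (l' - 1) (by omega)
  rw [show l' - 1 + 1 = l' by omega] at a1 a3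
  have : l' = l := by
    by_contra hne
    exact h.inner l' (by omega) (by omega) (a3 ▸ h'.last)
  subst this
  refine ⟨rfl, fun t ht => ?_⟩
  rcases Nat.eq_zero_or_pos t with rfl | ht0
  · exact h0
  · have := (key (t - 1) (by omega)).2.2
    rwa [show t - 1 + 1 = t by omega] at this

lemma Ret.structure {Λ : Finset V} {x x' : ℕ → V} {l l' : ℕ} (h : Ret Λ x l) (h' : Ret Λ x' l')
    (hl' : 3 ≤ l') (hsub : pe x' l' ⊆ pe x l) :
    l' = l ∧ ((∀ t, t ≤ l → x' t = x t) ∨ (∀ t, t ≤ l → x' t = x (l - t))) := by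
  obtain ⟨j, hj, he⟩ := mem_pe.1 (hsub (mem_pe.2 ⟨0, by omega, rfl⟩))
  rcases Sym2.eq_iff.1 he with ⟨c1, c2⟩ | ⟨c1, c2⟩
  · have : j = 0 := by
      by_contra hne
      exact h.inner j (by omega) hj (c1 ▸ h'.first)
    subst this
    have := h.forward h' (by omega) hl' hsub c1.symm c2.symm
    exact ⟨this.1, Or.inl this.2⟩
  · have : j + 1 = l := by
      by_contra hne
      exact h.inner (j + 1) (by omega) (by omega) (c2 ▸ h'.first)
    have := h.rev.forward h' (by omega) hl' (by rw [pe_rev]; exact hsub)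
      (by simp only [Nat.sub_zero]; rw [← this]; exact c2.symm)
      (by show x' 1 = x (l - 1); rw [show l - 1 = j by omega]; exact c1.symm)
    exact ⟨this.1, Or.inr this.2⟩

/-- no two points of `U` are connected -/
def Sep (U : Finset V) (η : Finset (Sym2 V)) : Prop := ∀ a ∈ U, ∀ b ∈ U, Conn η a b → a = b

/-- base set together with the vertices of the excursion -/
def hull (Λ : Finset V) (x : ℕ → V) (l : ℕ) : Finset V := Λ ∪ (range (l + 1)).image x

lemma mem_hull_of_le (Λ : Finset V) (x : ℕ → V) {l i : ℕ} (h : i ≤ l) : x i ∈ hull Λ x l :=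
  mem_union_right _ (mem_image.2 ⟨i, mem_range.2 (by omega), rfl⟩)

lemma mem_hull_of_mem {Λ : Finset V} (x : ℕ → V) (l : ℕ) {v : V} (h : v ∈ Λ) : v ∈ hull Λ x l :=
  mem_union_left _ h

lemma card_hull (Λ : Finset V) (x : ℕ → V) (l : ℕ) : (hull Λ x l).card ≤ Λ.card + l + 1 := by
  refine (card_union_le _ _).trans ?_
  have := card_image_le (s := range (l + 1)) (f := x)
  rw [card_range] at this; omega

/-- the excursion is open and isolated, and `y` hangs at its `i`-th vertex -/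
def Good (Λ : Finset V) (x : ℕ → V) (l i : ℕ) (y : V) (ω : Finset (Sym2 V)) : Prop :=
  pe x l ⊆ ω ∧ Sep (hull Λ x l) (ω \ pe x l) ∧ Conn (ω \ pe x l) (x i) y

lemma good_uniq {Λ : Finset V} {x x' : ℕ → V} {l l' i i' : ℕ} {y : V} {ω : Finset (Sym2 V)}
    (h : Ret Λ x l) (h' : Ret Λ x' l') (hl' : 3 ≤ l') (hi : i ≤ l) (hi' : i' ≤ l')
    (g : Good Λ x l i y ω) (g' : Good Λ x' l' i' y ω)
    (hc : x' 0 = x' l' → x i ≠ x' 0 ∧ x' i' ≠ x' 0) :
    l' = l ∧ ((∀ t, t ≤ l → x' t = x t) ∨ (∀ t, t ≤ l → x' t = x (l - t))) ∧ x i = x' i' := by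
  classical
  have hsub : pe x' l' ⊆ pe x l := by
    rw [pe_sub]
    intro t ht
    by_contra hne
    have e1 : ∃ s, s ≤ t ∧ x' (t - s) ∈ hull Λ x l :=
      ⟨t, le_rfl, by simpa using mem_hull_of_mem x l h'.first⟩
    have e2 : ∃ s, t + 1 + s ≤ l' ∧ x' (t + 1 + s) ∈ hull Λ x l :=
      ⟨l' - (t + 1), by omega, by
        rw [show t + 1 + (l' - (t + 1)) = l' by omega]; exact mem_hull_of_mem x l h'.last⟩
    obtain ⟨a1, a2⟩ := Nat.find_spec e1
    obtain ⟨b1, b2⟩ := Nat.find_spec e2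
    set s := Nat.find e1
    set s' := Nat.find e2
    have off : ∀ r, t - s ≤ r → r < t + 1 + s' → s(x' r, x' (r + 1)) ∈ ω \ pe x l := by
      intro r h1 h2
      refine mem_sdiff.2 ⟨pe_sub.1 g'.1 r (by omega), fun hm => ?_⟩
      rcases lt_trichotomy r t with d | d | d
      · obtain ⟨j, hj, hx⟩ := mem_pe_right hm
        refine Nat.find_min e1 (show t - (r + 1) < s by omega) ⟨by omega, ?_⟩
        rw [show t - (t - (r + 1)) = r + 1 by omega, ← hx]; exact mem_hull_of_le _ _ hj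
      · subst d; exact hne hm
      · obtain ⟨j, hj, hx⟩ := mem_pe_left hm
        refine Nat.find_min e2 (show r - (t + 1) < s' by omega) ⟨by omega, ?_⟩
        rw [show t + 1 + (r - (t + 1)) = r by omega, ← hx]; exact mem_hull_of_le _ _ hj
    have c1 := g.2.1 _ a2 _ b2 (conn_seg (by omega) off)
    obtain ⟨c2, c3⟩ := h'.simple _ _ (by omega) b1 c1
    rw [c2, c3] at c1 off
    obtain ⟨d1, d2⟩ := hc c1
    have oU : x' 0 ∈ hull Λ x l := mem_hull_of_mem x l h'.first
    have k1 : Conn (ω \ pe x l) (x' 0) (x' i') :=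
      conn_seg (Nat.zero_le _) fun r r1 r2 => off r r1 (by omega)
    have k2 : Conn (ω \ pe x' l') (x' i') y ∧ Conn (ω \ pe x l) (x' 0) y := by
      refine g'.2.2.closure
        (fun u => Conn (ω \ pe x' l') (x' i') u ∧ Conn (ω \ pe x l) (x' 0) u)
        ⟨Conn.refl _ _, k1⟩ ?_
      rintro u v ⟨u1, u2⟩ huv
      refine ⟨u1.tail huv, ?_⟩
      by_cases hm : s(u, v) ∈ pe x l
      · exfalso
        obtain ⟨j, hj, rfl⟩ := mem_pe_left hm
        have := g.2.1 _ oU _ (mem_hull_of_le _ _ hj) u2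
        rw [← this] at u1
        exact d2 (g'.2.1 _ (mem_hull_of_le _ _ hi') _ (mem_hull_of_le _ _ (Nat.zero_le _)) u1)
      · exact u2.tail (mem_sdiff.2 ⟨(mem_sdiff.1 huv).1, hm⟩)
    exact d1 (g.2.1 _ (mem_hull_of_le _ _ hi) _ oU (g.2.2.trans k2.2.symm))
  obtain ⟨e1, e2⟩ := h.structure h' hl' hsub
  refine ⟨e1, e2, ?_⟩
  subst e1
  have e3 : pe x' l' = pe x l' := by
    rcases e2 with e2 | e2
    · unfold pe
      refine image_congr fun t ht => ?_
      have := mem_range.1 (mem_coe.1 ht)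
      show s(x' t, x' (t + 1)) = s(x t, x (t + 1))
      rw [e2 t (by omega), e2 (t + 1) (by omega)]
    · rw [← pe_rev x l']
      unfold pe
      refine image_congr fun t ht => ?_
      have := mem_range.1 (mem_coe.1 ht)
      show s(x' t, x' (t + 1)) = s(x (l' - t), x (l' - (t + 1)))
      rw [e2 t (by omega), e2 (t + 1) (by omega)]
  have e4 : x' i' ∈ hull Λ x l' := by
    rcases e2 with e2 | e2
    · rw [e2 i' hi']; exact mem_hull_of_le _ _ hi'
    · rw [e2 i' hi']; exact mem_hull_of_le _ _ (by omega)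
  have e5 := g'.2.2
  rw [e3] at e5
  exact g.2.1 _ (mem_hull_of_le _ _ hi) _ e4 (g.2.2.trans e5.symm)

end Pool.Agent.Lib.MP_58a483_pr.H80
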