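import Pool.Agent.Lib.MP_58a483_pr.H80Conn

set_option autoImplicit false
set_option linter.unusedSectionVars false
set_option linter.unusedVariables false
set_option linter.deprecated false

namespace Pool.Agent.Lib.MP_58a483_pr.H80

open Finset

section
variable {V : Type} [DecidableEq V]

open Classical in
/-- cluster of `r` using only edges inside `U` -/
noncomputable def clus (U : Finset V) (r : V) (ω : Finset (Sym2 V)) : Finset V :=
  U.filter (fun v => Conn (ω ∩ U.sym2) r v)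

lemma mem_clus {U : Finset V} {r : V} (hr : r ∈ U) {ω : Finset (Sym2 V)} {v : V} :
    v ∈ clus U r ω ↔ Conn (ω ∩ U.sym2) r v := by
  classical
  unfold clus
  rw [mem_filter]
  refine ⟨fun h => h.2, fun h => ⟨?_, h⟩⟩
  exact h.closure (fun u => u ∈ U) hr fun u v _ huv => (mk_mem_sym2_iff.1 (mem_inter.1 huv).2).2

lemma clus_sub (U : Finset V) (r : V) (ω : Finset (Sym2 V)) : clus U r ω ⊆ U := by
  classical
  unfold clus; exact filter_subset _ _

lemma self_mem_clus {U : Finset V} {r : V} (hr : r ∈ U) (ω : Finset (Sym2 V)) : r ∈ clus U r ω :=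
  (mem_clus hr).2 (Conn.refl _ _)

/-- edges between two sets -/
def cut (S T : Finset V) : Finset (Sym2 V) := (S ×ˢ T).image (fun ab => s(ab.1, ab.2))

lemma mem_cut {S T : Finset V} {e : Sym2 V} : e ∈ cut S T ↔ ∃ a ∈ S, ∃ b ∈ T, s(a, b) = e := by
  simp only [cut, mem_image, mem_product, Prod.exists]
  constructor
  · rintro ⟨a, b, ⟨h1, h2⟩, h3⟩; exact ⟨a, h1, b, h2, h3⟩
  · rintro ⟨a, h1, b, h2, h3⟩; exact ⟨a, b, ⟨h1, h2⟩, h3⟩

lemma card_cut {S T : Finset V} (h : Disjoint S T) : (cut S T).card = S.card * T.card := by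
  unfold cut
  rw [card_image_of_injOn, card_product]
  rintro ⟨a, b⟩ hab ⟨c, d⟩ hcd he
  simp only [coe_product, Set.mem_prod, mem_coe] at hab hcd
  rcases Sym2.eq_iff.1 he with ⟨h1, h2⟩ | ⟨h1, h2⟩
  · exact Prod.ext h1 h2
  · have h3 : a = d := h1
    exact absurd (h3 ▸ hcd.2) (disjoint_left.1 h hab.1)

lemma clus_eq_iff {U S : Finset V} {r : V} (hr : r ∈ S) (hS : S ⊆ U) (ω : Finset (Sym2 V)) :
    clus U r ω = S ↔ Disjoint (cut S (U \ S)) ω ∧ clus S r ω = S := by
  constructor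
  · intro h
    have k : ∀ u v, u ∈ S → s(u, v) ∈ ω ∩ U.sym2 → v ∈ S := by
      intro u v hu huv
      rw [← h, mem_clus (hS hr)] at hu ⊢
      exact hu.tail huv
    refine ⟨?_, ?_⟩
    · rw [disjoint_left]
      intro e he heω
      obtain ⟨a, ha, b, hb, rfl⟩ := mem_cut.1 he
      exact (mem_sdiff.1 hb).2
        (k a b ha (mem_inter.2 ⟨heω, mk_mem_sym2_iff.2 ⟨hS ha, (mem_sdiff.1 hb).1⟩⟩))
    · refine Subset.antisymm (clus_sub _ _ _) fun v hv => ?_
      rw [← h, mem_clus (hS hr)] at hv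
      rw [mem_clus hr]
      refine (hv.closure (fun u => u ∈ S ∧ Conn (ω ∩ S.sym2) r u) ⟨hr, Conn.refl _ _⟩ ?_).2
      rintro u v ⟨h1, h2⟩ huv
      exact ⟨k u v h1 huv, h2.tail (mem_inter.2 ⟨(mem_inter.1 huv).1,
        mk_mem_sym2_iff.2 ⟨h1, k u v h1 huv⟩⟩)⟩
  · rintro ⟨h1, h2⟩
    refine Subset.antisymm (fun v hv => ?_) fun v hv => ?_
    · rw [mem_clus (hS hr)] at hv
      refine hv.closure (fun u => u ∈ S) hr fun u v hu huv => ?_
      by_contra hv
      exact disjoint_left.1 h1 (mem_cut.2 ⟨u, hu, v,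
        mem_sdiff.2 ⟨(mk_mem_sym2_iff.1 (mem_inter.1 huv).2).2, hv⟩, rfl⟩) (mem_inter.1 huv).1
    · rw [← h2, mem_clus hr] at hv
      rw [mem_clus (hS hr)]
      exact hv.mono (inter_subset_inter (Subset.refl _) (sym2_mono hS))

lemma prob_clus {E : Finset (Sym2 V)} {U S : Finset V} {r : V}
    (hE : ∀ a ∈ U, ∀ b ∈ U, a ≠ b → s(a, b) ∈ E) (hr : r ∈ S) (hS : S ⊆ U) (p : ℝ) :
    Ex E p (fun ω => ind (clus U r ω = S)) =
      (1 - p) ^ (S.card * (U.card - S.card)) * Ex E p (fun ω => ind (clus S r ω = S)) := by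
  have hc : cut S (U \ S) ⊆ E := by
    intro e he
    obtain ⟨a, ha, b, hb, rfl⟩ := mem_cut.1 he
    exact hE a (hS ha) b (mem_sdiff.1 hb).1 fun h => (mem_sdiff.1 hb).2 (h ▸ ha)
  have e1 : ∀ ω : Finset (Sym2 V), clus S r (ω \ cut S (U \ S)) = clus S r ω := by
    intro ω
    have : (ω \ cut S (U \ S)) ∩ S.sym2 = ω ∩ S.sym2 := by
      ext e
      simp only [mem_inter, mem_sdiff]
      refine ⟨fun h => ⟨h.1.1, h.2⟩, fun h => ⟨⟨h.1, fun he => ?_⟩, h.2⟩⟩
      obtain ⟨a, ha, b, hb, rfl⟩ := mem_cut.1 he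
      exact (mem_sdiff.1 hb).2 (mk_mem_sym2_iff.1 h.2).2
    unfold clus; rw [this]
  have e2 : ∀ ω : Finset (Sym2 V), Disjoint (cut S (U \ S)) (ω ∩ cut S (U \ S)) ↔
      Disjoint (cut S (U \ S)) ω := by
    intro ω
    simp only [disjoint_left, mem_inter]
    exact ⟨fun h a ha hω => h ha ⟨hω, ha⟩, fun h a ha hω => h ha hω.1⟩
  have := Ex_indep E (cut S (U \ S)) p (fun a => ind (Disjoint (cut S (U \ S)) a))
    (fun b => ind (clus S r b = S))
  simp only [e1, e2] at this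
  rw [Ex_disj hc, card_cut disjoint_sdiff, card_sdiff_of_subset hS] at this
  rw [← this]
  exact Ex_congr fun ω _ => by rw [← ind_and, ind_congr (clus_eq_iff hr hS ω)]

lemma Ex_clus {E : Finset (Sym2 V)} {U : Finset V} {r : V} (hr : r ∈ U) (p : ℝ)
    (F : Finset V → Finset (Sym2 V) → ℝ) :
    Ex E p (fun ω => F (clus U r ω) ω) =
      ∑ S ∈ U.powerset.filter (fun S => r ∈ S), Ex E p (fun ω => ind (clus U r ω = S) * F S ω) := by
  rw [← Ex_sum]
  refine Ex_congr fun ω _ => ?_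
  rw [sum_eq_single (clus U r ω)]
  · rw [ind_pos rfl, one_mul]
  · intro S _ hS; rw [ind_neg (Ne.symm hS), zero_mul]
  · intro h
    exact absurd (mem_filter.2 ⟨mem_powerset.2 (clus_sub _ _ _), self_mem_clus hr _⟩) h

lemma sum_rooted {U : Finset V} {r : V} (hr : r ∈ U) (f : ℕ → ℝ) :
    ∑ S ∈ U.powerset.filter (fun S => r ∈ S), f S.card =
      ∑ k ∈ range U.card, ((U.card - 1).choose k : ℝ) * f (k + 1) := by
  have h1 : r ∉ U.erase r := notMem_erase _ _
  have h2 := card_erase_add_one hr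
  rw [sum_filter]
  conv_lhs => rw [← insert_erase hr]
  rw [sum_powerset_insert h1, sum_eq_zero, zero_add]
  · have := sum_powerset_apply_card (fun k => f (k + 1)) (x := U.erase r)
    rw [h2, card_erase_of_mem hr] at this
    simp only [nsmul_eq_mul] at this
    rw [← this]
    refine sum_congr rfl fun S hS => ?_
    rw [if_pos (mem_insert_self _ _),
      card_insert_of_notMem fun h => h1 (mem_powerset.1 hS h)]
  · intro S hS
    rw [if_neg fun h => h1 (mem_powerset.1 hS h)]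

end

/-- probability that the random graph on `k` points is connected -/
noncomputable def piq (p : ℝ) (k : ℕ) : ℝ :=
  Ex (range k).sym2 p (fun ω => ind (clus (range k) 0 ω = range k))

lemma piq_nonneg {p : ℝ} (h0 : 0 ≤ p) (h1 : p ≤ 1) (k : ℕ) : 0 ≤ piq p k :=
  Ex_nonneg h0 h1 fun _ _ => ind_nonneg _

lemma conn_prob (p : ℝ) (N : ℕ) : ∀ (V : Type) [DecidableEq V] (E : Finset (Sym2 V)) (U : Finset V)
    (r : V), (∀ a ∈ U, ∀ b ∈ U, a ≠ b → s(a, b) ∈ E) → r ∈ U → U.card = N →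
    Ex E p (fun ω => ind (clus U r ω = U)) = piq p N := by
  induction N using Nat.strong_induction_on with
  | _ N ih =>
    have key : ∀ (V : Type) [DecidableEq V] (E : Finset (Sym2 V)) (U : Finset V)
        (r : V), (∀ a ∈ U, ∀ b ∈ U, a ≠ b → s(a, b) ∈ E) → r ∈ U → U.card = N →
        Ex E p (fun ω => ind (clus U r ω = U)) = 1 - ∑ k ∈ range N, ((N - 1).choose k : ℝ) *
          (if k + 1 < N then (1 - p) ^ ((k + 1) * (N - (k + 1))) * piq p (k + 1) else 0) := by
      intro V _ E U r hE hr hU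
      have e1 := Ex_clus (E := E) hr p (fun _ _ => 1)
      rw [Ex_const] at e1
      have e2 := sum_rooted hr
        (fun k => if k < N then (1 - p) ^ (k * (N - k)) * piq p k else 0)
      rw [hU] at e2
      rw [← e2, eq_sub_iff_add_eq]
      refine Eq.trans ?_ e1.symm
      have hU' : U ∈ U.powerset.filter (fun S => r ∈ S) :=
        mem_filter.2 ⟨mem_powerset.2 (Subset.refl _), hr⟩
      rw [← add_sum_erase _ _ hU', ← add_sum_erase _ _ hU', if_neg (by omega), zero_add]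
      simp only [mul_one]
      rw [add_right_inj]
      refine sum_congr rfl fun S hS => ?_
      obtain ⟨s1, s2⟩ := mem_erase.1 hS
      obtain ⟨s3, s4⟩ := mem_filter.1 s2
      have s5 := mem_powerset.1 s3
      have s6 : S.card < N := hU ▸ card_lt_card (ssubset_of_subset_of_ne s5 s1)
      symm
      rw [if_pos s6, prob_clus hE s4 s5, hU,
        ih S.card s6 V E S r (fun a ha b hb => hE a (s5 ha) b (s5 hb)) s4 rfl]
    intro V _ E U r hE hr hU
    have hN : 0 < N := hU ▸ card_pos.2 ⟨r, hr⟩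
    rw [key V E U r hE hr hU]
    exact (key ℕ _ (range N) 0 (fun a ha b hb _ => mk_mem_sym2_iff.2 ⟨ha, hb⟩)
      (mem_range.2 hN) (card_range N)).symm

/-- expectation of a function of the cluster size in the random graph on `n` points -/
noncomputable def En (p : ℝ) (n : ℕ) (f : ℕ → ℝ) : ℝ :=
  ∑ k ∈ range n, ((n - 1).choose k : ℝ) *
    ((1 - p) ^ ((k + 1) * (n - (k + 1))) * piq p (k + 1) * f (k + 1))

lemma sum_clus {V : Type} [DecidableEq V] {E : Finset (Sym2 V)} {U : Finset V} {r : V}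
    (hE : ∀ a ∈ U, ∀ b ∈ U, a ≠ b → s(a, b) ∈ E) (hr : r ∈ U) (p : ℝ) (f : ℕ → ℝ) :
    ∑ S ∈ U.powerset.filter (fun S => r ∈ S), Ex E p (fun ω => ind (clus U r ω = S)) * f S.card =
      En p U.card f := by
  unfold En
  rw [← sum_rooted hr (fun k => (1 - p) ^ (k * (U.card - k)) * piq p k * f k)]
  refine sum_congr rfl fun S hS => ?_
  obtain ⟨s3, s4⟩ := mem_filter.1 hS
  have s5 := mem_powerset.1 s3
  rw [prob_clus hE s4 s5, conn_prob p S.card V E S r (fun a ha b hb => hE a (s5 ha) b (s5 hb)) s4 rfl]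

lemma En_one (p : ℝ) {n : ℕ} (hn : 0 < n) : En p n (fun _ => 1) = 1 := by
  have := sum_clus (E := (range n).sym2) (U := range n) (r := 0)
    (fun a ha b hb _ => mk_mem_sym2_iff.2 ⟨ha, hb⟩) (mem_range.2 hn) p (fun _ => 1)
  rw [card_range] at this
  rw [← this]
  have e1 := Ex_clus (E := (range n).sym2) (mem_range.2 hn) p (fun _ _ => 1)
  rw [Ex_const] at e1
  simp only [mul_one] at e1 ⊢
  exact e1.symm

lemma En_congr {p : ℝ} {n : ℕ} {f g : ℕ → ℝ} (h : ∀ k, 1 ≤ k → k ≤ n → f k = g k) :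
    En p n f = En p n g :=
  sum_congr rfl fun k hk => by rw [h (k + 1) (by omega) (by have := mem_range.1 hk; omega)]

lemma En_mono {p : ℝ} (h0 : 0 ≤ p) (h1 : p ≤ 1) {n : ℕ} {f g : ℕ → ℝ}
    (h : ∀ k, 1 ≤ k → k ≤ n → f k ≤ g k) : En p n f ≤ En p n g :=
  sum_le_sum fun k hk => mul_le_mul_of_nonneg_left (mul_le_mul_of_nonneg_left
    (h (k + 1) (by omega) (by have := mem_range.1 hk; omega))
    (mul_nonneg (pow_nonneg (by linarith) _) (piq_nonneg h0 h1 _))) (Nat.cast_nonneg _)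

lemma En_add (p : ℝ) (n : ℕ) (f g : ℕ → ℝ) :
    En p n (fun k => f k + g k) = En p n f + En p n g := by
  unfold En; rw [← sum_add_distrib]; exact sum_congr rfl fun _ _ => by ring

lemma En_sub (p : ℝ) (n : ℕ) (f g : ℕ → ℝ) :
    En p n (fun k => f k - g k) = En p n f - En p n g := by
  unfold En; rw [← sum_sub_distrib]; exact sum_congr rfl fun _ _ => by ring

lemma En_mul_left (p : ℝ) (n : ℕ) (c : ℝ) (f : ℕ → ℝ) :
    En p n (fun k => c * f k) = c * En p n f := by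
  unfold En; rw [mul_sum]; exact sum_congr rfl fun _ _ => by ring

lemma En_step {p : ℝ} (hp : p < 1) (n : ℕ) (f : ℕ → ℝ) :
    En p (n + 1) (fun k => ((n : ℝ) + 1 - k) * ((1 - p)⁻¹) ^ k * f k) = n * En p n f := by
  unfold En
  rw [sum_range_succ, mul_sum]
  have : ((n : ℝ) + 1 - ((n + 1 : ℕ) : ℝ)) = 0 := by push_cast; ring
  simp only [this, zero_mul, mul_zero, add_zero]
  refine sum_congr rfl fun k hk => ?_
  have hk' := mem_range.1 hk
  have h1 : (1 - p) ≠ 0 := by linarith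
  have h2 := Nat.choose_mul_succ_eq (n - 1) k
  rw [show n - 1 + 1 = n by omega] at h2
  have h3 : ((n - 1).choose k : ℝ) * n = (n.choose k : ℝ) * ((n : ℝ) - k) := by
    rw [← Nat.cast_sub hk'.le]; exact_mod_cast h2
  have h4 : (k + 1) * (n + 1 - (k + 1)) = (k + 1) * (n - (k + 1)) + (k + 1) := by
    rw [show n + 1 - (k + 1) = n - (k + 1) + 1 by omega]; ring
  have h5 : (1 - p) ^ (k + 1) * ((1 - p)⁻¹) ^ (k + 1) = 1 := by
    rw [← mul_pow, mul_inv_cancel₀ h1, one_pow]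
  rw [h4, pow_add, Nat.add_sub_cancel]
  push_cast
  linear_combination (-((1 - p) ^ ((k + 1) * (n - (k + 1))) * piq p (k + 1) * f (k + 1))) * h3 +
    ((n.choose k : ℝ) * ((n : ℝ) - k) *
      ((1 - p) ^ ((k + 1) * (n - (k + 1))) * piq p (k + 1) * f (k + 1))) * h5

lemma choose_double (n k : ℕ) (hn : 1 ≤ n) : 2 ^ k * (n - 1).choose k ≤ (2 * n - 1).choose k := by
  induction k with
  | zero => simp
  | succ k ih =>
    have h1 := Nat.choose_succ_right_eq (n - 1) k
    have h2 := Nat.choose_succ_right_eq (2 * n - 1) k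
    refine Nat.le_of_mul_le_mul_right ?_ (Nat.succ_pos k)
    show 2 ^ (k + 1) * (n - 1).choose (k + 1) * (k + 1) ≤ (2 * n - 1).choose (k + 1) * (k + 1)
    rw [mul_assoc, h1, h2]
    calc 2 ^ (k + 1) * ((n - 1).choose k * (n - 1 - k))
        = (2 ^ k * (n - 1).choose k) * (2 * (n - 1 - k)) := by ring
      _ ≤ _ := Nat.mul_le_mul ih (by omega)

lemma En_exp {p : ℝ} (h0 : 0 ≤ p) {n : ℕ} (hn : 1 ≤ n) (hc : p * n ≤ 1 / 4) :
    En p n (fun k => (3 / 2 : ℝ) ^ k) ≤ 2 := by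
  have hn' : (1 : ℝ) ≤ n := by exact_mod_cast hn
  have h1 : p ≤ 1 / 4 := by nlinarith
  have h2 : (3 / 4 : ℝ) ≤ (1 - p) ^ n := by
    have := one_add_mul_le_pow (a := -p) (by linarith) n
    rw [← sub_eq_add_neg] at this
    nlinarith
  have h3 := En_one p (n := 2 * n) (by omega)
  unfold En at h3 ⊢
  have h4 : ∀ k ∈ range (2 * n), 0 ≤ ((2 * n - 1).choose k : ℝ) *
      ((1 - p) ^ ((k + 1) * (2 * n - (k + 1))) * piq p (k + 1) * 1) := fun k _ =>
    mul_nonneg (Nat.cast_nonneg _) (mul_nonneg (mul_nonneg (pow_nonneg (by linarith) _)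
      (piq_nonneg h0 (by linarith) _)) zero_le_one)
  have h5 := sum_le_sum_of_subset_of_nonneg (range_subset_range.2 (show n ≤ 2 * n by omega))
    (fun k hk _ => h4 k hk)
  rw [h3] at h5
  refine le_trans ?_ (show 2 * _ ≤ (2 : ℝ) by linarith [h5])
  rw [mul_sum]
  refine sum_le_sum fun k hk => ?_
  have hk' := mem_range.1 hk
  have a1 : (2 : ℝ) ^ k * ((n - 1).choose k : ℝ) ≤ ((2 * n - 1).choose k : ℝ) := by
    exact_mod_cast choose_double n k hn
  have a2 : (k + 1) * (2 * n - (k + 1)) = (k + 1) * (n - (k + 1)) + n * (k + 1) := by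
    rw [show 2 * n - (k + 1) = n - (k + 1) + n by omega]; ring
  have a3 : (3 / 4 : ℝ) ^ (k + 1) ≤ ((1 - p) ^ n) ^ (k + 1) := pow_le_pow_left₀ (by norm_num) h2 _
  have a4 : 0 ≤ (1 - p) ^ ((k + 1) * (n - (k + 1))) * piq p (k + 1) :=
    mul_nonneg (pow_nonneg (by linarith) _) (piq_nonneg h0 (by linarith) _)
  rw [a2, pow_add (1 - p), pow_mul (1 - p) n]
  have a5 : (3 / 2 : ℝ) ^ (k + 1) = 2 * (2 ^ k * (3 / 4) ^ (k + 1)) := by
    rw [← mul_assoc, ← pow_succ', ← mul_pow]; norm_num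
  beta_reduce
  rw [a5]
  set A := (1 - p) ^ ((k + 1) * (n - (k + 1))) * piq p (k + 1)
  calc ((n - 1).choose k : ℝ) * (A * (2 * (2 ^ k * (3 / 4) ^ (k + 1))))
      = 2 * ((2 ^ k * ((n - 1).choose k : ℝ)) * (A * (3 / 4) ^ (k + 1))) := by ring
    _ ≤ 2 * (((2 * n - 1).choose k : ℝ) * (A * ((1 - p) ^ n) ^ (k + 1))) := by
        gcongr
    _ = _ := by simp only [A]; ring

end Pool.Agent.Lib.MP_58a483_pr.H80
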