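import Pool.Agent.Lib.MP_58a483_pr.H80ER
import Pool.Agent.Lib.MP_58a483_pr.H80Bd

set_option autoImplicit false
set_option linter.unusedSectionVars false
set_option linter.unusedVariables false
set_option linter.deprecated false

namespace Pool.Agent.Lib.MP_58a483_pr.H80

open Finset

lemma taylor_step {p r : ℝ} (hp : 0 ≤ p) (hr : 1 ≤ r) (k : ℕ) (D D' : ℕ → ℝ) (h0 : D 0 = 0)
    (hs : ∀ m, D (m + 1) = D m + p * D' (m + 1))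
    (h : ∀ m : ℕ, 0 ≤ D' m ∧ D' m ≤ (p * m) ^ k * r ^ m) (m : ℕ) :
    0 ≤ D m ∧ D m ≤ (p * m) ^ (k + 1) * r ^ m := by
  induction m with
  | zero => simp [h0]
  | succ m ih =>
    rw [hs]
    refine ⟨add_nonneg ih.1 (mul_nonneg hp (h _).1), ?_⟩
    have a1 : (p * m) ^ k ≤ (p * ((m + 1 : ℕ) : ℝ)) ^ k := by
      refine pow_le_pow_left₀ (by positivity) ?_ k
      push_cast; nlinarith
    have a2 : r ^ m ≤ r ^ (m + 1) := pow_le_pow_right₀ hr (by omega)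
    have a3 := mul_le_mul_of_nonneg_left (h (m + 1)).2 hp
    have a4 : (p * m) ^ (k + 1) * r ^ m ≤ (p * m) * ((p * ((m + 1 : ℕ) : ℝ)) ^ k * r ^ (m + 1)) := by
      rw [pow_succ', mul_assoc]
      gcongr
    calc _ ≤ (p * m) * ((p * ((m + 1 : ℕ) : ℝ)) ^ k * r ^ (m + 1)) +
          p * ((p * ((m + 1 : ℕ) : ℝ)) ^ k * r ^ (m + 1)) := add_le_add (ih.2.trans a4) a3
      _ = _ := by push_cast; ring

/-- cubic Taylor polynomial of `(1-p)^(-m)` -/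
noncomputable def T3 (p m : ℝ) : ℝ :=
  1 + m * p + m * (m + 1) / 2 * p ^ 2 + m * (m + 1) * (m + 2) / 6 * p ^ 3

lemma taylor_inv {p : ℝ} (hp : 0 ≤ p) (h1 : p < 1) (m : ℕ) :
    0 ≤ (1 - p)⁻¹ ^ m - T3 p m ∧ (1 - p)⁻¹ ^ m - T3 p m ≤ (p * m) ^ 4 * (1 - p)⁻¹ ^ m := by
  have hq : 0 < 1 - p := by linarith
  set r := (1 - p)⁻¹ with hr
  have r1 : 1 ≤ r := one_le_inv₀ hq |>.2 (by linarith)
  have r2 : r = 1 + p * r := by rw [hr]; field_simp; ring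
  have r3 : ∀ m : ℕ, r ^ (m + 1) = r ^ m + p * r ^ (m + 1) := fun m => by
    rw [pow_succ]; nth_rewrite 2 [r2]; ring
  have s0 := taylor_step hp r1 0 (fun m => r ^ m - 1) (fun m => r ^ m) (by simp)
    (fun m => by have := r3 m; linarith) (fun m => ⟨by positivity, by simp⟩)
  have s1 := taylor_step hp r1 1 (fun m => r ^ m - (1 + m * p)) _ (by simp)
    (fun m => by have := r3 m; push_cast; linarith) s0
  have s2 := taylor_step hp r1 2 (fun m => r ^ m - (1 + m * p + m * (m + 1) / 2 * p ^ 2)) _ (by simp)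
    (fun m => by have := r3 m; push_cast; linarith) s1
  exact taylor_step hp r1 3 (fun m => r ^ m - T3 p m) _ (by simp [T3])
    (fun m => by have := r3 m; unfold T3; push_cast; linarith) s2 m

lemma poly_le_exp (r : ℕ) : ∃ C : ℝ, 0 ≤ C ∧ ∀ K : ℕ, (K : ℝ) ^ r * (11 / 10) ^ K ≤ C * (3 / 2) ^ K := by
  have := (tendsto_pow_const_mul_const_pow_of_abs_lt_one r (r := (11 / 15 : ℝ))
    (by rw [abs_of_pos] <;> norm_num)).bddAbove_range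
  obtain ⟨C, hC⟩ := this
  refine ⟨|C|, abs_nonneg _, fun K => ?_⟩
  have h1 : (K : ℝ) ^ r * (11 / 15) ^ K ≤ |C| := (hC ⟨K, rfl⟩).trans (le_abs_self _)
  have h2 : (11 / 10 : ℝ) ^ K = (11 / 15) ^ K * (3 / 2) ^ K := by rw [← mul_pow]; norm_num
  rw [h2, ← mul_assoc]
  exact mul_le_mul_of_nonneg_right h1 (by positivity)

lemma En_abs_le {p : ℝ} (h0 : 0 ≤ p) (h1 : p ≤ 1) {n : ℕ} {f g : ℕ → ℝ}
    (h : ∀ k, 1 ≤ k → k ≤ n → |f k| ≤ g k) : |En p n f| ≤ En p n g := by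
  rw [abs_le]
  refine ⟨?_, En_mono h0 h1 fun k a b => (le_abs_self _).trans (h k a b)⟩
  have := En_mono h0 h1 (n := n) (f := fun k => (-1) * g k) (g := f)
    fun k a b => by have := (abs_le.1 (h k a b)).1; linarith
  rw [En_mul_left] at this; linarith

lemma En_poly (p : ℝ) {n : ℕ} (hn : 0 < n) (a0 a1 a2 a3 a4 a5 a6 : ℝ) :
    En p n (fun k => a0 + a1 * (k : ℝ) ^ 1 + a2 * (k : ℝ) ^ 2 + a3 * (k : ℝ) ^ 3 +
      a4 * (k : ℝ) ^ 4 + a5 * (k : ℝ) ^ 5 + a6 * (k : ℝ) ^ 6) =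
    a0 + a1 * En p n (fun k => (k : ℝ) ^ 1) + a2 * En p n (fun k => (k : ℝ) ^ 2) +
      a3 * En p n (fun k => (k : ℝ) ^ 3) + a4 * En p n (fun k => (k : ℝ) ^ 4) +
      a5 * En p n (fun k => (k : ℝ) ^ 5) + a6 * En p n (fun k => (k : ℝ) ^ 6) := by
  simp only [En_add, En_mul_left]
  have := En_mul_left p n a0 (fun _ => 1)
  rw [En_one p hn] at this
  simp only [mul_one] at this
  rw [this]

/-- first correction to the mean cluster size -/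
noncomputable def mu1 (c : ℝ) : ℝ := -(c - c ^ 2 + c ^ 3 - (1 / 2) * c ^ 4) / (1 - c) ^ 4

/-- second correction to the mean cluster size -/
noncomputable def mu2 (c : ℝ) : ℝ :=
  (2 * c ^ 2 + (1 / 2) * c ^ 5 - (4 / 3) * c ^ 6 + (2 / 3) * c ^ 7 - (1 / 12) * c ^ 8) / (1 - c) ^ 7

section
variable {X : Type} (n : X → ℕ) (p : X → ℝ) (hn : ∀ i, 40 ≤ n i) (hp : ∀ i, 0 ≤ p i)
  (hc : ∀ i, p i * n i ≤ 1 / 4)
include hn hp hc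

lemma p_small (i : X) : p i ≤ 1 / 160 := by
  have h1 : (40 : ℝ) ≤ n i := by exact_mod_cast hn i
  have := hc i
  have := hp i
  nlinarith

lemma moment_bd (r : ℕ) : Bd (fun i => En (p i) (n i) (fun k => (k : ℝ) ^ r * (11 / 10) ^ k)) := by
  obtain ⟨C, h0, hC⟩ := poly_le_exp r
  refine ⟨C * 2, fun i => ?_⟩
  have h1 := p_small n p hn hp hc i
  refine (En_abs_le (hp i) (by linarith) (g := fun k => C * (3 / 2) ^ k) fun k _ _ => ?_).trans ?_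
  · rw [abs_of_nonneg (by positivity)]; exact hC k
  · rw [En_mul_left]
    exact mul_le_mul_of_nonneg_left (En_exp (hp i) (by have := hn i; omega) (hc i)) h0

lemma moment_bd' (r : ℕ) : Bd (fun i => En (p i) (n i) (fun k => (k : ℝ) ^ r)) := by
  obtain ⟨C, hC⟩ := moment_bd n p hn hp hc r
  refine ⟨C, fun i => le_trans ?_ ((le_abs_self _).trans (hC i))⟩
  have h1 := p_small n p hn hp hc i
  refine En_abs_le (hp i) (by linarith) fun k _ _ => ?_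
  rw [abs_of_nonneg (by positivity)]
  exact le_mul_of_one_le_right (by positivity) (one_le_pow₀ (by norm_num))

lemma err_bd (j : ℕ) (hj : j ≤ 3) (pre : X → ℕ → ℝ)
    (hpre : ∀ i k, 1 ≤ k → k ≤ n i → |pre i k| ≤ 1) :
    ∃ e : X → ℝ, Bd e ∧ ∀ i, En (p i) (n i) (fun k => pre i k * (1 - p i)⁻¹ ^ (j * k)) =
      En (p i) (n i) (fun k => pre i k * T3 (p i) ((j : ℝ) * k)) + (1 / (n i : ℝ)) ^ 4 * e i := by
  obtain ⟨C, hC⟩ := moment_bd n p hn hp hc 4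
  have hz : ∀ i, (0 : ℝ) < (1 / (n i : ℝ)) ^ 4 := fun i => by
    have : (0 : ℝ) < n i := by exact_mod_cast (by have := hn i; omega : 0 < n i)
    positivity
  obtain ⟨b, hb, e⟩ : OO (fun i => (1 / (n i : ℝ)) ^ 4) (fun i => En (p i) (n i)
      (fun k => pre i k * (1 - p i)⁻¹ ^ (j * k) - pre i k * T3 (p i) ((j : ℝ) * k))) := by
    refine OO.of_le hz C fun i => ?_
    have h1 := p_small n p hn hp hc i
    have h2 : (0 : ℝ) < n i := by exact_mod_cast (by have := hn i; omega : 0 < n i)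
    refine (En_abs_le (hp i) (by linarith)
      (g := fun k => (1 / (n i : ℝ)) ^ 4 * ((k : ℝ) ^ 4 * (11 / 10) ^ k)) fun k k1 k2 => ?_).trans ?_
    · have t := taylor_inv (hp i) (by linarith) (j * k)
      push_cast at t
      rw [← mul_sub, abs_mul, abs_of_nonneg t.1]
      have u1 : (1 - p i)⁻¹ ≤ 160 / 159 := by
        rw [inv_le_comm₀ (by linarith) (by norm_num)]; linarith
      have u0 : 1 ≤ (1 - p i)⁻¹ := one_le_inv₀ (by linarith) |>.2 (by linarith [hp i])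
      have u2 : (1 - p i)⁻¹ ^ (j * k) ≤ (11 / 10) ^ k := by
        rw [pow_mul]
        refine pow_le_pow_left₀ (by positivity) ?_ k
        calc _ ≤ (1 - p i)⁻¹ ^ 3 := pow_le_pow_right₀ u0 hj
          _ ≤ (160 / 159) ^ 3 := pow_le_pow_left₀ (by positivity) u1 3
          _ ≤ _ := by norm_num
      have u3 : p i * ((j : ℝ) * k) ≤ 1 / (n i : ℝ) * k := by
        have v1 : (j : ℝ) ≤ 3 := by exact_mod_cast hj
        have v2 : p i * j ≤ 1 / (n i : ℝ) := by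
          rw [le_div_iff₀ h2]
          have := hc i
          have := mul_nonneg (hp i) h2.le
          nlinarith
        rw [← mul_assoc]
        exact mul_le_mul_of_nonneg_right v2 (Nat.cast_nonneg _)
      have u4 : (p i * ((j : ℝ) * k)) ^ 4 ≤ (1 / (n i : ℝ) * k) ^ 4 :=
        pow_le_pow_left₀ (by have := hp i; positivity) u3 4
      calc _ ≤ 1 * ((1 / (n i : ℝ) * k) ^ 4 * (11 / 10) ^ k) :=
            mul_le_mul (hpre i k k1 k2) (t.2.trans (mul_le_mul u4 u2 (by positivity)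
              (by positivity))) t.1 zero_le_one
        _ = _ := by ring
    · rw [En_mul_left, mul_comm]
      exact mul_le_mul_of_nonneg_right ((le_abs_self _).trans (hC i)) (hz i).le
  refine ⟨b, hb, fun i => ?_⟩
  have := e i
  simp only [En_sub] at this
  linarith

theorem er_expansion :
    (∃ b : X → ℝ, Bd b ∧ ∀ i, En (p i) (n i) (fun k => (k : ℝ)) =
      (1 - p i * n i)⁻¹ + 1 / (n i : ℝ) * mu1 (p i * n i) + (1 / (n i : ℝ)) ^ 2 * mu2 (p i * n i) +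
        (1 / (n i : ℝ)) ^ 3 * b i) ∧
    (∃ b : X → ℝ, Bd b ∧ ∀ i, En (p i) (n i) (fun k => (k : ℝ) * (k - 1)) =
      (1 - p i * n i)⁻¹ ^ 3 - (1 - p i * n i)⁻¹ + 1 / (n i : ℝ) * b i) := by
  have n0 : ∀ i, (40 : ℝ) ≤ n i := fun i => by exact_mod_cast hn i
  have p1 : ∀ i, p i < 1 := fun i => by have := p_small n p hn hp hc i; linarith
  obtain ⟨z, hz⟩ : ∃ z : X → ℝ, ∀ i, z i = 1 / (n i : ℝ) := ⟨_, fun _ => rfl⟩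
  obtain ⟨c, hc'⟩ : ∃ c : X → ℝ, ∀ i, c i = p i * n i := ⟨_, fun _ => rfl⟩
  obtain ⟨x, hx⟩ : ∃ x : X → ℝ, ∀ i, x i = (1 - c i)⁻¹ := ⟨_, fun _ => rfl⟩
  have z0 : ∀ i, 0 < z i := fun i => by rw [hz]; have := n0 i; positivity
  have zn : ∀ i, z i * n i = 1 := fun i => by rw [hz]; have := n0 i; field_simp
  have z1 : ∀ i, z i ≤ 1 / 40 := fun i => by
    have := zn i; have := z0 i; have := n0 i; nlinarith
  have pc : ∀ i, p i = c i * z i := fun i => by rw [hc', mul_assoc, mul_comm _ (z i), zn, mul_one]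
  have c0 : ∀ i, 0 ≤ c i := fun i => by rw [hc']; have := hp i; positivity
  have c1 : ∀ i, c i ≤ 1 / 4 := fun i => by rw [hc']; exact hc i
  have bz : Bd z := Bd.of_le 1 (fun i => (z0 i).le) fun i => by have := z1 i; linarith
  have bc : Bd c := Bd.of_le 1 c0 fun i => by have := c1 i; linarith
  have bx : Bd x := Bd.of_le 2 (fun i => by rw [hx]; have := c1 i; exact inv_nonneg.2 (by linarith))
    fun i => by rw [hx]; have := c1 i; rw [inv_le_comm₀ (by linarith) (by norm_num)]; linarith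
  have pre1 : ∀ i (k : ℕ) (t : ℝ), 0 ≤ t → t ≤ 2 → k ≤ n i → |1 - (k + t) * z i| ≤ 1 := by
    intro i k t t0 t2 hk
    have a1 : (k : ℝ) ≤ n i := by exact_mod_cast hk
    have a2 : (0 : ℝ) ≤ k := Nat.cast_nonneg _
    have := zn i; have := z0 i; have := z1 i
    rw [abs_le]; constructor <;> nlinarith
  obtain ⟨e1, be1, he1⟩ := err_bd n p hn hp hc 1 (by omega) (fun i k => 1 - (k + 0) * z i)
    fun i k _ hk => pre1 i k 0 le_rfl (by norm_num) hk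
  obtain ⟨e2, be2, he2⟩ := err_bd n p hn hp hc 2 (by omega)
    (fun i k => (1 - (k + 0) * z i) * (1 - (k + 1) * z i)) fun i k _ hk => by
      rw [abs_mul]
      exact mul_le_one₀ (pre1 i k 0 le_rfl (by norm_num) hk) (abs_nonneg _)
        (pre1 i k 1 (by norm_num) (by norm_num) hk)
  obtain ⟨e3, be3, he3⟩ := err_bd n p hn hp hc 3 (by omega)
    (fun i k => (1 - (k + 0) * z i) * (1 - (k + 1) * z i) * (1 - (k + 2) * z i)) fun i k _ hk => by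
      rw [abs_mul, abs_mul]
      exact mul_le_one₀ (mul_le_one₀ (pre1 i k 0 le_rfl (by norm_num) hk) (abs_nonneg _)
        (pre1 i k 1 (by norm_num) (by norm_num) hk)) (abs_nonneg _)
        (pre1 i k 2 (by norm_num) (by norm_num) hk)
  have id0 : ∀ i (m : ℕ) (f : ℕ → ℝ), 1 ≤ m → En (p i) m
      (fun k => ((m : ℝ) - k) * (1 - p i)⁻¹ ^ k * f k) = ((m : ℝ) - 1) * En (p i) (m - 1) f := by
    intro i m f hm
    have := En_step (p1 i) (m - 1) f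
    rw [show m - 1 + 1 = m by omega, Nat.cast_sub hm] at this
    simpa using this
  have id1 : ∀ i (m : ℕ), 2 ≤ m → En (p i) m
      (fun k => ((m : ℝ) - k) * (1 - p i)⁻¹ ^ k) = (m : ℝ) - 1 := by
    intro i m hm
    have := id0 i m (fun _ => 1) (by omega)
    rw [En_one _ (by omega)] at this
    simpa using this
  have id2 : ∀ i (m : ℕ), 3 ≤ m → En (p i) m
      (fun k => ((m : ℝ) - k) * ((m : ℝ) - 1 - k) * (1 - p i)⁻¹ ^ (2 * k)) =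
        ((m : ℝ) - 1) * (m - 2) := by
    intro i m hm
    have := id0 i m (fun k => (((m - 1 : ℕ) : ℝ) - k) * (1 - p i)⁻¹ ^ k) (by omega)
    rw [id1 i (m - 1) (by omega), Nat.cast_sub (by omega)] at this
    push_cast at this
    rw [show ((m : ℝ) - 1) * (m - 2) = (m - 1) * (m - 1 - 1) by ring, ← this]
    exact En_congr fun k _ _ => by ring
  have id3 : ∀ i (m : ℕ), 4 ≤ m → En (p i) m
      (fun k => ((m : ℝ) - k) * ((m : ℝ) - 1 - k) * ((m : ℝ) - 2 - k) * (1 - p i)⁻¹ ^ (3 * k)) =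
        ((m : ℝ) - 1) * (m - 2) * (m - 3) := by
    intro i m hm
    have := id0 i m (fun k => (((m - 1 : ℕ) : ℝ) - k) * (((m - 1 : ℕ) : ℝ) - 1 - k) *
      (1 - p i)⁻¹ ^ (2 * k)) (by omega)
    rw [id2 i (m - 1) (by omega), Nat.cast_sub (by omega)] at this
    push_cast at this
    rw [show ((m : ℝ) - 1) * (m - 2) * (m - 3) = (m - 1) * ((m - 1 - 1) * (m - 1 - 2)) by ring,
      ← this]
    exact En_congr fun k _ _ => by ring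
  obtain ⟨m1, hm1⟩ : ∃ m : X → ℝ, m = fun i => En (p i) (n i) (fun k => (k : ℝ) ^ 1) := ⟨_, rfl⟩
  obtain ⟨m2, hm2⟩ : ∃ m : X → ℝ, m = fun i => En (p i) (n i) (fun k => (k : ℝ) ^ 2) := ⟨_, rfl⟩
  obtain ⟨m3, hm3⟩ : ∃ m : X → ℝ, m = fun i => En (p i) (n i) (fun k => (k : ℝ) ^ 3) := ⟨_, rfl⟩
  obtain ⟨m4, hm4⟩ : ∃ m : X → ℝ, m = fun i => En (p i) (n i) (fun k => (k : ℝ) ^ 4) := ⟨_, rfl⟩
  obtain ⟨m5, hm5⟩ : ∃ m : X → ℝ, m = fun i => En (p i) (n i) (fun k => (k : ℝ) ^ 5) := ⟨_, rfl⟩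
  obtain ⟨m6, hm6⟩ : ∃ m : X → ℝ, m = fun i => En (p i) (n i) (fun k => (k : ℝ) ^ 6) := ⟨_, rfl⟩
  have bm1 : Bd m1 := hm1 ▸ moment_bd' n p hn hp hc 1
  have bm2 : Bd m2 := hm2 ▸ moment_bd' n p hn hp hc 2
  have bm3 : Bd m3 := hm3 ▸ moment_bd' n p hn hp hc 3
  have bm4 : Bd m4 := hm4 ▸ moment_bd' n p hn hp hc 4
  have bm5 : Bd m5 := hm5 ▸ moment_bd' n p hn hp hc 5
  have bm6 : Bd m6 := hm6 ▸ moment_bd' n p hn hp hc 6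
  have poly : ∀ i (a0 a1 a2 a3 a4 a5 a6 : ℝ) (f : ℕ → ℝ),
      (∀ k : ℕ, f k = a0 + a1 * (k : ℝ) ^ 1 + a2 * (k : ℝ) ^ 2 + a3 * (k : ℝ) ^ 3 +
      a4 * (k : ℝ) ^ 4 + a5 * (k : ℝ) ^ 5 + a6 * (k : ℝ) ^ 6) → En (p i) (n i) f =
      a0 + a1 * m1 i + a2 * m2 i + a3 * m3 i + a4 * m4 i + a5 * m5 i + a6 * m6 i := by
    intro i a0 a1 a2 a3 a4 a5 a6 f hf
    rw [funext hf, En_poly _ (by have := hn i; omega), hm1, hm2, hm3, hm4, hm5, hm6]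
  have q1 : ∀ i, En (p i) (n i) (fun k => (1 - (k + 0) * z i) * (1 - p i)⁻¹ ^ (1 * k)) =
      1 - z i := by
    intro i
    have := id1 i (n i) (by have := hn i; omega)
    have h2 := En_mul_left (p i) (n i) (z i) (fun k => ((n i : ℝ) - k) * (1 - p i)⁻¹ ^ k)
    rw [this] at h2
    rw [show 1 - z i = z i * (n i - 1) by linear_combination (-1) * zn i, ← h2]
    exact En_congr fun k _ _ => by
      rw [one_mul]; linear_combination (-(1 - p i)⁻¹ ^ k) * zn i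
  have q2 : ∀ i, En (p i) (n i) (fun k => (1 - (k + 0) * z i) * (1 - (k + 1) * z i) *
      (1 - p i)⁻¹ ^ (2 * k)) = (1 - z i) * (1 - 2 * z i) := by
    intro i
    have := id2 i (n i) (by have := hn i; omega)
    have h2 := En_mul_left (p i) (n i) (z i ^ 2)
      (fun k => ((n i : ℝ) - k) * ((n i : ℝ) - 1 - k) * (1 - p i)⁻¹ ^ (2 * k))
    rw [this] at h2
    have a : ∀ t : ℝ, 1 - t * z i = z i * (n i - t) := fun t => by linear_combination (-1) * zn i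
    rw [show (1 - z i) * (1 - 2 * z i) = z i ^ 2 * ((n i - 1) * (n i - 2)) by
      rw [a 2, ← one_mul (z i), a 1]; ring, ← h2]
    exact En_congr fun k _ _ => by rw [a, a]; ring
  have q3 : ∀ i, En (p i) (n i) (fun k => (1 - (k + 0) * z i) * (1 - (k + 1) * z i) *
      (1 - (k + 2) * z i) * (1 - p i)⁻¹ ^ (3 * k)) = (1 - z i) * (1 - 2 * z i) * (1 - 3 * z i) := by
    intro i
    have := id3 i (n i) (by have := hn i; omega)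
    have h2 := En_mul_left (p i) (n i) (z i ^ 3) (fun k => ((n i : ℝ) - k) * ((n i : ℝ) - 1 - k) *
      ((n i : ℝ) - 2 - k) * (1 - p i)⁻¹ ^ (3 * k))
    rw [this] at h2
    have a : ∀ t : ℝ, 1 - t * z i = z i * (n i - t) := fun t => by linear_combination (-1) * zn i
    rw [show (1 - z i) * (1 - 2 * z i) * (1 - 3 * z i) =
      z i ^ 3 * ((n i - 1) * (n i - 2) * (n i - 3)) by
      rw [a 2, a 3, ← one_mul (z i), a 1]; ring, ← h2]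
    exact En_congr fun k _ _ => by rw [a, a, a]; ring
  have M1 : ∀ i, m1 i = x i * (1 - c i * m2 i * z i + (1 / 2) * c i ^ 2 * m1 i * z i + (1 / 2) * c i ^ 2 * m2 i * z i - (1 / 2) * c i ^ 2 * m2 i * z i ^ 2 - (1 / 2) * c i ^ 2 * m3 i * z i ^ 2 + (1 / 3) * c i ^ 3 * m1 i * z i ^ 2 + (1 / 2) * c i ^ 3 * m2 i * z i ^ 2 - (1 / 3) * c i ^ 3 * m2 i * z i ^ 3 + (1 / 6) * c i ^ 3 * m3 i * z i ^ 2 - (1 / 2) * c i ^ 3 * m3 i * z i ^ 3 - (1 / 6) * c i ^ 3 * m4 i * z i ^ 3 + e1 i * z i ^ 3) := by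
    intro i
    have h := he1 i
    rw [q1, poly i (1) (c i * z i + (1 / 2) * c i ^ 2 * z i ^ 2 + (1 / 3) * c i ^ 3 * z i ^ 3 - z i) (-c i * z i ^ 2 + (1 / 2) * c i ^ 2 * z i ^ 2 - (1 / 2) * c i ^ 2 * z i ^ 3 + (1 / 2) * c i ^ 3 * z i ^ 3 - (1 / 3) * c i ^ 3 * z i ^ 4) (-(1 / 2) * c i ^ 2 * z i ^ 3 + (1 / 6) * c i ^ 3 * z i ^ 3 - (1 / 2) * c i ^ 3 * z i ^ 4) (-(1 / 6) * c i ^ 3 * z i ^ 4) (0) (0) _ fun k => by rw [pc i]; unfold T3; push_cast; ring, ← hz] at h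
    have h2 : (1 - c i) * m1 i = 1 - c i * m2 i * z i + (1 / 2) * c i ^ 2 * m1 i * z i + (1 / 2) * c i ^ 2 * m2 i * z i - (1 / 2) * c i ^ 2 * m2 i * z i ^ 2 - (1 / 2) * c i ^ 2 * m3 i * z i ^ 2 + (1 / 3) * c i ^ 3 * m1 i * z i ^ 2 + (1 / 2) * c i ^ 3 * m2 i * z i ^ 2 - (1 / 3) * c i ^ 3 * m2 i * z i ^ 3 + (1 / 6) * c i ^ 3 * m3 i * z i ^ 2 - (1 / 2) * c i ^ 3 * m3 i * z i ^ 3 - (1 / 6) * c i ^ 3 * m4 i * z i ^ 3 + e1 i * z i ^ 3 :=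
      mul_left_cancel₀ (z0 i).ne' (by linear_combination h)
    rw [← h2, hx]
    have : 1 - c i ≠ 0 := by have := c1 i; linarith
    field_simp
  have M2 : ∀ i, m2 i = x i ^ 2 * (-2 * c i * m3 i * z i + 2 * c i ^ 2 * m2 i * z i + 3 * c i ^ 2 * m3 i * z i - 2 * c i ^ 2 * m3 i * z i ^ 2 - 2 * c i ^ 2 * m4 i * z i ^ 2 - c i ^ 3 * m2 i * z i + (5 / 3) * c i ^ 3 * m2 i * z i ^ 2 - c i ^ 3 * m3 i * z i + 4 * c i ^ 3 * m3 i * z i ^ 2 - (5 / 3) * c i ^ 3 * m3 i * z i ^ 3 + (7 / 3) * c i ^ 3 * m4 i * z i ^ 2 - 3 * c i ^ 3 * m4 i * z i ^ 3 - (4 / 3) * c i ^ 3 * m5 i * z i ^ 3 + 2 * e1 i * z i ^ 2 - 2 * e1 i * z i ^ 3 - e2 i * z i ^ 2 + m1 i) := by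
    intro i
    have h := he1 i
    rw [q1, poly i (1) (c i * z i + (1 / 2) * c i ^ 2 * z i ^ 2 + (1 / 3) * c i ^ 3 * z i ^ 3 - z i) (-c i * z i ^ 2 + (1 / 2) * c i ^ 2 * z i ^ 2 - (1 / 2) * c i ^ 2 * z i ^ 3 + (1 / 2) * c i ^ 3 * z i ^ 3 - (1 / 3) * c i ^ 3 * z i ^ 4) (-(1 / 2) * c i ^ 2 * z i ^ 3 + (1 / 6) * c i ^ 3 * z i ^ 3 - (1 / 2) * c i ^ 3 * z i ^ 4) (-(1 / 6) * c i ^ 3 * z i ^ 4) (0) (0) _ fun k => by rw [pc i]; unfold T3; push_cast; ring, ← hz] at h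
    have h' := he2 i
    rw [q2, poly i (1 - z i) (2 * c i * z i - 2 * c i * z i ^ 2 + c i ^ 2 * z i ^ 2 - c i ^ 2 * z i ^ 3 + (2 / 3) * c i ^ 3 * z i ^ 3 - (2 / 3) * c i ^ 3 * z i ^ 4 - 2 * z i + z i ^ 2) (-4 * c i * z i ^ 2 + 2 * c i * z i ^ 3 + 2 * c i ^ 2 * z i ^ 2 - 4 * c i ^ 2 * z i ^ 3 + c i ^ 2 * z i ^ 4 + 2 * c i ^ 3 * z i ^ 3 - (10 / 3) * c i ^ 3 * z i ^ 4 + (2 / 3) * c i ^ 3 * z i ^ 5 + z i ^ 2) (2 * c i * z i ^ 3 - 4 * c i ^ 2 * z i ^ 3 + 3 * c i ^ 2 * z i ^ 4 + (4 / 3) * c i ^ 3 * z i ^ 3 - (16 / 3) * c i ^ 3 * z i ^ 4 + (8 / 3) * c i ^ 3 * z i ^ 5) (2 * c i ^ 2 * z i ^ 4 - (8 / 3) * c i ^ 3 * z i ^ 4 + (10 / 3) * c i ^ 3 * z i ^ 5) ((4 / 3) * c i ^ 3 * z i ^ 5) (0) _ fun k => by rw [pc i]; unfold T3; push_cast; ring, ← hz] at h'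
    have h2 : (1 - c i) ^ 2 * m2 i = -2 * c i * m3 i * z i + 2 * c i ^ 2 * m2 i * z i + 3 * c i ^ 2 * m3 i * z i - 2 * c i ^ 2 * m3 i * z i ^ 2 - 2 * c i ^ 2 * m4 i * z i ^ 2 - c i ^ 3 * m2 i * z i + (5 / 3) * c i ^ 3 * m2 i * z i ^ 2 - c i ^ 3 * m3 i * z i + 4 * c i ^ 3 * m3 i * z i ^ 2 - (5 / 3) * c i ^ 3 * m3 i * z i ^ 3 + (7 / 3) * c i ^ 3 * m4 i * z i ^ 2 - 3 * c i ^ 3 * m4 i * z i ^ 3 - (4 / 3) * c i ^ 3 * m5 i * z i ^ 3 + 2 * e1 i * z i ^ 2 - 2 * e1 i * z i ^ 3 - e2 i * z i ^ 2 + m1 i :=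
      mul_left_cancel₀ (pow_ne_zero 2 (z0 i).ne') (by linear_combination 2 * (1 - z i) * h - h')
    rw [← h2, hx]
    have : 1 - c i ≠ 0 := by have := c1 i; linarith
    field_simp
  have M3 : ∀ i, m3 i = x i ^ 3 * (-3 * c i * m2 i + 3 * c i * m3 i * z i - 3 * c i * m4 i * z i - (3 / 2) * c i ^ 2 * m2 i * z i + 3 * c i ^ 2 * m3 i * z i + (3 / 2) * c i ^ 2 * m3 i * z i ^ 2 + (15 / 2) * c i ^ 2 * m4 i * z i - 3 * c i ^ 2 * m4 i * z i ^ 2 - (9 / 2) * c i ^ 2 * m5 i * z i ^ 2 - c i ^ 3 * m2 i * z i ^ 2 - 6 * c i ^ 3 * m3 i * z i + (9 / 2) * c i ^ 3 * m3 i * z i ^ 2 + c i ^ 3 * m3 i * z i ^ 3 - 6 * c i ^ 3 * m4 i * z i + 16 * c i ^ 3 * m4 i * z i ^ 2 - (9 / 2) * c i ^ 3 * m4 i * z i ^ 3 + (19 / 2) * c i ^ 3 * m5 i * z i ^ 2 - 10 * c i ^ 3 * m5 i * z i ^ 3 - (9 / 2) * c i ^ 3 * m6 i * z i ^ 3 + 3 * e1 i * z i - 9 * e1 i * z i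 ^ 2 + 6 * e1 i * z i ^ 3 - 3 * e2 i * z i + 6 * e2 i * z i ^ 2 + e3 i * z i - 2 * m1 i + 3 * m2 i) := by
    intro i
    have h := he1 i
    rw [q1, poly i (1) (c i * z i + (1 / 2) * c i ^ 2 * z i ^ 2 + (1 / 3) * c i ^ 3 * z i ^ 3 - z i) (-c i * z i ^ 2 + (1 / 2) * c i ^ 2 * z i ^ 2 - (1 / 2) * c i ^ 2 * z i ^ 3 + (1 / 2) * c i ^ 3 * z i ^ 3 - (1 / 3) * c i ^ 3 * z i ^ 4) (-(1 / 2) * c i ^ 2 * z i ^ 3 + (1 / 6) * c i ^ 3 * z i ^ 3 - (1 / 2) * c i ^ 3 * z i ^ 4) (-(1 / 6) * c i ^ 3 * z i ^ 4) (0) (0) _ fun k => by rw [pc i]; unfold T3; push_cast; ring, ← hz] at h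
    have h' := he2 i
    rw [q2, poly i (1 - z i) (2 * c i * z i - 2 * c i * z i ^ 2 + c i ^ 2 * z i ^ 2 - c i ^ 2 * z i ^ 3 + (2 / 3) * c i ^ 3 * z i ^ 3 - (2 / 3) * c i ^ 3 * z i ^ 4 - 2 * z i + z i ^ 2) (-4 * c i * z i ^ 2 + 2 * c i * z i ^ 3 + 2 * c i ^ 2 * z i ^ 2 - 4 * c i ^ 2 * z i ^ 3 + c i ^ 2 * z i ^ 4 + 2 * c i ^ 3 * z i ^ 3 - (10 / 3) * c i ^ 3 * z i ^ 4 + (2 / 3) * c i ^ 3 * z i ^ 5 + z i ^ 2) (2 * c i * z i ^ 3 - 4 * c i ^ 2 * z i ^ 3 + 3 * c i ^ 2 * z i ^ 4 + (4 / 3) * c i ^ 3 * z i ^ 3 - (16 / 3) * c i ^ 3 * z i ^ 4 + (8 / 3) * c i ^ 3 * z i ^ 5) (2 * c i ^ 2 * z i ^ 4 - (8 / 3) * c i ^ 3 * z i ^ 4 + (10 / 3) * c i ^ 3 * z i ^ 5) ((4 / 3) * c i ^ 3 * z i ^ 5) (0) _ fun k => by rw [pc i]; unfold T3; push_cast; ring, ← hz] at h'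
    have h'' := he3 i
    rw [q3, poly i (1 - 3 * z i + 2 * z i ^ 2) (3 * c i * z i - 9 * c i * z i ^ 2 + 6 * c i * z i ^ 3 + (3 / 2) * c i ^ 2 * z i ^ 2 - (9 / 2) * c i ^ 2 * z i ^ 3 + 3 * c i ^ 2 * z i ^ 4 + c i ^ 3 * z i ^ 3 - 3 * c i ^ 3 * z i ^ 4 + 2 * c i ^ 3 * z i ^ 5 - 3 * z i + 6 * z i ^ 2 - 2 * z i ^ 3) (-9 * c i * z i ^ 2 + 18 * c i * z i ^ 3 - 6 * c i * z i ^ 4 + (9 / 2) * c i ^ 2 * z i ^ 2 - 18 * c i ^ 2 * z i ^ 3 + 18 * c i ^ 2 * z i ^ 4 - 3 * c i ^ 2 * z i ^ 5 + (9 / 2) * c i ^ 3 * z i ^ 3 - (33 / 2) * c i ^ 3 * z i ^ 4 + 15 * c i ^ 3 * z i ^ 5 - 2 * c i ^ 3 * z i ^ 6 + 3 * z i ^ 2 - 3 * z i ^ 3) (9 * c i * z i ^ 3 - 9 * c i * z i ^ 4 - (27 / 2) * c i ^ 2 * z i ^ 3 + (63 / 2) * c i ^ 2 * z i ^ 4 - (27 / 2) * c i ^ 2 * z i ^ 5 + (9 / 2) * c i ^ 3 * z i ^ 3 - 27 * c i ^ 3 * z i ^ 4 + 39 * c i ^ 3 * z i ^ 5 -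 12 * c i ^ 3 * z i ^ 6 - z i ^ 3) (-3 * c i * z i ^ 4 + (27 / 2) * c i ^ 2 * z i ^ 4 - 15 * c i ^ 2 * z i ^ 5 - (27 / 2) * c i ^ 3 * z i ^ 4 + (81 / 2) * c i ^ 3 * z i ^ 5 - (47 / 2) * c i ^ 3 * z i ^ 6) (-(9 / 2) * c i ^ 2 * z i ^ 5 + (27 / 2) * c i ^ 3 * z i ^ 5 - 18 * c i ^ 3 * z i ^ 6) (-(9 / 2) * c i ^ 3 * z i ^ 6) _ fun k => by rw [pc i]; unfold T3; push_cast; ring, ← hz] at h''
    have h2 : (1 - c i) ^ 3 * m3 i = -3 * c i * m2 i + 3 * c i * m3 i * z i - 3 * c i * m4 i * z i - (3 / 2) * c i ^ 2 * m2 i * z i + 3 * c i ^ 2 * m3 i * z i + (3 / 2) * c i ^ 2 * m3 i * z i ^ 2 + (15 / 2) * c i ^ 2 * m4 i * z i - 3 * c i ^ 2 * m4 i * z i ^ 2 - (9 / 2) * c i ^ 2 * m5 i * z i ^ 2 - c i ^ 3 * m2 i * z i ^ 2 - 6 * c i ^ 3 * m3 i * z i + (9 / 2) * c i ^ 3 * m3 i * z i ^ 2 + c i ^ 3 * m3 i * z i ^ 3 - 6 * c i ^ 3 * m4 i * z i +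 16 * c i ^ 3 * m4 i * z i ^ 2 - (9 / 2) * c i ^ 3 * m4 i * z i ^ 3 + (19 / 2) * c i ^ 3 * m5 i * z i ^ 2 - 10 * c i ^ 3 * m5 i * z i ^ 3 - (9 / 2) * c i ^ 3 * m6 i * z i ^ 3 + 3 * e1 i * z i - 9 * e1 i * z i ^ 2 + 6 * e1 i * z i ^ 3 - 3 * e2 i * z i + 6 * e2 i * z i ^ 2 + e3 i * z i - 2 * m1 i + 3 * m2 i :=
      mul_left_cancel₀ (pow_ne_zero 3 (z0 i).ne') (by
        linear_combination 3 * (1 - z i) * (1 - 2 * z i) * h - 3 * (1 - 2 * z i) * h' + h'')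
    rw [← h2, hx]
    have : 1 - c i ≠ 0 := by have := c1 i; linarith
    field_simp
  obtain ⟨b1, hb1, k1⟩ : ∃ b : X → ℝ, Bd b ∧ ∀ i, m1 i - x i = z i ^ 1 * b i :=
    ⟨fun i => -c i * m2 i * x i + (1 / 2) * c i ^ 2 * m1 i * x i + (1 / 2) * c i ^ 2 * m2 i * x i - (1 / 2) * c i ^ 2 * m2 i * x i * z i - (1 / 2) * c i ^ 2 * m3 i * x i * z i + (1 / 3) * c i ^ 3 * m1 i * x i * z i + (1 / 2) * c i ^ 3 * m2 i * x i * z i - (1 / 3) * c i ^ 3 * m2 i * x i * z i ^ 2 + (1 / 6) * c i ^ 3 * m3 i * x i * z i - (1 / 2) * c i ^ 3 * m3 i * x i * z i ^ 2 - (1 / 6) * c i ^ 3 * m4 i * x i * z i ^ 2 + e1 i * x i * z i ^ 2, by fun_prop, fun i => by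
      linear_combination M1 i⟩
  obtain ⟨b2, hb2, k2⟩ : ∃ b : X → ℝ, Bd b ∧ ∀ i, m2 i - (x i ^ 3) = z i ^ 1 * b i :=
    ⟨fun i => b1 i * x i ^ 2 - 2 * c i * m3 i * x i ^ 2 + 2 * c i ^ 2 * m2 i * x i ^ 2 + 3 * c i ^ 2 * m3 i * x i ^ 2 - 2 * c i ^ 2 * m3 i * x i ^ 2 * z i - 2 * c i ^ 2 * m4 i * x i ^ 2 * z i - c i ^ 3 * m2 i * x i ^ 2 + (5 / 3) * c i ^ 3 * m2 i * x i ^ 2 * z i - c i ^ 3 * m3 i * x i ^ 2 + 4 * c i ^ 3 * m3 i * x i ^ 2 * z i - (5 / 3) * c i ^ 3 * m3 i * x i ^ 2 * z i ^ 2 + (7 / 3) * c i ^ 3 * m4 i * x i ^ 2 * z i - 3 * c i ^ 3 * m4 i * x i ^ 2 * z i ^ 2 - (4 / 3) * c i ^ 3 * m5 i * x i ^ 2 * z i ^ 2 + 2 * e1 i * x i ^ 2 * z i - 2 * e1 i * x i ^ 2 * z i ^ 2 - e2 i * x i ^ 2 * z i, by fun_prop, fun i => by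
      linear_combination M2 i + (x i ^ 2) * k1 i⟩
  obtain ⟨b3, hb3, k3⟩ : ∃ b : X → ℝ, Bd b ∧ ∀ i, m3 i - (-3 * c i * x i ^ 6 - 2 * x i ^ 4 + 3 * x i ^ 6) = z i ^ 1 * b i :=
    ⟨fun i => -2 * b1 i * x i ^ 3 - 3 * b2 i * c i * x i ^ 3 + 3 * b2 i * x i ^ 3 + 3 * c i * m3 i * x i ^ 3 - 3 * c i * m4 i * x i ^ 3 - (3 / 2) * c i ^ 2 * m2 i * x i ^ 3 + 3 * c i ^ 2 * m3 i * x i ^ 3 + (3 / 2) * c i ^ 2 * m3 i * x i ^ 3 * z i + (15 / 2) * c i ^ 2 * m4 i * x i ^ 3 - 3 * c i ^ 2 * m4 i * x i ^ 3 * z i - (9 / 2) * c i ^ 2 * m5 i * x i ^ 3 * z i - c i ^ 3 * m2 i * x i ^ 3 * z i - 6 * c i ^ 3 * m3 i * x i ^ 3 + (9 / 2) * c i ^ 3 * m3 i * x i ^ 3 * z i + c i ^ 3 * m3 i * x i ^ 3 * z i ^ 2 - 6 * c i ^ 3 * m4 i * x i ^ 3 + 16 * c i ^ 3 * m4 i * x i ^ 3 * z i - (9 / 2) * c i ^ 3 * m4 i * x i ^ 3 * z i ^ 2 + (19 / 2) * c i ^ 3 * m5 i * x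 i ^ 3 * z i - 10 * c i ^ 3 * m5 i * x i ^ 3 * z i ^ 2 - (9 / 2) * c i ^ 3 * m6 i * x i ^ 3 * z i ^ 2 + 3 * e1 i * x i ^ 3 - 9 * e1 i * x i ^ 3 * z i + 6 * e1 i * x i ^ 3 * z i ^ 2 - 3 * e2 i * x i ^ 3 + 6 * e2 i * x i ^ 3 * z i + e3 i * x i ^ 3, by fun_prop, fun i => by
      linear_combination M3 i + (-2 * x i ^ 3) * k1 i + (-3 * c i * x i ^ 3 + 3 * x i ^ 3) * k2 i⟩
  obtain ⟨b4, hb4, k4⟩ : ∃ b : X → ℝ, Bd b ∧ ∀ i, m1 i - (x i + z i * (-c i * x i ^ 4 + (1 / 2) * c i ^ 2 * x i ^ 2 + (1 / 2) * c i ^ 2 * x i ^ 4)) = z i ^ 2 * b i :=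
    ⟨fun i => (1 / 2) * b1 i * c i ^ 2 * x i - b2 i * c i * x i + (1 / 2) * b2 i * c i ^ 2 * x i - (1 / 2) * c i ^ 2 * m2 i * x i - (1 / 2) * c i ^ 2 * m3 i * x i + (1 / 3) * c i ^ 3 * m1 i * x i + (1 / 2) * c i ^ 3 * m2 i * x i - (1 / 3) * c i ^ 3 * m2 i * x i * z i + (1 / 6) * c i ^ 3 * m3 i * x i - (1 / 2) * c i ^ 3 * m3 i * x i * z i - (1 / 6) * c i ^ 3 * m4 i * x i * z i + e1 i * x i * z i, by fun_prop, fun i => by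
      linear_combination M1 i + ((1 / 2) * c i ^ 2 * x i * z i) * k1 i + (-c i * x i * z i + (1 / 2) * c i ^ 2 * x i * z i) * k2 i⟩
  obtain ⟨b5, hb5, k5⟩ : ∃ b : X → ℝ, Bd b ∧ ∀ i, m2 i - (x i ^ 3 + z i * (3 * c i * x i ^ 6 - 6 * c i * x i ^ 8 + (1 / 2) * c i ^ 2 * x i ^ 4 + 2 * c i ^ 2 * x i ^ 5 - (11 / 2) * c i ^ 2 * x i ^ 6 + 15 * c i ^ 2 * x i ^ 8 - c i ^ 3 * x i ^ 5 + 2 * c i ^ 3 * x i ^ 6 - 12 * c i ^ 3 * x i ^ 8 + 3 * c i ^ 4 * x i ^ 8)) = z i ^ 2 * b i :=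
    ⟨fun i => 2 * b2 i * c i ^ 2 * x i ^ 2 - b2 i * c i ^ 3 * x i ^ 2 - 2 * b3 i * c i * x i ^ 2 + 3 * b3 i * c i ^ 2 * x i ^ 2 - b3 i * c i ^ 3 * x i ^ 2 + b4 i * x i ^ 2 - 2 * c i ^ 2 * m3 i * x i ^ 2 - 2 * c i ^ 2 * m4 i * x i ^ 2 + (5 / 3) * c i ^ 3 * m2 i * x i ^ 2 + 4 * c i ^ 3 * m3 i * x i ^ 2 - (5 / 3) * c i ^ 3 * m3 i * x i ^ 2 * z i + (7 / 3) * c i ^ 3 * m4 i * x i ^ 2 - 3 * c i ^ 3 * m4 i * x i ^ 2 * z i - (4 / 3) * c i ^ 3 * m5 i * x i ^ 2 * z i + 2 * e1 i * x i ^ 2 - 2 * e1 i * x i ^ 2 * z i - e2 i * x i ^ 2, by fun_prop, fun i => by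
      linear_combination M2 i + (x i ^ 2) * k4 i + (2 * c i ^ 2 * x i ^ 2 * z i - c i ^ 3 * x i ^ 2 * z i) * k2 i + (-2 * c i * x i ^ 2 * z i + 3 * c i ^ 2 * x i ^ 2 * z i - c i ^ 3 * x i ^ 2 * z i) * k3 i⟩
  obtain ⟨b6, hb6, k6⟩ : ∃ b : X → ℝ, Bd b ∧ ∀ i, m1 i - (x i + z i * (-c i * x i ^ 4 + (1 / 2) * c i ^ 2 * x i ^ 2 + (1 / 2) * c i ^ 2 * x i ^ 4) + z i ^ 2 * (-(1 / 2) * c i ^ 2 * x i ^ 4 + c i ^ 2 * x i ^ 5 - (9 / 2) * c i ^ 2 * x i ^ 7 + 6 * c i ^ 2 * x i ^ 9 + (1 / 3) * c i ^ 3 * x i ^ 2 + (1 / 2) * c i ^ 3 * x i ^ 4 - (4 / 3) * c i ^ 3 * x i ^ 5 - 2 * c i ^ 3 * x i ^ 6 + 9 * c i ^ 3 * x i ^ 7 - 18 * c i ^ 3 * x i ^ 9 + (1 / 4) * c i ^ 4 * x i ^ 3 + (1 / 2) * c i ^ 4 * x i ^ 5 + 2 * c i ^ 4 * x i ^ 6 - (21 / 4) * c i ^ 4 * x i ^ 7 + (39 / 2) * c i ^ 4 * x i ^ 9 - (1 / 2) * c i ^ 5 * x i ^ 6 + c i ^ 5 * x i ^ 7 - 9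 * c i ^ 5 * x i ^ 9 + (3 / 2) * c i ^ 6 * x i ^ 9)) = z i ^ 3 * b i :=
    ⟨fun i => (1 / 3) * b1 i * c i ^ 3 * x i - (1 / 2) * b2 i * c i ^ 2 * x i + (1 / 2) * b2 i * c i ^ 3 * x i - (1 / 2) * b3 i * c i ^ 2 * x i + (1 / 6) * b3 i * c i ^ 3 * x i + (1 / 2) * b4 i * c i ^ 2 * x i - b5 i * c i * x i + (1 / 2) * b5 i * c i ^ 2 * x i - (1 / 3) * c i ^ 3 * m2 i * x i - (1 / 2) * c i ^ 3 * m3 i * x i - (1 / 6) * c i ^ 3 * m4 i * x i + e1 i * x i, by fun_prop, fun i => by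
      linear_combination M1 i + ((1 / 2) * c i ^ 2 * x i * z i) * k4 i + (-c i * x i * z i + (1 / 2) * c i ^ 2 * x i * z i) * k5 i + ((1 / 3) * c i ^ 3 * x i * z i ^ 2) * k1 i + (-(1 / 2) * c i ^ 2 * x i * z i ^ 2 + (1 / 2) * c i ^ 3 * x i * z i ^ 2) * k2 i + (-(1 / 2) * c i ^ 2 * x i * z i ^ 2 + (1 / 6) * c i ^ 3 * x i * z i ^ 2) * k3 i⟩
  constructor
  · refine ⟨b6, hb6, fun i => ?_⟩
    have a1 : En (p i) (n i) (fun k => (k : ℝ)) = m1 i := by rw [hm1]; simp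
    have : 1 - c i ≠ 0 := by have := c1 i; linarith
    have a2 : mu1 (c i) = -c i * x i ^ 4 + (1 / 2) * c i ^ 2 * x i ^ 2 + (1 / 2) * c i ^ 2 * x i ^ 4 := by
      unfold mu1; rw [hx]; field_simp; ring
    have a3 : mu2 (c i) = -(1 / 2) * c i ^ 2 * x i ^ 4 + c i ^ 2 * x i ^ 5 - (9 / 2) * c i ^ 2 * x i ^ 7 + 6 * c i ^ 2 * x i ^ 9 + (1 / 3) * c i ^ 3 * x i ^ 2 + (1 / 2) * c i ^ 3 * x i ^ 4 - (4 / 3) * c i ^ 3 * x i ^ 5 - 2 * c i ^ 3 * x i ^ 6 + 9 * c i ^ 3 * x i ^ 7 - 18 * c i ^ 3 * x i ^ 9 + (1 / 4) * c i ^ 4 * x i ^ 3 + (1 / 2) * c i ^ 4 * x i ^ 5 + 2 * c i ^ 4 * x i ^ 6 - (21 / 4) * c i ^ 4 * x i ^ 7 + (39 / 2) * c i ^ 4 * x i ^ 9 - (1 / 2) * c i ^ 5 * x i ^ 6 + c i ^ 5 * x i ^ 7 - 9 * c i ^ 5 * x i ^ 9 + (3 / 2) * c i ^ 6 * x i ^ 9 := by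
      unfold mu2; rw [hx]; field_simp; ring
    rw [a1, ← hc', ← hz, ← hx, a2, a3]
    linear_combination k6 i
  · refine ⟨fun i => b2 i - b1 i, by fun_prop, fun i => ?_⟩
    rw [poly i 0 (-1) 1 0 0 0 0 _ fun k => by ring, ← hc', ← hz, ← hx]
    linear_combination k2 i - k1 i

end

end Pool.Agent.Lib.MP_58a483_pr.H80
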