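import Pool.Agent.Lib.MP_58a483_pr.H80Rel2

set_option autoImplicit false
set_option linter.unusedSectionVars false
set_option linter.unusedVariables false
set_option linter.deprecated false

namespace Pool.Agent.Lib.MP_58a483_pr.H80

open Finset

variable {d n : ℕ}

lemma NW_a {k f : Fin d} (h : k ≠ f) (m : ℕ) : NW k f k m = 2 ^ m - (m + 1) := count_GW_a h m
lemma NW_b {k f : Fin d} (h : k ≠ f) (m : ℕ) : NW k f f m = 2 ^ m - 1 := count_GW_b h m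

lemma pair_lt' {k : Fin d} {o : Fin d → Fin n} {Λ : Finset (Fin d → Fin n)} (hΛ : Λ ⊆ line k o) :
    ∑ v ∈ Λ, ((Λ.filter (fun t => t k < v k)).card : ℝ) = (Λ.card : ℝ) * (Λ.card - 1) / 2 := by
  classical
  rw [← pair_lt hΛ, Fintype.sum_prod_type_right]
  rw [← sum_subset (subset_univ Λ) fun v _ hv => sum_eq_zero fun t _ => ind_neg fun h => hv h.2.1]
  refine sum_congr rfl fun v hv => ?_
  rw [← sum_ind_eq_card,
    ← sum_subset (subset_univ Λ) fun t _ ht => ind_neg fun h => ht h.1]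
  exact sum_congr rfl fun t ht => ind_congr (by simp [hv, ht])

section
variable (hn : 0 < n) {p : ℝ} (h0 : 0 ≤ p) (h1 : p ≤ 1 / 2) {χ : ℝ}
  (hχ : ∀ a, ∑ y, tau (EH d n) p a y = χ)
include hn h0 h1 hχ

lemma eL_upper {L : ℕ} (hL : 2 ≤ L) {μ : ℝ}
    (hμ : ∀ a b, Ex (EH d n) p (fun ω => ind (Long L a b ω)) ≤ μ)
    {k : Fin d} {o : Fin d → Fin n} {Λ : Finset (Fin d → Fin n)} (hΛ : Λ ⊆ line k o) :
    ∑ y, Ex (EH d n) p (XL k Λ y) ≤ (Λ.card : ℝ) * (Λ.card - 1) *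
      (χ * ∑ m ∈ range (2 * L), (((d : ℝ) - 1) * ((2 ^ m - (m + 1)) + (m + 3) / 2 * (2 ^ m - 1)) *
        ((p * n) ^ (m + 2) * (1 / (n : ℝ)) ^ 2) + (m + 3) / 2 * uu d (p * n) (1 / n) (m + 2) 3) +
        3 * μ * χ ^ 2) := by
  classical
  have hp1 : p ≤ 1 := by linarith
  have ln : ∀ v ∈ Λ, ∀ t ∈ Λ, t ∈ line k v := fun v hv t ht => mem_line.2 fun j hj =>
    (mem_line.1 (hΛ ht) j hj).trans (mem_line.1 (hΛ hv) j hj).symm
  set T1 : Finset (Fin d × Fin d) := (univ.erase k).image (fun f => (f, k))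
  set T2 : Finset (Fin d × Fin d) := (univ.erase k).image (fun f => (f, f))
  have cd : (((univ : Finset (Fin d)).erase k).card : ℝ) = d - 1 := by
    rw [card_erase_of_mem (mem_univ _), card_univ, Fintype.card_fin, Nat.cast_sub k.pos]; simp
  have s1 : ∀ m, ∑ fg ∈ T1, NW k fg.1 fg.2 m = ((d : ℝ) - 1) * (2 ^ m - (m + 1)) := fun m => by
    rw [sum_image fun a _ b _ h => congrArg Prod.fst h,
      sum_congr rfl fun f hf => NW_a (mem_erase.1 hf).1.symm m, sum_const, nsmul_eq_mul, cd]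
  have s2 : ∀ m, ∑ fg ∈ T2, NW k fg.1 fg.2 m = ((d : ℝ) - 1) * (2 ^ m - 1) := fun m => by
    rw [sum_image fun a _ b _ h => congrArg Prod.fst h,
      sum_congr rfl fun f hf => NW_b (mem_erase.1 hf).1.symm m, sum_const, nsmul_eq_mul, cd]
  have dj : Disjoint T1 T2 := by
    rw [disjoint_left]
    intro fg a b
    obtain ⟨f, hf, rfl⟩ := mem_image.1 a
    obtain ⟨g, hg, e⟩ := mem_image.1 b
    exact (mem_erase.1 hg).1 (congrArg Prod.snd e)
  have t1 : ∀ fg ∈ T1, k ≠ fg.1 := fun fg h => by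
    obtain ⟨f, hf, rfl⟩ := mem_image.1 h
    exact (mem_erase.1 hf).1.symm
  have t2 : ∀ fg ∈ T2, k ≠ fg.1 := fun fg h => by
    obtain ⟨f, hf, rfl⟩ := mem_image.1 h
    exact (mem_erase.1 hf).1.symm
  have u1 := fun v (hv : v ∈ Λ) t (ht : t ∈ Λ.erase v) => hang_upper hn h0 h1 hχ hL hμ Λ
    (ln v hv t (mem_erase.1 ht).2) (fun f _ => f ≠ k) (fun l => {l}) (T1 ∪ T2)
    (fun f g h => ⟨h, Or.inl (mem_erase.1 ht).1.symm, fun h' => by
      rcases h' with rfl | rfl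
      · exact mem_union_left _ (mem_image_of_mem _ (mem_erase.2 ⟨h, mem_univ _⟩))
      · exact mem_union_right _ (mem_image_of_mem _ (mem_erase.2 ⟨h, mem_univ _⟩))⟩)
    (fun fg h => (mem_union.1 h).elim (t1 fg) (t2 fg))
    (fun l i h1 h => by
      rw [mem_singleton.1 h]; exact ⟨h1, le_rfl, Or.inr (mem_erase.1 ht).1.symm⟩)
  have u2 := fun v (hv : v ∈ Λ) t (ht : t ∈ Λ.filter (fun t => t k < v k)) =>
    hang_upper hn h0 h1 hχ hL hμ Λ
    (ln v hv t (mem_filter.1 ht).1) (fun f g => f ≠ k ∧ g ≠ k) (fun l => Ioo 0 l) T2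
    (fun f g h => ⟨h.1, Or.inl fun e => (mem_filter.1 ht).2.ne (by rw [e]), fun h' => by
      rcases h' with rfl | rfl
      · exact absurd rfl h.2
      · exact mem_image_of_mem _ (mem_erase.2 ⟨h.1, mem_univ _⟩)⟩) t2
    (fun l i _ h => ⟨(mem_Ioo.1 h).1, (mem_Ioo.1 h).2.le, Or.inl (mem_Ioo.1 h).2⟩)
  simp only [sum_union dj, s1, s2, card_singleton, Nat.card_Ioo] at u1 u2
  refine le_trans (sum_le_sum fun y _ => Ex_mono h0 hp1 fun ω hω => XL_upper hΛ y hω) ?_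
  simp only [Ex_sum, Ex_add]
  rw [sum_comm]
  set U1 := χ * (∑ m ∈ range (2 * L), ((1 : ℕ) : ℝ) * ((((d : ℝ) - 1) * (2 ^ m - (m + 1)) +
    ((d : ℝ) - 1) * (2 ^ m - 1)) * ((p * n) ^ (m + 2) * (1 / (n : ℝ)) ^ 2) +
    uu d (p * n) (1 / n) (m + 2) 3)) + 2 * μ * χ ^ 2 with hU1
  set U2 := χ * (∑ m ∈ range (2 * L), ((m + 2 - 0 - 1 : ℕ) : ℝ) * ((
    ((d : ℝ) - 1) * (2 ^ m - 1)) * ((p * n) ^ (m + 2) * (1 / (n : ℝ)) ^ 2) +
    uu d (p * n) (1 / n) (m + 2) 3)) + 2 * μ * χ ^ 2 with hU2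
  refine le_trans (sum_le_sum (g := fun v => ((Λ.card : ℝ) - 1) * U1 +
    ((Λ.filter (fun t => t k < v k)).card : ℝ) * U2) fun v hv => ?_) (le_of_eq ?_)
  · rw [sum_add_distrib, sum_comm, sum_comm (s := univ)]
    have a1 := sum_le_card_nsmul _ _ _ (u1 v hv)
    have a2 := sum_le_card_nsmul _ _ _ (u2 v hv)
    rw [nsmul_eq_mul] at a1 a2
    rw [card_erase_of_mem hv, Nat.cast_sub (card_pos.2 ⟨v, hv⟩), Nat.cast_one] at a1
    exact add_le_add a1 a2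
  · rw [sum_add_distrib, ← sum_mul, ← sum_mul, pair_lt' hΛ, sum_const, nsmul_eq_mul, hU1, hU2]
    have : ∀ m : ℕ, ((m + 2 - 0 - 1 : ℕ) : ℝ) = m + 1 := fun m => by
      rw [show m + 2 - 0 - 1 = m + 1 by omega]; push_cast; ring
    simp only [this, Nat.cast_one, one_mul]
    have e : ∀ (F G H : ℕ → ℝ), (∀ m, H m = F m + 1 / 2 * G m) →
        (Λ.card : ℝ) * (Λ.card - 1) * (χ * ∑ m ∈ range (2 * L), F m + 2 * μ * χ ^ 2) +
        (Λ.card : ℝ) * (Λ.card - 1) / 2 * (χ * ∑ m ∈ range (2 * L), G m + 2 * μ * χ ^ 2) =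
        (Λ.card : ℝ) * (Λ.card - 1) * (χ * ∑ m ∈ range (2 * L), H m + 3 * μ * χ ^ 2) := by
      intro F G H h
      simp only [h]
      rw [sum_add_distrib, ← mul_sum]; ring
    exact e _ _ _ fun m => by ring

lemma Om_up {L : ℕ} (hL : 2 ≤ L) {μ : ℝ}
    (hμ : ∀ a b, Ex (EH d n) p (fun ω => ind (Long L a b ω)) ≤ μ) (o : Fin d → Fin n) :
    ∑ y, Ex (EH d n) p (fun ω => ind (Om o y ω)) ≤ (d : ℝ) * (d - 1) / 2 *
      (χ * ∑ m ∈ range (2 * L), ((m : ℝ) + 1) * ((2 ^ m - (m + 1)) *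
        ((p * n) ^ (m + 2) * (1 / (n : ℝ)) ^ 2) + uu d (p * n) (1 / n) (m + 2) 3) +
        2 * μ * χ ^ 2) := by
  classical
  have hp1 : p ≤ 1 := by linarith
  refine le_trans (sum_le_sum fun y _ => Ex_mono h0 hp1 fun ω hω =>
    (ind_mono Om_upper).trans (ind_exists_le _ _)) ?_
  simp only [Ex_sum]
  rw [sum_comm, ← pair_dir, sum_ind_eq_card, ← nsmul_eq_mul]
  refine sum_le_card_nsmul _ _ _ fun fg hfg => ?_
  have h := (mem_filter.1 hfg).2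
  have := hang_upper hn h0 h1 hχ hL hμ {o} (s := o) (t := o) (k := fg.2)
    (mem_line.2 fun _ _ => rfl) (fun a b => a = fg.1 ∧ b = fg.2) (fun l => Ioo 0 l) {fg}
    (fun f g e => ⟨e.1 ▸ h.ne, Or.inr e.2, fun _ => by rw [e.1, e.2]; exact mem_singleton_self _⟩)
    (fun x hx => by rw [mem_singleton.1 hx]; exact h.ne')
    (fun l i _ h => ⟨(mem_Ioo.1 h).1, (mem_Ioo.1 h).2.le, Or.inl (mem_Ioo.1 h).2⟩)
  have e : ∀ m : ℕ, ((m + 2 - 0 - 1 : ℕ) : ℝ) = m + 1 := fun m => by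
    rw [show m + 2 - 0 - 1 = m + 1 by omega]; push_cast; ring
  simpa only [sum_singleton, NW_a h.ne', Nat.card_Ioo, e] using this

lemma fam_lower {η : ℝ} (hη0 : 0 ≤ η)
    (hη : ∀ a b c, a ≠ b → c ≠ a →
      tau (EH d n) p a b + ∑ z, tau (EH d n) p c z * tau (EH d n) p z a ≤ η)
    {γ : ℕ → Type} [∀ m, Fintype (γ m)] (S : Finset ℕ) (Λ : Finset (Fin d → Fin n))
    (s t : (m : ℕ) → γ m → Fin d → Fin n) (k f g : (m : ℕ) → γ m → Fin d)
    (i : (m : ℕ) → γ m → ℕ) (P : (m : ℕ) → γ m → Prop)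
    (hP : ∀ m c, P m c → k m c ≠ f m c ∧ s m c ∈ Λ ∧ t m c ∈ Λ ∧ Λ ⊆ line (k m c) (s m c) ∧
      (s m c (k m c) = t m c (k m c) → g m c = k m c) ∧ i m c ≤ m + 2)
    (hc : (∀ m c, P m c → s m c ≠ t m c) ∨ (∀ m c, P m c → 0 < i m c ∧ i m c < m + 2))
    (hF : ∀ m c c', P m c → P m c' → s m c' = s m c → t m c' = t m c → f m c' = f m c →
      g m c' = g m c → i m c' = i m c → c' = c)
    (hR : ∀ m c c', P m c → P m c' → s m c' = t m c → t m c' = s m c → f m c' = g m c →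
      g m c' = f m c → False)
    (X : (Fin d → Fin n) → Finset (Sym2 (Fin d → Fin n)) → ℝ) (X0 : ∀ y ω, 0 ≤ X y ω)
    (hX : ∀ m c x y ω, P m c → Ret Λ x (m + 2) → x 0 = s m c → x (m + 2) = t m c →
      AdjC (f m c) (x 0) (x 1) → AdjC (g m c) (x (m + 1)) (x (m + 2)) →
      Good Λ x (m + 2) (i m c) y ω → 1 ≤ X y ω) :
    χ * ∑ m ∈ S, (∑ c, ind (P m c) * NW (k m c) (f m c) (g m c) m) *
      ((p * n) ^ (m + 2) * (1 / (n : ℝ)) ^ 2) *
      (1 - ((Λ.card : ℝ) + m + 3) ^ 2 * (1 / n + 2 * p + η)) ≤ ∑ y, Ex (EH d n) p (X y) := by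
  have hp1 : p ≤ 1 := by linarith
  set F : (Fin d → Fin n) → Finset (Sym2 (Fin d → Fin n)) → (m : ℕ) →
      γ m × (Fin (m + 2) → Fin d) × (Fin (m + 2) → Fin n) → Prop := fun y ω m b =>
    P m b.1 ∧ GW (k m b.1) (f m b.1) (g m b.1) m b.2.1 ∧ Val Λ (s m b.1) (t m b.1) b.2.1 b.2.2 ∧
      Good Λ (pos (s m b.1) b.2.1 b.2.2) (m + 2) (i m b.1) y ω with hFdef
  have adj : ∀ {m} {s t : Fin d → Fin n} {k f g : Fin d} {w : Fin (m + 2) → Fin d}
      {a : Fin (m + 2) → Fin n}, GW k f g m w → Val Λ s t w a →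
      AdjC f (pos s w a 0) (pos s w a 1) ∧ AdjC g (pos s w a (m + 1)) (pos s w a (m + 2)) :=
    fun hw hv => ⟨hw.2.1 ▸ hv.2.2 0, hw.2.2.1 ▸ hv.2.2 (Fin.last _)⟩
  have uq : ∀ y ω m b m' b', F y ω m b → F y ω m' b' → m' + 2 = m + 2 ∧
      ((∀ r, r ≤ m + 2 → pos (s m' b'.1) b'.2.1 b'.2.2 r = pos (s m b.1) b.2.1 b.2.2 r) ∨
        (∀ r, r ≤ m + 2 → pos (s m' b'.1) b'.2.1 b'.2.2 r =
          pos (s m b.1) b.2.1 b.2.2 (m + 2 - r))) ∧
      pos (s m b.1) b.2.1 b.2.2 (i m b.1) = pos (s m' b'.1) b'.2.1 b'.2.2 (i m' b'.1) := by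
    rintro y ω m b m' b' ⟨a1, a2, a3, a4⟩ ⟨b1, b2, b3, b4⟩
    have := b2.one_le (hP _ _ b1).1
    refine good_uniq a3.1 b3.1 (by omega) (hP _ _ a1).2.2.2.2.2 (hP _ _ b1).2.2.2.2.2 a4 b4
      fun e => ?_
    rcases hc with hc | hc
    · exact absurd (e.trans b3.2.1) (hc _ _ b1)
    · exact ⟨fun e => a3.1.inner _ (hc _ _ a1).1 (hc _ _ a1).2 (e ▸ b3.1.first),
        fun e => b3.1.inner _ (hc _ _ b1).1 (hc _ _ b1).2 (e ▸ b3.1.first)⟩
  have key : ∀ y ω, ∑ m ∈ S, ∑ b, ind (F y ω m b) ≤ X y ω := by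
    intro y ω
    refine sum_ind_dep S (F y ω) (fun m b m' b' h h' => by have := (uq y ω m b m' b' h h').1; omega)
      ?_ (X0 y ω) ?_
    · rintro m ⟨c, w, a⟩ ⟨c', w', a'⟩ h h'
      obtain ⟨-, u1, u2⟩ := uq y ω _ _ _ _ h h'
      obtain ⟨a1, a2, a3, a4⟩ := h
      obtain ⟨b1, b2, b3, b4⟩ := h'
      simp only at u1 u2 a1 a2 a3 a4 b1 b2 b3 b4
      obtain ⟨c1, c2⟩ := adj a2 a3
      obtain ⟨d1, d2⟩ := adj b2 b3
      rcases u1 with u1 | u1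
      · have e1 : s m c' = s m c := u1 0 (by omega)
        have e2 : i m c' = i m c := by
          have i1 := (hP _ _ a1).2.2.2.2.2
          have i2 := (hP _ _ b1).2.2.2.2.2
          rw [u1 _ i2] at u2
          by_contra hne
          have e3 : ∀ r r', r < r' → r' ≤ m + 2 → pos (s m c) w a r = pos (s m c) w a r' →
              r = 0 ∧ r' = m + 2 ∧ s m c = t m c := fun r r' r1 r2 r3 => by
            obtain ⟨rfl, rfl⟩ := a3.1.simple r r' r1 r2 r3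
            exact ⟨rfl, rfl, r3.trans a3.2.1⟩
          rcases lt_or_gt_of_ne hne with l1 | l1
          · have := e3 _ _ l1 i1 u2.symm
            rcases hc with hc | hc
            · exact hc _ _ a1 this.2.2
            · have := hc _ _ a1; omega
          · have := e3 _ _ l1 i2 u2
            rcases hc with hc | hc
            · exact hc _ _ a1 this.2.2
            · have := hc _ _ a1; omega
        rw [u1 0 (by omega), u1 1 (by omega)] at d1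
        rw [u1 _ (by omega), u1 _ le_rfl] at d2
        obtain rfl := hF m c c' a1 b1 e1 (b3.2.1.symm.trans ((u1 _ le_rfl).trans a3.2.1))
          (d1.uniq c1) (d2.uniq c2) e2
        obtain ⟨rfl, rfl⟩ := code_inj a3.2.2 b3.2.2 u1
        rfl
      · exfalso
        rw [u1 0 (by omega), u1 1 (by omega)] at d1
        rw [u1 _ (by omega), u1 _ le_rfl, show m + 2 - (m + 1) = 1 by omega, Nat.sub_self] at d2
        refine hR m c c' a1 b1 ((u1 0 (by omega)).trans a3.2.1) ?_ (d1.uniq c2.symm)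
          (d2.uniq c1.symm)
        have := u1 _ le_rfl
        rw [Nat.sub_self, b3.2.1] at this
        exact this
    · rintro m ⟨c, w, a⟩ ⟨a1, a2, a3, a4⟩
      exact hX m c _ y ω a1 a3.1 rfl a3.2.1 (adj a2 a3).1 (adj a2 a3).2 a4
  refine le_trans ?_ (sum_le_sum fun y _ => Ex_mono h0 hp1 fun ω _ => key y ω)
  simp only [Ex_sum]
  rw [sum_comm, mul_sum]
  refine sum_le_sum fun m _ => ?_
  rw [sum_comm, Fintype.sum_prod_type, sum_mul, sum_mul, mul_sum]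
  refine sum_le_sum fun c _ => ?_
  by_cases h : P m c
  · obtain ⟨a1, a2, a3, a4, a5, a6⟩ := hP m c h
    rw [ind_pos h, one_mul, Fintype.sum_prod_type]
    refine (hang_lower hn h0 h1 hχ hη0 hη a1 a2 a3 a4 a5 m (i m c)).trans (le_of_eq ?_)
    simp only [hFdef, h, true_and]
  · rw [ind_neg h]
    simp only [zero_mul, mul_zero]
    exact sum_nonneg fun _ _ => sum_nonneg fun _ _ => Ex_nonneg h0 hp1 fun _ _ => ind_nonneg _

lemma eL_lower {η : ℝ} (hη0 : 0 ≤ η)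
    (hη : ∀ a b c, a ≠ b → c ≠ a →
      tau (EH d n) p a b + ∑ z, tau (EH d n) p c z * tau (EH d n) p z a ≤ η) (S : Finset ℕ)
    {k : Fin d} {o : Fin d → Fin n} {Λ : Finset (Fin d → Fin n)} (hΛ : Λ ⊆ line k o) :
    χ * ∑ m ∈ S, ((Λ.card : ℝ) * (Λ.card - 1) *
      (((d : ℝ) - 1) * ((2 ^ m - (m + 1)) + (m + 3) / 2 * (2 ^ m - 1)))) *
      ((p * n) ^ (m + 2) * (1 / (n : ℝ)) ^ 2) *
      (1 - ((Λ.card : ℝ) + m + 3) ^ 2 * (1 / n + 2 * p + η)) ≤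
      ∑ y, Ex (EH d n) p (XL k Λ y) := by
  have ln : ∀ v ∈ Λ, Λ ⊆ line k v := fun v hv t ht => mem_line.2 fun j hj =>
    (mem_line.1 (hΛ ht) j hj).trans (mem_line.1 (hΛ hv) j hj).symm
  have := fam_lower hn h0 h1 hχ hη0 hη
    (γ := fun m => Option (Fin (m + 3)) × ((Fin d → Fin n) × (Fin d → Fin n)) × Fin d) S Λ
    (fun m c => c.2.1.1) (fun m c => c.2.1.2) (fun _ _ => k) (fun m c => c.2.2)
    (fun m c => c.1.elim k fun _ => c.2.2) (fun m c => c.1.elim (m + 2) fun j => j)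
    (fun m c => (c.2.1.1 ∈ Λ ∧ c.2.1.2 ∈ Λ ∧
      c.1.elim (c.2.1.1 ≠ c.2.1.2) fun _ => c.2.1.1 k < c.2.1.2 k) ∧ c.2.2 ≠ k)
    ?_ ?_ ?_ ?_ (XL k Λ) (XL_nonneg k Λ) ?_
  · refine le_trans (le_of_eq ?_) this
    congr 1
    refine sum_congr rfl fun m _ => ?_
    congr 2
    rw [Fintype.sum_prod_type, Fintype.sum_option]
    simp only [Option.elim, Fintype.sum_prod_type (α₂ := Fin d), ind_and _ (_ ≠ k), mul_assoc,
      ← mul_sum]
    rw [sum_ne_dir k _ _ fun f hf => NW_a hf.symm m, sum_ne_dir k _ _ fun f hf => NW_b hf.symm m]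
    simp only [← sum_mul]
    rw [pair_ne, pair_lt hΛ]
    simp
    ring
  · rintro m ⟨_ | j, ⟨s, t⟩, f⟩ ⟨⟨a1, a2, a3⟩, a4⟩
    · exact ⟨a4.symm, a1, a2, ln _ a1, fun _ => rfl, le_rfl⟩
    · exact ⟨a4.symm, a1, a2, ln _ a1, fun e => absurd e a3.ne, Nat.lt_succ_iff.1 j.2⟩
  · left
    rintro m ⟨_ | j, ⟨s, t⟩, f⟩ ⟨⟨a1, a2, a3⟩, a4⟩
    · exact a3
    · exact fun e => a3.ne (congrFun e k)
  · rintro m ⟨_ | j, ⟨s, t⟩, f⟩ ⟨_ | j', ⟨s', t'⟩, f'⟩ ⟨⟨a1, a2, a3⟩, a4⟩ ⟨⟨b1, b2, b3⟩, b4⟩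
      e1 e2 e3 e4 e5 <;> simp only [Option.elim] at e1 e2 e3 e4 e5 a4 b4
    · rw [e1, e2, e3]
    · exact absurd e4 b4
    · exact absurd e4.symm a4
    · rw [e1, e2, e3, Fin.ext e5]
  · rintro m ⟨_ | j, ⟨s, t⟩, f⟩ ⟨_ | j', ⟨s', t'⟩, f'⟩ ⟨⟨a1, a2, a3⟩, a4⟩ ⟨⟨b1, b2, b3⟩, b4⟩
      e1 e2 e3 e4 <;> simp only [Option.elim] at e1 e2 e3 e4 a3 b3 a4 b4
    · exact b4 e3
    · exact b4 e3
    · exact a4 e4.symm
    · rw [e1, e2] at b3; exact lt_asymm a3 b3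
  · rintro m ⟨_ | j, ⟨s, t⟩, f⟩ x y ω ⟨⟨a1, a2, a3⟩, a4⟩ hR e1 e2 c1 c2 hG <;>
      simp only [Option.elim] at e1 e2 a3 a4 c1 c2 hG
    · exact XL_lower_a hR (by omega) c1 a4 c2 hG (by rw [e1, e2]; exact a3)
    · exact XL_lower_b hR (by omega) c1 a4 c2 a4 (Nat.lt_succ_iff.1 j.2) hG
        (by rw [e1, e2]; exact fun e => a3.ne (congrFun e k))

lemma Om_low {η : ℝ} (hη0 : 0 ≤ η)
    (hη : ∀ a b c, a ≠ b → c ≠ a →
      tau (EH d n) p a b + ∑ z, tau (EH d n) p c z * tau (EH d n) p z a ≤ η) (S : Finset ℕ)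
    (o : Fin d → Fin n) :
    χ * ∑ m ∈ S, ((d : ℝ) * (d - 1) / 2 * (((m : ℝ) + 1) * (2 ^ m - (m + 1)))) *
      ((p * n) ^ (m + 2) * (1 / (n : ℝ)) ^ 2) *
      (1 - ((m : ℝ) + 4) ^ 2 * (1 / n + 2 * p + η)) ≤
      ∑ y, Ex (EH d n) p (fun ω => ind (Om o y ω)) := by
  have := fam_lower hn h0 h1 hχ hη0 hη
    (γ := fun m => Fin (m + 1) × (Fin d × Fin d)) S {o}
    (fun m c => o) (fun m c => o) (fun _ c => c.2.2) (fun m c => c.2.1)
    (fun m c => c.2.2) (fun m c => c.1 + 1) (fun m c => c.2.1 < c.2.2)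
    ?_ ?_ ?_ ?_ (fun y ω => ind (Om o y ω)) (fun _ _ => ind_nonneg _) ?_
  · refine le_trans (le_of_eq ?_) this
    congr 1
    refine sum_congr rfl fun m _ => ?_
    rw [card_singleton]
    congr 2
    · rw [Fintype.sum_prod_type]
      have : ∀ fg : Fin d × Fin d, ind (fg.1 < fg.2) * NW fg.2 fg.1 fg.2 m =
          ind (fg.1 < fg.2) * (2 ^ m - (m + 1)) := fun fg => by
        by_cases h : fg.1 < fg.2
        · rw [NW_a h.ne']
        · rw [ind_neg h, zero_mul, zero_mul]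
      simp only [this, ← sum_mul, pair_dir]
      simp
      ring
    · push_cast; ring
  · rintro m ⟨j, f, g⟩ h
    exact ⟨h.ne', mem_singleton_self _, mem_singleton_self _,
      singleton_subset_iff.2 (mem_line.2 fun _ _ => rfl), fun _ => rfl, by have := j.2; omega⟩
  · right
    rintro m ⟨j, f, g⟩ h
    exact ⟨by omega, by have := j.2; omega⟩
  · rintro m ⟨j, f, g⟩ ⟨j', f', g'⟩ _ _ _ _ e1 e2 e3
    simp only at e1 e2 e3
    rw [e1, e2, Fin.ext (show (j' : ℕ) = j by omega)]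
  · rintro m ⟨j, f, g⟩ ⟨j', f', g'⟩ a b _ _ e1 e2
    simp only at e1 e2 a b
    rw [e1, e2] at b; exact lt_asymm a b
  · rintro m ⟨j, f, g⟩ x y ω h hR e1 e2 c1 c2 hG
    have j2 := j.2
    rw [ind_pos ⟨f, g, h, good_TT hR c1 hG (by omega) (by omega),
      good_TT hR.rev (by simpa using c2.symm) (hG.rev (by omega)) (by omega) (by omega)⟩]

end

end Pool.Agent.Lib.MP_58a483_pr.H80
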