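import Pool.Agent.Lib.MP_58a483_pr.H80Main
import Pool.Agent.Lib.MP_58a483_pr.H80ERX

set_option autoImplicit false
set_option linter.unusedSectionVars false
set_option linter.unusedVariables false
set_option linter.deprecated false

namespace Pool.Agent.Lib.MP_58a483_pr.H80

open Finset

lemma theta_rel {d : ℕ} (hd : 7 ≤ d) {C0 : ℝ} (hC0 : 0 ≤ C0) : ∃ C : ℝ, 0 ≤ C ∧
    ∀ (n : ℕ) (p : ℝ) (o : Fin d → Fin n), 40 ≤ n → 2 * d * C0 ≤ n → 0 ≤ p →
      d * (p * n) ≤ 1 + C0 / n → p * n ≤ 1 / 4 ∧ 1 ≤ chiH d n p o ∧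
      |(d - (d - 1) * En p n (fun k => (k : ℝ))) - En p n (fun k => (k : ℝ)) / chiH d n p o -
        (1 / (n : ℝ)) ^ 2 * (d * (d - 1)) * (En p n (fun k => (k : ℝ)) * BB (p * n) / 2 -
          En p n (fun k => (k : ℝ) * (k - 1)) * AA (p * n))| ≤
        C * (En p n (fun k => (k : ℝ) ^ 1) + En p n (fun k => (k : ℝ) ^ 4)) *
          ((1 / (n : ℝ)) ^ 3 + (1 / (n : ℝ)) ^ d * chiH d n p o ^ 2) := by
  obtain ⟨C, c0, h⟩ := main_est hd hC0
  refine ⟨C * d ^ 3, by positivity, fun n p o hn hC p0 hc => ?_⟩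
  obtain ⟨h1, h2, h3, h4⟩ := h n p o hn hC p0 hc
  refine ⟨h1, h2, ?_⟩
  have n0 : (40 : ℝ) ≤ n := by exact_mod_cast hn
  have d7 : (7 : ℝ) ≤ d := by exact_mod_cast hd
  have p1 : p ≤ 1 := by linarith [mul_le_mul_of_nonneg_left n0 p0]
  have r2 := rel2 p o
  have sc : ∀ (k : Fin d) (f : ℕ → ℝ), ∑ S ∈ (line k o).powerset.filter (fun S => o ∈ S),
      Ex (EH d n) p (fun ω => ind (clus (line k o) o ω = S)) * f S.card = En p n f := fun k f => by
    have := sum_clus (E := EH d n) (U := line k o) (r := o)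
      (fun a ha b hb hab => mem_EH.2 ⟨k, line_adj ha hb hab⟩) (mem_line.2 fun _ _ => rfl) p f
    rwa [card_line] at this
  have r1 := fun k => rel1 p k o
  have δ0 : 0 ≤ (1 / (n : ℝ)) ^ 3 + (1 / (n : ℝ)) ^ d * chiH d n p o ^ 2 := by positivity
  generalize (1 / (n : ℝ)) ^ 3 + (1 / (n : ℝ)) ^ d * chiH d n p o ^ 2 = δ at *
  generalize chiH d n p o = χ at *
  generalize (1 / (n : ℝ)) ^ 2 = u at *
  have m1 : En p n (fun k => (k : ℝ) ^ 1) = En p n (fun k => (k : ℝ)) := by simp only [pow_one]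
  have m0 : 0 ≤ En p n (fun k => (k : ℝ)) := by
    have := En_mono p0 p1 (n := n) (f := fun _ => 0 * 1) (g := fun k => (k : ℝ))
      fun k _ _ => by rw [zero_mul]; positivity
    rwa [En_mul_left, zero_mul] at this
  have m4 : 0 ≤ En p n (fun k => (k : ℝ) ^ 4) := by
    have := En_mono p0 p1 (n := n) (f := fun _ => 0 * 1) (g := fun k => (k : ℝ) ^ 4)
      fun k _ _ => by rw [zero_mul]; positivity
    rwa [En_mul_left, zero_mul] at this
  have e1 : ∀ k, |En p n (fun k => (k : ℝ)) * alH p k o - χ - χ * (d - 1) * u * AA (p * n) *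
      En p n (fun k => (k : ℝ) * (k - 1))| ≤ C * χ * d ^ 2 * δ * En p n (fun k => (k : ℝ) ^ 4) := by
    intro k
    have a1 : En p n (fun k => (k : ℝ)) * alH p k o - χ - χ * (d - 1) * u * AA (p * n) *
        En p n (fun k => (k : ℝ) * (k - 1)) =
        ∑ S ∈ (line k o).powerset.filter (fun S => o ∈ S),
          Ex (EH d n) p (fun ω => ind (clus (line k o) o ω = S)) *
          (∑ y, Ex (EH d n) p (XL k S y) - χ * ((S.card : ℝ) * (S.card - 1) * (d - 1)) * u *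
            AA (p * n)) := by
      rw [← sc k, ← sc k, sum_mul, mul_sum]
      nth_rewrite 1 [r1 k]
      rw [← sum_sub_distrib, ← sum_sub_distrib]
      exact sum_congr rfl fun S _ => by ring
    rw [a1, ← sc k, mul_sum]
    refine (abs_sum_le_sum_abs _ _).trans (sum_le_sum fun S hS => ?_)
    obtain ⟨s1, s2⟩ := mem_filter.1 hS
    have a2 : 0 ≤ Ex (EH d n) p (fun ω => ind (clus (line k o) o ω = S)) :=
      Ex_nonneg p0 p1 fun _ _ => ind_nonneg _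
    rw [abs_mul, abs_of_nonneg a2]
    exact (mul_le_mul_of_nonneg_left (h3 k S (mem_powerset.1 s1) ⟨o, s2⟩) a2).trans
      (le_of_eq (by ring))
  have e2 := (abs_sum_le_sum_abs _ _).trans (sum_le_sum fun k (_ : k ∈ univ) => e1 k)
  simp only [sum_sub_distrib, ← mul_sum, sum_const, card_univ, Fintype.card_fin, nsmul_eq_mul,
    r2] at e2
  rw [m1]
  generalize En p n (fun k => (k : ℝ)) = a at *
  generalize En p n (fun k => (k : ℝ) * (k - 1)) = b at *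
  generalize En p n (fun k => (k : ℝ) ^ 4) = e at *
  generalize ∑ y, Ex (EH d n) p (fun ω => ind (Om o y ω)) = Ω at *
  have χ0 : 0 < χ := by linarith
  refine le_of_mul_le_mul_left ?_ χ0
  rw [← abs_of_pos χ0, ← abs_mul, abs_of_pos χ0]
  have e3 : χ * (d - (d - 1) * a - a / χ - u * (d * (d - 1)) * (a * BB (p * n) / 2 - b * AA (p * n))) =
      a * (Ω - χ * ((d : ℝ) * (d - 1) / 2) * u * BB (p * n)) -
      (a * ((d - 1) * χ + 1 + Ω) - d * χ - χ * (d - 1) * u * AA (p * n) * (d * b)) := by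
    field_simp; ring
  rw [e3]
  refine (abs_sub _ _).trans ?_
  rw [abs_mul, abs_of_nonneg m0]
  have e4 := mul_le_mul_of_nonneg_left h4 m0
  have e5 := mul_le_mul_of_nonneg_right (show (1 : ℝ) ≤ d by linarith)
    (show 0 ≤ a * (C * χ * d ^ 2 * δ) by positivity)
  linarith

/-- first correction to the critical equation -/
noncomputable def F1 (d c : ℝ) : ℝ := -((1 - c) * (d - 1) * mu1 c) / d

/-- second correction to the critical equation -/
noncomputable def F2 (d c : ℝ) : ℝ := -((1 - c) * (d - 1) * (mu2 c +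
  d * ((1 - c)⁻¹ * BB c / 2 - ((1 - c)⁻¹ ^ 3 - (1 - c)⁻¹) * AA c))) / d

lemma bd_inv {X : Type} {c : X → ℝ} (c0 : ∀ i, 0 ≤ c i) (c1 : ∀ i, c i ≤ 1 / 4) :
    Bd c ∧ Bd (fun i => (1 - c i)⁻¹) ∧ Bd (fun i => (1 - 2 * c i)⁻¹) := by
  refine ⟨Bd.of_le 1 c0 fun i => by have := c1 i; linarith, Bd.of_le 2 (fun i => ?_) fun i => ?_,
    Bd.of_le 2 (fun i => ?_) fun i => ?_⟩ <;> have := c1 i
  · exact inv_nonneg.2 (by linarith)
  · rw [inv_le_comm₀ (by linarith) (by norm_num)]; linarith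
  · exact inv_nonneg.2 (by linarith)
  · rw [inv_le_comm₀ (by linarith) (by norm_num)]; linarith

lemma bd_fun {X : Type} {c : X → ℝ} (c0 : ∀ i, 0 ≤ c i) (c1 : ∀ i, c i ≤ 1 / 4) :
    Bd (fun i => mu1 (c i)) ∧ Bd (fun i => mu2 (c i)) ∧ Bd (fun i => AA (c i)) ∧
      Bd (fun i => BB (c i)) := by
  obtain ⟨b1, b2, b3⟩ := bd_inv c0 c1
  obtain ⟨x, hx⟩ : ∃ x : X → ℝ, ∀ i, (1 - c i)⁻¹ = x i := ⟨_, fun _ => rfl⟩
  obtain ⟨y, hy⟩ : ∃ y : X → ℝ, ∀ i, (1 - 2 * c i)⁻¹ = y i := ⟨_, fun _ => rfl⟩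
  simp only [hx, hy] at b2 b3
  have b2' : Bd x := b2
  have b3' : Bd y := b3
  refine ⟨?_, ?_, ?_, ?_⟩
  · simp only [mu1, div_eq_mul_inv _ (_ ^ _), ← inv_pow, hx]; fun_prop
  · simp only [mu2, div_eq_mul_inv _ (_ ^ _), ← inv_pow, hx]; fun_prop
  · simp only [AA, hx, hy]; fun_prop
  · simp only [BB, hx, hy]; fun_prop

theorem fam_rel {d : ℕ} (hd : 7 ≤ d) {C0 : ℝ} (hC0 : 0 ≤ C0) : ∃ C : ℝ, 0 ≤ C ∧
    ∀ (n : ℕ) (p : ℝ) (o : Fin d → Fin n), 40 ≤ n → 2 * d * C0 ≤ n → 0 ≤ p →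
      d * (p * n) ≤ 1 + C0 / n → p * n ≤ 1 / 4 ∧ ∃ t, 0 ≤ t ∧ t ≤ C / chiH d n p o ∧
      |p * n - 1 / d - 1 / (n : ℝ) * F1 d (p * n) - (1 / (n : ℝ)) ^ 2 * F2 d (p * n) + t| ≤
        C * ((1 / (n : ℝ)) ^ 3 + (1 / (n : ℝ)) ^ d * chiH d n p o ^ 2) := by
  obtain ⟨C, c0, h⟩ := theta_rel hd hC0
  have d7 : (7 : ℝ) ≤ d := by exact_mod_cast hd
  let X := {q : ℕ × ℝ // 40 ≤ q.1 ∧ 0 ≤ q.2 ∧ q.2 * q.1 ≤ 1 / 4}
  obtain ⟨⟨b1, B1, e1⟩, ⟨b2, B2, e2⟩⟩ := er_expansion (X := X) (fun i => i.1.1) (fun i => i.1.2)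
    (fun i => i.2.1) (fun i => i.2.2.1) (fun i => i.2.2.2)
  have mb := moment_bd' (X := X) (fun i => i.1.1) (fun i => i.1.2)
    (fun i => i.2.1) (fun i => i.2.2.1) (fun i => i.2.2.2)
  obtain ⟨M1, m1, hM1⟩ := (mb 1).nonneg
  obtain ⟨M4, m4, hM4⟩ := (mb 4).nonneg
  have cc0 : ∀ i : X, 0 ≤ i.1.2 * i.1.1 := fun i => mul_nonneg i.2.2.1 (Nat.cast_nonneg _)
  obtain ⟨f1, f2, f3, f4⟩ := bd_fun cc0 fun i => i.2.2.2
  have bz : Bd fun i : X => 1 / (i.1.1 : ℝ) := Bd.of_le 1 (fun i => by positivity) fun i => by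
    have : (40 : ℝ) ≤ i.1.1 := by exact_mod_cast i.2.1
    rw [div_le_one (by linarith)]; linarith
  obtain ⟨C2, c2, hC2⟩ := (Bd.nonneg (f := fun i : X => (d - 1) * (b1 i + d *
    ((mu1 (i.1.2 * i.1.1) + 1 / (i.1.1 : ℝ) * mu2 (i.1.2 * i.1.1) + (1 / (i.1.1 : ℝ)) ^ 2 * b1 i) *
      BB (i.1.2 * i.1.1) / 2 - b2 i * AA (i.1.2 * i.1.1))))
    ((Bd.const _).mul (B1.add ((Bd.const _).mul (((((f1.add (bz.mul f2)).add
      ((bz.pow 2).mul B1)).mul f4).div_const 2).sub (B2.mul f3))))))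
  refine ⟨C * (M1 + M4) + C2 + M1, by positivity, fun n p o hn hC p0 hc => ?_⟩
  obtain ⟨h1, h2, h3⟩ := h n p o hn hC p0 hc
  have a1 := e1 ⟨(n, p), hn, p0, h1⟩
  have a2 := e2 ⟨(n, p), hn, p0, h1⟩
  have a3 := (le_abs_self _).trans (hM1 ⟨(n, p), hn, p0, h1⟩)
  have a4 := (le_abs_self _).trans (hM4 ⟨(n, p), hn, p0, h1⟩)
  have a5 := hC2 ⟨(n, p), hn, p0, h1⟩
  have c00 := cc0 ⟨(n, p), hn, p0, h1⟩
  simp only at a1 a2 a3 a4 a5 c00
  have n0 : (40 : ℝ) ≤ n := by exact_mod_cast hn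
  have m0 : 0 ≤ En p n (fun k => (k : ℝ)) := by
    have := En_mono p0 (by linarith [mul_le_mul_of_nonneg_left n0 p0]) (n := n)
      (f := fun _ => 0 * 1) (g := fun k => (k : ℝ)) fun k _ _ => by rw [zero_mul]; positivity
    rwa [En_mul_left, zero_mul] at this
  have g0 : 0 ≤ (1 / (n : ℝ)) ^ d * chiH d n p o ^ 2 := by positivity
  have z0 : 0 ≤ (1 / (n : ℝ)) := by positivity
  have h4 := h3.trans (mul_le_mul_of_nonneg_right (mul_le_mul_of_nonneg_left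
    (add_le_add a3 a4) c0) (by positivity))
  simp only [pow_one] at a3
  clear h3 h e1 e2 hM1 hM4 hC2 a4 mb f1 f2 f3 f4 bz
  generalize (1 / (n : ℝ)) ^ d * chiH d n p o ^ 2 = g at *
  generalize chiH d n p o = χ at *
  generalize (1 / (n : ℝ)) = z at *
  generalize b1 _ = β1 at *
  generalize b2 _ = β2 at *
  generalize En p n (fun k => (k : ℝ)) = a at *
  generalize En p n (fun k => (k : ℝ) * (k - 1)) = b at *
  generalize p * n = c at *
  have q0 : 0 < 1 - c := by linarith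
  have q1 : 0 ≤ (1 - c) / d := by positivity
  have q2 : (1 - c) / d ≤ 1 := by rw [div_le_one (by linarith)]; linarith
  refine ⟨h1, (1 - c) / d * (a / χ), by positivity, ?_, ?_⟩
  · refine (mul_le_of_le_one_left (by positivity) q2).trans
      (div_le_div_of_nonneg_right ?_ (by linarith))
    have : 0 ≤ C * (M1 + M4) := by positivity
    linarith
  have e3 : c - 1 / d - z * F1 d c - z ^ 2 * F2 d c + (1 - c) / d * (a / χ) = -((1 - c) / d) *
      ((d - (d - 1) * a - a / χ - z ^ 2 * (d * (d - 1)) * (a * BB c / 2 - b * AA c)) +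
        z ^ 3 * ((d - 1) * (β1 + d * ((mu1 c + z * mu2 c + z ^ 2 * β1) * BB c / 2 - β2 * AA c)))) := by
    generalize a / χ = s
    rw [a1, a2]
    unfold F1 F2
    field_simp
    ring
  rw [e3, abs_mul, abs_neg, abs_of_nonneg q1]
  refine (mul_le_of_le_one_left (abs_nonneg _) q2).trans ((abs_add_le _ _).trans ?_)
  rw [abs_mul, abs_of_nonneg (pow_nonneg z0 3)]
  have k1 := mul_le_mul_of_nonneg_left a5 (pow_nonneg z0 3)
  have k2 : 0 ≤ M1 * (z ^ 3 + g) := by positivity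
  have k3 : 0 ≤ C2 * g := by positivity
  linarith

end Pool.Agent.Lib.MP_58a483_pr.H80
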