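import Pool.Agent.Lib.MP_58a483_pr.H80Tau

set_option autoImplicit false
set_option linter.unusedSectionVars false
set_option linter.unusedVariables false
set_option linter.deprecated false

namespace Pool.Agent.Lib.MP_58a483_pr.H80

open Finset

variable {d n : ℕ}

/-- adjacency in direction `k` -/
def AdjC (k : Fin d) (u v : Fin d → Fin n) : Prop := u k ≠ v k ∧ ∀ j, j ≠ k → u j = v j

lemma AdjC.symm {k : Fin d} {u v : Fin d → Fin n} (h : AdjC k u v) : AdjC k v u :=
  ⟨h.1.symm, fun j hj => (h.2 j hj).symm⟩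

lemma AdjC.uniq {k k' : Fin d} {u v : Fin d → Fin n} (h : AdjC k u v) (h' : AdjC k' u v) :
    k = k' := by
  by_contra hne
  exact h.1 (h'.2 k hne)

lemma AdjC.ne {k : Fin d} {u v : Fin d → Fin n} (h : AdjC k u v) : u ≠ v :=
  fun e => h.1 (by rw [e])

open Classical in
/-- edges in direction `k` -/
noncomputable def colE (n : ℕ) (k : Fin d) : Finset (Sym2 (Fin d → Fin n)) :=
  univ.filter (fun e => ∃ u v, e = s(u, v) ∧ AdjC k u v)

lemma mem_colE {k : Fin d} {u v : Fin d → Fin n} : s(u, v) ∈ colE n k ↔ AdjC k u v := by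
  classical
  unfold colE
  simp only [mem_filter, mem_univ, true_and]
  refine ⟨?_, fun h => ⟨u, v, rfl, h⟩⟩
  rintro ⟨a, b, he, h⟩
  rcases Sym2.eq_iff.1 he with ⟨rfl, rfl⟩ | ⟨rfl, rfl⟩
  · exact h
  · exact h.symm

/-- edges of the Hamming graph -/
noncomputable def EH (d n : ℕ) : Finset (Sym2 (Fin d → Fin n)) := univ.biUnion (colE n)

lemma mem_EH {u v : Fin d → Fin n} : s(u, v) ∈ EH d n ↔ ∃ k, AdjC k u v := by
  simp [EH, mem_colE]

open Classical in
/-- pairs touching `Λ` -/
noncomputable def star (Λ : Finset (Fin d → Fin n)) : Finset (Sym2 (Fin d → Fin n)) :=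
  univ.filter (fun e => ∃ v ∈ Λ, v ∈ e)

lemma mem_star {Λ : Finset (Fin d → Fin n)} {u v : Fin d → Fin n} :
    s(u, v) ∈ star Λ ↔ u ∈ Λ ∨ v ∈ Λ := by
  classical
  unfold star
  simp only [mem_filter, mem_univ, true_and, Sym2.mem_iff]
  constructor
  · rintro ⟨a, ha, rfl | rfl⟩
    · exact Or.inl ha
    · exact Or.inr ha
  · rintro (h | h)
    · exact ⟨u, h, Or.inl rfl⟩
    · exact ⟨v, h, Or.inr rfl⟩

/-- edges in direction `k` touching `Λ` -/
noncomputable def RR (k : Fin d) (Λ : Finset (Fin d → Fin n)) : Finset (Sym2 (Fin d → Fin n)) :=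
  colE n k ∩ star Λ

lemma mem_RR {k : Fin d} {Λ : Finset (Fin d → Fin n)} {u v : Fin d → Fin n} :
    s(u, v) ∈ RR k Λ ↔ AdjC k u v ∧ (u ∈ Λ ∨ v ∈ Λ) := by
  unfold RR; rw [mem_inter, mem_colE, mem_star]

/-- the line in direction `k` -/
def line (k : Fin d) (v : Fin d → Fin n) : Finset (Fin d → Fin n) :=
  univ.filter (fun u => ∀ j, j ≠ k → u j = v j)

lemma mem_line {k : Fin d} {u v : Fin d → Fin n} : u ∈ line k v ↔ ∀ j, j ≠ k → u j = v j := by
  simp [line]

lemma card_line (k : Fin d) (v : Fin d → Fin n) : (line k v).card = n := by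
  have : line k v = univ.image (fun a : Fin n => Function.update v k a) := by
    ext u
    simp only [mem_line, mem_image, mem_univ, true_and]
    constructor
    · intro h
      refine ⟨u k, funext fun j => ?_⟩
      by_cases hj : j = k
      · subst hj; simp
      · rw [Function.update_of_ne hj, h j hj]
    · rintro ⟨a, rfl⟩ j hj
      rw [Function.update_of_ne hj]
  rw [this, card_image_of_injective _ (Function.update_injective v k)]; simp

lemma line_adj {k : Fin d} {v a b : Fin d → Fin n} (ha : a ∈ line k v) (hb : b ∈ line k v)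
    (hab : a ≠ b) : AdjC k a b := by
  rw [mem_line] at ha hb
  refine ⟨fun h => hab (funext fun j => ?_), fun j hj => (ha j hj).trans (hb j hj).symm⟩
  by_cases hj : j = k
  · rw [hj]; exact h
  · exact (ha j hj).trans (hb j hj).symm

/-- the map induced on unordered pairs -/
def symEquiv {V : Type} (φ : V ≃ V) : Sym2 V ≃ Sym2 V where
  toFun := Sym2.map φ
  invFun := Sym2.map φ.symm
  left_inv e := by induction e using Sym2.ind; simp
  right_inv e := by induction e using Sym2.ind; simp

lemma conn_map {V : Type} [DecidableEq V] (φ : V ≃ V) (ω : Finset (Sym2 V)) (a b : V) :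
    Conn (ω.map (symEquiv φ).toEmbedding) (φ a) (φ b) ↔ Conn ω a b := by
  have key : ∀ u v, s(φ u, φ v) ∈ ω.map (symEquiv φ).toEmbedding ↔ s(u, v) ∈ ω := fun u v =>
    mem_map' (symEquiv φ).toEmbedding (a := s(u, v))
  constructor
  · intro h
    have := h.closure (fun u => Conn ω a (φ.symm u)) (by simpa using Conn.refl _ _)
      fun u v hu huv => hu.tail ((key _ _).1 (by simpa using huv))
    simpa using this
  · intro h
    exact h.closure (fun u => Conn _ (φ a) (φ u)) (Conn.refl _ _)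
      fun u v hu huv => hu.tail ((key _ _).2 huv)

lemma sum_conn_map {V : Type} [DecidableEq V] [Fintype V] (φ : V ≃ V) (E R R' : Finset (Sym2 V))
    (hE : ∀ u v, s(φ u, φ v) ∈ E ↔ s(u, v) ∈ E) (hR : ∀ u v, s(φ u, φ v) ∈ R' ↔ s(u, v) ∈ R)
    (p : ℝ) (a : V) :
    ∑ y, Ex E p (fun ω => ind (Conn (ω \ R') (φ a) y)) =
      ∑ y, Ex E p (fun ω => ind (Conn (ω \ R) a y)) := by
  rw [← Equiv.sum_comp φ]
  refine sum_congr rfl fun y _ => ?_
  rw [← Ex_map E p (symEquiv φ) (fun e => by induction e using Sym2.ind; exact hE _ _)]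
  refine Ex_congr fun ω _ => ind_congr ?_
  rw [← conn_map φ (ω \ R)]
  have : ω.map (symEquiv φ).toEmbedding \ R' = (ω \ R).map (symEquiv φ).toEmbedding := by
    ext e
    obtain ⟨e, rfl⟩ := (symEquiv φ).surjective e
    have k1 := mem_map' (symEquiv φ).toEmbedding (a := e) (s := ω)
    have k2 := mem_map' (symEquiv φ).toEmbedding (a := e) (s := ω \ R)
    simp only [Equiv.coe_toEmbedding] at k1 k2
    rw [mem_sdiff, k1, k2, mem_sdiff]
    induction e using Sym2.ind
    exact and_congr Iff.rfl (not_congr (hR _ _))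
  rw [this]

lemma exists_aut (a b : Fin d → Fin n) : ∃ φ : (Fin d → Fin n) ≃ (Fin d → Fin n), φ a = b ∧
    ∀ k u v, AdjC k (φ u) (φ v) ↔ AdjC k u v := by
  refine ⟨Equiv.piCongrRight fun j => Equiv.swap (a j) (b j), by ext j; simp, fun k u v => ?_⟩
  simp [AdjC]

/-- mean cluster size -/
noncomputable def chiH (d n : ℕ) (p : ℝ) (a : Fin d → Fin n) : ℝ := ∑ y, tau (EH d n) p a y

/-- mean cluster size when the edges of direction `k` at the root are removed -/
noncomputable def alH (p : ℝ) (k : Fin d) (a : Fin d → Fin n) : ℝ :=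
  ∑ y, Ex (EH d n) p (fun ω => ind (Conn (ω \ RR k {a}) a y))

lemma chiH_const (p : ℝ) (a b : Fin d → Fin n) : chiH d n p a = chiH d n p b := by
  obtain ⟨φ, rfl, h⟩ := exists_aut a b
  have := sum_conn_map φ (EH d n) ∅ ∅ (fun u v => by simp [mem_EH, h]) (by simp) p a
  simp only [sdiff_empty] at this
  exact this.symm

lemma alH_const (p : ℝ) (k : Fin d) (a b : Fin d → Fin n) : alH p k a = alH p k b := by
  obtain ⟨φ, rfl, h⟩ := exists_aut a b
  exact (sum_conn_map φ (EH d n) (RR k {a}) (RR k {φ a}) (fun u v => by simp [mem_EH, h])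
    (fun u v => by simp [mem_RR, h]) p a).symm

/-- the walk coded by directions `w` and new values `a` -/
def pos {l : ℕ} (s : Fin d → Fin n) (w : Fin l → Fin d) (a : Fin l → Fin n) : ℕ → Fin d → Fin n
  | 0 => s
  | i + 1 => if h : i < l then Function.update (pos s w a i) (w ⟨i, h⟩) (a ⟨i, h⟩) else pos s w a i

lemma pos_succ {l : ℕ} (s : Fin d → Fin n) (w : Fin l → Fin d) (a : Fin l → Fin n) (i : Fin l) :
    pos s w a (i + 1) = Function.update (pos s w a i) (w i) (a i) := by
  simp [pos]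

lemma pos_val {l : ℕ} (s : Fin d → Fin n) (w : Fin l → Fin d) (a : Fin l → Fin n) (j : Fin d)
    (t : ℕ) (ht : t ≤ l) :
    (pos s w a t j = s j ∧ ∀ i : Fin l, (i : ℕ) < t → w i ≠ j) ∨
    ∃ i : Fin l, (i : ℕ) < t ∧ w i = j ∧ (∀ i' : Fin l, i < i' → (i' : ℕ) < t → w i' ≠ j) ∧
      pos s w a t j = a i := by
  induction t with
  | zero => left; exact ⟨rfl, fun i hi => by omega⟩
  | succ t ih =>
    have h := pos_succ s w a ⟨t, ht⟩
    simp only at h
    by_cases hj : w ⟨t, ht⟩ = j
    · right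
      refine ⟨⟨t, ht⟩, by simp, hj, fun i' h1 h2 => ?_, ?_⟩
      · have : t < (i' : ℕ) := h1
        omega
      · rw [h, ← hj]; simp
    · have e : pos s w a (t + 1) j = pos s w a t j := by
        rw [h, Function.update_of_ne (Ne.symm hj)]
      have k : ∀ i : Fin l, (i : ℕ) < t + 1 → ¬ (i : ℕ) < t → w i ≠ j := by
        intro i h1 h2
        have : i = ⟨t, ht⟩ := Fin.ext (by simp; omega)
        rw [this]; exact hj
      rcases ih (by omega) with ⟨h1, h2⟩ | ⟨i, h1, h2, h3, h4⟩
      · left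
        refine ⟨e.trans h1, fun i hi => ?_⟩
        by_cases h5 : (i : ℕ) < t
        · exact h2 i h5
        · exact k i hi h5
      · right
        refine ⟨i, by omega, h2, fun i' a1 a2 => ?_, e.trans h4⟩
        by_cases h5 : (i' : ℕ) < t
        · exact h3 i' a1 h5
        · exact k i' a2 h5

lemma exists_code {l : ℕ} {x : ℕ → Fin d → Fin n} (h : pe x l ⊆ EH d n) :
    ∃ (w : Fin l → Fin d) (a : Fin l → Fin n), (∀ i : Fin l, AdjC (w i) (x i) (x (i + 1))) ∧
      ∀ t, t ≤ l → pos (x 0) w a t = x t := by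
  have : ∀ i : Fin l, ∃ k, AdjC k (x i) (x (i + 1)) := fun i => mem_EH.1 (pe_sub.1 h i i.2)
  choose w hw using this
  refine ⟨w, fun i => x (i + 1) (w i), hw, fun t ht => ?_⟩
  induction t with
  | zero => rfl
  | succ t ih =>
    have := pos_succ (x 0) w (fun i => x (i + 1) (w i)) ⟨t, ht⟩
    simp only at this
    rw [this, ih (by omega)]
    funext j
    by_cases hj : j = w ⟨t, ht⟩
    · rw [hj]; simp
    · rw [Function.update_of_ne hj]; exact (hw ⟨t, ht⟩).2 j hj

lemma pe_congr {V : Type} [DecidableEq V] {x x' : ℕ → V} {l : ℕ} (h : ∀ t, t ≤ l → x t = x' t) :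
    pe x l = pe x' l := by
  unfold pe
  refine image_congr fun t ht => ?_
  have := mem_range.1 (mem_coe.1 ht)
  show s(x t, x (t + 1)) = s(x' t, x' (t + 1))
  rw [h t (by omega), h (t + 1) (by omega)]

/-- last occurrences -/
def Last {l : ℕ} (w : Fin l → Fin d) : Finset (Fin l) :=
  univ.filter (fun i => ∀ i', i < i' → w i' ≠ w i)

lemma mem_Last {l : ℕ} {w : Fin l → Fin d} {i : Fin l} :
    i ∈ Last w ↔ ∀ i', i < i' → w i' ≠ w i := by simp [Last]

lemma Last_inj {l : ℕ} {w : Fin l → Fin d} {i i' : Fin l} (h : i ∈ Last w) (h' : i' ∈ Last w)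
    (e : w i = w i') : i = i' := by
  rcases lt_trichotomy i i' with h1 | h1 | h1
  · exact absurd e.symm (mem_Last.1 h i' h1)
  · exact h1
  · exact absurd e (mem_Last.1 h' i h1)

lemma card_Last {l : ℕ} (w : Fin l → Fin d) : (Last w).card = (univ.image w).card := by
  rw [← card_image_of_injOn (f := w) fun i hi i' hi' e => Last_inj hi hi' e]
  congr 1
  refine Subset.antisymm (image_subset_image (subset_univ _)) fun j hj => ?_
  obtain ⟨i, -, rfl⟩ := mem_image.1 hj
  have hne : (univ.filter (fun i' => w i' = w i)).Nonempty := ⟨i, by simp⟩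
  have h1 := max'_mem _ hne
  refine mem_image.2 ⟨_, mem_Last.2 fun i' hi' e => ?_, (mem_filter.1 h1).2⟩
  exact absurd (le_max' _ i' (mem_filter.2 ⟨mem_univ _, e.trans (mem_filter.1 h1).2⟩))
    (not_le.2 hi')

lemma pos_last {l : ℕ} (s : Fin d → Fin n) (w : Fin l → Fin d) (a : Fin l → Fin n) {i : Fin l}
    (hi : i ∈ Last w) : pos s w a l (w i) = a i := by
  rcases pos_val s w a (w i) l le_rfl with ⟨_, h2⟩ | ⟨i', h1, h2, h3, h4⟩
  · exact absurd rfl (h2 i i.2)
  · have : i' ∈ Last w := mem_Last.2 fun i'' h => h2 ▸ h3 i'' h i''.2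
    rw [h4, Last_inj this hi h2]

lemma count_vals (hn : 0 < n) {l : ℕ} (s t : Fin d → Fin n) (w : Fin l → Fin d) :
    ∑ a : Fin l → Fin n, ind (pos s w a l = t) ≤
      (n : ℝ) ^ l * (1 / (n : ℝ)) ^ (univ.image w).card := by
  classical
  rw [sum_ind_eq_card]
  have h1 : univ.filter (fun a : Fin l → Fin n => pos s w a l = t) ⊆
      Fintype.piFinset (fun i => if i ∈ Last w then {t (w i)} else univ) := by
    intro a ha
    rw [Fintype.mem_piFinset]
    intro i
    split_ifs with hi
    · rw [mem_singleton, ← pos_last s w a hi, (mem_filter.1 ha).2]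
    · exact mem_univ _
  have h2 := card_le_card h1
  rw [Fintype.card_piFinset] at h2
  simp only [apply_ite card, card_singleton, card_univ, Fintype.card_fin] at h2
  rw [prod_ite, prod_const_one, one_mul, prod_const] at h2
  have h3 : (univ.filter (fun i => ¬ i ∈ Last w)).card + (univ.image w).card = l := by
    have := card_filter_add_card_filter_not (s := univ) (fun i : Fin l => i ∈ Last w)
    rw [filter_univ_mem, card_Last, card_univ, Fintype.card_fin] at this
    omega
  have h4 : (0 : ℝ) < n := by exact_mod_cast hn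
  calc _ ≤ (n : ℝ) ^ (univ.filter (fun i => ¬ i ∈ Last w)).card := by exact_mod_cast h2
    _ = _ := by
        rw [← congrArg (fun m => (n : ℝ) ^ m) h3, pow_add, mul_assoc, ← mul_pow]
        simp [h4.ne']

lemma count_nonsurj (l : ℕ) :
    ∑ w : Fin l → Fin d, ind ((univ.image w).card < d) ≤ d * ((d : ℝ) - 1) ^ l := by
  classical
  rcases Nat.eq_zero_or_pos d with rfl | hd
  · simp [ind]
  rw [sum_ind_eq_card]
  have h1 : univ.filter (fun w : Fin l → Fin d => (univ.image w).card < d) ⊆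
      univ.biUnion (fun j : Fin d => Fintype.piFinset (fun _ : Fin l => univ.erase j)) := by
    intro w hw
    have := (mem_filter.1 hw).2
    obtain ⟨j, -, hj⟩ := exists_mem_notMem_of_card_lt_card (s := univ.image w) (t := univ)
      (by simpa using this)
    refine mem_biUnion.2 ⟨j, mem_univ _, Fintype.mem_piFinset.2 fun i => ?_⟩
    exact mem_erase.2 ⟨fun e => hj (mem_image.2 ⟨i, mem_univ _, e⟩), mem_univ _⟩
  have h2 := (card_le_card h1).trans card_biUnion_le
  simp only [Fintype.card_piFinset, card_erase_of_mem (mem_univ _), card_univ, Fintype.card_fin,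
    prod_const, sum_const, smul_eq_mul] at h2
  rw [← Nat.cast_one, ← Nat.cast_sub hd]
  exact_mod_cast h2

lemma count_ns (hn : 0 < n) {l : ℕ} (s t : Fin d → Fin n) (j : ℕ) :
    ∑ w : Fin l → Fin d, ∑ a : Fin l → Fin n,
      ind (((univ.image w).card < d ∧ j ≤ (univ.image w).card) ∧ pos s w a l = t) ≤
      d * ((d : ℝ) - 1) ^ l * ((n : ℝ) ^ l * (1 / (n : ℝ)) ^ j) := by
  have h4 : (1 : ℝ) ≤ n := by exact_mod_cast hn
  refine le_trans (sum_le_sum fun w _ => ?_)
    (le_trans (le_of_eq (sum_mul _ _ _).symm)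
      (mul_le_mul_of_nonneg_right (count_nonsurj l) (by positivity)))
  simp only [ind_and, ← mul_sum, mul_assoc]
  refine mul_le_mul_of_nonneg_left ?_ (ind_nonneg _)
  by_cases hj : j ≤ (univ.image w).card
  · rw [ind_pos hj, one_mul]
    refine (count_vals hn s t w).trans (mul_le_mul_of_nonneg_left ?_ (by positivity))
    exact pow_le_pow_of_le_one (by positivity) (by rw [div_le_one (by linarith)]; exact h4) hj
  · rw [ind_neg hj, zero_mul]; positivity

lemma count_surj (hn : 0 < n) {l : ℕ} (s t : Fin d → Fin n) :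
    ∑ w : Fin l → Fin d, ∑ a : Fin l → Fin n,
      ind (¬ (univ.image w).card < d ∧ pos s w a l = t) ≤
      (d : ℝ) ^ l * ((n : ℝ) ^ l * (1 / (n : ℝ)) ^ d) := by
  have h4 : (1 : ℝ) ≤ n := by exact_mod_cast hn
  refine le_trans (sum_le_card_nsmul _ _ ((n : ℝ) ^ l * (1 / (n : ℝ)) ^ d) fun w _ => ?_) (by simp)
  simp only [ind_and, ← mul_sum]
  by_cases hj : (univ.image w).card < d
  · rw [ind_neg (not_not.2 hj), zero_mul]; positivity
  · rw [ind_pos hj, one_mul]
    refine (count_vals hn s t w).trans (mul_le_mul_of_nonneg_left ?_ (by positivity))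
    exact pow_le_pow_of_le_one (by positivity) (by rw [div_le_one (by linarith)]; exact h4)
      (not_lt.1 hj)

lemma count_ge (hn : 0 < n) {l : ℕ} (s t : Fin d → Fin n) (j : ℕ) :
    ∑ w : Fin l → Fin d, ∑ a : Fin l → Fin n, ind (j ≤ (univ.image w).card ∧ pos s w a l = t) ≤
      (n : ℝ) ^ l * (d * ((d : ℝ) - 1) ^ l * (1 / (n : ℝ)) ^ j + (d : ℝ) ^ l * (1 / (n : ℝ)) ^ d) := by
  have := add_le_add (count_ns hn (l := l) s t j) (count_surj hn (l := l) s t)
  simp only [← sum_add_distrib] at this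
  refine le_trans (sum_le_sum fun w _ => sum_le_sum fun a _ => ?_) (this.trans (le_of_eq (by ring)))
  refine le_trans (ind_mono ?_) (ind_or_le _ _)
  tauto

lemma count_ns_sum {l : ℕ} (s : Fin d → Fin n) :
    ∑ t, ∑ w : Fin l → Fin d, ∑ a : Fin l → Fin n,
      ind ((univ.image w).card < d ∧ pos s w a l = t) ≤ d * ((d : ℝ) - 1) ^ l * (n : ℝ) ^ l := by
  rw [sum_comm]
  refine le_trans (le_of_eq ?_) (mul_le_mul_of_nonneg_right (count_nonsurj l) (by positivity))
  rw [sum_mul]
  refine sum_congr rfl fun w _ => ?_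
  rw [sum_comm]
  simp only [ind_and, ← mul_sum]
  congr 1
  have : ∀ a : Fin l → Fin n, ∑ t, ind (pos s w a l = t) = 1 := fun a => by
    rw [sum_eq_single (pos s w a l) (fun t _ ht => ind_neg (Ne.symm ht)) (by simp), ind_pos rfl]
  simp [this]

end Pool.Agent.Lib.MP_58a483_pr.H80
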