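import Pool.Agent.Lib.MP_58a483_pr.H80Nice

set_option autoImplicit false
set_option linter.unusedSectionVars false
set_option linter.unusedVariables false
set_option linter.deprecated false

namespace Pool.Agent.Lib.MP_58a483_pr.H80

open Finset

variable {d n : ℕ}

lemma Ret.congr {V : Type} [DecidableEq V] {Λ : Finset V} {x x' : ℕ → V} {l : ℕ} (h : Ret Λ x l)
    (e : ∀ t, t ≤ l → x' t = x t) : Ret Λ x' l where
  simple := fun i j h1 h2 h3 => h.simple i j h1 h2 (by rw [← e i (by omega), ← e j h2, h3])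
  first := by rw [e 0 (Nat.zero_le _)]; exact h.first
  last := by rw [e l le_rfl]; exact h.last
  inner := fun i h1 h2 => by rw [e i h2.le]; exact h.inner i h1 h2

lemma short_class {Λ : Finset (Fin d → Fin n)} {s t : Fin d → Fin n} {k : Fin d}
    (hst : t ∈ line k s) {m : ℕ} {w : Fin (m + 2) → Fin d} {a : Fin (m + 2) → Fin n}
    (h : Val Λ s t w a) (h0 : w 0 ≠ k) (hl : s ≠ t ∨ w (Fin.last (m + 1)) = k) :
    3 ≤ (univ.image w).card ∨ GW k (w 0) (w (Fin.last (m + 1))) m w := by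
  obtain ⟨hR, hend, hadj⟩ := h
  have ex : ∃ i, w i = k := by
    rcases hl with hl | hl
    · by_contra hne
      apply hl
      funext j
      by_cases hj : j = k
      · rcases pos_val s w a j (m + 2) le_rfl with ⟨b1, b2⟩ | ⟨i2, b1, b2, b3, b4⟩
        · rw [← b1, hend]
        · exact absurd ⟨i2, hj ▸ b2⟩ hne
      · exact (mem_line.1 hst j hj).symm
    · exact ⟨_, hl⟩
  by_cases h3 : 3 ≤ (univ.image w).card
  · exact Or.inl h3
  right
  obtain ⟨i0, hi0⟩ := ex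
  have two : ∀ i, w i = k ∨ w i = w 0 := by
    intro i
    by_contra hne
    push Not at hne
    apply h3
    have : ({k, w 0, w i} : Finset (Fin d)) ⊆ univ.image w := by
      intro j hj
      simp only [mem_insert, mem_singleton] at hj
      rcases hj with rfl | rfl | rfl
      · exact mem_image.2 ⟨i0, mem_univ _, hi0⟩
      · exact mem_image_of_mem _ (mem_univ _)
      · exact mem_image_of_mem _ (mem_univ _)
    have h4 := card_le_card this
    rwa [card_eq_three.2 ⟨k, w 0, w i, h0.symm, hne.1.symm, hne.2.symm, rfl⟩] at h4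
  refine ⟨two, rfl, rfl, ?_⟩
  by_contra hbad
  obtain ⟨b, b1, b2, b3⟩ := bad_word h0.symm two rfl hbad
  have b4 : b ≤ (i0 : ℕ) := by
    by_contra hh
    have := b3 i0
    rw [if_pos (by omega), hi0] at this
    exact h0 this.symm
  have b5 := i0.2
  refine hR.inner b (by omega) (by omega) ?_
  have : pos s w a b = s := by
    funext j
    rcases pos_val s w a j b (by omega) with ⟨c1, c2⟩ | ⟨i, c1, c2, c3, c4⟩
    · exact c1
    · have d1 : j = w 0 := by rw [← c2, b3 i, if_pos c1]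
      have d2 : i ∈ Last w := mem_Last.2 fun i' hi' e => by
        by_cases hb : (i' : ℕ) < b
        · exact c3 i' hi' hb (e.trans c2)
        · rw [b3 i', if_neg hb, c2, d1] at e; exact h0 e.symm
      rw [c4, ← pos_last s w a d2, hend, c2]
      exact mem_line.1 hst j (d1 ▸ h0)
  rw [this]; exact hR.first

/-- there is an open excursion with `y` hanging at a vertex with index in `I` -/
def HE (Λ : Finset (Fin d → Fin n)) (s t : Fin d → Fin n) (P : Fin d → Fin d → Prop)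
    (I : ℕ → Finset ℕ) (y : Fin d → Fin n) (ω : Finset (Sym2 (Fin d → Fin n))) : Prop :=
  ∃ (l : ℕ) (x : ℕ → Fin d → Fin n) (i : ℕ) (f g : Fin d), Ret Λ x l ∧ x 0 = s ∧ x l = t ∧ 1 ≤ l ∧
    AdjC f (x 0) (x 1) ∧ AdjC g (x (l - 1)) (x l) ∧ P f g ∧ i ∈ I l ∧ pe x l ⊆ ω ∧
    Conn (ω \ pe x l) (x i) y

/-- number of good words -/
noncomputable def NW (k f g : Fin d) (m : ℕ) : ℝ := ∑ w : Fin (m + 2) → Fin d, ind (GW k f g m w)

/-- weight of the walks using at least `j` directions -/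
noncomputable def uu (d : ℕ) (c z : ℝ) (l j : ℕ) : ℝ :=
  d * (((d : ℝ) - 1) * c) ^ l * z ^ j + (d * c) ^ l * z ^ d

lemma NW_nonneg (k f g : Fin d) (m : ℕ) : 0 ≤ NW k f g m := sum_nonneg fun _ _ => ind_nonneg _

lemma count_GW_val (hn : 0 < n) (s t : Fin d → Fin n) {k f g : Fin d} (hk : k ≠ f) (m : ℕ) :
    ∑ w : Fin (m + 2) → Fin d, ∑ a : Fin (m + 2) → Fin n,
      ind (GW k f g m w ∧ pos s w a (m + 2) = t) ≤ NW k f g m * (n : ℝ) ^ m := by
  unfold NW
  rw [sum_mul]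
  refine sum_le_sum fun w _ => ?_
  simp only [ind_and, ← mul_sum]
  by_cases hw : GW k f g m w
  · refine mul_le_mul_of_nonneg_left ((count_vals hn s t w).trans (le_of_eq ?_)) (ind_nonneg _)
    have h4 : (n : ℝ) ≠ 0 := by exact_mod_cast hn.ne'
    rw [hw.image hk]; field_simp; ring
  · rw [ind_neg hw]; simp

section
variable (hn : 0 < n) {p : ℝ} (h0 : 0 ≤ p) (h1 : p ≤ 1 / 2) {χ : ℝ}
  (hχ : ∀ a, ∑ y, tau (EH d n) p a y = χ)
include hn h0 h1 hχ

lemma hang_upper {L : ℕ} (hL : 2 ≤ L) {μ : ℝ}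
    (hμ : ∀ a b, Ex (EH d n) p (fun ω => ind (Long L a b ω)) ≤ μ)
    (Λ : Finset (Fin d → Fin n)) {s t : Fin d → Fin n} {k : Fin d} (hst : t ∈ line k s)
    (P : Fin d → Fin d → Prop) (I : ℕ → Finset ℕ) (T : Finset (Fin d × Fin d))
    (hP : ∀ f g, P f g → f ≠ k ∧ (s ≠ t ∨ g = k) ∧ ((g = k ∨ g = f) → (f, g) ∈ T))
    (hT : ∀ fg ∈ T, k ≠ fg.1)
    (hI : ∀ l i, 1 ≤ l → i ∈ I l → 0 < i ∧ i ≤ l ∧ (i < l ∨ s ≠ t)) :
    ∑ y, Ex (EH d n) p (fun ω => ind (HE Λ s t P I y ω)) ≤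
      χ * (∑ m ∈ range (2 * L), (I (m + 2)).card * ((∑ fg ∈ T, NW k fg.1 fg.2 m) *
        ((p * n) ^ (m + 2) * (1 / (n : ℝ)) ^ 2) + uu d (p * n) (1 / n) (m + 2) 3)) +
        2 * μ * χ ^ 2 := by
  have hp1 : p ≤ 1 := by linarith
  have hχ0 : 0 ≤ χ := by
    rw [← hχ s]; exact sum_nonneg fun _ _ => tau_nonneg h0 h1 _ _
  have n0 : (n : ℝ) ≠ 0 := by exact_mod_cast hn.ne'
  refine le_trans ?_ (add_le_add le_rfl (hang_long h0 h1 hχ hL hμ s t))
  set C : (m : ℕ) → (Fin (m + 2) → Fin d) → (Fin (m + 2) → Fin n) → Prop := fun m w a =>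
    ((∃ fg ∈ T, GW k fg.1 fg.2 m w) ∨ 3 ≤ (univ.image w).card) ∧ pos s w a (m + 2) = t with hC
  have step : ∀ y, Ex (EH d n) p (fun ω => ind (HE Λ s t P I y ω)) ≤
      (∑ m ∈ range (2 * L), ∑ i ∈ I (m + 2), ∑ w, ∑ a, ind (C m w a) *
        (p ^ (m + 2) * tau (EH d n) p (pos s w a i) y)) +
      Ex (EH d n) p (fun ω => ind (∃ (l : ℕ) (x : ℕ → Fin d → Fin n) (i : ℕ), 2 * L ≤ l ∧ x 0 = s ∧
        x l = t ∧ (∀ i j, i < j → j ≤ l → x i = x j → i = 0 ∧ j = l) ∧ 0 < i ∧ i ≤ l ∧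
        (i < l ∨ s ≠ t) ∧ pe x l ⊆ ω ∧ Conn (ω \ pe x l) (x i) y)) := by
    intro y
    have k1 : ∀ m (w : Fin (m + 2) → Fin d) (a : Fin (m + 2) → Fin n) (i : ℕ),
        Ex (EH d n) p (fun ω => ind (C m w a ∧ (pe (pos s w a) (m + 2)).card = m + 2 ∧
          pe (pos s w a) (m + 2) ⊆ EH d n ∧ pe (pos s w a) (m + 2) ⊆ ω ∧
          Conn (ω \ pe (pos s w a) (m + 2)) (pos s w a i) y)) ≤
        ind (C m w a) * (p ^ (m + 2) * tau (EH d n) p (pos s w a i) y) := by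
      intro m w a i
      simp only [ind_and (C m w a)]
      rw [Ex_mul_left]
      refine mul_le_mul_of_nonneg_left ?_ (ind_nonneg _)
      by_cases hc : (pe (pos s w a) (m + 2)).card = m + 2 ∧ pe (pos s w a) (m + 2) ⊆ EH d n
      · have := sup_conn h0 h1 hc.2 (pos s w a i) y
        rw [hc.1] at this
        exact le_trans (Ex_mono h0 hp1 fun ω _ => ind_mono fun h => h.2.2) this
      · refine le_trans (Ex_mono h0 hp1 (g := fun _ => 0) fun ω _ =>
          le_of_eq (ind_neg fun h => hc ⟨h.1, h.2.1⟩)) ?_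
        rw [Ex_const]
        exact mul_nonneg (pow_nonneg h0 _) (tau_nonneg h0 h1 _ _)
    refine le_trans ?_ (add_le_add (sum_le_sum fun m _ => sum_le_sum fun i _ =>
      sum_le_sum fun w _ => sum_le_sum fun a _ => k1 m w a i) le_rfl)
    simp only [← Ex_sum, ← Ex_add]
    refine Ex_mono h0 hp1 fun ω hω => ?_
    refine ind_le_of (add_nonneg (sum_nonneg fun _ _ => sum_nonneg fun _ _ => sum_nonneg fun _ _ =>
      sum_nonneg fun _ _ => ind_nonneg _) (ind_nonneg _)) ?_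
    rintro ⟨l, x, i, f, g, hR, rfl, rfl, hl, af, ag, hfg, hi, hpe, hc⟩
    obtain ⟨p1, p2, p3⟩ := hP f g hfg
    obtain ⟨i1, i2, i3⟩ := hI l i hl hi
    by_cases hlong : 2 * L ≤ l
    · rw [ind_pos ⟨l, x, i, hlong, rfl, rfl, hR.simple, i1, i2, i3, hpe, hc⟩]
      exact le_add_of_nonneg_left (sum_nonneg fun _ _ => sum_nonneg fun _ _ => sum_nonneg fun _ _ =>
        sum_nonneg fun _ _ => ind_nonneg _)
    refine le_add_of_le_of_nonneg ?_ (ind_nonneg _)
    have l2 : 2 ≤ l := by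
      by_contra hh
      obtain rfl : l = 1 := by omega
      rcases p2 with p2 | p2
      · exact p1 (af.uniq (line_adj (mem_line.2 fun _ _ => rfl) hst p2))
      · exact p1 ((af.uniq ag).trans p2)
    obtain ⟨m, rfl⟩ : ∃ m, l = m + 2 := ⟨l - 2, by omega⟩
    obtain ⟨w, a, hw, ha⟩ := exists_code (hpe.trans hω)
    have hV : Val Λ (x 0) (x (m + 2)) w a := ⟨hR.congr ha, ha _ le_rfl, fun i => by
      rw [ha i i.2.le, ha (i + 1) i.2]; exact hw i⟩
    have e1 : w 0 = f := (hw 0).uniq af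
    have e2 : w (Fin.last (m + 1)) = g := (hw (Fin.last (m + 1))).uniq ag
    have cl := short_class hst hV (e1 ▸ p1) (e2 ▸ p2)
    rw [e1, e2] at cl
    have m1 : 1 ≤ m := by
      rcases cl with cl | cl
      · have := card_image_le (s := univ) (f := w)
        simp only [card_univ, Fintype.card_fin] at this
        omega
      · exact cl.one_le p1.symm
    have hC' : C m w a := by
      refine ⟨?_, ha _ le_rfl⟩
      rcases cl with cl | cl
      · exact Or.inr cl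
      · exact Or.inl ⟨(f, g), p3 (e2 ▸ cl.1 _), cl⟩
    have e3 := pe_congr ha
    refine le_trans ?_ (single_le_sum
      (fun _ _ => sum_nonneg fun _ _ => sum_nonneg fun _ _ => sum_nonneg fun _ _ => ind_nonneg _)
      (mem_range.2 (show m < 2 * L by omega)))
    refine le_trans ?_ (single_le_sum
      (fun _ _ => sum_nonneg fun _ _ => sum_nonneg fun _ _ => ind_nonneg _) hi)
    refine le_trans ?_ (single_le_sum (fun _ _ => sum_nonneg fun _ _ => ind_nonneg _) (mem_univ w))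
    refine le_trans ?_ (single_le_sum (fun _ _ => ind_nonneg _) (mem_univ a))
    rw [ind_pos]
    rw [e3, ha i i2]
    exact ⟨hC', card_pe hR.simple (Or.inl (by omega)), hpe.trans hω, hpe, hc⟩
  refine le_trans (sum_le_sum fun y _ => step y) ?_
  rw [sum_add_distrib]
  refine add_le_add ?_ le_rfl
  rw [sum_comm, mul_sum]
  refine sum_le_sum fun m _ => ?_
  rw [sum_comm]
  have k2 : ∀ i, ∑ y, ∑ w, ∑ a, ind (C m w a) * (p ^ (m + 2) * tau (EH d n) p (pos s w a i) y) =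
      (∑ w, ∑ a, ind (C m w a)) * (p ^ (m + 2) * χ) := by
    intro i
    rw [sum_comm, sum_mul]
    refine sum_congr rfl fun w _ => ?_
    rw [sum_comm, sum_mul]
    refine sum_congr rfl fun a _ => ?_
    rw [← mul_sum, ← mul_sum, hχ]
  simp only [k2]
  rw [sum_const, nsmul_eq_mul]
  have k3 : ∑ w, ∑ a, ind (C m w a) ≤ (∑ fg ∈ T, NW k fg.1 fg.2 m) * (n : ℝ) ^ m +
      (n : ℝ) ^ (m + 2) * (d * ((d : ℝ) - 1) ^ (m + 2) * (1 / (n : ℝ)) ^ 3 +
        (d : ℝ) ^ (m + 2) * (1 / (n : ℝ)) ^ d) := by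
    refine le_trans ?_ (add_le_add le_rfl (count_ge hn s t 3))
    rw [sum_mul]
    refine le_trans ?_ (add_le_add (sum_le_sum fun fg h => count_GW_val hn s t (hT fg h) m) le_rfl)
    rw [sum_comm (s := T), ← sum_add_distrib]
    refine sum_le_sum fun w _ => ?_
    rw [sum_comm (s := T), ← sum_add_distrib]
    refine sum_le_sum fun a _ => ?_
    refine le_trans ?_ (add_le_add (ind_exists_le _ _) le_rfl)
    refine le_trans (ind_mono ?_) (ind_or_le _ _)
    rintro ⟨⟨fg, h1, h2⟩ | h, h3⟩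
    · exact Or.inl ⟨fg, h1, h2, h3⟩
    · exact Or.inr ⟨h, h3⟩
  calc _ ≤ (I (m + 2)).card * (((∑ fg ∈ T, NW k fg.1 fg.2 m) * (n : ℝ) ^ m +
      (n : ℝ) ^ (m + 2) * (d * ((d : ℝ) - 1) ^ (m + 2) * (1 / (n : ℝ)) ^ 3 +
        (d : ℝ) ^ (m + 2) * (1 / (n : ℝ)) ^ d)) * (p ^ (m + 2) * χ)) :=
        mul_le_mul_of_nonneg_left (mul_le_mul_of_nonneg_right k3 (by positivity)) (by positivity)
    _ = _ := by
        unfold uu
        simp only [mul_pow]
        field_simp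
        ring

lemma hang_lower {η : ℝ} (hη0 : 0 ≤ η)
    (hη : ∀ a b c, a ≠ b → c ≠ a →
      tau (EH d n) p a b + ∑ z, tau (EH d n) p c z * tau (EH d n) p z a ≤ η)
    {Λ : Finset (Fin d → Fin n)} {s t : Fin d → Fin n} {k f g : Fin d}
    (hk : k ≠ f) (hs : s ∈ Λ) (ht : t ∈ Λ) (hΛ : Λ ⊆ line k s) (hst : s k = t k → g = k)
    (m i : ℕ) :
    χ * (NW k f g m * ((p * n) ^ (m + 2) * (1 / (n : ℝ)) ^ 2) *
      (1 - ((Λ.card : ℝ) + m + 3) ^ 2 * (1 / n + 2 * p + η))) ≤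
    ∑ w : Fin (m + 2) → Fin d, ∑ a : Fin (m + 2) → Fin n, ∑ y, Ex (EH d n) p
      (fun ω => ind (GW k f g m w ∧ Val Λ s t w a ∧ Good Λ (pos s w a) (m + 2) i y ω)) := by
  have hχ0 : 0 ≤ χ := by
    rw [← hχ s]; exact sum_nonneg fun _ _ => tau_nonneg h0 h1 _ _
  have n0 : (0 : ℝ) < n := by exact_mod_cast hn
  unfold NW
  rw [sum_mul, sum_mul, mul_sum]
  refine sum_le_sum fun w _ => ?_
  by_cases hw : GW k f g m w
  swap
  · rw [ind_neg hw]
    simp only [zero_mul, mul_zero]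
    exact sum_nonneg fun _ _ => sum_nonneg fun _ _ =>
      Ex_nonneg h0 (by linarith) fun _ _ => ind_nonneg _
  rw [ind_pos hw, one_mul]
  set δ : ℝ := 2 * ((m + 2 : ℕ) : ℝ) * p + ((Λ.card : ℝ) + ((m + 2 : ℕ) : ℝ) + 1) ^ 2 * η with hδ
  have δ0 : 0 ≤ δ := by positivity
  have k1 : ∀ a : Fin (m + 2) → Fin n, ind (Val Λ s t w a) * (p ^ (m + 2) * χ * (1 - δ)) ≤
      ∑ y, Ex (EH d n) p
      (fun ω => ind (GW k f g m w ∧ Val Λ s t w a ∧ Good Λ (pos s w a) (m + 2) i y ω)) := by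
    intro a
    by_cases ha : Val Λ s t w a
    · have m1 := hw.one_le hk
      have := good_lower h0 h1 hχ hη0 hη Λ (x := pos s w a) (l := m + 2)
        (pe_sub.2 fun j hj => mem_EH.2 ⟨_, ha.2.2 ⟨j, hj⟩⟩)
        (card_pe ha.1.simple (Or.inl (by omega))) i
      rw [ind_pos ha, one_mul, hδ, ← sub_sub]
      refine this.trans (le_of_eq ?_)
      exact sum_congr rfl fun y _ => Ex_congr fun ω _ => ind_congr (by tauto)
    · rw [ind_neg ha, zero_mul]
      exact sum_nonneg fun _ _ => Ex_nonneg h0 (by linarith) fun _ _ => ind_nonneg _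
  refine le_trans ?_ (sum_le_sum fun a _ => k1 a)
  rw [← sum_mul]
  have k2 := count_val hn hk hs ht hΛ hst hw
  have k3 : ∑ a, ind (Val Λ s t w a) ≤ (n : ℝ) ^ m := by
    refine le_trans (sum_le_sum fun a _ => ind_mono fun h => h.2.1) ?_
    refine (count_vals hn s t w).trans (le_of_eq ?_)
    rw [hw.image hk]; field_simp; ring
  set A := ∑ a, ind (Val Λ s t w a)
  have k4 : (p * n) ^ (m + 2) * (1 / (n : ℝ)) ^ 2 = p ^ (m + 2) * (n : ℝ) ^ m := by
    rw [mul_pow]; field_simp; ring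
  have K0 : (0 : ℝ) ≤ Λ.card := Nat.cast_nonneg _
  have M0 : (0 : ℝ) ≤ m := Nat.cast_nonneg _
  have k5 : m * ((Λ.card : ℝ) + 1 + m) / n + δ ≤
      ((Λ.card : ℝ) + m + 3) ^ 2 * (1 / n + 2 * p + η) := by
    rw [hδ]
    push_cast
    have a1 : m * ((Λ.card : ℝ) + 1 + m) / n ≤ ((Λ.card : ℝ) + m + 3) ^ 2 * (1 / n) := by
      rw [mul_one_div]
      exact div_le_div_of_nonneg_right (by nlinarith) n0.le
    have a2 : 2 * ((m : ℝ) + 2) * p ≤ ((Λ.card : ℝ) + m + 3) ^ 2 * (2 * p) := by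
      have : (m : ℝ) + 2 ≤ ((Λ.card : ℝ) + m + 3) ^ 2 := by nlinarith
      nlinarith
    nlinarith
  rw [k4]
  have k6 : (n : ℝ) ^ m * (1 - ((Λ.card : ℝ) + m + 3) ^ 2 * (1 / n + 2 * p + η)) ≤ A * (1 - δ) := by
    have a1 := mul_le_mul_of_nonneg_right k3 δ0
    have a2 := mul_le_mul_of_nonneg_left k5 (pow_nonneg n0.le m)
    nlinarith
  calc _ = (p ^ (m + 2) * χ) * ((n : ℝ) ^ m *
        (1 - ((Λ.card : ℝ) + m + 3) ^ 2 * (1 / n + 2 * p + η))) := by ring
    _ ≤ (p ^ (m + 2) * χ) * (A * (1 - δ)) := mul_le_mul_of_nonneg_left k6 (by positivity)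
    _ = _ := by ring

end

lemma sum_ind_dep {β : ℕ → Type} [∀ m, Fintype (β m)] (S : Finset ℕ) (F : (m : ℕ) → β m → Prop)
    (h1 : ∀ m b m' b', F m b → F m' b' → m = m') (h2 : ∀ m b b', F m b → F m b' → b = b')
    {X : ℝ} (h0 : 0 ≤ X) (hX : ∀ m b, F m b → 1 ≤ X) : ∑ m ∈ S, ∑ b, ind (F m b) ≤ X := by
  classical
  by_cases h : ∃ m ∈ S, ∃ b, F m b
  · obtain ⟨m, hm, b, hb⟩ := h
    rw [sum_eq_single m, sum_eq_single b, ind_pos hb]
    · exact hX m b hb
    · intro b' _ hne; exact ind_neg fun h => hne (h2 m b' b h hb)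
    · simp
    · intro m' _ hne
      exact sum_eq_zero fun b' _ => ind_neg fun h => hne (h1 m' b' m b h hb)
    · intro h; exact absurd hm h
  · rw [sum_eq_zero fun m hm => sum_eq_zero fun b _ => ind_neg fun hb => h ⟨m, hm, b, hb⟩]
    exact h0

end Pool.Agent.Lib.MP_58a483_pr.H80
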