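import Mathlib

set_option autoImplicit false
set_option linter.unusedSectionVars false
set_option linter.unusedVariables false
set_option linter.deprecated false

namespace Pool.Agent.Lib.MP_58a483_pr.H80

open Finset

/-- generating function of the excursions from a line -/
noncomputable def AA (c : ℝ) : ℝ :=
  c ^ 2 * (1 / 2 * (1 - 2 * c)⁻¹ ^ 2 + 2 * (1 - 2 * c)⁻¹ - 3 / 2 * (1 - c)⁻¹ ^ 2 - (1 - c)⁻¹)

/-- generating function of the cycles through a point -/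
noncomputable def BB (c : ℝ) : ℝ :=
  c ^ 2 * ((1 - 2 * c)⁻¹ ^ 2 - 2 * (1 - c)⁻¹ ^ 3 + (1 - c)⁻¹ ^ 2)

lemma hs_congr {f g : ℕ → ℝ} {a : ℝ} (h : HasSum f a) (e : ∀ m, g m = f m) : HasSum g a := by
  rw [funext e]; exact h

lemma hs0 {r : ℝ} (h0 : 0 ≤ r) (h1 : r < 1) : HasSum (fun m : ℕ => r ^ m) (1 - r)⁻¹ :=
  hasSum_geometric_of_lt_one h0 h1

lemma hs1 {r : ℝ} (h0 : 0 ≤ r) (h1 : r < 1) :
    HasSum (fun m : ℕ => ((m : ℝ) + 1) * r ^ m) ((1 - r)⁻¹ ^ 2) := by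
  have := hasSum_choose_mul_geometric_of_norm_lt_one 1 (r := r)
    (by rw [Real.norm_eq_abs, abs_of_nonneg h0]; exact h1)
  simp only [Nat.choose_one_right] at this
  push_cast at this
  rwa [one_div, ← inv_pow] at this

lemma hs2 {r : ℝ} (h0 : 0 ≤ r) (h1 : r < 1) :
    HasSum (fun m : ℕ => ((m : ℝ) + 1) * (m + 2) / 2 * r ^ m) ((1 - r)⁻¹ ^ 3) := by
  have := hasSum_choose_mul_geometric_of_norm_lt_one 2 (r := r)
    (by rw [Real.norm_eq_abs, abs_of_nonneg h0]; exact h1)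
  rw [one_div, ← inv_pow] at this
  simp only [Nat.cast_choose_two] at this
  push_cast at this
  exact hs_congr this fun m => by ring

lemma hsA {c : ℝ} (h0 : 0 ≤ c) (h1 : c ≤ 1 / 4) :
    HasSum (fun m : ℕ => (((2 : ℝ) ^ m - (m + 1)) + (m + 3) / 2 * (2 ^ m - 1)) * c ^ (m + 2))
      (AA c) := by
  have a0 := hs0 (r := 2 * c) (by linarith) (by linarith)
  have a1 := hs1 (r := 2 * c) (by linarith) (by linarith)
  have b0 := hs0 h0 (by linarith)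
  have b1 := hs1 h0 (by linarith)
  have := ((((a1.mul_left (1 / 2)).add (a0.mul_left 2)).sub (b1.mul_left (3 / 2))).sub b0).mul_left
    (c ^ 2)
  exact hs_congr this fun m => by rw [mul_pow]; ring

lemma hsB {c : ℝ} (h0 : 0 ≤ c) (h1 : c ≤ 1 / 4) :
    HasSum (fun m : ℕ => (((m : ℝ) + 1) * (2 ^ m - (m + 1))) * c ^ (m + 2)) (BB c) := by
  have a1 := hs1 (r := 2 * c) (by linarith) (by linarith)
  have b1 := hs1 h0 (by linarith)
  have b2 := hs2 h0 (by linarith)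
  have := ((a1.sub (b2.mul_left 2)).add b1).mul_left (c ^ 2)
  exact hs_congr this fun m => by rw [mul_pow]; ring

lemma two_pow_ge (m : ℕ) : (m : ℝ) + 1 ≤ 2 ^ m := by
  have := one_add_mul_le_pow (a := (1 : ℝ)) (by norm_num) m
  norm_num at this
  linarith

lemma aa_bd (m : ℕ) : 0 ≤ ((2 : ℝ) ^ m - (m + 1)) + (m + 3) / 2 * (2 ^ m - 1) ∧
    ((2 : ℝ) ^ m - (m + 1)) + (m + 3) / 2 * (2 ^ m - 1) ≤ (m + 4) * 2 ^ m := by
  have h := two_pow_ge m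
  have m0 : (0 : ℝ) ≤ m := Nat.cast_nonneg _
  constructor <;> nlinarith

lemma bb_bd (m : ℕ) : 0 ≤ ((m : ℝ) + 1) * (2 ^ m - (m + 1)) ∧
    ((m : ℝ) + 1) * (2 ^ m - (m + 1)) ≤ (m + 4) * 2 ^ m := by
  have h := two_pow_ge m
  have m0 : (0 : ℝ) ≤ m := Nat.cast_nonneg _
  constructor <;> nlinarith

lemma poly_geo_bd {r : ℝ} (h0 : 0 < r) (h1 : r < 1) (j : ℕ) :
    ∃ C : ℝ, 0 ≤ C ∧ ∀ N, ∑ m ∈ range N, ((m : ℝ) + 4) ^ j * r ^ m ≤ C := by
  have a := (summable_nat_add_iff 4).2 (summable_pow_mul_geometric_of_norm_lt_one j (r := r)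
    (by rw [Real.norm_eq_abs, abs_of_pos h0]; exact h1))
  have b : Summable fun m : ℕ => ((m : ℝ) + 4) ^ j * r ^ m := by
    refine (a.mul_left (r ^ 4)⁻¹).congr fun m => ?_
    push_cast
    field_simp
    ring
  exact ⟨_, tsum_nonneg fun m => by positivity, fun N =>
    b.sum_le_tsum _ fun m _ => by positivity⟩

lemma pow_geo_bd {r : ℝ} (h0 : 0 < r) (h1 : r < 1) (j : ℕ) :
    ∃ C : ℝ, 0 ≤ C ∧ ∀ n : ℕ, 0 < n → r ^ n ≤ C * (1 / (n : ℝ)) ^ j := by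
  obtain ⟨C, c0, hC⟩ := poly_geo_bd h0 h1 j
  refine ⟨C, c0, fun n hn => ?_⟩
  have n0 : (0 : ℝ) < n := by exact_mod_cast hn
  have a := (single_le_sum (f := fun m : ℕ => ((m : ℝ) + 4) ^ j * r ^ m)
    (fun m _ => by positivity) (self_mem_range_succ n)).trans (hC _)
  rw [one_div, inv_pow, ← div_eq_mul_inv, le_div_iff₀ (by positivity), mul_comm]
  exact le_trans (mul_le_mul_of_nonneg_right (pow_le_pow_left₀ n0.le (by linarith) j)
    (by positivity)) a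

lemma ser_lower : ∃ C : ℝ, 0 ≤ C ∧ ∀ (a : ℕ → ℝ) (c A K ζ κ χ u X : ℝ),
    (∀ m, 0 ≤ a m ∧ a m ≤ (m + 4) * 2 ^ m) → 0 ≤ c → c ≤ 1 / 4 →
    HasSum (fun m => a m * c ^ (m + 2)) A → 1 ≤ K → 0 ≤ ζ → 0 ≤ κ → 0 ≤ χ → 0 ≤ u →
    (∀ N, χ * ∑ m ∈ range N, (κ * a m) * (c ^ (m + 2) * u) * (1 - (K + m + 3) ^ 2 * ζ) ≤ X) →
    χ * κ * u * (A - C * K ^ 2 * ζ) ≤ X := by
  obtain ⟨C, c0, hC⟩ := poly_geo_bd (r := 1 / 2) (by norm_num) (by norm_num) 3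
  refine ⟨C, c0, fun a c A K ζ κ χ u X ha h0 h1 hA hK hζ hκ hχ hu h => ?_⟩
  refine le_of_tendsto' ((hA.tendsto_sum_nat.sub_const _).const_mul _) fun N => le_trans ?_ (h N)
  have e : χ * ∑ m ∈ range N, (κ * a m) * (c ^ (m + 2) * u) * (1 - (K + m + 3) ^ 2 * ζ) =
      χ * κ * u * (∑ m ∈ range N, a m * c ^ (m + 2) -
        (∑ m ∈ range N, a m * c ^ (m + 2) * (K + m + 3) ^ 2) * ζ) := by
    rw [sum_mul, ← sum_sub_distrib, mul_sum, mul_sum]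
    exact sum_congr rfl fun m _ => by ring
  rw [e]
  refine mul_le_mul_of_nonneg_left (sub_le_sub_left (mul_le_mul_of_nonneg_right ?_ hζ) _)
    (by positivity)
  refine le_trans ?_ (mul_le_mul_of_nonneg_right (hC N) (by positivity))
  rw [sum_mul]
  refine sum_le_sum fun m _ => ?_
  have m0 : (0 : ℝ) ≤ m := Nat.cast_nonneg _
  have k1 : c ^ (m + 2) ≤ (1 / 4) ^ m := (pow_le_pow_left₀ h0 h1 _).trans
    (pow_le_pow_of_le_one (by norm_num) (by norm_num) (by omega))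
  have k2 : (K + m + 3) ^ 2 ≤ ((m + 4) * K) ^ 2 := pow_le_pow_left₀ (by positivity) (by nlinarith) 2
  calc _ ≤ (((m : ℝ) + 4) * 2 ^ m) * (1 / 4) ^ m * ((m + 4) * K) ^ 2 :=
        mul_le_mul (mul_le_mul (ha m).2 k1 (by positivity) (by positivity)) k2 (by positivity)
          (by positivity)
    _ = _ := by
        rw [show (1 / 2 : ℝ) = 2 * (1 / 4) by norm_num, mul_pow 2]; ring

lemma ser_upper {a : ℕ → ℝ} {c A : ℝ} (ha : ∀ m, 0 ≤ a m ∧ a m ≤ (m + 4) * 2 ^ m) (h0 : 0 ≤ c)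
    (hA : HasSum (fun m => a m * c ^ (m + 2)) A) (N : ℕ) :
    ∑ m ∈ range N, a m * c ^ (m + 2) ≤ A :=
  sum_le_hasSum _ (fun m _ => mul_nonneg (ha m).1 (pow_nonneg h0 _)) hA

end Pool.Agent.Lib.MP_58a483_pr.H80
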