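import Pool.Agent.Lib.MP_58a483_pr.H80Bnd
import Pool.Agent.Lib.MP_58a483_pr.H80Ser

set_option autoImplicit false
set_option linter.unusedSectionVars false
set_option linter.unusedVariables false
set_option linter.deprecated false

namespace Pool.Agent.Lib.MP_58a483_pr.H80

open Finset

lemma uu_est {d : ℕ} (hd : 7 ≤ d) {C0 : ℝ} (hC0 : 0 ≤ C0) : ∃ D E M : ℝ, 0 ≤ D ∧ 0 ≤ E ∧ 0 ≤ M ∧
    ∀ (n : ℕ) (c : ℝ), 40 ≤ n → 2 * d * C0 ≤ n → 0 ≤ c → d * c ≤ 1 + C0 / n →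
      c ≤ 1 / 4 ∧ uu d c (1 / n) n 0 ≤ M * (1 / (n : ℝ)) ^ d ∧
      ∑ l ∈ range n, d * (((d : ℝ) - 1) * c) ^ l ≤ D ∧
      ∑ l ∈ range n, (d * c) ^ l * (1 / (n : ℝ)) ^ d ≤ n * E * (1 / (n : ℝ)) ^ d ∧
      ∑ m ∈ range (2 * n), ((m : ℝ) + 4) * uu d c (1 / n) (m + 2) 3 ≤
        (D + 5 * E) * (1 / (n : ℝ)) ^ 3 := by
  have d7 : (7 : ℝ) ≤ d := by exact_mod_cast hd
  set r : ℝ := 1 - 1 / (2 * d) with hr
  have e1 : 1 / (2 * (d : ℝ)) ≤ 1 / 14 := one_div_le_one_div_of_le (by norm_num) (by linarith)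
  have e2 : 0 < 1 / (2 * (d : ℝ)) := by positivity
  have r0 : 0 < r := by linarith
  have r1 : r < 1 := by linarith
  obtain ⟨C2, c2, h2⟩ := poly_geo_bd r0 r1 1
  obtain ⟨C3, c3, h3⟩ := pow_geo_bd r0 r1 d
  refine ⟨d * C2, Real.exp (3 * C0), d * C3 + Real.exp (3 * C0), by positivity, by positivity,
    by positivity, fun n c hn hC c0 hc => ?_⟩
  have n0 : (40 : ℝ) ≤ n := by exact_mod_cast hn
  have a1 : C0 / n ≤ 1 / (2 * d) := by
    rw [div_le_div_iff₀ (by linarith) (by linarith)]; linarith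
  have a2 : ((d : ℝ) - 1) * c ≤ r := by
    have : (d : ℝ) * (1 / (2 * d)) = 1 / 2 := by field_simp
    have k : d * (((d : ℝ) - 1) * c) ≤ d * r := by rw [hr]; nlinarith
    exact le_of_mul_le_mul_left k (by linarith)
  have a3 : 0 ≤ ((d : ℝ) - 1) * c := mul_nonneg (by linarith) c0
  have a4 : ∀ l, (((d : ℝ) - 1) * c) ^ l ≤ r ^ l := fun l => pow_le_pow_left₀ a3 a2 l
  have a5 : ∀ l : ℕ, l ≤ 3 * n → (d * c) ^ l ≤ Real.exp (3 * C0) := fun l hl => by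
    have k1 : d * c ≤ Real.exp (C0 / n) := by have := Real.add_one_le_exp (C0 / n); linarith
    refine (pow_le_pow_left₀ (by positivity) k1 l).trans ?_
    rw [← Real.exp_nat_mul]
    refine Real.exp_le_exp.2 ?_
    have : (l : ℝ) ≤ 3 * n := by exact_mod_cast hl
    rw [← mul_div_assoc, div_le_iff₀ (by linarith)]
    nlinarith
  set z : ℝ := 1 / n with hz
  have z0 : 0 < z := by positivity
  have zn : n * z = 1 := by rw [hz]; field_simp
  have z1 : z ≤ 1 := by nlinarith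
  have w1 : (n : ℝ) ^ 2 * z ^ d ≤ z ^ 3 := by
    have k1 : z ^ d ≤ z ^ 5 := pow_le_pow_of_le_one z0.le z1 (by omega)
    calc _ ≤ (n : ℝ) ^ 2 * z ^ 5 := mul_le_mul_of_nonneg_left k1 (by positivity)
      _ = (n * z) ^ 2 * z ^ 3 := by ring
      _ = _ := by rw [zn]; ring
  refine ⟨by nlinarith, ?_, ?_, ?_, ?_⟩
  · unfold uu
    have k1 := mul_le_mul_of_nonneg_left ((a4 n).trans (h3 n (by omega))) (show 0 ≤ (d : ℝ) by linarith)
    have k2 := mul_le_mul_of_nonneg_right (a5 n (by omega)) (pow_nonneg z0.le d)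
    rw [pow_zero, mul_one]
    linarith
  · rw [← mul_sum]
    refine mul_le_mul_of_nonneg_left (le_trans (sum_le_sum fun l _ => ?_) (h2 n)) (by linarith)
    refine (a4 l).trans (le_mul_of_one_le_left (by positivity) ?_)
    have : (0 : ℝ) ≤ l := Nat.cast_nonneg _
    rw [pow_one]; linarith
  · refine (sum_le_card_nsmul _ _ (Real.exp (3 * C0) * z ^ d) fun l hl =>
      mul_le_mul_of_nonneg_right (a5 l (by have := mem_range.1 hl; omega))
        (pow_nonneg z0.le d)).trans (le_of_eq ?_)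
    rw [card_range, nsmul_eq_mul, mul_assoc]
  · have k1 : ∀ m ∈ range (2 * n), ((m : ℝ) + 4) * uu d c z (m + 2) 3 ≤
        d * z ^ 3 * (((m : ℝ) + 4) ^ 1 * r ^ m) + (2 * n + 4) * (Real.exp (3 * C0) * z ^ d) := by
      intro m hm
      have m1 := mem_range.1 hm
      have m2 : (m : ℝ) ≤ 2 * n := by exact_mod_cast m1.le
      have m0 : (0 : ℝ) ≤ m := Nat.cast_nonneg _
      unfold uu
      rw [mul_add]
      refine add_le_add ?_ (mul_le_mul (by linarith) (mul_le_mul_of_nonneg_right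
        (a5 _ (by omega)) (pow_nonneg z0.le d)) (by positivity) (by positivity))
      have : (((d : ℝ) - 1) * c) ^ (m + 2) ≤ r ^ m :=
        (a4 _).trans (pow_le_pow_of_le_one r0.le r1.le (by omega))
      calc _ = (d * z ^ 3 * (m + 4)) * (((d : ℝ) - 1) * c) ^ (m + 2) := by ring
        _ ≤ (d * z ^ 3 * (m + 4)) * r ^ m := mul_le_mul_of_nonneg_left this (by positivity)
        _ = _ := by ring
    refine (sum_le_sum k1).trans ?_
    rw [sum_add_distrib, ← mul_sum, sum_const, card_range, nsmul_eq_mul]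
    have k2 := mul_le_mul_of_nonneg_left (h2 (2 * n)) (show 0 ≤ d * z ^ 3 by positivity)
    have k3 : ((2 * n : ℕ) : ℝ) * (2 * n + 4) ≤ 5 * n ^ 2 := by push_cast; nlinarith
    have k4 := mul_le_mul_of_nonneg_right k3 (show 0 ≤ Real.exp (3 * C0) * z ^ d by positivity)
    have k5 := mul_le_mul_of_nonneg_left w1 (show 0 ≤ 5 * Real.exp (3 * C0) by positivity)
    nlinarith

lemma zeta_bd {D E M z w χ n c : ℝ} (D0 : 0 ≤ D) (E0 : 0 ≤ E) (M0 : 0 ≤ M) (z0 : 0 ≤ z)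
    (z1 : z ≤ 1) (w0 : 0 ≤ w) (χ1 : 1 ≤ χ) (n1 : 1 ≤ n) (w1 : n ^ 2 * w ≤ z) (c1 : c ≤ 1 / 4) :
    z ^ 2 * (z + 2 * (c * z) + ((2 + D) * (D * z + (n * E * w + M * w * χ)) +
      (n * E * w + M * w * χ) * χ)) ≤
      (2 + (2 + D) * (D + E + M) + (E + M)) * (z ^ 3 + w * χ ^ 2) := by
  obtain ⟨g, hg⟩ : ∃ g, g = w * χ ^ 2 := ⟨_, rfl⟩
  have g0 : 0 ≤ g := by rw [hg]; positivity
  have w2 : n * w ≤ z := by nlinarith [mul_nonneg w0 (show (0 : ℝ) ≤ n * (n - 1) by nlinarith)]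
  have w3 : w * χ ≤ g := by nlinarith [mul_nonneg w0 (show (0 : ℝ) ≤ χ * (χ - 1) by nlinarith)]
  have w4 : n * w * χ ≤ z + g := by nlinarith [mul_nonneg w0 (sq_nonneg (n - χ))]
  have k1 : D * z + (n * E * w + M * w * χ) ≤ (D + E + M) * (z + g) := by
    linarith [mul_le_mul_of_nonneg_left w2 E0, mul_le_mul_of_nonneg_left w3 M0,
      mul_nonneg D0 g0, mul_nonneg E0 g0, mul_nonneg M0 z0]
  have k2 : (n * E * w + M * w * χ) * χ ≤ (E + M) * (z + g) := by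
    have : M * w * χ * χ = M * g := by rw [hg]; ring
    linarith [mul_le_mul_of_nonneg_left w4 E0, mul_nonneg M0 z0]
  have k3 := mul_le_mul_of_nonneg_left k1 (show 0 ≤ 2 + D by linarith)
  have k4 := mul_le_mul_of_nonneg_right c1 z0
  rw [← hg]
  obtain ⟨C, hC⟩ : ∃ C, C = 2 + (2 + D) * (D + E + M) + (E + M) := ⟨_, rfl⟩
  have c0 : 0 ≤ C := by rw [hC]; positivity
  have k5 : z + 2 * (c * z) + ((2 + D) * (D * z + (n * E * w + M * w * χ)) +
      (n * E * w + M * w * χ) * χ) ≤ C * (z + g) := by rw [hC]; linarith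
  rw [← hC]
  have k6 : z ^ 2 * g ≤ g := mul_le_of_le_one_left g0 (pow_le_one₀ z0 z1)
  linarith [mul_le_mul_of_nonneg_left k5 (sq_nonneg z), mul_le_mul_of_nonneg_left k6 c0]

lemma fin_bd {X χ κ κ' u A C1 C4 K ζ U μ B z3 g S M : ℝ} (χ0 : 0 ≤ χ) (c1 : 0 ≤ C1) (c4 : 0 ≤ C4)
    (κ0 : 0 ≤ κ) (κ0' : 0 ≤ κ') (U0 : 0 ≤ U) (M0 : 0 ≤ M) (z0 : 0 ≤ z3) (g0 : 0 ≤ g)
    (uζ : 0 ≤ u * ζ) (b1 : κ * K ^ 2 ≤ B) (b2 : κ' ≤ B) (hζ : u * ζ ≤ C4 * (z3 + g))
    (l1 : χ * κ * u * (A - C1 * K ^ 2 * ζ) ≤ X) (l2 : X ≤ κ' * (χ * S + μ))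
    (l3 : κ' * S ≤ κ * u * A + κ' * (U * z3)) (l4 : μ ≤ χ * (3 * M * g)) :
    |X - χ * κ * u * A| ≤ (C1 * C4 + (U + 3 * M)) * χ * B * (z3 + g) := by
  have B0 : 0 ≤ B := κ0'.trans b2
  have δ0 : 0 ≤ z3 + g := by positivity
  rw [abs_le]
  constructor
  · have m1 := mul_le_mul b1 hζ uζ B0
    have m2 := mul_le_mul_of_nonneg_left m1 (mul_nonneg χ0 c1)
    have m3 : 0 ≤ (U + 3 * M) * χ * B * (z3 + g) := by positivity
    linarith
  · have m1 := mul_le_mul_of_nonneg_left l3 χ0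
    have m2 := mul_le_mul_of_nonneg_left l4 κ0'
    have m3 := mul_le_mul_of_nonneg_right b2 (show 0 ≤ χ * (U * z3 + 3 * M * g) by positivity)
    have m4 : 0 ≤ C1 * C4 * χ * B * (z3 + g) := by positivity
    have m5 : 0 ≤ χ * B * (U * g + 3 * M * z3) := by positivity
    linarith

theorem main_est {d : ℕ} (hd : 7 ≤ d) {C0 : ℝ} (hC0 : 0 ≤ C0) : ∃ C : ℝ, 0 ≤ C ∧
    ∀ (n : ℕ) (p : ℝ) (o : Fin d → Fin n), 40 ≤ n → 2 * d * C0 ≤ n → 0 ≤ p →
      d * (p * n) ≤ 1 + C0 / n → p * n ≤ 1 / 4 ∧ 1 ≤ chiH d n p o ∧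
      (∀ k Λ, Λ ⊆ line k o → Λ.Nonempty → |∑ y, Ex (EH d n) p (XL k Λ y) - chiH d n p o *
        ((Λ.card : ℝ) * (Λ.card - 1) * (d - 1)) * (1 / (n : ℝ)) ^ 2 * AA (p * n)| ≤
        C * chiH d n p o * ((d : ℝ) ^ 2 * (Λ.card : ℝ) ^ 4) *
          ((1 / (n : ℝ)) ^ 3 + (1 / (n : ℝ)) ^ d * chiH d n p o ^ 2)) ∧
      |∑ y, Ex (EH d n) p (fun ω => ind (Om o y ω)) - chiH d n p o *
        ((d : ℝ) * (d - 1) / 2) * (1 / (n : ℝ)) ^ 2 * BB (p * n)| ≤
        C * chiH d n p o * (d : ℝ) ^ 2 *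
          ((1 / (n : ℝ)) ^ 3 + (1 / (n : ℝ)) ^ d * chiH d n p o ^ 2) := by
  obtain ⟨D, E, M, D0, E0, M0, hu⟩ := uu_est hd hC0
  obtain ⟨C1, c1, hs⟩ := ser_lower
  have d7 : (7 : ℝ) ≤ d := by exact_mod_cast hd
  have d0 : 0 ≤ (d : ℝ) - 1 := by linarith
  have d1 : 0 ≤ (d : ℝ) * (d - 1) / 2 := by positivity
  have d2 : (d : ℝ) * (d - 1) / 2 ≤ d ^ 2 := by nlinarith
  have d3 : (d : ℝ) - 1 ≤ d ^ 2 := by nlinarith
  have d4 : 1 ≤ (d : ℝ) ^ 2 := by nlinarith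
  refine ⟨C1 * (2 + (2 + D) * (D + E + M) + (E + M)) + ((D + 5 * E) + 3 * M), by positivity,
    fun n p o hn hC p0 hc => ?_⟩
  have n0 : (40 : ℝ) ≤ n := by exact_mod_cast hn
  have n1 : 0 < n := by omega
  have c0 : 0 ≤ p * n := by positivity
  obtain ⟨u1, u2, u3, u4, u5⟩ := hu n (p * n) hn hC c0 hc
  clear hu
  have p1 : p ≤ 1 / 2 := by linarith [mul_le_mul_of_nonneg_left n0 p0]
  have z0 : (0 : ℝ) < 1 / n := by positivity
  have zn : n * (1 / n : ℝ) = 1 := by field_simp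
  have z1 : (1 / n : ℝ) ≤ 1 := by rw [div_le_one (by linarith)]; linarith
  have hχ : ∀ a, ∑ y, tau (EH d n) p a y = chiH d n p o := fun a => chiH_const p a o
  have χ1 := one_le_chi p0 p1 hχ o
  generalize chiH d n p o = χ at *
  have χ0 : 0 ≤ χ := by linarith
  have hμ := fun a b => (long_le n1 p0 p1 hχ n a b).trans (mul_le_mul_of_nonneg_right u2 χ0)
  have hη := eta_bound n1 p0 p1 hχ n u3 (add_le_add u4
    (mul_le_mul_of_nonneg_right u2 χ0)) (by positivity)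
  have hU := fun k Λ h => eL_upper n1 p0 p1 hχ (L := n) (by omega) hμ (k := k) (o := o) (Λ := Λ) h
  have hL := fun N k Λ h => eL_lower n1 p0 p1 hχ (by positivity) hη (range N) (k := k) (o := o)
    (Λ := Λ) h
  have hU' := Om_up n1 p0 p1 hχ (L := n) (by omega) hμ o
  have hL' := fun N => Om_low n1 p0 p1 hχ (by positivity) hη (range N) o
  clear hμ hη hχ
  have pz : p = p * n * (1 / n) := by field_simp
  generalize (1 / n : ℝ) = z at *
  generalize p * n = c at *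
  have w1 : (n : ℝ) ^ 2 * z ^ d ≤ z := by
    have k1 : z ^ d ≤ z ^ 3 := pow_le_pow_of_le_one z0.le z1 (by omega)
    calc _ ≤ (n : ℝ) ^ 2 * z ^ 3 := mul_le_mul_of_nonneg_left k1 (by positivity)
      _ = (n * z) ^ 2 * z := by ring
      _ = _ := by rw [zn]; ring
  have δ1 := zeta_bd D0 E0 M0 z0.le z1 (pow_nonneg z0.le d) χ1 (by linarith) w1 u1
  rw [← pz] at δ1
  have ζ0 : 0 ≤ z + 2 * p + ((2 + D) * (D * z + (n * E * z ^ d + M * z ^ d * χ)) +
    (n * E * z ^ d + M * z ^ d * χ) * χ) := by positivity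
  generalize z + 2 * p + ((2 + D) * (D * z + (n * E * z ^ d + M * z ^ d * χ)) +
    (n * E * z ^ d + M * z ^ d * χ) * χ) = ζ at *
  have uu0 : ∀ l j, 0 ≤ uu d c z l j := fun l j => by
    unfold uu
    positivity
  refine ⟨u1, χ1, fun k Λ hΛ hne => ?_, ?_⟩
  · have K1 : (1 : ℝ) ≤ Λ.card := by exact_mod_cast card_pos.2 hne
    have K0 : (0 : ℝ) ≤ Λ.card - 1 := by linarith
    have l1 := hs _ c _ Λ.card _ ((Λ.card : ℝ) * (Λ.card - 1) * (d - 1)) χ (z ^ 2) _ aa_bd c0 u1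
      (hsA c0 u1) K1 ζ0 (by positivity) χ0 (by positivity)
      fun N => le_trans (le_of_eq (by simp only [mul_assoc])) (hL N k Λ hΛ)
    have l2 := hU k Λ hΛ
    clear hU hL hU' hL' hs
    generalize (Λ.card : ℝ) = K at *
    have l3 : ∑ m ∈ range (2 * n), (((d : ℝ) - 1) * ((2 ^ m - (m + 1)) + (m + 3) / 2 * (2 ^ m - 1)) *
        (c ^ (m + 2) * z ^ 2) + (m + 3) / 2 * uu d c z (m + 2) 3) ≤
        (d - 1) * z ^ 2 * AA c + (D + 5 * E) * z ^ 3 := by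
      rw [sum_add_distrib]
      refine add_le_add (le_trans (le_of_eq ?_) (mul_le_mul_of_nonneg_left
        (ser_upper aa_bd c0 (hsA c0 u1) (2 * n)) (by positivity)))
        (le_trans (sum_le_sum fun m _ => mul_le_mul_of_nonneg_right ?_ (uu0 _ _)) u5)
      · rw [mul_sum]; exact sum_congr rfl fun m _ => by ring
      · have : (0 : ℝ) ≤ m := Nat.cast_nonneg _
        linarith
    have K2 : 0 ≤ K * (K - 1) := by positivity
    have K3 : K * (K - 1) ≤ K ^ 2 := by linarith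
    have K4 : K ^ 2 ≤ K ^ 4 := pow_le_pow_right₀ K1 (by norm_num)
    refine fin_bd χ0 c1 (by positivity) (by positivity) K2 (by positivity) M0 (by positivity)
      (by positivity) (by positivity) ?_ ?_ δ1 l1 l2 ?_ (le_of_eq (by ring))
    · calc _ ≤ K ^ 2 * d ^ 2 * K ^ 2 := mul_le_mul_of_nonneg_right
            (mul_le_mul K3 d3 d0 (by positivity)) (by positivity)
        _ = _ := by ring
    · exact (K3.trans K4).trans (le_mul_of_one_le_left (by positivity) d4)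
    · exact (mul_le_mul_of_nonneg_left l3 K2).trans (le_of_eq (by ring))
  · have l1 := hs _ c _ 1 _ ((d : ℝ) * (d - 1) / 2) χ (z ^ 2) _ bb_bd c0 u1
      (hsB c0 u1) le_rfl ζ0 d1 χ0 (by positivity)
      fun N => le_trans (le_of_eq (by
        congr 1; exact sum_congr rfl fun m _ => by ring)) (hL' N)
    clear hU hL hL' hs
    have l3 : ∑ m ∈ range (2 * n), ((m : ℝ) + 1) * ((2 ^ m - (m + 1)) *
        (c ^ (m + 2) * z ^ 2) + uu d c z (m + 2) 3) ≤ z ^ 2 * BB c + (D + 5 * E) * z ^ 3 := by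
      simp only [mul_add ((_ : ℝ) + 1)]
      rw [sum_add_distrib]
      refine add_le_add (le_trans (le_of_eq ?_) (mul_le_mul_of_nonneg_left
        (ser_upper bb_bd c0 (hsB c0 u1) (2 * n)) (by positivity)))
        (le_trans (sum_le_sum fun m _ => mul_le_mul_of_nonneg_right ?_ (uu0 _ _)) u5)
      · rw [mul_sum]; exact sum_congr rfl fun m _ => by ring
      · linarith
    refine fin_bd χ0 c1 (by positivity) d1 d1 (by positivity) M0 (by positivity)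
      (by positivity) (by positivity) (by rw [one_pow, mul_one]; exact d2) d2 δ1 l1 hU' ?_ ?_
    · exact (mul_le_mul_of_nonneg_left l3 d1).trans (le_of_eq (by ring))
    · have : 0 ≤ M * z ^ d * χ * χ ^ 2 := by positivity
      linarith

end Pool.Agent.Lib.MP_58a483_pr.H80
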