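import Pool.Agent.Lib.MP_58a483_pr.H80Ham

set_option autoImplicit false
set_option linter.unusedSectionVars false
set_option linter.unusedVariables false
set_option linter.deprecated false

namespace Pool.Agent.Lib.MP_58a483_pr.H80

open Finset

variable {d n : ℕ}

/-- words in two letters starting with `k'`, ending with `e`, with some `k` before some `k'` -/
def GW (k k' e : Fin d) (m : ℕ) (w : Fin (m + 2) → Fin d) : Prop :=
  (∀ i, w i = k ∨ w i = k') ∧ w 0 = k' ∧ w (Fin.last (m + 1)) = e ∧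
    ∃ i j, i < j ∧ w i = k ∧ w j = k'

lemma bad_word {k k' : Fin d} (hk : k ≠ k') {m : ℕ} {w : Fin (m + 2) → Fin d}
    (h1 : ∀ i, w i = k ∨ w i = k') (h2 : w 0 = k') (h3 : ¬ ∃ i j, i < j ∧ w i = k ∧ w j = k') :
    ∃ a : ℕ, 1 ≤ a ∧ a ≤ m + 2 ∧ ∀ i : Fin (m + 2), w i = if (i : ℕ) < a then k' else k := by
  classical
  have ex : ∃ a : ℕ, ∀ i : Fin (m + 2), a ≤ (i : ℕ) → w i = k :=
    ⟨m + 2, fun i hi => by have := i.2; omega⟩
  have s1 := Nat.find_spec ex
  refine ⟨Nat.find ex, ?_, Nat.find_min' ex fun i hi => by have := i.2; omega, fun i => ?_⟩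
  · by_contra h
    exact hk ((s1 0 (by simp only [Fin.val_zero]; omega)).symm.trans h2)
  · split_ifs with hi
    · rcases h1 i with h | h
      · exfalso
        refine Nat.find_min ex hi fun j hj => ?_
        rcases eq_or_lt_of_le hj with e | e
        · rw [← Fin.ext e]; exact h
        · rcases h1 j with h' | h'
          · exact h'
          · exact absurd ⟨i, j, e, h, h'⟩ h3
      · exact h
    · exact s1 i (by omega)

lemma count_two {k k' e : Fin d} (hk : k ≠ k') (he : e = k ∨ e = k') (m : ℕ) :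
    ∑ w : Fin (m + 2) → Fin d,
      ind ((∀ i, w i = k ∨ w i = k') ∧ w 0 = k' ∧ w (Fin.last (m + 1)) = e) = 2 ^ m := by
  classical
  rw [sum_ind_eq_card]
  have : univ.filter (fun w : Fin (m + 2) → Fin d =>
      (∀ i, w i = k ∨ w i = k') ∧ w 0 = k' ∧ w (Fin.last (m + 1)) = e) =
      Fintype.piFinset (fun i => if i = 0 then {k'} else
        if i = Fin.last (m + 1) then {e} else {k, k'}) := by
    ext w
    simp only [mem_filter, mem_univ, true_and, Fintype.mem_piFinset]
    constructor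
    · rintro ⟨h1, h2, h3⟩ i
      split_ifs with a b
      · rw [a, h2]; simp
      · rw [b, h3]; simp
      · simpa using h1 i
    · intro h
      have h2 : w 0 = k' := by simpa using h 0
      have h3 : w (Fin.last (m + 1)) = e := by
        have := h (Fin.last (m + 1))
        rw [if_neg (Fin.last_pos.ne'), if_pos rfl] at this
        simpa using this
      refine ⟨fun i => ?_, h2, h3⟩
      have := h i
      split_ifs at this with a b
      · rw [a, h2]; simp
      · rw [b, h3]; exact he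
      · simpa using this
  rw [this, Fintype.card_piFinset, Fin.prod_univ_succ, Fin.prod_univ_castSucc]
  have e1 : ∀ i : Fin m, (Fin.castSucc i).succ ≠ Fin.last (m + 1) := fun i h => by
    have := congrArg Fin.val h
    simp at this
    have := i.2; omega
  simp [Fin.succ_ne_zero, e1, card_pair hk]

lemma count_GW_aux {k k' e : Fin d} (hk : k ≠ k') (he : e = k ∨ e = k') (m : ℕ) (S : Finset ℕ)
    (hS : ∀ a, a ∈ S ↔ 1 ≤ a ∧ a ≤ m + 2 ∧ (if m + 1 < a then k' else k) = e) :
    ∑ w : Fin (m + 2) → Fin d, ind (GW k k' e m w) = 2 ^ m - S.card := by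
  classical
  rw [← count_two hk he m, eq_sub_iff_add_eq]
  have : (S.card : ℝ) = ∑ w : Fin (m + 2) → Fin d,
      ind (((∀ i, w i = k ∨ w i = k') ∧ w 0 = k' ∧ w (Fin.last (m + 1)) = e) ∧
        ¬ ∃ i j, i < j ∧ w i = k ∧ w j = k') := by
    rw [sum_ind_eq_card]
    norm_cast
    refine card_bij (fun a _ => fun i : Fin (m + 2) => if (i : ℕ) < a then k' else k) ?_ ?_ ?_
    · intro a ha
      obtain ⟨a1, a2, a3⟩ := (hS a).1 ha
      simp only [mem_filter, mem_univ, true_and]
      refine ⟨⟨fun i => ?_, ?_, ?_⟩, ?_⟩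
      · split_ifs <;> simp
      · rw [if_pos (by simp only [Fin.val_zero]; omega)]
      · simpa using a3
      · rintro ⟨i, j, hij, h1, h2⟩
        have hij' : (i : ℕ) < j := hij
        split_ifs at h1 h2
        · exact hk h1.symm
        · exact hk h1.symm
        · omega
        · exact hk h2
    · intro a ha b hb hab
      obtain ⟨a1, a2, a3⟩ := (hS a).1 ha
      obtain ⟨b1, b2, b3⟩ := (hS b).1 hb
      by_contra hne
      rcases lt_or_gt_of_ne hne with h | h
      · have := congrFun hab ⟨a, by omega⟩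
        simp only [lt_irrefl, if_false, h, if_true] at this
        exact hk this
      · have := congrFun hab ⟨b, by omega⟩
        simp only [lt_irrefl, if_false, h, if_true] at this
        exact hk this.symm
    · intro w hw
      simp only [mem_filter, mem_univ, true_and] at hw
      obtain ⟨⟨h1, h2, h3⟩, h4⟩ := hw
      obtain ⟨a, a1, a2, a3⟩ := bad_word hk h1 h2 h4
      refine ⟨a, (hS a).2 ⟨a1, a2, ?_⟩, funext fun i => (a3 i).symm⟩
      rw [← h3, a3]; simp
  rw [this, ← sum_add_distrib]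
  refine sum_congr rfl fun w _ => ?_
  unfold GW
  by_cases h : ∃ i j, i < j ∧ w i = k ∧ w j = k'
  · rw [ind_neg (P := _ ∧ ¬ _) (fun a => a.2 h), add_zero]
    exact ind_congr (by tauto)
  · rw [ind_neg (P := _ ∧ _ ∧ _ ∧ _) (fun a => h a.2.2.2), zero_add]
    exact ind_congr (by tauto)

lemma count_GW_a {k k' : Fin d} (hk : k ≠ k') (m : ℕ) :
    ∑ w : Fin (m + 2) → Fin d, ind (GW k k' k m w) = 2 ^ m - (m + 1) := by
  rw [count_GW_aux hk (Or.inl rfl) m (Icc 1 (m + 1))]
  · simp
  · intro a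
    rw [mem_Icc]
    constructor
    · rintro ⟨h1, h2⟩; exact ⟨h1, by omega, if_neg (by omega)⟩
    · rintro ⟨h1, h2, h3⟩
      refine ⟨h1, ?_⟩
      by_contra h
      rw [if_pos (by omega)] at h3
      exact hk h3.symm

lemma count_GW_b {k k' : Fin d} (hk : k ≠ k') (m : ℕ) :
    ∑ w : Fin (m + 2) → Fin d, ind (GW k k' k' m w) = 2 ^ m - 1 := by
  rw [count_GW_aux hk (Or.inr rfl) m {m + 2}]
  · simp
  · intro a
    rw [mem_singleton]
    constructor
    · rintro rfl; exact ⟨by omega, le_rfl, if_pos (by omega)⟩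
    · rintro ⟨h1, h2, h3⟩
      by_contra h
      rw [if_neg (by omega)] at h3
      exact hk h3

lemma GW.image {k k' e : Fin d} (hk : k ≠ k') {m : ℕ} {w : Fin (m + 2) → Fin d}
    (h : GW k k' e m w) : (univ.image w).card = 2 := by
  refine Eq.trans ?_ (card_pair hk)
  congr 1
  ext j
  simp only [mem_image, mem_univ, true_and, mem_insert, mem_singleton]
  constructor
  · rintro ⟨i, rfl⟩; exact h.1 i
  · obtain ⟨_, _, _, i, j', _, h1, h2⟩ := h
    rintro (rfl | rfl)
    · exact ⟨i, h1⟩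
    · exact ⟨j', h2⟩

lemma GW.one_le {k k' e : Fin d} (hk : k ≠ k') {m : ℕ} {w : Fin (m + 2) → Fin d}
    (h : GW k k' e m w) : 1 ≤ m := by
  obtain ⟨_, h0, _, i, j, hij, h1, h2⟩ := h
  have : i ≠ 0 := fun e => hk (by rw [← h1, e, h0])
  have h3 : (i : ℕ) ≠ 0 := fun e => this (Fin.ext e)
  have h4 : (i : ℕ) < j := hij
  have := j.2
  omega

/-- the code describes an excursion from `s` to `t` with the prescribed directions -/
def Val (Λ : Finset (Fin d → Fin n)) (s t : Fin d → Fin n) {l : ℕ} (w : Fin l → Fin d)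
    (a : Fin l → Fin n) : Prop :=
  Ret Λ (pos s w a) l ∧ pos s w a l = t ∧ ∀ i : Fin l, AdjC (w i) (pos s w a i) (pos s w a (i + 1))

lemma nice_val {Λ : Finset (Fin d → Fin n)} {s t : Fin d → Fin n} {k k' e : Fin d} (hk : k ≠ k')
    (hs : s ∈ Λ) (ht : t ∈ Λ) (hΛ : Λ ⊆ line k s) (hst : s k = t k → e = k) {m : ℕ}
    {w : Fin (m + 2) → Fin d} (hw : GW k k' e m w) {a : Fin (m + 2) → Fin n}
    (h1 : ∀ i ∈ Last w, a i = t (w i))
    (h2 : ∀ i, i ∉ Last w → a i ≠ s k' ∧ ∀ u ∈ Λ, a i ≠ u k)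
    (h3 : ∀ i i', i ∉ Last w → i' ∉ Last w → a i = a i' → i = i') : Val Λ s t w a := by
  obtain ⟨w1, w0, wl, i0, j0, hij, wi, wj⟩ := hw
  have hij' : (i0 : ℕ) < j0 := hij
  have st : ∀ j, j ≠ k → t j = s j := mem_line.1 (hΛ ht)
  have notF : ∀ i, i ∉ Last w → a i ≠ s (w i) ∧ a i ≠ t (w i) := by
    intro i hi
    rcases w1 i with h | h
    · rw [h]; exact ⟨(h2 i hi).2 s hs, (h2 i hi).2 t ht⟩
    · rw [h, st k' hk.symm]; exact ⟨(h2 i hi).1, (h2 i hi).1⟩
  have dist : ∀ i i', w i = w i' → a i = a i' → i = i' := by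
    intro i i' e1 e2
    by_cases c1 : i ∈ Last w <;> by_cases c2 : i' ∈ Last w
    · exact Last_inj c1 c2 e1
    · exact absurd (by rw [← e2, h1 i c1, e1]) (notF i' c2).2
    · exact absurd (by rw [e2, h1 i' c2, e1]) (notF i c1).2
    · exact h3 i i' c1 c2 e2
  have E : ∀ (t1 t2 : ℕ) (i : Fin (m + 2)), t1 ≤ i → (i : ℕ) < t2 → t2 ≤ m + 2 →
      pos s w a t1 (w i) = pos s w a t2 (w i) →
      (∀ i' : Fin (m + 2), w i' = w i → t1 ≤ i' ∧ (i' : ℕ) < t2) ∧ s (w i) = t (w i) := by
    intro t1 t2 i a1 a2 a3 hp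
    rcases pos_val s w a (w i) t2 a3 with ⟨_, b2⟩ | ⟨i2, b1, b2, b3, b4⟩
    · exact absurd rfl (b2 i a2)
    have b5 : (i : ℕ) ≤ i2 := by
      by_contra h
      exact b3 i (by show (i2 : ℕ) < i; omega) a2 rfl
    rcases pos_val s w a (w i) t1 (by omega) with ⟨c1, c2⟩ | ⟨i1, c1, c2, c3, c4⟩
    · have d1 : a i2 = s (w i2) := by rw [b2, ← c1, hp, b4]
      have d2 : i2 ∈ Last w := by
        by_contra h
        exact (notF i2 h).1 d1
      refine ⟨fun i' hi' => ⟨?_, ?_⟩, by rw [← b2, ← d1, h1 i2 d2]⟩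
      · by_contra h
        exact c2 i' (by omega) hi'
      · by_contra h
        exact mem_Last.1 d2 i' (by show (i2 : ℕ) < i'; omega) (hi'.trans b2.symm)
    · have := dist i1 i2 (c2.trans b2.symm) (by rw [← c4, hp, b4])
      have := congrArg Fin.val this
      omega
  have endt : pos s w a (m + 2) = t := by
    funext j
    rcases pos_val s w a j (m + 2) le_rfl with ⟨b1, b2⟩ | ⟨i2, b1, b2, b3, b4⟩
    · rw [b1, st j fun h => b2 i0 i0.2 (h ▸ wi)]
    · have : i2 ∈ Last w := mem_Last.2 fun i' h => b2 ▸ b3 i' h i'.2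
      rw [b4, h1 i2 this, b2]
  have lastv : ((Fin.last (m + 1) : Fin (m + 2)) : ℕ) = m + 1 := rfl
  have zerov : ((0 : Fin (m + 2)) : ℕ) = 0 := rfl
  refine ⟨⟨?_, hs, endt ▸ ht, ?_⟩, endt, ?_⟩
  · intro t1 t2 h12 h2' hp
    have k1 := E t1 t2 ⟨t1, by omega⟩ le_rfl h12 h2' (congrFun hp _)
    rcases w1 ⟨t1, by omega⟩ with c | c
    · exfalso
      rw [c] at k1
      have k2 := k1.1 _ (wl.trans (hst k1.2))
      have k3 := k1.1 _ wi
      have k4 := E t1 t2 j0 (by omega) (by have := j0.2; omega) h2' (congrFun hp _)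
      have k5 := (k4.1 0 (w0.trans wj.symm)).1
      have k6 : (⟨t1, by omega⟩ : Fin (m + 2)) = 0 := Fin.ext (by simp only [zerov]; omega)
      rw [k6, w0] at c
      exact hk c.symm
    · rw [c] at k1
      have k2 := k1.1 _ w0
      have k3 := k1.1 _ wj
      have k4 := E t1 t2 i0 (by omega) (by omega) h2' (congrFun hp _)
      refine ⟨by omega, ?_⟩
      rcases w1 (Fin.last (m + 1)) with c' | c'
      · have := k4.1 _ (c'.trans wi.symm); omega
      · have := k1.1 _ c'; omega
  · intro t1 t0 t2 hin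
    have k1 := E 0 t1 0 le_rfl t0 (by omega) (by
      rw [w0]; exact (mem_line.1 (hΛ hin) k' hk.symm).symm)
    rw [w0] at k1
    have k2 := k1.1 _ wj
    rcases pos_val s w a k t1 (by omega) with ⟨_, b2⟩ | ⟨i2, b1, b2, b3, b4⟩
    · exact b2 i0 (by omega) wi
    have b5 : i2 ∈ Last w := by
      by_contra h
      exact (h2 i2 h).2 _ hin b4.symm
    rcases w1 (Fin.last (m + 1)) with c' | c'
    · exact mem_Last.1 b5 _ (by show (i2 : ℕ) < m + 1; omega) (c'.trans b2.symm)
    · have := k1.1 _ c'; omega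
  · intro i
    refine ⟨fun hp => ?_, fun j hj => by rw [pos_succ, Function.update_of_ne hj]⟩
    have k1 := E i (i + 1) i le_rfl (by omega) (by have := i.2; omega) hp
    rcases w1 i with c | c
    · rw [c] at k1
      have k2 := k1.1 _ (wl.trans (hst k1.2))
      have k3 := k1.1 _ wi
      have := j0.2
      omega
    · rw [c] at k1
      have k2 := k1.1 _ w0
      have k3 := k1.1 _ wj
      omega

lemma pow_sub_ge (N s m : ℕ) (hN : 0 < N) :
    (N : ℝ) ^ m * (1 - m * s / N) ≤ ((N - s : ℕ) : ℝ) ^ m := by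
  have h0 : (0 : ℝ) < N := by exact_mod_cast hN
  by_cases h : s ≤ N
  · rw [Nat.cast_sub h]
    have h1 : (s : ℝ) / N ≤ 1 := by rw [div_le_one h0]; exact_mod_cast h
    have := one_add_mul_le_pow (a := -(s / N : ℝ)) (by linarith) m
    calc _ = (N : ℝ) ^ m * (1 + m * -(s / N : ℝ)) := by ring
      _ ≤ (N : ℝ) ^ m * (1 + -(s / N : ℝ)) ^ m := mul_le_mul_of_nonneg_left this (by positivity)
      _ = _ := by rw [← mul_pow]; congr 1; field_simp; ring
  · rcases Nat.eq_zero_or_pos m with rfl | hm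
    · simp
    · refine le_trans (mul_nonpos_of_nonneg_of_nonpos (by positivity) ?_) (by positivity)
      rw [sub_nonpos, one_le_div h0]
      have h1 : (N : ℝ) ≤ s := by exact_mod_cast (by omega : N ≤ s)
      have h2 : (1 : ℝ) ≤ m := by exact_mod_cast hm
      nlinarith

lemma count_val (hn : 0 < n) {Λ : Finset (Fin d → Fin n)} {s t : Fin d → Fin n} {k k' e : Fin d}
    (hk : k ≠ k') (hs : s ∈ Λ) (ht : t ∈ Λ) (hΛ : Λ ⊆ line k s) (hst : s k = t k → e = k) {m : ℕ}
    {w : Fin (m + 2) → Fin d} (hw : GW k k' e m w) :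
    (n : ℝ) ^ m * (1 - m * ((Λ.card : ℝ) + 1 + m) / n) ≤ ∑ a, ind (Val Λ s t w a) := by
  classical
  set F : Finset (Fin n) := insert (s k') (Λ.image (fun u => u k))
  have hF : F.card ≤ Λ.card + 1 := (card_insert_le _ _).trans (by
    have := card_image_le (s := Λ) (f := fun u => u k); omega)
  have c1 : Fintype.card {i // i ∉ Last w} = m := by
    rw [Fintype.card_subtype_compl, Fintype.card_coe, card_Last, hw.image hk]; simp
  have c2 : Fintype.card {v // v ∉ F} = n - F.card := by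
    rw [Fintype.card_subtype_compl, Fintype.card_coe]; simp
  have c3 := Fintype.card_embedding_eq (α := {i // i ∉ Last w}) (β := {v // v ∉ F})
  rw [c1, c2] at c3
  have c4 : Fintype.card ({i // i ∉ Last w} ↪ {v // v ∉ F}) ≤
      (univ.filter (fun a => Val Λ s t w a)).card := by
    rw [← card_univ]
    refine card_le_card_of_injOn
      (fun f i => if h : i ∈ Last w then t (w i) else (f ⟨i, h⟩ : Fin n)) ?_ ?_
    · intro f _
      simp only [coe_filter, mem_univ, true_and, Set.mem_setOf_eq]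
      refine nice_val hk hs ht hΛ hst hw (fun i hi => dif_pos hi) (fun i hi => ?_) ?_
      · have := (f ⟨i, hi⟩).2
        simp only [dif_neg hi]
        refine ⟨fun h => this (h ▸ mem_insert_self _ _), fun u hu h => this ?_⟩
        rw [h]; exact mem_insert_of_mem (mem_image_of_mem _ hu)
      · intro i i' hi hi' h
        simp only [dif_neg hi, dif_neg hi'] at h
        exact congrArg Subtype.val (f.injective (Subtype.ext h))
    · intro f _ g _ h
      ext i
      have := congrFun h i.1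
      simp only [dif_neg i.2] at this
      rw [this]
  rw [sum_ind_eq_card]
  have c5 := pow_sub_ge n (Λ.card + 1 + m) m hn
  push_cast at c5
  refine c5.trans ?_
  have c6 := Nat.pow_sub_le_descFactorial (n - F.card) m
  have c7 : (n - (Λ.card + 1 + m)) ^ m ≤ (n - F.card + 1 - m) ^ m :=
    Nat.pow_le_pow_left (by omega) m
  exact_mod_cast c7.trans (c6.trans (c3 ▸ c4))

lemma code_inj {s : Fin d → Fin n} {l : ℕ} {w w' : Fin l → Fin d} {a a' : Fin l → Fin n}
    (h : ∀ i : Fin l, AdjC (w i) (pos s w a i) (pos s w a (i + 1)))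
    (h' : ∀ i : Fin l, AdjC (w' i) (pos s w' a' i) (pos s w' a' (i + 1)))
    (e : ∀ t, t ≤ l → pos s w' a' t = pos s w a t) : w' = w ∧ a' = a := by
  have e1 : w' = w := funext fun i => by
    have := h' i
    rw [e i i.2.le, e (i + 1) i.2] at this
    exact this.uniq (h i)
  subst e1
  refine ⟨rfl, funext fun i => ?_⟩
  have := congrFun (e (i + 1) i.2) (w' i)
  rw [pos_succ, pos_succ] at this
  simpa using this

end Pool.Agent.Lib.MP_58a483_pr.H80
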