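import Mathlib

set_option autoImplicit false
set_option linter.unusedSectionVars false
set_option linter.unusedVariables false
set_option linter.deprecated false

namespace Pool.Agent.Lib.MP_58a483_pr.H80

open Finset

/-- indicator of a proposition -/
noncomputable def ind (P : Prop) : ℝ := by
  classical exact if P then 1 else 0

lemma ind_pos {P : Prop} (h : P) : ind P = 1 := by simp [ind, h]
lemma ind_neg {P : Prop} (h : ¬ P) : ind P = 0 := by simp [ind, h]
lemma ind_nonneg (P : Prop) : 0 ≤ ind P := by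
  by_cases h : P
  · simp [ind_pos h]
  · simp [ind_neg h]
lemma ind_le_one (P : Prop) : ind P ≤ 1 := by
  by_cases h : P
  · simp [ind_pos h]
  · simp [ind_neg h]
lemma ind_mono {P Q : Prop} (h : P → Q) : ind P ≤ ind Q := by
  by_cases hp : P
  · rw [ind_pos hp, ind_pos (h hp)]
  · rw [ind_neg hp]; exact ind_nonneg _
lemma ind_congr {P Q : Prop} (h : P ↔ Q) : ind P = ind Q := by
  rw [propext h]
lemma ind_and (P Q : Prop) : ind (P ∧ Q) = ind P * ind Q := by
  by_cases hp : P <;> by_cases hq : Q <;> simp [ind, hp, hq]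
lemma ind_not (P : Prop) : ind (¬ P) = 1 - ind P := by
  by_cases hp : P <;> simp [ind, hp]
lemma ind_or_le (P Q : Prop) : ind (P ∨ Q) ≤ ind P + ind Q := by
  by_cases hp : P <;> by_cases hq : Q <;> simp [ind, hp, hq]
lemma ind_exists_le {α : Type} (s : Finset α) (P : α → Prop) :
    ind (∃ a ∈ s, P a) ≤ ∑ a ∈ s, ind (P a) := by
  by_cases h : ∃ a ∈ s, P a
  · rw [ind_pos h]
    obtain ⟨a, ha, hP⟩ := h
    calc (1:ℝ) = ind (P a) := (ind_pos hP).symm
      _ ≤ _ := single_le_sum (f := fun a => ind (P a)) (fun _ _ => ind_nonneg _) ha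
  · rw [ind_neg h]; exact sum_nonneg fun _ _ => ind_nonneg _
lemma ind_le_of {P : Prop} {x : ℝ} (h0 : 0 ≤ x) (h : P → 1 ≤ x) : ind P ≤ x := by
  by_cases hp : P
  · rw [ind_pos hp]; exact h hp
  · rw [ind_neg hp]; exact h0
lemma sum_ind_eq_card {α : Type} (s : Finset α) (P : α → Prop) [DecidablePred P] :
    ∑ a ∈ s, ind (P a) = ((s.filter P).card : ℝ) := by
  rw [card_filter]; push_cast
  refine sum_congr rfl fun a _ => ?_
  by_cases h : P a <;> simp [ind, h]

variable {ι : Type} [DecidableEq ι]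

/-- expectation for Bernoulli percolation on the finite set `E` -/
noncomputable def Ex (E : Finset ι) (p : ℝ) (f : Finset ι → ℝ) : ℝ :=
  ∑ ω ∈ E.powerset, p ^ ω.card * (1 - p) ^ (E.card - ω.card) * f ω

lemma Ex_empty (p : ℝ) (f : Finset ι → ℝ) : Ex ∅ p f = f ∅ := by simp [Ex]

lemma Ex_insert {E : Finset ι} {e : ι} (he : e ∉ E) (p : ℝ) (f : Finset ι → ℝ) :
    Ex (insert e E) p f = (1 - p) * Ex E p f + p * Ex E p (fun ω => f (insert e ω)) := by
  unfold Ex
  rw [sum_powerset_insert he, mul_sum, mul_sum, card_insert_of_notMem he]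
  congr 1
  · refine sum_congr rfl fun ω hω => ?_
    have := card_le_card (mem_powerset.1 hω)
    rw [show E.card + 1 - ω.card = (E.card - ω.card) + 1 by omega]; ring
  · refine sum_congr rfl fun ω hω => ?_
    have h1 : e ∉ ω := fun h => he (mem_powerset.1 hω h)
    rw [card_insert_of_notMem h1, show E.card + 1 - (ω.card + 1) = E.card - ω.card by omega]; ring

lemma Ex_congr {E : Finset ι} {p : ℝ} {f g : Finset ι → ℝ} (h : ∀ ω, ω ⊆ E → f ω = g ω) :
    Ex E p f = Ex E p g :=
  sum_congr rfl fun ω hω => by rw [h ω (mem_powerset.1 hω)]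

lemma Ex_mono {E : Finset ι} {p : ℝ} (h0 : 0 ≤ p) (h1 : p ≤ 1) {f g : Finset ι → ℝ}
    (h : ∀ ω, ω ⊆ E → f ω ≤ g ω) : Ex E p f ≤ Ex E p g :=
  sum_le_sum fun ω hω => mul_le_mul_of_nonneg_left (h ω (mem_powerset.1 hω))
    (mul_nonneg (pow_nonneg h0 _) (pow_nonneg (by linarith) _))

lemma Ex_add (E : Finset ι) (p : ℝ) (f g : Finset ι → ℝ) :
    Ex E p (fun ω => f ω + g ω) = Ex E p f + Ex E p g := by
  unfold Ex; rw [← sum_add_distrib]; exact sum_congr rfl fun _ _ => by ring

lemma Ex_sub (E : Finset ι) (p : ℝ) (f g : Finset ι → ℝ) :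
    Ex E p (fun ω => f ω - g ω) = Ex E p f - Ex E p g := by
  unfold Ex; rw [← sum_sub_distrib]; exact sum_congr rfl fun _ _ => by ring

lemma Ex_mul_left (E : Finset ι) (p c : ℝ) (f : Finset ι → ℝ) :
    Ex E p (fun ω => c * f ω) = c * Ex E p f := by
  unfold Ex; rw [mul_sum]; exact sum_congr rfl fun _ _ => by ring

lemma Ex_mul_right (E : Finset ι) (p c : ℝ) (f : Finset ι → ℝ) :
    Ex E p (fun ω => f ω * c) = Ex E p f * c := by
  unfold Ex; rw [sum_mul]; exact sum_congr rfl fun _ _ => by ring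

lemma Ex_sum {α : Type} (E : Finset ι) (p : ℝ) (s : Finset α) (f : α → Finset ι → ℝ) :
    Ex E p (fun ω => ∑ a ∈ s, f a ω) = ∑ a ∈ s, Ex E p (f a) := by
  unfold Ex; rw [sum_comm]; exact sum_congr rfl fun _ _ => by rw [mul_sum]

lemma Ex_const (E : Finset ι) (p c : ℝ) : Ex E p (fun _ => c) = c := by
  induction E using Finset.induction_on with
  | empty => rw [Ex_empty]
  | insert e E he ih => rw [Ex_insert he, ih]; ring

lemma Ex_nonneg {E : Finset ι} {p : ℝ} (h0 : 0 ≤ p) (h1 : p ≤ 1) {f : Finset ι → ℝ}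
    (h : ∀ ω, ω ⊆ E → 0 ≤ f ω) : 0 ≤ Ex E p f := by
  rw [← Ex_const E p 0]; exact Ex_mono h0 h1 h

lemma Ex_indep (E R : Finset ι) (p : ℝ) (f g : Finset ι → ℝ) :
    Ex E p (fun ω => f (ω ∩ R) * g (ω \ R)) =
      Ex E p (fun ω => f (ω ∩ R)) * Ex E p (fun ω => g (ω \ R)) := by
  induction E using Finset.induction_on generalizing f g with
  | empty => simp [Ex_empty]
  | insert e E he ih =>
    rw [Ex_insert he, Ex_insert he, Ex_insert he]
    by_cases hR : e ∈ R
    · have h1 : ∀ ω : Finset ι, insert e ω ∩ R = insert e (ω ∩ R) := fun ω =>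
        insert_inter_of_mem hR
      have h2 : ∀ ω : Finset ι, insert e ω \ R = ω \ R := fun ω => insert_sdiff_of_mem _ hR
      simp only [h1, h2]
      rw [ih f g, ih (fun a => f (insert e a)) g]; ring
    · have h1 : ∀ ω : Finset ι, insert e ω ∩ R = ω ∩ R := fun ω => insert_inter_of_notMem hR
      have h2 : ∀ ω : Finset ι, insert e ω \ R = insert e (ω \ R) := fun ω =>
        insert_sdiff_of_notMem _ hR
      simp only [h1, h2]
      rw [ih f g, ih f (fun a => g (insert e a))]; ring

lemma Ex_sup {E S : Finset ι} (hS : S ⊆ E) (p : ℝ) :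
    Ex E p (fun ω => ind (S ⊆ ω)) = p ^ S.card := by
  induction E using Finset.induction_on generalizing S with
  | empty =>
    rw [subset_empty.1 hS, Ex_empty]; simp [ind]
  | insert e E he ih =>
    rw [Ex_insert he]
    by_cases hS' : e ∈ S
    · have h1 : Ex E p (fun ω => ind (S ⊆ ω)) = 0 := by
        rw [← Ex_const E p 0]
        exact Ex_congr fun ω hω => ind_neg fun h => he (hω (h hS'))
      have h2 : Ex E p (fun ω => ind (S ⊆ insert e ω)) = p ^ (S.erase e).card := by
        rw [← ih (S := S.erase e) (subset_insert_iff.1 hS)]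
        exact Ex_congr fun ω hω => ind_congr subset_insert_iff
      rw [h1, h2, ← card_erase_add_one hS']; ring
    · have hS2 : S ⊆ E := (subset_insert_iff_of_notMem hS').1 hS
      have h2 : Ex E p (fun ω => ind (S ⊆ insert e ω)) = p ^ S.card := by
        rw [← ih hS2]
        exact Ex_congr fun ω hω => ind_congr (subset_insert_iff_of_notMem hS')
      rw [h2, ih hS2]; ring

lemma Ex_disj {E S : Finset ι} (hS : S ⊆ E) (p : ℝ) :
    Ex E p (fun ω => ind (Disjoint S ω)) = (1 - p) ^ S.card := by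
  induction E using Finset.induction_on generalizing S with
  | empty =>
    rw [subset_empty.1 hS, Ex_empty]; simp [ind]
  | insert e E he ih =>
    rw [Ex_insert he]
    by_cases hS' : e ∈ S
    · have h1 : Ex E p (fun ω => ind (Disjoint S (insert e ω))) = 0 := by
        rw [← Ex_const E p 0]
        exact Ex_congr fun ω hω => ind_neg fun h =>
          (disjoint_left.1 h) hS' (mem_insert_self _ _)
      have h2 : Ex E p (fun ω => ind (Disjoint S ω)) = (1 - p) ^ (S.erase e).card := by
        rw [← ih (S := S.erase e) (subset_insert_iff.1 hS)]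
        refine Ex_congr fun ω hω => ind_congr ⟨fun h => ?_, fun h => ?_⟩
        · exact h.mono_left (erase_subset _ _)
        · rw [disjoint_left] at h ⊢
          intro a ha haω
          exact h (mem_erase.2 ⟨fun hae => he (hae ▸ hω haω), ha⟩) haω
      rw [h1, h2, ← card_erase_add_one hS']; ring
    · have hS2 : S ⊆ E := (subset_insert_iff_of_notMem hS').1 hS
      have h2 : Ex E p (fun ω => ind (Disjoint S (insert e ω))) = (1 - p) ^ S.card := by
        rw [← ih hS2]
        refine Ex_congr fun ω hω => ind_congr ?_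
        rw [disjoint_insert_right]; simp [hS']
      rw [h2, ih hS2]; ring

lemma Ex_mono_p (E : Finset ι) {p p' : ℝ} (h0 : 0 ≤ p) (hp : p ≤ p') (h1 : p' ≤ 1)
    (f : Finset ι → ℝ) (hf : ∀ a b, a ⊆ b → f a ≤ f b) : Ex E p f ≤ Ex E p' f := by
  induction E using Finset.induction_on generalizing f with
  | empty => simp [Ex_empty]
  | insert e E he ih =>
    rw [Ex_insert he, Ex_insert he]
    have i1 := ih f hf
    have i2 := ih (fun ω => f (insert e ω)) (fun a b h => hf _ _ (insert_subset_insert _ h))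
    have i3 : Ex E p' f ≤ Ex E p' (fun ω => f (insert e ω)) :=
      Ex_mono (by linarith) h1 fun ω _ => hf _ _ (subset_insert _ _)
    nlinarith

lemma Ex_map (E : Finset ι) (p : ℝ) (φ : ι ≃ ι) (hφ : ∀ e, φ e ∈ E ↔ e ∈ E)
    (f : Finset ι → ℝ) : Ex E p (fun ω => f (ω.map φ.toEmbedding)) = Ex E p f := by
  unfold Ex
  refine sum_bij (fun ω _ => ω.map φ.toEmbedding) ?_ ?_ ?_ ?_
  · intro ω hω
    rw [mem_powerset] at hω ⊢
    intro e he
    rw [mem_map] at he
    obtain ⟨a, ha, rfl⟩ := he
    exact (hφ a).2 (hω ha)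
  · intro a _ b _ h
    exact map_injective _ h
  · intro ω hω
    refine ⟨ω.map φ.symm.toEmbedding, ?_, ?_⟩
    · rw [mem_powerset] at hω ⊢
      intro e he
      rw [mem_map] at he
      obtain ⟨a, ha, rfl⟩ := he
      rw [← hφ]; simpa using hω ha
    · rw [map_map]; simp
  · intro ω _; simp

/-- monotone predicate on finite sets -/
def Mono (A : Finset ι → Prop) : Prop := ∀ S T, S ⊆ T → A S → A T

/-- disjoint occurrence -/
def Box (A B : Finset ι → Prop) (ω : Finset ι) : Prop :=
  ∃ S T, S ⊆ ω ∧ T ⊆ ω ∧ Disjoint S T ∧ A S ∧ B T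

lemma Box.mono (A B : Finset ι → Prop) : Mono (Box A B) := by
  rintro S T h ⟨a, b, h1, h2, h3⟩
  exact ⟨a, b, h1.trans h, h2.trans h, h3⟩

lemma BK (E : Finset ι) {p : ℝ} (h0 : 0 ≤ p) (h1 : p ≤ 1 / 2) (A B : Finset ι → Prop)
    (hA : Mono A) (hB : Mono B) :
    Ex E p (fun ω => ind (Box A B ω)) ≤
      Ex E p (fun ω => ind (A ω)) * Ex E p (fun ω => ind (B ω)) := by
  induction E using Finset.induction_on generalizing A B with
  | empty =>
    simp only [Ex_empty, ← ind_and]
    refine ind_mono ?_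
    rintro ⟨S, T, hS, hT, _, a, b⟩
    exact ⟨hA _ _ hS a, hB _ _ hT b⟩
  | insert e E he ih =>
    have hp1 : p ≤ 1 := by linarith
    rw [Ex_insert he, Ex_insert he, Ex_insert he]
    have hA1 : Mono (fun S => A (insert e S)) := fun a b h => hA _ _ (insert_subset_insert _ h)
    have hB1 : Mono (fun S => B (insert e S)) := fun a b h => hB _ _ (insert_subset_insert _ h)
    have i0 := ih A B hA hB
    have i1 := ih _ B hA1 hB
    have i2 := ih A _ hA hB1
    have key : Ex E p (fun ω => ind (Box A B (insert e ω))) ≤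
        Ex E p (fun ω => ind (Box (fun S => A (insert e S)) B ω)) +
        Ex E p (fun ω => ind (Box A (fun S => B (insert e S)) ω)) -
        Ex E p (fun ω => ind (Box A B ω)) := by
      rw [← Ex_add, ← Ex_sub]
      refine Ex_mono h0 hp1 fun ω hω => ?_
      by_cases h : Box A B ω
      · obtain ⟨S, T, hS, hT, hd, a, b⟩ := h
        rw [ind_pos (P := Box (fun S => A (insert e S)) B ω)
            ⟨S, T, hS, hT, hd, hA _ _ (subset_insert _ _) a, b⟩,
          ind_pos (P := Box A (fun S => B (insert e S)) ω)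
            ⟨S, T, hS, hT, hd, a, hB _ _ (subset_insert _ _) b⟩,
          ind_pos (P := Box A B ω) ⟨S, T, hS, hT, hd, a, b⟩]
        have := ind_le_one (Box A B (insert e ω)); linarith
      · rw [ind_neg h, sub_zero]
        refine le_trans (ind_mono ?_) (ind_or_le _ _)
        rintro ⟨S, T, hS, hT, hd, a, b⟩
        by_cases heT : e ∈ T
        · right
          have heS : e ∉ S := fun h => disjoint_left.1 hd h heT
          refine ⟨S, T.erase e, (subset_insert_iff_of_notMem heS).1 hS, subset_insert_iff.1 hT,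
            hd.mono_right (erase_subset _ _), a, ?_⟩
          show B (insert e (T.erase e))
          rw [insert_erase heT]; exact b
        · left
          refine ⟨S.erase e, T, subset_insert_iff.1 hS, (subset_insert_iff_of_notMem heT).1 hT,
            hd.mono_left (erase_subset _ _), ?_, b⟩
          exact hA _ _ (subset_insert_iff.2 (Subset.refl _)) a
    have a01 : Ex E p (fun ω => ind (A ω)) ≤ Ex E p (fun ω => ind (A (insert e ω))) :=
      Ex_mono h0 hp1 fun ω _ => ind_mono (hA _ _ (subset_insert _ _))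
    have b01 : Ex E p (fun ω => ind (B ω)) ≤ Ex E p (fun ω => ind (B (insert e ω))) :=
      Ex_mono h0 hp1 fun ω _ => ind_mono (hB _ _ (subset_insert _ _))
    set a0 := Ex E p (fun ω => ind (A ω))
    set a1 := Ex E p (fun ω => ind (A (insert e ω)))
    set b0 := Ex E p (fun ω => ind (B ω))
    set b1 := Ex E p (fun ω => ind (B (insert e ω)))
    set x0 := Ex E p (fun ω => ind (Box A B ω))
    have k1 := mul_le_mul_of_nonneg_left key h0
    have k2 := mul_le_mul_of_nonneg_left i1 h0
    have k3 := mul_le_mul_of_nonneg_left i2 h0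
    have k4 := mul_le_mul_of_nonneg_left i0 (show 0 ≤ 1 - 2 * p by linarith)
    have k5 : 0 ≤ p ^ 2 * ((a1 - a0) * (b1 - b0)) :=
      mul_nonneg (sq_nonneg _) (mul_nonneg (by linarith) (by linarith))
    nlinarith

end Pool.Agent.Lib.MP_58a483_pr.H80
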