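import Pool.Agent.Lib.MP_58a483_pr.H80Hang
import Pool.Agent.Lib.MP_58a483_pr.H80ER

set_option autoImplicit false
set_option linter.unusedSectionVars false
set_option linter.unusedVariables false
set_option linter.deprecated false

namespace Pool.Agent.Lib.MP_58a483_pr.H80

open Finset

variable {d n : ℕ}

/-- overcount of `y` when the clusters of the points of `Λ` are added -/
noncomputable def XL (k : Fin d) (Λ : Finset (Fin d → Fin n)) (y : Fin d → Fin n)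
    (ω : Finset (Sym2 (Fin d → Fin n))) : ℝ :=
  ∑ v ∈ Λ, ind (Conn (ω \ RR k {v}) v y) - ind (∃ v ∈ Λ, Conn (ω \ RR k Λ) v y)

lemma RR_mono {k : Fin d} {Λ : Finset (Fin d → Fin n)} {v : Fin d → Fin n} (hv : v ∈ Λ) :
    RR k {v} ⊆ RR k Λ := by
  intro e he
  induction e using Sym2.ind
  rw [mem_RR] at he ⊢
  simp only [mem_singleton] at he
  exact ⟨he.1, he.2.imp (fun h => by rw [h]; exact hv) (fun h => by rw [h]; exact hv)⟩

lemma rel_line (p : ℝ) (k : Fin d) (o y : Fin d → Fin n) :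
    tau (EH d n) p o y = ∑ Λ ∈ (line k o).powerset.filter (fun S => o ∈ S),
      Ex (EH d n) p (fun ω => ind (clus (line k o) o ω = Λ)) *
        Ex (EH d n) p (fun ω => ind (∃ v ∈ Λ, Conn (ω \ RR k Λ) v y)) := by
  have ho : o ∈ line k o := mem_line.2 fun _ _ => rfl
  unfold tau
  rw [Ex_clus ho p (fun _ ω => ind (Conn ω o y))]
  refine sum_congr rfl fun Λ hΛ => ?_
  obtain ⟨h1, h2⟩ := mem_filter.1 hΛ
  have h3 := mem_powerset.1 h1
  have e1 : ∀ ω, ω ⊆ EH d n → (clus (line k o) o (ω ∩ RR k Λ) = Λ ↔ clus (line k o) o ω = Λ) := by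
    intro ω hω
    rw [clus_eq_iff h2 h3, clus_eq_iff h2 h3]
    have a1 : (ω ∩ RR k Λ) ∩ Λ.sym2 = ω ∩ Λ.sym2 := by
      ext e
      induction e using Sym2.ind with
      | _ a b =>
      simp only [mem_inter, mk_mem_sym2_iff, mem_RR]
      refine ⟨fun h => ⟨h.1.1, h.2⟩, fun h => ⟨⟨h.1, ?_, Or.inl h.2.1⟩, h.2⟩⟩
      obtain ⟨j, hj⟩ := mem_EH.1 (hω h.1)
      exact line_adj (h3 h.2.1) (h3 h.2.2) hj.ne
    have a2 : clus Λ o (ω ∩ RR k Λ) = clus Λ o ω := by unfold clus; rw [a1]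
    rw [a2]
    refine and_congr ?_ Iff.rfl
    simp only [disjoint_left, mem_inter]
    refine ⟨fun h e he hω => h he ⟨hω, ?_⟩, fun h e he hω => h he hω.1⟩
    obtain ⟨a, ha, b, hb, rfl⟩ := mem_cut.1 he
    exact mem_RR.2 ⟨line_adj (h3 ha) (mem_sdiff.1 hb).1 fun h => (mem_sdiff.1 hb).2 (h ▸ ha),
      Or.inl ha⟩
  have := Ex_indep (EH d n) (RR k Λ) p (fun a => ind (clus (line k o) o a = Λ))
    (fun b => ind (∃ v ∈ Λ, Conn b v y))
  rw [Ex_congr (f := fun ω => ind (clus (line k o) o (ω ∩ RR k Λ) = Λ))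
    fun ω hω => ind_congr (e1 ω hω)] at this
  rw [← this]
  refine Ex_congr fun ω hω => ?_
  rw [ind_congr (e1 ω hω), ← ind_and, ← ind_and]
  refine ind_congr (and_congr_right fun hc => ⟨fun h => ?_, ?_⟩)
  · refine h.closure (fun u => ∃ v ∈ Λ, Conn (ω \ RR k Λ) v u) ⟨o, h2, Conn.refl _ _⟩ ?_
    rintro a b ⟨v, hv, hva⟩ hab
    by_cases hR : s(a, b) ∈ RR k Λ
    · obtain ⟨r1, r2 | r2⟩ := mem_RR.1 hR
      · refine ⟨b, ?_, Conn.refl _ _⟩
        have a1 : a ∈ line k o := h3 r2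
        have a2 : b ∈ line k o := mem_line.2 fun j hj =>
          (r1.2 j hj).symm.trans (mem_line.1 a1 j hj)
        rw [← hc, mem_clus ho] at r2 ⊢
        exact r2.tail (mem_inter.2 ⟨hab, mk_mem_sym2_iff.2 ⟨a1, a2⟩⟩)
      · exact ⟨b, r2, Conn.refl _ _⟩
    · exact ⟨v, hv, hva.tail (mem_sdiff.2 ⟨hab, hR⟩)⟩
  · rintro ⟨v, hv, hvy⟩
    rw [← hc, mem_clus ho] at hv
    exact (hv.mono inter_subset_left).trans (hvy.mono sdiff_subset)

lemma rel1 (p : ℝ) (k : Fin d) (o : Fin d → Fin n) :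
    chiH d n p o = ∑ Λ ∈ (line k o).powerset.filter (fun S => o ∈ S),
      Ex (EH d n) p (fun ω => ind (clus (line k o) o ω = Λ)) *
        (Λ.card * alH p k o - ∑ y, Ex (EH d n) p (XL k Λ y)) := by
  unfold chiH
  simp only [rel_line p k o]
  rw [sum_comm]
  refine sum_congr rfl fun Λ _ => ?_
  rw [← mul_sum]
  congr 1
  have e : ∀ y, Ex (EH d n) p (XL k Λ y) = ∑ v ∈ Λ, Ex (EH d n) p
      (fun ω => ind (Conn (ω \ RR k {v}) v y)) -
      Ex (EH d n) p (fun ω => ind (∃ v ∈ Λ, Conn (ω \ RR k Λ) v y)) := fun y => by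
    rw [← Ex_sum, ← Ex_sub]; rfl
  simp only [e]
  rw [sum_sub_distrib, sum_comm]
  have : ∑ v ∈ Λ, ∑ y, Ex (EH d n) p (fun ω => ind (Conn (ω \ RR k {v}) v y)) =
      Λ.card * alH p k o := by
    rw [← nsmul_eq_mul, ← sum_const]
    exact sum_congr rfl fun v _ => alH_const p k v o
  rw [this]; ring

lemma XL_nonneg (k : Fin d) (Λ : Finset (Fin d → Fin n)) (y : Fin d → Fin n)
    (ω : Finset (Sym2 (Fin d → Fin n))) : 0 ≤ XL k Λ y ω := by
  unfold XL
  rw [sub_nonneg]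
  refine (ind_exists_le _ _).trans (sum_le_sum fun v hv => ind_mono fun h => h.mono ?_)
  exact sdiff_subset_sdiff (Subset.refl _) (RR_mono hv)

lemma XL_upper {k : Fin d} {o : Fin d → Fin n} {Λ : Finset (Fin d → Fin n)} (hΛ : Λ ⊆ line k o)
    (y : Fin d → Fin n) {ω : Finset (Sym2 (Fin d → Fin n))} (hω : ω ⊆ EH d n) :
    XL k Λ y ω ≤ ∑ v ∈ Λ, (∑ t ∈ Λ.erase v, ind (HE Λ v t (fun f _ => f ≠ k) (fun l => {l}) y ω) +
      ∑ t ∈ Λ.filter (fun t => t k < v k),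
        ind (HE Λ v t (fun f g => f ≠ k ∧ g ≠ k) (fun l => Ioo 0 l) y ω)) := by
  classical
  set H : (Fin d → Fin n) → Finset (Sym2 (Fin d → Fin n)) := fun v =>
    (ω \ RR k {v}) \ star (Λ.erase v) with hH
  have Hsub : ∀ v, H v ⊆ ω := fun v => sdiff_subset.trans sdiff_subset
  have col : ∀ a b, s(a, b) ∈ ω \ RR k {a} → ∃ f, AdjC f a b ∧ f ≠ k := by
    intro a b h
    obtain ⟨f, hf⟩ := mem_EH.1 (hω (mem_sdiff.1 h).1)
    exact ⟨f, hf, fun e => (mem_sdiff.1 h).2 (mem_RR.2 ⟨e ▸ hf, Or.inl (mem_singleton_self _)⟩)⟩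
  have A : ∀ v ∈ Λ, Conn (ω \ RR k {v}) v y → ¬ Conn (H v) v y →
      ∃ t ∈ Λ.erase v, HE Λ v t (fun f _ => f ≠ k) (fun l => {l}) y ω := by
    intro v hv hc hn
    obtain ⟨l, x, rfl, rfl, hp, hinj⟩ := hc.exists_path
    have ex : ∃ j, 0 < j ∧ j ≤ l ∧ x j ∈ Λ := by
      by_contra hne
      apply hn
      refine conn_seg (Nat.zero_le _) fun t _ ht => mem_sdiff.2 ⟨pe_sub.1 hp t ht, fun h => ?_⟩
      rcases mem_star.1 h with h | h
      · rcases Nat.eq_zero_or_pos t with rfl | t0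
        · exact (mem_erase.1 h).1 rfl
        · exact hne ⟨t, t0, ht.le, (mem_erase.1 h).2⟩
      · exact hne ⟨t + 1, by omega, ht, (mem_erase.1 h).2⟩
    obtain ⟨j1, j2, j3⟩ := Nat.find_spec ex
    set j := Nat.find ex
    obtain ⟨f, hf, hfk⟩ := col _ _ (pe_sub.1 hp 0 (by omega))
    obtain ⟨g, hg⟩ := mem_EH.1 (hω (mem_sdiff.1 (pe_sub.1 hp (j - 1) (by omega))).1)
    rw [show j - 1 + 1 = j by omega] at hg
    refine ⟨x j, mem_erase.2 ⟨(hinj 0 j j1 j2).symm, j3⟩, j, x, j, f, g,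
      ⟨fun a b h1 h2 h3 => absurd h3 (hinj a b h1 (by omega)), hv, j3,
        fun i h1 h2 h3 => Nat.find_min ex h2 ⟨h1, by omega, h3⟩⟩, rfl, rfl, j1, hf, hg, hfk,
      mem_singleton_self _, (pe_mono x j2).trans (hp.trans sdiff_subset), ?_⟩
    refine conn_seg j2 fun t h1 h2 => mem_sdiff.2 ⟨(mem_sdiff.1 (pe_sub.1 hp t h2)).1, fun h => ?_⟩
    obtain ⟨i, hi, he⟩ := mem_pe.1 h
    have := edge_inj hinj.simple (Or.inr (hinj 0 l (by omega) le_rfl)) (by omega) h2 he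
    omega
  have B : ∀ v ∈ Λ, ∀ v0 ∈ Λ, v ≠ v0 → Conn (H v) v y → Conn (H v0) v0 y →
      HE Λ v v0 (fun f _ => f ≠ k) (fun l => {l}) y ω ∨
      HE Λ v v0 (fun f g => f ≠ k ∧ g ≠ k) (fun l => Ioo 0 l) y ω := by
    intro v hv v0 hv0 hne c1 c2
    have c3 : Conn (H v ∪ H v0) v v0 :=
      (c1.mono subset_union_left).trans (c2.mono subset_union_right).symm
    obtain ⟨l, x, rfl, rfl, hp, hinj⟩ := c3.exists_path
    have l0 : 0 < l := Nat.pos_of_ne_zero fun h => hne (by rw [h])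
    have touch : ∀ u a b, s(a, b) ∈ H u → a ∈ Λ → a = u := fun u a b h ha => by
      by_contra hh
      exact (mem_sdiff.1 h).2 (mem_star.2 (Or.inl (mem_erase.2 ⟨hh, ha⟩)))
    have hR : Ret Λ x l := ⟨hinj.simple, hv, hv0, fun i h1 h2 h3 => by
      rcases mem_union.1 (pe_sub.1 hp i h2) with h | h
      · exact hinj 0 i h1 h2.le (touch _ _ _ h h3).symm
      · exact hinj i l h2 le_rfl (touch _ _ _ h h3)⟩
    obtain ⟨f, hf, hfk⟩ : ∃ f, AdjC f (x 0) (x 1) ∧ f ≠ k := by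
      rcases mem_union.1 (pe_sub.1 hp 0 l0) with h | h
      · exact col _ _ (mem_sdiff.1 h).1
      · exact absurd (touch _ _ _ h hv) hne
    obtain ⟨g, hg, hgk⟩ : ∃ g, AdjC g (x l) (x (l - 1)) ∧ g ≠ k := by
      have := pe_sub.1 hp (l - 1) (by omega)
      rw [show l - 1 + 1 = l by omega, Sym2.eq_swap] at this
      rcases mem_union.1 this with h | h
      · exact absurd (touch _ _ _ h hv0).symm hne
      · exact col _ _ (mem_sdiff.1 h).1
    have hpω : pe x l ⊆ ω := hp.trans (union_subset (Hsub _) (Hsub _))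
    obtain ⟨i, i1, i2, i3⟩ : ∃ i, 0 < i ∧ i ≤ l ∧ Conn (ω \ pe x l) (x i) y := by
      refine c2.closure (fun u => ∃ i, 0 < i ∧ i ≤ l ∧ Conn (ω \ pe x l) (x i) u)
        ⟨l, l0, le_rfl, Conn.refl _ _⟩ ?_
      rintro a b ⟨i, i1, i2, i3⟩ hab
      by_cases hm : s(a, b) ∈ pe x l
      · obtain ⟨j, hj, rfl⟩ := mem_pe_right hm
        refine ⟨j, Nat.pos_of_ne_zero fun h => ?_, hj, Conn.refl _ _⟩
        subst h
        rw [Sym2.eq_swap] at hab
        exact hne (touch _ _ _ hab hv)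
      · exact ⟨i, i1, i2, i3.tail (mem_sdiff.2 ⟨Hsub _ hab, hm⟩)⟩
    rcases eq_or_lt_of_le i2 with rfl | i4
    · exact Or.inl ⟨i, x, i, f, g, hR, rfl, rfl, l0, hf, hg.symm, hfk, mem_singleton_self _, hpω, i3⟩
    · exact Or.inr ⟨l, x, i, f, g, hR, rfl, rfl, l0, hf, hg.symm, ⟨hfk, hgk⟩,
        mem_Ioo.2 ⟨i1, i4⟩, hpω, i3⟩
  have nn : ∀ v, 0 ≤ ∑ t ∈ Λ.erase v, ind (HE Λ v t (fun f _ => f ≠ k) (fun l => {l}) y ω) :=
    fun v => sum_nonneg fun _ _ => ind_nonneg _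
  have nn' : ∀ v : Fin d → Fin n, 0 ≤ ∑ t ∈ Λ.filter (fun t => t k < v k),
      ind (HE Λ v t (fun f g => f ≠ k ∧ g ≠ k) (fun l => Ioo 0 l) y ω) :=
    fun v => sum_nonneg fun _ _ => ind_nonneg _
  have A' : ∀ v, (∃ t ∈ Λ.erase v, HE Λ v t (fun f _ => f ≠ k) (fun l => {l}) y ω) →
      1 ≤ ∑ t ∈ Λ.erase v, ind (HE Λ v t (fun f _ => f ≠ k) (fun l => {l}) y ω) :=
    fun v h => by rw [← ind_pos h]; exact ind_exists_le _ _
  unfold XL
  by_cases hD : (Λ.filter (fun v => Conn (H v) v y)).Nonempty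
  · obtain ⟨v0, h1, h2⟩ := exists_min_image _ (fun v => v k) hD
    obtain ⟨h3, h4⟩ := mem_filter.1 h1
    rw [ind_pos (P := ∃ v ∈ Λ, Conn (ω \ RR k Λ) v y) ⟨v0, h3, h4.mono ?_⟩]
    · rw [← add_sum_erase _ _ h3, ← add_sum_erase _ _ h3]
      have k1 := ind_le_one (Conn (ω \ RR k {v0}) v0 y)
      have k2 := nn v0
      have k3 := nn' v0
      refine le_trans ?_ (add_le_add (add_nonneg k2 k3) (sum_le_sum
        (f := fun v => ind (Conn (ω \ RR k {v}) v y)) fun v hv => ?_))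
      · linarith
      obtain ⟨v1, v2⟩ := mem_erase.1 hv
      refine ind_le_of (add_nonneg (nn v) (nn' v)) fun hc => ?_
      by_cases hd : Conn (H v) v y
      · rcases B v v2 v0 h3 v1 hd h4 with h | h
        · exact le_add_of_le_of_nonneg (A' v ⟨v0, mem_erase.2 ⟨v1.symm, h3⟩, h⟩) (nn' v)
        · refine le_add_of_nonneg_of_le (nn v) ?_
          rw [← ind_pos h]
          refine single_le_sum (f := fun t => ind (HE Λ v t (fun f g => f ≠ k ∧ g ≠ k)
            (fun l => Ioo 0 l) y ω)) (fun _ _ => ind_nonneg _) (mem_filter.2 ⟨h3, ?_⟩)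
          exact lt_of_le_of_ne (h2 v (mem_filter.2 ⟨v2, hd⟩))
            (line_adj (hΛ h3) (hΛ v2) v1.symm).1
      · exact le_add_of_le_of_nonneg (A' v (A v v2 hc hd)) (nn' v)
    · intro e he
      induction e using Sym2.ind with
      | _ a b =>
      obtain ⟨e1, e2⟩ := mem_sdiff.1 he
      obtain ⟨e3, e4⟩ := mem_sdiff.1 e1
      refine mem_sdiff.2 ⟨e3, fun h => ?_⟩
      obtain ⟨r1, r2⟩ := mem_RR.1 h
      rw [mem_star] at e2
      rw [mem_RR] at e4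
      simp only [mem_erase, mem_singleton] at e2 e4
      tauto
  · refine le_trans (sub_le_self _ (ind_nonneg _)) (sum_le_sum fun v hv => ?_)
    refine ind_le_of (add_nonneg (nn v) (nn' v)) fun hc => ?_
    exact le_add_of_le_of_nonneg (A' v (A v hv hc fun h => hD ⟨v, mem_filter.2 ⟨hv, h⟩⟩)) (nn' v)

lemma conn_avoid {η : Finset (Sym2 (Fin d → Fin n))} {a y u : Fin d → Fin n} (h : Conn η a y)
    (hu : ¬ Conn η a u) : Conn (η \ star {u}) a y := by
  refine h.closure (fun b => Conn (η \ star {u}) a b) (Conn.refl _ _) fun b c hb hbc => ?_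
  refine hb.tail (mem_sdiff.2 ⟨hbc, fun hs => hu ?_⟩)
  rcases mem_star.1 hs with h | h
  · rw [← mem_singleton.1 h]; exact hb.mono sdiff_subset
  · rw [← mem_singleton.1 h]; exact (hb.mono sdiff_subset).tail hbc

lemma good_first {k f : Fin d} {Λ : Finset (Fin d → Fin n)} {x : ℕ → Fin d → Fin n} {l i : ℕ}
    {y : Fin d → Fin n} {ω : Finset (Sym2 (Fin d → Fin n))} (hR : Ret Λ x l)
    (hf : AdjC f (x 0) (x 1)) (hfk : f ≠ k) (hG : Good Λ x l i y ω) (i0 : 0 < i) (il : i ≤ l)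
    (hne : x 0 ≠ x l) : Conn (ω \ RR k {x 0}) (x 0) y := by
  have ne0 : ∀ j, 0 < j → j ≤ l → x j ≠ x 0 := fun j j0 jl h => by
    have := hR.simple 0 j j0 jl h.symm
    exact hne (this.2 ▸ h.symm)
  refine Conn.trans (b := x i) (conn_seg (Nat.zero_le _) fun t _ ht => ?_) ?_
  · refine mem_sdiff.2 ⟨pe_sub.1 hG.1 t (by omega), fun h => ?_⟩
    obtain ⟨r1, r2⟩ := mem_RR.1 h
    simp only [mem_singleton] at r2
    rcases Nat.eq_zero_or_pos t with rfl | t0
    · exact hfk (hf.uniq r1)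
    · rcases r2 with r2 | r2
      · exact ne0 t t0 (by omega) r2
      · exact ne0 (t + 1) (by omega) (by omega) r2
  · refine (conn_avoid (u := x 0) hG.2.2 fun h => ne0 i i0 il (hG.2.1 _ (mem_hull_of_le _ _ il) _
      (mem_hull_of_le _ _ (Nat.zero_le _)) h)).mono ?_
    intro e he
    obtain ⟨e1, e2⟩ := mem_sdiff.1 he
    exact mem_sdiff.2 ⟨(mem_sdiff.1 e1).1, fun h => e2 (mem_inter.1 h).2⟩

lemma Good.rev {V : Type} [DecidableEq V] {Λ : Finset V} {x : ℕ → V} {l i : ℕ} {y : V}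
    {ω : Finset (Sym2 V)} (hG : Good Λ x l i y ω) (il : i ≤ l) :
    Good Λ (fun t => x (l - t)) l (l - i) y ω := by
  have e : hull Λ (fun t => x (l - t)) l = hull Λ x l := by
    unfold hull
    congr 1
    ext v
    simp only [mem_image, mem_range]
    constructor
    · rintro ⟨t, ht, rfl⟩; exact ⟨l - t, by omega, rfl⟩
    · rintro ⟨t, ht, rfl⟩; exact ⟨l - t, by omega, by rw [show l - (l - t) = t by omega]⟩
  unfold Good
  rw [e, pe_rev]
  simp only [show l - (l - i) = i by omega]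
  exact hG

lemma XL_two {k : Fin d} {Λ : Finset (Fin d → Fin n)} {y a b : Fin d → Fin n}
    {ω : Finset (Sym2 (Fin d → Fin n))} (ha : a ∈ Λ) (hb : b ∈ Λ) (hab : a ≠ b)
    (ca : Conn (ω \ RR k {a}) a y) (cb : Conn (ω \ RR k {b}) b y) : 1 ≤ XL k Λ y ω := by
  unfold XL
  have := sum_le_sum_of_subset_of_nonneg (f := fun v => ind (Conn (ω \ RR k {v}) v y))
    (show ({a, b} : Finset _) ⊆ Λ by
      intro v hv
      simp only [mem_insert, mem_singleton] at hv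
      rcases hv with rfl | rfl <;> assumption) (fun _ _ _ => ind_nonneg _)
  rw [sum_pair hab, ind_pos ca, ind_pos cb] at this
  have := ind_le_one (∃ v ∈ Λ, Conn (ω \ RR k Λ) v y)
  linarith

lemma XL_one {k : Fin d} {Λ : Finset (Fin d → Fin n)} {y a : Fin d → Fin n}
    {ω : Finset (Sym2 (Fin d → Fin n))} (ha : a ∈ Λ) (ca : Conn (ω \ RR k {a}) a y)
    (h : Conn (ω \ RR k Λ) a y → 1 ≤ XL k Λ y ω) : 1 ≤ XL k Λ y ω := by
  by_cases hx : ∃ v ∈ Λ, Conn (ω \ RR k Λ) v y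
  · obtain ⟨v, hv, hc⟩ := hx
    by_cases hva : v = a
    · exact h (hva ▸ hc)
    · exact XL_two hv ha hva (hc.mono (sdiff_subset_sdiff (Subset.refl _) (RR_mono hv))) ca
  · unfold XL
    rw [ind_neg hx, sub_zero, ← ind_pos ca]
    exact single_le_sum (f := fun v => ind (Conn (ω \ RR k {v}) v y)) (fun _ _ => ind_nonneg _) ha

lemma XL_lower_a {k f : Fin d} {Λ : Finset (Fin d → Fin n)} {x : ℕ → Fin d → Fin n} {l : ℕ}
    {y : Fin d → Fin n} {ω : Finset (Sym2 (Fin d → Fin n))} (hR : Ret Λ x l) (l0 : 0 < l)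
    (hf : AdjC f (x 0) (x 1)) (hfk : f ≠ k) (hg : AdjC k (x (l - 1)) (x l))
    (hG : Good Λ x l l y ω) (hne : x 0 ≠ x l) : 1 ≤ XL k Λ y ω := by
  refine XL_one hR.first (good_first hR hf hfk hG l0 le_rfl hne) fun hc => ?_
  exfalso
  obtain ⟨j, j1, j2⟩ : ∃ j, j < l ∧ Conn (ω \ pe x l) (x j) y := by
    refine hc.closure (fun u => ∃ j, j < l ∧ Conn (ω \ pe x l) (x j) u) ⟨0, l0, Conn.refl _ _⟩ ?_
    rintro a b ⟨j, j1, j2⟩ hab
    by_cases hm : s(a, b) ∈ pe x l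
    · obtain ⟨i, hi, he⟩ := mem_pe.1 hm
      have : i + 1 ≠ l := fun e => (mem_sdiff.1 hab).2 (by
        rw [← he, show i = l - 1 by omega, show l - 1 + 1 = l by omega]
        exact mem_RR.2 ⟨hg, Or.inr hR.last⟩)
      rcases Sym2.eq_iff.1 he with ⟨_, rfl⟩ | ⟨rfl, _⟩
      · exact ⟨i + 1, by omega, Conn.refl _ _⟩
      · exact ⟨i, hi, Conn.refl _ _⟩
    · exact ⟨j, j1, j2.tail (mem_sdiff.2 ⟨(mem_sdiff.1 hab).1, hm⟩)⟩
  have e := hG.2.1 _ (mem_hull_of_le _ _ j1.le) _ (mem_hull_of_le _ _ le_rfl)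
    (j2.trans hG.2.2.symm)
  have := hR.simple j l j1 le_rfl e
  exact hne (this.1 ▸ e)

lemma XL_lower_b {k f g : Fin d} {Λ : Finset (Fin d → Fin n)} {x : ℕ → Fin d → Fin n} {l i : ℕ}
    {y : Fin d → Fin n} {ω : Finset (Sym2 (Fin d → Fin n))} (hR : Ret Λ x l) (l0 : 0 < l)
    (hf : AdjC f (x 0) (x 1)) (hfk : f ≠ k) (hg : AdjC g (x (l - 1)) (x l)) (hgk : g ≠ k)
    (il : i ≤ l) (hG : Good Λ x l i y ω) (hne : x 0 ≠ x l) : 1 ≤ XL k Λ y ω := by
  have c : Conn (ω \ RR k Λ) (x 0) (x l) := by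
    refine conn_seg (Nat.zero_le _) fun t _ ht => mem_sdiff.2 ⟨pe_sub.1 hG.1 t ht, fun h => ?_⟩
    obtain ⟨r1, r2 | r2⟩ := mem_RR.1 h
    · have : t = 0 := by
        by_contra hh
        exact hR.inner t (by omega) ht r2
      subst this
      exact hfk (hf.uniq r1)
    · have : t + 1 = l := by
        by_contra hh
        exact hR.inner (t + 1) (by omega) (by omega) r2
      subst this
      exact hgk (hg.uniq r1)
  have m1 := sdiff_subset_sdiff (Subset.refl ω) (RR_mono (k := k) hR.first)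
  have m2 := sdiff_subset_sdiff (Subset.refl ω) (RR_mono (k := k) hR.last)
  rcases Nat.eq_zero_or_pos i with rfl | i0
  · have := good_first (k := k) (f := g) hR.rev (by simpa using hg.symm) hgk (hG.rev il)
      (by omega) (by omega) (by simpa using hne.symm)
    simp only [Nat.sub_zero] at this
    exact XL_one hR.last this fun hc =>
      XL_two hR.first hR.last hne ((c.trans hc).mono m1) (hc.mono m2)
  · exact XL_one hR.first (good_first hR hf hfk hG i0 il hne) fun hc =>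
      XL_two hR.first hR.last hne (hc.mono m1) ((c.symm.trans hc).mono m2)

end Pool.Agent.Lib.MP_58a483_pr.H80
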