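import Pool.Agent.Lib.MP_58a483_pr.H80Rel

set_option autoImplicit false
set_option linter.unusedSectionVars false
set_option linter.unusedVariables false
set_option linter.deprecated false

namespace Pool.Agent.Lib.MP_58a483_pr.H80

open Finset

variable {d n : ℕ}

/-- `y` is reached from `o` by a path whose first step has direction `k` -/
def TT (o y : Fin d → Fin n) (ω : Finset (Sym2 (Fin d → Fin n))) (k : Fin d) : Prop :=
  ∃ u, AdjC k o u ∧ s(o, u) ∈ ω ∧ Conn (ω \ star {o}) u y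

/-- `y` is reached through two different directions -/
def Om (o y : Fin d → Fin n) (ω : Finset (Sym2 (Fin d → Fin n))) : Prop :=
  ∃ f g, f < g ∧ TT o y ω f ∧ TT o y ω g

lemma conn_star_ne {o u y : Fin d → Fin n} {ω : Finset (Sym2 (Fin d → Fin n))}
    (h : Conn (ω \ star {o}) u y) (hu : u ≠ o) : y ≠ o :=
  h.closure (fun a => a ≠ o) hu fun a b _ hab e =>
    (mem_sdiff.1 hab).2 (mem_star.2 (Or.inr (mem_singleton.2 e)))

lemma TT.ne {o y : Fin d → Fin n} {ω : Finset (Sym2 (Fin d → Fin n))} {k : Fin d}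
    (h : TT o y ω k) : y ≠ o := by
  obtain ⟨u, h1, _, h3⟩ := h
  exact conn_star_ne h3 h1.ne.symm

lemma conn_iff_TT {o y : Fin d → Fin n} {ω R : Finset (Sym2 (Fin d → Fin n))} (hω : ω ⊆ EH d n)
    (hR : R ⊆ star {o}) (P : Fin d → Prop) (hP : ∀ f u, AdjC f o u → (s(o, u) ∈ R ↔ ¬ P f)) :
    Conn (ω \ R) o y ↔ y = o ∨ ∃ f, P f ∧ TT o y ω f := by
  constructor
  · intro h
    refine h.closure (fun u => u = o ∨ ∃ f, P f ∧ TT o u ω f) (Or.inl rfl) ?_
    rintro a b ha hab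
    obtain ⟨h1, h2⟩ := mem_sdiff.1 hab
    by_cases hb : b = o
    · exact Or.inl hb
    right
    by_cases hao : a = o
    · subst hao
      obtain ⟨f, hf⟩ := mem_EH.1 (hω h1)
      exact ⟨f, by_contra fun hh => h2 ((hP f b hf).2 hh), b, hf, h1, Conn.refl _ _⟩
    · obtain ⟨f, pf, u, u1, u2, u3⟩ := ha.resolve_left hao
      refine ⟨f, pf, u, u1, u2, u3.tail (mem_sdiff.2 ⟨h1, fun hs => ?_⟩)⟩
      simp only [mem_star, mem_singleton] at hs
      tauto
  · rintro (rfl | ⟨f, pf, u, u1, u2, u3⟩)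
    · exact Conn.refl _ _
    · exact (Conn.single (mem_sdiff.2 ⟨u2, fun h => (hP f u u1).1 h pf⟩)).trans
        (u3.mono (sdiff_subset_sdiff (Subset.refl _) hR))

lemma rel2 (p : ℝ) (o : Fin d → Fin n) :
    ∑ k, alH p k o = ((d : ℝ) - 1) * chiH d n p o + 1 +
      ∑ y, Ex (EH d n) p (fun ω => ind (Om o y ω)) := by
  classical
  unfold alH chiH tau
  have e1 : (1 : ℝ) = ∑ y, Ex (EH d n) p (fun ω => ind (y = o)) := by
    simp only [Ex_const]
    rw [sum_eq_single o (fun y _ h => ind_neg h) (by simp), ind_pos rfl]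
  rw [sum_comm, mul_sum]
  conv_rhs => enter [1, 2]; rw [e1]
  rw [← sum_add_distrib, ← sum_add_distrib]
  refine sum_congr rfl fun y _ => ?_
  rw [← Ex_sum, ← Ex_mul_left, ← Ex_add, ← Ex_add]
  refine Ex_congr fun ω hω => ?_
  have a1 : ∀ k, Conn (ω \ RR k {o}) o y ↔ y = o ∨ ∃ f, f ≠ k ∧ TT o y ω f := fun k =>
    conn_iff_TT (R := RR k {o}) hω inter_subset_right _ fun f u hf => by
      rw [mem_RR, not_not]
      exact ⟨fun h => hf.uniq h.1, fun h => ⟨h ▸ hf, Or.inl (mem_singleton_self _)⟩⟩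
  have a2 : Conn ω o y ↔ y = o ∨ ∃ f, True ∧ TT o y ω f := by
    have := conn_iff_TT (o := o) (y := y) hω (empty_subset _) (fun _ => True) (by simp)
    rwa [sdiff_empty] at this
  simp only [a1, a2, true_and]
  by_cases hy : y = o
  · have : ¬ Om o y ω := fun ⟨f, _, _, h, _⟩ => h.ne hy
    simp [hy, ind_pos, ind_neg (hy ▸ this)]
  simp only [hy, false_or, ind_neg not_false, add_zero]
  by_cases h2 : Om o y ω
  · rw [ind_pos h2]
    obtain ⟨f, g, fg, tf, tg⟩ := h2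
    rw [ind_pos ⟨f, tf⟩, sum_congr rfl (g := fun _ => 1) fun k _ => ind_pos ?_]
    · simp
    · by_cases hk : f = k
      · exact ⟨g, hk ▸ fg.ne', tg⟩
      · exact ⟨f, hk, tf⟩
  rw [ind_neg h2, add_zero]
  by_cases h1 : ∃ f, TT o y ω f
  · rw [ind_pos h1]
    obtain ⟨f, tf⟩ := h1
    have : ∀ k, (∃ g, g ≠ k ∧ TT o y ω g) ↔ ¬ k = f := by
      intro k
      constructor
      · rintro ⟨g, g1, g2⟩ rfl
        rcases lt_or_gt_of_ne g1 with h | h
        · exact h2 ⟨_, _, h, g2, tf⟩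
        · exact h2 ⟨_, _, h, tf, g2⟩
      · intro h; exact ⟨f, Ne.symm h, tf⟩
    simp only [this, ind_not]
    rw [sum_sub_distrib, sum_eq_single f (fun k _ h => ind_neg h) (by simp), ind_pos rfl]
    simp
  · rw [ind_neg h1, mul_zero]
    exact sum_eq_zero fun k _ => ind_neg fun ⟨f, _, h⟩ => h1 ⟨f, h⟩

lemma Om_upper {o y : Fin d → Fin n} {ω : Finset (Sym2 (Fin d → Fin n))} (h : Om o y ω) :
    ∃ fg ∈ univ.filter (fun fg : Fin d × Fin d => fg.1 < fg.2),
      HE {o} o o (fun a b => a = fg.1 ∧ b = fg.2) (fun l => Ioo 0 l) y ω := by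
  obtain ⟨f, g, fg, ⟨u, u1, u2, u3⟩, ⟨v, v1, v2, v3⟩⟩ := h
  refine ⟨(f, g), by simpa using fg, ?_⟩
  obtain ⟨l, x, rfl, rfl, hp, hinj⟩ := (u3.trans v3.symm).exists_path
  have no : ∀ i, i ≤ l → x i ≠ o := fun i hi =>
    conn_star_ne ((conn_pe x i).mono ((pe_mono x hi).trans hp)) u1.ne.symm
  obtain ⟨i, i1, i2⟩ := meet (Nat.zero_le l) u3
  set x' : ℕ → Fin d → Fin n := fun t => if t = 0 ∨ t = l + 2 then o else x (t - 1) with hx'
  have x0 : x' 0 = o := by simp [hx']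
  have xl : x' (l + 2) = o := by simp [hx']
  have xi : ∀ t, t ≤ l → x' (t + 1) = x t := fun t ht => by
    simp only [hx']; rw [if_neg (by omega)]; rfl
  have xi' : ∀ t, 0 < t → t < l + 2 → x' t = x (t - 1) := fun t h1 h2 => by
    simp only [hx']; rw [if_neg (by omega)]
  refine ⟨l + 2, x', i + 1, f, g, ⟨?_, by simp [x0], by simp [xl], ?_⟩, x0, xl, by omega,
    by rw [x0, xi 0 (by omega)]; exact u1,
    by rw [xl, show l + 2 - 1 = l + 1 by omega, xi l le_rfl]; exact v1.symm,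
    ⟨rfl, rfl⟩, mem_Ioo.2 ⟨by omega, by omega⟩, ?_, ?_⟩
  · intro a b hab hb he
    rcases Nat.eq_zero_or_pos a with rfl | a0
    · refine ⟨rfl, by_contra fun hh => ?_⟩
      rw [x0, xi' b hab (by omega)] at he
      exact no _ (by omega) he.symm
    · exfalso
      rw [xi' a a0 (by omega)] at he
      rcases eq_or_lt_of_le hb with rfl | hb'
      · rw [xl] at he; exact no _ (by omega) he
      · rw [xi' b (by omega) hb'] at he
        exact hinj (a - 1) (b - 1) (by omega) (by omega) he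
  · intro t h1 h2
    rw [xi' t h1 h2, mem_singleton]; exact no _ (by omega)
  · rw [pe_sub]
    intro t ht
    rcases Nat.eq_zero_or_pos t with rfl | t0
    · rw [x0, xi 0 (by omega)]; exact u2
    · by_cases h : t = l + 1
      · subst h
        rw [xl, xi l le_rfl, Sym2.eq_swap]; exact v2
      · rw [xi' t t0 ht, xi t (by omega)]
        have := pe_sub.1 hp (t - 1) (by omega)
        rw [show t - 1 + 1 = t by omega] at this
        exact (mem_sdiff.1 this).1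
  · rw [xi i i1]
    refine i2.mono fun e he => ?_
    obtain ⟨e1, e2⟩ := mem_sdiff.1 he
    obtain ⟨e3, e4⟩ := mem_sdiff.1 e1
    refine mem_sdiff.2 ⟨e3, fun h => ?_⟩
    obtain ⟨t, ht, rfl⟩ := mem_pe.1 h
    rcases Nat.eq_zero_or_pos t with rfl | t0
    · exact e4 (mem_star.2 (Or.inl (by simp [x0])))
    · by_cases h : t = l + 1
      · subst h; exact e4 (mem_star.2 (Or.inr (by simp [xl])))
      · refine e2 (mem_pe.2 ⟨t - 1, by omega, ?_⟩)
        rw [xi' t t0 ht, xi t (by omega), show t - 1 + 1 = t by omega]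

lemma good_TT {f : Fin d} {o : Fin d → Fin n} {x : ℕ → Fin d → Fin n} {l i : ℕ}
    {y : Fin d → Fin n} {ω : Finset (Sym2 (Fin d → Fin n))} (hR : Ret {o} x l)
    (hf : AdjC f (x 0) (x 1)) (hG : Good {o} x l i y ω) (i0 : 0 < i) (il : i < l) :
    TT o y ω f := by
  have x0 : x 0 = o := mem_singleton.1 hR.first
  have no : ∀ j, 0 < j → j < l → x j ≠ o := fun j h1 h2 e => hR.inner j h1 h2 (mem_singleton.2 e)
  refine ⟨x 1, x0 ▸ hf, x0 ▸ pe_sub.1 hG.1 0 (by omega), Conn.trans (b := x i) ?_ ?_⟩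
  · refine conn_seg i0 fun t h1 h2 => mem_sdiff.2 ⟨pe_sub.1 hG.1 t (by omega), fun h => ?_⟩
    rcases mem_star.1 h with h | h
    · exact no t (by omega) (by omega) (mem_singleton.1 h)
    · exact no (t + 1) (by omega) (by omega) (mem_singleton.1 h)
  · exact (conn_avoid (u := o) hG.2.2 fun h => no i i0 il (hG.2.1 _ (mem_hull_of_le _ _ il.le) _
      (mem_hull_of_mem _ _ (mem_singleton_self _)) h)).mono
      (sdiff_subset_sdiff sdiff_subset (Subset.refl _))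

lemma pair_ne (Λ : Finset (Fin d → Fin n)) :
    ∑ st : (Fin d → Fin n) × (Fin d → Fin n), ind (st.1 ∈ Λ ∧ st.2 ∈ Λ ∧ st.1 ≠ st.2) =
      (Λ.card : ℝ) * (Λ.card - 1) := by
  classical
  rw [sum_ind_eq_card]
  have : univ.filter (fun st : (Fin d → Fin n) × (Fin d → Fin n) =>
      st.1 ∈ Λ ∧ st.2 ∈ Λ ∧ st.1 ≠ st.2) = Λ.offDiag := by
    ext st; simp [mem_offDiag]
  rw [this, offDiag_card, Nat.cast_sub (Nat.le_mul_self _)]
  push_cast; ring

lemma pair_lt {k : Fin d} {o : Fin d → Fin n} {Λ : Finset (Fin d → Fin n)} (hΛ : Λ ⊆ line k o) :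
    ∑ st : (Fin d → Fin n) × (Fin d → Fin n), ind (st.1 ∈ Λ ∧ st.2 ∈ Λ ∧ st.1 k < st.2 k) =
      (Λ.card : ℝ) * (Λ.card - 1) / 2 := by
  have e1 : ∑ st : (Fin d → Fin n) × (Fin d → Fin n), ind (st.1 ∈ Λ ∧ st.2 ∈ Λ ∧ st.2 k < st.1 k) =
      ∑ st : (Fin d → Fin n) × (Fin d → Fin n), ind (st.1 ∈ Λ ∧ st.2 ∈ Λ ∧ st.1 k < st.2 k) := by
    rw [← Equiv.sum_comp (Equiv.prodComm _ _)]
    exact sum_congr rfl fun st _ => ind_congr ⟨fun h => ⟨h.2.1, h.1, h.2.2⟩,
      fun h => ⟨h.2.1, h.1, h.2.2⟩⟩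
  rw [← pair_ne, eq_div_iff two_ne_zero, mul_two]
  nth_rewrite 1 [← e1]
  rw [← sum_add_distrib]
  refine sum_congr rfl fun st _ => ?_
  by_cases h : st.1 ∈ Λ ∧ st.2 ∈ Λ ∧ st.1 ≠ st.2
  · rw [ind_pos h]
    rcases lt_or_gt_of_ne (line_adj (hΛ h.1) (hΛ h.2.1) h.2.2).1 with h1 | h1
    · rw [ind_neg (fun a => lt_asymm h1 a.2.2), ind_pos ⟨h.1, h.2.1, h1⟩, zero_add]
    · rw [ind_pos ⟨h.1, h.2.1, h1⟩, ind_neg (fun a => lt_asymm h1 a.2.2), add_zero]
  · rw [ind_neg h, ind_neg, ind_neg, add_zero]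
    · exact fun a => h ⟨a.1, a.2.1, fun e => a.2.2.ne (by rw [e])⟩
    · exact fun a => h ⟨a.1, a.2.1, fun e => a.2.2.ne (by rw [e])⟩

lemma pair_dir : ∑ fg : Fin d × Fin d, ind (fg.1 < fg.2) = (d : ℝ) * (d - 1) / 2 := by
  classical
  have e1 : ∑ fg : Fin d × Fin d, ind (fg.2 < fg.1) = ∑ fg : Fin d × Fin d, ind (fg.1 < fg.2) := by
    rw [← Equiv.sum_comp (Equiv.prodComm _ _)]; rfl
  have e2 : ∑ fg : Fin d × Fin d, ind (fg.1 ≠ fg.2) = (d : ℝ) * (d - 1) := by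
    rw [sum_ind_eq_card]
    have : univ.filter (fun st : Fin d × Fin d => st.1 ≠ st.2) = (univ : Finset (Fin d)).offDiag := by
      ext st; simp [mem_offDiag]
    rw [this, offDiag_card, Nat.cast_sub (Nat.le_mul_self _)]
    simp; ring
  rw [← e2, eq_div_iff two_ne_zero, mul_two]
  nth_rewrite 1 [← e1]
  rw [← sum_add_distrib]
  refine sum_congr rfl fun st _ => ?_
  rcases lt_trichotomy st.1 st.2 with h | h | h
  · rw [ind_neg (lt_asymm h), ind_pos h, ind_pos h.ne, zero_add]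
  · rw [ind_neg (by rw [h]; exact lt_irrefl _), ind_neg (by rw [h]; exact lt_irrefl _),
      ind_neg (not_not.2 h), add_zero]
  · rw [ind_pos h, ind_neg (lt_asymm h), ind_pos h.ne', add_zero]

lemma sum_ne_dir (k : Fin d) (F : Fin d → ℝ) (a : ℝ) (h : ∀ f, f ≠ k → F f = a) :
    ∑ f, ind (f ≠ k) * F f = ((d : ℝ) - 1) * a := by
  rw [← add_sum_erase _ _ (mem_univ k), ind_neg (not_not.2 rfl), zero_mul, zero_add,
    sum_congr rfl (g := fun _ => a) fun f hf => by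
      rw [ind_pos (mem_erase.1 hf).1, one_mul, h f (mem_erase.1 hf).1]]
  rw [sum_const, card_erase_of_mem (mem_univ _), card_univ, Fintype.card_fin, nsmul_eq_mul,
    Nat.cast_sub k.pos]
  simp

end Pool.Agent.Lib.MP_58a483_pr.H80
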