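import Pool.Agent.Lib.MP_58a483_pr.H80Fam

set_option autoImplicit false
set_option linter.unusedSectionVars false
set_option linter.unusedVariables false
set_option linter.deprecated false

namespace Pool.Agent.Lib.MP_58a483_pr.H80

open Finset

/-- first order expansion -/
def Ex1 {X : Type} (z f : X → ℝ) (a : ℝ) : Prop := ∃ r, Bd r ∧ ∀ i, f i = a + z i * r i

/-- second order expansion -/
def Ex2 {X : Type} (z f : X → ℝ) (a b : ℝ) : Prop :=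
  ∃ r, Bd r ∧ ∀ i, f i = a + z i * b + z i ^ 2 * r i

section
variable {X : Type} {z f g : X → ℝ} {a b a' b' : ℝ}

lemma Ex1.const (z : X → ℝ) (a : ℝ) : Ex1 z (fun _ => a) a := ⟨fun _ => 0, Bd.const _, by simp⟩

lemma Ex1.add (h : Ex1 z f a) (h' : Ex1 z g b) : Ex1 z (fun i => f i + g i) (a + b) := by
  obtain ⟨r, hr, e⟩ := h
  obtain ⟨s, hs, e'⟩ := h'
  exact ⟨fun i => r i + s i, hr.add hs, fun i => by simp only [e, e']; ring⟩

lemma Ex1.neg (h : Ex1 z f a) : Ex1 z (fun i => - f i) (-a) := by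
  obtain ⟨r, hr, e⟩ := h
  exact ⟨fun i => - r i, hr.neg, fun i => by simp only [e]; ring⟩

lemma Ex1.sub (h : Ex1 z f a) (h' : Ex1 z g b) : Ex1 z (fun i => f i - g i) (a - b) := by
  simpa only [sub_eq_add_neg] using h.add h'.neg

lemma Ex1.mul (hz : Bd z) (h : Ex1 z f a) (h' : Ex1 z g b) :
    Ex1 z (fun i => f i * g i) (a * b) := by
  obtain ⟨r, hr, e⟩ := h
  obtain ⟨s, hs, e'⟩ := h'
  exact ⟨fun i => a * s i + b * r i + z i * r i * s i, by fun_prop, fun i => by simp only [e, e']; ring⟩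

lemma Ex1.pow (hz : Bd z) (h : Ex1 z f a) (k : ℕ) : Ex1 z (fun i => f i ^ k) (a ^ k) := by
  induction k with
  | zero => simpa only [pow_zero] using Ex1.const z 1
  | succ k ih => simpa only [pow_succ] using ih.mul hz h

lemma Ex1.div_const (hz : Bd z) (h : Ex1 z f a) (b : ℝ) : Ex1 z (fun i => f i / b) (a / b) := by
  simpa only [div_eq_mul_inv] using h.mul hz (Ex1.const z b⁻¹)

lemma Ex1.inv (h : Ex1 z f a) (hb : Bd fun i => (f i)⁻¹) (f0 : ∀ i, f i ≠ 0) (a0 : a ≠ 0) :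
    Ex1 z (fun i => (f i)⁻¹) a⁻¹ := by
  obtain ⟨r, hr, e⟩ := h
  refine ⟨fun i => -(r i * (f i)⁻¹ * a⁻¹), ((hr.mul hb).mul (Bd.const _)).neg, fun i => ?_⟩
  have := f0 i
  field_simp
  rw [e]; ring

lemma Ex2.const (z : X → ℝ) (a : ℝ) : Ex2 z (fun _ => a) a 0 := ⟨fun _ => 0, Bd.const _, by simp⟩

lemma Ex2.add (h : Ex2 z f a a') (h' : Ex2 z g b b') :
    Ex2 z (fun i => f i + g i) (a + b) (a' + b') := by
  obtain ⟨r, hr, e⟩ := h
  obtain ⟨s, hs, e'⟩ := h'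
  exact ⟨fun i => r i + s i, hr.add hs, fun i => by simp only [e, e']; ring⟩

lemma Ex2.neg (h : Ex2 z f a a') : Ex2 z (fun i => - f i) (-a) (-a') := by
  obtain ⟨r, hr, e⟩ := h
  exact ⟨fun i => - r i, hr.neg, fun i => by simp only [e]; ring⟩

lemma Ex2.sub (h : Ex2 z f a a') (h' : Ex2 z g b b') :
    Ex2 z (fun i => f i - g i) (a - b) (a' - b') := by
  simpa only [sub_eq_add_neg] using h.add h'.neg

lemma Ex2.mul (hz : Bd z) (h : Ex2 z f a a') (h' : Ex2 z g b b') :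
    Ex2 z (fun i => f i * g i) (a * b) (a * b' + a' * b) := by
  obtain ⟨r, hr, e⟩ := h
  obtain ⟨s, hs, e'⟩ := h'
  exact ⟨fun i => a * s i + b * r i + (a' + z i * r i) * (b' + z i * s i), by fun_prop,
    fun i => by simp only [e, e']; ring⟩

lemma Ex2.pow (hz : Bd z) (h : Ex2 z f a a') (k : ℕ) :
    Ex2 z (fun i => f i ^ (k + 1)) (a ^ (k + 1)) ((k + 1) * a ^ k * a') := by
  induction k with
  | zero => simpa using h
  | succ k ih =>
    have := ih.mul hz h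
    simp only [← pow_succ] at this
    convert this using 1
    push_cast; ring

lemma Ex2.div_const (hz : Bd z) (h : Ex2 z f a a') (b : ℝ) :
    Ex2 z (fun i => f i / b) (a / b) (a' / b) := by
  simpa only [div_eq_mul_inv, mul_zero, zero_add] using h.mul hz (Ex2.const z b⁻¹)

lemma Ex2.inv (hz : Bd z) (h : Ex2 z f a a') (hb : Bd fun i => (f i)⁻¹) (f0 : ∀ i, f i ≠ 0)
    (a0 : a ≠ 0) : Ex2 z (fun i => (f i)⁻¹) a⁻¹ (-a' * a⁻¹ ^ 2) := by
  obtain ⟨r, hr, e⟩ := h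
  refine ⟨fun i => (a' + z i * r i) ^ 2 * (f i)⁻¹ * a⁻¹ ^ 2 - r i * a⁻¹ ^ 2,
    (((((Bd.const _).add (hz.mul hr)).pow 2).mul hb).mul (Bd.const _)).sub (hr.mul (Bd.const _)),
    fun i => ?_⟩
  have := f0 i
  field_simp
  rw [e]; ring

end

/-- second coefficient -/
noncomputable def a2 (d : ℝ) : ℝ := (2 * d ^ 3 - 2 * d ^ 2 + 2 * d - 1) / (2 * d ^ 2 * (d - 1) ^ 2)

/-- third coefficient -/
noncomputable def a3 (d : ℝ) : ℝ := (6 * d ^ 9 - 42 * d ^ 8 + 129 * d ^ 7 - 231 * d ^ 6 +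
  285 * d ^ 5 - 259 * d ^ 4 + 159 * d ^ 3 - 73 * d ^ 2 + 24 * d - 4) /
  (6 * d ^ 3 * (d - 1) ^ 5 * (d - 2) ^ 2)

lemma bd_F {X : Type} (d : ℝ) {c : X → ℝ} (c0 : ∀ i, 0 ≤ c i) (c1 : ∀ i, c i ≤ 1 / 4) :
    Bd (fun i => F1 d (c i)) ∧ Bd (fun i => F2 d (c i)) := by
  obtain ⟨b1, b2, b3⟩ := bd_inv c0 c1
  obtain ⟨f1, f2, f3, f4⟩ := bd_fun c0 c1
  exact ⟨(((((Bd.const _).sub b1).mul (Bd.const _)).mul f1).neg).div_const _,
    (((((Bd.const _).sub b1).mul (Bd.const _)).mul (f2.add ((Bd.const _).mul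
      (((b2.mul f4).div_const _).sub (((b2.pow _).sub b2).mul f3))))).neg).div_const _⟩

lemma solve {d : ℝ} (hd : 7 ≤ d) (C1 : ℝ) : ∃ C : ℝ, 0 ≤ C ∧ ∀ z c R : ℝ, 0 < z → z ≤ 1 →
    0 ≤ c → c ≤ 1 / 4 → c = 1 / d + z * F1 d c + z ^ 2 * F2 d c + R → |R| ≤ C1 * z ^ 2 →
    |c - 1 / d - z * a2 d - z ^ 2 * a3 d - R| ≤ C * z ^ 3 := by
  let X := {q : ℝ × ℝ × ℝ // 0 < q.1 ∧ q.1 ≤ 1 ∧ 0 ≤ q.2.1 ∧ q.2.1 ≤ 1 / 4 ∧
    q.2.1 = 1 / d + q.1 * F1 d q.2.1 + q.1 ^ 2 * F2 d q.2.1 + q.2.2 ∧ |q.2.2| ≤ C1 * q.1 ^ 2}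
  obtain ⟨z, hz⟩ : ∃ z : X → ℝ, ∀ i : X, i.1.1 = z i := ⟨_, fun _ => rfl⟩
  obtain ⟨c, hc⟩ : ∃ c : X → ℝ, ∀ i : X, i.1.2.1 = c i := ⟨_, fun _ => rfl⟩
  obtain ⟨R, hR⟩ : ∃ R : X → ℝ, ∀ i : X, i.1.2.2 = R i := ⟨_, fun _ => rfl⟩
  have H : ∀ i, 0 < z i ∧ z i ≤ 1 ∧ 0 ≤ c i ∧ c i ≤ 1 / 4 ∧
      c i = 1 / d + z i * F1 d (c i) + z i ^ 2 * F2 d (c i) + R i ∧ |R i| ≤ C1 * z i ^ 2 :=
    fun i => by rw [← hz, ← hc, ← hR]; exact i.2
  have bz : Bd z := Bd.of_le 1 (fun i => (H i).1.le) fun i => (H i).2.1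
  have c0 := fun i => (H i).2.2.1
  have c1 := fun i => (H i).2.2.2.1
  have e0 := fun i => (H i).2.2.2.2.1
  obtain ⟨b1, b2, b3⟩ := bd_inv c0 c1
  obtain ⟨f1, f2⟩ := bd_F d c0 c1
  obtain ⟨ρ, bρ, hρ⟩ := OO.of_le (g := fun i => z i ^ 2) (f := R) (fun i => pow_pos (H i).1 2) C1
    fun i => (H i).2.2.2.2.2
  have d0 : 1 / d ≤ 1 / 7 := one_div_le_one_div_of_le (by norm_num) hd
  have q1 : ∀ i, 1 - c i ≠ 0 := fun i => by have := c1 i; linarith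
  have q2 : ∀ i, 1 - 2 * c i ≠ 0 := fun i => by have := c1 i; linarith
  have q3 : 1 - 1 / d ≠ 0 := by linarith
  have q4 : 1 - 2 * (1 / d) ≠ 0 := by linarith
  have s1 : Ex1 z c (1 / d) := ⟨fun i => F1 d (c i) + z i * F2 d (c i) + z i * ρ i,
    (f1.add (bz.mul f2)).add (bz.mul bρ), fun i => by
      have := e0 i
      rw [hρ] at this
      linear_combination this⟩
  have sx := ((Ex1.const z 1).sub s1).inv b2 q1 q3
  have sy := ((Ex1.const z 1).sub ((Ex1.const z 2).mul bz s1)).inv b3 q2 q4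
  have s2 : Ex1 z (fun i => F1 d (c i)) (F1 d (1 / d)) ∧
      Ex1 z (fun i => F2 d (c i)) (F2 d (1 / d)) := by
    generalize 1 / d = c0 at s1 sx sy
    simp only [F1, F2, mu1, mu2, AA, BB, div_eq_mul_inv _ (_ ^ _), ← inv_pow]
    constructor <;> with_reducible repeat' first
      | exact Ex1.const _ _
      | exact s1
      | exact sx
      | exact sy
      | refine Ex1.sub ?_ ?_
      | refine Ex1.add ?_ ?_
      | refine Ex1.neg ?_
      | refine Ex1.div_const bz ?_ _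
      | refine Ex1.pow bz ?_ _
      | refine Ex1.mul bz ?_ ?_
  obtain ⟨⟨r1, br1, e1⟩, ⟨r2, br2, e2⟩⟩ := s2
  have d1 : d ≠ 0 := by linarith
  have d2 : d - 1 ≠ 0 := by linarith
  have d3 : d - 2 ≠ 0 := by linarith
  have x0 : (1 - 1 / d)⁻¹ = d / (d - 1) := by field_simp
  have y0 : (1 - 2 * (1 / d))⁻¹ = d / (d - 2) := by field_simp
  have v1 : F1 d (1 / d) = a2 d := by
    simp only [F1, mu1, a2, div_eq_mul_inv _ (_ ^ _), ← inv_pow, x0]
    field_simp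
  rw [v1] at e1
  simp only at e1 e2 hρ
  have t1 : Ex2 z c (1 / d) (a2 d) := ⟨fun i => r1 i + F2 d (c i) + ρ i, (br1.add f2).add bρ,
    fun i => by
      have := e0 i
      rw [hρ, e1] at this
      linear_combination this⟩
  have tx := ((Ex2.const z 1).sub t1).inv bz b2 q1 q3
  obtain ⟨r3, br3, e3⟩ := ((((Ex2.const z 1).sub t1).mul bz (Ex2.const z (d - 1))).mul bz
    ((((t1.sub (t1.pow bz 1)).add (t1.pow bz 2)).sub ((Ex2.const z (1 / 2)).mul bz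
      (t1.pow bz 3))).neg.mul bz (tx.pow bz 3))).neg.div_const bz d
  obtain ⟨C, C0, hC⟩ := (br3.add br2).nonneg
  refine ⟨C, C0, fun z' c' R' h1 h2 h3 h4 h5 h6 => ?_⟩
  obtain ⟨i, i1, i2, i3⟩ : ∃ i : X, z' = z i ∧ c' = c i ∧ R' = R i :=
    ⟨⟨(z', c', R'), h1, h2, h3, h4, h5, h6⟩, by rw [← hz], by rw [← hc], by rw [← hR]⟩
  subst i1 i2 i3
  have k1 : c i - 1 / d - z i * a2 d - z i ^ 2 * a3 d - R i = z i ^ 3 * (r3 i + r2 i) := by
    have k2 : F1 d (c i) = a2 d + z i * (a3 d - F2 d (1 / d)) + z i ^ 2 * r3 i := by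
      have := e3 i
      simp only [F1, mu1, div_eq_mul_inv _ (_ ^ _), ← inv_pow]
      refine this.trans ?_
      congr 2
      · rw [← v1]
        simp only [F1, mu1, div_eq_mul_inv _ (_ ^ _), ← inv_pow]
      · congr 1
        simp only [F2, mu2, AA, BB, a2, a3, div_eq_mul_inv _ (_ ^ _), ← inv_pow, x0, y0,
          Nat.reduceAdd, Nat.cast_ofNat, Nat.cast_one]
        field_simp
        ring
    have := e0 i
    rw [k2, e2] at this
    linear_combination this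
  rw [k1, abs_mul, abs_of_pos (pow_pos h1 3), mul_comm]
  exact mul_le_mul_of_nonneg_right (hC i) (pow_pos h1 3).le

end Pool.Agent.Lib.MP_58a483_pr.H80
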