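import Pool.Agent.Lib.MP_58a483_pr.H80Conn

set_option autoImplicit false
set_option linter.unusedSectionVars false
set_option linter.unusedVariables false
set_option linter.deprecated false

namespace Pool.Agent.Lib.MP_58a483_pr.H80

open Finset

variable {V : Type} [DecidableEq V]

/-- two-point function -/
noncomputable def tau (E : Finset (Sym2 V)) (p : ℝ) (a b : V) : ℝ :=
  Ex E p (fun ω => ind (Conn ω a b))

lemma tau_symm (E : Finset (Sym2 V)) (p : ℝ) (a b : V) : tau E p a b = tau E p b a :=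
  Ex_congr fun _ _ => ind_congr ⟨Conn.symm, Conn.symm⟩

section
variable {E : Finset (Sym2 V)} {p : ℝ} (h0 : 0 ≤ p) (h1 : p ≤ 1 / 2)
include h0 h1

lemma tau_nonneg (a b : V) : 0 ≤ tau E p a b :=
  Ex_nonneg h0 (by linarith) fun _ _ => ind_nonneg _

lemma tau_le_one (a b : V) : tau E p a b ≤ 1 := by
  rw [← Ex_const E p 1]; exact Ex_mono h0 (by linarith) fun _ _ => ind_le_one _

omit h0 h1 in
lemma Ex_sup_mul {ι : Type} [DecidableEq ι] {E S : Finset ι} (hS : S ⊆ E) (p : ℝ)
    (g : Finset ι → ℝ) :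
    Ex E p (fun ω => ind (S ⊆ ω) * g (ω \ S)) = p ^ S.card * Ex E p (fun ω => g (ω \ S)) := by
  have := Ex_indep E S p (fun a => ind (S ⊆ a)) g
  have e : ∀ ω : Finset ι, ind (S ⊆ ω ∩ S) = ind (S ⊆ ω) := fun ω =>
    ind_congr ⟨fun h => h.trans inter_subset_left, fun h => subset_inter h (Subset.refl _)⟩
  simp only [e] at this
  rw [this, Ex_sup hS]

lemma sup_conn {S : Finset (Sym2 V)} (hS : S ⊆ E) (a b : V) :
    Ex E p (fun ω => ind (S ⊆ ω ∧ Conn (ω \ S) a b)) ≤ p ^ S.card * tau E p a b := by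
  simp only [ind_and]
  rw [Ex_sup_mul hS p (fun η => ind (Conn η a b))]
  exact mul_le_mul_of_nonneg_left
    (Ex_mono h0 (by linarith) fun ω _ => ind_mono fun h => h.mono sdiff_subset) (pow_nonneg h0 _)

lemma BK3 (A B C : Finset (Sym2 V) → Prop) (hA : Mono A) (hB : Mono B) (hC : Mono C) :
    Ex E p (fun ω => ind (Box (Box A B) C ω)) ≤
      Ex E p (fun ω => ind (A ω)) * Ex E p (fun ω => ind (B ω)) * Ex E p (fun ω => ind (C ω)) :=
  (BK E h0 h1 _ _ (Box.mono A B) hC).trans
    (mul_le_mul_of_nonneg_right (BK E h0 h1 A B hA hB)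
      (Ex_nonneg h0 (by linarith) fun _ _ => ind_nonneg _))

end

lemma pe_shift_sub (x : ℕ → V) {l i : ℕ} (hi : i ≤ l) :
    pe (fun t => x (i + t)) (l - i) ⊆ pe x l := by
  rw [pe_sub]
  intro t ht
  exact mem_pe.2 ⟨i + t, by omega, rfl⟩

lemma pe_mono (x : ℕ → V) {l i : ℕ} (hi : i ≤ l) : pe x i ⊆ pe x l := by
  rw [pe_sub]
  intro t ht
  exact mem_pe.2 ⟨t, by omega, rfl⟩

lemma pe_split_disj {x : ℕ → V} {l i : ℕ} (hi : i ≤ l)
    (hs : ∀ i j, i < j → j ≤ l → x i = x j → i = 0 ∧ j = l) (hl : 3 ≤ l ∨ x 0 ≠ x l) :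
    Disjoint (pe x i) (pe (fun t => x (i + t)) (l - i)) := by
  rw [disjoint_left]
  intro e he he'
  obtain ⟨a, ha, rfl⟩ := mem_pe.1 he
  obtain ⟨b, hb, hab⟩ := mem_pe.1 he'
  have := edge_inj hs hl (i := i + b) (j := a) (by omega) (by omega) hab
  omega

lemma conn_pe (x : ℕ → V) (l : ℕ) : Conn (pe x l) (x 0) (x l) :=
  conn_seg (Nat.zero_le _) fun t _ ht => mem_pe.2 ⟨t, ht, rfl⟩

lemma box3 {x : ℕ → V} {l i : ℕ} {ω : Finset (Sym2 V)} {y : V} (hi : i ≤ l)
    (hs : ∀ i j, i < j → j ≤ l → x i = x j → i = 0 ∧ j = l) (hl : 3 ≤ l ∨ x 0 ≠ x l)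
    (hω : pe x l ⊆ ω) (hy : Conn (ω \ pe x l) (x i) y) {A B : Finset (Sym2 V) → Prop}
    (hA : A (pe x i)) (hB : B (pe (fun t => x (i + t)) (l - i))) :
    Box (Box A B) (fun S => Conn S (x i) y) ω :=
  ⟨pe x l, ω \ pe x l, hω, sdiff_subset, disjoint_sdiff,
    ⟨_, _, pe_mono x hi, pe_shift_sub x hi, pe_split_disj hi hs hl, hA, hB⟩, hy⟩

/-- there is a long open self-avoiding path -/
def Long (L : ℕ) (a b : V) (S : Finset (Sym2 V)) : Prop :=
  ∃ (l : ℕ) (x : ℕ → V), L ≤ l ∧ x 0 = a ∧ x l = b ∧ pe x l ⊆ S ∧ Inj x l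

lemma mono_long (L : ℕ) (a b : V) : Mono (Long L a b) := by
  rintro S T h ⟨l, x, h1, h2, h3, h4, h5⟩
  exact ⟨l, x, h1, h2, h3, h4.trans h, h5⟩

section
variable [Fintype V] {E : Finset (Sym2 V)} {p : ℝ} (h0 : 0 ≤ p) (h1 : p ≤ 1 / 2)
include h0 h1

lemma tri (w a y : V) : Ex E p (fun ω => ind (Conn ω w a ∧ Conn ω w y)) ≤
    ∑ z, tau E p w z * tau E p z a * tau E p z y := by
  calc _ ≤ Ex E p (fun ω => ∑ z, ind (Box (Box (fun S => Conn S w z) (fun S => Conn S z a))
        (fun S => Conn S z y) ω)) := by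
        refine Ex_mono h0 (by linarith) fun ω _ => ?_
        refine le_trans (ind_mono ?_) (ind_exists_le _ _)
        rintro ⟨c1, c2⟩
        obtain ⟨l, x, rfl, rfl, hp, hinj⟩ := c1.exists_path
        obtain ⟨i, hi, hc⟩ := meet (Nat.zero_le l) c2
        rcases Nat.eq_zero_or_pos l with rfl | hl
        · obtain rfl : i = 0 := by omega
          exact ⟨x 0, mem_univ _, ∅, ω, empty_subset _, Subset.refl _, disjoint_empty_left _,
            ⟨∅, ∅, Subset.refl _, Subset.refl _, disjoint_empty_left _, Conn.refl _ _,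
              Conn.refl _ _⟩, c2⟩
        · refine ⟨x i, mem_univ _, box3 hi hinj.simple (Or.inr (hinj 0 l hl le_rfl)) hp hc
            (conn_pe x i) ?_⟩
          have := conn_pe (fun t => x (i + t)) (l - i)
          simpa [show i + (l - i) = l by omega] using this
    _ ≤ _ := by
        rw [Ex_sum]
        exact sum_le_sum fun z _ => BK3 h0 h1 _ _ _ (mono_conn _ _) (mono_conn _ _) (mono_conn _ _)

lemma two_conn (w y a b : V) : Ex E p (fun ω => ind (Conn ω w y ∧ Conn ω a b)) ≤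
    tau E p w y * tau E p a b + Ex E p (fun ω => ind (Conn ω w a ∧ Conn ω w y)) := by
  refine le_trans ?_ (add_le_add (BK E h0 h1 _ _ (mono_conn w y) (mono_conn a b)) le_rfl)
  rw [← Ex_add]
  refine Ex_mono h0 (by linarith) fun ω _ => le_trans (ind_mono ?_) (ind_or_le _ _)
  rintro ⟨c1, c2⟩
  by_cases h : Conn ω w a
  · exact Or.inr ⟨h, c1⟩
  · left
    obtain ⟨l, x, rfl, rfl, hp, -⟩ := c1.exists_path
    obtain ⟨l', x', rfl, rfl, hp', -⟩ := c2.exists_path
    refine ⟨pe x l, pe x' l', hp, hp', ?_, conn_pe _ _, conn_pe _ _⟩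
    rw [disjoint_left]
    intro e he he'
    obtain ⟨i, hi, rfl⟩ := mem_pe.1 he
    obtain ⟨j, hj, hx⟩ := mem_pe_left he'
    apply h
    have k1 : Conn ω (x 0) (x i) := (conn_pe x i).mono ((pe_mono x hi.le).trans hp)
    have k2 : Conn ω (x' 0) (x' j) := (conn_pe x' j).mono ((pe_mono x' hj).trans hp')
    rw [hx] at k2
    exact k1.trans k2.symm

variable {χ : ℝ} (hχ : ∀ a, ∑ y, tau E p a y = χ)
include hχ

lemma chi_nonneg' [Nonempty V] : 0 ≤ χ := by
  obtain ⟨a⟩ := ‹Nonempty V›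
  rw [← hχ a]; exact sum_nonneg fun _ _ => tau_nonneg h0 h1 _ _

lemma loss {x : ℕ → V} {l : ℕ} (hE : pe x l ⊆ E) (w : V) :
    χ - 2 * l * p * χ ≤ ∑ y, Ex E p (fun ω => ind (Conn (ω \ pe x l) w y)) := by
  have key : ∀ y, tau E p w y ≤ Ex E p (fun ω => ind (Conn (ω \ pe x l) w y)) +
      ∑ i ∈ range l, (p * tau E p (x i) y + p * tau E p (x (i + 1)) y) := by
    intro y
    have k : ∀ i ∈ range l, ∀ b, Ex E p (fun ω => ind (({s(x i, x (i + 1))} : Finset _) ⊆ ω ∧
        Conn (ω \ {s(x i, x (i + 1))}) b y)) ≤ p * tau E p b y := by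
      intro i hi b
      have := sup_conn h0 h1 (E := E) (S := {s(x i, x (i + 1))})
        (singleton_subset_iff.2 (pe_sub.1 hE i (mem_range.1 hi))) b y
      rwa [card_singleton, pow_one] at this
    refine le_trans ?_ (add_le_add le_rfl (sum_le_sum fun i hi =>
      add_le_add (k i hi (x i)) (k i hi (x (i + 1)))))
    simp only [← Ex_add, ← Ex_sum]
    refine Ex_mono h0 (by linarith) fun ω _ => ?_
    refine le_trans ?_ (add_le_add le_rfl (sum_le_sum fun i _ => ind_or_le _ _))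
    refine le_trans ?_ (add_le_add le_rfl (ind_exists_le _ _))
    refine le_trans (ind_mono ?_) (ind_or_le _ _)
    intro hc
    refine hc.symm.closure (fun u => Conn (ω \ pe x l) u y ∨ ∃ a ∈ range l,
      ({s(x a, x (a + 1))} ⊆ ω ∧ Conn (ω \ {s(x a, x (a + 1))}) (x a) y ∨
        {s(x a, x (a + 1))} ⊆ ω ∧ Conn (ω \ {s(x a, x (a + 1))}) (x (a + 1)) y))
      (Or.inl (Conn.refl _ _)) ?_
    rintro u v (hu | hu) huv
    · by_cases hm : s(u, v) ∈ pe x l
      · right
        obtain ⟨i, hi, he⟩ := mem_pe.1 hm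
        refine ⟨i, mem_range.2 hi, ?_⟩
        have k1 : ({s(x i, x (i + 1))} : Finset _) ⊆ ω := by rw [he]; simpa using huv
        have k2 : Conn (ω \ {s(x i, x (i + 1))}) u y := hu.mono
          (sdiff_subset_sdiff (Subset.refl _) (by rw [he]; simpa using hm))
        rcases Sym2.eq_iff.1 he with ⟨c1, _⟩ | ⟨_, c2⟩
        · exact Or.inl ⟨k1, by rw [← c1] at k2; exact k2⟩
        · exact Or.inr ⟨k1, by rw [← c2] at k2; exact k2⟩
      · left
        exact (Conn.single (by rw [Sym2.eq_swap]; exact mem_sdiff.2 ⟨huv, hm⟩)).trans hu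
    · exact Or.inr hu
  have := sum_le_sum fun y (_ : y ∈ univ) => key y
  rw [hχ, sum_add_distrib, sum_comm] at this
  simp only [sum_add_distrib, ← mul_sum, hχ, sum_const, card_range, nsmul_eq_mul] at this
  linarith

lemma good_lower {η : ℝ} (hη0 : 0 ≤ η)
    (hη : ∀ a b c, a ≠ b → c ≠ a → tau E p a b + ∑ z, tau E p c z * tau E p z a ≤ η)
    (Λ : Finset V) {x : ℕ → V} {l : ℕ} (hE : pe x l ⊆ E) (hcard : (pe x l).card = l) (i : ℕ) :
    p ^ l * χ * (1 - 2 * l * p - ((Λ.card : ℝ) + l + 1) ^ 2 * η) ≤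
      ∑ y, Ex E p (fun ω => ind (Good Λ x l i y ω)) := by
  have hp1 : p ≤ 1 := by linarith
  have hχ0 : 0 ≤ χ := by
    rw [← hχ (x 0)]; exact sum_nonneg fun _ _ => tau_nonneg h0 h1 _ _
  set U := hull Λ x l
  have e1 : ∀ y, Ex E p (fun ω => ind (Good Λ x l i y ω)) =
      p ^ l * Ex E p (fun ω => ind (Sep U (ω \ pe x l) ∧ Conn (ω \ pe x l) (x i) y)) := by
    intro y
    have := Ex_sup_mul hE p (fun η => ind (Sep U η ∧ Conn η (x i) y))
    rw [hcard] at this
    rw [← this]
    exact Ex_congr fun ω _ => by rw [← ind_and]; rfl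
  have e2 : ∀ a b, a ≠ b → ∑ y, Ex E p (fun ω => ind (Conn ω (x i) y ∧ Conn ω a b)) ≤ χ * η := by
    have e3 : ∀ a b, a ≠ b → x i ≠ a →
        ∑ y, Ex E p (fun ω => ind (Conn ω (x i) y ∧ Conn ω a b)) ≤ χ * η := by
      intro a b hab hia
      calc _ ≤ ∑ y, (tau E p (x i) y * tau E p a b +
            ∑ z, tau E p (x i) z * tau E p z a * tau E p z y) :=
            sum_le_sum fun y _ => (two_conn h0 h1 _ _ _ _).trans
              (add_le_add le_rfl (tri h0 h1 _ _ _))
        _ = χ * (tau E p a b + ∑ z, tau E p (x i) z * tau E p z a) := by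
            rw [sum_add_distrib, ← sum_mul, hχ, sum_comm, mul_add, mul_sum]
            congr 1
            refine sum_congr rfl fun z _ => ?_
            rw [← mul_sum, hχ]; ring
        _ ≤ _ := mul_le_mul_of_nonneg_left (hη a b _ hab hia) hχ0
    intro a b hab
    by_cases hia : x i = a
    · refine le_trans (le_of_eq ?_) (e3 b a hab.symm (hia ▸ hab))
      exact sum_congr rfl fun y _ => Ex_congr fun ω _ =>
        ind_congr (and_congr Iff.rfl ⟨Conn.symm, Conn.symm⟩)
    · exact e3 a b hab hia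
  have e4 : ∀ y, Ex E p (fun ω => ind (Conn (ω \ pe x l) (x i) y)) -
      ∑ ab ∈ U.offDiag, Ex E p (fun ω => ind (Conn ω (x i) y ∧ Conn ω ab.1 ab.2)) ≤
      Ex E p (fun ω => ind (Sep U (ω \ pe x l) ∧ Conn (ω \ pe x l) (x i) y)) := by
    intro y
    rw [← Ex_sum, ← Ex_sub]
    refine Ex_mono h0 hp1 fun ω _ => ?_
    rw [sub_le_iff_le_add]
    refine le_trans ?_ (add_le_add le_rfl (ind_exists_le _ _))
    refine le_trans (ind_mono ?_) (ind_or_le _ _)
    intro hc
    by_cases hs : Sep U (ω \ pe x l)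
    · exact Or.inl ⟨hs, hc⟩
    · right
      unfold Sep at hs
      push Not at hs
      obtain ⟨a, ha, b, hb, hab, hne⟩ := hs
      exact ⟨(a, b), mem_offDiag.2 ⟨ha, hb, hne⟩, hc.mono sdiff_subset, hab.mono sdiff_subset⟩
  simp only [e1]
  rw [← mul_sum, mul_assoc]
  refine mul_le_mul_of_nonneg_left ?_ (pow_nonneg h0 _)
  refine le_trans ?_ (sum_le_sum fun y _ => e4 y)
  rw [sum_sub_distrib, sum_comm]
  have e5 := loss h0 h1 hχ hE (x i)
  have e6 : ∑ ab ∈ U.offDiag, ∑ y, Ex E p (fun ω => ind (Conn ω (x i) y ∧ Conn ω ab.1 ab.2)) ≤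
      ((Λ.card : ℝ) + l + 1) ^ 2 * (χ * η) := by
    refine le_trans (sum_le_card_nsmul _ _ (χ * η) fun ab hab => e2 _ _ (mem_offDiag.1 hab).2.2) ?_
    rw [nsmul_eq_mul]
    refine mul_le_mul_of_nonneg_right ?_ (mul_nonneg hχ0 hη0)
    have k1 : U.offDiag.card ≤ U.card * U.card := by rw [offDiag_card]; omega
    have k2 : U.card ≤ Λ.card + l + 1 := card_hull _ _ _
    have k3 : U.offDiag.card ≤ (Λ.card + l + 1) ^ 2 := by
      rw [sq]; exact k1.trans (Nat.mul_le_mul k2 k2)
    exact_mod_cast k3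
  nlinarith

/-- long excursions with a hanging point -/
lemma hang_long {L : ℕ} (hL : 2 ≤ L) {μ : ℝ}
    (hμ : ∀ a b, Ex E p (fun ω => ind (Long L a b ω)) ≤ μ) (s t : V) :
    ∑ y, Ex E p (fun ω => ind (∃ (l : ℕ) (x : ℕ → V) (i : ℕ), 2 * L ≤ l ∧ x 0 = s ∧ x l = t ∧
      (∀ i j, i < j → j ≤ l → x i = x j → i = 0 ∧ j = l) ∧ 0 < i ∧ i ≤ l ∧ (i < l ∨ s ≠ t) ∧
      pe x l ⊆ ω ∧ Conn (ω \ pe x l) (x i) y)) ≤ 2 * μ * χ ^ 2 := by
  have hp1 : p ≤ 1 := by linarith
  have hχ0 : 0 ≤ χ := by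
    rw [← hχ s]; exact sum_nonneg fun _ _ => tau_nonneg h0 h1 _ _
  calc _ ≤ ∑ y, ∑ w, (μ * tau E p w t * tau E p w y + tau E p s w * μ * tau E p w y) := by
        refine sum_le_sum fun y _ => ?_
        calc _ ≤ Ex E p (fun ω => ∑ w, (ind (Box (Box (Long L s w) (fun S => Conn S w t))
              (fun S => Conn S w y) ω) + ind (Box (Box (fun S => Conn S s w) (Long L w t))
              (fun S => Conn S w y) ω))) := by
              refine Ex_mono h0 hp1 fun ω _ => ?_
              refine le_trans ?_ (sum_le_sum fun w _ => ind_or_le _ _)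
              refine le_trans (ind_mono ?_) (ind_exists_le _ _)
              rintro ⟨l, x, i, hl, rfl, rfl, hs, hi0, hil, hi, hp, hc⟩
              refine ⟨x i, mem_univ _, ?_⟩
              by_cases hiL : L ≤ i
              · left
                refine box3 hil hs (Or.inl (by omega)) hp hc
                  ⟨i, x, hiL, rfl, rfl, Subset.refl _, ?_⟩ ?_
                · intro a b hab hb hx
                  obtain ⟨rfl, rfl⟩ := hs a b hab (by omega) hx
                  rcases hi with hi | hi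
                  · omega
                  · exact hi hx
                · have := conn_pe (fun t => x (i + t)) (l - i)
                  simpa [show i + (l - i) = l by omega] using this
              · right
                refine box3 hil hs (Or.inl (by omega)) hp hc (conn_pe x i)
                  ⟨l - i, fun t => x (i + t), by omega, rfl, ?_, Subset.refl _, ?_⟩
                · show x (i + (l - i)) = x l
                  rw [show i + (l - i) = l by omega]
                · intro a b hab hb hx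
                  have := hs (i + a) (i + b) (by omega) (by omega) hx
                  omega
          _ ≤ _ := by
              rw [Ex_sum]
              refine sum_le_sum fun w _ => ?_
              rw [Ex_add]
              refine add_le_add ?_ ?_
              · refine (BK3 h0 h1 _ _ _ (mono_long _ _ _) (mono_conn _ _) (mono_conn _ _)).trans ?_
                exact mul_le_mul_of_nonneg_right (mul_le_mul_of_nonneg_right (hμ _ _)
                  (tau_nonneg h0 h1 _ _)) (tau_nonneg h0 h1 _ _)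
              · refine (BK3 h0 h1 _ _ _ (mono_conn _ _) (mono_long _ _ _) (mono_conn _ _)).trans ?_
                exact mul_le_mul_of_nonneg_right (mul_le_mul_of_nonneg_left (hμ _ _)
                  (tau_nonneg h0 h1 _ _)) (tau_nonneg h0 h1 _ _)
    _ = _ := by
        rw [sum_comm]
        simp only [sum_add_distrib, ← mul_sum, hχ]
        have k1 : ∑ w, μ * tau E p w t * χ = μ * χ * χ := by
          rw [← sum_mul, ← mul_sum]; simp only [tau_symm E p _ t, hχ]
        have k2 : ∑ w, tau E p s w * μ * χ = μ * χ * χ := by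
          rw [← sum_mul, ← sum_mul, hχ]; ring
        rw [k1, k2]; ring

end

end Pool.Agent.Lib.MP_58a483_pr.H80
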