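import Pool.Agent.Lib.MP_58a483_pr.Hamming

/-!
Two-point function bounds, transitivity and the hypotheses of the expansion on Hamming graphs.
-/

open Finset

namespace HamPerc

variable {d n : ℕ} {p : ℝ}

/-- susceptibility -/
noncomputable def chi (d n : ℕ) (p : ℝ) : ℝ := ∑ v ∈ box d n, tau p (edges d n) 0 v

theorem edges_box : ∀ e ∈ edges d n, ∀ u ∈ e, u ∈ box d n := fun _ he => (mem_edges.1 he).1

theorem lg_succ (h0 : 0 ≤ p) (h2 : p ≤ 1 / 2) (k : ℕ) (x y : Vx d) :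
    Pr p (edges d n) (fun ω => Lg ω (k + 1) x y) ≤
      p * ∑ y' ∈ nbr n y, Pr p (edges d n) fun ω => Lg ω k x y' := by
  by_cases hy : y ∈ box d n
  swap
  · refine le_trans (le_of_eq ?_) (mul_nonneg h0 (sum_nonneg fun _ _ => Pr_nonneg h0 (by linarith) _))
    rw [← Ex_const p (edges d n) 0]
    refine Ex_congr fun ω hω => ind_neg ?_
    rintro ⟨W, hW, ht, hk⟩
    cases ht with
    | nil => simp at hk
    | snoc ht he => exact hy (mk_mem_edges.1 (hω (hW (mem_insert_self _ _)))).2.1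
  refine (Pr_le_sum h0 (by linarith) (nbr n y) (fun y' =>
    Dis (fun W => W = {s(y', y)}) fun W => Tr x y' W ∧ k ≤ W.card) ?_).trans ?_
  · rintro ω hω ⟨W, hW, ht, hk⟩
    cases ht with
    | nil => simp at hk
    | @snoc y' _ W ht he =>
      have h1 := mk_mem_edges.1 (hω (hW (mem_insert_self _ _)))
      rw [card_insert_of_notMem he] at hk
      exact ⟨y', mem_nbr.2 ⟨h1.1, h1.2.2.symm⟩, _,
        singleton_subset_iff.2 (hW (mem_insert_self _ _)), W, (subset_insert _ _).trans hW,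
        disjoint_singleton_left.2 he, rfl, ht, by omega⟩
  · rw [mul_sum]
    refine sum_le_sum fun y' hy' => (BK h0 h2 _ _).trans (le_of_eq ?_)
    have hm : s(y', y) ∈ edges d n :=
      mk_mem_edges.2 ⟨(mem_nbr.1 hy').1, hy, (mem_nbr.1 hy').2.symm⟩
    have e1 : Pr p (edges d n) (Up fun W => W = {s(y', y)}) = p := by
      refine Eq.trans (Pr_congr fun ω _ => ?_) (Pr_mem p hm)
      simp [Up]
    rw [e1]; rfl

theorem lg_zero (x y : Vx d) : Pr p (edges d n) (fun ω => Lg ω 0 x y) = tau p (edges d n) x y :=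
  Pr_congr fun ω _ => by simp [Lg, Rch]

theorem lg_le (h0 : 0 ≤ p) (h2 : p ≤ 1 / 2) (x : Vx d) (k : ℕ) : ∀ y ∈ box d n,
    Pr p (edges d n) (fun ω => Lg ω k x y) ≤ p ^ k * (Aop d n ^ k) (tau p (edges d n) x) y := by
  induction k with
  | zero => intro y _; simp [lg_zero]
  | succ k ih =>
    intro y _
    refine (lg_succ h0 h2 k x y).trans ?_
    rw [pow_succ' (Aop d n), Module.End.mul_apply, Aop_apply, pow_succ', mul_assoc]
    refine mul_le_mul_of_nonneg_left ?_ h0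
    rw [mul_sum]
    exact sum_le_sum fun y' hy' => ih y' (mem_nbr.1 hy').1

theorem tau_step (h0 : 0 ≤ p) (h2 : p ≤ 1 / 2) (x y : Vx d) (hy : y ∈ box d n) :
    tau p (edges d n) x y ≤ psi n ∅ x y + p * Aop d n (tau p (edges d n) x) y := by
  have h1 := lg_le h0 h2 x 1 y hy
  rw [pow_one, pow_one] at h1
  refine le_trans ?_ (add_le_add le_rfl h1)
  rw [psi_empty, ← Ex_const p (edges d n) (ind (y = x))]
  unfold tau Pr
  rw [← Ex_add]
  refine Ex_mono h0 (by linarith) fun ω _ => le_trans (ind_mono ?_) (ind_or_le _ _)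
  rintro ⟨W, hW, ht⟩
  rcases W.eq_empty_or_nonempty with rfl | h
  · exact Or.inl ht.eq_of_empty.symm
  · exact Or.inr ⟨W, hW, ht, card_pos.2 h⟩

theorem tau_iter (h0 : 0 ≤ p) (h2 : p ≤ 1 / 2) (x : Vx d) (k : ℕ) : ∀ y ∈ box d n,
    tau p (edges d n) x y ≤ ∑ i ∈ range k, p ^ i * (Aop d n ^ i) (psi n ∅ x) y +
      p ^ k * (Aop d n ^ k) (tau p (edges d n) x) y := by
  induction k with
  | zero => intro y _; simp
  | succ k ih =>
    intro y hy
    refine (ih y hy).trans ?_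
    rw [sum_range_succ, add_assoc]
    refine add_le_add le_rfl ?_
    have := Aop_pow_mono (g := psi n ∅ x + p • Aop d n (tau p (edges d n) x))
      (fun w hw => tau_step h0 h2 x w hw) k y hy
    rw [map_add, map_smul, ← Module.End.mul_apply, ← pow_succ, Pi.add_apply, Pi.smul_apply,
      smul_eq_mul] at this
    refine (mul_le_mul_of_nonneg_left this (pow_nonneg h0 k)).trans (le_of_eq ?_)
    ring

/-- coordinatewise map -/
def cw (s : Fin d → ℕ → ℕ) (x : Vx d) : Vx d := fun i => s i (x i)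

theorem cw_inj {s : Fin d → ℕ → ℕ} (hs : ∀ i, Function.Injective (s i)) :
    Function.Injective (cw s) := fun _ _ h => funext fun i => hs i (congrFun h i)

theorem adj_cw {s : Fin d → ℕ → ℕ} (hs : ∀ i, Function.Injective (s i)) {x y : Vx d} :
    Adj (cw s x) (cw s y) ↔ Adj x y := by
  simp only [Adj, cw, ne_eq, fun i => (hs i).eq_iff]

theorem adjE_cw {s : Fin d → ℕ → ℕ} (hs : ∀ i, Function.Injective (s i)) {e : Sym2 (Vx d)} :
    AdjE (Sym2.map (cw s) e) ↔ AdjE e := by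
  induction e using Sym2.ind with
  | _ a b => rw [Sym2.map_mk, adjE_mk, adjE_mk, adj_cw hs]

theorem chi_trans' (t : Sym2 (Vx d) → Prop) [DecidablePred t]
    (ht : ∀ s : Fin d → ℕ → ℕ, (∀ i, Function.Injective (s i)) → ∀ e, t e → t (Sym2.map (cw s) e))
    {y : Vx d} (hy : y ∈ box d n) :
    ∑ v ∈ box d n, tau p ((edges d n).filter t) y v =
      ∑ v ∈ box d n, tau p ((edges d n).filter t) 0 v := by
  set s : Fin d → ℕ → ℕ := fun i => Equiv.swap 0 (y i) with hs
  have hinj : ∀ i, Function.Injective (s i) := fun i => (Equiv.swap 0 (y i)).injective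
  have hinv : ∀ x, cw s (cw s x) = x := fun x => funext fun i => Equiv.swap_apply_self _ _ _
  have hbox : ∀ x ∈ box d n, cw s x ∈ box d n := by
    intro x hx
    refine mem_box.2 fun i => ?_
    have h1 := mem_box.1 hx i
    have h2 := mem_box.1 hy i
    simp only [cw, hs, Equiv.swap_apply_def]
    split_ifs <;> omega
  have hE : emap (cw s) ((edges d n).filter t) = (edges d n).filter t := by
    have hm : ∀ e ∈ (edges d n).filter t, Sym2.map (cw s) e ∈ (edges d n).filter t := by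
      intro e he
      obtain ⟨he, h2⟩ := mem_filter.1 he
      refine mem_filter.2 ⟨mem_edges.2 ⟨fun u hu => ?_, (adjE_cw hinj).2 (mem_edges.1 he).2⟩,
        ht s hinj e h2⟩
      obtain ⟨a, ha, rfl⟩ := Sym2.mem_map.1 hu
      exact hbox a (edges_box e he a ha)
    refine eq_of_subset_of_card_le (fun e he => ?_) (card_emap (cw_inj hinj)).ge
    obtain ⟨a, ha, rfl⟩ := mem_image.1 he
    exact hm a ha
  have h0 : cw s 0 = y := funext fun i => Equiv.swap_apply_left _ _
  symm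
  refine sum_nbij' (cw s) (cw s) hbox hbox (fun x _ => hinv x) (fun x _ => hinv x) fun v _ => ?_
  unfold tau Pr
  conv_rhs => rw [← hE, ← h0]
  unfold emap
  rw [Ex_image p _ (Sym2.map.injective (cw_inj hinj))]
  exact Ex_congr fun ω _ => ind_congr (rch_map (cw_inj hinj)).symm

theorem chi_trans {y : Vx d} (hy : y ∈ box d n) :
    ∑ v ∈ box d n, tau p (edges d n) y v = chi d n p := by
  have := chi_trans' (p := p) (fun _ => True) (fun _ _ _ _ => trivial) hy
  rwa [filter_true] at this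

theorem zero_mem_box (hn : 1 ≤ n) : (0 : Vx d) ∈ box d n := mem_box.2 fun _ => hn

theorem chi_le (h0 : 0 ≤ p) (h2 : p ≤ 1 / 2) (hn : 1 ≤ n) :
    chi d n p ≤ 1 + p * (d * (n - 1) : ℕ) * chi d n p := by
  refine (sum_le_sum fun y hy => tau_step h0 h2 0 y hy).trans (le_of_eq ?_)
  rw [sum_add_distrib, ← mul_sum, mul_assoc]
  congr 1
  · simp only [psi_empty]
    rw [sum_eq_single 0]
    · exact ind_pos rfl
    · intro b _ hb; exact ind_neg hb
    · intro h; exact absurd (zero_mem_box hn) h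
  · congr 1
    simp only [Aop_apply]
    rw [sum_comm' (t' := box d n) (s' := fun y => nbr n y)]
    · unfold chi
      rw [mul_sum]
      exact sum_congr rfl fun y hy => by rw [sum_const, card_nbr hy, nsmul_eq_mul]
    · intro x y
      simp only [mem_nbr]
      exact ⟨fun h => ⟨⟨h.1, h.2.2.symm⟩, h.2.1⟩, fun h => ⟨h.1.1, h.2, h.1.2.symm⟩⟩

theorem chi_mono {q : ℝ} (h0 : 0 ≤ p) (hpq : p ≤ q) (h1 : q ≤ 1) : chi d n p ≤ chi d n q :=
  sum_le_sum fun _ _ => Ex_mono_p h0 hpq h1 fun _ _ h => ind_mono fun hr => hr.mono h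

theorem chi_continuous : Continuous (chi d n) :=
  continuous_finset_sum _ fun _ _ => Ex_continuous _ _

theorem chi_zero (hn : 1 ≤ n) : chi d n 0 = 1 := by
  unfold chi tau Pr
  simp only [Ex_zero]
  rw [sum_eq_single 0]
  · exact ind_pos (Rch.refl _ _)
  · intro b _ hb
    refine ind_neg fun h => ?_
    rcases h.vis with h | ⟨e, he, _⟩
    · exact hb h
    · simp at he
  · intro h; exact absurd (zero_mem_box hn) h

/-- regime in which the random walk bounds apply -/
structure RW (d n : ℕ) (p X : ℝ) (l : ℕ) : Prop where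
  n1 : 1 ≤ n
  d1 : 1 ≤ d
  p0 : 0 ≤ p
  p2 : p ≤ 1 / 2
  dl : 2 * d ≤ l
  mu : p * n * d ≤ 1 + 1 / (l : ℝ)
  mix : (1 - 1 / (2 * (d : ℝ))) ^ l ≤ ((n : ℝ) ^ d)⁻¹
  lX : (l : ℝ) ≤ X
  chiX : chi d n p ≤ X

namespace RW

variable {X : ℝ} {l : ℕ}

theorem heat' (h : RW d n p X l) {x : Vx d} (hx : x ∈ box d n) (y : Vx d) {i : ℕ} (hi : i ≤ l) :
    p ^ i * (Aop d n ^ i) (psi n ∅ y) x ≤
      3 * ((n : ℝ) ^ d)⁻¹ + d * (1 - 1 / (2 * (d : ℝ))) ^ i * kap n x y := by
  have hd : (1 : ℝ) ≤ d := by exact_mod_cast h.d1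
  have hl : (2 * d : ℝ) ≤ l := by exact_mod_cast h.dl
  have hp := h.p0
  have h1 : (p * n * d) ^ i ≤ 3 := (pow_le_pow_left₀ (by positivity) h.mu i).trans
    (one_add_inv_pow_le (by have := h.dl; have := h.d1; omega) hi)
  have h2 : p * n * (d - 1) ≤ 1 - 1 / (2 * (d : ℝ)) := by
    have a1 : 1 / (l : ℝ) ≤ 1 / (2 * d) := one_div_le_one_div_of_le (by linarith) hl
    have a2 : p * n * d ≤ 1 + 1 / (2 * d) := h.mu.trans (by linarith)
    have a3 : p * n * (d - 1) * d ≤ (1 - 1 / (2 * (d : ℝ))) * d := by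
      have b1 := mul_le_mul_of_nonneg_right a2 (show 0 ≤ (d : ℝ) - 1 by linarith)
      have b2 : 1 / (2 * (d : ℝ)) * d = 1 / 2 := by field_simp
      have b3 : 0 < 1 / (2 * (d : ℝ)) := by positivity
      nlinarith
    exact le_of_mul_le_mul_right a3 (by linarith)
  have h3 := pow_le_pow_left₀ (mul_nonneg (by positivity) (by linarith)) h2 i
  refine (mul_le_mul_of_nonneg_left (heat h.n1 h.d1 y i ∅ x hx) (pow_nonneg hp i)).trans ?_
  have h4 := mul_le_mul_of_nonneg_right h1 (show 0 ≤ ((n : ℝ) ^ d)⁻¹ by positivity)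
  have h5 := mul_le_mul_of_nonneg_left h3 (mul_nonneg (show (0 : ℝ) ≤ d by linarith)
    (kap_nonneg (n := n) x y))
  simp only [compl_empty, card_univ, Fintype.card_fin]
  refine le_trans (le_of_eq ?_) ((add_le_add h4 h5).trans (le_of_eq ?_))
  · simp only [mul_pow]; ring
  · ring

theorem far (h : RW d n p X l) {x y : Vx d} (hx : x ∈ box d n) (hy : y ∈ box d n) :
    p ^ l * (Aop d n ^ l) (tau p (edges d n) x) y ≤ (3 + d) * (X * ((n : ℝ) ^ d)⁻¹) := by
  have hp1 : p ≤ 1 := by linarith [h.p2]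
  have h1 := Aop_pow_mono (f := tau p (edges d n) x)
    (g := ∑ w ∈ box d n, tau p (edges d n) x w • psi n ∅ w) (fun v hv => by
      rw [Finset.sum_apply, sum_eq_single v]
      · simp [psi_empty, ind_pos]
      · intro b _ hb; simp [psi_empty, ind_neg hb.symm]
      · intro h; exact absurd hv h) l y hy
  refine (mul_le_mul_of_nonneg_left h1 (pow_nonneg h.p0 l)).trans ?_
  rw [map_sum, Finset.sum_apply, mul_sum]
  have h2 : ∀ w ∈ box d n, p ^ l * (Aop d n ^ l) (tau p (edges d n) x w • psi n ∅ w) y ≤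
      tau p (edges d n) x w * ((3 + d) * ((n : ℝ) ^ d)⁻¹) := by
    intro w _
    rw [map_smul, Pi.smul_apply, smul_eq_mul, mul_left_comm]
    refine mul_le_mul_of_nonneg_left ((h.heat' hy w le_rfl).trans ?_) (tau_nonneg h.p0 hp1 _ _)
    have := mul_le_mul h.mix (kap_le_one h.n1 y w) (kap_nonneg _ _) (by positivity)
    have := mul_le_mul_of_nonneg_left this (show (0 : ℝ) ≤ d by positivity)
    nlinarith
  refine (sum_le_sum h2).trans ?_
  rw [← sum_mul, chi_trans hx]
  refine (mul_le_mul_of_nonneg_right h.chiX (by positivity)).trans (le_of_eq ?_)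
  ring

theorem tau_le (h : RW d n p X l) {x y : Vx d} (hx : x ∈ box d n) (hy : y ∈ box d n) :
    tau p (edges d n) x y ≤ 2 * d ^ 2 * kap n x y + (6 + d) * (X * ((n : ℝ) ^ d)⁻¹) := by
  have hd : (1 : ℝ) ≤ d := by exact_mod_cast h.d1
  refine (tau_iter h.p0 h.p2 x l y hy).trans ?_
  have h1 := sum_le_sum fun i (hi : i ∈ range l) => h.heat' hy x (mem_range.1 hi).le
  rw [sum_add_distrib, ← sum_mul, ← sum_mul, ← mul_sum, sum_const, card_range, nsmul_eq_mul,
    kap_symm y x] at h1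
  have h2 : ∑ i ∈ range l, (1 - 1 / (2 * (d : ℝ))) ^ i ≤ 2 * d := by
    have a0 : 0 < 1 / (2 * (d : ℝ)) := by positivity
    have a1 : 1 / (2 * (d : ℝ)) ≤ 1 := by rw [div_le_one (by positivity)]; linarith
    have := mul_neg_geom_sum (1 - 1 / (2 * (d : ℝ))) l
    have a2 : 0 ≤ (1 - 1 / (2 * (d : ℝ))) ^ l := pow_nonneg (by linarith) l
    have a3 : 1 / (2 * (d : ℝ)) * ∑ i ∈ range l, (1 - 1 / (2 * (d : ℝ))) ^ i ≤ 1 := by
      rw [sub_sub_cancel] at this; linarith
    rwa [one_div_mul_eq_div, div_le_one (by positivity)] at a3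
  have h3 := mul_le_mul_of_nonneg_right h.lX (show 0 ≤ ((n : ℝ) ^ d)⁻¹ by positivity)
  have h4 := mul_le_mul_of_nonneg_left h2 (mul_nonneg (show (0 : ℝ) ≤ d by linarith)
    (kap_nonneg (n := n) x y))
  have := h.far hx hy
  nlinarith

theorem ph (h : RW d n p X l) {C : ℝ} (hC1 : 3 ^ d ≤ C) (hC2 : 2 * (d : ℝ) ^ 2 ≤ C)
    (hC3 : 6 + (d : ℝ) ≤ C) (hnX : (n : ℝ) ≤ X) (hX2 : X * (X * ((n : ℝ) ^ d)⁻¹) ≤ 1)
    (hX3 : X * (X * (X * ((n : ℝ) ^ d)⁻¹)) ≤ C) :
    PH p (edges d n) (box d n) (kap n) (n : ℝ)⁻¹ (X * ((n : ℝ) ^ d)⁻¹) X C (chi d n p) := by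
  have hn : (1 : ℝ) ≤ n := by exact_mod_cast h.n1
  have hd : (1 : ℝ) ≤ d := by exact_mod_cast h.d1
  have hX : 0 ≤ X := by linarith
  have hm : ((d * (n - 1) : ℕ) : ℝ) ≤ C * n := by
    have : ((d * (n - 1) : ℕ) : ℝ) ≤ d * n := by exact_mod_cast Nat.mul_le_mul_left d (Nat.sub_le n 1)
    nlinarith
  exact
  { C1 := by linarith
    k0 := kap_nonneg
    ks := kap_symm
    k1 := kap_self
    ko := fun _ _ => kap_off h.n1
    ksum := fun x _ => (kap_sum h.n1 x).trans
      ((pow_le_pow_left₀ (by norm_num) (by norm_num) d).trans hC1)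
    kconv := fun x _ y _ => (kap_conv h.n1 x y).trans
      (mul_le_mul_of_nonneg_right hC1 (kap_nonneg _ _))
    n0 := by positivity
    n1 := inv_le_one' h.n1
    d0 := by positivity
    dV := by rw [card_box]; push_cast; exact le_of_eq (by field_simp)
    X1 := by linarith
    X2 := hX2
    X3 := hX3
    p0 := h.p0
    p2 := h.p2
    EΛ := edges_box
    chi := fun x hx => chi_trans hx
    tk := fun x hx y hy => (h.tau_le hx hy).trans (by
      have := mul_le_mul_of_nonneg_right hC2 (kap_nonneg (n := n) x y)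
      have := mul_le_mul_of_nonneg_right hC3 (show 0 ≤ X * ((n : ℝ) ^ d)⁻¹ by positivity)
      linarith)
    dn := fun x hx => by
      rw [filter_eq_nbr hx, card_nbr hx, mul_inv_le_iff₀ (by linarith)]; exact hm
    dd := fun x hx => by
      rw [filter_eq_nbr hx, card_nbr hx, ← mul_assoc C]
      refine mul_le_mul_of_nonneg_right (hm.trans ?_) (by positivity)
      exact mul_le_mul_of_nonneg_left hnX (by linarith) }

theorem lh (h : RW d n p X l) {C : ℝ} (hC3 : 6 + (d : ℝ) ≤ C) (hnX : (n : ℝ) ≤ X) {L N R : ℕ}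
    (hL : 2 * l ≤ L) (hμ : p * n * d ≤ 1 + 1 / ((L + 1 : ℕ) : ℝ))
    (hN : 300 * (L + 1) ^ 2 * R ≤ N) (hR : n ^ d ≤ 2 ^ R) :
    LH p (edges d n) (box d n) (X * ((n : ℝ) ^ d)⁻¹) C L N := by
  have hn : (1 : ℝ) ≤ n := by exact_mod_cast h.n1
  have hX : 0 ≤ X := by linarith
  refine ⟨⟨l, hL, fun x hx y hy => (lg_le h.p0 h.p2 x l y hy).trans ((h.far hx hy).trans ?_)⟩,
    fun z _ => ?_⟩
  · exact mul_le_mul_of_nonneg_right (by linarith) (by positivity)
  · refine (tail_bound h.p0 (by linarith [h.p2]) _ L N R _ card_edges_at_le (le_trans ?_ hμ)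
      hN z).trans ?_
    · have : ((d * (n - 1) : ℕ) : ℝ) ≤ d * n := by
        exact_mod_cast Nat.mul_le_mul_left d (Nat.sub_le n 1)
      nlinarith [h.p0]
    · have a1 : ((2 : ℝ) ^ R)⁻¹ ≤ ((n : ℝ) ^ d)⁻¹ :=
        inv_anti₀ (by positivity) (by exact_mod_cast hR)
      have a2 : (0 : ℝ) ≤ ((n : ℝ) ^ d)⁻¹ := by positivity
      have a3 : (2 : ℝ) ≤ C * X := by nlinarith [show (0 : ℝ) ≤ d by positivity]
      rw [div_eq_mul_inv, ← mul_assoc]
      exact mul_le_mul a3 a1 (by positivity) (by linarith)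

end RW

end HamPerc
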