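import Pool.Agent.Lib.MP_58a483_pr.Explore

/-!
Exponential tail bound for the number of open edges found in a bounded number of generations.
-/

open Finset

namespace HamPerc

variable {α : Type*} [DecidableEq α]

open Classical in
/-- edges found within `k` generations from the set `S` -/
noncomputable def locG (k : ℕ) (η : Finset (Sym2 α)) (S : Finset α) : Finset (Sym2 α) :=
  η.filter fun e => ∃ u ∈ e, ∃ s ∈ S, ∃ W ⊆ η, Tr s u W ∧ W.card < k

theorem mem_locG {k : ℕ} {η : Finset (Sym2 α)} {S : Finset α} {e : Sym2 α} :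
    e ∈ locG k η S ↔ e ∈ η ∧ ∃ u ∈ e, ∃ s ∈ S, ∃ W ⊆ η, Tr s u W ∧ W.card < k := by
  unfold locG; simp only [mem_filter]

theorem loc_eq_locG (L : ℕ) (η : Finset (Sym2 α)) (z : α) : loc L η z = locG (L + 1) η {z} := by
  ext e
  simp only [mem_loc, mem_locG, mem_singleton, exists_eq_left, Nr, Nat.lt_succ_iff]

/-- new endpoints of a set of edges -/
def newV (T : Finset (Sym2 α)) (S : Finset α) : Finset α := T.biUnion fun e => e.toFinset \ S

theorem card_newV {T : Finset (Sym2 α)} {S : Finset α} (h : ∀ e ∈ T, ∃ u ∈ e, u ∈ S) :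
    (newV T S).card ≤ T.card := by
  refine card_biUnion_le.trans ?_
  rw [card_eq_sum_ones T]
  refine sum_le_sum fun e he => ?_
  obtain ⟨u, hu, hS⟩ := h e he
  obtain ⟨v, rfl⟩ := Sym2.mem_iff_exists.1 hu
  refine (card_le_card (t := {v}) fun w hw => ?_).trans (by simp)
  simp only [mem_sdiff, Sym2.mem_toFinset, Sym2.mem_iff] at hw
  rcases hw.1 with rfl | rfl
  · exact absurd hS hw.2
  · simp

theorem locG_succ (k : ℕ) (η : Finset (Sym2 α)) (S : Finset α) :
    locG (k + 1) η S ⊆ η.filter (fun e => ∃ u ∈ S, u ∈ e) ∪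
      locG k (η.filter fun e => ¬ ∃ u ∈ S, u ∈ e) (newV (η.filter fun e => ∃ u ∈ S, u ∈ e) S) := by
  have key : ∀ s ∈ S, ∀ u W, Tr s u W → W ⊆ η → u ∈ S ∨
      ∃ s' ∈ newV (η.filter fun e => ∃ u ∈ S, u ∈ e) S,
        ∃ W' ⊆ η.filter fun e => ¬ ∃ u ∈ S, u ∈ e, Tr s' u W' ∧ W' ⊆ W ∧ W'.card < W.card := by
    intro s hs u W ht
    induction ht with
    | nil => exact fun _ => Or.inl hs
    | @snoc a b W ht he ih =>
      intro hW
      have hη : s(a, b) ∈ η := hW (mem_insert_self _ _)
      by_cases hb : b ∈ S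
      · exact Or.inl hb
      right
      by_cases ha : a ∈ S
      · refine ⟨b, mem_biUnion.2 ⟨s(a, b), mem_filter.2 ⟨hη, a, ha, Sym2.mem_mk_left _ _⟩, ?_⟩,
          ∅, empty_subset _, Tr.nil _, empty_subset _, card_pos.2 (insert_nonempty _ _)⟩
        simp [hb]
      · obtain ⟨s', h1, W', h2, h3, h4, h5⟩ :=
          (ih ((subset_insert _ _).trans hW)).resolve_left ha
        have hn : s(a, b) ∉ W' := fun h => he (h4 h)
        refine ⟨s', h1, insert s(a, b) W', insert_subset (mem_filter.2 ⟨hη, ?_⟩) h2,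
          h3.snoc hn, insert_subset_insert _ h4, ?_⟩
        · rintro ⟨u, hu, hu'⟩
          rcases Sym2.mem_iff.1 hu' with rfl | rfl
          · exact ha hu
          · exact hb hu
        · rw [card_insert_of_notMem hn, card_insert_of_notMem he]; omega
  intro e he
  obtain ⟨h1, u, hu, s, hs, W, hW, ht, hk⟩ := mem_locG.1 he
  by_cases hT : ∃ u ∈ S, u ∈ e
  · exact mem_union_left _ (mem_filter.2 ⟨h1, hT⟩)
  · obtain ⟨s', a, W', b, c, _, d⟩ := (key s hs u W ht hW).resolve_left fun h => hT ⟨u, h, hu⟩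
    exact mem_union_right _ (mem_locG.2 ⟨mem_filter.2 ⟨h1, hT⟩, u, hu, s', a, W', b, c, by omega⟩)

/-- generating function recursion -/
noncomputable def gf (μ y : ℝ) : ℕ → ℝ
  | 0 => 1
  | k + 1 => Real.exp (μ * (y * gf μ y k - 1))

theorem one_le_gf {μ y : ℝ} (hμ : 0 ≤ μ) (hy : 1 ≤ y) (k : ℕ) : 1 ≤ gf μ y k := by
  induction k with
  | zero => exact le_rfl
  | succ k ih => exact Real.one_le_exp (mul_nonneg hμ (by nlinarith))

theorem Ex_locG {p y : ℝ} (h0 : 0 ≤ p) (h1 : p ≤ 1) (hy : 1 ≤ y) (m k : ℕ)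
    (E : Finset (Sym2 α)) (hE : ∀ x, (E.filter fun e => x ∈ e).card ≤ m) (S : Finset α) :
    Ex p E (fun ω => y ^ (locG k ω S).card) ≤ gf (p * m) y k ^ S.card := by
  have hμ : 0 ≤ p * m := by positivity
  induction k generalizing E S with
  | zero =>
    refine Ex_le_const h0 h1 fun ω _ => ?_
    have : locG 0 ω S = ∅ := by ext e; simp [mem_locG]
    simp [this, gf]
  | succ k ih =>
    have hg := one_le_gf hμ hy k
    calc _ ≤ Ex p E fun ω => y ^ (ω.filter fun e => ∃ u ∈ S, u ∈ e).card *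
          y ^ (locG k (ω.filter fun e => ¬ ∃ u ∈ S, u ∈ e)
            (newV (ω.filter fun e => ∃ u ∈ S, u ∈ e) S)).card := by
          refine Ex_mono h0 h1 fun ω _ => ?_
          rw [← pow_add]
          exact pow_le_pow_right₀ hy ((card_le_card (locG_succ k ω S)).trans (card_union_le _ _))
      _ ≤ Ex p (E.filter fun e => ∃ u ∈ S, u ∈ e) fun a => (y * gf (p * m) y k) ^ a.card := by
          rw [Ex_split p E (fun e => ∃ u ∈ S, u ∈ e) fun a b =>
            y ^ a.card * y ^ (locG k b (newV a S)).card]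
          refine Ex_mono h0 h1 fun a ha => ?_
          rw [Ex_const_mul, mul_pow]
          refine mul_le_mul_of_nonneg_left ((ih _ (fun x => ?_) _).trans ?_) (by positivity)
          · exact (card_le_card (filter_subset_filter _ (filter_subset _ _))).trans (hE x)
          · refine pow_le_pow_right₀ hg (card_newV fun e he => ?_)
            obtain ⟨u, a, b⟩ := (mem_filter.1 (ha he)).2
            exact ⟨u, b, a⟩
      _ ≤ _ := by
          rw [Ex_pow_card]
          have hc : (E.filter fun e => ∃ u ∈ S, u ∈ e).card ≤ m * S.card := by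
            have : (E.filter fun e => ∃ u ∈ S, u ∈ e) = S.biUnion fun x => E.filter fun e => x ∈ e := by
              ext e; simp only [mem_filter, mem_biUnion]; tauto
            rw [this, mul_comm]
            exact card_biUnion_le_card_mul _ _ _ fun x _ => hE x
          have hx : 0 ≤ p * (y * gf (p * m) y k - 1) := mul_nonneg h0 (by nlinarith)
          refine (pow_le_pow_right₀ (by linarith) hc).trans ?_
          rw [pow_mul]
          refine pow_le_pow_left₀ (by positivity) ?_ _
          refine (pow_le_pow_left₀ (by positivity) (b := Real.exp (p * (y * gf (p * m) y k - 1)))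
            (by linarith [Real.add_one_le_exp (p * (y * gf (p * m) y k - 1))]) m).trans ?_
          rw [← Real.exp_nat_mul, gf]
          exact le_of_eq (by congr 1; ring)

theorem one_add_inv_pow_le {k j : ℕ} (hk : 1 ≤ k) (hj : j ≤ k) : (1 + 1 / (k : ℝ)) ^ j ≤ 3 := by
  have h0 : (0 : ℝ) < k := by exact_mod_cast hk
  refine (pow_le_pow_right₀ (by linarith [one_div_pos.2 h0]) hj).trans ?_
  refine (pow_le_pow_left₀ (by positivity) (b := Real.exp (1 / k))
    (by linarith [Real.add_one_le_exp (1 / (k : ℝ))]) k).trans ?_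
  rw [← Real.exp_nat_mul, mul_one_div_cancel h0.ne']
  linarith [Real.exp_one_lt_d9]

theorem gf_le {μ : ℝ} {k : ℕ} (hk : 1 ≤ k) (hμ0 : 0 ≤ μ) (hμ : μ ≤ 1 + 1 / (k : ℝ)) :
    gf μ (1 + 1 / (300 * (k : ℝ) ^ 2)) k ≤ 2 := by
  have h0 : (1 : ℝ) ≤ k := by exact_mod_cast hk
  set h : ℝ := 1 / k with hh
  have hh0 : 0 < h := by positivity
  have hh1 : h ≤ 1 := by rw [hh, div_le_one (by linarith)]; exact h0
  set u : ℝ := 1 / (300 * (k : ℝ) ^ 2) with hu
  have hu0 : 0 < u := by positivity
  have huk : u * k * 300 = h := by rw [hu, hh]; field_simp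
  have huh : u ≤ h / 10 := by nlinarith
  have small : ∀ j ≤ k, u * j * ((1 + h) ^ j) ^ 3 ≤ h / 10 := by
    intro j hj
    have a1 := one_add_inv_pow_le hk hj
    have a2 : ((1 + h) ^ j) ^ 3 ≤ 3 ^ 3 := pow_le_pow_left₀ (by positivity) a1 3
    have a3 : (j : ℝ) ≤ k := by exact_mod_cast hj
    have a4 : u * j * ((1 + h) ^ j) ^ 3 ≤ u * k * 3 ^ 3 :=
      mul_le_mul (mul_le_mul_of_nonneg_left a3 hu0.le) a2 (by positivity) (by positivity)
    linarith
  have key : ∀ j ≤ k, gf μ (1 + u) j - 1 ≤ u * j * ((1 + h) ^ j) ^ 3 := by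
    intro j
    induction j with
    | zero => intro _; simp [gf]
    | succ j ih =>
      intro hj
      have i1 := ih (by omega)
      have i2 := small j (by omega)
      have i3 := one_le_gf hμ0 (show 1 ≤ 1 + u by linarith) j
      set g := gf μ (1 + u) j - 1 with hg
      have hg0 : 0 ≤ g := by linarith
      have e : gf μ (1 + u) (j + 1) = Real.exp (μ * (u + (1 + u) * g)) := by
        rw [gf]; congr 1; rw [hg]; ring
      set x := μ * (u + (1 + u) * g) with hx
      have x0 : 0 ≤ x := by positivity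
      have y1 : u + (1 + u) * g ≤ (1 + h) * (u + g) := by nlinarith
      have x1 : x ≤ (1 + h) * ((1 + h) * (u + g)) :=
        mul_le_mul hμ y1 (by positivity) (by positivity)
      have x2 : x ≤ h := by
        have : (1 + h) * ((1 + h) * (u + g)) ≤ 2 * (2 * (h / 5)) :=
          mul_le_mul (by linarith) (mul_le_mul (by linarith) (by linarith) (by positivity)
            (by norm_num)) (by positivity) (by norm_num)
        linarith
      have x3 : Real.exp x - 1 ≤ (1 + h) * x := by
        have := Real.abs_exp_sub_one_sub_id_le (x := x) (by rw [abs_of_nonneg x0]; linarith)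
        have := (abs_le.1 this).2
        nlinarith
      have q1 : (1 : ℝ) ≤ ((1 + h) ^ j) ^ 3 := one_le_pow₀ (one_le_pow₀ (by linarith))
      have x4 : u + g ≤ u * (j + 1) * ((1 + h) ^ j) ^ 3 := by nlinarith
      rw [e]
      refine x3.trans ((mul_le_mul_of_nonneg_left x1 (by positivity)).trans ?_)
      have := mul_le_mul_of_nonneg_left x4 (show 0 ≤ (1 + h) ^ 3 by positivity)
      push_cast
      refine le_trans (le_of_eq ?_) (this.trans (le_of_eq ?_)) <;> ring
  have := key k le_rfl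
  have := small k le_rfl
  linarith

theorem tail_bound {p : ℝ} (h0 : 0 ≤ p) (h1 : p ≤ 1) (m L N R : ℕ) (E : Finset (Sym2 α))
    (hE : ∀ x, (E.filter fun e => x ∈ e).card ≤ m) (hμ : p * m ≤ 1 + 1 / ((L + 1 : ℕ) : ℝ))
    (hN : 300 * (L + 1) ^ 2 * R ≤ N) (z : α) :
    Pr p E (fun ω => N < (loc L ω z).card) ≤ 2 / 2 ^ R := by
  set y : ℝ := 1 + 1 / (300 * ((L + 1 : ℕ) : ℝ) ^ 2) with hy
  have hy1 : 1 ≤ y := by rw [hy]; exact le_add_of_nonneg_right (by positivity)
  have hyN : 2 ^ R ≤ y ^ N := by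
    refine le_trans ?_ (pow_le_pow_right₀ hy1 hN)
    rw [pow_mul]
    refine pow_le_pow_left₀ (by norm_num) ?_ _
    refine le_trans (le_of_eq ?_) (one_add_mul_le_pow (a := 1 / (300 * ((L + 1 : ℕ) : ℝ) ^ 2))
      (by linarith [show (0 : ℝ) ≤ 1 / (300 * ((L + 1 : ℕ) : ℝ) ^ 2) by positivity]) _)
    push_cast
    field_simp
    ring
  calc _ ≤ Ex p E fun ω => (2 ^ R)⁻¹ * y ^ (locG (L + 1) ω {z}).card := by
        refine Ex_mono h0 h1 fun ω _ => ind_le_of (by positivity) fun h => ?_
        rw [← loc_eq_locG, le_inv_mul_iff₀ (by positivity), mul_one]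
        exact hyN.trans (pow_le_pow_right₀ hy1 h.le)
    _ ≤ _ := by
        rw [Ex_const_mul, div_eq_inv_mul]
        refine mul_le_mul_of_nonneg_left ((Ex_locG h0 h1 hy1 m _ E hE {z}).trans ?_)
          (by positivity)
        rw [card_singleton, pow_one]
        exact gf_le (by omega) (by positivity) hμ

end HamPerc
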