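import Pool.Agent.Lib.MP_58a483_pr.PT
import Pool.Agent.Lib.MP_58a483_pr.Tail

/-!
The Hamming graph inside `Fin d → ℕ`: neighbours, the comparison kernel and heat kernel bounds.
-/

open Finset

namespace HamPerc

/-- vertices -/
abbrev Vx (d : ℕ) := Fin d → ℕ

variable {d n : ℕ}

/-- differ in exactly one coordinate -/
def Adj (x y : Vx d) : Prop := ∃ i, x i ≠ y i ∧ ∀ j, j ≠ i → x j = y j

/-- an unordered pair of adjacent vertices -/
def AdjE (e : Sym2 (Vx d)) : Prop := ∃ x y, e = s(x, y) ∧ Adj x y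

/-- the vertex set -/
def box (d n : ℕ) : Finset (Vx d) := Fintype.piFinset fun _ => range n

open Classical in
/-- the edge set -/
noncomputable def edges (d n : ℕ) : Finset (Sym2 (Vx d)) := (box d n).sym2.filter AdjE

open Classical in
/-- neighbours -/
noncomputable def nbr (n : ℕ) (x : Vx d) : Finset (Vx d) := (box d n).filter (Adj x)

theorem Adj.symm {x y : Vx d} (h : Adj x y) : Adj y x :=
  let ⟨i, a, b⟩ := h; ⟨i, a.symm, fun j hj => (b j hj).symm⟩

theorem Adj.ne {x y : Vx d} (h : Adj x y) : x ≠ y := fun e => let ⟨_, a, _⟩ := h; a (e ▸ rfl)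

theorem adjE_mk {x y : Vx d} : AdjE s(x, y) ↔ Adj x y := by
  constructor
  · rintro ⟨a, b, h, hab⟩
    rcases Sym2.eq_iff.1 h with ⟨rfl, rfl⟩ | ⟨rfl, rfl⟩
    · exact hab
    · exact hab.symm
  · exact fun h => ⟨x, y, rfl, h⟩

theorem mem_box {x : Vx d} : x ∈ box d n ↔ ∀ i, x i < n := by simp [box]

theorem card_box : (box d n).card = n ^ d := by simp [box]

theorem mem_edges {e : Sym2 (Vx d)} : e ∈ edges d n ↔ (∀ u ∈ e, u ∈ box d n) ∧ AdjE e := by
  classical
  unfold edges; rw [mem_filter, mem_sym2_iff]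

theorem mk_mem_edges {x y : Vx d} : s(x, y) ∈ edges d n ↔ x ∈ box d n ∧ y ∈ box d n ∧ Adj x y := by
  rw [mem_edges, adjE_mk]; simp [and_assoc]

theorem mem_nbr {x y : Vx d} : y ∈ nbr n x ↔ y ∈ box d n ∧ Adj x y := by
  classical
  unfold nbr; rw [mem_filter]

theorem sum_nbr {M : Type*} [AddCommMonoid M] {x : Vx d} (hx : x ∈ box d n) (f : Vx d → M) :
    ∑ y ∈ nbr n x, f y = ∑ i, ∑ a ∈ (range n).erase (x i), f (Function.update x i a) := by
  rw [sum_sigma']
  symm
  refine sum_bij (fun q _ => Function.update x q.1 q.2) ?_ ?_ ?_ fun _ _ => rfl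
  · rintro ⟨i, a⟩ h
    simp only [mem_sigma, mem_univ, mem_erase, mem_range, true_and] at h
    refine mem_nbr.2 ⟨mem_box.2 fun j => ?_, i, ?_, fun j hj => ?_⟩
    · by_cases e : j = i
      · subst e; simpa using h.2
      · simpa [e] using mem_box.1 hx j
    · simpa using h.1.symm
    · simp [hj]
  · rintro ⟨i, a⟩ h ⟨j, b⟩ h' e
    simp only [mem_sigma, mem_univ, mem_erase, mem_range, true_and] at h h' e
    by_cases hij : i = j
    · subst hij
      have := congrFun e i
      simp only [Function.update_self] at this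
      rw [this]
    · have := congrFun e i
      simp only [Function.update_self, Function.update_of_ne hij] at this
      exact absurd this h.1
  · intro y hy
    obtain ⟨hb, i, h1, h2⟩ := mem_nbr.1 hy
    refine ⟨⟨i, y i⟩, ?_, ?_⟩
    · simp [h1.symm, mem_box.1 hb i]
    · funext j
      by_cases e : j = i
      · subst e; simp
      · simp [e, h2 j e]

theorem card_nbr {x : Vx d} (hx : x ∈ box d n) : (nbr n x).card = d * (n - 1) := by
  rw [card_eq_sum_ones, sum_nbr hx]
  simp [card_erase_of_mem, mem_box.1 hx]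

theorem filter_eq_nbr {x : Vx d} (hx : x ∈ box d n)
    [DecidablePred fun y => y ≠ x ∧ s(x, y) ∈ edges d n] :
    ((box d n).filter fun y => y ≠ x ∧ s(x, y) ∈ edges d n) = nbr n x := by
  ext y
  rw [mem_filter, mem_nbr, mk_mem_edges]
  exact ⟨fun h => h.2.2.2, fun h => ⟨h.1, h.2.ne.symm, hx, h⟩⟩

theorem card_edges_at {x : Vx d} (hx : x ∈ box d n) :
    ((edges d n).filter fun e => x ∈ e).card = d * (n - 1) := by
  rw [← card_nbr hx]
  symm
  refine card_bij (fun y _ => s(x, y)) ?_ ?_ ?_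
  · intro y hy
    exact mem_filter.2 ⟨mk_mem_edges.2 ⟨hx, mem_nbr.1 hy⟩, Sym2.mem_mk_left _ _⟩
  · intro a _ b _ h
    exact Sym2.congr_right.1 h
  · intro e he
    obtain ⟨h1, h2⟩ := mem_filter.1 he
    obtain ⟨y, rfl⟩ := Sym2.mem_iff_exists.1 h2
    exact ⟨y, mem_nbr.2 (mk_mem_edges.1 h1).2, rfl⟩

theorem card_edges_at_le (x : Vx d) : ((edges d n).filter fun e => x ∈ e).card ≤ d * (n - 1) := by
  by_cases hx : x ∈ box d n
  · exact (card_edges_at hx).le
  · rw [filter_false_of_mem fun e he h => hx ((mem_edges.1 he).1 x h)]; simp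

/-- comparison kernel `n ^ (-Hamming distance)` -/
noncomputable def kap (n : ℕ) (x y : Vx d) : ℝ := ∏ i, if x i = y i then 1 else (n : ℝ)⁻¹

theorem kap_nonneg (x y : Vx d) : 0 ≤ kap n x y :=
  prod_nonneg fun i _ => by split_ifs <;> positivity

theorem kap_symm (x y : Vx d) : kap n x y = kap n y x :=
  prod_congr rfl fun i _ => by simp only [eq_comm]

theorem kap_self (x : Vx d) : kap n x x = 1 := by simp [kap]

theorem inv_le_one' (hn : 1 ≤ n) : (n : ℝ)⁻¹ ≤ 1 := inv_le_one_of_one_le₀ (by exact_mod_cast hn)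

theorem kap_le_one (hn : 1 ≤ n) (x y : Vx d) : kap n x y ≤ 1 :=
  prod_le_one (fun i _ => by split_ifs <;> positivity) fun i _ => by
    split_ifs
    · exact le_rfl
    · exact inv_le_one' hn

theorem kap_off (hn : 1 ≤ n) {x y : Vx d} (h : x ≠ y) : kap n x y ≤ (n : ℝ)⁻¹ := by
  obtain ⟨i, hi⟩ := Function.ne_iff.1 h
  unfold kap
  rw [← mul_prod_erase _ _ (mem_univ i), if_neg hi]
  refine mul_le_of_le_one_right (by positivity) (prod_le_one (fun i _ => ?_) fun i _ => ?_)
  · split_ifs <;> positivity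
  · split_ifs
    · exact le_rfl
    · exact inv_le_one' hn

theorem sum_k1 (hn : 1 ≤ n) (a : ℕ) :
    ∑ b ∈ range n, (if a = b then (1 : ℝ) else (n : ℝ)⁻¹) ≤ 2 := by
  have h0 : (0 : ℝ) < n := by exact_mod_cast hn
  calc _ ≤ ∑ b ∈ range n, ((if a = b then (1 : ℝ) else 0) + (n : ℝ)⁻¹) :=
        sum_le_sum fun b _ => by split_ifs <;> simp
    _ ≤ 2 := by
        rw [sum_add_distrib, sum_ite_eq, sum_const, card_range, nsmul_eq_mul,
          mul_inv_cancel₀ h0.ne']
        split_ifs <;> norm_num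

theorem kap_sum (hn : 1 ≤ n) (x : Vx d) : ∑ y ∈ box d n, kap n x y ≤ 2 ^ d := by
  unfold kap box
  rw [← prod_univ_sum (fun _ => range n) fun i b => if x i = b then (1 : ℝ) else (n : ℝ)⁻¹]
  refine (prod_le_prod (fun i _ => sum_nonneg fun b _ => by split_ifs <;> positivity)
    fun i _ => sum_k1 hn (x i)).trans (by simp)

theorem kap_conv (hn : 1 ≤ n) (x y : Vx d) :
    ∑ w ∈ box d n, kap n x w * kap n w y ≤ 3 ^ d * kap n x y := by
  have h0 : (0 : ℝ) < n := by exact_mod_cast hn
  have h1 := inv_le_one' hn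
  have h2 : 0 < (n : ℝ)⁻¹ := by positivity
  unfold kap box
  simp only [← prod_mul_distrib]
  rw [← prod_univ_sum (fun _ => range n) fun i b =>
    (if x i = b then (1 : ℝ) else (n : ℝ)⁻¹) * if b = y i then (1 : ℝ) else (n : ℝ)⁻¹]
  refine (prod_le_prod (g := fun i => 3 * if x i = y i then (1 : ℝ) else (n : ℝ)⁻¹)
    (fun i _ => sum_nonneg fun b _ => by split_ifs <;> positivity) fun i _ => ?_).trans
    (by rw [prod_mul_distrib]; simp)
  by_cases e : x i = y i
  · rw [if_pos e]
    refine le_trans (sum_le_sum fun b _ => mul_le_of_le_one_right ?_ ?_)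
      ((sum_k1 hn (x i)).trans (by norm_num))
    · split_ifs <;> positivity
    · split_ifs
      · exact le_rfl
      · exact h1
  · rw [if_neg e]
    calc _ ≤ ∑ b ∈ range n, ((n : ℝ)⁻¹ * (if x i = b then (1 : ℝ) else (n : ℝ)⁻¹) +
          if y i = b then (n : ℝ)⁻¹ else 0) := by
          refine sum_le_sum fun b _ => ?_
          by_cases e1 : x i = b
          · have : ¬ b = y i := fun h => e (e1.trans h)
            simp only [if_pos e1, if_neg this]
            split_ifs <;> linarith
          · by_cases e2 : b = y i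
            · simp only [if_neg e1, if_pos e2, if_pos e2.symm]
              nlinarith
            · simp only [if_neg e1, if_neg e2, if_neg (Ne.symm e2)]
              linarith
      _ ≤ _ := by
          rw [sum_add_distrib, ← mul_sum, sum_ite_eq]
          have := mul_le_mul_of_nonneg_left (sum_k1 hn (x i)) h2.le
          split_ifs <;> linarith

/-- adjacency operator -/
noncomputable def Aop (d n : ℕ) : (Vx d → ℝ) →ₗ[ℝ] (Vx d → ℝ) where
  toFun f x := ∑ y ∈ nbr n x, f y
  map_add' f g := by funext x; simp [sum_add_distrib]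
  map_smul' c f := by funext x; simp [mul_sum]

theorem Aop_apply (f : Vx d → ℝ) (x : Vx d) : Aop d n f x = ∑ y ∈ nbr n x, f y := rfl

theorem Aop_pow_mono {f g : Vx d → ℝ} (h : ∀ y ∈ box d n, f y ≤ g y) (k : ℕ) :
    ∀ x ∈ box d n, (Aop d n ^ k) f x ≤ (Aop d n ^ k) g x := by
  induction k with
  | zero => exact h
  | succ k ih =>
    intro x _
    rw [pow_succ', Module.End.mul_apply, Module.End.mul_apply]
    exact sum_le_sum fun y hy => ih y (mem_nbr.1 hy).1

/-- point mass averaged over the coordinates in `J` -/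
noncomputable def psi (n : ℕ) (J : Finset (Fin d)) (y x : Vx d) : ℝ :=
  ∏ j, if j ∈ J then (n : ℝ)⁻¹ else if x j = y j then 1 else 0

theorem psi_nonneg (J : Finset (Fin d)) (y x : Vx d) : 0 ≤ psi n J y x :=
  prod_nonneg fun i _ => by split_ifs <;> positivity

theorem psi_empty (y x : Vx d) : psi n ∅ y x = ind (x = y) := by
  unfold psi
  by_cases h : x = y
  · simp [h, ind_pos]
  · obtain ⟨i, hi⟩ := Function.ne_iff.1 h
    rw [ind_neg h]
    exact prod_eq_zero (mem_univ i) (by simp [hi])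

theorem Aop_psi (hn : 1 ≤ n) (J : Finset (Fin d)) (y : Vx d) {x : Vx d} (hx : x ∈ box d n) :
    Aop d n (psi n J y) x ≤ ((n : ℝ) • ∑ i, psi n (insert i J) y) x := by
  have h0 : (0 : ℝ) < n := by exact_mod_cast hn
  rw [Aop_apply, sum_nbr hx, Pi.smul_apply, Finset.sum_apply, smul_eq_mul, mul_sum]
  refine sum_le_sum fun i _ => ?_
  refine (sum_le_sum_of_subset_of_nonneg (erase_subset _ _) fun _ _ _ => psi_nonneg _ _ _).trans ?_
  have e1 : ∀ a, psi n J y (Function.update x i a) =
      (if i ∈ J then (n : ℝ)⁻¹ else if a = y i then 1 else 0) *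
        ∏ j ∈ univ.erase i, if j ∈ J then (n : ℝ)⁻¹ else if x j = y j then 1 else 0 := by
    intro a
    unfold psi
    rw [← mul_prod_erase _ _ (mem_univ i), Function.update_self]
    congr 1
    exact prod_congr rfl fun j hj => by rw [Function.update_of_ne (mem_erase.1 hj).1]
  have e2 : psi n (insert i J) y x = (n : ℝ)⁻¹ *
      ∏ j ∈ univ.erase i, if j ∈ J then (n : ℝ)⁻¹ else if x j = y j then 1 else 0 := by
    unfold psi
    rw [← mul_prod_erase _ _ (mem_univ i), if_pos (mem_insert_self _ _)]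
    congr 1
    exact prod_congr rfl fun j hj => by simp [(mem_erase.1 hj).1]
  simp only [e1, e2]
  rw [← sum_mul, ← mul_assoc, mul_inv_cancel₀ h0.ne']
  refine mul_le_mul_of_nonneg_right ?_ (prod_nonneg fun i _ => by split_ifs <;> positivity)
  by_cases hi : i ∈ J
  · simp [hi, mul_inv_cancel₀ h0.ne']
  · simp only [if_neg hi, sum_ite_eq']
    split_ifs <;> norm_num

theorem heat (hn : 1 ≤ n) (hd : 1 ≤ d) (y : Vx d) (k : ℕ) (J : Finset (Fin d)) :
    ∀ x ∈ box d n, (Aop d n ^ k) (psi n J y) x ≤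
      (n : ℝ) ^ k * ((d : ℝ) ^ k * ((n : ℝ) ^ d)⁻¹ + (Jᶜ.card : ℝ) * ((d : ℝ) - 1) ^ k * kap n x y) := by
  have hd' : (1 : ℝ) ≤ d := by exact_mod_cast hd
  induction k generalizing J with
  | zero =>
    intro x _
    simp only [pow_zero, Module.End.one_apply, one_mul, mul_one]
    by_cases hJ : J = univ
    · subst hJ; simp [psi]
    · have h1 : (1 : ℝ) ≤ Jᶜ.card := by
        exact_mod_cast card_pos.2 (nonempty_iff_ne_empty.2 fun h => hJ ((compl_eq_empty_iff _).1 h))
      have h2 : psi n J y x ≤ kap n x y := by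
        refine prod_le_prod (fun i _ => by split_ifs <;> positivity) fun i _ => ?_
        split_ifs
        · exact inv_le_one' hn
        · exact le_rfl
        · exact le_rfl
        · positivity
      have h3 : (0 : ℝ) ≤ ((n : ℝ) ^ d)⁻¹ := by positivity
      nlinarith [kap_nonneg (n := n) x y]
  | succ k ih =>
    intro x hx
    rw [pow_succ, Module.End.mul_apply]
    refine (Aop_pow_mono (fun w hw => Aop_psi hn J y hw) k x hx).trans ?_
    rw [map_smul, map_sum, Pi.smul_apply, Finset.sum_apply, smul_eq_mul]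
    refine (mul_le_mul_of_nonneg_left (sum_le_sum fun i _ => ih (insert i J) x hx)
      (by positivity)).trans (le_of_eq ?_)
    have e : ∑ i : Fin d, (((insert i J)ᶜ.card : ℕ) : ℝ) = Jᶜ.card * ((d : ℝ) - 1) := by
      have : ∀ i : Fin d, (((insert i J)ᶜ.card : ℕ) : ℝ) = Jᶜ.card - if i ∈ Jᶜ then 1 else 0 := by
        intro i
        rw [compl_insert]
        by_cases hi : i ∈ Jᶜ
        · rw [if_pos hi, cast_card_erase_of_mem hi]
        · rw [if_neg hi, erase_eq_of_notMem hi, sub_zero]
      simp only [this]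
      rw [sum_sub_distrib, sum_boole, filter_mem_eq_inter, univ_inter]
      simp; ring
    rw [← mul_sum, sum_add_distrib, ← sum_mul, ← sum_mul, ← sum_mul, e]
    simp; ring

end HamPerc
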