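import Pool.Agent.Lib.MP_58a483_pr.Analytic

/-!
Solving an analytic equation to finite order.
-/

open Finset Filter Topology Asymptotics

namespace HamPerc

variable {G : ℝ × ℝ → ℝ} {σ0 D : ℝ}

theorem fderiv_snd (hG : AnalyticAt ℝ G (0, σ0)) (h0 : ∀ᶠ σ in 𝓝 σ0, G (0, σ) = D * (σ0 - σ))
    (x : ℝ) : fderiv ℝ G (0, σ0) (0, x) = -D * x := by
  have h1 : HasDerivAt (fun σ => G (0, σ)) (fderiv ℝ G (0, σ0) (0, 1)) σ0 :=
    hG.differentiableAt.hasFDerivAt.comp_hasDerivAt (f := fun σ => ((0 : ℝ), σ)) σ0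
      ((hasDerivAt_const σ0 (0 : ℝ)).prodMk (hasDerivAt_id σ0))
  have h2 : HasDerivAt (fun σ => D * (σ0 - σ)) (D * -1) σ0 :=
    ((hasDerivAt_id σ0).const_sub σ0).const_mul D
  have h3 := h1.unique (h2.congr_of_eventuallyEq h0)
  rw [show ((0 : ℝ), x) = x • ((0 : ℝ), (1 : ℝ)) by simp, map_smul, h3, smul_eq_mul]
  ring

theorem bilip (hD : 0 < D) (hG : AnalyticAt ℝ G (0, σ0))
    (h0 : ∀ᶠ σ in 𝓝 σ0, G (0, σ) = D * (σ0 - σ)) :
    ∀ᶠ q : ℝ × ℝ × ℝ in 𝓝 (0, σ0, σ0),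
      D / 2 * |q.2.1 - q.2.2| ≤ |G (q.1, q.2.1) - G (q.1, q.2.2)| ∧
        |G (q.1, q.2.1) - G (q.1, q.2.2)| ≤ 2 * D * |q.2.1 - q.2.2| := by
  have h1 := hG.hasStrictFDerivAt.isLittleO.bound (half_pos hD)
  have h2 : Tendsto (fun q : ℝ × ℝ × ℝ => ((q.1, q.2.1), (q.1, q.2.2))) (𝓝 (0, σ0, σ0))
      (𝓝 ((0, σ0), (0, σ0))) := Continuous.tendsto' (by fun_prop) _ _ rfl
  refine (h2.eventually h1).mono fun q hq => ?_
  simp only [Prod.mk_sub_mk, sub_self, fderiv_snd hG h0, Prod.norm_mk, norm_zero,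
    Real.norm_eq_abs, abs_nonneg, sup_of_le_right] at hq
  have h3 := abs_sub_abs_le_abs_sub (G (q.1, q.2.1) - G (q.1, q.2.2)) (-D * (q.2.1 - q.2.2))
  have h4 := abs_sub_abs_le_abs_sub (-D * (q.2.1 - q.2.2)) (G (q.1, q.2.1) - G (q.1, q.2.2))
  rw [abs_sub_comm (-D * _)] at h4
  rw [abs_mul, abs_neg, abs_of_pos hD] at h3 h4
  constructor <;> nlinarith [abs_nonneg (q.2.1 - q.2.2)]

theorem tendsto_poly (a : ℕ → ℝ) (K : ℕ) :
    Tendsto (fun ε : ℝ => ∑ i ∈ range (K + 1), a i * ε ^ i) (𝓝 0) (𝓝 (a 0)) :=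
  Continuous.tendsto' (by fun_prop) _ _ (by simp [sum_range_succ'])

theorem implicit_exists (hD : 0 < D) (hG : AnalyticAt ℝ G (0, σ0))
    (h0 : ∀ᶠ σ in 𝓝 σ0, G (0, σ) = D * (σ0 - σ)) (K : ℕ) :
    ∃ a : ℕ → ℝ, a 0 = σ0 ∧
      (fun ε => G (ε, ∑ i ∈ range (K + 1), a i * ε ^ i)) =O[𝓝 0] fun ε : ℝ => ε ^ (K + 1) := by
  have hc : ContDiffAt ℝ ⊤ G (0, σ0) := hG.contDiffAt
  have hi : (fderiv ℝ G (0, σ0) ∘L .inr ℝ ℝ ℝ).IsInvertible := by
    refine ⟨ContinuousLinearEquiv.unitsEquivAut ℝ (Units.mk0 (-D) (by linarith)), ?_⟩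
    ext
    simp [fderiv_snd hG h0]
  set ψ := hc.implicitFunction (by simp) hi
  have h1 : ψ 0 = σ0 := hc.implicitFunction_apply_self (by simp) hi
  have h2 : ∀ᶠ x in 𝓝 0, G (x, ψ x) = G (0, σ0) := hc.eventually_apply_implicitFunction (by simp) hi
  have h3 : AnalyticAt ℝ ψ 0 := (hc.contDiffAt_implicitFunction (by simp) hi).analyticAt
  rw [h0.self_of_nhds, sub_self, mul_zero] at h2
  obtain ⟨F, hF, h4⟩ := h3.exists_eventuallyEq_sum_add_pow_mul (K + 1)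
  set a : ℕ → ℝ := fun i => iteratedDeriv i ψ 0 / i.factorial with ha
  have a0 : a 0 = σ0 := by simp [ha, h1]
  refine ⟨a, a0, ?_⟩
  have h5 : Tendsto (fun ε : ℝ => (ε, ∑ i ∈ range (K + 1), a i * ε ^ i, ψ ε)) (𝓝 0)
      (𝓝 (0, σ0, σ0)) :=
    tendsto_id.prodMk_nhds ((a0 ▸ tendsto_poly a K).prodMk_nhds (h1 ▸ h3.continuousAt))
  have h6 : (fun ε : ℝ => ε ^ (K + 1) * F ε) =O[𝓝 0] fun ε : ℝ => ε ^ (K + 1) := by
    simpa using (isBigO_refl (fun ε : ℝ => ε ^ (K + 1)) (𝓝 0)).mul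
      (hF.continuousAt.isBigO_one ℝ)
  refine IsBigO.trans (IsBigO.of_bound (2 * D) ?_) h6
  filter_upwards [h5.eventually (bilip hD hG h0), h2, h4] with ε b1 b2 b3
  have b4 := b1.2
  simp only [b2, sub_zero] at b4
  refine b4.trans (le_of_eq ?_)
  rw [b3, Real.norm_eq_abs, ← abs_neg]
  congr 2
  simp only [ha, smul_eq_mul]
  rw [sum_congr rfl fun i _ => show ε ^ i / i.factorial * iteratedDeriv i ψ 0 =
    iteratedDeriv i ψ 0 / i.factorial * ε ^ i by ring]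
  ring

theorem implicit_unique (hD : 0 < D) (hG : AnalyticAt ℝ G (0, σ0))
    (h0 : ∀ᶠ σ in 𝓝 σ0, G (0, σ) = D * (σ0 - σ)) (K : ℕ) {a b : ℕ → ℝ} (ha : a 0 = σ0)
    (hb : b 0 = σ0)
    (h1 : (fun ε => G (ε, ∑ i ∈ range (K + 1), a i * ε ^ i)) =O[𝓝 0] fun ε : ℝ => ε ^ (K + 1))
    (h2 : (fun ε => G (ε, ∑ i ∈ range (K + 1), b i * ε ^ i)) =O[𝓝 0] fun ε : ℝ => ε ^ (K + 1)) :
    ∀ i ≤ K, a i = b i := by
  obtain ⟨C, hC⟩ := (h1.sub h2).bound
  have h5 : Tendsto (fun ε : ℝ => (ε, ∑ i ∈ range (K + 1), a i * ε ^ i,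
      ∑ i ∈ range (K + 1), b i * ε ^ i)) (𝓝 0) (𝓝 (0, σ0, σ0)) :=
    tendsto_id.prodMk_nhds ((ha ▸ tendsto_poly a K).prodMk_nhds (hb ▸ tendsto_poly b K))
  intro i hi
  have := poly_coeff_zero (∑ i ∈ range (K + 1), Polynomial.monomial i (a i - b i))
    (K + 1) (C / (D / 2)) ?_ i (by omega)
  · rw [Polynomial.finset_sum_coeff, sum_eq_single i] at this
    · rw [Polynomial.coeff_monomial_same] at this; linarith
    · intro j _ hj; exact Polynomial.coeff_monomial_of_ne _ hj.symm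
    · intro h; exact absurd (mem_range.2 (by omega)) h
  refine ((tendsto_inv_atTop_nhds_zero_nat (𝕜 := ℝ)).eventually
    (hC.and (h5.eventually (bilip hD hG h0)))).mono fun n hn => ?_
  have b1 := hn.2.1.trans hn.1
  rw [Real.norm_eq_abs, abs_of_nonneg (a := _ ^ _) (by positivity), ← sum_sub_distrib] at b1
  rw [div_mul_eq_mul_div, le_div_iff₀' (half_pos hD), Polynomial.eval_finset_sum]
  refine le_trans (le_of_eq ?_) b1
  congr 2
  exact sum_congr rfl fun i _ => by rw [Polynomial.eval_monomial]; ring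

theorem analytic_tsum {c : ℕ → ℝ} {C r x : ℝ} (hr : 0 < r) (h : ∀ k, |c k| ≤ C * r⁻¹ ^ k)
    (hx : |x| < r) : AnalyticAt ℝ (fun x => ∑' k, c k * x ^ k) x := by
  lift r to NNReal using hr.le
  have h1 : (r : ENNReal) ≤ (FormalMultilinearSeries.ofScalars ℝ c).radius := by
    refine FormalMultilinearSeries.le_radius_of_bound _ C fun k => ?_
    rw [FormalMultilinearSeries.ofScalars_norm, ← le_div_iff₀ (by positivity), div_eq_mul_inv,
      ← inv_pow]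
    exact h k
  have h2 := ((FormalMultilinearSeries.ofScalars ℝ c).hasFPowerSeriesOnBall
    (lt_of_lt_of_le (by exact_mod_cast hr) h1)).analyticAt_of_mem (y := x) (by
      refine lt_of_lt_of_le ?_ h1
      rw [edist_zero_right, ← ofReal_norm_eq_enorm, ← ENNReal.ofReal_coe_nnreal]
      exact (ENNReal.ofReal_lt_ofReal_iff hr).2 hx)
  have h3 := FormalMultilinearSeries.ofScalarsSum_eq_tsum (E := ℝ) c
  rw [FormalMultilinearSeries.ofScalarsSum] at h3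
  rwa [h3] at h2

end HamPerc
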