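import Pool.Agent.Lib.MP_58a483_pr.Trail

/-!
Counting modulo two: boundaries of edge families.
-/

open Finset

namespace HamPerc

variable {ι γ : Type*} [DecidableEq ι]

theorem add_self_two (v : γ → ZMod 2) : v + v = 0 := by
  funext t; exact CharTwo.add_self_eq_zero _

theorem sum_symmDiff (bd : ι → γ → ZMod 2) (A B : Finset ι) :
    ∑ i ∈ symmDiff A B, bd i = ∑ i ∈ A, bd i + ∑ i ∈ B, bd i := by
  have h1 : ∑ i ∈ A, bd i = ∑ i ∈ A \ B, bd i + ∑ i ∈ A ∩ B, bd i := by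
    rw [← sum_union (disjoint_sdiff_inter A B), sdiff_union_inter]
  have h2 : ∑ i ∈ B, bd i = ∑ i ∈ B \ A, bd i + ∑ i ∈ A ∩ B, bd i := by
    rw [inter_comm, ← sum_union (disjoint_sdiff_inter B A), sdiff_union_inter]
  rw [symmDiff_def, sup_eq_union, sum_union disjoint_sdiff_sdiff, h1, h2,
    add_add_add_comm, add_self_two, add_zero]

open Classical in
theorem parity_count (bd : ι → γ → ZMod 2) (F : Finset ι) (T : Finset γ)
    (h : ∀ t ∈ T, ∃ J ⊆ F, (∑ i ∈ J, bd i) t = 1 ∧ ∀ t' ∈ T, t' ≠ t → (∑ i ∈ J, bd i) t' = 0) :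
    2 ^ T.card * (F.powerset.filter fun J => ∑ i ∈ J, bd i = 0).card ≤ 2 ^ F.card := by
  have h1 : ∀ T' ⊆ T, ∃ J ⊆ F, ∀ t ∈ T, (∑ i ∈ J, bd i) t = if t ∈ T' then 1 else 0 := by
    intro T'
    induction T' using Finset.induction_on with
    | empty => exact fun _ => ⟨∅, empty_subset _, by simp⟩
    | insert a T' ha ih =>
      intro hT
      obtain ⟨J, hJ, h2⟩ := ih ((subset_insert _ _).trans hT)
      obtain ⟨J', hJ', h3, h4⟩ := h a (hT (mem_insert_self _ _))
      refine ⟨symmDiff J J', symmDiff_le_sup.trans (union_subset hJ hJ'), fun t ht => ?_⟩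
      rw [sum_symmDiff, Pi.add_apply, h2 t ht]
      by_cases e : t = a
      · subst e; simp [ha, h3]
      · simp [e, h4 t ht e]
  choose! Jf hJ1 hJ2 using h1
  rw [← card_powerset, ← card_product, ← card_powerset]
  refine card_le_card_of_injOn (fun q => symmDiff (Jf q.1) q.2) ?_ ?_
  · intro q hq
    simp only [coe_product, Set.mem_prod, mem_coe, mem_powerset, mem_filter] at hq ⊢
    exact symmDiff_le_sup.trans (union_subset (hJ1 _ hq.1) hq.2.1)
  · intro q hq q' hq' e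
    simp only [coe_product, Set.mem_prod, mem_coe, mem_powerset, mem_filter] at hq hq' e
    have e1 := congrArg (fun J => ∑ i ∈ J, bd i) e
    simp only [sum_symmDiff, hq.2.2, hq'.2.2, add_zero] at e1
    have e2 : q.1 = q'.1 := by
      ext t
      by_cases ht : t ∈ T
      · have := congrFun e1 t
        rw [hJ2 _ hq.1 t ht, hJ2 _ hq'.1 t ht] at this
        by_cases a : t ∈ q.1 <;> by_cases b : t ∈ q'.1 <;> simp_all
      · exact ⟨fun a => absurd (hq.1 a) ht, fun a => absurd (hq'.1 a) ht⟩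
    rw [e2] at e
    exact Prod.ext e2 (symmDiff_right_injective _ e)

theorem parity_le (bd : ι → γ → ZMod 2) (F : Finset ι) (T : Finset γ)
    (h : ∀ t ∈ T, ∃ J ⊆ F, (∑ i ∈ J, bd i) t = 1 ∧ ∀ t' ∈ T, t' ≠ t → (∑ i ∈ J, bd i) t' = 0) :
    T.card ≤ F.card := by
  classical
  have h1 := parity_count bd F T h
  have h2 : 1 ≤ (F.powerset.filter fun J => ∑ i ∈ J, bd i = 0).card :=
    card_pos.2 ⟨∅, by simp⟩
  exact (Nat.pow_le_pow_iff_right (by norm_num)).1 ((Nat.le_mul_of_pos_right _ h2).trans h1)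

theorem parity_ker (bd : ι → γ → ZMod 2) (F : Finset ι) (T : Finset γ)
    (h : ∀ t ∈ T, ∃ J ⊆ F, (∑ i ∈ J, bd i) t = 1 ∧ ∀ t' ∈ T, t' ≠ t → (∑ i ∈ J, bd i) t' = 0)
    (hF : F.card ≤ T.card) {J : Finset ι} (hJ : J ⊆ F) (h0 : ∑ i ∈ J, bd i = 0) : J = ∅ := by
  classical
  have h1 := (parity_count bd F T h).trans (Nat.pow_le_pow_right (by norm_num) hF)
  have h2 : (F.powerset.filter fun J => ∑ i ∈ J, bd i = 0).card ≤ 1 := by
    by_contra hc
    have : 2 ^ T.card * 2 ≤ 2 ^ T.card := (Nat.mul_le_mul_left _ (by omega)).trans h1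
    have : 0 < 2 ^ T.card := by positivity
    omega
  exact card_le_one.1 h2 J (mem_filter.2 ⟨mem_powerset.2 hJ, h0⟩) ∅ (by simp)

theorem parity_fiber (bd : ι → γ → ZMod 2) (F : Finset ι) (T : Finset γ)
    (h : ∀ t ∈ T, ∃ J ⊆ F, (∑ i ∈ J, bd i) t = 1 ∧ ∀ t' ∈ T, t' ≠ t → (∑ i ∈ J, bd i) t' = 0)
    (A : Finset (Finset ι)) (v : γ → ZMod 2) (hA : ∀ J ∈ A, J ⊆ F ∧ ∑ i ∈ J, bd i = v) :
    A.card ≤ 2 ^ (F.card - T.card) := by
  classical
  rcases A.eq_empty_or_nonempty with rfl | ⟨J₀, h0⟩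
  · simp
  have h1 : A.card ≤ (F.powerset.filter fun J => ∑ i ∈ J, bd i = 0).card := by
    refine card_le_card_of_injOn (fun J => symmDiff J₀ J) ?_ fun a _ b _ e =>
      symmDiff_right_injective _ e
    intro J hJ
    simp only [mem_coe, mem_filter, mem_powerset] at hJ ⊢
    exact ⟨symmDiff_le_sup.trans (union_subset (hA _ h0).1 (hA _ hJ).1),
      by rw [sum_symmDiff, (hA _ h0).2, (hA _ hJ).2, add_self_two]⟩
  have h2 := (Nat.mul_le_mul_left _ h1).trans (parity_count bd F T h)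
  obtain ⟨x, hx⟩ := Nat.exists_eq_add_of_le (parity_le bd F T h)
  rw [hx, pow_add] at h2
  rw [hx, Nat.add_sub_cancel_left]
  exact Nat.le_of_mul_le_mul_left h2 (by positivity)

variable {α : Type*} [DecidableEq α]

/-- boundary of an edge with respect to a vertex labelling -/
def bdE (φ : α → γ → ZMod 2) : Sym2 α → γ → ZMod 2 :=
  Sym2.lift ⟨fun x y => φ x + φ y, fun _ _ => add_comm _ _⟩

omit [DecidableEq α] in
theorem bdE_mk (φ : α → γ → ZMod 2) (x y : α) : bdE φ s(x, y) = φ x + φ y := rfl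

theorem Tr.sum_bdE (φ : α → γ → ZMod 2) {x y : α} {W : Finset (Sym2 α)} (h : Tr x y W) :
    ∑ e ∈ W, bdE φ e = φ x + φ y := by
  induction h with
  | nil => rw [sum_empty, add_self_two]
  | @snoc y z W _ he ih =>
    rw [sum_insert he, ih, bdE_mk]
    have := add_self_two (φ y)
    linear_combination (exp := 1) this

end HamPerc
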