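import Pool.Agent.Lib.MP_58a483_pr.Orbit
import Pool.Agent.Lib.MP_58a483_pr.Parity

/-!
Directions without a coincidence do not influence the exploration.
-/

open Finset

namespace HamPerc

variable {d : ℕ}

/-- the `u`-th coordinate is constant on the edge -/
def flat (u : Fin d) (e : Sym2 (Vx d)) : Prop := ∀ x ∈ e, ∀ y ∈ e, x u = y u

/-- the edge only moves coordinates in `U` -/
def dirIn (U : Finset (Fin d)) (e : Sym2 (Vx d)) : Prop := ∀ j, j ∉ U → flat j e

noncomputable instance (u : Fin d) : DecidablePred (flat u) := Classical.decPred _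

noncomputable instance (U : Finset (Fin d)) : DecidablePred (dirIn U) := Classical.decPred _

theorem flat_mk {u : Fin d} {x y : Vx d} : flat u s(x, y) ↔ x u = y u := by
  simp only [flat, Sym2.mem_iff, forall_eq_or_imp, forall_eq, true_and, and_true]
  exact ⟨fun h => h.1, fun h => ⟨h, h.symm⟩⟩

/-- indicator of the value of the `u`-th coordinate -/
def phu (u : Fin d) (x : Vx d) : ℕ → ZMod 2 := fun t => if x u = t then 1 else 0

theorem phu_congr {u : Fin d} {x y : Vx d} (h : x u = y u) : phu u x = phu u y := by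
  unfold phu; rw [h]

theorem bdE_flat {u : Fin d} {e : Sym2 (Vx d)} (h : flat u e) : bdE (phu u) e = 0 := by
  induction e using Sym2.ind with
  | _ a b => rw [bdE_mk, phu_congr (flat_mk.1 h), add_self_two]

theorem Tr.flat_eq {u : Fin d} {x y : Vx d} {W : Finset (Sym2 (Vx d))} (h : Tr x y W)
    (hW : ∀ e ∈ W, flat u e) : y u = x u := by
  induction h with
  | nil => rfl
  | snoc _ _ ih =>
    rw [← ih fun e he => hW e (mem_insert_of_mem he)]
    exact (flat_mk.1 (hW _ (mem_insert_self _ _))).symm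

theorem rch_of_loc {α : Type*} [DecidableEq α] {L : ℕ} {S : Finset (Sym2 α)} {z v : α}
    {e : Sym2 α} (he : e ∈ loc L S z) (hv : v ∈ e) : Rch S z v := by
  obtain ⟨h1, u, hu, W, a, b, _⟩ := mem_loc.1 he
  obtain ⟨w, rfl⟩ := Sym2.mem_iff_exists.1 hu
  rcases Sym2.mem_iff.1 hv with rfl | rfl
  · exact ⟨W, a, b⟩
  · exact Rch.step ⟨W, a, b⟩ h1

/-- all edges of a configuration, tagged by their layer -/
def fam : Cf d → Finset (ℕ × Sym2 (Vx d))
  | [] => ∅
  | q :: c => q.1.image (fun e => (c.length, e)) ∪ fam c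

theorem fam_lt {c : Cf d} {i : ℕ × Sym2 (Vx d)} (h : i ∈ fam c) : i.1 < c.length := by
  induction c with
  | nil => simp [fam] at h
  | cons q c ih =>
    rcases mem_union.1 h with h | h
    · obtain ⟨e, _, rfl⟩ := mem_image.1 h; simp
    · exact (ih h).trans (by simp)

theorem tag_disj {c : Cf d} (W : Finset (Sym2 (Vx d))) {J : Finset (ℕ × Sym2 (Vx d))}
    (hJ : J ⊆ fam c) : Disjoint (W.image fun e => (c.length, e)) J := by
  rw [disjoint_left]
  intro i hi hj
  obtain ⟨e, _, rfl⟩ := mem_image.1 hi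
  exact lt_irrefl _ (fam_lt (hJ hj))

theorem sum_tag {M : Type*} [AddCommMonoid M] (k : ℕ) (W : Finset (Sym2 (Vx d)))
    (f : Sym2 (Vx d) → M) : ∑ i ∈ W.image fun e => (k, e), f i.2 = ∑ e ∈ W, f e :=
  sum_image fun _ _ _ _ h => (Prod.mk.inj h).2

theorem card_fam (c : Cf d) : (fam c).card = sa c := by
  induction c with
  | nil => rfl
  | cons q c ih =>
    rw [fam, card_union_of_disjoint (tag_disj _ subset_rfl), ih, sa,
      card_image_of_injective _ fun _ _ h => (Prod.mk.inj h).2]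

theorem fam_reach {γ : Type*} (φ : Vx d → γ → ZMod 2) {L N : ℕ} {c : Cf d} {z : Vx d}
    {B : Set (Vx d)} (h : okG L N stF nxF stF c z B) :
    (∀ i ∈ fam c, AdjE i.2) ∧ ∀ v ∈ verts c, ∃ J ⊆ fam c, ∑ i ∈ J, bdE φ i.2 = φ z + φ v := by
  induction c generalizing z with
  | nil => simp [fam, verts]
  | cons q c ih =>
    obtain ⟨⟨h1, h2, _, h4⟩, h5⟩ := h
    have key : ∀ v ∈ vE q.1, ∃ W ⊆ q.1, ∑ e ∈ W, bdE φ e = φ z + φ v := by
      intro v hv
      obtain ⟨e, he, hve⟩ := mem_vE.1 hv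
      obtain ⟨W, a, b⟩ := rch_of_loc (h2.symm ▸ he) hve
      exact ⟨W, a, b.sum_bdE φ⟩
    have key' : ∀ v ∈ vE q.1, ∃ J ⊆ fam (q :: c), ∑ i ∈ J, bdE φ i.2 = φ z + φ v := by
      intro v hv
      obtain ⟨W, a, b⟩ := key v hv
      exact ⟨_, (image_subset_image a).trans subset_union_left, by rw [sum_tag, b]⟩
    refine ⟨fun i hi => ?_, fun v hv => ?_⟩
    · rcases mem_union.1 hi with hi | hi
      · obtain ⟨e, he, rfl⟩ := mem_image.1 hi
        exact h1 e he
      · exact (ih h5).1 i hi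
    rcases mem_union.1 hv with hv | hv
    · exact key' v hv
    rcases mem_insert.1 hv with rfl | hv
    · exact key' _ h4
    obtain ⟨W, a, b⟩ := key _ h4
    obtain ⟨J, a', b'⟩ := (ih h5).2 v hv
    refine ⟨_, union_subset_union (image_subset_image a) a', ?_⟩
    rw [sum_union (tag_disj _ a'), sum_tag, b, b']
    have := add_self_two (φ q.2)
    linear_combination (exp := 1) this

theorem sum_filter_flat (u : Fin d) (J : Finset (ℕ × Sym2 (Vx d))) :
    ∑ i ∈ J.filter fun i => ¬ flat u i.2, bdE (phu u) i.2 = ∑ i ∈ J, bdE (phu u) i.2 :=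
  sum_filter_of_ne fun _ _ h hf => h (bdE_flat hf)

theorem fam_gen {L N : ℕ} {c : Cf d} {B : Set (Vx d)} (h : okG L N stF nxF stF c 0 B)
    (u : Fin d) : ∀ t ∈ uu c u, ∃ J ⊆ (fam c).filter fun i => ¬ flat u i.2,
      (∑ i ∈ J, bdE (phu u) i.2) t = 1 ∧
        ∀ t' ∈ uu c u, t' ≠ t → (∑ i ∈ J, bdE (phu u) i.2) t' = 0 := by
  intro t ht
  obtain ⟨h0, v, hv, rfl⟩ := mem_uu.1 ht
  obtain ⟨J, a, b⟩ := (fam_reach (phu u) h).2 v hv
  refine ⟨_, filter_subset_filter _ a, ?_⟩
  rw [sum_filter_flat, b]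
  refine ⟨by simp [phu, h0.symm], fun t' ht' hne => ?_⟩
  simp [phu, (mem_uu.1 ht').1.symm, hne.symm]

/-- no cycle in direction `u` -/
def KT (u : Fin d) (c : Cf d) : Prop :=
  ∀ J ⊆ fam c, ∑ i ∈ J, bdE (phu u) i.2 = 0 → ∀ i ∈ J, flat u i.2

theorem exists_rel {L N : ℕ} {c : Cf d} {B : Set (Vx d)} (h : okG L N stF nxF stF c 0 B) :
    ∃ R : Finset (Fin d), R.card + ∑ u, kk c u ≤ sa c ∧ ∀ u, u ∉ R → KT u c := by
  refine ⟨univ.filter fun u => kk c u < ((fam c).filter fun i => ¬ flat u i.2).card, ?_, ?_⟩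
  · have h1 : ∑ u, ((fam c).filter fun i => ¬ flat u i.2).card ≤ sa c := by
      rw [← card_fam, card_eq_sum_ones (fam c)]
      simp only [card_filter]
      rw [sum_comm]
      refine sum_le_sum fun i hi => ?_
      obtain ⟨x, y, e, u, _, h2⟩ := (fam_reach (fun _ (_ : Unit) => 0) h).1 i hi
      rw [sum_eq_single u]
      · split_ifs <;> simp
      · intro j _ hj
        rw [if_neg (not_not.2 (e ▸ flat_mk.2 (h2 j hj)))]
      · simp
    refine le_trans ?_ h1
    rw [card_filter, ← sum_add_distrib]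
    refine sum_le_sum fun u _ => ?_
    have := parity_le _ _ _ (fam_gen h u)
    unfold kk
    split_ifs <;> omega
  · intro u hu J hJ h0 i hi
    have h1 := parity_ker _ _ _ (fam_gen h u) (by simpa [kk] using hu)
      (filter_subset_filter _ hJ) (by rw [sum_filter_flat, h0])
    by_contra hc
    exact notMem_empty i (h1 ▸ mem_filter.2 ⟨hi, hc⟩)

theorem KT.tail {u : Fin d} {q : Finset (Sym2 (Vx d)) × Vx d} {c : Cf d} (h : KT u (q :: c)) :
    KT u c := fun J hJ => h J (hJ.trans subset_union_right)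

theorem KT.one {u : Fin d} {q : Finset (Sym2 (Vx d)) × Vx d} {c : Cf d} (h : KT u (q :: c))
    {W : Finset (Sym2 (Vx d))} (hW : W ⊆ q.1) (h0 : ∑ e ∈ W, bdE (phu u) e = 0) :
    ∀ e ∈ W, flat u e := fun e he =>
  h _ ((image_subset_image hW).trans subset_union_left) (by rw [sum_tag, h0]) (c.length, e)
    (mem_image_of_mem _ he)

theorem KT.two {u : Fin d} {q q' : Finset (Sym2 (Vx d)) × Vx d} {c : Cf d}
    (h : KT u (q :: q' :: c)) {W W' : Finset (Sym2 (Vx d))} (hW : W ⊆ q.1) (hW' : W' ⊆ q'.1)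
    (h0 : ∑ e ∈ W, bdE (phu u) e + ∑ e ∈ W', bdE (phu u) e = 0) : ∀ e ∈ W, flat u e := by
  intro e he
  have h1 : (W'.image fun e => (c.length, e)) ⊆ fam (q' :: c) :=
    (image_subset_image hW').trans subset_union_left
  exact h _ (union_subset_union (image_subset_image hW) h1)
    (by rw [sum_union (tag_disj _ h1), sum_tag, sum_tag, h0]) ((q' :: c).length, e)
    (mem_union_left _ (mem_image_of_mem _ he))

theorem step_irrel {u : Fin d} {U : Finset (Fin d)} (hu : u ∉ U) (L : ℕ)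
    {S : Finset (Sym2 (Vx d))} {z : Vx d} (hz : z u = 0)
    (h1 : ∀ W ⊆ S, ∑ e ∈ W, bdE (phu u) e = 0 → ∀ e ∈ W, flat u e) {B B' : Set (Vx d)}
    (hB : ∀ y, y u = 0 → (y ∈ B ↔ y ∈ B')) :
    (∀ y, Ent (loc L (S.filter (dirIn U)) z) B' z y → y u = 0) ∧
    ∀ y, y u = 0 → (Ent (loc L (S.filter (dirIn (insert u U))) z) B z y ↔
      Ent (loc L (S.filter (dirIn U)) z) B' z y) ∧
      ∀ z', (y ∈ PP toLex (loc L (S.filter (dirIn (insert u U))) z) B z z' ↔
        y ∈ PP toLex (loc L (S.filter (dirIn U)) z) B' z z') := by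
  have a1 : ∀ y, Rch (S.filter (dirIn U)) z y → y u = 0 := fun y ⟨W, a, b⟩ => by
    rw [b.flat_eq fun e he => (mem_filter.1 (a he)).2 u hu, hz]
  have a2 : loc L (S.filter (dirIn U)) z ⊆ loc L (S.filter (dirIn (insert u U))) z :=
    loc_mono (monotone_filter_right _ fun e _ he j hj => he j fun h => hj (mem_insert_of_mem h))
  have a3 : ∀ e ∈ loc L (S.filter (dirIn U)) z, ∀ v ∈ e, (v ∈ B ↔ v ∈ B') :=
    fun e he v hv => hB v (a1 v (rch_of_loc he hv))
  have a4 : ∀ y W, y u = 0 → W ⊆ S.filter (dirIn (insert u U)) → Tr z y W →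
      W ⊆ S.filter (dirIn U) := by
    intro y W hy hW ht e he
    have := h1 W (hW.trans (filter_subset _ _))
      (by rw [ht.sum_bdE, phu_congr (hz.trans hy.symm), add_self_two]) e he
    refine mem_filter.2 ⟨(mem_filter.1 (hW he)).1, fun j hj => ?_⟩
    by_cases e' : j = u
    · exact e' ▸ this
    · exact (mem_filter.1 (hW he)).2 j (by simp [e', hj])
  refine ⟨fun y hy => a1 y (hy.rch.mono loc_subset), fun y hy => ?_⟩
  have a5 : ∀ W ⊆ loc L (S.filter (dirIn (insert u U))) z, Tr z y W →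
      W ⊆ loc L (S.filter (dirIn U)) z := by
    intro W hW ht e he
    have b1 := a4 y W hy (hW.trans loc_subset) ht
    obtain ⟨_, x, hx, W', b2, b3, b4⟩ := mem_loc.1 (hW he)
    exact mem_loc.2 ⟨b1 he, x, hx, W',
      a4 x W' (a1 x (ht.rch_vis b1 (Or.inr ⟨e, he, hx⟩))) b2 b3, b3, b4⟩
  exact ⟨by rw [← Ent_sub' a2 a5, Ent_congr a3], fun z' => by rw [← PP_sub a2 a5, PP_congr a3]⟩

/-- admissibility when only directions in `U` are used -/
def okU (L N : ℕ) (U : Finset (Fin d)) (fl : Prop) : Cf d → Vx d → Set (Vx d) → Prop :=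
  okG L N (stU toLex L (dirIn U) False) (nxU toLex L (dirIn U)) (stU toLex L (dirIn U) fl)

theorem okU_step {u : Fin d} {U : Finset (Fin d)} (hu : u ∉ U) {L N : ℕ} {fl : Prop}
    {q : Finset (Sym2 (Vx d)) × Vx d} {c : Cf d} (hK : KT u (q :: c)) (hfl : fl → c = [])
    {z : Vx d} (hz : z u = 0) {B B' : Set (Vx d)} (hB : ∀ y, y u = 0 → (y ∈ B ↔ y ∈ B'))
    (hq : okU L N (insert u U) fl (q :: c) z B → q.2 u = 0)
    (ih : ∀ (z : Vx d) (B B' : Set (Vx d)), z u = 0 → z ∉ B → (∀ y, y u = 0 → (y ∈ B ↔ y ∈ B')) →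
      (∀ q' ∈ c.head?, ∀ y, Rch q'.1 z y → y ∈ B → y u = 0) →
      (okU L N (insert u U) False c z B ↔ okU L N U False c z B')) :
    okU L N (insert u U) fl (q :: c) z B ↔ okU L N U fl (q :: c) z B' := by
  obtain ⟨s1, s2⟩ := step_irrel hu L hz (fun W => hK.one) hB
  by_cases h0 : q.2 u = 0
  swap
  · exact ⟨fun h => absurd (hq h) h0, fun h => absurd (s1 _ h.1.2.2.2.1) h0⟩
  have e1 : stU toLex L (dirIn (insert u U)) fl q.1 B z q.2 ↔ stU toLex L (dirIn U) fl q.1 B' z q.2 := by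
    unfold stU
    rw [(s2 _ h0).1, (s2 _ h0).2]
  change (_ ∧ _ ∧ _ ∧ _) ∧ _ ↔ (_ ∧ _ ∧ _ ∧ _) ∧ _
  rw [← e1]
  refine and_congr_right fun h => ?_
  cases c with
  | nil => rfl
  | cons q' c =>
    refine ih q.2 _ _ h0 (fun hm => by simpa using hfl (h.2.2.2.2.1 hm)) (fun y hy => (s2 y hy).2 _) ?_
    intro q'' hq'' y ⟨W', a', b'⟩ hy
    obtain rfl : q' = q'' := by simpa using hq''
    obtain ⟨W, a, b⟩ := PP_rch hy
    have := hK.two (a.trans (loc_subset.trans (filter_subset _ _))) a' (by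
      rw [b.sum_bdE, b'.sum_bdE, phu_congr (hz.trans h0.symm), add_self_two])
    rw [b.flat_eq this, hz]

theorem okU_tail {u : Fin d} {U : Finset (Fin d)} (hu : u ∉ U) {L N : ℕ} {c : Cf d}
    (hK : KT u c) (z : Vx d) (B B' : Set (Vx d)) (hz : z u = 0) (hzB : z ∉ B)
    (hB : ∀ y, y u = 0 → (y ∈ B ↔ y ∈ B'))
    (hc : ∀ q' ∈ c.head?, ∀ y, Rch q'.1 z y → y ∈ B → y u = 0) :
    okU L N (insert u U) False c z B ↔ okU L N U False c z B' := by
  induction c generalizing z B B' with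
  | nil => rfl
  | cons q c ih =>
    refine okU_step hu hK False.elim hz hB (fun h => ?_) (ih hK.tail)
    have h1 := h.1.2.2.2.1
    exact hc q (by simp) _ (h1.rch.mono (loc_subset.trans (filter_subset _ _))) (h1.mem hzB)

theorem PP_root_trail {α γ : Type*} [DecidableEq α] [LinearOrder γ] {rk : α → γ}
    {η : Finset (Sym2 α)} {z z' y : α} (h : y ∈ PP rk η {z}ᶜ z z') :
    ∃ W ⊆ η, Tr z y W ∧ s(z, z') ∉ W := by
  rcases h with k | ⟨w, a, b, W, c, e⟩
  · rw [Cl_root.1 k]; exact ⟨∅, empty_subset _, Tr.nil _, by simp⟩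
  · rw [Ent_root] at b
    have hz0 : ∀ e ∈ W, z ∉ e := fun e he hu => (mem_off.1 (c he)).2 z hu self_mem_Cl
    have t1 : Tr z w (insert s(z, w) ∅) := (Tr.nil z).snoc (by simp)
    refine ⟨_, union_subset (insert_subset b.2 (empty_subset _)) (c.trans off_subset),
      t1.append e (by
        rw [disjoint_insert_left]
        exact ⟨fun hm => hz0 _ hm (Sym2.mem_mk_left _ _), by simp⟩), ?_⟩
    rw [mem_union, not_or]
    refine ⟨?_, fun hm => hz0 _ hm (Sym2.mem_mk_left _ _)⟩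
    simp only [mem_insert, notMem_empty, or_false, Sym2.congr_right]
    rintro rfl
    exact lt_irrefl _ a

theorem okU_root {u : Fin d} {U : Finset (Fin d)} (hu : u ∉ U) {L N : ℕ} {fl : Prop} {c : Cf d}
    (hK : KT u c) (hfl : (fl ∧ c.length = 1) ∨ (¬ fl ∧ 2 ≤ c.length)) :
    okU L N (insert u U) fl c 0 {0}ᶜ ↔ okU L N U fl c 0 {0}ᶜ := by
  cases c with
  | nil => rfl
  | cons q c =>
    refine okU_step hu hK (fun h => ?_) rfl (fun _ _ => Iff.rfl) (fun h => ?_)
      (okU_tail hu hK.tail)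
    · exact List.length_eq_zero_iff.1 (by simpa [h] using hfl)
    have hs : loc L (q.1.filter (dirIn (insert u U))) 0 ⊆ q.1 :=
      loc_subset.trans (filter_subset _ _)
    have h1 := (Ent_root.1 h.1.2.2.2.1).2
    refine (flat_mk.1 (?_ : flat u s(0, q.2))).symm
    rcases hfl with ⟨hf, _⟩ | ⟨_, hl⟩
    · obtain ⟨W, a, b, e⟩ := PP_root_trail (h.1.2.2.2.2.2 hf)
      refine hK.one (insert_subset (hs h1) (a.trans hs)) ?_ _ (mem_insert_self _ _)
      rw [sum_insert e, b.sum_bdE, bdE_mk, add_self_two]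
    · cases c with
      | nil => simp at hl
      | cons q' c =>
        have h2 := h.2.1.2.2.2.1
        have h3 : q.2 ∉ PP toLex (loc L (q.1.filter (dirIn (insert u U))) 0) {0}ᶜ 0 q.2 :=
          fun hm => by simp_all [h.1.2.2.2.2.1 hm]
        obtain ⟨W, a, b, e⟩ := PP_root_trail (h2.mem h3)
        obtain ⟨W', a', b'⟩ := h2.rch
        refine hK.two (insert_subset (hs h1) (a.trans hs))
          (a'.trans (loc_subset.trans (filter_subset _ _))) ?_ _ (mem_insert_self _ _)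
        rw [sum_insert e, b.sum_bdE, b'.sum_bdE, bdE_mk]
        have t1 := add_self_two (phu u 0)
        have t2 := add_self_two (phu u q.2)
        have t3 := add_self_two (phu u q'.2)
        linear_combination (exp := 1) t1 + t2 + t3

section Newton

variable {ι : Type*} [DecidableEq ι]

/-- iterated difference of a set function -/
def dlt (g : Finset ι → ℝ) (U : Finset ι) : ℝ := ∑ T ∈ U.powerset, (-1) ^ (U.card + T.card) * g T

theorem dlt_insert (g : Finset ι → ℝ) {a : ι} {U : Finset ι} (ha : a ∉ U) :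
    dlt g (insert a U) = dlt (fun T => g (insert a T)) U - dlt g U := by
  unfold dlt
  rw [sum_powerset_insert ha, card_insert_of_notMem ha, add_comm, sub_eq_add_neg,
    ← sum_neg_distrib]
  congr 1
  · refine sum_congr rfl fun T hT => ?_
    rw [card_insert_of_notMem fun h => ha (mem_powerset.1 hT h)]
    ring
  · exact sum_congr rfl fun T _ => by ring

theorem sum_dlt (g : Finset ι → ℝ) (S : Finset ι) : ∑ U ∈ S.powerset, dlt g U = g S := by
  induction S using Finset.induction_on generalizing g with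
  | empty => simp [dlt]
  | insert a S ha ih =>
    rw [sum_powerset_insert ha, ← sum_add_distrib, ← ih fun T => g (insert a T)]
    exact sum_congr rfl fun U hU => by
      rw [dlt_insert g fun h => ha (mem_powerset.1 hU h)]; ring

theorem dlt_eq_zero {g : Finset ι → ℝ} {a : ι} {U : Finset ι} (ha : a ∈ U)
    (h : ∀ T ⊆ U, a ∉ T → g (insert a T) = g T) : dlt g U = 0 := by
  rw [← insert_erase ha, dlt_insert g (notMem_erase a U), sub_eq_zero]
  refine sum_congr rfl fun T hT => ?_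
  have := mem_powerset.1 hT
  simp only []
  rw [h T (this.trans (erase_subset _ _)) fun h => notMem_erase a U (this h)]

variable [Fintype ι]

/-- Newton extrapolation from small sets -/
def Nw (K : ℕ) (g : Finset ι → ℝ) : ℝ := ∑ U ∈ univ.powerset.filter fun U => U.card ≤ K, dlt g U

theorem Nw_eq {K : ℕ} {g : Finset ι → ℝ} (R : Finset ι) (hR : R.card ≤ K)
    (h : ∀ a, a ∉ R → ∀ T, a ∉ T → g (insert a T) = g T) : Nw K g = g univ := by
  rw [← sum_dlt g univ]
  refine sum_filter_of_ne fun U _ h0 => ?_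
  by_contra hc
  have : ¬ U ⊆ R := fun hs => hc ((card_le_card hs).trans hR)
  obtain ⟨a, ha, ha'⟩ := not_subset.1 this
  exact h0 (dlt_eq_zero ha fun T _ => h a ha' T)

theorem Nw_sum {κ : Type*} (K : ℕ) (s : Finset κ) (g : κ → Finset ι → ℝ) (w : κ → ℝ) :
    Nw K (fun U => ∑ c ∈ s, g c U * w c) = ∑ c ∈ s, Nw K (g c) * w c := by
  simp only [Nw, dlt, mul_sum, sum_mul, mul_assoc]
  rw [sum_comm]
  exact sum_congr rfl fun _ _ => sum_comm

theorem Nw_sub (K : ℕ) (g g' : Finset ι → ℝ) :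
    Nw K (fun U => g U - g' U) = Nw K g - Nw K g' := by
  simp only [Nw, dlt, mul_sub, sum_sub_distrib]

theorem abs_Nw_le (K : ℕ) {g : Finset ι → ℝ} {η : ℝ} (h : ∀ U, |g U| ≤ η) :
    |Nw K g| ≤ 4 ^ Fintype.card ι * η := by
  have h0 : 0 ≤ η := (abs_nonneg _).trans (h ∅)
  have h1 : ∀ U : Finset ι, |dlt g U| ≤ 2 ^ Fintype.card ι * η := by
    intro U
    refine (abs_sum_le_sum_abs _ _).trans ((sum_le_card_nsmul _ _ η fun T _ => ?_).trans ?_)
    · rw [abs_mul, abs_pow, abs_neg, abs_one, one_pow, one_mul]; exact h T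
    · rw [card_powerset, nsmul_eq_mul]
      push_cast
      exact mul_le_mul_of_nonneg_right (pow_le_pow_right₀ (by norm_num) (card_le_univ U)) h0
  refine (abs_sum_le_sum_abs _ _).trans ((sum_le_card_nsmul _ _ _ fun U _ => h1 U).trans ?_)
  rw [nsmul_eq_mul, ← mul_assoc, show (4 : ℝ) = 2 * 2 by norm_num, mul_pow]
  refine mul_le_mul_of_nonneg_right (mul_le_mul_of_nonneg_right ?_ (by positivity)) h0
  exact_mod_cast (card_filter_le _ _).trans (by simp)

theorem Nw_card (K : ℕ) (F : ℕ → ℝ) : Nw K (fun U : Finset ι => F U.card) =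
    ∑ u ∈ range (K + 1), (Fintype.card ι).choose u *
      ∑ v ∈ range (u + 1), (-1) ^ (u + v) * u.choose v * F v := by
  have h1 : ∀ U : Finset ι, dlt (fun U : Finset ι => F U.card) U =
      ∑ v ∈ range (U.card + 1), (-1) ^ (U.card + v) * U.card.choose v * F v := by
    intro U
    unfold dlt
    rw [sum_powerset_apply_card fun v => (-1 : ℝ) ^ (U.card + v) * F v]
    exact sum_congr rfl fun v _ => by rw [nsmul_eq_mul]; ring
  unfold Nw
  simp only [h1]
  rw [sum_filter, sum_powerset_apply_card fun u => if u ≤ K then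
    ∑ v ∈ range (u + 1), (-1 : ℝ) ^ (u + v) * u.choose v * F v else 0]
  simp only [nsmul_eq_mul, card_univ, mul_ite, mul_zero]
  rw [← sum_filter]
  refine sum_subset (fun u hu => by simp at hu ⊢; omega) fun u hu hu' => ?_
  rw [Nat.choose_eq_zero_of_lt (by simp at hu hu'; omega)]
  simp

end Newton

theorem okU_newton {L N K : ℕ} {fl : Prop} {c : Cf d}
    (hfl : (fl ∧ c.length = 1) ∨ (¬ fl ∧ 2 ≤ c.length)) :
    |ind (okU L N univ fl c 0 {0}ᶜ) - Nw K fun U => ind (okU L N U fl c 0 {0}ᶜ)| ≤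
      (1 + 4 ^ d) * ind (okG L N stF nxF stF c 0 ∅ ∧ ∑ u, kk c u + K < sa c) := by
  by_cases h : okG L N stF nxF stF c 0 ∅
  swap
  · have : ∀ U, ind (okU L N U fl c 0 {0}ᶜ) = 0 := fun U =>
      ind_neg fun h' => h (okG_fr stU_vE stU_vE _ h')
    simp only [this]
    rw [ind_neg fun h' => h h'.1]
    simp [Nw, dlt]
  by_cases hx : ∑ u, kk c u + K < sa c
  · rw [ind_pos (P := okG L N stF nxF stF c 0 ∅ ∧ _) ⟨h, hx⟩, mul_one]
    refine (abs_sub _ _).trans (add_le_add ?_ ?_)
    · rw [abs_of_nonneg (ind_nonneg _)]; exact ind_le_one _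
    · have := abs_Nw_le K (g := fun U => ind (okU L N U fl c 0 {0}ᶜ)) (η := 1) fun U => by
        rw [abs_of_nonneg (ind_nonneg _)]; exact ind_le_one _
      simpa using this
  · obtain ⟨R, h1, h2⟩ := exists_rel h
    rw [Nw_eq R (by omega) fun a ha T hT => ind_congr (okU_root hT (h2 a ha) hfl), sub_self,
      abs_zero]
    exact mul_nonneg (by positivity) (ind_nonneg _)

end HamPerc
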