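import Pool.Agent.Lib.MP_58a483_pr.Extrap

/-!
Choice of the cut-off parameters and the estimates inside the critical window.
-/

open Finset Filter Asymptotics

namespace HamPerc

variable {d n : ℕ}

/-- binary length -/
def ell (n : ℕ) : ℕ := Nat.log 2 n + 1

/-- exploration depth -/
def LL (d n : ℕ) : ℕ := 2 * (2 * d * (d * ell n))

/-- bound on the size of the explored ball -/
def NN (d n : ℕ) : ℕ := 300 * (LL d n + 1) ^ 2 * (d * ell n)

/-- bound on the size of shapes -/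
def BB (d K n : ℕ) : ℕ :=
  (K + 1) * (2 * NN d n + 1) * d + (K + 1) * ((2 * NN d n + 1) ^ 2 + NN d n)

/-- subpolynomial growth -/
def PL (f : ℕ → ℝ) : Prop := ∀ η : ℝ, 0 < η → f =o[atTop] fun n : ℕ => (n : ℝ) ^ η

namespace PL

variable {f g : ℕ → ℝ}

theorem add (hf : PL f) (hg : PL g) : PL fun n => f n + g n := fun η h => (hf η h).add (hg η h)

theorem mul (hf : PL f) (hg : PL g) : PL fun n => f n * g n := fun η h => by
  refine ((hf _ (half_pos h)).mul (hg _ (half_pos h))).congr' EventuallyEq.rfl ?_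
  filter_upwards [eventually_gt_atTop 0] with n hn
  rw [← Real.rpow_add (by exact_mod_cast hn), add_halves]

theorem const (c : ℝ) : PL fun _ => c := fun η h =>
  isLittleO_const_left.2 (Or.inr (tendsto_norm_atTop_atTop.comp
    ((tendsto_rpow_atTop h).comp tendsto_natCast_atTop_atTop)))

theorem pow (hf : PL f) (k : ℕ) : PL fun n => f n ^ k := by
  induction k with
  | zero => simpa using const 1
  | succ k ih => simpa only [pow_succ] using ih.mul hf

theorem le (hf : PL f) {η : ℝ} (h : 0 < η) : ∀ᶠ n : ℕ in atTop, f n ≤ (n : ℝ) ^ η :=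
  (hf η h).eventuallyLE.mono fun n hn => (le_abs_self _).trans
    (hn.trans (Real.norm_of_nonneg (by positivity)).le)

theorem le' (hf : PL f) : ∀ᶠ n : ℕ in atTop, f n ≤ n := by simpa using hf.le one_pos

end PL

theorem PL_ell : PL fun n => ell n := by
  unfold ell
  push_cast
  refine PL.add (fun η h => IsBigO.trans_isLittleO (IsBigO.of_bound (Real.log 2)⁻¹
    (Eventually.of_forall fun n => ?_))
    ((isLittleO_log_rpow_atTop h).comp_tendsto tendsto_natCast_atTop_atTop)) (PL.const 1)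
  have := Real.natLog_le_logb n 2
  rw [Real.norm_of_nonneg (by positivity), Function.comp_apply,
    Real.norm_of_nonneg (Real.log_natCast_nonneg n), ← div_eq_inv_mul]
  exact_mod_cast this

theorem PL_LL : PL fun n => LL d n := by
  unfold LL
  push_cast
  exact (PL.const _).mul ((PL.const _).mul ((PL.const _).mul PL_ell))

theorem PL_NN : PL fun n => NN d n := by
  unfold NN
  push_cast
  exact ((PL.const _).mul ((PL_LL.add (PL.const _)).pow 2)).mul ((PL.const _).mul PL_ell)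

theorem PL_BB (K : ℕ) : PL fun n => BB d K n := by
  unfold BB
  push_cast
  have := ((PL.const 2).mul (PL_NN (d := d))).add (PL.const 1)
  exact (((PL.const _).mul this).mul (PL.const _)).add ((PL.const _).mul ((this.pow 2).add PL_NN))

/-- cube root of the volume -/
noncomputable def WV (d n : ℕ) : ℝ := (n : ℝ) ^ ((d : ℝ) / 3)

theorem WV_cube : WV d n ^ 3 = (n : ℝ) ^ d := by
  rw [WV, ← Real.rpow_natCast, ← Real.rpow_mul (by positivity), ← Real.rpow_natCast]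
  congr 1; push_cast; ring

theorem le_WV (hd : 3 ≤ d) (hn : 1 ≤ n) : (n : ℝ) ≤ WV d n := by
  have : (3 : ℝ) ≤ d := by exact_mod_cast hd
  simpa [WV] using Real.rpow_le_rpow_of_exponent_le (x := n) (y := 1) (z := (d : ℝ) / 3)
    (by exact_mod_cast hn) (by linarith)

theorem WV_le (hn : 1 ≤ n) : (n : ℝ) ^ (1 / 3 : ℝ) * (n : ℝ)⁻¹ ^ (d / 3 + 1) ≤ (WV d n)⁻¹ := by
  have h0 : (0 : ℝ) < n := by exact_mod_cast hn
  rw [WV, inv_pow, ← Real.rpow_natCast, ← Real.rpow_neg h0.le, ← Real.rpow_neg h0.le,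
    ← Real.rpow_add h0]
  refine Real.rpow_le_rpow_of_exponent_le (by exact_mod_cast hn) ?_
  have : ((d + 1 : ℕ) : ℝ) ≤ (3 * (d / 3 + 1) : ℕ) := by exact_mod_cast (by omega)
  push_cast at this ⊢
  linarith

theorem regime (hd : 3 ≤ d) {Λ : ℝ} (hΛ : 1 ≤ Λ) : ∃ C : ℝ, 2 ≤ C ∧ ∀ᶠ n : ℕ in atTop, ∀ p : ℝ,
    0 ≤ p → p * n * d ≤ 1 + 1 / ((LL d n + 1 : ℕ) : ℝ) → chi d n p ≤ Λ * WV d n →
      PH p (edges d n) (box d n) (kap n) (n : ℝ)⁻¹ (Λ * WV d n * ((n : ℝ) ^ d)⁻¹) (Λ * WV d n) C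
        (chi d n p) ∧
      LH p (edges d n) (box d n) (Λ * WV d n * ((n : ℝ) ^ d)⁻¹) C (LL d n) (NN d n) := by
  have hd' : (3 : ℝ) ≤ d := by exact_mod_cast hd
  have a1 : (0 : ℝ) ≤ 3 ^ d := by positivity
  have a2 : (0 : ℝ) ≤ d ^ 2 := by positivity
  have a3 : (0 : ℝ) ≤ Λ ^ 3 := by positivity
  refine ⟨3 ^ d + 2 * d ^ 2 + (6 + d) + Λ ^ 3, by linarith, ?_⟩
  filter_upwards [(PL_LL (d := d)).le', (PL.const (Λ ^ 2)).le', eventually_ge_atTop 4]
    with n h1 h2 hn p hp0 hμ hχ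
  have hn' : (4 : ℝ) ≤ n := by exact_mod_cast hn
  have hW := le_WV hd (show 1 ≤ n by omega)
  have hX : (n : ℝ) ≤ Λ * WV d n := hW.trans (le_mul_of_one_le_left (by linarith) hΛ)
  have hR : n ^ d ≤ 2 ^ (d * ell n) := by
    rw [mul_comm, pow_mul]
    exact Nat.pow_le_pow_left (Nat.lt_pow_succ_log_self (by norm_num) n).le d
  have hl : 1 ≤ d * ell n := Nat.mul_pos (by omega) (Nat.succ_pos _)
  have hrw : RW d n p (Λ * WV d n) (2 * d * (d * ell n)) :=
  { n1 := by omega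
    d1 := by omega
    p0 := hp0
    p2 := by
      have : 1 / ((LL d n + 1 : ℕ) : ℝ) ≤ 1 := by
        rw [div_le_one (by positivity)]; exact_mod_cast Nat.le_add_left _ _
      nlinarith [mul_nonneg hp0 (show 0 ≤ (n : ℝ) * d - 4 by nlinarith)]
    dl := Nat.le_mul_of_pos_right _ hl
    mu := hμ.trans (add_le_add le_rfl (one_div_le_one_div_of_le
      (by exact_mod_cast Nat.mul_pos (by omega) hl) (by unfold LL; exact_mod_cast (by omega))))
    mix := by
      have b1 : (1 - 1 / (2 * (d : ℝ))) ^ (2 * d) ≤ 2⁻¹ := by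
        have c1 := Real.one_sub_div_pow_le_exp_neg (n := 2 * d) (t := 1)
          (by exact_mod_cast (by omega))
        push_cast at c1
        refine c1.trans ?_
        rw [Real.exp_neg]
        exact inv_anti₀ (by norm_num) (by linarith [Real.add_one_le_exp 1])
      rw [pow_mul]
      refine (pow_le_pow_left₀ (pow_nonneg ?_ _) b1 _).trans ?_
      · rw [sub_nonneg, div_le_one (by linarith)]; linarith
      · rw [inv_pow]
        exact inv_anti₀ (by positivity) (by exact_mod_cast hR)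
    lX := le_trans (le_trans (by unfold LL; exact_mod_cast (by omega)) h1) hX
    chiX := hχ }
  have hW0 : 0 < WV d n := by linarith
  refine ⟨hrw.ph (by linarith) (by linarith) (by linarith) hX ?_ ?_,
    hrw.lh (by linarith) hX le_rfl hμ le_rfl hR⟩
  · rw [← WV_cube]
    calc _ = Λ ^ 2 / WV d n := by field_simp
      _ ≤ 1 := by rw [div_le_one hW0]; linarith
  · rw [← WV_cube]
    calc _ = Λ ^ 3 := by field_simp
      _ ≤ _ := by linarith

theorem first_order {p ν δ X C : ℝ} {L N v : ℕ} (hn : 1 ≤ n)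
    (h : PH p (edges d n) (box d n) (kap n) ν δ X C (chi d n p))
    (hl : LH p (edges d n) (box d n) δ C L N) (hp : p * n * d ≤ C) (hv : v ≤ d) :
    |1 - (chi v n p)⁻¹ - p * (v * (n - 1))| ≤
      (2 * (32 * C ^ 8 * (22 * C ^ 6)) + 2 * C ^ 2) * (ν + X * δ) := by
  obtain ⟨U, _, rfl⟩ := exists_subset_card_eq (s := (univ : Finset (Fin d))) (n := v) (by simpa)
  have hz := zero_mem_box (d := d) hn
  have hU : PH p (edU d n U) (box d n) (kap n) ν δ X C (chi U.card n p) :=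
    h.sub _ fun x hx => (chiU_trans U hx).trans (chiU_eq hn p U)
  have hL : LH p (edU d n U) (box d n) δ C L N := hl.sub h.p0 h.p1 _
  have e : ∑ a, ind (a ∈ U) * ((n - 1 : ℕ) : ℝ) = U.card * (n - 1) := by
    rw [← sum_mul, sum_ind, Nat.cast_sub hn]; simp
  have a1 := hU.expansion hL toLex.injective hz 0
  have a2 := hU.Th_zero (rk := toLex) hL hz
  have a3 := hU.R0_bound (rk := toLex) (L := L) (N := N) hz (by
    rw [deg_edU hn, e]
    refine le_trans ?_ hp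
    rw [mul_assoc, mul_comm (n : ℝ)]
    exact mul_le_mul_of_nonneg_left (mul_le_mul (by exact_mod_cast hv) (by linarith)
      (by rw [sub_nonneg]; exact_mod_cast hn) (by positivity)) h.p0)
  rw [deg_edU hn, e] at a2
  simp only [zero_add, range_one, sum_singleton, pow_zero, one_mul, pow_one, Nat.cast_zero] at a1
  have b1 := mul_le_mul_of_nonneg_left h.dX (sq_nonneg C)
  have b2 := mul_nonneg (sq_nonneg C) h.n0
  rw [abs_le] at *
  constructor <;> nlinarith [a1.1, a1.2, a2.1, a2.2, a3.1, a3.2]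

theorem first_ev (hd : 3 ≤ d) {Λ : ℝ} (hΛ : 1 ≤ Λ) : ∃ C : ℝ, ∀ᶠ n : ℕ in atTop, ∀ p : ℝ,
    0 ≤ p → p * n * d ≤ 1 + 1 / ((LL d n + 1 : ℕ) : ℝ) → chi d n p ≤ Λ * WV d n →
      ∀ v ≤ d, |1 - (chi v n p)⁻¹ - p * n * v| ≤ C * (n : ℝ)⁻¹ := by
  obtain ⟨C, hC, h⟩ := regime hd hΛ
  refine ⟨(2 * (32 * C ^ 8 * (22 * C ^ 6)) + 2 * C ^ 2) * (1 + Λ ^ 2) + 2, ?_⟩
  filter_upwards [h, eventually_ge_atTop 1] with n h hn p hp0 hμ hχ v hv
  have h0 : (0 : ℝ) < n := by exact_mod_cast hn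
  have h2 : p * n * d ≤ 2 := hμ.trans (by
    have : 1 / ((LL d n + 1 : ℕ) : ℝ) ≤ 1 := by
      rw [div_le_one (by positivity)]; exact_mod_cast Nat.le_add_left _ _
    linarith)
  obtain ⟨a, b⟩ := h p hp0 hμ hχ
  have h3 := first_order hn a b (h2.trans hC) hv
  have hW := le_WV hd hn
  have h4 : Λ * WV d n * (Λ * WV d n * ((n : ℝ) ^ d)⁻¹) ≤ Λ ^ 2 * (n : ℝ)⁻¹ := by
    rw [← WV_cube]
    calc _ = Λ ^ 2 * (WV d n)⁻¹ := by have := h0.trans_le hW; field_simp
      _ ≤ _ := mul_le_mul_of_nonneg_left (inv_anti₀ h0 hW) (by positivity)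
  have h5 : p * v ≤ 2 * (n : ℝ)⁻¹ := by
    rw [le_mul_inv_iff₀ h0]
    have : (v : ℝ) ≤ d := by exact_mod_cast hv
    nlinarith [mul_nonneg hp0 h0.le]
  have h6 := h3.trans (mul_le_mul_of_nonneg_left (add_le_add le_rfl h4) (by positivity))
  have h7 : 0 ≤ p * v := by positivity
  rw [abs_le] at *
  constructor <;> nlinarith [h6.1, h6.2]

theorem one_le_chi {p : ℝ} (hn : 1 ≤ n) (h0 : 0 ≤ p) (h1 : p ≤ 1) : 1 ≤ chi d n p :=
  chi_zero (d := d) hn ▸ chi_mono le_rfl h0 h1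

theorem bootstrap (hd : 3 ≤ d) {Λ : ℝ} (hΛ : 1 ≤ Λ) : ∀ᶠ n : ℕ in atTop, ∀ p : ℝ,
    0 ≤ p → p ≤ 1 → chi d n p ≤ Λ * WV d n → p * n * d ≤ 1 + 1 / ((LL d n + 1 : ℕ) : ℝ) := by
  obtain ⟨C, h⟩ := first_ev hd hΛ
  filter_upwards [h, eventually_ge_atTop 1, ((PL.const C).mul ((PL_LL (d := d)).add
    (PL.const 1))).le'] with n h hn hC p hp0 hp1 hχ
  have h0 : (0 : ℝ) < n := by exact_mod_cast hn
  have hd' : (0 : ℝ) < d := by exact_mod_cast (by omega : 0 < d)
  by_contra hc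
  set q := (1 + 1 / ((LL d n + 1 : ℕ) : ℝ)) / (n * d) with hq
  have e : q * n * d = 1 + 1 / ((LL d n + 1 : ℕ) : ℝ) := by rw [hq]; field_simp
  have hq0 : 0 ≤ q := by positivity
  have hqp : q ≤ p := by rw [hq, div_le_iff₀ (by positivity), ← mul_assoc]; linarith
  have h1 := (abs_le.1 (h q hq0 e.le ((chi_mono hq0 hqp hp1).trans hχ) d le_rfl)).1
  have h2 := inv_pos.2 (one_pos.trans_le (one_le_chi (d := d) hn hq0 (hqp.trans hp1)))
  have h3 : C * (n : ℝ)⁻¹ ≤ 1 / ((LL d n + 1 : ℕ) : ℝ) := by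
    rw [mul_inv_le_iff₀ h0, one_div_mul_eq_div, le_div_iff₀ (by positivity)]
    exact_mod_cast hC
  linarith

theorem window (hd : 3 ≤ d) {lam : ℝ} (hl : 0 < lam) : ∃ C : ℝ, ∀ᶠ n : ℕ in atTop, ∀ p : ℝ,
    0 ≤ p → p ≤ 1 → chi d n p = lam * WV d n → |p * n * d - 1| ≤ C * (n : ℝ)⁻¹ ∧
      |∑ u ∈ range (d / 3 + 1), d.choose u *
        ∑ v ∈ range (u + 1), (-1) ^ (u + v) * u.choose v * (chi v n p)⁻¹| ≤ C * (WV d n)⁻¹ := by
  set Λ := max lam 1
  have hΛ : 1 ≤ Λ := le_max_right _ _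
  obtain ⟨C1, h1⟩ := first_ev hd hΛ
  obtain ⟨C, hC, h2⟩ := regime hd hΛ
  set K := d / 3 with hK
  set C2 := (1 + 4 ^ d) * ((K + 2) * (32 * C ^ 8 * (22 * C ^ 6) ^ (K + 1)) * (1 + Λ ^ 2) +
    C ^ 2 * Λ ^ 2 + (K + 1) * 2) with hC2
  refine ⟨lam⁻¹ + |C1| + C2, ?_⟩
  filter_upwards [h1, h2, bootstrap hd hΛ, eventually_ge_atTop 2,
    ((PL.const 2).mul ((PL_BB (d := d) K).pow 2)).le', (PL.const (C * Λ)).le',
    ((((PL.const 6).mul (PL_NN (d := d))).pow (K + 1)).mul (PL.const (C * Λ))).le',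
    (((PL.const 12).mul (((PL.const 2).mul ((PL_BB (d := d) K).pow 2)).pow (K + 1))).mul
      (((PL.const 2).mul (PL_NN (d := d))).pow (K + 1))).le (η := 1 / 3) (by norm_num)]
    with n h1 h2 h3 hn h4 h5 h6 h7 p hp0 hp1 hχ
  have hn1 : 1 ≤ n := by omega
  have hn' : (2 : ℝ) ≤ n := by exact_mod_cast hn
  have hd' : (3 : ℝ) ≤ d := by exact_mod_cast hd
  have hW := le_WV hd hn1
  have hW0 : 0 < WV d n := by linarith
  have hw : (WV d n)⁻¹ ≤ (n : ℝ)⁻¹ := inv_anti₀ (by linarith) hW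
  have hX : chi d n p ≤ Λ * WV d n := hχ ▸ mul_le_mul_of_nonneg_right (le_max_left _ _) hW0.le
  have hμ := h3 p hp0 hp1 hX
  have hC20 : 0 ≤ C2 := by positivity
  have hi : (chi d n p)⁻¹ = lam⁻¹ * (WV d n)⁻¹ := by rw [hχ, mul_inv]
  have hi0 : 0 < lam⁻¹ * (WV d n)⁻¹ := by positivity
  constructor
  · have a1 := (h1 p hp0 hμ hX d le_rfl).trans
      (mul_le_mul_of_nonneg_right (le_abs_self C1) (by positivity))
    have a2 := mul_le_mul_of_nonneg_left hw (inv_pos.2 hl).le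
    have a3 : 0 ≤ C2 * (n : ℝ)⁻¹ := by positivity
    rw [hi] at a1
    rw [abs_le] at *
    constructor <;> linarith [a1.1, a1.2]
  obtain ⟨a, b⟩ := h2 p hp0 hμ hX
  have hp2 := a.p2
  set s := -(n * Real.log (1 - p)) with hs
  have e : p = 1 - Real.exp (-(s / n)) := by
    rw [hs, neg_div, neg_neg, mul_div_cancel_left₀ _ (by linarith), Real.exp_log (by linarith)]
    ring
  have s0 : 0 ≤ s := neg_nonneg.2 (mul_nonpos_of_nonneg_of_nonpos (by positivity)
    (Real.log_nonpos (by linarith) (by linarith)))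
  have s1 : s ≤ 1 := by
    have c1 := Real.one_sub_inv_le_log_of_pos (x := 1 - p) (by linarith)
    have c2 : (1 - p)⁻¹ ≤ 1 + 3 / 2 * p := by
      have : 1 / ((LL d n + 1 : ℕ) : ℝ) ≤ 1 := by
        rw [div_le_one (by positivity)]; exact_mod_cast Nat.le_add_left _ _
      have : p ≤ 1 / 3 := by nlinarith [mul_nonneg hp0 (show 0 ≤ (n : ℝ) * d - 6 by nlinarith)]
      rw [inv_le_iff_one_le_mul₀ (by linarith)]; nlinarith
    have c3 : 1 / ((LL d n + 1 : ℕ) : ℝ) ≤ 1 := by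
      rw [div_le_one (by positivity)]; exact_mod_cast Nat.le_add_left _ _
    have c4 : p * n * 3 ≤ p * n * d := mul_le_mul_of_nonneg_left hd' (by positivity)
    nlinarith
  have e1 : Λ * WV d n * ((n : ℝ) ^ d)⁻¹ = Λ * (WV d n)⁻¹ * (WV d n)⁻¹ := by
    rw [← WV_cube]; field_simp
  have e2 : Λ * WV d n * (Λ * (WV d n)⁻¹ * (WV d n)⁻¹) = Λ ^ 2 * (WV d n)⁻¹ := by field_simp
  have w1 : ∀ x : ℝ, x ≤ n → x * (WV d n)⁻¹ ≤ 1 := fun x hx => by
    rw [mul_inv_le_iff₀ hW0]; linarith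
  have w0 : 0 < (WV d n)⁻¹ := by positivity
  have w2 : (WV d n)⁻¹ ≤ 1 := by simpa using w1 1 (by linarith)
  rw [e1] at a b
  rw [e] at a b hi ⊢
  have hN : 1 ≤ NN d n := Nat.mul_pos (by positivity) (Nat.mul_pos (by omega) (Nat.succ_pos _))
  have h8 := newton_chi (K := K) (B := BB d K n) s0 s1 a b (by omega) hN le_rfl
    (by exact_mod_cast h4) (by
      have := mul_le_mul (w1 _ h5) w2 w0.le zero_le_one
      linarith)
  have c1 := WV_le (d := d) hn1
  have c2 : (n : ℝ)⁻¹ ^ (K + 1) ≤ (WV d n)⁻¹ := le_trans (le_mul_of_one_le_left (by positivity)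
    (Real.one_le_rpow (by linarith) (by norm_num))) c1
  have c3 : (6 * NN d n : ℝ) ^ (K + 1) * (C * (Λ * (WV d n)⁻¹ * (WV d n)⁻¹)) ≤ (WV d n)⁻¹ := by
    have := mul_le_mul_of_nonneg_right (w1 _ h6) w0.le
    linarith
  have c4 : 12 * ((2 * BB d K n ^ 2 : ℕ) * (n : ℝ)⁻¹) ^ (K + 1) * (2 * NN d n) ^ (K + 1) ≤
      (WV d n)⁻¹ := by
    refine le_trans ?_ ((mul_le_mul_of_nonneg_right h7 (by positivity)).trans c1)
    push_cast
    rw [mul_pow _ (n : ℝ)⁻¹]
    exact le_of_eq (by ring)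
  rw [e2, hi] at h8
  have h9 : _ ≤ C2 * (WV d n)⁻¹ := h8.trans (by
    rw [hC2, mul_assoc (1 + 4 ^ d : ℝ)]
    refine mul_le_mul_of_nonneg_left ?_ (by positivity)
    have d1 := mul_le_mul_of_nonneg_left c2
      (show 0 ≤ (K + 2) * (32 * C ^ 8 * (22 * C ^ 6) ^ (K + 1)) by positivity)
    have d2 := mul_le_mul_of_nonneg_left (add_le_add c3 c4) (show (0 : ℝ) ≤ K + 1 by positivity)
    linarith)
  have a3 : 0 ≤ |C1| * (WV d n)⁻¹ := by positivity
  rw [abs_le] at *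
  constructor <;> linarith [h9.1, h9.2]

end HamPerc
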