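import Pool.Agent.Lib.MP_58a483_pr.Coef
import Pool.Agent.Lib.MP_58a483_pr.Regime
import Pool.Agent.Lib.MP_58a483_pr.Implicit

/-!
The expansion of the critical value.
-/

open Finset Filter Topology Asymptotics

namespace HamPerc

variable {d n : ℕ}

/-- coefficient of `n ^ (- i)` in the subcritical susceptibility at `p = σ / n` -/
noncomputable def XX (v i : ℕ) (σ : ℝ) : ℝ := ∑' k, (QQ v k).coeff i * σ ^ k

theorem par (hd : 3 ≤ d) {v : ℕ} (hv : v ≤ d / 3) : (0 : ℝ) < 3 / (2 * d) ∧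
    (3 / (2 * d) : ℝ) ≤ 1 / 2 ∧ v * (3 / (2 * d) : ℝ) ≤ 1 / 2 := by
  have h1 : (3 : ℝ) ≤ d := by exact_mod_cast hd
  have h2 : ((3 * v : ℕ) : ℝ) ≤ d := by exact_mod_cast (by omega)
  push_cast at h2
  refine ⟨by positivity, ?_, ?_⟩
  · rw [div_le_iff₀ (by positivity)]; linarith
  · rw [← mul_div_assoc, div_le_iff₀ (by positivity)]; linarith

theorem XX_analytic (hd : 3 ≤ d) {v : ℕ} (hv : v ≤ d / 3) (i : ℕ) {σ : ℝ}
    (h : |σ| < 3 / 4 * (3 / (2 * d))) : AnalyticAt ℝ (XX v i) σ := by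
  obtain ⟨a, b, c⟩ := par hd hv
  obtain ⟨C, hC⟩ := coef_le a b c i
  exact analytic_tsum (by positivity) hC h

theorem XX_small (hd : 3 ≤ d) {v : ℕ} (hv : v ≤ d / 3) {σ : ℝ} (h0 : 0 ≤ σ)
    (h : σ ≤ 1 / (2 * d)) : (1 - v * σ) * XX v 0 σ = 1 := by
  obtain ⟨a, b, c⟩ := par hd hv
  have hd' : (3 : ℝ) ≤ d := by exact_mod_cast hd
  obtain ⟨C, hC⟩ := chi_exp a b c 0 (ρ := 1 / 2) (by norm_num) (by norm_num)
  obtain ⟨C', hC'⟩ := first_ev hd (Λ := 2) (by norm_num)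
  have hσ : σ * d ≤ 1 / 2 := by
    rw [le_div_iff₀ (by positivity)] at h; linarith
  have hp : ∀ n : ℕ, 1 ≤ n → σ * (n : ℝ)⁻¹ ≤ 1 / 2 := fun n hn =>
    (mul_le_of_le_one_right h0 (inv_le_one' hn)).trans (by nlinarith)
  have t0 := tendsto_inv_atTop_nhds_zero_nat (𝕜 := ℝ)
  have t1 : Tendsto (fun n : ℕ => chi v n (σ * (n : ℝ)⁻¹)) atTop (𝓝 (XX v 0 σ)) := by
    rw [tendsto_iff_norm_sub_tendsto_zero]
    refine squeeze_zero' (Eventually.of_forall fun _ => norm_nonneg _) ?_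
      (mul_zero C ▸ t0.const_mul C)
    filter_upwards [eventually_ge_atTop 2] with n hn
    simpa [XX] using hC n hn σ h0 (h.trans (by
      rw [div_le_iff₀ (by positivity)]; field_simp; norm_num))
  have t2 : Tendsto (fun n : ℕ => (chi v n (σ * (n : ℝ)⁻¹))⁻¹) atTop (𝓝 (1 - v * σ)) := by
    rw [tendsto_iff_norm_sub_tendsto_zero]
    refine squeeze_zero' (Eventually.of_forall fun _ => norm_nonneg _) ?_
      (mul_zero C' ▸ t0.const_mul C')
    filter_upwards [hC', eventually_ge_atTop 1] with n h1 hn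
    have h2 : (1 : ℝ) ≤ n := by exact_mod_cast hn
    have e : σ * (n : ℝ)⁻¹ * n = σ := by field_simp
    have := h1 (σ * (n : ℝ)⁻¹) (by positivity) (by
      rw [e]; exact hσ.trans (le_add_of_le_of_nonneg (by norm_num) (by positivity))) ?_ v (by omega)
    · rw [e] at this
      rw [Real.norm_eq_abs, ← abs_neg]
      exact le_of_eq_of_le (by congr 1; ring) this
    · have a1 := chi_le (d := d) (by positivity) (hp n hn) hn
      have a2 := one_le_chi (d := d) hn (show 0 ≤ σ * (n : ℝ)⁻¹ by positivity)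
        ((hp n hn).trans (by norm_num))
      have a3 : σ * (n : ℝ)⁻¹ * (d * (n - 1) : ℕ) ≤ 1 / 2 := by
        have : ((d * (n - 1) : ℕ) : ℝ) ≤ d * n := by
          exact_mod_cast Nat.mul_le_mul_left d (Nat.sub_le n 1)
        refine (mul_le_mul_of_nonneg_left this (by positivity)).trans (le_of_eq_of_le ?_ hσ)
        field_simp
      nlinarith [le_WV hd hn]
  refine tendsto_nhds_unique (t2.mul t1) (tendsto_const_nhds.congr' ?_)
  filter_upwards [eventually_ge_atTop 1] with n hn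
  rw [inv_mul_cancel₀ (one_pos.trans_le (one_le_chi hn (by positivity)
    ((hp n hn).trans (by norm_num)))).ne']

theorem XX_zero (hd : 3 ≤ d) {v : ℕ} (hv : v ≤ d / 3) {σ : ℝ}
    (h : |σ| < 3 / 4 * (3 / (2 * d))) : (1 - v * σ) * XX v 0 σ = 1 := by
  have hd' : (3 : ℝ) ≤ d := by exact_mod_cast hd
  have h1 : AnalyticOnNhd ℝ (fun σ => (1 - v * σ) * XX v 0 σ)
      (Metric.ball 0 (3 / 4 * (3 / (2 * d)))) := fun x hx =>
    AnalyticAt.fun_mul (by fun_prop) (XX_analytic hd hv 0 (mem_ball_zero_iff.1 hx))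
  have h2 : (0 : ℝ) < 1 / (4 * d) := by positivity
  have h3 : (1 : ℝ) / (4 * d) < 1 / (2 * d) := one_div_lt_one_div_of_lt (by linarith) (by linarith)
  refine h1.eqOn_of_preconnected_of_eventuallyEq analyticOnNhd_const
    (convex_ball _ _).isPreconnected (z₀ := 1 / (4 * d)) ?_ ?_ (mem_ball_zero_iff.2 h)
  · rw [mem_ball_zero_iff, Real.norm_of_nonneg h2.le, div_lt_iff₀ (by positivity)]
    field_simp; norm_num
  · filter_upwards [Icc_mem_nhds h2 h3] with x hx using XX_small hd hv hx.1 hx.2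

/-- Newton extrapolation of the truncated inverse susceptibilities -/
noncomputable def PS (d : ℕ) (q : ℝ × ℝ) : ℝ := ∑ u ∈ range (d / 3 + 1), d.choose u *
  ∑ v ∈ range (u + 1), (-1) ^ (u + v) * u.choose v *
    (∑ i ∈ range (d / 3 + 1), q.1 ^ i * XX v i q.2)⁻¹

theorem inv_lt_rad (hd : 3 ≤ d) : |(1 / d : ℝ)| < 17 / 18 * (3 / 4 * (3 / (2 * d))) ∧
    17 / 18 * (3 / 4 * (3 / (2 * d))) < (3 / 4 * (3 / (2 * d)) : ℝ) := by
  have hd' : (3 : ℝ) ≤ d := by exact_mod_cast hd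
  refine ⟨?_, mul_lt_of_lt_one_left (by positivity) (by norm_num)⟩
  rw [abs_of_pos (by positivity), div_lt_iff₀ (by positivity)]
  field_simp; norm_num

theorem PS_analytic (hd : 3 ≤ d) : AnalyticAt ℝ (PS d) (0, 1 / d) := by
  have h := (inv_lt_rad hd).1.trans (inv_lt_rad hd).2
  refine analyticAt_fun_sum _ fun u hu => analyticAt_const.fun_mul
    (analyticAt_fun_sum _ fun v hv => analyticAt_const.fun_mul (AnalyticAt.fun_inv
      (analyticAt_fun_sum _ fun i _ => (analyticAt_fst.fun_pow i).fun_mul ?_) ?_))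
  all_goals have hv' : v ≤ d / 3 := by rw [mem_range] at hu hv; omega
  · exact (XX_analytic hd hv' i h).comp_of_eq analyticAt_snd rfl
  · simpa [sum_range_succ'] using right_ne_zero_of_mul_eq_one (XX_zero hd hv' h)

theorem newton_lin {K : ℕ} (hK : 1 ≤ K) (σ : ℝ) : ∑ u ∈ range (K + 1), d.choose u *
    ∑ v ∈ range (u + 1), (-1) ^ (u + v) * u.choose v * (1 - v * σ) = 1 - d * σ := by
  have h1 := Nw_card (ι := Fin d) K fun v => 1 - v * σ
  rw [Fintype.card_fin] at h1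
  have e : ∀ U : Finset (Fin d), U.card * σ = ∑ a, ind (a ∈ U) * σ := fun U => by
    rw [← sum_mul, sum_ind]; simp
  rw [← h1, Nw_sub, Nw_eq ∅ (by simp) fun _ _ _ _ => rfl]
  simp only [e]
  rw [Nw_sum, sum_congr rfl (g := fun _ => σ)]
  · simp
  intro a _
  rw [Nw_eq {a} (by simpa using hK), ind_pos (mem_univ _), one_mul]
  intro b hb T _
  exact ind_congr (by simp at hb; simp [Ne.symm hb])

theorem PS_zero (hd : 3 ≤ d) : ∀ᶠ σ in 𝓝 (1 / d : ℝ), PS d (0, σ) = d * (1 / d - σ) := by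
  have h := (inv_lt_rad hd).1.trans (inv_lt_rad hd).2
  have hd' : (3 : ℝ) ≤ d := by exact_mod_cast hd
  filter_upwards [(continuous_abs.tendsto _).eventually (gt_mem_nhds h)] with σ hσ
  rw [mul_sub, mul_one_div_cancel (by linarith), ← newton_lin (K := d / 3) (by omega)]
  refine sum_congr rfl fun u hu => congrArg _ (sum_congr rfl fun v hv => congrArg _ ?_)
  have hv' : v ≤ d / 3 := by rw [mem_range] at hu hv; omega
  simpa [sum_range_succ'] using (eq_inv_of_mul_eq_one_left (XX_zero hd hv' hσ)).symm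

theorem PS_approx (hd : 3 ≤ d) : ∃ C : ℝ, ∀ᶠ n : ℕ in atTop, ∀ σ : ℝ, 0 ≤ σ →
    σ ≤ 17 / 18 * (3 / 4 * (3 / (2 * d))) →
    |PS d ((n : ℝ)⁻¹, σ) - ∑ u ∈ range (d / 3 + 1), d.choose u *
      ∑ v ∈ range (u + 1), (-1) ^ (u + v) * u.choose v * (chi v n (σ * (n : ℝ)⁻¹))⁻¹| ≤
      C * (n : ℝ)⁻¹ ^ (d / 3 + 1) := by
  have h1 := fun v (hv : v ≤ d / 3) => chi_exp (par hd hv).1 (par hd hv).2.1 (par hd hv).2.2
    (d / 3) (ρ := 17 / 18) (by norm_num) (by norm_num)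
  choose! C hC using h1
  set C' := ∑ v ∈ range (d / 3 + 1), |C v| with hC'
  have h2 : ∀ v ≤ d / 3, C v ≤ C' := fun v hv => (le_abs_self _).trans
    (single_le_sum (f := fun v => |C v|) (fun _ _ => abs_nonneg _) (mem_range.2 (by omega)))
  have h3 : 0 ≤ C' := sum_nonneg fun _ _ => abs_nonneg _
  refine ⟨∑ u ∈ range (d / 3 + 1), d.choose u * ∑ v ∈ range (u + 1), u.choose v * (2 * C'), ?_⟩
  filter_upwards [eventually_ge_atTop 2, (PL.const (2 * C')).le'] with n hn h4 σ h5 h6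
  have hn1 : 1 ≤ n := by omega
  have h0 : (0 : ℝ) < n := by exact_mod_cast hn1
  rw [PS, ← sum_sub_distrib, sum_mul]
  refine (abs_sum_le_sum_abs _ _).trans (sum_le_sum fun u hu => ?_)
  rw [← mul_sub, abs_mul, abs_of_nonneg (by positivity), mul_assoc, ← sum_sub_distrib, sum_mul]
  refine mul_le_mul_of_nonneg_left ((abs_sum_le_sum_abs _ _).trans (sum_le_sum fun v hv => ?_))
    (by positivity)
  have hv' : v ≤ d / 3 := by rw [mem_range] at hu hv; omega
  rw [← mul_sub, abs_mul, abs_mul, abs_pow, abs_neg, abs_one, one_pow, one_mul,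
    abs_of_nonneg (by positivity), mul_assoc]
  refine mul_le_mul_of_nonneg_left ?_ (by positivity)
  have a1 := (hC v hv' n hn σ h5 h6).trans (mul_le_mul_of_nonneg_right (h2 v hv') (by positivity))
  have a2 := one_le_chi (d := v) hn1 (show 0 ≤ σ * (n : ℝ)⁻¹ by positivity)
    (mul_le_one₀ (by linarith [(par hd hv').2.1, (par hd hv').1]) (by positivity) (inv_le_one' hn1))
  have a3 : C' * (n : ℝ)⁻¹ ^ (d / 3 + 1) ≤ 1 / 2 := by
    refine (mul_le_mul_of_nonneg_left (pow_le_of_le_one (by positivity) (inv_le_one' hn1)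
      (by omega)) h3).trans ?_
    rw [mul_inv_le_iff₀ h0]; linarith
  change |_ - ∑ i ∈ range (d / 3 + 1), (n : ℝ)⁻¹ ^ i * XX v i σ| ≤ _ at a1
  generalize ∑ i ∈ range (d / 3 + 1), (n : ℝ)⁻¹ ^ i * XX v i σ = B at *
  generalize chi v n (σ * (n : ℝ)⁻¹) = A at *
  have a4 : 1 / 2 ≤ B := by linarith [(abs_le.1 a1).2]
  rw [inv_sub_inv (by linarith) (by linarith), abs_div, abs_of_pos (show 0 < B * A by positivity),
    div_le_iff₀ (by positivity), mul_assoc 2]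
  nlinarith [mul_le_mul_of_nonneg_left (show 1 / 2 ≤ B * A by nlinarith)
    ((abs_nonneg _).trans a1)]

theorem main (hd : 3 ≤ d) {a : ℕ → ℝ} (ha : a 0 = 1 / d)
    (h : (fun ε => PS d (ε, ∑ i ∈ range (d / 3 + 1), a i * ε ^ i)) =O[𝓝 0]
      fun ε : ℝ => ε ^ (d / 3 + 1)) {lam : ℝ} (hl : 0 < lam) :
    ∃ C : ℝ, ∀ᶠ n : ℕ in atTop, ∀ p : ℝ, 0 ≤ p → p ≤ 1 → chi d n p = lam * WV d n →
      |p * n - ∑ i ∈ range (d / 3 + 1), a i * (n : ℝ)⁻¹ ^ i| ≤ C * (WV d n)⁻¹ := by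
  have hd' : (3 : ℝ) ≤ d := by exact_mod_cast hd
  obtain ⟨C1, h1⟩ := window hd hl
  obtain ⟨C2, h2⟩ := PS_approx hd
  obtain ⟨C3, h3⟩ := h.bound
  have h4 := (bilip (by linarith) (PS_analytic hd) (PS_zero hd)).and
    ((continuous_snd.fst.abs.tendsto _).eventually (gt_mem_nhds (inv_lt_rad hd).1))
  obtain ⟨η, hη, h4⟩ := Metric.eventually_nhds_iff.1 h4
  have t0 := tendsto_inv_atTop_nhds_zero_nat (𝕜 := ℝ)
  have t1 := (tendsto_poly a (d / 3)).comp t0
  rw [ha] at t1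
  refine ⟨(C1 + |C2| + |C3|) / (d / 2), ?_⟩
  filter_upwards [h1, h2, t0.eventually h3, t0.eventually (Metric.ball_mem_nhds _ hη),
    t1.eventually (Metric.ball_mem_nhds _ hη), eventually_ge_atTop 1,
    (mul_zero C1 ▸ t0.const_mul C1).eventually (gt_mem_nhds hη)]
    with n h1 h2 h3 h5 h6 hn h7 p hp0 hp1 hχ
  have h0 : (0 : ℝ) < n := by exact_mod_cast hn
  obtain ⟨b1, b2⟩ := h1 p hp0 hp1 hχ
  have b3 : dist (p * n) (1 / d) < η := by
    refine lt_of_le_of_lt (le_trans ?_ b1) h7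
    rw [Real.dist_eq, show p * n * d - 1 = d * (p * n - 1 / d) by field_simp, abs_mul]
    exact le_mul_of_one_le_left (abs_nonneg _) (le_trans (by linarith) (le_abs_self _))
  obtain ⟨⟨b4, _⟩, b5⟩ := h4 (y := ((n : ℝ)⁻¹, p * n,
    ∑ i ∈ range (d / 3 + 1), a i * (n : ℝ)⁻¹ ^ i)) (max_lt h5 (max_lt b3 h6))
  have b6 := h2 (p * n) (by positivity) ((le_abs_self _).trans b5.le)
  rw [mul_inv_cancel_right₀ h0.ne'] at b6
  have c2 : (n : ℝ)⁻¹ ^ (d / 3 + 1) ≤ (WV d n)⁻¹ := le_trans (le_mul_of_one_le_left (by positivity)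
    (Real.one_le_rpow (by exact_mod_cast hn) (by norm_num))) (WV_le hn)
  rw [Real.norm_eq_abs, Real.norm_of_nonneg (by positivity)] at h3
  have c3 := fun C => mul_le_mul (le_abs_self C) c2 (by positivity) (abs_nonneg _)
  rw [div_mul_eq_mul_div, le_div_iff₀' (by positivity)]
  refine b4.trans ?_
  have c4 := b6.trans (c3 _)
  have c5 := h3.trans (c3 _)
  simp only [] at c4 ⊢
  rw [abs_le] at *
  constructor <;> linarith [c4.1, c4.2, c5.1, c5.2, b2.1, b2.2]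

theorem exists_pc (hd : 3 ≤ d) {lam : ℝ} (hl : 0 < lam) :
    ∀ᶠ n : ℕ in atTop, ∃ p : ℝ, 0 ≤ p ∧ p ≤ 1 ∧ chi d n p = lam * WV d n := by
  filter_upwards [bootstrap hd (le_max_right lam 1), eventually_ge_atTop 1,
    (PL.const lam⁻¹).le'] with n h hn h1
  have hW := le_WV hd hn
  have hd' : (3 : ℝ) ≤ d := by exact_mod_cast hd
  have hn' : (1 : ℝ) ≤ n := by exact_mod_cast hn
  have h2 : lam * WV d n ≤ chi d n 1 := by
    by_contra hc
    have := h 1 zero_le_one le_rfl ((not_le.1 hc).le.trans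
      (mul_le_mul_of_nonneg_right (le_max_left _ _) (by linarith)))
    have h3 : 1 / ((LL d n + 1 : ℕ) : ℝ) ≤ 1 := by
      rw [div_le_one (by positivity)]; exact_mod_cast Nat.le_add_left _ _
    nlinarith
  obtain ⟨p, hp, e⟩ := intermediate_value_Icc zero_le_one (chi_continuous (d := d) (n := n)).continuousOn
    (show lam * WV d n ∈ _ from ⟨by
      rw [chi_zero hn, ← inv_mul_le_iff₀ hl]; linarith, h2⟩)
  exact ⟨p, hp.1, hp.2, e⟩

end HamPerc
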