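import Pool.Agent.Lib.MP_58a483_pr.Irrel

/-!
Polynomial coefficients of the susceptibility and their bounds.
-/

open Finset

namespace HamPerc

section Gen

variable {β : Type*} [DecidableEq β]

theorem Ex_dlt (p : ℝ) (E : Finset β) (f : Finset β → ℝ) :
    Ex p E f = ∑ H ∈ E.powerset, dlt f H * p ^ H.card := by
  induction E using Finset.induction_on generalizing f with
  | empty => simp [Ex_empty, dlt]
  | insert e E he ih =>
    rw [Ex_insert p he, sum_powerset_insert he, ih, ih, mul_sum, mul_sum, ← sum_add_distrib,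
      ← sum_add_distrib]
    refine sum_congr rfl fun H hH => ?_
    have : e ∉ H := fun h => he (mem_powerset.1 hH h)
    rw [dlt_insert f this, card_insert_of_notMem this]
    ring

theorem dlt_congr {f g : Finset β → ℝ} {H : Finset β} (h : ∀ T ⊆ H, f T = g T) :
    dlt f H = dlt g H := sum_congr rfl fun T hT => by rw [h T (mem_powerset.1 hT)]

theorem dlt_sub (f g : Finset β → ℝ) (H : Finset β) :
    dlt (fun T => f T - g T) H = dlt f H - dlt g H := by
  simp only [dlt, mul_sub, sum_sub_distrib]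

theorem dlt_sum {κ : Type*} (s : Finset κ) (f : κ → Finset β → ℝ) (H : Finset β) :
    dlt (fun T => ∑ i ∈ s, f i T) H = ∑ i ∈ s, dlt (f i) H := by
  simp only [dlt, mul_sum]; exact sum_comm

theorem dlt_ind (A H : Finset β) : dlt (fun T => ind (A ⊆ T)) H = ind (A = H) := by
  by_cases h : A = H
  · subst h
    unfold dlt
    rw [sum_eq_single A]
    · simp [ind_pos, ← two_mul]
    · intro T hT hne
      simp only []
      rw [ind_neg fun h => hne (Subset.antisymm (mem_powerset.1 hT) h), mul_zero]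
    · simp
  rw [ind_neg h]
  by_cases h' : A ⊆ H
  · obtain ⟨a, ha, ha'⟩ := exists_of_ssubset (ssubset_of_subset_of_ne h' h)
    exact dlt_eq_zero ha fun T _ _ => ind_congr (subset_insert_iff_of_notMem ha')
  · refine sum_eq_zero fun T hT => ?_
    simp only []
    rw [ind_neg fun h => h' (h.trans (mem_powerset.1 hT)), mul_zero]

theorem Pr_subset (p : ℝ) {E A : Finset β} (h : A ⊆ E) : Pr p E (fun ω => A ⊆ ω) = p ^ A.card := by
  unfold Pr
  rw [Ex_dlt, sum_eq_single A]
  · rw [dlt_ind, ind_pos rfl, one_mul]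
  · intro H _ hne; rw [dlt_ind, ind_neg hne.symm, zero_mul]
  · intro h'; exact absurd (mem_powerset.2 h) h'

theorem dlt_norm_prod (S : Finset β) (F : Finset (Finset β)) (A : Finset β) :
    ∑ H ∈ S.powerset, |dlt (fun T => ind (A ⊆ T) * ∏ W ∈ F, (1 - ind (W ⊆ T))) H| ≤ 2 ^ F.card := by
  induction F using Finset.induction_on generalizing A with
  | empty =>
    simp only [prod_empty, mul_one, dlt_ind, card_empty, pow_zero]
    rw [sum_congr rfl fun H _ => abs_of_nonneg (ind_nonneg _), sum_ind]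
    refine Nat.cast_le_one.2 (card_le_one.2 fun a ha b hb => ?_)
    rw [mem_filter] at ha hb
    exact ha.2.symm.trans hb.2
  | insert W F hW ih =>
    have : ∀ T, ind (A ⊆ T) * ∏ W ∈ insert W F, (1 - ind (W ⊆ T)) =
        ind (A ⊆ T) * ∏ W ∈ F, (1 - ind (W ⊆ T)) - ind (A ∪ W ⊆ T) * ∏ W ∈ F, (1 - ind (W ⊆ T)) := by
      intro T
      rw [prod_insert hW, ind_congr union_subset_iff, ind_and]; ring
    simp only [this, dlt_sub]
    refine (sum_le_sum fun H _ => abs_sub _ _).trans ?_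
    rw [sum_add_distrib, card_insert_of_notMem hW, pow_succ]
    linarith [ih A, ih (A ∪ W)]

theorem dlt_norm_exists (S : Finset β) (P : Finset β → Prop) [DecidablePred P] :
    ∑ H ∈ S.powerset, |dlt (fun T => ind (∃ W ⊆ T, P W)) H| ≤
      1 + 2 ^ (S.powerset.filter P).card := by
  have : ∀ H ∈ S.powerset, dlt (fun T => ind (∃ W ⊆ T, P W)) H =
      dlt (fun T => ind (∅ ⊆ T) * ∏ W ∈ (∅ : Finset (Finset β)), (1 - ind (W ⊆ T))) H -
      dlt (fun T => ind (∅ ⊆ T) * ∏ W ∈ S.powerset.filter P, (1 - ind (W ⊆ T))) H := by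
    intro H hH
    rw [← dlt_sub]
    refine dlt_congr fun T hT => ?_
    rw [ind_pos (empty_subset _), prod_empty, one_mul, one_mul]
    by_cases h : ∃ W ⊆ T, P W
    · obtain ⟨W, a, b⟩ := id h
      rw [ind_pos h, prod_eq_zero (mem_filter.2 ⟨mem_powerset.2
        (a.trans (hT.trans (mem_powerset.1 hH))), b⟩) (by rw [ind_pos a, sub_self]), sub_zero]
    · rw [ind_neg h, prod_eq_one, sub_self]
      intro W hW
      rw [ind_neg fun a => h ⟨W, a, (mem_filter.1 hW).2⟩, sub_zero]
  rw [sum_congr rfl fun H hH => by rw [this H hH]]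
  refine (sum_le_sum fun H _ => abs_sub _ _).trans ?_
  rw [sum_add_distrib]
  have h1 := dlt_norm_prod S ∅ ∅
  rw [card_empty, pow_zero] at h1
  exact add_le_add h1 (dlt_norm_prod S _ ∅)

end Gen

variable {d n : ℕ}

/-- size of the cluster of the origin -/
noncomputable def csz (η : Finset (Sym2 (Vx d))) : ℝ := ∑ y ∈ insert 0 (vE η), ind (Rch η 0 y)

/-- every edge touches the cluster of the origin -/
def conn (S : Finset (Sym2 (Vx d))) : Prop := ∀ e ∈ S, ∃ u ∈ e, Rch S 0 u

theorem csz_eq {η : Finset (Sym2 (Vx d))} {Λ : Finset (Vx d)} (h : insert 0 (vE η) ⊆ Λ) :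
    csz η = ∑ y ∈ Λ, ind (Rch η 0 y) :=
  sum_subset h fun y _ hy => ind_neg fun hr => hy (by
    rcases hr.vis with h | h
    · exact mem_insert.2 (Or.inl h)
    · exact mem_insert_of_mem (mem_vE.2 h))

theorem card_ins_vE (S : Finset (Sym2 (Vx d))) : (insert 0 (vE S)).card ≤ 2 * S.card + 1 :=
  (card_insert_le _ _).trans (by linarith [card_vE S])

theorem csz_nonneg (η : Finset (Sym2 (Vx d))) : 0 ≤ csz η := sum_nonneg fun _ _ => ind_nonneg _

theorem csz_le (η : Finset (Sym2 (Vx d))) : csz η ≤ 2 * η.card + 1 := by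
  refine (sum_le_card_nsmul _ _ 1 fun _ _ => ind_le_one _).trans ?_
  rw [nsmul_eq_mul, mul_one]
  exact_mod_cast card_ins_vE η

theorem chi_eq_Ex (hn : 1 ≤ n) (p : ℝ) : chi d n p = Ex p (edges d n) csz := by
  unfold chi tau Pr
  rw [← Ex_sum]
  refine Ex_congr fun ω hω => (csz_eq (insert_subset (zero_mem_box hn) fun u hu => ?_)).symm
  obtain ⟨e, a, b⟩ := mem_vE.1 hu
  exact edges_box e (hω a) u b

theorem conn_of_dlt {H : Finset (Sym2 (Vx d))} (h : dlt csz H ≠ 0) : conn H := by
  by_contra hc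
  simp only [conn, not_forall] at hc
  obtain ⟨e, he, hn⟩ := hc
  refine h (dlt_eq_zero he fun T hT _ => ?_)
  rw [csz_eq (η := T) (insert_subset_insert _ (vE_mono (subset_insert e T)))]
  refine sum_congr rfl fun y _ => ind_congr (Rch.stop fun e' ⟨u, hu, hr⟩ => ?_)
  rw [mem_insert]
  exact ⟨Or.inr, fun h => h.resolve_left fun e0 => hn ⟨u, e0 ▸ hu, hr.mono hT⟩⟩

theorem csz_emap {σ : Vx d → Vx d} (hσ : Function.Injective σ) (h0 : σ 0 = 0)
    (η : Finset (Sym2 (Vx d))) : csz (emap σ η) = csz η := by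
  unfold csz
  rw [vE_emap]
  conv_lhs => rw [← h0, ← image_insert]
  rw [sum_image fun _ _ _ _ h => hσ h]
  exact sum_congr rfl fun y _ => ind_congr (rch_map hσ)

theorem conn_emap {σ : Vx d → Vx d} (hσ : Function.Injective σ) (h0 : σ 0 = 0)
    (η : Finset (Sym2 (Vx d))) : conn (emap σ η) ↔ conn η := by
  unfold conn
  conv_lhs => rw [← h0]
  refine (forall_mem_image (f := Sym2.map σ)).trans (forall₂_congr fun e _ => ?_)
  constructor
  · rintro ⟨u, hu, h⟩
    obtain ⟨a, ha, rfl⟩ := Sym2.mem_map.1 hu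
    exact ⟨a, ha, (rch_map hσ).1 h⟩
  · rintro ⟨u, hu, h⟩
    exact ⟨σ u, Sym2.mem_map.2 ⟨u, hu, rfl⟩, (rch_map hσ).2 h⟩

theorem dlt_csz_emap {σ : Vx d → Vx d} (hσ : Function.Injective σ) (h0 : σ 0 = 0)
    (H : Finset (Sym2 (Vx d))) : dlt csz (emap σ H) = dlt csz H := by
  unfold dlt
  rw [card_emap hσ, emap, powerset_image,
    sum_image fun _ _ _ _ h => image_injective (Sym2.map.injective hσ) h]
  refine sum_congr rfl fun T _ => ?_
  change _ ^ (_ + (emap σ T).card) * csz (emap σ T) = _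
  rw [card_emap hσ, csz_emap hσ h0]

/-- coefficient of `q ^ k` in the expected cluster size inside `S` -/
noncomputable def gam (S : Finset (Sym2 (Vx d))) (k : ℕ) : ℝ := ∑ H ∈ powersetCard k S, dlt csz H

theorem gam_emap {σ : Vx d → Vx d} (hσ : Function.Injective σ) (h0 : σ 0 = 0)
    (S : Finset (Sym2 (Vx d))) (k : ℕ) : gam (emap σ S) k = gam S k := by
  unfold gam
  rw [powersetCard_eq_filter, powersetCard_eq_filter, sum_filter, sum_filter, emap, powerset_image,
    sum_image fun _ _ _ _ h => image_injective (Sym2.map.injective hσ) h]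
  refine sum_congr rfl fun T _ => ?_
  change (if (emap σ T).card = k then dlt csz (emap σ T) else 0) = _
  rw [card_emap hσ, dlt_csz_emap hσ h0]

theorem Ex_csz (p : ℝ) (S : Finset (Sym2 (Vx d))) :
    Ex p S csz = ∑ k ∈ range (S.card + 1), gam S k * p ^ k := by
  rw [Ex_dlt, sum_powerset]
  refine sum_congr rfl fun k _ => ?_
  rw [gam, sum_mul]
  exact sum_congr rfl fun H hH => by rw [(mem_powersetCard.1 hH).2]

theorem gam_eq_zero {S : Finset (Sym2 (Vx d))} {k : ℕ} (h : S.card < k) : gam S k = 0 := by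
  rw [gam, powersetCard_eq_empty.2 h, sum_empty]

theorem abs_gam_le (S : Finset (Sym2 (Vx d))) (k : ℕ) :
    |gam S k| ≤ 2 ^ k * (2 * k + 1) * (S.card + 1) ^ k := by
  refine (abs_sum_le_sum_abs _ _).trans ((sum_le_card_nsmul _ _ (2 ^ k * (2 * k + 1) : ℝ)
    fun H hH => ?_).trans ?_)
  · have hk := (mem_powersetCard.1 hH).2
    refine (abs_sum_le_sum_abs _ _).trans ((sum_le_card_nsmul _ _ (2 * k + 1 : ℝ)
      fun T hT => ?_).trans ?_)
    · rw [abs_mul, abs_pow, abs_neg, abs_one, one_pow, one_mul, abs_of_nonneg (csz_nonneg _)]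
      have : (T.card : ℝ) ≤ k := by exact_mod_cast hk ▸ card_le_card (mem_powerset.1 hT)
      linarith [csz_le T]
    · rw [card_powerset, hk, nsmul_eq_mul]; push_cast; exact le_rfl
  · rw [card_powersetCard, nsmul_eq_mul, mul_comm]
    refine mul_le_mul_of_nonneg_left ?_ (by positivity)
    exact_mod_cast (Nat.choose_le_pow _ _).trans (Nat.pow_le_pow_left (Nat.le_succ _) _)

/-- numbers of nonzero coordinate values of an edge set -/
def kS (S : Finset (Sym2 (Vx d))) : Fin d → ℕ := kk [(S, 0)]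

theorem conn_gen {S : Finset (Sym2 (Vx d))} (hA : ∀ e ∈ S, AdjE e) (hc : conn S) :
    ∀ t ∈ univ.sigma fun u => uu [(S, 0)] u, ∃ J ⊆ S,
      (∑ e ∈ J, bdE (fun x (q : (_ : Fin d) × ℕ) => phu q.1 x q.2) e) t = 1 ∧
      ∀ t' ∈ univ.sigma fun u => uu [(S, 0)] u, t' ≠ t →
        (∑ e ∈ J, bdE (fun x (q : (_ : Fin d) × ℕ) => phu q.1 x q.2) e) t' = 0 := by
  rintro ⟨u, t⟩ ht
  replace ht : t ∈ uu [(S, 0)] u := (mem_sigma.1 ht).2
  obtain ⟨h0, v, hv, rfl⟩ := mem_uu.1 ht
  have hb : ∀ (e : Sym2 (Vx d)) (q : (_ : Fin d) × ℕ),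
      bdE (fun x (q : (_ : Fin d) × ℕ) => phu q.1 x q.2) e q = bdE (phu q.1) e q.2 := by
    intro e q
    induction e using Sym2.ind with
    | _ a b => rfl
  have hr : Rch S 0 v := by
    simp only [verts, mem_union, mem_insert, notMem_empty, or_false] at hv
    rcases hv with hv | rfl
    · obtain ⟨e, he, hve⟩ := mem_vE.1 hv
      obtain ⟨x, hx, hr⟩ := hc e he
      obtain ⟨w, rfl⟩ := Sym2.mem_iff_exists.1 hx
      rcases Sym2.mem_iff.1 hve with rfl | rfl
      · exact hr
      · exact hr.step he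
    · exact Rch.refl _ _
  obtain ⟨W, a, b⟩ := hr
  have h1 : ∑ e ∈ W.filter fun e => ¬ flat u e, bdE (phu u) e = phu u 0 + phu u v := by
    rw [← b.sum_bdE]
    exact sum_filter_of_ne fun _ _ h hf => h (bdE_flat hf)
  refine ⟨W.filter fun e => ¬ flat u e, (filter_subset _ _).trans a, ?_, ?_⟩
  · simp only [Finset.sum_apply, hb]
    rw [← Finset.sum_apply, h1]
    simp [phu, Ne.symm h0]
  · rintro ⟨u', t'⟩ ht' hne
    simp only [Finset.sum_apply, hb]
    by_cases e : u' = u
    · subst e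
      rw [← Finset.sum_apply, h1]
      have : ¬ v u' = t' := fun h => hne (by rw [h])
      simp [phu, (mem_uu.1 (mem_sigma.1 ht').2).1.symm, this]
    · refine sum_eq_zero fun e' he' => ?_
      obtain ⟨h2, h3⟩ := mem_filter.1 he'
      obtain ⟨x, y, rfl, i, _, h5⟩ := hA e' (a h2)
      have : i = u := by
        by_contra hi
        exact h3 (flat_mk.2 (h5 u (Ne.symm hi)))
      rw [bdE_flat (flat_mk.2 (h5 u' (this ▸ e)))]; rfl

theorem sum_kS_le {S : Finset (Sym2 (Vx d))} (hA : ∀ e ∈ S, AdjE e) (hc : conn S) :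
    ∑ u, kS S u ≤ S.card := by
  have := parity_le _ _ _ (conn_gen hA hc)
  rwa [card_sigma] at this

theorem sum_abs_gam {S : Finset (Sym2 (Vx d))} (hA : ∀ e ∈ S, AdjE e) (hc : conn S) (k : ℕ) :
    |gam S k| ≤ (2 * S.card + 1) * (1 + 2 ^ 2 ^ (S.card - ∑ u, kS S u)) := by
  classical
  have h1 : |gam S k| ≤ ∑ H ∈ S.powerset, |dlt csz H| :=
    (abs_sum_le_sum_abs _ _).trans (sum_le_sum_of_subset_of_nonneg
      (fun H hH => mem_powerset.2 (mem_powersetCard.1 hH).1) fun _ _ _ => abs_nonneg _)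
  refine h1.trans ?_
  have h2 : ∀ H ∈ S.powerset, |dlt csz H| ≤
      ∑ y ∈ insert 0 (vE S), |dlt (fun T => ind (∃ W ⊆ T, Tr 0 y W)) H| := by
    intro H hH
    rw [dlt_congr (g := fun T => ∑ y ∈ insert 0 (vE S), ind (∃ W ⊆ T, Tr 0 y W)) fun T hT =>
      csz_eq (insert_subset_insert _ (vE_mono (hT.trans (mem_powerset.1 hH)))), dlt_sum]
    exact abs_sum_le_sum_abs _ _
  refine (sum_le_sum h2).trans ?_
  rw [sum_comm]
  refine (sum_le_card_nsmul _ _ (1 + 2 ^ 2 ^ (S.card - ∑ u, kS S u) : ℝ) fun y _ =>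
    (dlt_norm_exists S _).trans ?_).trans ?_
  · refine add_le_add le_rfl (pow_le_pow_right₀ (by norm_num) ?_)
    have := parity_fiber _ _ _ (conn_gen hA hc) (S.powerset.filter (Tr 0 y)) _ fun J hJ =>
      ⟨mem_powerset.1 (mem_filter.1 hJ).1, (mem_filter.1 hJ).2.sum_bdE _⟩
    rwa [card_sigma] at this
  · rw [nsmul_eq_mul]
    exact mul_le_mul_of_nonneg_right (by exact_mod_cast card_ins_vE S) (by positivity)

open Classical in
/-- compressed connected edge sets with `b` edges -/
noncomputable def Sh (d b : ℕ) : Finset (Finset (Sym2 (Vx d))) :=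
  (box d (2 * b + 2)).sym2.powerset.filter fun S => (∀ i, uu [(S, 0)] i = Icc 1 (kS S i)) ∧
    (∀ e ∈ S, AdjE e) ∧ conn S ∧ S.card = b

theorem orbit1 (hn : 1 ≤ n) (b : ℕ) (F : Finset (Sym2 (Vx d)) → ℝ)
    (hinv : ∀ s : Fin d → ℕ → ℕ, (∀ i, Function.Injective (s i)) → cw s 0 = 0 →
      ∀ S, F (emap (cw s) S) = F S) :
    ∑ S ∈ (edges d n).powerset, ind (conn S ∧ S.card = b) * F S =
      ∑ S ∈ Sh d b, (∏ i, ((n - 1).choose (kS S i) : ℝ)) * F S := by
  classical
  have hCS : ∀ (m : ℕ) (g : Cf d → ℝ), ∑ c ∈ CS d m 1, g c =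
      ∑ S ∈ (box d m).sym2.powerset, ∑ z ∈ box d m, g [(S, z)] := by
    intro m g
    rw [CS, sum_image (fun a _ b _ h => Prod.ext (List.cons.inj h).1 (List.cons.inj h).2),
      sum_product, sum_product]
    simp [CS]
  have := orbit hn (2 * b + 1) 1 (fun c => (c.map fun q => ind (q.2 = 0) *
    (ind ((∀ e ∈ q.1, AdjE e) ∧ conn q.1 ∧ q.1.card = b) * F q.1)).sum) ?_ ?_
  · have h0 : ∀ (m : ℕ) (g : Vx d → ℝ), 1 ≤ m → ∑ z ∈ box d m, ind (z = 0) * g z = g 0 := by
      intro m g hm
      rw [sum_eq_single 0]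
      · rw [ind_pos rfl, one_mul]
      · intro z _ hz; rw [ind_neg hz, zero_mul]
      · intro h; exact absurd (zero_mem_box hm) h
    rw [Comp, sum_filter, hCS, hCS] at this
    simp only [List.map_cons, List.map_nil, List.sum_cons, List.sum_nil, add_zero] at this
    rw [Sh, sum_filter]
    refine Eq.trans ?_ (this.trans (sum_congr rfl fun S _ => ?_))
    · have hsub : (edges d n).powerset ⊆ (box d n).sym2.powerset :=
        powerset_mono.2 (filter_subset _ _)
      simp only [h0 n _ hn]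
      rw [← sum_subset hsub]
      · refine sum_congr rfl fun S hS => ?_
        rw [ind_congr (and_iff_right fun e he => (mem_edges.1 (mem_powerset.1 hS he)).2)]
      · intro S hS hS'
        rw [ind_neg, zero_mul]
        exact fun h => hS' (mem_powerset.2 fun e he => mem_filter.2 ⟨mem_powerset.1 hS he, h.1 e he⟩)
    · rw [sum_eq_single 0]
      · by_cases h1 : ∀ i, uu [(S, (0 : Vx d))] i = Icc 1 (kk [(S, 0)] i)
        · by_cases h2 : (∀ e ∈ S, AdjE e) ∧ conn S ∧ S.card = b
          · rw [if_pos h1, if_pos ⟨h1, h2⟩, ind_pos rfl, ind_pos h2, one_mul, one_mul]; rfl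
          · rw [if_pos h1, if_neg fun h => h2 h.2, ind_neg h2]; simp
        · rw [if_neg h1, if_neg fun h => h1 h.1]
      · intro z _ hz
        simp [ind_neg hz]
      · intro h; exact absurd (zero_mem_box (by omega)) h
  · intro s hs h0 c
    have hi : ∀ i, Function.Injective (s i) := fun i => (hs i).injective
    have e0 : cw s 0 = 0 := funext h0
    simp only [cmap, List.map_map]
    congr 1
    refine List.map_congr_left fun q _ => ?_
    simp only [Function.comp, hinv s hi e0, card_emap (cw_inj hi), conn_emap (cw_inj hi) e0]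
    congr 2
    · conv_lhs => rw [← e0, (cw_inj hi).eq_iff]
    · simp only [emap, forall_mem_image, adjE_cw hi]
  · intro c hc h
    obtain ⟨q, rfl⟩ := List.length_eq_one_iff.1 hc
    simp only [List.map_cons, List.map_nil, List.sum_cons, List.sum_nil, add_zero] at h
    have h2 : q.1.card = b := by
      by_contra hb
      exact h (by rw [ind_neg (P := _ ∧ _ ∧ _) fun h => hb h.2.2]; simp)
    refine (card_union_le _ _).trans ?_
    have := card_vE q.1
    simp [verts]
    omega

end HamPerc
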