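import Pool.Agent.Lib.MP_58a483_pr.Shape

/-!
Counting configurations in a box by their compressed shapes.
-/

open Finset

namespace HamPerc

variable {d n : ℕ}

/-- nonzero values taken by the `i`-th coordinate -/
def uu (c : Cf d) (i : Fin d) : Finset ℕ := ((verts c).image fun x => x i).erase 0

/-- number of nonzero values taken by the `i`-th coordinate -/
def kk (c : Cf d) (i : Fin d) : ℕ := (uu c i).card

/-- configurations whose coordinate values form initial intervals -/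
def Comp (d B j : ℕ) : Finset (Cf d) := (CS d (B + 1) j).filter fun c => ∀ i, uu c i = Icc 1 (kk c i)

theorem mem_uu {c : Cf d} {i : Fin d} {a : ℕ} : a ∈ uu c i ↔ a ≠ 0 ∧ ∃ x ∈ verts c, x i = a := by
  simp [uu]

theorem verts_subset_box (hn : 1 ≤ n) {c : Cf d} : verts c ⊆ box d n ↔ ∀ i, uu c i ⊆ Ico 1 n := by
  constructor
  · intro h i a ha
    obtain ⟨h0, x, hx, rfl⟩ := mem_uu.1 ha
    exact mem_Ico.2 ⟨Nat.pos_of_ne_zero h0, mem_box.1 (h hx) i⟩
  · intro h x hx
    refine mem_box.2 fun i => ?_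
    by_cases h0 : x i = 0
    · omega
    · exact (mem_Ico.1 (h i (mem_uu.2 ⟨h0, x, hx, rfl⟩))).2

theorem uu_cmap {s : Fin d → ℕ → ℕ} {c : Cf d} {i : Fin d} (h0 : s i 0 = 0)
    (h : ∀ a ∈ uu c i, s i a ≠ 0) : uu (cmap (cw s) c) i = (uu c i).image (s i) := by
  ext a
  simp only [mem_uu, verts_cmap, mem_image]
  constructor
  · rintro ⟨h1, _, ⟨x, hx, rfl⟩, rfl⟩
    refine ⟨x i, ⟨fun e => h1 ?_, x, hx, rfl⟩, rfl⟩
    simp [cw, e, h0]
  · rintro ⟨_, ⟨h1, x, hx, rfl⟩, rfl⟩
    exact ⟨h _ (mem_uu.2 ⟨h1, x, hx, rfl⟩), _, ⟨x, hx, rfl⟩, rfl⟩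

/-- the values `0`, those in `u`, and those from `n` on -/
def qq (n : ℕ) (u : Finset ℕ) (x : ℕ) : Prop := x = 0 ∨ x ∈ u ∨ n ≤ x

instance (n : ℕ) (u : Finset ℕ) : DecidablePred (qq n u) := fun x => by unfold qq; infer_instance

theorem qq_inf (n : ℕ) (u : Finset ℕ) : (setOf (qq n u)).Infinite :=
  (Set.Ici_infinite n).mono fun _ h => Or.inr (Or.inr h)

theorem nth_qq_zero (n : ℕ) (u : Finset ℕ) : Nat.nth (qq n u) 0 = 0 :=
  Nat.nth_zero_of_zero (Or.inl rfl)

theorem nth_qq_image (hn : 1 ≤ n) {u : Finset ℕ} (hu : u ⊆ Ico 1 n) :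
    (Icc 1 u.card).image (Nat.nth (qq n u)) = u := by
  have hm := Nat.nth_strictMono (qq_inf n u)
  have hc : Nat.count (qq n u) n = u.card + 1 := by
    rw [Nat.count_eq_card_filter_range, ← card_insert_of_notMem (a := 0) fun h => by
      simpa using hu h]
    congr 1
    ext x
    simp only [mem_filter, mem_range, qq, mem_insert]
    constructor
    · rintro ⟨h1, h2 | h2 | h2⟩
      · exact Or.inl h2
      · exact Or.inr h2
      · omega
    · rintro (rfl | h)
      · exact ⟨hn, Or.inl rfl⟩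
      · exact ⟨(mem_Ico.1 (hu h)).2, Or.inr (Or.inl h)⟩
  refine eq_of_subset_of_card_le (fun a ha => ?_) ?_
  · obtain ⟨r, hr, rfl⟩ := mem_image.1 ha
    rw [mem_Icc] at hr
    have h1 : Nat.nth (qq n u) r < n := Nat.nth_lt_of_lt_count (by omega)
    have h2 : 0 < Nat.nth (qq n u) r := by
      have := hm (show 0 < r by omega)
      omega
    rcases Nat.nth_mem_of_infinite (qq_inf n u) r with h | h | h
    · omega
    · exact h
    · omega
  · rw [card_image_of_injective _ hm.injective]; simp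

theorem count_qq_image (hn : 1 ≤ n) {u : Finset ℕ} (hu : u ⊆ Ico 1 n) :
    u.image (Nat.count (qq n u)) = Icc 1 u.card := by
  conv_lhs => rw [← nth_qq_image hn hu]
  rw [image_image]
  conv_rhs => rw [← image_id (s := Icc 1 u.card)]
  refine image_congr fun r _ => ?_
  simp only [Function.comp, nth_qq_image hn hu, id]
  exact Nat.count_nth_of_infinite (qq_inf n u) r

theorem orbit (hn : 1 ≤ n) (B j : ℕ) (f : Cf d → ℝ)
    (hinv : ∀ s : Fin d → ℕ → ℕ, (∀ i, StrictMono (s i)) → (∀ i, s i 0 = 0) →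
      ∀ c, f (cmap (cw s) c) = f c)
    (hB : ∀ c : Cf d, c.length = j → f c ≠ 0 → (verts c).card ≤ B) :
    ∑ c ∈ CS d n j, f c = ∑ c ∈ Comp d B j, (∏ i, ((n - 1).choose (kk c i) : ℝ)) * f c := by
  have e1 : ∑ c ∈ CS d n j, f c = ∑ c ∈ (CS d n j).filter fun c => ∀ i, kk c i ≤ B, f c := by
    refine (sum_filter_of_ne fun c hc h i => ?_).symm
    exact (card_erase_le.trans card_image_le).trans (hB c (mem_CS.1 hc).1 h)
  have e2 : ∑ c ∈ Comp d B j, (∏ i, ((n - 1).choose (kk c i) : ℝ)) * f c =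
      ∑ q ∈ (Comp d B j).sigma fun c => Fintype.piFinset fun i => powersetCard (kk c i) (Ico 1 n),
        f q.1 := by
    rw [sum_sigma]
    refine sum_congr rfl fun c _ => ?_
    simp
  rw [e1, e2]
  symm
  have hU : ∀ (q : (_ : Cf d) × (Fin d → Finset ℕ)), q ∈ ((Comp d B j).sigma fun c =>
      Fintype.piFinset fun i => powersetCard (kk c i) (Ico 1 n)) →
      ∀ i, uu (cmap (cw fun i => Nat.nth (qq n (q.2 i))) q.1) i = q.2 i := by
    intro q hq i
    simp only [mem_sigma, Comp, mem_filter, Fintype.mem_piFinset, mem_powersetCard] at hq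
    rw [uu_cmap (nth_qq_zero _ _), hq.1.2 i, ← (hq.2 i).2, nth_qq_image hn (hq.2 i).1]
    intro a ha
    have := Nat.nth_strictMono (qq_inf n (q.2 i)) (Nat.pos_of_ne_zero (mem_uu.1 ha).1)
    omega
  have hV : ∀ c : Cf d, verts c ⊆ box d n → ∀ i,
      uu (cmap (cw fun i => Nat.count (qq n (uu c i))) c) i = Icc 1 (kk c i) := by
    intro c hc i
    have h1 := count_qq_image hn ((verts_subset_box hn).1 hc i)
    rw [uu_cmap (Nat.count_zero _), h1, kk]
    intro a ha
    have := mem_image_of_mem (Nat.count (qq n (uu c i))) ha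
    rw [h1, mem_Icc] at this
    omega
  refine sum_bij' (fun q _ => cmap (cw fun i => Nat.nth (qq n (q.2 i))) q.1)
    (fun c _ => ⟨cmap (cw fun i => Nat.count (qq n (uu c i))) c, uu c⟩) ?_ ?_ ?_ ?_ ?_
  · intro q hq
    have h1 := hU q hq
    simp only [mem_sigma, Comp, mem_filter, Fintype.mem_piFinset, mem_powersetCard, mem_CS] at hq
    refine mem_filter.2 ⟨mem_CS.2 ⟨by simpa [cmap] using hq.1.1.1,
      (verts_subset_box hn).2 fun i => by rw [h1]; exact (hq.2 i).1⟩, fun i => ?_⟩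
    rw [kk, h1, (hq.2 i).2]
    have := card_le_card ((verts_subset_box (by omega)).1 hq.1.1.2 i)
    simpa [kk] using this
  · intro c hc
    obtain ⟨h1, h2⟩ := mem_filter.1 hc
    obtain ⟨h3, h4⟩ := mem_CS.1 h1
    have h5 := hV c h4
    have h6 : ∀ i, kk (cmap (cw fun i => Nat.count (qq n (uu c i))) c) i = kk c i := fun i => by
      rw [kk, h5]; simp
    simp only [mem_sigma, Comp, mem_filter, Fintype.mem_piFinset, mem_powersetCard, mem_CS]
    refine ⟨⟨⟨by simpa [cmap] using h3, (verts_subset_box (by omega)).2 fun i => ?_⟩,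
      fun i => by rw [h6, h5]⟩, fun i => ⟨(verts_subset_box hn).1 h4 i, (h6 i).symm⟩⟩
    rw [h5]
    intro a ha
    have := h2 i
    rw [mem_Icc] at ha
    rw [mem_Ico]
    omega
  · intro q hq
    have h1 : uu (cmap (cw fun i => Nat.nth (qq n (q.2 i))) q.1) = q.2 := funext (hU q hq)
    rw [h1, cmap_cmap]
    intro x _
    funext i
    exact Nat.count_nth_of_infinite (qq_inf _ _) _
  · intro c _
    refine cmap_cmap fun x hx => funext fun i => Nat.nth_count ?_
    by_cases h0 : x i = 0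
    · exact Or.inl h0
    · exact Or.inr (Or.inl (mem_uu.2 ⟨h0, x, hx, rfl⟩))
  · intro q _
    exact (hinv _ (fun i => Nat.nth_strictMono (qq_inf _ _)) (fun i => nth_qq_zero _ _) _).symm

end HamPerc
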