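import Pool.Agent.Lib.MP_58a483_pr.Expand

/-!
Localisation error and the truncated expansion of the inverse susceptibility.
-/

open Finset

namespace HamPerc

variable {α γ : Type*} [DecidableEq α] [LinearOrder γ]
variable {rk : α → γ} {p : ℝ} {E : Finset (Sym2 α)} {Λ : Finset α} {κ : α → α → ℝ}
  {ν δ X C χ : ℝ} {L N : ℕ}

/-- long trails and large balls are unlikely -/
structure LH (p : ℝ) (E : Finset (Sym2 α)) (Λ : Finset α) (δ C : ℝ) (L N : ℕ) : Prop where
  long : ∃ l, 2 * l ≤ L ∧ ∀ x ∈ Λ, ∀ y ∈ Λ, Pr p E (fun ω => Lg ω l x y) ≤ C * δ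
  bad : ∀ z ∈ Λ, Pr p E (fun ω => N < (loc L ω z).card) ≤ C * δ

namespace PH

theorem err_pk (h : PH p E Λ κ ν δ X C χ) (hl : LH p E Λ δ C L N) :
    PK E Λ κ δ X 0 (16 * C ^ 7) fun z B z' => χ⁻¹ * (Ex p E (fun ω =>
      ind (Ent ω B z z' ∧ z' ∉ PP rk ω B z z') * GG p E Λ z' (PP rk ω B z z')) -
        T1 rk p E L N False (GG p E Λ) z B z') := by
  intro z hz B _ z' hz'
  have hχ1 := h.chi_ge hz
  have hχ : 0 < χ := by linarith
  by_cases hn : ∃ η ⊆ E, Ent η B z z'
  swap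
  · have : Ex p E (fun ω => ind (Ent ω B z z' ∧ z' ∉ PP rk ω B z z') *
        GG p E Λ z' (PP rk ω B z z')) = 0 := by
      rw [← Ex_const p E 0]
      exact Ex_congr fun ω hω => by rw [ind_neg fun hk => hn ⟨_, hω, hk.1⟩, zero_mul]
    simp only []
    rw [T1_zero hn, ind_neg hn, this]; simp
  obtain ⟨l, hlL, hlong⟩ := hl.long
  have hC := h.C0
  have hd := h.d0
  simp only []
  rw [ind_pos hn, one_mul, abs_mul, abs_of_pos (inv_pos.2 hχ), inv_mul_le_iff₀ hχ]
  unfold T1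
  rw [← Ex_sub]
  calc _ ≤ Ex p E fun ω => χ * (ind (Lg ω l z z') + ind (N < (loc L ω z).card) +
        ∑ y ∈ Λ, tau p E z' y * ind (Lg ω (L + 1) z y ∧ Rch ω z z')) := by
        refine abs_Ex_le h.p0 h.p1 fun ω _ => ?_
        have s0 : 0 ≤ ∑ y ∈ Λ, tau p E z' y * ind (Lg ω (L + 1) z y ∧ Rch ω z z') :=
          sum_nonneg fun y _ => mul_nonneg (tau_nonneg h.p0 h.p1 _ _) (ind_nonneg _)
        have triv : ∀ (P Q : Prop) (B₁ B₂ : Set α),
            |ind P * GG p E Λ z' B₁ - ind Q * GG p E Λ z' B₂| ≤ χ := by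
          intro P Q B₁ B₂
          have a1 := mul_nonneg (ind_nonneg P) (GG_nonneg (E := E) (Λ := Λ) h.p0 h.p1 z' B₁)
          have a2 := mul_nonneg (ind_nonneg Q) (GG_nonneg (E := E) (Λ := Λ) h.p0 h.p1 z' B₂)
          have a3 := (mul_le_of_le_one_left (GG_nonneg (E := E) (Λ := Λ) h.p0 h.p1 z' B₁)
            (ind_le_one P)).trans (h.GG_le hz' B₁)
          have a4 := (mul_le_of_le_one_left (GG_nonneg (E := E) (Λ := Λ) h.p0 h.p1 z' B₂)
            (ind_le_one Q)).trans (h.GG_le hz' B₂)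
          rw [abs_le]; constructor <;> linarith
        have i1 := ind_nonneg (Lg ω l z z')
        have i2 := ind_nonneg (N < (loc L ω z).card)
        by_cases c1 : Lg ω (L + 1) z z'
        · have : Lg ω l z z' := let ⟨W, a, b, c⟩ := c1; ⟨W, a, b, by omega⟩
          rw [ind_pos this]
          exact (triv _ _ _ _).trans (le_mul_of_one_le_right hχ.le (by linarith))
        by_cases c2 : N < (loc L ω z).card
        · rw [ind_pos c2]
          exact (triv _ _ _ _).trans (le_mul_of_one_le_right hχ.le (by linarith))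
        have hiff : okS rk False N (loc L ω z) B z z' ↔
            (Ent ω B z z' ∧ z' ∉ PP rk ω B z z') := by
          unfold okS
          rw [Ent_loc' c1, PP_loc c1]
          simp [not_lt.1 c2]
        rw [ind_congr hiff]
        by_cases c3 : Ent ω B z z' ∧ z' ∉ PP rk ω B z z'
        · rw [ind_pos c3, one_mul, one_mul]
          refine (h.lip z' hz' _ _).trans (mul_le_mul_of_nonneg_left ?_ hχ.le)
          refine le_trans (sum_le_sum fun y _ => ?_) (le_add_of_nonneg_left (add_nonneg i1 i2))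
          rw [mul_comm]
          refine mul_le_mul_of_nonneg_left (ind_mono fun hy => ⟨?_, c3.1.rch⟩)
            (tau_nonneg h.p0 h.p1 _ _)
          by_contra hc
          exact hy (PP_loc hc)
        · rw [ind_neg c3, zero_mul, zero_mul, sub_zero, abs_zero]
          positivity
    _ ≤ _ := by
        rw [Ex_const_mul, Ex_add, Ex_add, Ex_sum]
        refine mul_le_mul_of_nonneg_left ?_ hχ.le
        have b1 := hlong z hz z' hz'
        have b2 := hl.bad z hz
        have b3 : ∑ y ∈ Λ, (Ex p E fun ω => tau p E z' y * ind (Lg ω (L + 1) z y ∧ Rch ω z z')) ≤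
            C ^ 4 * (δ * ∑ y ∈ Λ, (κ z' y + δ) * ∑ w ∈ Λ, (κ w y + δ) * (κ w z' + δ)) +
            C ^ 4 * (δ * ∑ y ∈ Λ, (κ z' y + δ) * ∑ w ∈ Λ, (κ z w + δ) * (κ w z' + δ)) := by
          simp only [mul_sum, ← sum_add_distrib]
          refine sum_le_sum fun y hy => ?_
          rw [Ex_const_mul]
          refine (mul_le_mul (h.tk z' hz' y hy) (tree_bound_long h.p0 h.p2 h.EΛ hz y z' hlL)
            (Pr_nonneg h.p0 h.p1 _) (mul_nonneg hC (h.t0 _ _))).trans ?_
          rw [mul_sum]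
          refine sum_le_sum fun w hw => ?_
          have u1 := mul_le_mul (hlong z hz w hw) (mul_le_mul (h.tk w hw y hy) (h.tk w hw z' hz')
            (tau_nonneg h.p0 h.p1 _ _) (mul_nonneg hC (h.t0 _ _)))
            (mul_nonneg (tau_nonneg h.p0 h.p1 _ _) (tau_nonneg h.p0 h.p1 _ _)) (by positivity)
          have u2 := mul_le_mul (h.tk z hz w hw) (mul_le_mul (hlong w hw y hy) (h.tk w hw z' hz')
            (tau_nonneg h.p0 h.p1 _ _) (by positivity))
            (mul_nonneg (Pr_nonneg h.p0 h.p1 _) (tau_nonneg h.p0 h.p1 _ _))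
            (mul_nonneg hC (h.t0 _ _))
          refine (mul_le_mul_of_nonneg_left (add_le_add u1 u2)
            (mul_nonneg hC (h.t0 _ _))).trans (le_of_eq ?_)
          ring
        have b4 := mul_le_mul_of_nonneg_left (mul_le_mul_of_nonneg_left (h.D2 hz') hd)
          (pow_nonneg hC 4)
        have b5 := mul_le_mul_of_nonneg_left (h.D3 hz hz') (pow_nonneg hC 4)
        have b6 : C ≤ C ^ 7 := le_self_pow₀ h.C1 (by norm_num)
        have b7 : C ^ 6 ≤ C ^ 7 := pow_le_pow_right₀ h.C1 (by norm_num)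
        have hX : 0 ≤ X * δ := h.d0.trans h.dX
        have b8 := mul_le_mul_of_nonneg_right b6 hd
        have b9 := mul_le_mul_of_nonneg_right b7 (mul_nonneg hX (h.k0 z z'))
        have b10 := mul_nonneg (pow_nonneg hC 7) (mul_nonneg hX (h.k0 z z'))
        unfold Pr at b1 b2
        nlinarith

theorem GG_root {z : α} (hz : z ∈ Λ) : GG p E Λ z {z}ᶜ = 1 := by
  unfold GG
  rw [← Ex_const p E 1]
  refine Ex_congr fun ω _ => ?_
  have : ∀ v, Rch (off ω {z}ᶜ) z v ↔ v = z := fun v => Cl_root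
  simp only [this]
  rw [sum_eq_single z]
  · exact ind_pos rfl
  · intro b _ hb; exact ind_neg hb
  · intro h; exact absurd hz h

theorem phi_kb (h : PH p E Λ κ ν δ X C χ) :
    KB Λ κ δ X C C fun z B => χ⁻¹ * (χ - GG p E Λ z B) := by
  intro z hz B _
  have hχ1 := h.chi_ge hz
  have hχ : 0 < χ := by linarith
  have h1 := h.lip1 z hz ∅ B
  rw [GG_empty, h.chi z hz] at h1
  simp only []
  rw [abs_of_nonneg (mul_nonneg (inv_pos.2 hχ).le (sub_nonneg.2 (h.GG_le hz B))),
    inv_mul_le_iff₀ hχ]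
  refine h1.trans (mul_le_mul_of_nonneg_left (sum_le_sum fun y hy => ?_) hχ.le)
  refine mul_le_mul (ind_mono fun h => h.1) ?_ (tau_nonneg h.p0 h.p1 _ _) (ind_nonneg _)
  have hX : 0 ≤ X * δ := h.d0.trans h.dX
  nlinarith [h.tk z hz y hy, mul_nonneg (mul_nonneg h.C0 hX) (h.k0 z y)]

end PH

theorem iterate_expand {V : Type*} [AddCommGroup V] [Module ℝ V] (T : V →ₗ[ℝ] V)
    (φ u e : V) (h : φ = T u - T φ + e) (M : ℕ) :
    φ = ∑ j ∈ range M, (-1 : ℝ) ^ j • (T ^ (j + 1)) u + (-1 : ℝ) ^ M • (T ^ M) φ +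
      ∑ j ∈ range M, (-1 : ℝ) ^ j • (T ^ j) e := by
  induction M with
  | zero => simp
  | succ M ih =>
    have : (T ^ M) φ = (T ^ (M + 1)) u - (T ^ (M + 1)) φ + (T ^ M) e := by
      conv_lhs => rw [h]
      rw [map_add, map_sub, pow_succ, Module.End.mul_apply, Module.End.mul_apply]
    rw [sum_range_succ, sum_range_succ]
    conv_lhs => rw [ih, this]
    rw [pow_succ (-1 : ℝ) M]
    module

/-- the coefficients of the expansion -/
noncomputable def Th (rk : α → γ) (p : ℝ) (E : Finset (Sym2 α)) (Λ : Finset α) (L N : ℕ)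
    (fl : Prop) (j : ℕ) (z : α) : ℝ :=
  Tl rk p E Λ L N fl ((Tl rk p E Λ L N False ^ j) 1) z {z}ᶜ

namespace PH

theorem expansion (h : PH p E Λ κ ν δ X C χ) (hl : LH p E Λ δ C L N)
    (hrk : Function.Injective rk) {z : α} (hz : z ∈ Λ) (M : ℕ) :
    |1 - χ⁻¹ - ∑ j ∈ range (M + 1), (-1) ^ j * Th rk p E Λ L N False j z| ≤
      (M + 2) * (32 * C ^ 8 * (22 * C ^ 6) ^ (M + 1)) * (ν ^ (M + 1) + X * δ) := by
  have hχ1 := h.chi_ge hz
  have hχ : 0 < χ := by linarith
  have hC := h.C0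
  have hX : 0 ≤ X * δ := h.d0.trans h.dX
  have hn := h.n0
  set T := Tl rk p E Λ L N False with hT
  set φ : α → Set α → ℝ := fun z B => χ⁻¹ * (χ - GG p E Λ z B) with hφ
  set e := φ - T 1 + T φ with he
  have hTG : T 1 - T φ = χ⁻¹ • T (GG p E Λ) := by
    rw [← map_sub, ← map_smul]
    congr 1
    funext z B
    simp only [hφ, Pi.sub_apply, Pi.one_apply, Pi.smul_apply, smul_eq_mul]
    field_simp
    ring
  have he2 : ∀ z ∈ Λ, ∀ B, e z B = ∑ z' ∈ Λ, χ⁻¹ * (Ex p E (fun ω =>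
      ind (Ent ω B z z' ∧ z' ∉ PP rk ω B z z') * GG p E Λ z' (PP rk ω B z z')) -
        T1 rk p E L N False (GG p E Λ) z B z') := by
    intro z hz B
    have : e = φ - χ⁻¹ • T (GG p E Λ) := by rw [← hTG, he]; abel
    rw [this, ← mul_sum, sum_sub_distrib, ← h.identity hrk hz B, mul_sub]
    rfl
  have hekb : KB Λ κ δ X 0 (16 * C ^ 7) e := by
    intro z hz B hB
    rw [he2 z hz B]
    exact h.pk_kb le_rfl (by positivity) (h.err_pk (rk := rk) hl) z hz B hB
  have K1 : 1 ≤ 22 * C ^ 6 := by nlinarith [one_le_pow₀ (n := 6) h.C1]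
  have herr : ∀ j ∈ range (M + 1), |(T ^ j) e z {z}ᶜ| ≤
      32 * C ^ 8 * (22 * C ^ 6) ^ (M + 1) * (X * δ) := by
    intro j hj
    have hj' : (22 * C ^ 6) ^ j ≤ (22 * C ^ 6) ^ (M + 1) :=
      pow_le_pow_right₀ K1 (mem_range.1 hj).le
    have : |(T ^ j) e z {z}ᶜ| ≤ 32 * C ^ 8 * (22 * C ^ 6) ^ j * (X * δ) := by
      cases j with
      | zero =>
        rw [pow_zero, Module.End.one_apply, he2 z hz]
        refine (h.pk_root le_rfl (by positivity) (h.err_pk (rk := rk) hl) hz).trans (le_of_eq ?_)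
        ring
      | succ j =>
        refine (h.Tl_pow_root le_rfl (by positivity) hekb j hz).trans (le_of_eq ?_)
        ring
    exact this.trans (mul_le_mul_of_nonneg_right (mul_le_mul_of_nonneg_left hj' (by positivity)) hX)
  have hrem := h.Tl_pow_root (rk := rk) (L := L) (N := N) hC le_rfl h.phi_kb M hz
  have hex := congrFun (congrFun (iterate_expand T φ 1 e (by rw [he]; abel) (M + 1)) z) {z}ᶜ
  simp only [Pi.add_apply, Finset.sum_apply, Pi.smul_apply, smul_eq_mul] at hex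
  have h0 : φ z {z}ᶜ = 1 - χ⁻¹ := by
    simp only [hφ, GG_root hz]; field_simp
  have hTh : ∀ j, Th rk p E Λ L N False j z = (T ^ (j + 1)) 1 z {z}ᶜ := fun j => by
    rw [pow_succ', Module.End.mul_apply]; rfl
  simp only [hTh]
  rw [← h0, hex, add_assoc, add_sub_cancel_left]
  refine (abs_add_le _ _).trans ?_
  have s1 : |∑ j ∈ range (M + 1), (-1 : ℝ) ^ j * (T ^ j) e z {z}ᶜ| ≤
      (M + 1) * (32 * C ^ 8 * (22 * C ^ 6) ^ (M + 1) * (X * δ)) := by
    refine (abs_sum_le_sum_abs _ _).trans ((sum_le_sum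
      (g := fun _ => 32 * C ^ 8 * (22 * C ^ 6) ^ (M + 1) * (X * δ)) fun j hj => ?_).trans
      (le_of_eq ?_))
    · rw [abs_mul, abs_pow, abs_neg, abs_one, one_pow, one_mul]; exact herr j hj
    · simp
  rw [abs_mul, abs_pow, abs_neg, abs_one, one_pow, one_mul]
  have s2 : C * (22 * C ^ 6) ^ (M + 1) * (C * ν ^ (M + 1) + 2 * C * (X * δ)) ≤
      32 * C ^ 8 * (22 * C ^ 6) ^ (M + 1) * (ν ^ (M + 1) + X * δ) := by
    have : C ^ 2 ≤ C ^ 8 := pow_le_pow_right₀ h.C1 (by norm_num)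
    have u : 0 ≤ (22 * C ^ 6) ^ (M + 1) * ν ^ (M + 1) := by positivity
    have v : 0 ≤ (22 * C ^ 6) ^ (M + 1) * (X * δ) := by positivity
    nlinarith [mul_le_mul_of_nonneg_right this u, mul_le_mul_of_nonneg_right this v,
      mul_nonneg (pow_nonneg hC 8) u, mul_nonneg (pow_nonneg hC 8) v]
  have s3 : 0 ≤ (M + 1) * (32 * C ^ 8 * (22 * C ^ 6) ^ (M + 1) * ν ^ (M + 1)) := by positivity
  nlinarith

theorem Th_bound (h : PH p E Λ κ ν δ X C χ) {z : α} (hz : z ∈ Λ) (j : ℕ) :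
    |Th rk p E Λ L N False (j + 1) z| ≤
      C * (22 * C ^ 6) ^ (j + 1) * (C * ν ^ (j + 1) + 2 * C * (X * δ)) := by
  have := h.Tl_pow_root (rk := rk) (L := L) (N := N) h.C0 le_rfl
    (h.pk_kb h.C0 h.C0 (h.T1_one_pk (rk := rk) (L := L) (N := N) False)) j hz
  have e : Th rk p E Λ L N False (j + 1) z = (Tl rk p E Λ L N False ^ (j + 1))
      (Tl rk p E Λ L N False 1) z {z}ᶜ := by
    rw [← Module.End.mul_apply, ← pow_succ, pow_succ', Module.End.mul_apply]; rfl
  rw [e]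
  exact this

theorem R0_bound (h : PH p E Λ κ ν δ X C χ) {z : α} (hz : z ∈ Λ)
    (hp : p * ((Λ.filter fun y => y ≠ z ∧ s(z, y) ∈ E).card : ℝ) ≤ C) :
    |Th rk p E Λ L N True 0 z| ≤ C ^ 2 * (ν + δ) := by
  have hC := h.C0
  have hb : ∀ z' ∈ Λ, |T1 rk p E L N True 1 z {z}ᶜ z'| ≤
      ind (z' ≠ z ∧ s(z, z') ∈ E) * (p * (C * (ν + δ))) := by
    intro z' hz'
    by_cases hn : z' ≠ z ∧ s(z, z') ∈ E
    swap
    · rw [T1_zero, ind_neg hn]
      · simp
      · rintro ⟨η, a, b⟩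
        rw [Ent_root] at b
        exact hn ⟨b.1, a b.2⟩
    rw [ind_pos hn, one_mul]
    have h1 : |T1 rk p E L N True 1 z {z}ᶜ z'| ≤ Pr p E (Dis (fun W => W = {s(z, z')}) (Tr z z')) := by
      refine abs_Ex_le h.p0 h.p1 fun ω _ => ?_
      simp only [Pi.one_apply, mul_one]
      rw [abs_of_nonneg (ind_nonneg _)]
      refine ind_mono fun ⟨_, k1, k2⟩ => ?_
      rcases k2.2 trivial with k | ⟨w, a, b, W, c, d⟩
      · exact absurd k k1.1
      · rw [Ent_root] at b k1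
        have hz0 : ∀ e ∈ W, z ∉ e := fun e he hu => (mem_off.1 (c he)).2 z hu self_mem_Cl
        have t1 : Tr z w (insert s(z, w) ∅) := (Tr.nil z).snoc (by simp)
        have t2 := t1.append d (by
          rw [disjoint_insert_left]
          exact ⟨fun hm => hz0 _ hm (Sym2.mem_mk_left _ _), by simp⟩)
        refine ⟨_, ?_, _, ?_, ?_, rfl, t2⟩
        · simpa using loc_subset k1.2
        · exact union_subset (insert_subset (loc_subset b.2) (empty_subset _))
            (c.trans (off_subset.trans loc_subset))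
        · rw [disjoint_singleton_left, mem_union, not_or]
          refine ⟨?_, fun hm => hz0 _ hm (Sym2.mem_mk_left _ _)⟩
          simp only [mem_insert, notMem_empty, or_false, Sym2.congr_right]
          rintro rfl
          exact lt_irrefl _ a
    refine h1.trans ((BK h.p0 h.p2 _ _).trans ?_)
    have e1 : Pr p E (Up fun W => W = {s(z, z')}) = p := by
      refine Eq.trans (Pr_congr fun ω _ => ?_) (Pr_mem p hn.2)
      simp [Up]
    rw [e1]
    refine mul_le_mul_of_nonneg_left ((h.tk z hz z' hz').trans ?_) h.p0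
    exact mul_le_mul_of_nonneg_left (by linarith [h.ko z z' hn.1.symm]) hC
  refine ((abs_sum_le_sum_abs _ _).trans (sum_le_sum hb)).trans ?_
  rw [← sum_mul, sum_ind]
  have := mul_le_mul_of_nonneg_right hp (mul_nonneg hC (add_nonneg h.n0 h.d0))
  nlinarith

theorem Th_zero (h : PH p E Λ κ ν δ X C χ) (hl : LH p E Λ δ C L N) {z : α} (hz : z ∈ Λ) :
    |p * ((Λ.filter fun y => y ≠ z ∧ s(z, y) ∈ E).card : ℝ) - Th rk p E Λ L N False 0 z -
      Th rk p E Λ L N True 0 z| ≤ C ^ 2 * (X * δ) := by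
  have hb : ∀ z' ∈ Λ, |ind (z' ≠ z ∧ s(z, z') ∈ E) * p - T1 rk p E L N False 1 z {z}ᶜ z' -
      T1 rk p E L N True 1 z {z}ᶜ z'| ≤ ind (z' ≠ z ∧ s(z, z') ∈ E) * (C * δ) := by
    intro z' hz'
    by_cases hn : z' ≠ z ∧ s(z, z') ∈ E
    swap
    · have : ¬ ∃ η ⊆ E, Ent η {z}ᶜ z z' := by
        rintro ⟨η, a, b⟩
        rw [Ent_root] at b
        exact hn ⟨b.1, a b.2⟩
      rw [T1_zero this, T1_zero this, ind_neg hn]
      simp
    rw [ind_pos hn, one_mul, one_mul]
    refine le_trans ?_ (hl.bad z hz)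
    have e0 : ∀ a b : ℝ, p - a - b = Pr p E (fun ω => s(z, z') ∈ ω) - a - b := fun a b => by
      rw [Pr_mem p hn.2]
    rw [e0]
    unfold T1 Pr
    rw [← Ex_sub, ← Ex_sub]
    refine abs_Ex_le h.p0 h.p1 fun ω _ => ?_
    simp only [Pi.one_apply, mul_one, okS, Ent_root]
    have e1 : s(z, z') ∈ loc L ω z ↔ s(z, z') ∈ ω :=
      ⟨fun h => loc_subset h, fun h => mem_loc.2 ⟨h, z, Sym2.mem_mk_left _ _, Nr.refl _ _ _⟩⟩
    rw [e1]
    by_cases c1 : N < (loc L ω z).card
    · have n1 : ∀ P : Prop, ind ((loc L ω z).card ≤ N ∧ P) = 0 := fun P =>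
        ind_neg fun h => absurd h.1 (not_le.2 c1)
      rw [ind_pos c1, n1, n1, sub_zero, sub_zero, abs_of_nonneg (ind_nonneg _)]
      exact ind_le_one _
    · by_cases c2 : s(z, z') ∈ ω <;> by_cases c3 : z' ∈ PP rk (loc L ω z) {z}ᶜ z z' <;>
        simp [ind, c1, c2, c3, hn.1, not_lt.1 c1]
  have := (abs_sum_le_sum_abs _ _).trans (sum_le_sum hb)
  rw [sum_sub_distrib, sum_sub_distrib, ← sum_mul, ← sum_mul, sum_ind] at this
  rw [mul_comm p]
  refine le_trans this ?_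
  have := mul_le_mul_of_nonneg_left (h.dd z hz) h.C0
  nlinarith

end PH

end HamPerc
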