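import Pool.Agent.Lib.MP_58a483_pr.RDefs

/-! The equation lemmas of `wk` are generated here, once for all files. -/

namespace HamPerc.RG

theorem wk_eqns : True := by
  have := @wk.eq_def.{0}
  have := @wk.eq_1.{0}
  have := @wk.eq_2.{0}
  trivial

end HamPerc.RG
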