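import Pool.Agent.Lib.MP_58a483_pr.RDefs
import Pool.Agent.Lib.MP_58a483_pr.RWkEq

/-!
Coefficients of the generating function of a diagram, and the interpolation polynomial.
-/

open Finset PowerSeries

namespace HamPerc.RG

variable {α : Type*} [Fintype α] [DecidableEq α]

/-- the monomial of a list -/
noncomputable def monRC {α : Type*} (L : List α) : MvPolynomial α ℝ := (L.map MvPolynomial.X).prod

omit [Fintype α] [DecidableEq α] in
theorem monRC_nil : monRC ([] : List α) = 1 := rfl

omit [Fintype α] [DecidableEq α] in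
theorem monRC_cons (x : α) (L : List α) : monRC (x :: L) = MvPolynomial.X x * monRC L := by
  simp [monRC]

omit [Fintype α] [DecidableEq α] in
theorem monRC_append (L L' : List α) : monRC (L ++ L') = monRC L * monRC L' := by
  simp [monRC]

omit [Fintype α] [DecidableEq α] in
theorem ev1_monRC (L : List α) : ev1 α (monRC L) = 1 := by
  induction L with
  | nil => simp [monRC]
  | cons x L ih => rw [monRC_cons, map_mul, ih]; simp [ev1]

omit [DecidableEq α] in
theorem wk_eqRC (G : SimpleGraph α) (m : ℕ) (a b : α) :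
    wk G m a b = ∑ l ∈ Lk α m, ind (∀ e ∈ eds a l b, e ∈ G.edgeSet) • monRC l := by
  induction m generalizing a with
  | zero =>
    rw [sum_Lk_zero, wk, monRC_nil, MvPolynomial.smul_eq_C_mul, mul_one]
    congr 1
    exact ind_congr (by simp [eds])
  | succ m ih =>
    rw [sum_Lk_succ, wk]
    refine sum_congr rfl fun x _ => ?_
    rw [ih, mul_sum]
    refine sum_congr rfl fun l _ => ?_
    have e : ind (∀ e ∈ eds a (x :: l) b, e ∈ G.edgeSet) =
        ind (G.Adj a x) * ind (∀ e ∈ eds x l b, e ∈ G.edgeSet) := by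
      rw [← ind_and]
      exact ind_congr (by simp [eds])
    rw [e, monRC_cons, MvPolynomial.smul_eq_C_mul, MvPolynomial.smul_eq_C_mul, map_mul]
    ring

/-- lines with `k` edges -/
noncomputable def LLRC (α : Type*) [Fintype α] : ℕ → Finset (Ln α)
  | 0 => ∅
  | j + 1 => univ ×ˢ Lk α j ×ˢ univ

omit [DecidableEq α] in
theorem mem_LLRC {k : ℕ} {T : Ln α} : T ∈ LLRC α k ↔ T.2.1.length + 1 = k := by
  cases k with
  | zero => simp [LLRC]
  | succ j => simp [LLRC, mem_Lk]

omit [DecidableEq α] in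
theorem coeff_kTRC (G : SimpleGraph α) (ε : ℝ) (τ : Bool) (a b : α) (k : ℕ) :
    coeff k (kT G ε τ a b) = ∑ T ∈ LLRC α k,
      (ε ^ k * ind ((T.1 = a ∧ T.2.2 = b ∧ (τ = true ↔ T.2.1 ≠ [])) ∧
        ∀ e ∈ eds T.1 T.2.1 T.2.2, e ∈ G.edgeSet)) • monRC T.2.1 := by
  cases k with
  | zero => cases τ <;> simp [kT, kG, kE, LLRC]
  | succ j =>
    classical
    have e1 : ∑ T ∈ LLRC α (j + 1),
        (ε ^ (j + 1) * ind ((T.1 = a ∧ T.2.2 = b ∧ (τ = true ↔ T.2.1 ≠ [])) ∧
          ∀ e ∈ eds T.1 T.2.1 T.2.2, e ∈ G.edgeSet)) • monRC T.2.1 =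
        ∑ l ∈ Lk α j, (ε ^ (j + 1) * ind ((τ = true ↔ l ≠ []) ∧
          ∀ e ∈ eds a l b, e ∈ G.edgeSet)) • monRC l := by
      rw [LLRC, sum_product, sum_eq_single a]
      · rw [sum_product]
        refine sum_congr rfl fun l _ => ?_
        rw [sum_eq_single b]
        · congr 2
          exact ind_congr (by simp)
        · intro b' _ hb
          rw [ind_neg (fun h => hb h.1.2.1), mul_zero, zero_smul]
        · simp
      · intro a' _ ha
        exact sum_eq_zero fun q _ => by rw [ind_neg (fun h => ha h.1.1), mul_zero, zero_smul]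
      · simp
    have e2 : coeff (j + 1) (kG G ε a b) = ε ^ (j + 1) • wk G j a b := by
      rw [kG, coeff_succ_mul_X, coeff_mk, MvPolynomial.smul_eq_C_mul]
    have e3 : coeff (j + 1) (kE G ε a b) =
        if j = 0 then MvPolynomial.C (ε * ind (G.Adj a b)) else 0 := by
      rw [kE, coeff_succ_mul_X, coeff_C]
    rw [e1]
    cases j with
    | zero =>
      rw [sum_Lk_zero]
      cases τ
      · rw [kT, if_neg (by simp), e3, if_pos rfl, monRC_nil, MvPolynomial.smul_eq_C_mul, mul_one,
          zero_add, pow_one]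
        congr 2
        exact ind_congr (by simp [eds])
      · rw [kT, if_pos rfl, map_sub, e2, e3, if_pos rfl, ind_neg (P := (_ ↔ _) ∧ _) (by simp), wk,
          MvPolynomial.smul_eq_C_mul, ← map_mul]
        simp
    | succ j =>
      cases τ
      · rw [kT, if_neg (by simp), e3, if_neg (by omega)]
        refine (sum_eq_zero fun l hl => ?_).symm
        rw [ind_neg, mul_zero, zero_smul]
        rintro ⟨h, -⟩
        have h1 : l ≠ [] := by
          rintro rfl
          simp [mem_Lk] at hl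
        simpa using h.2 h1
      · rw [kT, if_pos rfl, map_sub, e2, e3, if_neg (by omega), sub_zero, wk_eqRC, smul_sum]
        refine sum_congr rfl fun l hl => ?_
        have h1 : l ≠ [] := by
          rintro rfl
          simp [mem_Lk] at hl
        rw [smul_smul]
        congr 2
        exact ind_congr (by simp [h1])

theorem sum_SyRC {M : Type*} [AddCommMonoid M] (k : ℕ) (g : List (Ln α) → M) (h0 : g [] = 0) :
    ∑ S ∈ Sy α k, g S =
      ∑ p ∈ antidiagonal k, ∑ T ∈ LLRC α p.1, ∑ S ∈ Sy α p.2, g (T :: S) := by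
  simp only [← sum_product']
  rw [sum_sigma', ← sum_erase (Sy α k) h0]
  symm
  refine sum_bij (fun q _ => q.2.1 :: q.2.2) ?_ ?_ ?_ fun _ _ => rfl
  · rintro ⟨p, T, S⟩ hq
    simp only [mem_sigma, HasAntidiagonal.mem_antidiagonal, mem_product, mem_LLRC, mem_Sy] at hq
    refine mem_erase.2 ⟨List.cons_ne_nil _ _, mem_Sy.2 ?_⟩
    change (sysE (T :: S)).length = k
    rw [sysE_cons, List.length_append, length_eds]
    omega
  · rintro ⟨⟨p1, p2⟩, T, S⟩ hq ⟨⟨p1', p2'⟩, T', S'⟩ hq' h
    simp only [mem_sigma, HasAntidiagonal.mem_antidiagonal, mem_product, mem_LLRC, mem_Sy] at hq hq'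
    obtain ⟨rfl, rfl⟩ := List.cons.inj h
    obtain ⟨-, rfl, rfl⟩ := hq
    obtain ⟨-, rfl, rfl⟩ := hq'
    rfl
  · intro S hS
    obtain ⟨h1, h2⟩ := mem_erase.1 hS
    obtain ⟨T, S, rfl⟩ := List.exists_cons_of_ne_nil h1
    rw [mem_Sy, sysE_cons, List.length_append, length_eds] at h2
    refine ⟨⟨(T.2.1.length + 1, (sysE S).length), T, S⟩, ?_, rfl⟩
    simp only [mem_sigma, HasAntidiagonal.mem_antidiagonal, mem_product, mem_LLRC, mem_Sy]
    exact ⟨h2, trivial, trivial⟩

theorem coeff_prodRC (G : SimpleGraph α) (ε : ℝ) {m : ℕ} (φ : Fin m → α) (P : List (AL m))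
    (k : ℕ) : coeff k (P.map fun c => kT G ε c.1 (φ c.2.1) (φ c.2.2)).prod =
      ∑ S ∈ Sy α k, (ε ^ k * ind (Match φ P S ∧ ∀ e ∈ sysE S, e ∈ G.edgeSet)) • monRC (sysI S) := by
  induction P generalizing k with
  | nil =>
    have hz : ∀ S : List (Ln α), S ≠ [] → (ε ^ k * ind (Match φ [] S ∧
        ∀ e ∈ sysE S, e ∈ G.edgeSet)) • monRC (sysI S) = 0 := fun S hS => by
      rw [ind_neg, mul_zero, zero_smul]
      rintro ⟨h, -⟩
      exact hS (List.forall₂_nil_left_iff.1 h)
    rw [List.map_nil, List.prod_nil, coeff_one]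
    split_ifs with h
    · subst h
      rw [sum_eq_single_of_mem (s := Sy α 0) [] (mem_Sy.2 rfl) fun S _ hS => hz S hS,
        ind_pos ⟨List.Forall₂.nil, by simp⟩]
      simp [monRC]
    · refine (sum_eq_zero fun S hS => hz S ?_).symm
      rintro rfl
      exact h (mem_Sy.1 hS).symm
  | cons c P ih =>
    rw [List.map_cons, List.prod_cons, coeff_mul, sum_SyRC]
    · refine sum_congr rfl fun p hp => ?_
      rw [coeff_kTRC, ih, sum_mul_sum]
      refine sum_congr rfl fun T _ => sum_congr rfl fun S _ => ?_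
      rw [smul_mul_smul_comm, sysI_cons, monRC_append, ← HasAntidiagonal.mem_antidiagonal.1 hp, pow_add,
        mul_mul_mul_comm, ← ind_and]
      congr 2
      refine ind_congr ?_
      simp only [Match, List.forall₂_cons, sysE_cons, List.mem_append, or_imp, forall_and]
      tauto
    · rw [ind_neg, mul_zero, zero_smul]
      rintro ⟨h, -⟩
      cases h

omit [Fintype α] in
theorem th_monRC (x : α) (L : List α) : th x (monRC L) = (L.count x : ℝ) • monRC L := by
  have e : ∀ p : MvPolynomial α ℝ, th x p = MvPolynomial.X x * MvPolynomial.pderiv x p :=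
    fun _ => rfl
  induction L with
  | nil => simp [e, monRC]
  | cons y L ih =>
    rw [e] at ih
    rw [e, monRC_cons, Derivation.leibniz, smul_eq_mul, smul_eq_mul, mul_add, mul_left_comm, ih,
      List.count_cons, Nat.cast_add, add_smul, mul_smul_comm]
    congr 1
    by_cases h : y = x
    · subst h
      simp
    · rw [MvPolynomial.pderiv_X_of_ne h]
      simp [h]

theorem Dop_monRC (L : List α) : Dop α (monRC L) = (Xc L : ℝ) • monRC L := by
  rw [Dop, LinearMap.sum_apply, Xc, Nat.cast_sum, sum_smul]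
  refine sum_congr rfl fun x _ => ?_
  rw [LinearMap.smul_apply, LinearMap.sub_apply, LinearMap.comp_apply, th_monRC, map_smul,
    th_monRC, smul_smul, ← sub_smul, smul_smul, Nat.cast_choose_two]
  congr 1
  ring

theorem Bop_monRC (J : ℕ) (L : List α) : Bop α J (monRC L) = bet J (Xc L) • monRC L := by
  induction J with
  | zero => simp [Bop, bet]
  | succ J ih =>
    rw [Bop, LinearMap.sub_apply, LinearMap.smul_apply, LinearMap.comp_apply, Dop_monRC, map_smul,
      ih, smul_smul, smul_smul, ← sub_smul, bet, bet, prod_range_succ]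
    congr 1
    ring

theorem coeff_ZZ (G : SimpleGraph α) (ε : ℝ) {m : ℕ} (P : List (AL m)) (J k : ℕ) :
    ev1 α (Bop α J (coeff k (∑ φ, ZZ G ε P φ))) = ε ^ k * Re G P k fun L => bet J (Xc L) := by
  rw [Re, map_sum, map_sum, map_sum, mul_sum]
  refine sum_congr rfl fun φ _ => ?_
  have e : (∏ w, MvPolynomial.X (φ w) : MvPolynomial α ℝ) = monRC (List.ofFn φ) := by
    rw [monRC, List.map_ofFn, List.prod_ofFn]
    rfl
  rw [ZZ, ← map_prod, coeff_C_mul, coeff_prodRC, e, mul_sum, map_sum, map_sum, mul_sum]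
  refine sum_congr rfl fun S _ => ?_
  rw [mul_smul_comm, ← monRC_append, map_smul, Bop_monRC, smul_smul, MvPolynomial.smul_eq_C_mul,
    map_mul, ev1_monRC, mul_one, mul_assoc]
  exact MvPolynomial.eval_C _

theorem sum_countRC (L : List α) : ∑ x, L.count x = L.length := by
  rw [← List.sum_toFinset_count_eq_length]
  exact (sum_subset (subset_univ _) fun x _ hx =>
    List.count_eq_zero_of_not_mem fun h => hx (List.mem_toFinset.2 h)).symm

theorem choose_two_leRC (c : ℕ) : c.choose 2 ≤ (c - 1) * (c - 1) := by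
  rw [Nat.choose_two_right]
  rcases c with _ | _ | c
  · simp
  · simp
  · refine Nat.div_le_of_le_mul ?_
    simp only [Nat.add_sub_cancel]
    nlinarith

theorem Xc_leRC (L : List α) {D : ℕ} (h : ∑ x, (L.count x - 1) ≤ D) : Xc L ≤ D ^ 2 := by
  calc Xc L ≤ ∑ x, (L.count x - 1) * D := sum_le_sum fun x _ => (choose_two_leRC _).trans
        (Nat.mul_le_mul_left _ ((single_le_sum (f := fun x => L.count x - 1)
          (fun _ _ => Nat.zero_le _) (mem_univ x)).trans h))
    _ = (∑ x, (L.count x - 1)) * D := (sum_mul _ _ _).symm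
    _ ≤ D * D := Nat.mul_le_mul_right _ h
    _ = D ^ 2 := (sq D).symm

theorem bet_nodup {L : List α} {i : ℕ} (h : L.length ≤ L.toFinset.card + i) :
    bet (i ^ 2) (Xc L) = ind L.Nodup := by
  have h0 : Xc L = 0 ↔ L.Nodup := by
    rw [Xc, sum_eq_zero_iff, List.nodup_iff_count_le_one]
    simp only [mem_univ, true_imp_iff, Nat.choose_eq_zero_iff]
    exact forall_congr' fun x => Nat.lt_succ_iff
  by_cases hn : L.Nodup
  · rw [ind_pos hn, h0.2 hn]
    simp [bet]
  rw [ind_neg hn]
  have h1 : ∑ x, (L.count x - 1) + L.toFinset.card = L.length := by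
    have e : L.toFinset.card = ∑ x, if x ∈ L.toFinset then 1 else 0 := by
      rw [sum_ite_mem, univ_inter, card_eq_sum_ones]
    rw [e, ← sum_add_distrib, ← sum_countRC]
    refine sum_congr rfl fun x _ => ?_
    split_ifs with hx
    · have := List.count_pos_iff.2 (List.mem_toFinset.1 hx)
      omega
    · rw [List.count_eq_zero_of_not_mem fun h => hx (List.mem_toFinset.2 h)]
  have h2 : Xc L ≤ i ^ 2 := Xc_leRC L (by omega)
  obtain ⟨j, hj⟩ : ∃ j, Xc L = j + 1 := Nat.exists_eq_succ_of_ne_zero fun e => hn (h0.1 e)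
  refine prod_eq_zero (i := j) (mem_range.2 (by omega)) ?_
  rw [hj, Nat.cast_add, Nat.cast_one, div_self (by positivity), sub_self]

theorem abs_bet (J : ℕ) (L : List α) :
    |bet J (Xc L) - ind L.Nodup| ≤ 1 + (1 + (L.length : ℝ) ^ 2) ^ J := by
  have h1 : Xc L ≤ L.length ^ 2 :=
    Xc_leRC L ((sum_le_sum fun x _ => Nat.sub_le _ _).trans (sum_countRC L).le)
  have h2 : (Xc L : ℝ) ≤ (L.length : ℝ) ^ 2 := by exact_mod_cast h1
  have h3 : |bet J (Xc L)| ≤ (1 + (L.length : ℝ) ^ 2) ^ J := by
    rw [bet, abs_prod]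
    refine le_trans (prod_le_prod (g := fun _ => 1 + (L.length : ℝ) ^ 2)
      (fun _ _ => abs_nonneg _) fun j _ => ?_) (by rw [prod_const, card_range])
    have h4 : (0 : ℝ) ≤ (Xc L : ℝ) / (j + 1) := by positivity
    have h5 : (Xc L : ℝ) / (j + 1) ≤ Xc L :=
      div_le_self (by positivity) (le_add_of_nonneg_left (by positivity))
    rw [abs_le]
    constructor <;> nlinarith [sq_nonneg (L.length : ℝ)]
  have h4 := abs_sub (bet J (Xc L)) (ind L.Nodup)
  rw [abs_of_nonneg (ind_nonneg _)] at h4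
  linarith [ind_le_one L.Nodup]

end HamPerc.RG
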