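import Pool.Agent.Lib.MP_58a483_pr.RDefs
import Pool.Agent.Lib.MP_58a483_pr.RWkEq

/-!
Free diagrams are rational functions.
-/

open Finset PowerSeries

namespace HamPerc.RG

variable {v E M : ℕ} {g g' : ℕ → ℝ⟦X⟧}

theorem pn_C (n : ℕ) (q : Polynomial ℝ) : pn n (Polynomial.C q) = C (q.eval (n : ℝ)⁻¹) := by
  simp [pn]

theorem pn_X (n : ℕ) : pn n Polynomial.X = X := by simp [pn]

theorem deg_fac (q : Polynomial ℝ) : (1 - Polynomial.C q * Polynomial.X).natDegree ≤ 1 := by
  compute_degree

theorem deg_prod (s : Finset ℕ) (q : ℕ → Polynomial ℝ) :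
    (∏ u ∈ s, (1 - Polynomial.C (q u) * Polynomial.X)).natDegree ≤ s.card :=
  (Polynomial.natDegree_prod_le _ _).trans
    ((sum_le_card_nsmul _ _ 1 fun _ _ => deg_fac _).trans (by simp))

theorem deg_Qe (v : ℕ) : (Qe v).natDegree ≤ v + 1 := (deg_prod _ _).trans (by simp)

theorem SS.congr (h : SS v E M g) (e : ∀ n, 1 ≤ n → g n = g' n) : SS v E M g' := by
  obtain ⟨N, a, b⟩ := h
  exact ⟨N, a, fun n hn => e n hn ▸ b n hn⟩

theorem SS.add (h : SS v E M g) (h' : SS v E M g') : SS v E M fun n => g n + g' n := by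
  obtain ⟨N, a, b⟩ := h
  obtain ⟨N', a', b'⟩ := h'
  exact ⟨N + N', (Polynomial.natDegree_add_le _ _).trans (max_le a a'), fun n hn => by
    rw [add_mul, b n hn, b' n hn, map_add, mul_add]⟩

theorem SS.mul {E' M' : ℕ} (h : SS v E M g) (h' : SS v E' M' g') :
    SS v (E + E') (M + M') fun n => g n * g' n := by
  obtain ⟨N, a, b⟩ := h
  obtain ⟨N', a', b'⟩ := h'
  refine ⟨N * N', Polynomial.natDegree_mul_le.trans (by rw [mul_add]; exact add_le_add a a'),
    fun n hn => ?_⟩
  rw [pow_add, map_mul, mul_mul_mul_comm, b n hn, b' n hn, pow_add, map_mul, map_mul]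
  ring

theorem SS.poly (v : ℕ) (q : Polynomial ℝ) : SS v 0 0 fun n => C (q.eval (n : ℝ)⁻¹) :=
  ⟨Polynomial.C q, by simp, fun n _ => by simp [pn_C]⟩

theorem SS.pow (v E : ℕ) : SS v E 0 fun n => C ((n : ℝ) ^ E) :=
  ⟨1, by simp, fun n _ => by simp⟩

theorem SS.smul (c : ℝ) (h : SS v E M g) : SS v E M fun n => C c * g n := by
  simpa using (SS.poly v (Polynomial.C c)).mul h

theorem SS.one (v E M : ℕ) : SS v E M fun _ => 1 := by
  refine ⟨Polynomial.C (Polynomial.X ^ E) * Qe v ^ M, (Polynomial.natDegree_C_mul_le _ _).trans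
    (Polynomial.natDegree_pow_le.trans ?_), fun n hn => ?_⟩
  · rw [mul_comm]
    exact Nat.mul_le_mul_right _ ((deg_Qe v).trans (by omega))
  · have h0 : (n : ℝ) ≠ 0 := by positivity
    rw [map_mul, pn_C, ← mul_assoc, ← map_mul, Polynomial.eval_pow, Polynomial.eval_X, ← mul_pow,
      mul_inv_cancel₀ h0, one_pow, map_one]

theorem SS.mono (h : SS v E M g) {E' M' : ℕ} (hE : E ≤ E') (hM : M ≤ M') : SS v E' M' g := by
  obtain ⟨a, rfl⟩ := Nat.exists_eq_add_of_le hE
  obtain ⟨b, rfl⟩ := Nat.exists_eq_add_of_le hM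
  simpa using h.mul (SS.one v a b)

theorem SS.sum {ι : Type*} (s : Finset ι) {f : ι → ℕ → ℝ⟦X⟧} (h : ∀ i ∈ s, SS v E M (f i)) :
    SS v E M fun n => ∑ i ∈ s, f i n := by
  classical
  induction s using Finset.induction_on with
  | empty => simpa using (SS.one v E M).smul 0
  | insert a s ha ih =>
    simp only [sum_insert ha]
    exact (h a (mem_insert_self _ _)).add (ih fun i hi => h i (mem_insert_of_mem hi))

theorem SS.X (v : ℕ) : SS v 0 1 fun _ => PowerSeries.X := by
  refine ⟨Polynomial.X * Qe v, Polynomial.natDegree_mul_le.trans ?_, fun n _ => by simp [pn_X]⟩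
  have := deg_Qe v
  rw [Polynomial.natDegree_X]
  omega

theorem SS.geo {u : ℕ} (hu : u ≤ v) : SS v 0 1 fun n =>
    (mk fun m => ((u : ℝ) - v * (n : ℝ)⁻¹) ^ (m + 1)) * PowerSeries.X := by
  have hu' : u ∈ range (v + 1) := mem_range.2 (by omega)
  refine ⟨Polynomial.C (Polynomial.C (u : ℝ) - Polynomial.C (v : ℝ) * Polynomial.X) * Polynomial.X *
    ∏ w ∈ (range (v + 1)).erase u, (1 - Polynomial.C (Polynomial.C (w : ℝ) -
      Polynomial.C (v : ℝ) * Polynomial.X) * Polynomial.X),
    Polynomial.natDegree_mul_le.trans ?_, fun n _ => ?_⟩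
  · have h1 := deg_prod ((range (v + 1)).erase u) fun w => Polynomial.C (w : ℝ) -
      Polynomial.C (v : ℝ) * Polynomial.X
    have h2 : (Polynomial.C (Polynomial.C (u : ℝ) - Polynomial.C (v : ℝ) * Polynomial.X) *
        Polynomial.X).natDegree ≤ 1 := by compute_degree
    rw [card_erase_of_mem hu', card_range] at h1
    omega
  · rw [pow_one, Qe, ← mul_prod_erase _ _ hu', map_mul, map_mul, ← mul_assoc, pow_zero, map_one,
      one_mul]
    congr 1
    simp only [map_sub, map_one, map_mul, pn_C, pn_X, Polynomial.eval_C, Polynomial.eval_X]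
    rw [← map_mul, ← map_sub]
    generalize (u : ℝ) - v * (n : ℝ)⁻¹ = μ
    have h1 : (mk fun m => μ ^ (m + 1)) = C μ * mk fun m => μ ^ m := by
      ext m; simp [pow_succ']
    have h2 : (mk fun m => μ ^ m) * (1 - C μ * PowerSeries.X) = 1 := by
      ext m
      rw [mul_sub, mul_one, mul_left_comm, map_sub, coeff_C_mul]
      rcases m with _ | m
      · simp
      · rw [coeff_succ_mul_X, coeff_mk, coeff_mk, coeff_one, if_neg (by omega), pow_succ', sub_self]
    rw [h1]
    linear_combination C μ * PowerSeries.X * h2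

/-- linear combinations of indicators of coordinate identifications with rational coefficients -/
inductive Ev (v m M : ℕ) : (∀ n, (Fin m → Vt v n) → ℝ⟦X⟧) → Prop
  | base (g : ℕ → ℝ⟦X⟧) (r : Fin m × Fin v → Fin m × Fin v → Prop) : SS v 0 M g →
      Ev v m M fun n φ => g n * C (ind (∀ p q, r p q → φ p.1 p.2 = φ q.1 q.2))
  | add {F F'} : Ev v m M F → Ev v m M F' → Ev v m M fun n φ => F n φ + F' n φ
  | congr {F F'} : Ev v m M F → (∀ n, 1 ≤ n → ∀ φ, F n φ = F' n φ) → Ev v m M F'

variable {m : ℕ} {F F' : ∀ n, (Fin m → Vt v n) → ℝ⟦X⟧}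

theorem Ev.mul {M' : ℕ} (h : Ev v m M F) (h' : Ev v m M' F') :
    Ev v m (M + M') fun n φ => F n φ * F' n φ := by
  induction h with
  | base g r hg =>
    induction h' with
    | base g' r' hg' =>
      refine (Ev.base _ (fun p q => r p q ∨ r' p q) (hg.mul hg')).congr fun n _ φ => ?_
      simp only [or_imp, forall_and, ind_and, map_mul]
      ring
    | add _ _ a b => exact (a.add b).congr fun n _ φ => (mul_add _ _ _).symm
    | congr _ e a => exact a.congr fun n hn φ => by rw [e n hn]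
  | add _ _ a b => exact (a.add b).congr fun n _ φ => (add_mul _ _ _).symm
  | congr _ e a => exact a.congr fun n hn φ => by rw [e n hn]

theorem Ev.of (h : SS v 0 M g) : Ev v m M fun n _ => g n :=
  (Ev.base g (fun _ _ => False) h).congr fun n _ φ => by rw [ind_pos (by simp), map_one, mul_one]

theorem Ev.sum {ι : Type*} (s : Finset ι) {f : ι → ∀ n, (Fin m → Vt v n) → ℝ⟦X⟧}
    (h : ∀ i ∈ s, Ev v m M (f i)) : Ev v m M fun n φ => ∑ i ∈ s, f i n φ := by
  classical
  induction s using Finset.induction_on with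
  | empty => simpa using Ev.of (m := m) ((SS.one v 0 M).smul 0)
  | insert a s ha ih =>
    simp only [sum_insert ha]
    exact (h a (mem_insert_self _ _)).add (ih fun i hi => h i (mem_insert_of_mem hi))

theorem Ev.prod {ι : Type*} (s : Finset ι) {f : ι → ∀ n, (Fin m → Vt v n) → ℝ⟦X⟧}
    (h : ∀ i ∈ s, Ev v m 0 (f i)) : Ev v m 0 fun n φ => ∏ i ∈ s, f i n φ := by
  classical
  induction s using Finset.induction_on with
  | empty => simpa using Ev.of (m := m) (SS.one v 0 0)
  | insert a s ha ih =>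
    simp only [prod_insert ha]
    exact (h a (mem_insert_self _ _)).mul (ih fun i hi => h i (mem_insert_of_mem hi))

theorem count_rel {ι : Type*} [Fintype ι] [DecidableEq ι] (r : ι → ι → Prop) :
    ∃ c ≤ Fintype.card ι, ∀ n : ℕ,
      ∑ ψ : ι → Fin n, ind (∀ p q, r p q → ψ p = ψ q) = (n : ℝ) ^ c := by
  classical
  have : Fintype (Quot r) := Fintype.ofFinite _
  refine ⟨Fintype.card (Quot r), Fintype.card_le_of_surjective _ Quot.mk_surjective, fun n => ?_⟩
  rw [sum_ind, ← Fintype.card_subtype]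
  have e : {ψ : ι → Fin n // ∀ p q, r p q → ψ p = ψ q} ≃ (Quot r → Fin n) :=
    { toFun := fun ψ => Quot.lift ψ.1 ψ.2
      invFun := fun f => ⟨fun p => f (Quot.mk r p), fun p q h => congrArg f (Quot.sound h)⟩
      left_inv := fun _ => rfl
      right_inv := fun f => funext fun q => Quot.inductionOn q fun _ => rfl }
  rw [Fintype.card_congr e]
  simp

theorem Ev.total (h : Ev v m M F) : SS v (v * m) M fun n => ∑ φ, F n φ := by
  induction h with
  | base g r hg =>
    obtain ⟨c, hc, h⟩ := count_rel r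
    refine ((hg.mul (SS.pow v c)).mono (by simpa [mul_comm] using hc) le_rfl).congr fun n _ => ?_
    rw [← mul_sum, ← map_sum, ← h n]
    congr 2
    exact Fintype.sum_equiv (Equiv.curry _ _ _) _ _ fun _ => rfl
  | add _ _ a b => exact (a.add b).congr fun n _ => sum_add_distrib.symm
  | congr _ e a => exact a.congr fun n hn => sum_congr rfl fun φ _ => e n hn φ

/-- spectral projections of the Hamming graph -/
noncomputable def EU {n : ℕ} (U : Finset (Fin v)) (a b : Vt v n) : ℝ :=
  ∏ j, if j ∈ U then (n : ℝ)⁻¹ else ind (a j = b j) - (n : ℝ)⁻¹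

theorem sum_EU {n : ℕ} (a b : Vt v n) : ∑ U, EU U a b = ind (a = b) := by
  have h1 := prod_add (fun _ : Fin v => (n : ℝ)⁻¹) (fun j => ind (a j = b j) - (n : ℝ)⁻¹) univ
  rw [powerset_univ] at h1
  have h2 : ∏ j, ind (a j = b j) = ind (a = b) := by
    by_cases h : a = b
    · simp [h, ind_pos]
    · obtain ⟨j, hj⟩ := Function.ne_iff.1 h
      rw [ind_neg h]
      exact prod_eq_zero (mem_univ j) (ind_neg hj)
  simp only [add_sub_cancel, h2] at h1
  rw [h1]
  refine sum_congr rfl fun U _ => ?_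
  rw [EU, prod_ite, filter_mem_eq_inter, univ_inter, filter_notMem_eq_sdiff]

theorem ind_adj {n : ℕ} (a y : Vt v n) : ind ((hamming v n).Adj a y) =
    ∑ j, (∑ c, ind (y = Function.update a j c) - ind (y = a)) := by
  classical
  have h1 : ∀ j, ∑ c, ind (y = Function.update a j c) - ind (y = a) =
      ind (univ.filter (fun i => a i ≠ y i) = {j}) := by
    intro j
    rw [sum_eq_single (y j) (fun c _ hc => ind_neg fun h => hc (by rw [h]; simp)) (by simp)]
    simp only [Finset.ext_iff, mem_filter, mem_univ, true_and, mem_singleton]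
    by_cases h : y = a
    · subst h
      rw [ind_pos (by simp), ind_pos rfl, sub_self, ind_neg fun h => (h j).2 rfl rfl]
    rw [ind_neg h, sub_zero]
    refine ind_congr ⟨fun e i => ⟨fun hi => ?_, fun hi => ?_⟩, fun e => funext fun i => ?_⟩
    · by_contra hc
      exact hi (by rw [e, Function.update_of_ne hc])
    · subst hi
      exact fun hc => h (by rw [e, ← hc, Function.update_eq_self])
    · by_cases hi : i = j
      · subst hi; simp
      · rw [Function.update_of_ne hi]
        by_contra hc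
        exact hi ((e i).1 (Ne.symm hc))
  simp only [h1]
  by_cases h : (hamming v n).Adj a y
  · obtain ⟨j, hj⟩ := card_eq_one.1 (show hammingDist a y = 1 from h)
    rw [ind_pos h, sum_eq_single j, ind_pos hj]
    · intro i _ hi
      exact ind_neg fun e => hi (singleton_injective (e.symm.trans hj))
    · simp
  · rw [ind_neg h]
    exact (sum_eq_zero fun j _ => ind_neg fun e => h (card_eq_one.2 ⟨j, e⟩)).symm

theorem sum_ind_eq {β : Type*} [Fintype β] (a : β) (f : β → ℝ) :
    ∑ y, ind (y = a) * f y = f a := by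
  rw [sum_eq_single a (fun y _ h => by rw [ind_neg h, zero_mul]) (by simp), ind_pos rfl, one_mul]

theorem adj_EU {n : ℕ} (hn : 1 ≤ n) (U : Finset (Fin v)) (a b : Vt v n) :
    ∑ y, ind ((hamming v n).Adj a y) * EU U y b = ((U.card : ℝ) * n - v) * EU U a b := by
  have h0 : (n : ℝ) ≠ 0 := by positivity
  have h1 : ∀ j, ∑ c, EU U (Function.update a j c) b = ind (j ∈ U) * n * EU U a b := by
    intro j
    have e1 : ∀ c, EU U (Function.update a j c) b =
        (if j ∈ U then (n : ℝ)⁻¹ else ind (c = b j) - (n : ℝ)⁻¹) *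
          ∏ i ∈ univ.erase j, if i ∈ U then (n : ℝ)⁻¹ else ind (a i = b i) - (n : ℝ)⁻¹ := by
      intro c
      rw [EU, ← mul_prod_erase _ _ (mem_univ j), Function.update_self]
      congr 1
      exact prod_congr rfl fun i hi => by rw [Function.update_of_ne (mem_erase.1 hi).1]
    simp only [e1]
    rw [← sum_mul, EU, ← mul_prod_erase _ _ (mem_univ j), ← mul_assoc]
    congr 1
    by_cases hj : j ∈ U
    · simp [hj, ind_pos]
    · have := sum_ind_eq (b j) fun _ => 1
      simp only [mul_one] at this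
      simp [hj, ind_neg, this, h0]
  simp only [ind_adj, sum_mul, sub_mul]
  rw [sum_comm]
  simp only [sum_sub_distrib, sum_ind_eq]
  rw [sum_congr rfl fun j _ => sum_comm]
  simp only [sum_ind_eq, h1, ← sum_mul, sum_ind]
  simp

theorem ev_wk {n : ℕ} (hn : 1 ≤ n) (k : ℕ) (a b : Vt v n) : ev1 _ (wk (hamming v n) k a b) =
    ∑ U : Finset (Fin v), ((U.card : ℝ) * n - v) ^ (k + 1) * EU U a b := by
  induction k generalizing a with
  | zero =>
    simp only [wk, ev1, MvPolynomial.eval_C, zero_add, pow_one, ← adj_EU hn]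
    rw [sum_comm]
    simp only [← mul_sum, sum_EU]
    simp only [mul_comm (ind ((hamming v n).Adj a _)), sum_ind_eq]
  | succ k ih =>
    rw [wk, map_sum]
    simp only [map_mul, ih]
    simp only [ev1, MvPolynomial.eval_C, MvPolynomial.eval_X, mul_one, mul_sum]
    rw [sum_comm]
    refine sum_congr rfl fun U _ => ?_
    simp only [mul_left_comm (ind _)]
    rw [← mul_sum, adj_EU hn]
    ring

theorem ev_EU (U : Finset (Fin v)) (a b : Fin m) :
    Ev v m 0 fun n φ => C (EU U (φ a) (φ b)) := by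
  simp only [EU, map_prod]
  refine Ev.prod _ fun j _ => ?_
  have h1 : Ev v m 0 fun n _ => C (n : ℝ)⁻¹ := by simpa using Ev.of (SS.poly v Polynomial.X)
  by_cases hj : j ∈ U
  · simpa only [if_pos hj] using h1
  · refine ((Ev.base _ (fun p q => p = (a, j) ∧ q = (b, j)) (SS.one v 0 0)).add
      (Ev.of (SS.poly v (-Polynomial.X)))).congr fun n _ φ => ?_
    rw [if_neg hj, one_mul, ← map_add, Polynomial.eval_neg, Polynomial.eval_X, ← sub_eq_add_neg]
    congr 2
    exact ind_congr ⟨fun h => h _ _ ⟨rfl, rfl⟩, fun h p q e => by rw [e.1, e.2]; exact h⟩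

theorem card_le_v (U : Finset (Fin v)) : U.card ≤ v := by simpa using card_le_univ U

theorem ev_kG (a b : Fin m) : Ev v m 1 fun n φ =>
    PowerSeries.map (ev1 (Vt v n)) (kG (hamming v n) (n : ℝ)⁻¹ (φ a) (φ b)) := by
  refine (Ev.sum univ fun U _ => (ev_EU U a b).mul (Ev.of (SS.geo (card_le_v U)))).congr
    fun n hn φ => ?_
  have h0 : (n : ℝ) ≠ 0 := by positivity
  rw [kG, map_mul, PowerSeries.map_X]
  simp only [← mul_assoc, ← sum_mul]
  congr 1
  ext k
  rw [coeff_map, coeff_mk, map_mul, ev_wk hn, map_sum, mul_sum]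
  refine sum_congr rfl fun U _ => ?_
  rw [coeff_C_mul, coeff_mk, ev1, MvPolynomial.eval_C, ← mul_assoc, ← mul_pow, mul_comm]
  congr 2
  field_simp

theorem ev_kE (a b : Fin m) : Ev v m 1 fun n φ =>
    PowerSeries.map (ev1 (Vt v n)) (kE (hamming v n) (n : ℝ)⁻¹ (φ a) (φ b)) := by
  refine (Ev.sum univ fun U _ => (ev_EU U a b).mul (Ev.of ((SS.poly v (Polynomial.C (U.card : ℝ) -
    Polynomial.C (v : ℝ) * Polynomial.X)).mul (SS.X v)))).congr fun n hn φ => ?_
  have h0 : (n : ℝ) ≠ 0 := by positivity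
  have h1 := ev_wk hn 0 (φ a) (φ b)
  rw [wk, ev1, MvPolynomial.eval_C] at h1
  rw [kE, map_mul, PowerSeries.map_X, PowerSeries.map_C, ev1, MvPolynomial.eval_C, h1]
  simp only [← mul_assoc, ← sum_mul, ← map_mul, ← map_sum]
  congr 2
  rw [mul_sum]
  refine sum_congr rfl fun U _ => ?_
  simp only [Polynomial.eval_sub, Polynomial.eval_mul, Polynomial.eval_C, Polynomial.eval_X]
  field_simp
  ring

theorem fr_Ev {M : ℕ} {F : ∀ n, (Fin m → Vt v n) → (MvPolynomial (Vt v n) ℝ)⟦X⟧}
    (h : Fr v m M F) : Ev v m M fun n φ => PowerSeries.map (ev1 (Vt v n)) (F n φ) := by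
  induction h with
  | one => simpa using Ev.of (m := m) (SS.one v 0 0)
  | del a b _ ih =>
    have h1 : Ev v m 0 fun n φ => C (ind (φ a = φ b)) := by
      simp only [← sum_EU, map_sum]
      exact Ev.sum _ fun U _ => ev_EU U a b
    simpa [ev1] using h1.mul ih
  | z a _ ih => simpa [ev1] using ih
  | edge a b _ ih => simpa only [map_mul, add_comm 1] using (ev_kE a b).mul ih
  | gr a b _ ih => simpa only [map_mul, add_comm 1] using (ev_kG a b).mul ih
  | add _ _ a b => simpa only [map_add] using a.add b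
  | smul c _ ih => simpa [ev1] using (Ev.of (SS.poly v (Polynomial.C c))).mul ih
  | mono _ ih => simpa using ih.mul (Ev.of (SS.one v 0 1))

theorem fr_SS {m : ℕ} {F : ∀ n, (Fin m → Vt v n) → (MvPolynomial (Vt v n) ℝ)⟦X⟧}
    (h : Fr v m M F) : SS v (v * m) M fun n => PowerSeries.map (ev1 (Vt v n)) (∑ φ, F n φ) := by
  simpa only [map_sum] using (fr_Ev h).total

end HamPerc.RG
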