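import Pool.Agent.Lib.MP_58a483_pr.RDefs

/-!
The class of free diagrams is stable under the Euler operators.
-/

open Finset PowerSeries

namespace HamPerc.RG

section Euler

variable {α : Type*}

theorem th_apply_g (x : α) (p : MvPolynomial α ℝ) :
    th x p = MvPolynomial.X x * MvPolynomial.pderiv x p := rfl

theorem th_mul_g (x : α) (p q : MvPolynomial α ℝ) :
    th x (p * q) = th x p * q + p * th x q := by
  simp only [th_apply_g, Derivation.leibniz, smul_eq_mul]
  ring

theorem th_C_g (x : α) (c : ℝ) : th x (MvPolynomial.C c) = 0 := by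
  simp [th_apply_g]

theorem th_C_mul_g (x : α) (c : ℝ) (p : MvPolynomial α ℝ) :
    th x (MvPolynomial.C c * p) = MvPolynomial.C c * th x p := by
  rw [th_mul_g, th_C_g, zero_mul, zero_add]

theorem th_X_g (x y : α) :
    th x (MvPolynomial.X y) = MvPolynomial.C (ind (x = y)) * MvPolynomial.X y := by
  by_cases h : x = y
  · subst h
    rw [th_apply_g, MvPolynomial.pderiv_X_self, ind_pos rfl, map_one, mul_one, one_mul]
  · rw [th_apply_g, MvPolynomial.pderiv_X_of_ne (Ne.symm h), ind_neg h, map_zero, mul_zero,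
      zero_mul]

theorem coeff_lft_g (L : MvPolynomial α ℝ →ₗ[ℝ] MvPolynomial α ℝ) (g : (MvPolynomial α ℝ)⟦X⟧)
    (k : ℕ) : coeff k (lft L g) = L (coeff k g) := by
  rw [lft, coeff_mk]

theorem lft_add_g (L : MvPolynomial α ℝ →ₗ[ℝ] MvPolynomial α ℝ) (f g : (MvPolynomial α ℝ)⟦X⟧) :
    lft L (f + g) = lft L f + lft L g := by
  refine PowerSeries.ext fun k => ?_
  simp only [coeff_lft_g, map_add]

theorem lft_sum_g {ι : Type*} (L : MvPolynomial α ℝ →ₗ[ℝ] MvPolynomial α ℝ) (s : Finset ι)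
    (f : ι → (MvPolynomial α ℝ)⟦X⟧) : lft L (∑ i ∈ s, f i) = ∑ i ∈ s, lft L (f i) := by
  refine PowerSeries.ext fun k => ?_
  simp only [coeff_lft_g, map_sum]

theorem lft_th_mul_g (x : α) (f g : (MvPolynomial α ℝ)⟦X⟧) :
    lft (th x) (f * g) = lft (th x) f * g + f * lft (th x) g := by
  refine PowerSeries.ext fun k => ?_
  simp only [coeff_lft_g, map_add, coeff_mul, map_sum, th_mul_g, sum_add_distrib]

theorem lft_C_g (L : MvPolynomial α ℝ →ₗ[ℝ] MvPolynomial α ℝ) (p : MvPolynomial α ℝ) :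
    lft L (C p) = C (L p) := by
  refine PowerSeries.ext fun k => ?_
  rw [coeff_lft_g, coeff_C, coeff_C]
  split_ifs
  · rfl
  · exact map_zero L

theorem lft_th_CC_mul_g (x : α) (c : ℝ) (f : (MvPolynomial α ℝ)⟦X⟧) :
    lft (th x) (C (MvPolynomial.C c) * f) = C (MvPolynomial.C c) * lft (th x) f := by
  rw [lft_th_mul_g, lft_C_g, th_C_g, map_zero, zero_mul, zero_add]

theorem lft_th_one_g (x : α) : lft (th x) (1 : (MvPolynomial α ℝ)⟦X⟧) = 0 := by
  have h := lft_C_g (th x) (MvPolynomial.C 1)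
  rwa [th_C_g, map_zero, map_one, map_one] at h

theorem lft_th_X_g (x : α) : lft (th x) (X : (MvPolynomial α ℝ)⟦X⟧) = 0 := by
  refine PowerSeries.ext fun k => ?_
  rw [coeff_lft_g, coeff_X, map_zero]
  split_ifs
  · have h := th_C_g x 1
    rwa [map_one] at h
  · exact map_zero _

theorem lft_th_kE_g (G : SimpleGraph α) (ε : ℝ) (x a b : α) : lft (th x) (kE G ε a b) = 0 := by
  rw [kE, lft_th_CC_mul_g, lft_th_X_g, mul_zero]

variable [Fintype α]

theorem wk_zero_g (G : SimpleGraph α) (a b : α) :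
    wk G 0 a b = MvPolynomial.C (ind (G.Adj a b)) := rfl

theorem wk_succ_g (G : SimpleGraph α) (m : ℕ) (a b : α) :
    wk G (m + 1) a b =
      ∑ x, MvPolynomial.C (ind (G.Adj a x)) * MvPolynomial.X x * wk G m x b := rfl

theorem th_wk_step_g (G : SimpleGraph α) (x : α) (m : ℕ) (a b : α) :
    th x (wk G (m + 1) a b) = wk G 0 a x * MvPolynomial.X x * wk G m x b +
      ∑ y, MvPolynomial.C (ind (G.Adj a y)) * MvPolynomial.X y * th x (wk G m y b) := by
  rw [wk_succ_g, map_sum]
  simp only [th_mul_g, th_C_g, th_X_g, zero_mul, zero_add, sum_add_distrib]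
  congr 1
  rw [sum_eq_single x]
  · rw [ind_pos rfl, map_one, one_mul, wk_zero_g]
  · intro y _ hy
    rw [ind_neg (Ne.symm hy), map_zero, zero_mul, mul_zero, zero_mul]
  · intro h
    exact absurd (mem_univ x) h

theorem th_wk_g (G : SimpleGraph α) (x : α) (m : ℕ) (a b : α) :
    th x (wk G (m + 1) a b) =
      ∑ p ∈ antidiagonal m, wk G p.1 a x * MvPolynomial.X x * wk G p.2 x b := by
  induction m generalizing a with
  | zero =>
    rw [th_wk_step_g]
    simp only [wk_zero_g, th_C_g, mul_zero, sum_const_zero, add_zero,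
      Finset.Nat.antidiagonal_zero, sum_singleton]
  | succ m ih =>
    rw [th_wk_step_g, Finset.Nat.sum_antidiagonal_succ]
    congr 1
    simp only [ih, mul_sum]
    rw [sum_comm]
    refine sum_congr rfl fun p _ => ?_
    rw [wk_succ_g, sum_mul, sum_mul]
    exact sum_congr rfl fun y _ => by ring

theorem lft_th_kG_g (G : SimpleGraph α) (ε : ℝ) (x a b : α) :
    lft (th x) (kG G ε a b) = kG G ε a x * (C (MvPolynomial.X x) * kG G ε x b) := by
  have h : lft (th x) (PowerSeries.mk fun m => MvPolynomial.C (ε ^ (m + 1)) * wk G m a b) =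
      ((PowerSeries.mk fun m => MvPolynomial.C (ε ^ (m + 1)) * wk G m a x) * (C (MvPolynomial.X x) *
        PowerSeries.mk fun m => MvPolynomial.C (ε ^ (m + 1)) * wk G m x b)) * X := by
    refine PowerSeries.ext fun k => ?_
    rw [coeff_lft_g, coeff_mk, th_C_mul_g]
    cases k with
    | zero => rw [coeff_zero_mul_X, wk_zero_g, th_C_g, mul_zero]
    | succ k =>
      rw [coeff_succ_mul_X, coeff_mul, th_wk_g, mul_sum]
      refine sum_congr rfl fun p hp => ?_
      rw [coeff_C_mul, coeff_mk, coeff_mk, ← mem_antidiagonal.1 hp]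
      simp only [map_pow]
      ring
  rw [kG, lft_th_mul_g, lft_th_X_g, mul_zero, add_zero, h, kG, kG]
  ring

theorem lft_Dop_g (g : (MvPolynomial α ℝ)⟦X⟧) :
    lft (Dop α) g = ∑ x, C (MvPolynomial.C (1 / 2 : ℝ)) *
      (lft (th x) (lft (th x) g) + C (MvPolynomial.C (-1 : ℝ)) * lft (th x) g) := by
  refine PowerSeries.ext fun k => ?_
  rw [coeff_lft_g, map_sum, Dop, LinearMap.sum_apply]
  refine sum_congr rfl fun x _ => ?_
  rw [coeff_C_mul, map_add, coeff_C_mul, coeff_lft_g, coeff_lft_g, LinearMap.smul_apply,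
    LinearMap.sub_apply, LinearMap.comp_apply, MvPolynomial.smul_eq_C_mul, map_neg, map_one]
  ring

end Euler

theorem Fr.of_eq_g {v m M : ℕ} {F F' : ∀ n, (Fin m → Vt v n) → (MvPolynomial (Vt v n) ℝ)⟦X⟧}
    (h : Fr v m M F) (e : ∀ n φ, F n φ = F' n φ) : Fr v m M F' := by
  have e' : F = F' := funext fun n => funext (e n)
  exact e' ▸ h

theorem Fr.prodX_g {v m M : ℕ} {F : ∀ n, (Fin m → Vt v n) → (MvPolynomial (Vt v n) ℝ)⟦X⟧}
    (h : Fr v m M F) (s : Finset (Fin m)) :
    Fr v m M fun n φ => (∏ w ∈ s, C (MvPolynomial.X (φ w))) * F n φ := by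
  induction s using Finset.induction_on with
  | empty => exact h.of_eq_g fun n φ => by rw [prod_empty, one_mul]
  | insert a s ha ih => exact (ih.z a).of_eq_g fun n φ => by rw [prod_insert ha, mul_assoc]

theorem fr_kT_g (v : ℕ) {m : ℕ} (P : List (AL m)) :
    Fr v m P.length fun n φ =>
      (P.map fun c => kT (hamming v n) (n : ℝ)⁻¹ c.1 (φ c.2.1) (φ c.2.2)).prod := by
  induction P with
  | nil => exact Fr.one.of_eq_g fun n φ => rfl
  | cons c P ih =>
    obtain ⟨τ, a, b⟩ := c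
    cases τ with
    | false =>
      refine (ih.edge a b).of_eq_g fun n φ => ?_
      rw [List.map_cons, List.prod_cons]
      rfl
    | true =>
      refine ((ih.gr a b).add ((ih.edge a b).smul (-1))).of_eq_g fun n φ => ?_
      rw [List.map_cons, List.prod_cons, map_neg, map_one, map_neg, map_one]
      simp only [kT, if_true]
      ring

theorem Fr.theta_g {v m M : ℕ} {F : ∀ n, (Fin m → Vt v n) → (MvPolynomial (Vt v n) ℝ)⟦X⟧}
    (h : Fr v m M F) (a : Fin m) : Fr v m (M + 1) fun n φ => lft (th (φ a)) (F n φ) := by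
  induction h with
  | one =>
    exact (Fr.one.smul 0).mono.of_eq_g fun n φ => by
      rw [lft_th_one_g, map_zero, map_zero, zero_mul]
  | del b c _ ih => exact (ih.del b c).of_eq_g fun n φ => (lft_th_CC_mul_g _ _ _).symm
  | z b h ih =>
    refine (((h.z b).del a b).mono.add (ih.z b)).of_eq_g fun n φ => ?_
    rw [lft_th_mul_g, lft_C_g, th_X_g, map_mul, mul_assoc]
  | edge b c _ ih =>
    refine (ih.edge b c).of_eq_g fun n φ => ?_
    rw [lft_th_mul_g, lft_th_kE_g, zero_mul, zero_add]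
  | gr b c h ih =>
    refine ((((h.gr a c).z a).gr b a).add (ih.gr b c)).of_eq_g fun n φ => ?_
    rw [lft_th_mul_g, lft_th_kG_g]
    ring
  | add _ _ ih ih' => exact (ih.add ih').of_eq_g fun n φ => (lft_add_g _ _ _).symm
  | smul c _ ih => exact (ih.smul c).of_eq_g fun n φ => (lft_th_CC_mul_g _ _ _).symm
  | mono _ ih => exact ih.mono

theorem Fr.tail_g {v m M : ℕ} {F : ∀ n, (Fin m → Vt v n) → (MvPolynomial (Vt v n) ℝ)⟦X⟧}
    (h : Fr v m M F) : Fr v (m + 1) M fun n φ => F n (Fin.tail φ) := by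
  induction h with
  | one => exact Fr.one
  | del b c _ ih => exact ih.del b.succ c.succ
  | z b _ ih => exact ih.z b.succ
  | edge b c _ ih => exact ih.edge b.succ c.succ
  | gr b c _ ih => exact ih.gr b.succ c.succ
  | add _ _ ih ih' => exact ih.add ih'
  | smul c _ ih => exact ih.smul c
  | mono _ ih => exact ih.mono

theorem fr_ZZ (v : ℕ) {m : ℕ} (P : List (AL m)) :
    Fr v m P.length fun n φ => ZZ (hamming v n) (n : ℝ)⁻¹ P φ :=
  (fr_kT_g v P).prodX_g univ

theorem fr_Dop {v m M : ℕ} {F : ∀ n, (Fin m → Vt v n) → (MvPolynomial (Vt v n) ℝ)⟦X⟧}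
    (h : Fr v m M F) : ∃ F', Fr v (m + 1) (M + 2) F' ∧
      ∀ n, lft (Dop (Vt v n)) (∑ φ, F n φ) = ∑ φ, F' n φ := by
  refine ⟨_, (((h.tail_g.theta_g 0).theta_g 0).add
    ((h.tail_g.theta_g 0).mono.smul (-1))).smul (1 / 2), fun n => ?_⟩
  rw [lft_sum_g, ← (Fin.consEquiv fun _ : Fin (m + 1) => Vt v n).sum_comp,
    Fintype.sum_prod_type_right]
  refine sum_congr rfl fun φ _ => ?_
  rw [lft_Dop_g]
  rfl

end HamPerc.RG
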