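import Pool.Agent.Lib.MP_58a483_pr.RWeight

/-!
Counting connected configurations with few vertices.
-/

open Finset

namespace HamPerc.RG

section
variable {α : Type*} [Fintype α] [DecidableEq α] (G : SimpleGraph α)

open Classical in
/-- sets grown from `x` in `m` steps -/
noncomputable def grG (x : α) : ℕ → Finset (Finset α)
  | 0 => {{x}}
  | m + 1 => (grG x m).biUnion fun U => U.biUnion fun a =>
      (insert a (univ.filter fun b => G.Adj a b)).image fun b => insert b U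

theorem mem_grG {x : α} {m : ℕ} {V : Finset α} : V ∈ grG G x (m + 1) ↔
    ∃ U ∈ grG G x m, ∃ a ∈ U, ∃ b, (b = a ∨ G.Adj a b) ∧ insert b U = V := by
  simp only [grG, mem_biUnion, mem_image, mem_insert, mem_filter, mem_univ, true_and]

theorem size_grG {x : α} {m : ℕ} {U : Finset α} (h : U ∈ grG G x m) : U.card ≤ m + 1 := by
  induction m generalizing U with
  | zero => rw [grG, mem_singleton] at h; simp [h]
  | succ m ih =>
    obtain ⟨U, hU, a, -, b, -, rfl⟩ := (mem_grG G).1 h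
    exact (card_insert_le _ _).trans (Nat.succ_le_succ (ih hU))

theorem card_grG {Δ : ℝ} (hΔ : ∀ a, ∑ b, ind (G.Adj a b) ≤ Δ) (x : α) (m : ℕ) :
    ((grG G x m).card : ℝ) ≤ (m + 1).factorial * (Δ + 1) ^ m := by
  classical
  have h0 : 0 ≤ Δ := (sum_nonneg fun _ _ => ind_nonneg _).trans (hΔ x)
  induction m with
  | zero => simp [grG]
  | succ m ih =>
    have h1 : ((grG G x (m + 1)).card : ℝ) ≤ ∑ _U ∈ grG G x m, ((m : ℝ) + 1) * (Δ + 1) := by
      rw [grG]
      refine (Nat.cast_le.2 card_biUnion_le).trans ?_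
      push_cast
      refine sum_le_sum fun U hU => (Nat.cast_le.2 card_biUnion_le).trans ?_
      push_cast
      refine (sum_le_sum (g := fun _ => Δ + 1) fun a _ => ?_).trans ?_
      · refine (Nat.cast_le.2 (card_image_le.trans (card_insert_le _ _))).trans ?_
        have := hΔ a
        rw [sum_ind] at this
        push_cast
        linarith
      · rw [sum_const, nsmul_eq_mul]
        gcongr
        exact_mod_cast size_grG G hU
    rw [sum_const, nsmul_eq_mul] at h1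
    refine h1.trans ((mul_le_mul_of_nonneg_right ih (by positivity)).trans ?_)
    rw [Nat.factorial_succ (m + 1)]
    push_cast
    have : (0 : ℝ) ≤ (m + 1).factorial * (Δ + 1) ^ m * (Δ + 1) := by positivity
    rw [pow_succ]
    linarith

theorem cn_grG {x : α} {U : Finset α} (h : Cn G x U) (j : ℕ) :
    ∃ V ⊆ U, x ∈ V ∧ V ∈ grG G x j ∧ (V = U ∨ V.card = j + 1) := by
  induction j with
  | zero => exact ⟨{x}, singleton_subset_iff.2 h.1, by simp, by simp [grG], Or.inr rfl⟩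
  | succ j ih =>
    obtain ⟨V, h1, h2, h3, h4⟩ := ih
    by_cases e : V = U
    · exact ⟨V, h1, h2, (mem_grG G).2 ⟨V, h3, x, h2, x, Or.inl rfl, insert_eq_of_mem h2⟩, Or.inl e⟩
    · have : ¬∀ a ∈ V, ∀ b ∈ U, G.Adj a b → b ∈ V := fun hc => e (h1.antisymm (h.2 V h1 h2 hc))
      push Not at this
      obtain ⟨a, ha, b, hb, hab, hbV⟩ := this
      exact ⟨insert b V, insert_subset hb h1, mem_insert_of_mem h2,
        (mem_grG G).2 ⟨V, h3, a, ha, b, Or.inr hab, rfl⟩,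
        Or.inr (by rw [card_insert_of_notMem hbV, h4.resolve_left e])⟩

end

theorem card_cn {α : Type*} [Fintype α] [DecidableEq α] (G : SimpleGraph α) {Δ : ℝ}
    (hΔ : ∀ a, ∑ b, ind (G.Adj a b) ≤ Δ) (x : α) (m : ℕ) :
    ∑ U : Finset α, ind (Cn G x U ∧ U.card ≤ m + 1) ≤ (m + 1).factorial * (Δ + 1) ^ m := by
  classical
  rw [sum_ind]
  refine le_trans (Nat.cast_le.2 (card_le_card fun U hU => ?_)) (card_grG G hΔ x m)
  obtain ⟨h1, h2⟩ := (mem_filter.1 hU).2
  obtain ⟨V, v1, -, v2, rfl | v3⟩ := cn_grG G h1 m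
  · exact v2
  · exact eq_of_subset_of_card_le v1 (by omega) ▸ v2

theorem group_grow {α ι : Type*} [Fintype α] [DecidableEq α] (G : SimpleGraph α) {Δ : ℝ}
    (hΔ : ∀ a, ∑ b, ind (G.Adj a b) ≤ Δ) (x : α) (m : ℕ) (s : Finset ι) (A : ι → Prop)
    (key : ι → Finset α) (N : ℕ) (h1 : ∀ i ∈ s, A i → Cn G x (key i) ∧ (key i).card ≤ m + 1)
    (h2 : ∀ U : Finset α, U.card ≤ m + 1 → ∀ t ⊆ s, (∀ i ∈ t, A i ∧ key i = U) → t.card ≤ N) :
    ∑ i ∈ s, ind (A i) ≤ N * (m + 1).factorial * (Δ + 1) ^ m := by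
  classical
  calc ∑ i ∈ s, ind (A i)
      ≤ ∑ i ∈ s, ∑ U : Finset α, ind ((Cn G x U ∧ U.card ≤ m + 1) ∧ A i ∧ key i = U) :=
        sum_le_sum fun i hi => ind_le_sum _ _ fun h => ⟨key i, mem_univ _, h1 i hi h, h, rfl⟩
    _ ≤ ∑ U : Finset α, N * ind (Cn G x U ∧ U.card ≤ m + 1) := by
        rw [sum_comm]
        refine sum_le_sum fun U _ => ?_
        by_cases h : Cn G x U ∧ U.card ≤ m + 1
        · rw [ind_pos h, mul_one, sum_ind, Nat.cast_le]
          exact h2 U h.2 _ (filter_subset _ _) fun i hi => (mem_filter.1 hi).2.2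
        · rw [ind_neg h, mul_zero]
          exact (sum_eq_zero fun i _ => ind_neg fun h' => h h'.1).le
    _ ≤ _ := by
        rw [← mul_sum, mul_assoc]
        exact mul_le_mul_of_nonneg_left (card_cn G hΔ x m) (Nat.cast_nonneg _)

theorem err1 (k m : ℕ) : ∃ C : ℝ, ∀ (α : Type) [Fintype α] [DecidableEq α] (G : SimpleGraph α)
    [Fintype G.edgeSet] (Δ : ℝ), (∀ a, ∑ b, ind (G.Adj a b) ≤ Δ) →
      ∑ x : α, ∑ y : α, ∑ H ∈ powersetCard k G.edgeFinset,
        ind (x ≠ y ∧ mu x y ∅ H ≠ 0 ∧ (vs H).card ≤ m + 1) ≤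
          C * Fintype.card α * (Δ + 1) ^ m := by
  refine ⟨((m + 1) * 2 ^ (m + 2).choose 2 : ℕ) * (m + 1).factorial, fun α _ _ G _ Δ hΔ => ?_⟩
  refine (sum_le_sum (g := fun _ => ((m + 1) * 2 ^ (m + 2).choose 2 : ℕ) * (m + 1).factorial *
    (Δ + 1) ^ m) fun x _ => ?_).trans (le_of_eq (by rw [sum_const, nsmul_eq_mul, card_univ]; ring))
  rw [← sum_product']
  have hv : ∀ {H : Finset (Sym2 α)} {u : α}, 1 ≤ dg H u → u ∈ vs H := fun {H u} h => by
    obtain ⟨e, he⟩ := card_pos.1 h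
    exact mem_filter.2 ⟨mem_univ _, e, mem_filter.1 he⟩
  have hE : ∀ i ∈ (univ : Finset α) ×ˢ powersetCard k G.edgeFinset, ∀ e ∈ i.2, e ∈ G.edgeSet :=
    fun i hi e he => SimpleGraph.mem_edgeFinset.1 ((mem_powersetCard.1 (mem_product.1 hi).2).1 he)
  refine group_grow G hΔ x m _ _ (fun i => vs i.2) _ (fun i hi h => ⟨?_, h.2.2⟩)
    fun U hU t ht h => ?_
  · obtain ⟨-, h1, -, h2⟩ := mu_pq h.1 (fun e he => G.not_isDiag_of_mem_edgeSet (hE i hi e he))
      h.2.1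
    exact ⟨hv h1, fun V _ hx hc u hu => (h2 u hu).induction hx fun a b ha hab =>
      hc a ha b (mem_filter.2 ⟨mem_univ _, _, hab, Sym2.mem_mk_right _ _⟩) (hE i hi _ hab)⟩
  · refine (card_le_card (t := U ×ˢ U.sym2.powerset) fun i hi => ?_).trans ?_
    · obtain ⟨h0, rfl⟩ := h i hi
      obtain ⟨-, -, h1, -⟩ := mu_pq h0.1
        (fun e he => G.not_isDiag_of_mem_edgeSet (hE i (ht hi) e he)) h0.2.1
      exact mem_product.2 ⟨hv h1, mem_powerset.2 fun e he =>
        mem_sym2_iff.2 fun u hu => mem_filter.2 ⟨mem_univ _, e, he, hu⟩⟩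
    · rw [card_product, card_powerset, card_sym2]
      exact Nat.mul_le_mul hU (Nat.pow_le_pow_right two_pos (Nat.choose_le_choose 2 (by omega)))

theorem line_grow {α : Type*} {G : SimpleGraph α} {U V : Finset α}
    (hc : ∀ a ∈ V, ∀ b ∈ U, G.Adj a b → b ∈ V) (l : List α) (a b : α)
    (he : ∀ e ∈ eds a l b, e ∈ G.edgeSet) (ha : a ∈ U) (hl : ∀ z ∈ l, z ∈ U) (hb : b ∈ U) :
    (a ∈ V ↔ b ∈ V) ∧ (a ∈ V → ∀ z ∈ l, z ∈ V) := by
  induction l generalizing a with
  | nil =>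
    have : G.Adj a b := he _ List.mem_cons_self
    exact ⟨⟨fun h => hc a h b hb this, fun h => hc b h a ha this.symm⟩, by simp⟩
  | cons x l ih =>
    have h1 : G.Adj a x := he _ List.mem_cons_self
    have hx := hl x List.mem_cons_self
    have h2 : a ∈ V ↔ x ∈ V := ⟨fun h => hc a h x hx h1, fun h => hc x h a ha h1.symm⟩
    obtain ⟨h3, h4⟩ := ih x (fun e h => he e (List.mem_cons_of_mem _ h)) hx
      fun z h => hl z (List.mem_cons_of_mem _ h)
    exact ⟨h2.trans h3, fun h => List.forall_mem_cons.2 ⟨h2.1 h, h4 (h2.1 h)⟩⟩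

theorem forall₂_grow {β γ : Type*} {r : β → γ → Prop} {P : List β} {S : List γ}
    (h : List.Forall₂ r P S) : (∀ c ∈ P, ∃ T ∈ S, r c T) ∧ ∀ T ∈ S, ∃ c ∈ P, r c T := by
  induction h with
  | nil => simp
  | cons h _ ih =>
    exact ⟨List.forall_mem_cons.2 ⟨⟨_, List.mem_cons_self, h⟩, fun c hc =>
        (ih.1 c hc).imp fun _ h => ⟨List.mem_cons_of_mem _ h.1, h.2⟩⟩,
      List.forall_mem_cons.2 ⟨⟨_, List.mem_cons_self, h⟩, fun c hc =>
        (ih.2 c hc).imp fun _ h => ⟨List.mem_cons_of_mem _ h.1, h.2⟩⟩⟩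

theorem label_grow {b : ℕ} {P : List (AL (b + 2))} (hP : om P ≠ 0) (w : Fin (b + 2)) :
    Rch (P.map fun c => s(c.2.1, c.2.2)).toFinset 0 w := by
  obtain ⟨h1, h2⟩ := wt_conn (left_ne_zero_of_mul hP)
  by_cases e0 : w = 0
  · exact e0 ▸ Rch.refl _ _
  by_cases e1 : w = 1
  · exact e1 ▸ h1
  have h3 := (not_not.1 fun h => right_ne_zero_of_mul hP (ind_neg h)).1 w e0 e1
  by_contra hc
  have : en (P.map Prod.snd) w = 0 := List.sum_eq_zero fun n hn => by
    simp only [List.map_map, List.mem_map, Function.comp_apply] at hn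
    obtain ⟨c, hc', rfl⟩ := hn
    have h4 := h2 _ (List.mem_map_of_mem hc')
    rw [if_neg fun e : c.2.1 = w => hc (h4 w (e ▸ Sym2.mem_mk_left _ _)),
      if_neg fun e : c.2.2 = w => hc (h4 w (e ▸ Sym2.mem_mk_right _ _))]
    rfl
  omega

theorem cn_grow {α : Type*} [DecidableEq α] {G : SimpleGraph α} {b : ℕ} {P : List (AL (b + 2))}
    (hP : om P ≠ 0) {φ : Fin (b + 2) → α} {S : List (Ln α)} (hM : Match φ P S)
    (hE : ∀ e ∈ sysE S, e ∈ G.edgeSet) : Cn G (φ 0) (List.ofFn φ ++ sysI S).toFinset := by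
  have hφ : ∀ w, φ w ∈ (List.ofFn φ ++ sysI S).toFinset := fun w =>
    List.mem_toFinset.2 (List.mem_append_left _ (List.mem_ofFn.2 ⟨w, rfl⟩))
  refine ⟨hφ 0, fun V _ h0 hc => ?_⟩
  obtain ⟨m1, m2⟩ := forall₂_grow hM
  have hl : ∀ T ∈ S, (T.1 ∈ V ↔ T.2.2 ∈ V) ∧ (T.1 ∈ V → ∀ z ∈ T.2.1, z ∈ V) := fun T hT => by
    obtain ⟨c, -, c1, c2, -⟩ := m2 T hT
    exact line_grow hc _ _ _ (fun e he => hE e (List.mem_flatMap.2 ⟨T, hT, he⟩)) (c1 ▸ hφ _)
      (fun z hz => List.mem_toFinset.2 (List.mem_append_right _ (List.mem_flatMap.2 ⟨T, hT, hz⟩)))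
      (c2 ▸ hφ _)
  have hw : ∀ w, φ w ∈ V := fun w => (label_grow hP w).induction (P := fun w => φ w ∈ V) h0
    fun u v hu huv => by
      obtain ⟨c, hc', e⟩ := List.mem_map.1 (List.mem_toFinset.1 huv)
      obtain ⟨T, hT, c1, c2, -⟩ := m1 c hc'
      have := (hl T hT).1
      rw [c1, c2] at this
      rcases Sym2.eq_iff.1 e with ⟨rfl, rfl⟩ | ⟨rfl, rfl⟩
      exacts [this.1 hu, this.2 hu]
  intro z hz
  rcases List.mem_append.1 (List.mem_toFinset.1 hz) with hz | hz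
  · obtain ⟨w, rfl⟩ := List.mem_ofFn.1 hz
    exact hw w
  · obtain ⟨T, hT, hz⟩ := List.mem_flatMap.1 hz
    obtain ⟨c, -, c1, -⟩ := m2 T hT
    exact (hl T hT).2 (c1 ▸ hw _) z hz

/-- image of a line -/
def mapG {α β : Type*} (g : α → β) (T : Ln α) : Ln β := (g T.1, T.2.1.map g, g T.2.2)

theorem length_mapG {α β : Type*} (g : α → β) (S : List (Ln α)) :
    (sysE (S.map (mapG g))).length = (sysE S).length := by
  induction S with
  | nil => rfl
  | cons T S ih => simp [sysE_cons, length_eds, ih, mapG]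

theorem err2 {b : ℕ} {P : List (AL (b + 2))} (hP : om P ≠ 0) (k m : ℕ) :
    ∃ C : ℝ, ∀ (α : Type) [Fintype α] [DecidableEq α] (G : SimpleGraph α) (Δ : ℝ),
      (∀ a, ∑ b, ind (G.Adj a b) ≤ Δ) →
        Re G P k (fun L => ind (L.toFinset.card ≤ m + 1)) ≤ C * Fintype.card α * (Δ + 1) ^ m := by
  classical
  let N : ℕ := ((univ : Finset (Fin (b + 2) → Fin (m + 1))) ×ˢ Sy (Fin (m + 1)) k).card
  refine ⟨N * (m + 1).factorial, fun α _ _ G Δ hΔ => ?_⟩
  let A : α → (Fin (b + 2) → α) × List (Ln α) → Prop := fun x i => i.1 0 = x ∧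
    (Match i.1 P i.2 ∧ ∀ e ∈ sysE i.2, e ∈ G.edgeSet) ∧
      (List.ofFn i.1 ++ sysI i.2).toFinset.card ≤ m + 1
  have h0 : Re G P k (fun L => ind (L.toFinset.card ≤ m + 1)) ≤
      ∑ x, ∑ i ∈ univ ×ˢ Sy α k, ind (A x i) := by
    rw [Re, ← sum_product', sum_comm]
    refine sum_le_sum fun i _ => ?_
    rw [← ind_and]
    exact ind_le_sum _ _ fun h => ⟨i.1 0, mem_univ _, rfl, h⟩
  refine h0.trans ((sum_le_sum (g := fun _ => N * (m + 1).factorial * (Δ + 1) ^ m)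
    fun x _ => ?_).trans (le_of_eq (by rw [sum_const, nsmul_eq_mul, card_univ]; ring)))
  refine group_grow G hΔ x m _ _ (fun i => (List.ofFn i.1 ++ sysI i.2).toFinset) _
    (fun i _ h => ⟨h.1 ▸ cn_grow hP h.2.1.1 h.2.1.2, h.2.2⟩) fun U hU t ht h => ?_
  obtain ⟨g, f, hg⟩ : ∃ (g : α → Fin (m + 1)) (f : Fin (m + 1) → α), ∀ u ∈ U, f (g u) = u := by
    obtain ⟨e⟩ : Nonempty (U ↪ Fin (m + 1)) :=
      Function.Embedding.nonempty_of_card_le (by simpa using hU)
    refine ⟨Function.extend Subtype.val e fun _ => 0, Function.extend e Subtype.val fun _ => x,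
      fun u hu => ?_⟩
    rw [Subtype.val_injective.extend_apply e _ ⟨u, hu⟩, e.injective.extend_apply]
  refine card_le_card_of_injOn (fun i => (g ∘ i.1, i.2.map (mapG g))) (fun i hi => ?_)
    (Set.LeftInvOn.injOn (f₁' := fun j => (f ∘ j.1, j.2.map (mapG f))) fun i hi => ?_)
  · exact mem_coe.2 (mem_product.2 ⟨mem_univ _, mem_Sy.2
      ((length_mapG g _).trans (mem_Sy.1 (mem_product.1 (ht hi)).2))⟩)
  · obtain ⟨⟨-, ⟨hM, -⟩, -⟩, rfl⟩ := h i hi
    have hφ : ∀ w, f (g (i.1 w)) = i.1 w := fun w =>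
      hg _ (List.mem_toFinset.2 (List.mem_append_left _ (List.mem_ofFn.2 ⟨w, rfl⟩)))
    refine Prod.ext (funext hφ) ?_
    simp only [List.map_map]
    refine (List.map_congr_left fun T hT => ?_).trans (List.map_id _)
    obtain ⟨c, -, c1, c2, -⟩ := (forall₂_grow hM).2 T hT
    refine Prod.ext (by rw [id, c1]; exact c1 ▸ hφ _)
      (Prod.ext ?_ (by rw [id, c2]; exact c2 ▸ hφ _))
    simp only [Function.comp_apply, mapG, List.map_map, id]
    exact (List.map_congr_left fun z hz => hg z (List.mem_toFinset.2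
      (List.mem_append_right _ (List.mem_flatMap.2 ⟨T, hT, hz⟩)))).trans (List.map_id _)

end HamPerc.RG
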