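import Pool.Agent.Lib.MP_58a483_pr.RDefs

/-!
The inclusion-exclusion weight only depends on the ends of the lines.
-/

open Finset

namespace HamPerc.RG

variable {α : Type*} [DecidableEq α]

theorem rw_contract {η η' : Finset (Sym2 α)} (f : α → α)
    (hf : ∀ c d, s(c, d) ∈ η → Rch η' (f c) (f d)) {u v : α} (h : Rch η u v) :
    Rch η' (f u) (f v) :=
  h.induction (P := fun w => Rch η' (f u) (f w)) (Rch.refl _ _) fun c d hc he =>
    hc.trans (hf c d he)

theorem rw_ser_aux {S η : Finset (Sym2 α)} {x a u v : α} (hu : u ≠ x) (hv : v ≠ x)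
    (hS : ∀ e ∈ η, x ∉ e → e ∈ S) (hx : ∀ c, s(x, c) ∈ η → c = x ∨ Rch S a c)
    (h : Rch η u v) : Rch S u v := by
  have key := rw_contract (η' := S) (fun w => if w = x then a else w) (fun c d he => ?_) h
  · simpa only [if_neg hu, if_neg hv] using key
  · by_cases hc : c = x
    · subst hc
      by_cases hd : d = c
      · subst hd
        exact Rch.refl _ _
      · simp only [if_neg hd, if_true]
        exact (hx d he).resolve_left hd
    · by_cases hd : d = x
      · subst hd
        simp only [if_neg hc, if_true]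
        exact ((hx c (by rwa [Sym2.eq_swap])).resolve_left hc).symm
      · simp only [if_neg hc, if_neg hd]
        refine (Rch.refl _ _).step (hS _ he fun hm => ?_)
        rcases Sym2.mem_iff.1 hm with h1 | h1
        · exact hc h1.symm
        · exact hd h1.symm

/-- a pendant edge is irrelevant -/
theorem rw_pendant {S : Finset (Sym2 α)} {x a u v : α} (hS : ∀ e ∈ S, x ∉ e) (hu : u ≠ x)
    (hv : v ≠ x) : Rch (insert s(a, x) S) u v ↔ Rch S u v := by
  refine ⟨rw_ser_aux (a := a) hu hv (fun e he hx => ?_) fun c hc => ?_,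
    fun h => h.mono (subset_insert _ _)⟩
  · rcases mem_insert.1 he with rfl | he
    · exact absurd (Sym2.mem_mk_right _ _) hx
    · exact he
  · rcases mem_insert.1 hc with h | h
    · rcases Sym2.eq_iff.1 h with ⟨_, h2⟩ | ⟨_, h2⟩
      · exact Or.inl h2
      · exact Or.inr (h2 ▸ Rch.refl _ _)
    · exact absurd (Sym2.mem_mk_left _ _) (hS _ h)

/-- two edges in series -/
theorem rw_series {S : Finset (Sym2 α)} {x a b u v : α} (hS : ∀ e ∈ S, x ∉ e) (hu : u ≠ x)
    (hv : v ≠ x) : Rch (insert s(x, b) (insert s(a, x) S)) u v ↔ Rch (insert s(a, b) S) u v := by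
  constructor
  · refine rw_ser_aux (a := a) hu hv (fun e he hx => ?_) fun c hc => ?_
    · rcases mem_insert.1 he with rfl | he
      · exact absurd (Sym2.mem_mk_left _ _) hx
      · rcases mem_insert.1 he with rfl | he
        · exact absurd (Sym2.mem_mk_right _ _) hx
        · exact mem_insert_of_mem he
    · rcases mem_insert.1 hc with h | h
      · rcases Sym2.eq_iff.1 h with ⟨_, h2⟩ | ⟨_, h2⟩
        · exact Or.inr (h2 ▸ (Rch.refl _ _).step (mem_insert_self _ _))
        · exact Or.inl h2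
      · rcases mem_insert.1 h with h | h
        · rcases Sym2.eq_iff.1 h with ⟨_, h2⟩ | ⟨_, h2⟩
          · exact Or.inl h2
          · exact Or.inr (h2 ▸ Rch.refl _ _)
        · exact absurd (Sym2.mem_mk_left _ _) (hS _ h)
  · refine rw_contract id fun c d he => ?_
    have h0 : Rch (insert s(x, b) (insert s(a, x) S)) a b :=
      ((Rch.refl _ a).step (mem_insert_of_mem (mem_insert_self _ _))).step (mem_insert_self _ _)
    rcases mem_insert.1 he with h | h
    · rcases Sym2.eq_iff.1 h with ⟨rfl, rfl⟩ | ⟨rfl, rfl⟩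
      · exact h0
      · exact h0.symm
    · exact (Rch.refl _ _).step (mem_insert_of_mem (mem_insert_of_mem h))

theorem rw_mu_insert (x y : α) (R : Finset (Sym2 α)) {H : Finset (Sym2 α)} {e : Sym2 α}
    (he : e ∉ H) : mu x y R (insert e H) = mu x y (insert e R) H - mu x y R H := by
  unfold mu
  rw [dl_insert _ he]
  simp only [union_insert, insert_union]

theorem rw_mu_wt (x y : α) (R : Finset (Sym2 α)) {L : List (Sym2 α)} (hL : L.Nodup) :
    mu x y R L.toFinset = wt x y R L := by
  induction L generalizing R with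
  | nil => simp [mu, dl_empty, wt]
  | cons e L ih =>
    rw [List.nodup_cons] at hL
    rw [List.toFinset_cons, rw_mu_insert x y R (by simpa using hL.1), ih _ hL.2, ih _ hL.2, wt]

theorem rw_wt_congr {x y : α} {R R' : Finset (Sym2 α)} {P : List (Sym2 α)}
    (h : ∀ T ⊆ P.toFinset, Rch (R ∪ T) x y ↔ Rch (R' ∪ T) x y) : wt x y R P = wt x y R' P := by
  induction P generalizing R R' with
  | nil => simpa [wt] using ind_congr (by simpa using h ∅ (empty_subset _))
  | cons e P ih =>
    rw [List.toFinset_cons] at h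
    rw [wt, wt, ih (R := R) (R' := R') fun T hT => h T (hT.trans (subset_insert _ _)),
      ih (R := insert e R) (R' := insert e R') fun T hT => ?_]
    simpa only [union_insert, insert_union] using h (insert e T) (insert_subset_insert _ hT)

theorem rw_wt_zero {x y : α} {R : Finset (Sym2 α)} {P : List (Sym2 α)} {e : Sym2 α} (he : e ∈ P)
    (h : ∀ T ⊆ P.toFinset, Rch (insert e (R ∪ T)) x y ↔ Rch (R ∪ T) x y) : wt x y R P = 0 := by
  induction P generalizing R with
  | nil => simp at he
  | cons e' P ih =>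
    rw [List.toFinset_cons] at h
    rw [wt]
    rcases List.mem_cons.1 he with rfl | he
    · rw [sub_eq_zero]
      exact rw_wt_congr fun T hT => by
        rw [insert_union]
        exact h T (hT.trans (subset_insert _ _))
    · rw [ih he (R := R) fun T hT => h T (hT.trans (subset_insert _ _)),
        ih he (R := insert e' R) fun T hT => ?_, sub_zero]
      simpa only [union_insert, insert_union] using h (insert e' T) (insert_subset_insert _ hT)

theorem rw_wt_far {x y : α} {R : Finset (Sym2 α)} {P : List (Sym2 α)}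
    (h : ¬ Rch (R ∪ P.toFinset) x y) : wt x y R P = 0 := by
  induction P generalizing R with
  | nil => exact ind_neg (by simpa using h)
  | cons e P ih =>
    rw [List.toFinset_cons] at h
    rw [wt, ih (R := R) fun h' => h (h'.mono (union_subset_union_right (subset_insert _ _))),
      ih (R := insert e R) (by simpa only [union_insert, insert_union] using h), sub_zero]

omit [DecidableEq α] in
theorem rw_mem_eds {a b u : α} {l : List α} {e : Sym2 α} (he : e ∈ eds a l b) (hu : u ∈ e) :
    u = a ∨ u ∈ l ∨ u = b := by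
  induction l generalizing a with
  | nil =>
    obtain rfl : e = s(a, b) := by simpa [eds] using he
    rcases Sym2.mem_iff.1 hu with h | h
    · exact Or.inl h
    · exact Or.inr (Or.inr h)
  | cons x l ih =>
    rcases List.mem_cons.1 he with rfl | he
    · rcases Sym2.mem_iff.1 hu with h | h
      · exact Or.inl h
      · exact Or.inr (Or.inl (h ▸ List.mem_cons_self))
    · rcases ih he with h | h | h
      · exact Or.inr (Or.inl (h ▸ List.mem_cons_self))
      · exact Or.inr (Or.inl (List.mem_cons_of_mem _ h))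
      · exact Or.inr (Or.inr h)

omit [DecidableEq α] in
theorem rw_mem_sysE {Q : Finset α} {S : List (Ln α)} (h : ∀ T ∈ S, T.1 ∈ Q ∧ T.2.2 ∈ Q)
    {e : Sym2 α} (he : e ∈ sysE S) {u : α} (hu : u ∈ e) : u ∈ Q ∨ u ∈ sysI S := by
  obtain ⟨T, hT, he⟩ := List.mem_flatMap.1 he
  rcases rw_mem_eds he hu with h1 | h1 | h1
  · exact Or.inl (h1 ▸ (h T hT).1)
  · exact Or.inr (List.mem_flatMap.2 ⟨T, hT, h1⟩)
  · exact Or.inl (h1 ▸ (h T hT).2)

theorem rw_wt_eds {x y a b : α} {l : List α} {R : Finset (Sym2 α)} {P : List (Sym2 α)}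
    (hl : l.Nodup) (hx : x ∉ l) (hy : y ∉ l) (ha : a ∉ l)
    (hR : ∀ e ∈ R, ∀ u ∈ e, u ∉ l) (hP : ∀ e ∈ P, ∀ u ∈ e, u ∉ l) :
    wt x y R (eds a l b ++ P) = wt x y (insert s(a, b) R) P - wt x y R P := by
  induction l generalizing a R with
  | nil => rfl
  | cons z l ih =>
    rw [List.nodup_cons] at hl
    rw [List.mem_cons, not_or] at hx hy ha
    have hP' : ∀ e ∈ P, ∀ u ∈ e, u ∉ l := fun e he u hu h =>
      hP e he u hu (List.mem_cons_of_mem _ h)
    have hR' : ∀ e ∈ R, ∀ u ∈ e, u ∉ l := fun e he u hu h =>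
      hR e he u hu (List.mem_cons_of_mem _ h)
    have hz : ∀ T ⊆ P.toFinset, ∀ e ∈ R ∪ T, z ∉ e := fun T hT e he h => by
      rcases mem_union.1 he with he | he
      · exact hR e he z h List.mem_cons_self
      · exact hP e (List.mem_toFinset.1 (hT he)) z h List.mem_cons_self
    have e1 : wt x y (insert s(z, b) (insert s(a, z) R)) P = wt x y (insert s(a, b) R) P :=
      rw_wt_congr fun T hT => by
        simp only [insert_union]
        exact rw_series (hz T hT) hx.1 hy.1
    have e2 : wt x y (insert s(a, z) R) P = wt x y R P :=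
      rw_wt_congr fun T hT => by
        simp only [insert_union]
        exact rw_pendant (hz T hT) hx.1 hy.1
    have e3 : wt x y (insert s(z, b) R) P = wt x y R P :=
      rw_wt_congr fun T hT => by
        rw [insert_union, Sym2.eq_swap]
        exact rw_pendant (hz T hT) hx.1 hy.1
    have e4 : ∀ e ∈ insert s(a, z) R, ∀ u ∈ e, u ∉ l := fun e he u hu => by
      rcases mem_insert.1 he with rfl | he
      · rcases Sym2.mem_iff.1 hu with rfl | rfl
        · exact ha.2
        · exact hl.1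
      · exact hR' e he u hu
    rw [eds, List.cons_append, wt, ih hl.2 hx.2 hy.2 hl.1 e4 hP', ih hl.2 hx.2 hy.2 hl.1 hR' hP',
      e1, e2, e3]
    ring

theorem rw_wt_sys {Q : Finset α} {S : List (Ln α)} (h1 : ∀ T ∈ S, T.1 ∈ Q ∧ T.2.2 ∈ Q)
    (h2 : ∀ x ∈ sysI S, x ∉ Q) (h3 : (sysI S).Nodup) {x y : α} (hx : x ∈ Q)
    (hy : y ∈ Q) {R : Finset (Sym2 α)} (hR : ∀ e ∈ R, ∀ u ∈ e, u ∉ sysI S) :
    wt x y R (sysE S) = wt x y R ((sysP S).map fun c => s(c.1, c.2)) := by
  induction S generalizing R with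
  | nil => rfl
  | cons T S ih =>
    rw [sysI_cons] at h2 h3 hR
    have h1' : ∀ T' ∈ S, T'.1 ∈ Q ∧ T'.2.2 ∈ Q := fun T' h => h1 T' (List.mem_cons_of_mem _ h)
    have h2' : ∀ u ∈ sysI S, u ∉ Q := fun u h => h2 u (List.mem_append_right _ h)
    have hq : ∀ u ∈ Q, u ∉ T.2.1 := fun u h h' => h2 u (List.mem_append_left _ h') h
    have hT := h1 T List.mem_cons_self
    rw [List.nodup_append] at h3
    have hR' : ∀ e ∈ R, ∀ u ∈ e, u ∉ sysI S := fun e he u hu h =>
      hR e he u hu (List.mem_append_right _ h)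
    rw [sysE_cons, sysP_cons, List.map_cons, wt,
      rw_wt_eds h3.1 (hq x hx) (hq y hy) (hq _ hT.1)
        (fun e he u hu h => hR e he u hu (List.mem_append_left _ h)) fun e he u hu h => ?_,
      ih h1' h2' h3.2.1 hR', ih h1' h2' h3.2.1 fun e he u hu h => ?_]
    · rcases mem_insert.1 he with rfl | he
      · rcases Sym2.mem_iff.1 hu with rfl | rfl
        · exact h2' _ h hT.1
        · exact h2' _ h hT.2
      · exact hR' e he u hu h
    · rcases rw_mem_sysE h1' he hu with h4 | h4
      · exact hq u h4 h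
      · exact h3.2.2 u h u h4 rfl

theorem mu_good {Q : Finset α} {S : List (Ln α)} (h : Good Q S) {x y : α} (hx : x ∈ Q)
    (hy : y ∈ Q) {R : Finset (Sym2 α)} (hR : ∀ e ∈ R, ∀ u ∈ e, u ∉ sysI S) :
    mu x y R (sysE S).toFinset = wt x y R ((sysP S).map fun c => s(c.1, c.2)) := by
  rw [rw_mu_wt x y R h.ndE, rw_wt_sys h.ends h.int h.ndI hx hy hR]

theorem wt_map {β : Type*} [DecidableEq β] {φ : β → α} (hφ : Function.Injective φ) (x y : β)
    (R : Finset (Sym2 β)) (P : List (Sym2 β)) :
    wt (φ x) (φ y) (emap φ R) (P.map (Sym2.map φ)) = wt x y R P := by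
  induction P generalizing R with
  | nil => exact ind_congr (rch_map hφ)
  | cons e P ih =>
    rw [List.map_cons, wt, wt, ← ih, ← ih]
    unfold emap
    rw [image_insert]

theorem wt_loop {x y : α} {R : Finset (Sym2 α)} {P : List (Sym2 α)} {e : Sym2 α} (he : e ∈ P)
    (hd : e.IsDiag) : wt x y R P = 0 := by
  refine rw_wt_zero he fun T _ => ⟨fun h => ?_, fun h => h.mono (subset_insert _ _)⟩
  refine rw_contract id (fun c d hc => ?_) h
  rcases mem_insert.1 hc with h1 | h1
  · obtain rfl : c = d := Sym2.mk_isDiag_iff.1 (h1 ▸ hd)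
    exact Rch.refl _ _
  · exact (Rch.refl _ _).step h1

theorem wt_conn {x y : α} {P : List (Sym2 α)} (h : wt x y ∅ P ≠ 0) :
    Rch P.toFinset x y ∧ ∀ e ∈ P, ∀ u ∈ e, Rch P.toFinset x u := by
  refine ⟨by_contra fun hn => h (rw_wt_far (by rwa [empty_union])), fun e he u hu => ?_⟩
  by_contra hn
  refine h (rw_wt_zero he fun T hT => ?_)
  rw [empty_union]
  refine Rch.stop fun e' ⟨w, hw, hr⟩ => ?_
  rw [mem_insert]
  refine ⟨Or.inr, fun h' => h'.resolve_left fun e0 => hn ?_⟩
  subst e0
  by_cases hwu : w = u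
  · exact hwu ▸ hr.mono hT
  · refine (hr.mono hT).step ?_
    rw [← (Sym2.mem_and_mem_iff hwu).1 ⟨hw, hu⟩]
    exact List.mem_toFinset.2 he

theorem abs_mu_le (x y : α) (R H : Finset (Sym2 α)) : |mu x y R H| ≤ 2 ^ H.card := by
  unfold mu dl
  refine (abs_sum_le_sum_abs _ _).trans ((sum_le_card_nsmul _ _ 1 fun T _ => ?_).trans ?_)
  · rw [abs_mul, abs_pow, abs_neg, abs_one, one_pow, one_mul, abs_of_nonneg (ind_nonneg _)]
    exact ind_le_one _
  · simp [card_powerset]

theorem mu_pq [Fintype α] {x y : α} (hxy : x ≠ y) {H : Finset (Sym2 α)}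
    (hd : ∀ e ∈ H, ¬ e.IsDiag) (h : mu x y ∅ H ≠ 0) :
    PQ (insert x (insert y (br x y H))) H ∧ 1 ≤ dg H x ∧ 1 ≤ dg H y ∧
      ∀ u ∈ vs H, Rch H x u := by
  have h1 := rw_mu_wt x y ∅ H.nodup_toList
  rw [toList_toFinset] at h1
  obtain ⟨h2, h3⟩ := wt_conn (h1 ▸ h)
  rw [toList_toFinset] at h2 h3
  have h4 : ∀ e ∈ H, ∀ u ∈ e, Rch H x u := fun e he => h3 e (mem_toList.2 he)
  have h5 : ∀ u, (∃ e ∈ H, u ∈ e) → 1 ≤ dg H u := fun u ⟨e, he, hu⟩ =>
    card_pos.2 ⟨e, mem_filter.2 ⟨he, hu⟩⟩
  refine ⟨⟨hd, fun u hu => ?_, fun e he => ?_⟩, h5 x (h2.symm.vis.resolve_left hxy),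
    h5 y (h2.vis.resolve_left hxy.symm), fun u hu => ?_⟩
  · simp only [br, mem_insert, mem_filter, mem_univ, true_and, not_or, not_and, not_le] at hu
    have h6 := hu.2.2 hu.1 hu.2.1
    have h7 : dg H u ≠ 1 := fun h7 => by
      obtain ⟨e, he⟩ := card_eq_one.1 h7
      have h8 : e ∈ H.filter fun e => u ∈ e := he ▸ mem_singleton_self e
      obtain ⟨c, rfl⟩ := Sym2.mem_iff_exists.1 (mem_filter.1 h8).2
      refine h (dl_eq_zero (mem_filter.1 h8).1 fun T hT hn => ind_congr ?_)
      rw [empty_union, empty_union, Sym2.eq_swap]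
      refine rw_pendant (fun e' he' hu' => hn ?_) (Ne.symm hu.1) (Ne.symm hu.2.1)
      have h9 : e' ∈ H.filter fun e => u ∈ e := mem_filter.2 ⟨hT he', hu'⟩
      rw [he, mem_singleton] at h9
      exact h9 ▸ he'
    omega
  · exact ⟨x, mem_insert_self _ _, e.out.1, Sym2.out_fst_mem e, h4 e he _ (Sym2.out_fst_mem e)⟩
  · obtain ⟨e, he, hu⟩ := (mem_filter.1 hu).2
    exact h4 e he u hu

end HamPerc.RG
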