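import Pool.Agent.Lib.MP_58a483_pr.RCount
import Pool.Agent.Lib.MP_58a483_pr.RWeight

/-!
From diagrams with a fixed labelling to edge sets.
-/

open Finset

namespace HamPerc.RG

section Aux

variable {α : Type*} {m : ℕ} {φ : Fin m → α}

private theorem mt_sysP {P : List (AL m)} {S : List (Ln α)} (h : Match φ P S) :
    sysP S = P.map fun c => (φ c.2.1, φ c.2.2) := by
  unfold Match at h
  induction h with
  | nil => rfl
  | cons h _ ih => rw [sysP_cons, ih, h.1, h.2.1, List.map_cons]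

private theorem mt_filter [DecidableEq α] {P : List (AL m)} {S : List (Ln α)} (h : Match φ P S) :
    ((S.filter fun T => T.2.1 = []).map fun T => s(T.1, T.2.2)) =
      ((P.filter fun c => !c.1).map fun c => s(c.2.1, c.2.2)).map (Sym2.map φ) := by
  unfold Match at h
  induction h with
  | nil => rfl
  | @cons c T P S h _ ih =>
    by_cases hT : T.2.1 = []
    · have hc : c.1 = false := by
        cases hc : c.1 with
        | false => rfl
        | true => exact absurd hT (h.2.2.1 hc)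
      rw [List.filter_cons_of_pos (by simpa using hT), List.filter_cons_of_pos (by simp [hc]),
        List.map_cons, List.map_cons, List.map_cons, ih, h.1, h.2.1, Sym2.map_mk]
    · rw [List.filter_cons_of_neg (by simpa using hT),
        List.filter_cons_of_neg (by simp [h.2.2.2 hT]), ih]

private theorem mt_unique (hφ : Function.Injective φ) {P P' : List (AL m)} {S : List (Ln α)}
    (h : Match φ P S) (h' : Match φ P' S) : P' = P := by
  unfold Match at h h'
  induction h generalizing P' with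
  | nil => exact List.forall₂_nil_right_iff.1 h'
  | @cons c T P S h _ ih =>
    obtain ⟨c', P'', h1, h2, rfl⟩ := List.forall₂_cons_right_iff.1 h'
    rw [ih h2]
    congr 1
    refine Prod.ext ?_ (Prod.ext (hφ (h1.1.symm.trans h.1)) (hφ (h1.2.1.symm.trans h.2.1)))
    exact Bool.eq_iff_iff.2 (h1.2.2.trans h.2.2.symm)

private theorem mt_exists {S : List (Ln α)}
    (h : ∀ T ∈ S, (∃ w, φ w = T.1) ∧ ∃ w, φ w = T.2.2) : ∃ P, Match φ P S := by
  induction S with
  | nil => exact ⟨[], List.Forall₂.nil⟩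
  | cons T S ih =>
    obtain ⟨P, hP⟩ := ih fun T' hT' => h T' (List.mem_cons_of_mem _ hT')
    obtain ⟨⟨w, hw⟩, w', hw'⟩ := h T List.mem_cons_self
    refine ⟨(!T.2.1.isEmpty, w, w') :: P, List.Forall₂.cons ⟨hw.symm, hw'.symm, ?_⟩ hP⟩
    simp

private theorem mt_en [DecidableEq α] (hφ : Function.Injective φ) (P : List (AL m)) (w : Fin m) :
    en (P.map fun c => (φ c.2.1, φ c.2.2)) (φ w) = en (P.map Prod.snd) w := by
  simp only [en, List.map_map, Function.comp_def, hφ.eq_iff]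

end Aux

variable {α : Type*} [Fintype α] [DecidableEq α]

omit [Fintype α] in
private theorem one_sys {b : ℕ} {φ : Fin (b + 2) → α} (hφ : Function.Injective φ) (t : ℕ)
    {S : List (Ln α)} (h2 : ∀ x ∈ sysI S, x ∉ univ.image φ) (h3 : (sysI S).Nodup) :
    ∑ P ∈ Lk (AL (b + 2)) t, om P * ind (Match φ P S) =
      ind (Good (univ.image φ) S ∧ S.length = t ∧
        ∀ w, w ≠ 0 → w ≠ 1 → 3 ≤ en (sysP S) (φ w)) * mu (φ 0) (φ 1) ∅ (sysE S).toFinset := by
  by_cases hP : ∃ P, Match φ P S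
  swap
  · rw [ind_neg, zero_mul]
    · exact sum_eq_zero fun P _ => by rw [ind_neg fun h => hP ⟨P, h⟩, mul_zero]
    · exact fun h => hP (mt_exists fun T hT => by simpa using h.1.ends T hT)
  obtain ⟨P, hP⟩ := hP
  have hl : P.length = S.length := List.Forall₂.length_eq hP
  by_cases ht : S.length = t
  swap
  · rw [ind_neg fun h => ht h.2.1, zero_mul]
    refine sum_eq_zero fun P' hP' => ?_
    rw [ind_neg, mul_zero]
    intro h
    rw [mt_unique hφ hP h, mem_Lk] at hP'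
    exact ht (hl.symm.trans hP')
  rw [sum_eq_single_of_mem P (mem_Lk.2 (hl.trans ht))
    fun P' _ hne => by rw [ind_neg fun h => hne (mt_unique hφ hP h), mul_zero], ind_pos hP, mul_one]
  have hs := mt_sysP hP
  have hw : wt (φ 0) (φ 1) ∅ ((sysP S).map fun c => s(c.1, c.2)) =
      wt 0 1 ∅ (P.map fun c => s(c.2.1, c.2.2)) := by
    rw [← wt_map hφ, hs, List.map_map, List.map_map]
    congr 1
  have h1 : ∀ T ∈ S, T.1 ∈ univ.image φ ∧ T.2.2 ∈ univ.image φ := fun T hT => by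
    have h4 : (T.1, T.2.2) ∈ sysP S := List.mem_map_of_mem hT
    rw [hs] at h4
    obtain ⟨c, _, hc⟩ := List.mem_map.1 h4
    rw [← (Prod.mk.inj hc).1, ← (Prod.mk.inj hc).2]
    exact ⟨mem_image_of_mem _ (mem_univ _), mem_image_of_mem _ (mem_univ _)⟩
  have hmu : Good (univ.image φ) S → mu (φ 0) (φ 1) ∅ (sysE S).toFinset =
      wt (φ 0) (φ 1) ∅ ((sysP S).map fun c => s(c.1, c.2)) := fun hG =>
    mu_good hG (mem_image_of_mem _ (mem_univ _)) (mem_image_of_mem _ (mem_univ _))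
      fun e he => absurd he (notMem_empty e)
  unfold om
  rw [← hw]
  by_cases h4 : ∀ T ∈ S, T.1 ≠ T.2.2
  · have h5 : Good (univ.image φ) S ↔
        ((P.filter fun c => !c.1).map fun c => s(c.2.1, c.2.2)).Nodup := by
      rw [← List.nodup_map_iff (Sym2.map.injective hφ), ← mt_filter hP, ← nodup_sysE h1 h2 h3 h4]
      exact ⟨fun h => h.ndE, fun h => ⟨h1, h2, h3, h⟩⟩
    by_cases hG : Good (univ.image φ) S
    · rw [hmu hG, mul_comm]
      congr 1
      refine ind_congr ?_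
      simp only [hs, mt_en hφ, hG, ht, h5.1 hG, true_and, and_true]
    · rw [ind_neg fun h => hG (h5.2 h.2), ind_neg fun h => hG h.1, mul_zero, zero_mul]
  · push Not at h4
    obtain ⟨T, hT, hT'⟩ := h4
    have h6 : wt (φ 0) (φ 1) ∅ ((sysP S).map fun c => s(c.1, c.2)) = 0 :=
      wt_loop (e := s(T.1, T.2.2))
        (List.mem_map.2 ⟨(T.1, T.2.2), List.mem_map_of_mem hT, rfl⟩) (Sym2.mk_isDiag_iff.2 hT')
    rw [h6, zero_mul]
    by_cases hG : Good (univ.image φ) S
    · rw [hmu hG, h6, mul_zero]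
    · rw [ind_neg fun h => hG h.1, zero_mul]

theorem ident1 (G : SimpleGraph α) [Fintype G.edgeSet] {b : ℕ} (φ : Fin (b + 2) → α) (t k : ℕ) :
    ∑ P ∈ Lk (AL (b + 2)) t, om P * ∑ S ∈ Sy α k,
      ind (Match φ P S ∧ ∀ e ∈ sysE S, e ∈ G.edgeSet) * ind (List.ofFn φ ++ sysI S).Nodup =
    ind (Function.Injective φ) * ((t.factorial : ℝ) * 2 ^ t) *
      ∑ H ∈ powersetCard k G.edgeFinset, ind (PQ (univ.image φ) H ∧
        ∑ q ∈ univ.image φ, dg H q = 2 * t ∧ ∀ w, w ≠ 0 → w ≠ 1 → 3 ≤ dg H (φ w)) *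
          mu (φ 0) (φ 1) ∅ H := by
  by_cases hφ : Function.Injective φ
  swap
  · rw [ind_neg hφ, zero_mul, zero_mul]
    refine sum_eq_zero fun P _ => ?_
    rw [sum_eq_zero, mul_zero]
    intro S _
    rw [ind_neg (P := (List.ofFn φ ++ sysI S).Nodup)
      fun h => hφ (List.nodup_ofFn.1 h.of_append_left), mul_zero]
  have hR : ∀ H ∈ powersetCard k G.edgeFinset, ((t.factorial : ℝ) * 2 ^ t) *
      (ind (PQ (univ.image φ) H ∧ ∑ q ∈ univ.image φ, dg H q = 2 * t ∧
        ∀ w, w ≠ 0 → w ≠ 1 → 3 ≤ dg H (φ w)) * mu (φ 0) (φ 1) ∅ H) =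
      ∑ S ∈ Sy α k, ind (Good (univ.image φ) S ∧ (sysE S).toFinset = H) *
        (ind (PQ (univ.image φ) H ∧ ∑ q ∈ univ.image φ, dg H q = 2 * t ∧
          ∀ w, w ≠ 0 → w ≠ 1 → 3 ≤ dg H (φ w)) * mu (φ 0) (φ 1) ∅ H) := fun H hH => by
    rw [← sum_mul]
    by_cases h : PQ (univ.image φ) H ∧ ∑ q ∈ univ.image φ, dg H q = 2 * t ∧
        ∀ w, w ≠ 0 → w ≠ 1 → 3 ≤ dg H (φ w)
    · rw [← (mem_powersetCard.1 hH).2, count_good h.1 h.2.1]
    · rw [ind_neg h, zero_mul, mul_zero, mul_zero]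
  rw [ind_pos hφ, one_mul, mul_sum, sum_congr rfl hR, sum_comm]
  simp only [mul_sum]
  rw [sum_comm]
  refine sum_congr rfl fun S hS => ?_
  have hN : (List.ofFn φ ++ sysI S).Nodup ↔
      (∀ x ∈ sysI S, x ∉ univ.image φ) ∧ (sysI S).Nodup := by
    rw [List.nodup_append]
    constructor
    · rintro ⟨-, h1, h2⟩
      refine ⟨fun x hx hx' => ?_, h1⟩
      obtain ⟨w, -, rfl⟩ := mem_image.1 hx'
      exact h2 _ (List.mem_ofFn.2 ⟨w, rfl⟩) _ hx rfl
    · rintro ⟨h1, h2⟩
      refine ⟨List.nodup_ofFn.2 hφ, h2, fun x hx y hy hxy => h1 y hy ?_⟩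
      obtain ⟨w, rfl⟩ := List.mem_ofFn.1 hx
      exact hxy ▸ mem_image_of_mem _ (mem_univ _)
  have hL : ∑ P ∈ Lk (AL (b + 2)) t, om P * (ind (Match φ P S ∧ ∀ e ∈ sysE S, e ∈ G.edgeSet) *
      ind (List.ofFn φ ++ sysI S).Nodup) = (∑ P ∈ Lk (AL (b + 2)) t, om P * ind (Match φ P S)) *
      (ind (∀ e ∈ sysE S, e ∈ G.edgeSet) * ind (List.ofFn φ ++ sysI S).Nodup) := by
    rw [sum_mul]
    exact sum_congr rfl fun P _ => by rw [ind_and]; ring
  rw [hL]
  by_cases hG : Good (univ.image φ) S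
  swap
  · rw [sum_eq_zero (s := powersetCard k G.edgeFinset)
      fun H _ => by rw [ind_neg fun h => hG h.1, zero_mul]]
    by_cases hn : (List.ofFn φ ++ sysI S).Nodup
    · rw [one_sys hφ t (hN.1 hn).1 (hN.1 hn).2, ind_neg fun h => hG h.1, zero_mul, zero_mul]
    · rw [ind_neg hn, mul_zero, mul_zero]
  by_cases hE : ∀ e ∈ sysE S, e ∈ G.edgeSet
  swap
  · rw [ind_neg hE, zero_mul, mul_zero, sum_eq_zero]
    intro H hH
    rw [ind_neg, zero_mul]
    rintro ⟨-, rfl⟩
    exact hE fun e he => SimpleGraph.mem_edgeFinset.1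
      ((mem_powersetCard.1 hH).1 (List.mem_toFinset.2 he))
  have hH : (sysE S).toFinset ∈ powersetCard k G.edgeFinset :=
    mem_powersetCard.2 ⟨fun e he => SimpleGraph.mem_edgeFinset.2 (hE e (List.mem_toFinset.1 he)),
      (List.toFinset_card_of_nodup hG.ndE).trans (mem_Sy.1 hS)⟩
  obtain ⟨hq, hd⟩ := hG.pq fun e he => G.not_isDiag_of_mem_edgeSet (hE e he)
  rw [sum_eq_single_of_mem _ hH fun H _ hne => by rw [ind_neg fun h => hne h.2.symm, zero_mul],
    one_sys hφ t hG.int hG.ndI, ind_pos hE, ind_pos (hN.2 ⟨hG.int, hG.ndI⟩),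
    ind_pos (P := Good (univ.image φ) S ∧ (sysE S).toFinset = (sysE S).toFinset) ⟨hG, rfl⟩,
    mul_one, mul_one, one_mul]
  congr 1
  refine ind_congr ?_
  have h1 : ∑ q ∈ univ.image φ, dg (sysE S).toFinset q = 2 * S.length := by
    rw [sum_congr rfl hd, sum_en, sysP, List.length_map]
    intro c hc
    obtain ⟨T, hT, rfl⟩ := List.mem_map.1 hc
    exact hG.ends T hT
  have h2 : ∀ w, dg (sysE S).toFinset (φ w) = en (sysP S) (φ w) := fun w =>
    hd _ (mem_image_of_mem _ (mem_univ _))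
  simp only [h1, h2, hG, hq, true_and, mul_right_inj' (two_ne_zero (α := ℕ))]

end HamPerc.RG
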