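import Pool.Agent.Lib.MP_58a483_pr.RWeight

/-!
Summation over the labellings of the branch vertices.
-/

open Finset

namespace HamPerc.RG

variable {α : Type*} [Fintype α] [DecidableEq α]

omit [DecidableEq α] in
theorem sum_cons_id2 {m : ℕ} (f : (Fin (m + 1) → α) → ℝ) :
    ∑ φ, f φ = ∑ x, ∑ ψ : Fin m → α, f (Fin.cons x ψ) := by
  rw [← Fintype.sum_prod_type']
  exact ((Fin.consEquiv fun _ : Fin (m + 1) => α).sum_comp f).symm

theorem cnt_id2 (B : Finset α) {b : ℕ} (h : B.card = b) :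
    ∑ ψ : Fin b → α, ind (Function.Injective ψ ∧ ∀ j, ψ j ∈ B) = b.factorial := by
  classical
  rw [sum_ind, ← Fintype.card_subtype]
  have e : {ψ : Fin b → α // Function.Injective ψ ∧ ∀ j, ψ j ∈ B} ≃ (Fin b ↪ B) :=
    ⟨fun ψ => ⟨fun j => ⟨ψ.1 j, ψ.2.2 j⟩, fun _ _ h => ψ.2.1 (congrArg Subtype.val h)⟩,
      fun f => ⟨fun j => f j, fun _ _ h => f.injective (Subtype.ext h), fun j => (f j).2⟩,
      fun _ => rfl, fun _ => rfl⟩
  rw [Fintype.card_congr e, Fintype.card_embedding_eq, Fintype.card_fin, Fintype.card_coe, h,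
    Nat.descFactorial_self]

omit [Fintype α] in
theorem image_cons_id2 {m : ℕ} (x : α) (ψ : Fin m → α) :
    univ.image (Fin.cons x ψ : Fin (m + 1) → α) = insert x (univ.image ψ) := by
  ext u
  simp [Fin.exists_fin_succ, eq_comm]

theorem hand_id2 {H : Finset (Sym2 α)} (hd : ∀ e ∈ H, ¬ e.IsDiag) :
    ∑ u, dg H u = 2 * H.card := by
  unfold dg
  simp only [card_filter]
  rw [sum_comm, mul_comm, ← smul_eq_mul, ← sum_const]
  refine sum_congr rfl fun e he => ?_
  have h1 := hd e he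
  induction e using Sym2.ind with
  | h a c =>
    have h2 : a ≠ c := by simpa using h1
    rw [← card_filter, ← card_pair h2]
    congr 1
    ext u
    simp

theorem mem_vs_id2 {H : Finset (Sym2 α)} {u : α} : u ∈ vs H ↔ 1 ≤ dg H u := by
  unfold vs dg
  rw [Nat.succ_le_iff, card_pos]
  simp [Finset.Nonempty]

theorem iff_id2 {H : Finset (Sym2 α)} {x y : α} (hxy : x ≠ y)
    (hP : PQ (insert x (insert y (br x y H))) H) {b : ℕ} (t : ℕ) (ψ : Fin b → α) :
    (Function.Injective (Fin.cons x (Fin.cons y ψ) : Fin (b + 2) → α) ∧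
      (PQ (univ.image (Fin.cons x (Fin.cons y ψ) : Fin (b + 2) → α)) H ∧
        ∑ q ∈ univ.image (Fin.cons x (Fin.cons y ψ) : Fin (b + 2) → α), dg H q = 2 * t ∧
        ∀ w, w ≠ 0 → w ≠ 1 → 3 ≤ dg H ((Fin.cons x (Fin.cons y ψ) : Fin (b + 2) → α) w))) ↔
    ((br x y H).card = b ∧ ∑ q ∈ insert x (insert y (br x y H)), dg H q = 2 * t) ∧
      (Function.Injective ψ ∧ ∀ j, ψ j ∈ br x y H) := by
  have hw : (∀ w, w ≠ 0 → w ≠ 1 → 3 ≤ dg H ((Fin.cons x (Fin.cons y ψ) : Fin (b + 2) → α) w)) ↔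
      ∀ j, 3 ≤ dg H (ψ j) := by
    rw [Fin.forall_fin_succ, Fin.forall_fin_succ]
    constructor
    · rintro ⟨-, -, h⟩ j
      exact h j (Fin.succ_ne_zero _) fun h => Fin.succ_ne_zero j (Fin.succ_injective _ h)
    · intro h
      exact ⟨fun h => absurd rfl h, fun _ h => absurd rfl h, fun j _ _ => h j⟩
  rw [hw, image_cons_id2, image_cons_id2, Fin.cons_injective_iff, Fin.cons_injective_iff,
    Fin.range_cons]
  have hm : ∀ u, u ∈ br x y H ↔ u ≠ x ∧ u ≠ y ∧ 3 ≤ dg H u := fun u => by simp [br]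
  constructor
  · rintro ⟨⟨h1, h2, h3⟩, h4, h5, h6⟩
    have h7 : ∀ j, ψ j ∈ br x y H := fun j =>
      (hm _).2 ⟨fun h => h1 (Or.inr ⟨j, h⟩), fun h => h2 ⟨j, h⟩, h6 j⟩
    have h8 : univ.image ψ = br x y H := by
      refine Subset.antisymm (image_subset_iff.2 fun j _ => h7 j) fun u hu => ?_
      obtain ⟨u1, u2, u3⟩ := (hm u).1 hu
      by_contra hc
      have := h4.two u (by simp only [mem_insert, not_or]; exact ⟨u1, u2, hc⟩)
      omega
    refine ⟨⟨?_, h8 ▸ h5⟩, h3, h7⟩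
    rw [← h8, card_image_of_injective _ h3, card_univ, Fintype.card_fin]
  · rintro ⟨⟨h1, h2⟩, h3, h4⟩
    have h8 : univ.image ψ = br x y H := by
      refine eq_of_subset_of_card_le (image_subset_iff.2 fun j _ => h4 j) ?_
      rw [card_image_of_injective _ h3, card_univ, Fintype.card_fin, h1]
    rw [h8]
    refine ⟨⟨?_, ?_, h3⟩, hP, h2, fun j => ((hm _).1 (h4 j)).2.2⟩
    · rintro (h | ⟨j, h⟩)
      · exact hxy h
      · exact ((hm _).1 (h4 j)).1 h
    · rintro ⟨j, h⟩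
      exact ((hm _).1 (h4 j)).2.1 h

theorem one_id2 (i : ℕ) {H : Finset (Sym2 α)} (hd : ∀ e ∈ H, ¬ e.IsDiag) {x y : α} (hxy : x ≠ y)
    (hP : PQ (insert x (insert y (br x y H))) H) (hx : 1 ≤ dg H x) (hy : 1 ≤ dg H y) :
    ∑ b ∈ range (2 * i + 1), ∑ t ∈ Icc (b + 1) (b + i + 1),
      ind ((br x y H).card = b ∧ ∑ q ∈ insert x (insert y (br x y H)), dg H q = 2 * t) =
    ind (H.card + 1 ≤ (vs H).card + i) := by
  have hm : ∀ u, u ∈ br x y H ↔ u ≠ x ∧ u ≠ y ∧ 3 ≤ dg H u := fun u => by simp [br]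
  have hy' : y ∉ br x y H := fun h => ((hm _).1 h).2.1 rfl
  have hx' : x ∉ insert y (br x y H) := by
    rw [mem_insert, not_or]
    exact ⟨hxy, fun h => ((hm _).1 h).1 rfl⟩
  set Q := insert x (insert y (br x y H)) with hQ
  have h1 : Q.card = (br x y H).card + 2 := by
    rw [hQ, card_insert_of_notMem hx', card_insert_of_notMem hy']
  have h2 : 3 * (br x y H).card + 2 ≤ ∑ q ∈ Q, dg H q := by
    rw [hQ, sum_insert hx', sum_insert hy']
    have : (br x y H).card * 3 ≤ ∑ q ∈ br x y H, dg H q :=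
      card_nsmul_le_sum (br x y H) (dg H) 3 fun u hu => ((hm _).1 hu).2.2
    omega
  have h3 : Q ⊆ vs H := fun u hu => by
    rw [mem_vs_id2]
    rcases mem_insert.1 hu with rfl | hu
    · exact hx
    rcases mem_insert.1 hu with rfl | hu
    · exact hy
    · have := ((hm _).1 hu).2.2
      omega
  have h4 : ∑ u ∈ vs H \ Q, dg H u = 2 * (vs H \ Q).card := by
    rw [mul_comm, ← smul_eq_mul, ← sum_const]
    refine sum_congr rfl fun u hu => ?_
    have a1 := mem_vs_id2.1 (mem_sdiff.1 hu).1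
    have a2 := hP.two u (mem_sdiff.1 hu).2
    omega
  have h5 : ∑ u ∈ vs H, dg H u = 2 * H.card := by
    rw [← hand_id2 hd]
    refine sum_subset (subset_univ _) fun u _ hu => ?_
    rw [mem_vs_id2] at hu
    omega
  have h6 := sum_sdiff (f := dg H) h3
  have h7 := card_sdiff_add_card_eq_card h3
  generalize (∑ q ∈ Q, dg H q) = S at *
  generalize (br x y H).card = c at *
  by_cases h : H.card + 1 ≤ (vs H).card + i
  · rw [ind_pos h, sum_eq_single_of_mem c (mem_range.2 (by omega)),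
      sum_eq_single_of_mem (H.card - (vs H \ Q).card) (mem_Icc.2 (by omega)),
      ind_pos ⟨rfl, by omega⟩]
    · intro t _ ht
      exact ind_neg fun h' => ht (by omega)
    · intro b _ hb
      exact sum_eq_zero fun t _ => ind_neg fun h' => hb h'.1.symm
  · rw [ind_neg h]
    refine sum_eq_zero fun b _ => sum_eq_zero fun t ht => ind_neg fun h' => h ?_
    rw [mem_Icc] at ht
    omega

theorem ident2 (i : ℕ) {H : Finset (Sym2 α)} (hd : ∀ e ∈ H, ¬ e.IsDiag) :
    ∑ b ∈ range (2 * i + 1), ∑ t ∈ Icc (b + 1) (b + i + 1), (b.factorial : ℝ)⁻¹ *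
      ∑ φ : Fin (b + 2) → α, ind (Function.Injective φ) * (ind (PQ (univ.image φ) H ∧
        ∑ q ∈ univ.image φ, dg H q = 2 * t ∧ ∀ w, w ≠ 0 → w ≠ 1 → 3 ≤ dg H (φ w)) *
          mu (φ 0) (φ 1) ∅ H) =
    ∑ x : α, ∑ y : α, ind (x ≠ y ∧ H.card + 1 ≤ (vs H).card + i) * mu x y ∅ H := by
  have key : ∀ b t : ℕ, (b.factorial : ℝ)⁻¹ *
      ∑ φ : Fin (b + 2) → α, ind (Function.Injective φ) * (ind (PQ (univ.image φ) H ∧
        ∑ q ∈ univ.image φ, dg H q = 2 * t ∧ ∀ w, w ≠ 0 → w ≠ 1 → 3 ≤ dg H (φ w)) *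
          mu (φ 0) (φ 1) ∅ H) = ∑ x : α, ∑ y : α, ind (x ≠ y) * (ind ((br x y H).card = b ∧
            ∑ q ∈ insert x (insert y (br x y H)), dg H q = 2 * t) * mu x y ∅ H) := by
    intro b t
    rw [sum_cons_id2, mul_sum]
    refine sum_congr rfl fun x _ => ?_
    rw [sum_cons_id2, mul_sum]
    refine sum_congr rfl fun y _ => ?_
    simp only [Fin.cons_zero, Fin.cons_one]
    by_cases h0 : mu x y ∅ H = 0
    · simp [h0]
    by_cases hxy : x = y
    · rw [ind_neg (not_not.2 hxy), zero_mul, sum_eq_zero, mul_zero]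
      intro ψ _
      rw [ind_neg, zero_mul]
      intro h
      have : (0 : Fin (b + 2)) = 1 := h (by simpa using hxy)
      exact absurd this Fin.zero_ne_one
    have hP := (mu_pq hxy hd h0).1
    simp only [← mul_assoc, ← ind_and]
    simp only [iff_id2 hxy hP t, ind_and, ← sum_mul, ← mul_sum]
    rw [ind_pos hxy]
    by_cases hb : (br x y H).card = b
    · rw [← mul_assoc]
      simp only [← ind_and (Function.Injective _)]
      rw [cnt_id2 _ hb]
      have : (b.factorial : ℝ) ≠ 0 := by exact_mod_cast b.factorial_ne_zero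
      field_simp
    · simp [ind_neg hb]
  simp only [key]
  simp only [sum_comm (s := Icc _ _) (t := (univ : Finset α))]
  rw [sum_comm]
  refine sum_congr rfl fun x _ => ?_
  rw [sum_comm]
  refine sum_congr rfl fun y _ => ?_
  by_cases h0 : mu x y ∅ H = 0
  · simp [h0]
  by_cases hxy : x = y
  · simp [hxy, ind]
  obtain ⟨hP, hx, hy, -⟩ := mu_pq hxy hd h0
  simp only [← mul_sum, ← sum_mul]
  rw [one_id2 i hd hxy hP hx hy, ind_and, mul_assoc]

end HamPerc.RG
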