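import Pool.Agent.Lib.MP_58a483_pr.RDefs

/-!
From approximation by rational functions to rationality of the coefficients.
-/

open Finset

namespace HamPerc.RG

theorem poly_coeff_zero_rr (R : Polynomial ℝ) (K : ℕ) (C : ℝ)
    (h : ∀ n : ℕ, 1 ≤ n → |R.eval (n : ℝ)⁻¹| ≤ C * (n : ℝ)⁻¹ ^ K) :
    ∀ i < K, R.coeff i = 0 := by
  rw [← Polynomial.X_pow_dvd_iff]
  induction K generalizing C with
  | zero => simp
  | succ K ih =>
    obtain ⟨Q, rfl⟩ : Polynomial.X ^ K ∣ R := by
      refine ih |C| fun n hn => (h n hn).trans ?_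
      have h1 : (n : ℝ)⁻¹ ≤ 1 := inv_le_one_of_one_le₀ (by exact_mod_cast hn)
      rw [pow_succ, ← mul_assoc]
      exact (mul_le_mul_of_nonneg_right (mul_le_mul_of_nonneg_right (le_abs_self C)
        (by positivity)) (by positivity)).trans (mul_le_of_le_one_right (by positivity) h1)
    rw [pow_succ]
    refine mul_dvd_mul_left _ (Polynomial.X_dvd_iff.2 ?_)
    have t1 : Filter.Tendsto (fun n : ℕ => |Q.eval (n : ℝ)⁻¹|) Filter.atTop (nhds |Q.eval 0|) :=
      ((Q.continuous.tendsto 0).comp tendsto_inv_atTop_nhds_zero_nat).abs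
    have t2 := (tendsto_inv_atTop_nhds_zero_nat (𝕜 := ℝ)).const_mul C
    have := le_of_tendsto_of_tendsto t1 t2 ((Filter.eventually_ge_atTop 1).mono
      fun n hn => by
        have h0 : (0 : ℝ) < (n : ℝ)⁻¹ ^ K := by
          have : (0 : ℝ) < n := by exact_mod_cast hn
          positivity
        have := h n hn
        simp only [Polynomial.eval_mul, Polynomial.eval_pow, Polynomial.eval_X, abs_mul,
          abs_of_pos h0] at this
        refine le_of_mul_le_mul_left (this.trans (le_of_eq ?_)) h0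
        ring)
    rw [mul_zero, abs_nonpos_iff] at this
    rwa [Polynomial.coeff_zero_eq_eval_zero]

theorem poly_bound_rr (p : Polynomial ℝ) :
    ∃ B : ℝ, ∀ n : ℕ, 1 ≤ n → |p.eval (n : ℝ)⁻¹| ≤ B := by
  obtain ⟨B, hB⟩ := (isCompact_Icc (a := (0 : ℝ)) (b := 1)).exists_bound_of_continuousOn
    p.continuous.continuousOn
  exact ⟨B, fun n hn => hB _ ⟨by positivity, inv_le_one_of_one_le₀ (by exact_mod_cast hn)⟩⟩

/-- the coefficients above `d` vanish -/
def PdRR (d : ℕ) (F : PowerSeries ℝ) : Prop := ∀ k, d < k → PowerSeries.coeff k F = 0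

theorem PdRR.mul {d e : ℕ} {F G : PowerSeries ℝ} (hF : PdRR d F) (hG : PdRR e G) :
    PdRR (d + e) (F * G) := fun k hk => by
  rw [PowerSeries.coeff_mul]
  refine sum_eq_zero fun p hp => ?_
  have := mem_antidiagonal.1 hp
  by_cases h : d < p.1
  · rw [hF _ h, zero_mul]
  · rw [hG _ (by omega), mul_zero]

theorem PdRR.pow {d : ℕ} {F : PowerSeries ℝ} (hF : PdRR d F) (m : ℕ) : PdRR (d * m) (F ^ m) := by
  induction m with
  | zero =>
    intro k hk
    rw [pow_zero, PowerSeries.coeff_one, if_neg (by omega)]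
  | succ m ih =>
    rw [pow_succ, mul_add_one]
    exact ih.mul hF

theorem PdRR.sub {d : ℕ} {F G : PowerSeries ℝ} (hF : PdRR d F) (hG : PdRR d G) :
    PdRR d (F - G) := fun k hk => by rw [map_sub, hF k hk, hG k hk, sub_zero]

theorem PdRR.sum {d : ℕ} {s : Finset ℕ} {F : ℕ → PowerSeries ℝ} (h : ∀ a ∈ s, PdRR d (F a)) :
    PdRR d (∑ a ∈ s, F a) := fun k hk => by
  rw [map_sum]
  exact sum_eq_zero fun a ha => h a ha k hk

theorem PdRR.poly {d : ℕ} {F : PowerSeries ℝ} (hF : PdRR d F) :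
    ∃ N : Polynomial ℝ, N.natDegree ≤ d ∧ F = N := by
  refine ⟨PowerSeries.trunc (d + 1) F, Nat.lt_succ_iff.1 (PowerSeries.natDegree_trunc_lt F d), ?_⟩
  ext k
  rw [Polynomial.coeff_coe, PowerSeries.coeff_trunc]
  split_ifs with h
  · rfl
  · exact hF k (by omega)

/-- the coefficient of the `j`-th power of the inner variable -/
noncomputable def layRR (j : ℕ) (F : PowerSeries (Polynomial ℝ)) : PowerSeries ℝ :=
  PowerSeries.mk fun k => (PowerSeries.coeff k F).coeff j

theorem layRR_mul (j : ℕ) (F G : PowerSeries (Polynomial ℝ)) :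
    layRR j (F * G) = ∑ a ∈ range (j + 1), layRR a F * layRR (j - a) G := by
  rw [← Finset.Nat.sum_antidiagonal_eq_sum_range_succ fun a b => layRR a F * layRR b G]
  ext k
  simp only [layRR, PowerSeries.coeff_mk, PowerSeries.coeff_mul, map_sum,
    Polynomial.finset_sum_coeff, Polynomial.coeff_mul]
  exact sum_comm

theorem layRR_pd (j : ℕ) {p : Polynomial (Polynomial ℝ)} {d : ℕ} (h : p.natDegree ≤ d) :
    PdRR d (layRR j (p : PowerSeries (Polynomial ℝ))) := fun k hk => by
  rw [layRR, PowerSeries.coeff_mk, Polynomial.coeff_coe,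
    Polynomial.coeff_eq_zero_of_natDegree_lt (h.trans_lt hk), Polynomial.coeff_zero]

theorem layRR_zero (p : Polynomial (Polynomial ℝ)) :
    layRR 0 (p : PowerSeries (Polynomial ℝ)) =
      (p.map (Polynomial.evalRingHom (0 : ℝ)) : Polynomial ℝ) := by
  ext k
  rw [layRR, PowerSeries.coeff_mk, Polynomial.coeff_coe, Polynomial.coeff_coe,
    Polynomial.coeff_map, Polynomial.coe_evalRingHom, Polynomial.coeff_zero_eq_eval_zero]

theorem natDegree_Qe_rr (v : ℕ) : (Qe v).natDegree ≤ v + 1 := by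
  unfold Qe
  refine (Polynomial.natDegree_prod_le _ _).trans ?_
  refine (sum_le_card_nsmul _ _ 1 fun u _ => ?_).trans (by simp)
  refine (Polynomial.natDegree_sub_le _ _).trans (max_le (by simp) ?_)
  exact (Polynomial.natDegree_C_mul_le _ _).trans Polynomial.natDegree_X_le

theorem Qe_map_zero_rr (v : ℕ) : (Qe v).map (Polynomial.evalRingHom (0 : ℝ)) =
    ∏ j ∈ Icc 1 v, (1 - Polynomial.C (j : ℝ) * Polynomial.X) := by
  unfold Qe
  rw [Polynomial.map_prod, range_eq_Ico, prod_eq_prod_Ico_succ_bot (Nat.succ_pos v)]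
  have h : Ico (0 + 1) (v + 1) = Icc 1 v := by
    ext j
    simp only [mem_Ico, mem_Icc]
    omega
  rw [h]
  simp [Polynomial.map_sub, Polynomial.map_mul]

theorem coeff_pn_rr (n k : ℕ) (p : Polynomial (Polynomial ℝ)) :
    PowerSeries.coeff k (pn n p) = (p.coeff k).eval (n : ℝ)⁻¹ := by
  simp [pn, Polynomial.coeff_coe, Polynomial.coeff_map]

theorem rat_of_approx (Φ : ℕ → Polynomial ℝ) {v i E M : ℕ} (hE : v ≤ E) {g : ℕ → PowerSeries ℝ}
    (hg : SS v E M g) (h : ∀ k, ∃ C : ℝ, ∀ n : ℕ, 1 ≤ n →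
      |(n : ℝ) ^ v * (Φ k).eval (n : ℝ)⁻¹ - PowerSeries.coeff k (g n)| ≤
        C * (n : ℝ) ^ v * (n : ℝ)⁻¹ ^ (i + 1)) :
    ∃ N : Polynomial ℝ, N.natDegree ≤ (v + 2) * (M * (i + 1)) ∧
      (PowerSeries.mk fun k => (Φ k).coeff i) *
        ((∏ j ∈ Icc 1 v, (1 - Polynomial.C (j : ℝ) * Polynomial.X) ^ (M * (i + 1)) :
          Polynomial ℝ) : PowerSeries ℝ) = N := by
  obtain ⟨N, hN, hgN⟩ := hg
  choose C hC using h
  obtain ⟨e, rfl⟩ := Nat.exists_eq_add_of_le hE
  set q : Polynomial (Polynomial ℝ) := Qe v ^ M with hq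
  set Ψ : PowerSeries (Polynomial ℝ) := PowerSeries.mk Φ with hΨ
  choose B hB using fun b => poly_bound_rr (q.coeff b)
  have key : ∀ k, ∀ j < e + (i + 1), (Polynomial.X ^ e *
      PowerSeries.coeff k (Ψ * (q : PowerSeries (Polynomial ℝ))) - N.coeff k).coeff j = 0 := by
    intro k
    refine poly_coeff_zero_rr _ _ (∑ p ∈ antidiagonal k, |C p.1| * B p.2) fun n hn => ?_
    have hn0 : (0 : ℝ) < n := by exact_mod_cast hn
    have h1 := congrArg (PowerSeries.coeff k) (hgN n hn)
    rw [PowerSeries.coeff_C_mul, coeff_pn_rr, PowerSeries.coeff_mul] at h1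
    simp only [coeff_pn_rr] at h1
    have h2 : (Polynomial.X ^ e * PowerSeries.coeff k (Ψ * (q : PowerSeries (Polynomial ℝ))) -
        N.coeff k).eval (n : ℝ)⁻¹ = ∑ p ∈ antidiagonal k, (n : ℝ)⁻¹ ^ (v + e) *
          (((n : ℝ) ^ v * (Φ p.1).eval (n : ℝ)⁻¹ - PowerSeries.coeff p.1 (g n)) *
            (q.coeff p.2).eval (n : ℝ)⁻¹) := by
      have h3 : (N.coeff k).eval (n : ℝ)⁻¹ = (n : ℝ)⁻¹ ^ (v + e) *
          ∑ p ∈ antidiagonal k, PowerSeries.coeff p.1 (g n) * (q.coeff p.2).eval (n : ℝ)⁻¹ := by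
        rw [h1, ← mul_assoc, ← mul_pow, inv_mul_cancel₀ hn0.ne', one_pow, one_mul]
      rw [Polynomial.eval_sub, Polynomial.eval_mul, Polynomial.eval_pow, Polynomial.eval_X, h3,
        PowerSeries.coeff_mul, Polynomial.eval_finset_sum, mul_sum, mul_sum, ← sum_sub_distrib]
      refine sum_congr rfl fun p _ => ?_
      rw [hΨ, PowerSeries.coeff_mk, Polynomial.coeff_coe, Polynomial.eval_mul]
      have h4 : (n : ℝ)⁻¹ ^ e = (n : ℝ)⁻¹ ^ (v + e) * (n : ℝ) ^ v := by
        rw [pow_add, mul_right_comm, ← mul_pow, inv_mul_cancel₀ hn0.ne', one_pow, one_mul]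
      rw [h4]
      ring
    rw [h2, sum_mul]
    refine (abs_sum_le_sum_abs _ _).trans (sum_le_sum fun p _ => ?_)
    rw [abs_mul, abs_mul, abs_of_pos (by positivity : (0 : ℝ) < (n : ℝ)⁻¹ ^ (v + e))]
    have h5 : |(n : ℝ) ^ v * (Φ p.1).eval (n : ℝ)⁻¹ - PowerSeries.coeff p.1 (g n)| ≤
        |C p.1| * (n : ℝ) ^ v * (n : ℝ)⁻¹ ^ (i + 1) := (hC p.1 n hn).trans
      (mul_le_mul_of_nonneg_right (mul_le_mul_of_nonneg_right (le_abs_self _) (by positivity))
        (by positivity))
    refine (mul_le_mul_of_nonneg_left (mul_le_mul h5 (hB p.2 n hn) (abs_nonneg _)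
      (by positivity)) (by positivity)).trans (le_of_eq ?_)
    have h4 : (n : ℝ)⁻¹ ^ e = (n : ℝ)⁻¹ ^ (v + e) * (n : ℝ) ^ v := by
      rw [pow_add, mul_right_comm, ← mul_pow, inv_mul_cancel₀ hn0.ne', one_pow, one_mul]
    rw [pow_add _ e, h4]
    ring
  have hlay : ∀ j ≤ i, layRR j (Ψ * (q : PowerSeries (Polynomial ℝ))) =
      layRR (j + e) (N : PowerSeries (Polynomial ℝ)) := fun j hj => by
    ext k
    have h1 := key k (j + e) (by omega)
    rw [Polynomial.coeff_sub, Polynomial.coeff_X_pow_mul, sub_eq_zero] at h1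
    rw [layRR, layRR, PowerSeries.coeff_mk, PowerSeries.coeff_mk, h1, Polynomial.coeff_coe]
  have hqd : q.natDegree ≤ (v + 2) * M := by
    refine Polynomial.natDegree_pow_le.trans ?_
    rw [mul_comm]
    exact Nat.mul_le_mul_right _ ((natDegree_Qe_rr v).trans (by omega))
  have main : ∀ j, j ≤ i → PdRR ((v + 2) * M * (j + 1))
      (layRR j Ψ * layRR 0 (q : PowerSeries (Polynomial ℝ)) ^ (j + 1)) := by
    intro j
    induction j using Nat.strong_induction_on with
    | _ j ih =>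
      intro hj
      have h1 := hlay j hj
      rw [layRR_mul, sum_range_succ, Nat.sub_self] at h1
      have h2 : layRR j Ψ * layRR 0 (q : PowerSeries (Polynomial ℝ)) ^ (j + 1) =
          layRR (j + e) (N : PowerSeries (Polynomial ℝ)) *
            layRR 0 (q : PowerSeries (Polynomial ℝ)) ^ j -
          ∑ a ∈ range j, layRR a Ψ * layRR 0 (q : PowerSeries (Polynomial ℝ)) ^ (a + 1) *
            layRR (j - a) (q : PowerSeries (Polynomial ℝ)) *
            layRR 0 (q : PowerSeries (Polynomial ℝ)) ^ (j - a - 1) := by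
        rw [← h1, add_mul, sum_mul, sum_congr rfl fun a ha => ?_]
        · ring
        · have h3 : j = a + 1 + (j - a - 1) := by
            have := mem_range.1 ha
            omega
          have h4 : layRR 0 (q : PowerSeries (Polynomial ℝ)) ^ j =
              layRR 0 (q : PowerSeries (Polynomial ℝ)) ^ (a + 1) *
                layRR 0 (q : PowerSeries (Polynomial ℝ)) ^ (j - a - 1) := by
            rw [← pow_add, ← h3]
          rw [h4]
          ring
      rw [h2]
      refine PdRR.sub ?_ (PdRR.sum fun a ha => ?_)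
      · have := (layRR_pd (j + e) hN).mul ((layRR_pd 0 hqd).pow j)
        rwa [show (v + 2) * M + (v + 2) * M * j = (v + 2) * M * (j + 1) by ring] at this
      · have h3 := mem_range.1 ha
        have := ((ih a h3 (by omega)).mul (layRR_pd (j - a) hqd)).mul
          ((layRR_pd 0 hqd).pow (j - a - 1))
        obtain ⟨c, rfl⟩ := Nat.exists_eq_add_of_lt h3
        rw [show a + c + 1 - a - 1 = c by omega] at this ⊢
        rwa [show (v + 2) * M * (a + 1) + (v + 2) * M + (v + 2) * M * c =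
          (v + 2) * M * (a + c + 1 + 1) by ring] at this
  obtain ⟨N', h1, h2⟩ := (main i le_rfl).poly
  refine ⟨N', by rwa [← mul_assoc], ?_⟩
  rw [← h2, layRR_zero, hq, Polynomial.map_pow, Qe_map_zero_rr, prod_pow, pow_mul,
    Polynomial.coe_pow]
  congr 1
  ext k
  rw [layRR, hΨ, PowerSeries.coeff_mk, PowerSeries.coeff_mk, PowerSeries.coeff_mk]

end HamPerc.RG
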