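import Pool.Agent.Lib.MP_58a483_pr.Bridge
import Pool.Agent.Lib.MP_58a483_pr.Alg
import Pool.Agent.Lib.MP_58a483_pr.RGrow
import Pool.Agent.Lib.MP_58a483_pr.RCoeff
import Pool.Agent.Lib.MP_58a483_pr.RGen
import Pool.Agent.Lib.MP_58a483_pr.RFree
import Pool.Agent.Lib.MP_58a483_pr.RIdent1
import Pool.Agent.Lib.MP_58a483_pr.RIdent2
import Pool.Agent.Lib.MP_58a483_pr.RRat

/-!
Rationality of the generating functions of the coefficients.
-/

open Finset

namespace HamPerc.RG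

theorem fr_B {v : ℕ} (J : ℕ) {m M : ℕ}
    {F : ∀ n, (Fin m → Vt v n) → PowerSeries (MvPolynomial (Vt v n) ℝ)} (h : Fr v m M F) :
    SS v (v * (m + J)) (M + 2 * J) fun n => PowerSeries.mk fun k =>
      ev1 (Vt v n) (Bop (Vt v n) J (PowerSeries.coeff k (∑ φ, F n φ))) := by
  induction J generalizing m M with
  | zero =>
    refine (fr_SS h).congr fun n _ => ?_
    ext k
    rw [PowerSeries.coeff_map, PowerSeries.coeff_mk]
    rfl
  | succ J ih =>
    obtain ⟨F', h1, h2⟩ := fr_Dop h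
    have a1 := (ih h).mono (E' := v * (m + (J + 1))) (M' := M + 2 * (J + 1))
      (Nat.mul_le_mul_left _ (by omega)) (by omega)
    have a2 := ((ih h1).mono (E' := v * (m + (J + 1))) (M' := M + 2 * (J + 1))
      (Nat.mul_le_mul_left _ (by omega)) (by omega)).smul (-((J : ℝ) + 1)⁻¹)
    refine (a1.add a2).congr fun n _ => ?_
    ext k
    rw [map_add, PowerSeries.coeff_C_mul, PowerSeries.coeff_mk, PowerSeries.coeff_mk,
      PowerSeries.coeff_mk, ← h2 n, lft, PowerSeries.coeff_mk, Bop, LinearMap.sub_apply,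
      LinearMap.smul_apply, LinearMap.comp_apply, map_sub, MvPolynomial.smul_eq_C_mul, map_mul]
    simp only [ev1, MvPolynomial.eval_C]
    ring

noncomputable instance hamEdge (v n : ℕ) : Fintype (hamming v n).edgeSet := Fintype.ofFinite _

theorem gam_mu {v n : ℕ} (hn : 1 ≤ n) (x : Vt v n) (k : ℕ) :
    gam (edges v n) k = ∑ y, ∑ H ∈ powersetCard k (hamming v n).edgeFinset, mu x y ∅ H := by
  have h1 := fun p => isCoef_QQ.2 v n x p hn
  simp only [← gam_eq_coef hn] at h1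
  refine congrFun (series_unique h1 (b := fun k =>
    ∑ y, ∑ H ∈ powersetCard k (hamming v n).edgeFinset, mu x y ∅ H) fun p => ?_) k
  have h2 : susc v n x p = ∑ k ∈ range ((hamming v n).edgeFinset.card + 1),
      (∑ y, ∑ H ∈ powersetCard k (hamming v n).edgeFinset, mu x y ∅ H) * p ^ k := by
    have h3 : susc v n x p =
        ∑ y, Ex p (hamming v n).edgeFinset fun ω => ind (Rch (∅ ∪ ω) x y) := by
      classical
      rw [← Ex_sum]
      have hE : ∀ I : Fintype (hamming v n).edgeSet, @SimpleGraph.edgeFinset _ _ I =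
          @SimpleGraph.edgeFinset _ _ (hamEdge v n) := fun I => by rw [Subsingleton.elim I]
      unfold susc Ex
      rw [hE]
      refine sum_congr rfl fun ω _ => ?_
      congr 1
      rw [← sum_ind]
      exact sum_congr rfl fun y _ => ind_congr (by rw [empty_union]; exact reach_iff ω x y)
    rw [h3]
    simp only [Ex_dlt, sum_mul]
    rw [sum_comm (s := range _)]
    refine sum_congr rfl fun y _ => ?_
    rw [sum_powerset]
    exact sum_congr rfl fun k _ => sum_congr rfl fun H hH => by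
      rw [(mem_powersetCard.1 hH).2]; rfl
  rw [h2]
  refine hasSum_sum_of_ne_finset_zero fun k hk => ?_
  rw [powersetCard_eq_empty.2 (by simpa using hk)]
  simp

theorem mu_self {α : Type*} [DecidableEq α] (x : α) (E : Finset (Sym2 α)) (k : ℕ) :
    ∑ H ∈ powersetCard k E, mu x x ∅ H = if k = 0 then 1 else 0 := by
  split_ifs with h
  · rw [h, powersetCard_zero, sum_singleton, mu, dl_empty, ind_pos (Rch.refl _ _)]
  · refine sum_eq_zero fun H hH => ?_
    obtain ⟨e, he⟩ := card_pos.1 ((mem_powersetCard.1 hH).2 ▸ Nat.pos_of_ne_zero h)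
    exact dl_eq_zero he fun T _ _ => by rw [ind_pos (Rch.refl _ _), ind_pos (Rch.refl _ _)]

theorem deg_le {v n : ℕ} (a : Vt v n) : ∑ b, ind ((hamming v n).Adj a b) ≤ (v : ℝ) * n := by
  calc _ ≤ ∑ b : Vt v n, ∑ q : Fin v × Fin n, ind (b = Function.update a q.1 q.2) := by
        refine sum_le_sum fun b _ => ind_le_sum _ _ fun h => ?_
        obtain ⟨j, hj⟩ := card_eq_one.1 (show hammingDist a b = 1 from h)
        refine ⟨(j, b j), mem_univ _, funext fun i => ?_⟩
        by_cases e : i = j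
        · subst e; simp
        · rw [Function.update_of_ne e]
          by_contra hc
          exact e (mem_singleton.1 (hj ▸ mem_filter.2 ⟨mem_univ i, Ne.symm hc⟩))
    _ = _ := by
        classical
        rw [sum_comm]
        simp only [sum_ind, filter_eq', mem_univ, if_true, card_singleton]
        simp

theorem scale_le {v n m i : ℕ} (hn : 1 ≤ n) {C x : ℝ}
    (h : x ≤ C * Fintype.card (Vt v n) * ((v : ℝ) * n + 1) ^ m) :
    (n : ℝ)⁻¹ ^ (m + (i + 1)) * x ≤ |C| * (v + 1) ^ m * (n : ℝ) ^ v * (n : ℝ)⁻¹ ^ (i + 1) := by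
  have h1 : (1 : ℝ) ≤ n := by exact_mod_cast hn
  have h2 : x ≤ |C| * (n : ℝ) ^ v * (((v : ℝ) + 1) * n) ^ m := by
    refine h.trans ?_
    rw [show (Fintype.card (Vt v n) : ℝ) = (n : ℝ) ^ v by simp]
    gcongr
    · exact le_abs_self C
    · linarith
  refine (mul_le_mul_of_nonneg_left h2 (by positivity)).trans (le_of_eq ?_)
  rw [pow_add, mul_pow, inv_pow _ m]
  field_simp

theorem err1' (v i k : ℕ) : ∃ C : ℝ, ∀ n : ℕ, 1 ≤ n → (n : ℝ)⁻¹ ^ k *
    |∑ H ∈ powersetCard k (hamming v n).edgeFinset, ∑ x : Vt v n, ∑ y : Vt v n,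
      ind (x ≠ y ∧ ¬ H.card + 1 ≤ (vs H).card + i) * mu x y ∅ H| ≤
      C * (n : ℝ) ^ v * (n : ℝ)⁻¹ ^ (i + 1) := by
  have key : ∀ (n : ℕ) (H : Finset (Sym2 (Vt v n))) (x y : Vt v n),
      H ∈ powersetCard k (hamming v n).edgeFinset →
      |ind (x ≠ y ∧ ¬ H.card + 1 ≤ (vs H).card + i) * mu x y ∅ H| ≤
        2 ^ k * ind (i + 1 ≤ k ∧ x ≠ y ∧ mu x y ∅ H ≠ 0 ∧ (vs H).card ≤ k - (i + 1) + 1) := by
    intro n H x y hH
    obtain ⟨h1, h2⟩ := mem_powersetCard.1 hH
    by_cases h3 : (x ≠ y ∧ ¬ H.card + 1 ≤ (vs H).card + i) ∧ mu x y ∅ H ≠ 0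
    · have h4 := (mu_pq h3.1.1 (fun e he => (hamming v n).not_isDiag_of_mem_edgeSet
        (SimpleGraph.mem_edgeFinset.1 (h1 he))) h3.2).2.1
      obtain ⟨e, he⟩ := card_pos.1 h4
      have h5 : 0 < (vs H).card := card_pos.2 ⟨x, mem_filter.2 ⟨mem_univ _, e, mem_filter.1 he⟩⟩
      have h6 := h3.1.2
      rw [ind_pos h3.1, ind_pos ⟨by omega, h3.1.1, h3.2, by omega⟩, one_mul, mul_one, ← h2]
      exact abs_mu_le _ _ _ _
    · have : ind (x ≠ y ∧ ¬ H.card + 1 ≤ (vs H).card + i) * mu x y ∅ H = 0 := by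
        by_cases h4 : mu x y ∅ H = 0
        · rw [h4, mul_zero]
        · rw [ind_neg fun h => h3 ⟨h, h4⟩, zero_mul]
      rw [this, abs_zero]
      exact mul_nonneg (by positivity) (ind_nonneg _)
  have key2 : ∀ n : ℕ, |∑ H ∈ powersetCard k (hamming v n).edgeFinset, ∑ x : Vt v n, ∑ y : Vt v n,
      ind (x ≠ y ∧ ¬ H.card + 1 ≤ (vs H).card + i) * mu x y ∅ H| ≤ 2 ^ k * (ind (i + 1 ≤ k) *
      ∑ x : Vt v n, ∑ y : Vt v n, ∑ H ∈ powersetCard k (hamming v n).edgeFinset,
        ind (x ≠ y ∧ mu x y ∅ H ≠ 0 ∧ (vs H).card ≤ k - (i + 1) + 1)) := by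
    intro n
    rw [sum_comm]
    simp only [mul_sum, ← ind_and]
    refine (abs_sum_le_sum_abs _ _).trans (sum_le_sum fun x _ => ?_)
    rw [sum_comm]
    exact (abs_sum_le_sum_abs _ _).trans (sum_le_sum fun y _ =>
      (abs_sum_le_sum_abs _ _).trans (sum_le_sum fun H hH => key n H x y hH))
  by_cases hk : i + 1 ≤ k
  · obtain ⟨C, hC⟩ := err1 k (k - (i + 1))
    refine ⟨2 ^ k * (|C| * (v + 1) ^ (k - (i + 1))), fun n hn => ?_⟩
    have h1 := scale_le (i := i) hn (hC (Vt v n) (hamming v n) _ deg_le)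
    rw [Nat.sub_add_cancel hk] at h1
    refine (mul_le_mul_of_nonneg_left (key2 n) (by positivity)).trans ?_
    rw [ind_pos hk, one_mul, mul_left_comm]
    exact (mul_le_mul_of_nonneg_left h1 (by positivity)).trans (le_of_eq (by ring))
  · refine ⟨0, fun n hn => (mul_le_mul_of_nonneg_left (key2 n) (by positivity)).trans ?_⟩
    rw [ind_neg hk]; simp

theorem err2' (v i k : ℕ) {b : ℕ} (P : List (AL (b + 2))) (hP : b + 1 ≤ P.length) :
    ∃ C : ℝ, ∀ n : ℕ, 1 ≤ n → (n : ℝ)⁻¹ ^ k * |om P * (Re (hamming v n) P k (fun L => ind L.Nodup) -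
      Re (hamming v n) P k fun L => bet (i ^ 2) (Xc L))| ≤
      C * (n : ℝ) ^ v * (n : ℝ)⁻¹ ^ (i + 1) := by
  by_cases h0 : om P = 0
  · exact ⟨0, fun n _ => by rw [h0]; simp⟩
  have key : ∀ n : ℕ, |Re (hamming v n) P k (fun L => ind L.Nodup) -
      Re (hamming v n) P k fun L => bet (i ^ 2) (Xc L)| ≤ (1 + (1 + ((k : ℝ) + 1) ^ 2) ^ i ^ 2) *
      (ind (i + 1 ≤ k) *
        Re (hamming v n) P k fun L => ind (L.toFinset.card ≤ k - (i + 1) + 1)) := by
    intro n
    unfold Re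
    rw [← sum_sub_distrib, mul_sum, mul_sum]
    refine (abs_sum_le_sum_abs _ _).trans (sum_le_sum fun φ _ => ?_)
    rw [← sum_sub_distrib, mul_sum, mul_sum]
    refine (abs_sum_le_sum_abs _ _).trans (sum_le_sum fun S hS => ?_)
    by_cases h1 : Match φ P S ∧ ∀ e ∈ sysE S, e ∈ (hamming v n).edgeSet
    swap
    · rw [ind_neg h1]; simp
    rw [ind_pos h1, one_mul, one_mul, one_mul, ← ind_and]
    beta_reduce
    have h2 : (List.ofFn φ ++ sysI S).length ≤ k + 1 := by
      have a1 := h1.1.length_eq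
      have a2 := length_sysE S
      rw [mem_Sy.1 hS] at a2
      rw [List.length_append, List.length_ofFn]
      omega
    by_cases h3 : (List.ofFn φ ++ sysI S).length ≤ (List.ofFn φ ++ sysI S).toFinset.card + i
    · rw [bet_nodup h3, sub_self, abs_zero]
      exact mul_nonneg (by positivity) (ind_nonneg _)
    · have h4 : 0 < (List.ofFn φ ++ sysI S).toFinset.card :=
        card_pos.2 ⟨φ 0, by simp⟩
      rw [ind_pos (P := _ ∧ _) ⟨by omega, by omega⟩, mul_one, abs_sub_comm]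
      refine (abs_bet _ _).trans ?_
      have : ((List.ofFn φ ++ sysI S).length : ℝ) ≤ k + 1 := by exact_mod_cast h2
      gcongr
  by_cases hk : i + 1 ≤ k
  · obtain ⟨C, hC⟩ := err2 h0 k (k - (i + 1))
    refine ⟨|om P| * (1 + (1 + ((k : ℝ) + 1) ^ 2) ^ i ^ 2) * (|C| * (v + 1) ^ (k - (i + 1))),
      fun n hn => ?_⟩
    have h1 := scale_le (i := i) hn (hC (Vt v n) (hamming v n) _ deg_le)
    rw [Nat.sub_add_cancel hk] at h1
    rw [abs_mul]
    refine (mul_le_mul_of_nonneg_left (mul_le_mul_of_nonneg_left (key n) (abs_nonneg _))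
      (by positivity)).trans ?_
    rw [ind_pos hk, one_mul, ← mul_assoc |om P|, mul_left_comm]
    exact (mul_le_mul_of_nonneg_left h1 (by positivity)).trans (le_of_eq (by ring))
  · refine ⟨0, fun n hn => ?_⟩
    rw [abs_mul]
    refine (mul_le_mul_of_nonneg_left (mul_le_mul_of_nonneg_left (key n) (abs_nonneg _))
      (by positivity)).trans ?_
    rw [ind_neg hk]; simp

theorem ident {α : Type*} [Fintype α] [DecidableEq α] (G : SimpleGraph α) [Fintype G.edgeSet]
    (i k : ℕ) : ∑ H ∈ powersetCard k G.edgeFinset, ∑ x : α, ∑ y : α,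
      ind (x ≠ y ∧ H.card + 1 ≤ (vs H).card + i) * mu x y ∅ H =
    ∑ b ∈ range (2 * i + 1), ∑ t ∈ Icc (b + 1) (b + i + 1), ∑ P ∈ Lk (AL (b + 2)) t,
      ((b.factorial : ℝ) * (t.factorial * 2 ^ t))⁻¹ * (om P * Re G P k fun L => ind L.Nodup) := by
  rw [← sum_congr rfl fun H hH => ident2 i fun e he => G.not_isDiag_of_mem_edgeSet
    (SimpleGraph.mem_edgeFinset.1 ((mem_powersetCard.1 hH).1 he)), sum_comm]
  refine sum_congr rfl fun b _ => ?_
  rw [sum_comm]
  refine sum_congr rfl fun t _ => ?_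
  rw [← mul_sum, ← mul_sum, sum_comm]
  unfold Re
  simp only [mul_sum (univ : Finset (Fin (b + 2) → α)) _ (om _)]
  rw [sum_comm (s := Lk (AL (b + 2)) t)]
  simp only [ident1, ← mul_sum]
  rw [mul_sum, mul_sum]
  refine sum_congr rfl fun φ _ => ?_
  have h1 : (t.factorial : ℝ) * 2 ^ t ≠ 0 := by positivity
  have h2 : (b.factorial : ℝ) ≠ 0 := by positivity
  field_simp

theorem qq_rat (v i : ℕ) : ∃ N : Polynomial ℝ, N.natDegree ≤ (v + 2) * ex i ∧
    (PowerSeries.mk fun k => (QQ v k).coeff i) *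
      ((∏ j ∈ Icc 1 v, (1 - Polynomial.C (j : ℝ) * Polynomial.X) ^ ex i : Polynomial ℝ) :
        PowerSeries ℝ) = N := by
  have e0 : ex i = (2 * i + 1) * (i + 1) * (i + 1) := by unfold ex; ring
  rw [e0]
  have h1 : SS v (v * (2 * i + 2 + i ^ 2)) ((2 * i + 1) * (i + 1)) fun n =>
      PowerSeries.C ((n : ℝ) ^ v) + ∑ b ∈ range (2 * i + 1), ∑ t ∈ Icc (b + 1) (b + i + 1),
        ∑ P ∈ Lk (AL (b + 2)) t, PowerSeries.C
          (((b.factorial : ℝ) * (t.factorial * 2 ^ t))⁻¹ * om P) * PowerSeries.mk fun k =>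
            (n : ℝ)⁻¹ ^ k * Re (hamming v n) P k fun L => bet (i ^ 2) (Xc L) := by
    refine ((SS.pow v v).mono (Nat.le_mul_of_pos_right _ (by positivity)) (Nat.zero_le _)).add
      (SS.sum _ fun b hb => SS.sum _ fun t ht => SS.sum _ fun P hP => SS.smul _ ?_)
    rw [mem_range] at hb
    rw [mem_Icc] at ht
    simp only [← coeff_ZZ]
    refine (fr_B (i ^ 2) (fr_ZZ v P)).mono (Nat.mul_le_mul_left _ (by omega)) ?_
    rw [mem_Lk.1 hP]
    nlinarith [ht.2]
  refine rat_of_approx (QQ v) (Nat.le_mul_of_pos_right _ (by positivity)) h1 fun k => ?_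
  obtain ⟨C1, hC1⟩ := err1' v i k
  have h2 := fun b (P : List (AL (b + 2))) => err2' v i k P
  choose! C2 hC2 using h2
  refine ⟨C1 + ∑ b ∈ range (2 * i + 1), ∑ t ∈ Icc (b + 1) (b + i + 1), ∑ P ∈ Lk (AL (b + 2)) t,
    ((b.factorial : ℝ) * (t.factorial * 2 ^ t))⁻¹ * C2 b P, fun n hn => ?_⟩
  have e1 : (n : ℝ) ^ v * gam (edges v n) k = (n : ℝ) ^ v * (if k = 0 then 1 else 0) +
      (∑ H ∈ powersetCard k (hamming v n).edgeFinset, ∑ x : Vt v n, ∑ y : Vt v n,
        ind (x ≠ y ∧ ¬ H.card + 1 ≤ (vs H).card + i) * mu x y ∅ H +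
      ∑ H ∈ powersetCard k (hamming v n).edgeFinset, ∑ x : Vt v n, ∑ y : Vt v n,
        ind (x ≠ y ∧ H.card + 1 ≤ (vs H).card + i) * mu x y ∅ H) := by
    have a1 : ∀ c : ℝ, (n : ℝ) ^ v * c = ∑ _x : Vt v n, c := fun c => by simp
    rw [a1, a1, ← sum_add_distrib]
    simp only [← sum_add_distrib]
    rw [sum_comm, ← sum_add_distrib]
    refine sum_congr rfl fun x _ => ?_
    rw [gam_mu hn x, ← mu_self x (hamming v n).edgeFinset, sum_comm, ← sum_add_distrib]
    refine sum_congr rfl fun H _ => ?_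
    rw [← add_sum_erase _ _ (mem_univ x), ← add_sum_erase _ _ (mem_univ x),
      ind_neg fun h => h.1 rfl, ind_neg fun h => h.1 rfl, zero_mul, add_zero, zero_add]
    congr 1
    refine sum_congr rfl fun y hy => ?_
    have := (mem_erase.1 hy).1.symm
    by_cases h : H.card + 1 ≤ (vs H).card + i
    · rw [ind_neg fun h' => h'.2 h, ind_pos ⟨this, h⟩]; ring
    · rw [ind_pos ⟨this, h⟩, ind_neg fun h' => h h'.2]; ring
  rw [QQ_eval hn, ← mul_assoc, e1, ident]
  simp only [map_add, map_sum, PowerSeries.coeff_C_mul, PowerSeries.coeff_mk,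
    PowerSeries.coeff_C]
  have e2 : (n : ℝ) ^ v * (if k = 0 then 1 else 0) * (n : ℝ)⁻¹ ^ k =
      if k = 0 then (n : ℝ) ^ v else 0 := by split_ifs with h <;> simp [h]
  rw [add_mul, e2, add_sub_add_left_eq_sub, add_mul, add_sub_assoc, add_mul, add_mul]
  refine (abs_add_le _ _).trans (add_le_add ?_ ?_)
  · rw [abs_mul, abs_of_nonneg (a := _ ^ k) (by positivity), mul_comm]
    exact hC1 n hn
  · simp only [sum_mul, ← sum_sub_distrib]
    refine (abs_sum_le_sum_abs _ _).trans (sum_le_sum fun b _ =>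
      (abs_sum_le_sum_abs _ _).trans (sum_le_sum fun t ht =>
        (abs_sum_le_sum_abs _ _).trans (sum_le_sum fun P hP => ?_)))
    have a1 := mul_le_mul_of_nonneg_left (hC2 b P (mem_Lk.1 hP ▸ (mem_Icc.1 ht).1) n hn)
      (show 0 ≤ ((b.factorial : ℝ) * (t.factorial * 2 ^ t))⁻¹ by positivity)
    refine le_trans (le_of_eq ?_) (a1.trans (le_of_eq (by ring)))
    have a2 : ∀ x y z : ℝ, 0 ≤ x → 0 ≤ y → x * (y * |z|) = |x * (y * z)| := fun x y z hx hy => by
      rw [abs_mul, abs_mul, abs_of_nonneg hx, abs_of_nonneg hy]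
    rw [a2 _ _ _ (by positivity) (by positivity)]
    congr 1
    ring

end HamPerc.RG
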