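import Pool.Agent.Lib.MP_58a483_pr.RApprox

/-!
The rational numbers `cf` are the coefficients, and their generating functions are `num / den`.
-/

open Finset

namespace HamPerc.RG

private theorem poly_hasSum (N : Polynomial ℝ) (s : ℝ) :
    HasSum (fun k => N.coeff k * s ^ k) (N.eval s) := by
  rw [Polynomial.eval_eq_sum_range]
  exact hasSum_sum_of_ne_finset_zero fun k hk => by
    rw [Polynomial.coeff_eq_zero_of_natDegree_lt (by simpa using hk), zero_mul]

private theorem susc_suscP (v n : ℕ) (p : ℝ) :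
    susc v (n + 1) 0 p = ((suscP v n).map (algebraMap ℚ ℝ)).eval p := by
  rw [Polynomial.eval_map_algebraMap]
  unfold susc suscP
  rw [map_sum]
  refine sum_congr (by congr) fun ω _ => ?_
  simp only [map_mul, map_pow, map_sub, map_one, Polynomial.aeval_X, map_natCast]

private theorem suscP_coeff (v n k : ℕ) : (((suscP v n).coeff k : ℚ) : ℝ) =
    ∑ i ∈ range (k + 1), (QQ v k).coeff i * ((n : ℝ) + 1) ^ (k - i) := by
  have h1 := fun p => isCoef_QQ.2 v (n + 1) 0 p (by omega)
  have h2 := congrFun (series_unique (fun p => (susc_suscP v n p).symm ▸ poly_hasSum _ p) h1) k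
  simpa using h2

theorem cf_eq (v k i : ℕ) : (cf v k i : ℝ) = (QQ v k).coeff i := by
  unfold cf
  split_ifs with hi
  swap
  · rw [Polynomial.coeff_eq_zero_of_natDegree_lt ((QQ_deg v k).trans_lt (not_le.1 hi)),
      Rat.cast_zero]
  have hq : Set.InjOn (fun n : ℕ => (n : ℚ) + 1) (range (k + 1) : Finset ℕ) :=
    fun a _ b _ h => by simpa using h
  have hr : Set.InjOn (fun n : ℕ => (n : ℝ) + 1) (range (k + 1) : Finset ℕ) :=
    fun a _ b _ h => by simpa using h
  have e : (Lagrange.interpolate (range (k + 1)) (fun n => (n : ℚ) + 1)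
      fun n => (suscP v n).coeff k).map (algebraMap ℚ ℝ) =
      ∑ j ∈ range (k + 1), Polynomial.monomial (k - j) ((QQ v k).coeff j) := by
    refine Polynomial.eq_of_degrees_lt_of_eval_index_eq (range (k + 1)) hr
      (Polynomial.degree_map_le.trans_lt (Lagrange.degree_interpolate_lt _ hq)) ?_ fun n hn => ?_
    · refine (Polynomial.degree_sum_le _ _).trans_lt ?_
      rw [Finset.sup_lt_iff (WithBot.bot_lt_coe _)]
      intro j _
      refine (Polynomial.degree_monomial_le _ _).trans_lt ?_
      rw [card_range]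
      exact_mod_cast (by omega : k - j < k + 1)
    · have e1 : (n : ℝ) + 1 = algebraMap ℚ ℝ ((n : ℚ) + 1) := by simp
      rw [Polynomial.eval_finsetSum]
      simp only [Polynomial.eval_monomial]
      rw [← suscP_coeff, e1, Polynomial.eval_map_algebraMap,
        Polynomial.aeval_algebraMap_apply_eq_algebraMap_eval,
        Lagrange.eval_interpolate_at_node _ hq hn]
      rfl
  have e2 := congrArg (fun P => Polynomial.coeff P (k - i)) e
  simp only [Polynomial.coeff_map] at e2
  rw [Polynomial.finsetSum_coeff, sum_eq_single i, Polynomial.coeff_monomial_same] at e2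
  · exact e2
  · intro j hj hne
    rw [mem_range] at hj
    exact Polynomial.coeff_monomial_of_ne _ (by omega)
  · intro h
    exact absurd (mem_range.2 (by omega)) h

private theorem den_map (v i : ℕ) : (den v i).map (algebraMap ℚ ℝ) =
    ∏ j ∈ Icc 1 v, (1 - Polynomial.C (j : ℝ) * Polynomial.X) ^ ex i := by
  unfold den
  rw [Polynomial.map_prod]
  refine prod_congr rfl fun j _ => ?_
  simp

private theorem prod_map (v i : ℕ) : PowerSeries.map (algebraMap ℚ ℝ)
    ((PowerSeries.mk fun k => cf v k i) * (den v i : PowerSeries ℚ)) =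
    (PowerSeries.mk fun k => (QQ v k).coeff i) *
      (((den v i).map (algebraMap ℚ ℝ) : Polynomial ℝ) : PowerSeries ℝ) := by
  rw [map_mul]
  congr 1
  · ext k
    simp [cf_eq]
  · ext k
    simp

theorem num_eq (v i : ℕ) :
    (PowerSeries.mk fun k => cf v k i) * (den v i : PowerSeries ℚ) = (num v i : PowerSeries ℚ) := by
  obtain ⟨N, hN, h⟩ := qq_rat v i
  rw [← den_map, ← prod_map] at h
  ext m
  rw [Polynomial.coeff_coe, num, PowerSeries.coeff_trunc]
  split_ifs with hm
  · rfl
  · have h1 := congrArg (PowerSeries.coeff m) h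
    rw [PowerSeries.coeff_map, Polynomial.coeff_coe,
      Polynomial.coeff_eq_zero_of_natDegree_lt (by omega)] at h1
    exact (map_eq_zero _).1 h1

private theorem hasSum_mul_poly {c : ℕ → ℝ} {s S : ℝ} (h : HasSum (fun k => c k * s ^ k) S)
    (q : Polynomial ℝ) :
    HasSum (fun k => PowerSeries.coeff k (PowerSeries.mk c * (q : PowerSeries ℝ)) * s ^ k)
      (S * q.eval s) := by
  induction q using Polynomial.induction_on' with
  | add p q hp hq =>
    simp only [Polynomial.coe_add, mul_add, map_add, add_mul, Polynomial.eval_add]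
    exact hp.add hq
  | monomial n a =>
    rw [← Polynomial.C_mul_X_pow_eq_monomial, ← hasSum_nat_add_iff' n]
    simp only [Polynomial.coe_mul, Polynomial.coe_pow, Polynomial.coe_C, Polynomial.coe_X,
      ← mul_assoc, PowerSeries.coeff_mul_X_pow', PowerSeries.coeff_mul_C, PowerSeries.coeff_mk]
    rw [sum_eq_zero fun j hj => by rw [if_neg (by simpa using hj), zero_mul], sub_zero]
    have e : (fun k => (if n ≤ k + n then c (k + n - n) * a else 0) * s ^ (k + n)) =
        fun k => c k * s ^ k * (a * s ^ n) := by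
      funext k
      rw [if_pos (by omega), Nat.add_sub_cancel]
      ring
    rw [e, Polynomial.eval_mul, Polynomial.eval_C, Polynomial.eval_pow, Polynomial.eval_X]
    exact h.mul_right _

private theorem den_ne {d v : ℕ} (hd : 3 ≤ d) (hv : v ≤ d / 3) (i : ℕ) {σ : ℝ}
    (h : |σ| < 3 / 4 * (3 / (2 * d))) : Polynomial.aeval σ (den v i) ≠ 0 := by
  obtain ⟨a, b, c⟩ := par hd hv
  rw [← Polynomial.eval_map_algebraMap, den_map, Polynomial.eval_prod]
  refine prod_ne_zero_iff.2 fun j hj => ?_
  have hj' : (j : ℝ) ≤ v := by exact_mod_cast (mem_Icc.1 hj).2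
  have j0 : (0 : ℝ) ≤ j := by positivity
  simp only [Polynomial.eval_pow, Polynomial.eval_sub, Polynomial.eval_one, Polynomial.eval_mul,
    Polynomial.eval_C, Polynomial.eval_X]
  refine pow_ne_zero _ (sub_pos.2 ?_).ne'
  have h1 : (j : ℝ) * σ ≤ j * (3 / (2 * d)) :=
    mul_le_mul_of_nonneg_left (by linarith [le_abs_self σ]) j0
  have h2 := mul_le_mul_of_nonneg_right hj' a.le
  linarith

theorem XX_eq {d v : ℕ} (hd : 3 ≤ d) (hv : v ≤ d / 3) (i : ℕ) {σ : ℝ}
    (h : |σ| < 3 / 4 * (3 / (2 * d))) :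
    XX v i σ = Polynomial.aeval σ (num v i) / Polynomial.aeval σ (den v i) := by
  obtain ⟨a, b, c⟩ := par hd hv
  obtain ⟨C, hC⟩ := coef_le a b c i
  have r0 : (0 : ℝ) < 3 / 4 * (3 / (2 * d)) := by positivity
  have hs : Summable fun k => (QQ v k).coeff i * σ ^ k := by
    refine Summable.of_norm_bounded ((summable_geometric_of_lt_one
      (r := (3 / 4 * (3 / (2 * d)) : ℝ)⁻¹ * |σ|) (by positivity) ?_).mul_left C) fun k => ?_
    · rw [inv_mul_lt_iff₀ r0, mul_one]
      exact h
    · rw [Real.norm_eq_abs, abs_mul, abs_pow, mul_pow, ← mul_assoc]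
      exact mul_le_mul_of_nonneg_right (hC k) (by positivity)
  have h1 := hasSum_mul_poly hs.hasSum ((den v i).map (algebraMap ℚ ℝ))
  rw [← prod_map, num_eq] at h1
  simp only [PowerSeries.coeff_map, Polynomial.coeff_coe, ← Polynomial.coeff_map] at h1
  have h2 := h1.unique (poly_hasSum _ σ)
  rw [Polynomial.eval_map_algebraMap, Polynomial.eval_map_algebraMap] at h2
  rw [eq_div_iff (den_ne hd hv i h)]
  exact h2

theorem num_zero (v : ℕ) : num v 0 * (1 - Polynomial.C (v : ℚ) * Polynomial.X) = den v 0 := by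
  have hd : 3 ≤ 3 * v + 3 := by omega
  have hv : v ≤ (3 * v + 3) / 3 := by omega
  have r0 : (0 : ℝ) < 3 / 4 * (3 / (2 * ((3 * v + 3 : ℕ) : ℝ))) := by positivity
  refine Polynomial.map_injective (algebraMap ℚ ℝ) (algebraMap ℚ ℝ).injective
    (Polynomial.eq_of_infinite_eval_eq _ _ ((Set.Ioo_infinite r0).mono fun σ hσ => ?_))
  have h : |σ| < 3 / 4 * (3 / (2 * ((3 * v + 3 : ℕ) : ℝ))) := by
    rw [abs_of_pos hσ.1]
    exact hσ.2
  have h1 := XX_zero hd hv h
  rw [XX_eq hd hv 0 h, ← mul_div_assoc, div_eq_one_iff_eq (den_ne hd hv 0 h)] at h1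
  rw [Set.mem_ofPred_eq, Polynomial.eval_map_algebraMap, Polynomial.eval_map_algebraMap, ← h1,
    map_mul, mul_comm]
  simp

end HamPerc.RG
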