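import Pool.Agent.Lib.MP_58a483_pr.RThread

/-!
The number of decompositions of an edge set into oriented and ordered lines.
-/

open Finset

namespace HamPerc.RG

variable {α : Type*} [DecidableEq α]

/-- a line with ends in `Q`, interior off `Q`, and edges in `H` -/
structure ThC (Q : Finset α) (H : Finset (Sym2 α)) (T : Ln α) : Prop where
  fst : T.1 ∈ Q
  lst : T.2.2 ∈ Q
  int : ∀ x ∈ T.2.1, x ∉ Q
  ndI : T.2.1.Nodup
  ndE : (eds T.1 T.2.1 T.2.2).Nodup
  sub : ∀ e ∈ eds T.1 T.2.1 T.2.2, e ∈ H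

omit [DecidableEq α] in
theorem head_mem_edsC (a : α) (l : List α) (b : α) : s(a, l.headD b) ∈ eds a l b := by
  cases l <;> simp [eds]

omit [DecidableEq α] in
theorem exists_edge_edsC {a y : α} {l : List α} {b : α} (h : y ∈ l) : ∃ e ∈ eds a l b, y ∈ e := by
  induction l generalizing a with
  | nil => simp at h
  | cons x l ih =>
    rcases List.mem_cons.1 h with rfl | h
    · exact ⟨s(a, y), by simp [eds], Sym2.mem_mk_right _ _⟩
    · obtain ⟨e, he, hy⟩ := ih (a := x) h
      exact ⟨e, by simp [eds, he], hy⟩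

omit [DecidableEq α] in
theorem mem_of_edge_edsC {a z : α} {l : List α} {b : α} {e : Sym2 α} (he : e ∈ eds a l b)
    (hz : z ∈ e) : z = a ∨ z ∈ l ∨ z = b := by
  induction l generalizing a with
  | nil =>
    simp only [eds, List.mem_singleton] at he
    subst he
    rcases Sym2.mem_iff.1 hz with h | h <;> simp [h]
  | cons x l ih =>
    simp only [eds, List.mem_cons] at he
    rcases he with rfl | he
    · rcases Sym2.mem_iff.1 hz with h | h <;> simp [h]
    · rcases ih he with h | h | h <;> simp [h]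

theorem dg_posC {H : Finset (Sym2 α)} {e : Sym2 α} {u : α} (he : e ∈ H) (hu : u ∈ e) :
    0 < dg H u := card_pos.2 ⟨e, mem_filter.2 ⟨he, hu⟩⟩

theorem dg_sdiffC {F H : Finset (Sym2 α)} (h : F ⊆ H) (u : α) :
    dg (H \ F) u + dg F u = dg H u := by
  unfold dg
  rw [← card_union_of_disjoint (disjoint_filter_filter sdiff_disjoint), ← filter_union,
    sdiff_union_of_subset h]

theorem dg_singleC (e : Sym2 α) (u : α) : dg {e} u = if u ∈ e then 1 else 0 := by
  unfold dg
  rw [filter_singleton]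
  split_ifs <;> simp

theorem walk_uniqC {Q : Finset α} {H : Finset (Sym2 α)} (two : ∀ x, x ∉ Q → dg H x ≤ 2)
    {b b' : α} (hb : b ∈ Q) (hb' : b' ∈ Q) (l : List α) : ∀ (l' : List α) (a : α),
    (∀ x ∈ l, x ∉ Q) → (∀ x ∈ l', x ∉ Q) → (eds a l b).Nodup → (eds a l' b').Nodup →
    (∀ e ∈ eds a l b, e ∈ H) → (∀ e ∈ eds a l' b', e ∈ H) → l.headD b = l'.headD b' →
    l = l' ∧ b = b' := by
  induction l with
  | nil =>
    intro l' a _ h2 _ _ _ _ h
    cases l' with
    | nil => exact ⟨rfl, h⟩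
    | cons x l' =>
      simp only [List.headD_nil, List.headD_cons] at h
      exact absurd (h ▸ hb) (h2 x (by simp))
  | cons x l ih =>
    intro l' a h1 h2 n1 n2 s1 s2 h
    cases l' with
    | nil =>
      simp only [List.headD_nil, List.headD_cons] at h
      exact absurd (h ▸ hb') (h1 x (by simp))
    | cons x' l' =>
      simp only [List.headD_cons] at h
      subst h
      simp only [eds, List.nodup_cons, List.mem_cons, forall_eq_or_imp] at h1 h2 n1 n2 s1 s2
      have e1 := head_mem_edsC x l b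
      have e2 := head_mem_edsC x l' b'
      have : l.headD b = l'.headD b' := by
        by_contra hne
        have h3 : 2 < dg H x := two_lt_card_iff.2 ⟨s(a, x), s(x, l.headD b), s(x, l'.headD b'),
          mem_filter.2 ⟨s1.1, Sym2.mem_mk_right _ _⟩,
          mem_filter.2 ⟨s1.2 _ e1, Sym2.mem_mk_left _ _⟩,
          mem_filter.2 ⟨s2.2 _ e2, Sym2.mem_mk_left _ _⟩,
          fun h => n1.1 (h ▸ e1), fun h => n2.1 (h ▸ e2),
          fun h => hne (Sym2.congr_right.1 h)⟩
        exact absurd (two x h1.1) (by omega)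
      obtain ⟨r1, r2⟩ := ih l' x h1.2 h2.2 n1.2 n2.2 s1.2 s2.2 this
      exact ⟨by rw [r1], r2⟩

theorem walk_exC (Q : Finset α) (n : ℕ) : ∀ (H : Finset (Sym2 α)) (a x : α), H.card = n →
    s(a, x) ∈ H → (∀ e ∈ H, ¬ e.IsDiag) → (∀ u, u ∉ Q → u ≠ a → dg H u = 0 ∨ dg H u = 2) →
    (a ∉ Q → dg H a = 1) → ∃ l b, b ∈ Q ∧ (∀ y ∈ l, y ∉ Q) ∧ l.Nodup ∧ a ∉ l ∧
      (eds a l b).Nodup ∧ (∀ e ∈ eds a l b, e ∈ H) ∧ l.headD b = x := by
  induction n with
  | zero =>
    intro H a x hc he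
    rw [card_eq_zero.1 hc] at he
    simp at he
  | succ n ih =>
    intro H a x hc he nd two one
    by_cases hx : x ∈ Q
    · exact ⟨[], x, hx, by simp, by simp, by simp, by simp [eds], by simpa [eds] using he, rfl⟩
    have hax : x ≠ a := fun h => nd _ he (by simp [h])
    have hs : ({s(a, x)} : Finset (Sym2 α)) ⊆ H := singleton_subset_iff.2 he
    have hd := fun u => dg_sdiffC hs u
    simp only [dg_singleC, Sym2.mem_iff] at hd
    have hx2 : dg H x = 2 := (two x hx hax).resolve_left (dg_posC he (Sym2.mem_mk_right _ _)).ne'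
    have hx1 : dg (H \ {s(a, x)}) x = 1 := by
      have := hd x
      simp only [or_true, if_true] at this
      omega
    have ha0 : a ∉ Q → dg (H \ {s(a, x)}) a = 0 := fun h => by
      have := hd a
      have := one h
      simp only [true_or, if_true] at *
      omega
    obtain ⟨e, he'⟩ := card_pos.1 (show 0 < dg (H \ {s(a, x)}) x by omega)
    obtain ⟨he1, he2⟩ := mem_filter.1 he'
    obtain ⟨y, rfl⟩ := Sym2.mem_iff_exists.1 he2
    obtain ⟨l, b, r1, r2, r3, r4, r5, r6, -⟩ := ih (H \ {s(a, x)}) x y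
      (by rw [card_sdiff_of_subset hs, hc, card_singleton]; rfl) he1
      (fun e h => nd e (mem_sdiff.1 h).1) (fun u hu hux => by
        by_cases hua : u = a
        · subst hua; exact Or.inl (ha0 hu)
        · have := hd u
          simp only [hua, hux, or_self, if_false, add_zero] at this
          rw [this]; exact two u hu hua) (fun _ => hx1)
    refine ⟨x :: l, b, r1, ?_, List.nodup_cons.2 ⟨r4, r3⟩, ?_, ?_, ?_, rfl⟩
    · intro y hy
      rcases List.mem_cons.1 hy with rfl | hy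
      exacts [hx, r2 y hy]
    · intro h
      rcases List.mem_cons.1 h with h | h
      · exact hax h.symm
      · obtain ⟨e, h1, h2⟩ := exists_edge_edsC (a := x) (b := b) h
        exact absurd (ha0 (r2 a h)) (dg_posC (r6 e h1) h2).ne'
    · simp only [eds, List.nodup_cons]
      exact ⟨fun h => (mem_sdiff.1 (r6 _ h)).2 (mem_singleton_self _), r5⟩
    · intro e h
      simp only [eds, List.mem_cons] at h
      rcases h with rfl | h
      exacts [he, (mem_sdiff.1 (r6 _ h)).1]

theorem exists_thrC {Q : Finset α} {H : Finset (Sym2 α)} (h : PQ Q H) :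
    ∃ D : Finset (Ln α), (∀ T, T ∈ D ↔ ThC Q H T) ∧ D.card = ∑ q ∈ Q, dg H q := by
  classical
  have two : ∀ x, x ∉ Q → dg H x ≤ 2 := fun x hx => by rcases h.two x hx with h | h <;> omega
  set f : Ln α → (Σ _ : α, Sym2 α) := fun T => ⟨T.1, s(T.1, T.2.1.headD T.2.2)⟩ with hf
  set Z : Finset (Σ _ : α, Sym2 α) := Q.sigma fun q => H.filter fun e => q ∈ e with hZ
  have hm : ∀ T, ThC Q H T → f T ∈ Z := fun T hT => mem_sigma.2 ⟨hT.fst,
    mem_filter.2 ⟨hT.sub _ (head_mem_edsC _ _ _), Sym2.mem_mk_left _ _⟩⟩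
  have hi : Set.InjOn f {T | ThC Q H T} := by
    rintro ⟨a, l, b⟩ hT ⟨a', l', b'⟩ hT' e
    simp only [hf, Sigma.mk.injEq, heq_eq_eq] at e
    obtain ⟨rfl, e⟩ := e
    obtain ⟨r1, r2⟩ := walk_uniqC two hT.lst hT'.lst l l' a hT.int hT'.int hT.ndE hT'.ndE
      hT.sub hT'.sub (Sym2.congr_right.1 e)
    simp only at r2
    rw [r1, r2]
  have hfin : {T | ThC Q H T}.Finite :=
    Set.Finite.of_injOn (t := (Z : Set _)) (fun T hT => hm T hT) hi Z.finite_toSet
  refine ⟨hfin.toFinset, fun T => by simp, ?_⟩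
  have : Z.card = ∑ q ∈ Q, dg H q := card_sigma _ _
  rw [← this]
  refine card_bij (fun T _ => f T) (fun T hT => hm T (by simpa using hT))
    (fun T hT T' hT' e => hi (by simpa using hT) (by simpa using hT') e) ?_
  rintro ⟨q, e⟩ hz
  obtain ⟨h1, h2⟩ := mem_sigma.1 hz
  obtain ⟨h2, h3⟩ := mem_filter.1 h2
  simp only at h1 h2 h3
  obtain ⟨x, rfl⟩ := Sym2.mem_iff_exists.1 h3
  obtain ⟨l, b, r1, r2, r3, -, r5, r6, r7⟩ := walk_exC Q _ H q x rfl h2 h.nd
    (fun u hu _ => h.two u hu) (fun hq => absurd h1 hq)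
  refine ⟨(q, l, b), by simpa using (⟨h1, r1, r2, r3, r5, r6⟩ : ThC Q H (q, l, b)), ?_⟩
  simp only [hf, r7]

theorem ThC.subC {Q : Finset α} {H : Finset (Sym2 α)} {T : Ln α} (hT : ThC Q H T) :
    (eds T.1 T.2.1 T.2.2).toFinset ⊆ H := fun e he => hT.sub e (List.mem_toFinset.1 he)

theorem ThC.intC {Q : Finset α} {H : Finset (Sym2 α)} {T : Ln α} (hT : ThC Q H T) (h : PQ Q H)
    {u : α} (hu : u ∈ T.2.1) : dg (H \ (eds T.1 T.2.1 T.2.2).toFinset) u = 0 := by
  have h1 := dg_sdiffC hT.subC u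
  have h2 := dg_eds _ _ _ hT.ndE (fun e he => h.nd e (hT.sub e he)) u
  have h3 := List.count_pos_iff.2 hu
  rcases h.two u (hT.int u hu) with h4 | h4 <;> omega

theorem ThC.pqC {Q : Finset α} {H : Finset (Sym2 α)} {T : Ln α} (hT : ThC Q H T) (h : PQ Q H) :
    PQ Q (H \ (eds T.1 T.2.1 T.2.2).toFinset) ∧
      ∑ q ∈ Q, dg (H \ (eds T.1 T.2.1 T.2.2).toFinset) q + 2 = ∑ q ∈ Q, dg H q := by
  have h2 := dg_eds _ _ _ hT.ndE (fun e he => h.nd e (hT.sub e he))
  refine ⟨⟨fun e he => h.nd e (mem_sdiff.1 he).1, fun u hu => ?_, fun e he => ?_⟩, ?_⟩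
  · by_cases hl : u ∈ T.2.1
    · exact Or.inl (hT.intC h hl)
    · have h1 := dg_sdiffC hT.subC u
      rw [h2 u, if_neg fun h' : T.1 = u => hu (h' ▸ hT.fst),
        if_neg fun h' : T.2.2 = u => hu (h' ▸ hT.lst),
        List.count_eq_zero.2 hl] at h1
      rcases h.two u hu with h4 | h4 <;> omega
  · obtain ⟨q, hq, u, hu, hr⟩ := h.con e (mem_sdiff.1 he).1
    have := hr.induction (P := fun w => w ∈ T.2.1 ∨
      ∃ q' ∈ Q, Rch (H \ (eds T.1 T.2.1 T.2.2).toFinset) q' w) (Or.inr ⟨q, hq, Rch.refl _ _⟩)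
      fun w z hw hwz => by
        by_cases hF : s(w, z) ∈ eds T.1 T.2.1 T.2.2
        · rcases mem_of_edge_edsC hF (Sym2.mem_mk_right _ _) with h' | h' | h'
          · exact Or.inr ⟨z, h' ▸ hT.fst, Rch.refl _ _⟩
          · exact Or.inl h'
          · exact Or.inr ⟨z, h' ▸ hT.lst, Rch.refl _ _⟩
        · have hm : s(w, z) ∈ H \ (eds T.1 T.2.1 T.2.2).toFinset :=
            mem_sdiff.2 ⟨hwz, fun h' => hF (List.mem_toFinset.1 h')⟩
          rcases hw with hw | ⟨q', hq', hw⟩
          · exact absurd (hT.intC h hw) (dg_posC hm (Sym2.mem_mk_left _ _)).ne'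
          · exact Or.inr ⟨q', hq', hw.step hm⟩
    rcases this with hw | ⟨q', hq', hw⟩
    · exact absurd (hT.intC h hw) (dg_posC he hu).ne'
    · exact ⟨q', hq', u, hu, hw⟩
  · have e : ∑ q ∈ Q, dg (eds T.1 T.2.1 T.2.2).toFinset q = 2 := by
      rw [sum_congr rfl fun q hq => by
        rw [h2 q, List.count_eq_zero.2 fun h' => hT.int q h' hq, mul_zero, add_zero],
        sum_add_distrib, sum_ite_eq, sum_ite_eq, if_pos hT.fst, if_pos hT.lst]
    rw [← e, ← sum_add_distrib]
    exact sum_congr rfl fun q _ => dg_sdiffC hT.subC q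

theorem good_consC {Q : Finset α} {H : Finset (Sym2 α)} (h : PQ Q H) (T : Ln α)
    (S : List (Ln α)) : (Good Q (T :: S) ∧ (sysE (T :: S)).toFinset = H) ↔
      ThC Q H T ∧ Good Q S ∧ (sysE S).toFinset = H \ (eds T.1 T.2.1 T.2.2).toFinset := by
  constructor
  · rintro ⟨⟨g1, g2, g3, g4⟩, e⟩
    rw [sysI_cons] at g2 g3
    rw [sysE_cons] at g4 e
    rw [List.nodup_append] at g3 g4
    refine ⟨⟨(g1 T (by simp)).1, (g1 T (by simp)).2, fun x hx => g2 x (by simp [hx]), g3.1, g4.1,
      fun e' he => e ▸ by simp [he]⟩, ⟨fun T' hT' => g1 T' (by simp [hT']),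
      fun x hx => g2 x (by simp [hx]), g3.2.1, g4.2.1⟩, ?_⟩
    rw [← e, List.toFinset_append, union_sdiff_cancel_left]
    exact disjoint_left.2 fun e' h1 h2 =>
      g4.2.2 e' (List.mem_toFinset.1 h1) e' (List.mem_toFinset.1 h2) rfl
  · rintro ⟨hT, ⟨g1, g2, g3, g4⟩, e⟩
    refine ⟨⟨fun T' hT' => ?_, fun x hx => ?_, ?_, ?_⟩, ?_⟩
    · rcases List.mem_cons.1 hT' with rfl | hT'
      exacts [⟨hT.fst, hT.lst⟩, g1 T' hT']
    · rw [sysI_cons] at hx
      rcases List.mem_append.1 hx with hx | hx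
      exacts [hT.int x hx, g2 x hx]
    · rw [sysI_cons, List.nodup_append]
      refine ⟨hT.ndI, g3, ?_⟩
      rintro x hx y hy rfl
      obtain ⟨T', hT', hy⟩ := List.mem_flatMap.1 hy
      obtain ⟨e', h1, h2⟩ := exists_edge_edsC (a := T'.1) (b := T'.2.2) hy
      have : e' ∈ (sysE S).toFinset := List.mem_toFinset.2 (List.mem_flatMap.2 ⟨T', hT', h1⟩)
      exact absurd (hT.intC h hx) (dg_posC (e ▸ this) h2).ne'
    · rw [sysE_cons, List.nodup_append]
      refine ⟨hT.ndE, g4, ?_⟩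
      rintro x hx y hy rfl
      exact (mem_sdiff.1 (e ▸ List.mem_toFinset.2 hy)).2 (List.mem_toFinset.2 hx)
    · rw [sysE_cons, List.toFinset_append, e, union_sdiff_of_subset hT.subC]

open Classical in
theorem card_goodC [Fintype α] (Q : Finset α) (t : ℕ) : ∀ H : Finset (Sym2 α), PQ Q H →
    ∑ q ∈ Q, dg H q = 2 * t →
    ((Sy α H.card).filter fun S => Good Q S ∧ (sysE S).toFinset = H).card =
      t.factorial * 2 ^ t := by
  have mem : ∀ (H : Finset (Sym2 α)) (S : List (Ln α)),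
      S ∈ ((Sy α H.card).filter fun S => Good Q S ∧ (sysE S).toFinset = H) ↔
        Good Q S ∧ (sysE S).toFinset = H := fun H S => by
    rw [mem_filter, mem_Sy]
    exact ⟨fun h => h.2, fun h => ⟨by rw [← h.2, List.toFinset_card_of_nodup h.1.ndE], h⟩⟩
  induction t with
  | zero =>
    intro H h ht
    have hH : H = ∅ := by
      refine eq_empty_of_forall_notMem fun e he => ?_
      obtain ⟨q, hq, u, hu, hr⟩ := h.con e he
      have h0 : dg H q = 0 := (sum_eq_zero_iff.1 ht) q hq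
      rcases hr.symm.vis with h' | ⟨e', h1, h2⟩
      · exact absurd h0 (dg_posC he (h' ▸ hu)).ne'
      · exact absurd h0 (dg_posC h1 h2).ne'
    refine card_eq_one.2 ⟨[], Finset.ext fun S => ?_⟩
    rw [mem, mem_singleton, hH]
    constructor
    · rintro ⟨-, e⟩
      have h1 := length_sysE S
      rw [(List.toFinset_eq_empty_iff _).1 e] at h1
      exact List.length_eq_zero_iff.1 (by simp only [List.length_nil] at h1; omega)
    · rintro rfl
      exact ⟨⟨by simp, by simp, by simp, by simp⟩, by simp⟩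
  | succ t ih =>
    intro H h ht
    obtain ⟨D, hD, hc⟩ := exists_thrC h
    have : ((Sy α H.card).filter fun S => Good Q S ∧ (sysE S).toFinset = H).card =
        (D.sigma fun T => (Sy α (H \ (eds T.1 T.2.1 T.2.2).toFinset).card).filter fun S =>
          Good Q S ∧ (sysE S).toFinset = H \ (eds T.1 T.2.1 T.2.2).toFinset).card := by
      symm
      refine card_bij (fun z _ => z.1 :: z.2) (fun z hz => ?_) (fun z _ z' _ e => ?_) fun S hS => ?_
      · obtain ⟨h1, h2⟩ := mem_sigma.1 hz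
        exact (mem _ _).2 ((good_consC h _ _).2 ⟨(hD _).1 h1, (mem _ _).1 h2⟩)
      · obtain ⟨T, S⟩ := z
        obtain ⟨T', S'⟩ := z'
        obtain ⟨rfl, rfl⟩ := List.cons.inj e
        rfl
      · rw [mem] at hS
        cases S with
        | nil =>
          have : H = ∅ := by simpa using hS.2.symm
          simp [this, dg] at ht
        | cons T S =>
          obtain ⟨h1, h2⟩ := (good_consC h _ _).1 hS
          exact ⟨⟨T, S⟩, mem_sigma.2 ⟨(hD _).2 h1, (mem _ _).2 h2⟩, rfl⟩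
    rw [this, card_sigma, sum_congr rfl fun T hT => ih _ (((hD T).1 hT).pqC h).1
      (by have := (((hD T).1 hT).pqC h).2; omega), sum_const, smul_eq_mul, hc, ht,
      Nat.factorial_succ]
    ring

theorem count_good [Fintype α] {Q : Finset α} {H : Finset (Sym2 α)} (h : PQ Q H) {t : ℕ}
    (ht : ∑ q ∈ Q, dg H q = 2 * t) :
    ∑ S ∈ Sy α H.card, ind (Good Q S ∧ (sysE S).toFinset = H) = (t.factorial : ℝ) * 2 ^ t := by
  classical
  rw [sum_ind]
  have := card_goodC Q t H h ht
  exact_mod_cast (by convert this)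

end HamPerc.RG
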