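import Pool.Agent.Lib.MP_58a483_pr.Trail
import Pool.Agent.Lib.MP_58a483_pr.Defs

/-!
Definitions for the proof that the subcritical coefficients have rational generating functions.
-/

open Finset

namespace HamPerc.RG

section Comb

variable {α : Type*}

/-- edges of the walk `a, l, b` -/
def eds : α → List α → α → List (Sym2 α)
  | a, [], b => [s(a, b)]
  | a, x :: l, b => s(a, x) :: eds x l b

/-- a line: first end, interior vertices, last end -/
abbrev Ln (α : Type*) := α × List α × α

/-- all edges of a system of lines -/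
def sysE (S : List (Ln α)) : List (Sym2 α) := S.flatMap fun T => eds T.1 T.2.1 T.2.2

/-- all interior vertices of a system of lines -/
def sysI (S : List (Ln α)) : List α := S.flatMap fun T => T.2.1

/-- the ends of the lines -/
def sysP (S : List (Ln α)) : List (α × α) := S.map fun T => (T.1, T.2.2)

theorem length_eds (a : α) (l : List α) (b : α) : (eds a l b).length = l.length + 1 := by
  induction l generalizing a with
  | nil => rfl
  | cons x l ih => simp [eds, ih]

@[simp] theorem sysE_nil : sysE ([] : List (Ln α)) = [] := rfl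
@[simp] theorem sysI_nil : sysI ([] : List (Ln α)) = [] := rfl
@[simp] theorem sysP_nil : sysP ([] : List (Ln α)) = [] := rfl
theorem sysE_cons (T : Ln α) (S : List (Ln α)) :
    sysE (T :: S) = eds T.1 T.2.1 T.2.2 ++ sysE S := by simp [sysE]
theorem sysI_cons (T : Ln α) (S : List (Ln α)) : sysI (T :: S) = T.2.1 ++ sysI S := by simp [sysI]
theorem sysP_cons (T : Ln α) (S : List (Ln α)) : sysP (T :: S) = (T.1, T.2.2) :: sysP S := rfl

theorem length_sysE (S : List (Ln α)) : (sysE S).length = (sysI S).length + S.length := by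
  induction S with
  | nil => rfl
  | cons T S ih => simp [sysE_cons, sysI_cons, length_eds, ih]; omega

/-- lists of length `t` -/
noncomputable def Lk (β : Type*) [Fintype β] (t : ℕ) : Finset (List β) :=
  (List.finite_length_eq β t).toFinset

theorem mem_Lk {β : Type*} [Fintype β] {t : ℕ} {l : List β} : l ∈ Lk β t ↔ l.length = t := by
  simp [Lk]

theorem sum_Lk_zero {β M : Type*} [Fintype β] [AddCommMonoid M] (f : List β → M) :
    ∑ l ∈ Lk β 0, f l = f [] := by
  rw [show Lk β 0 = {[]} from Finset.ext fun l => by simp [mem_Lk], sum_singleton]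

theorem sum_Lk_succ {β M : Type*} [Fintype β] [AddCommMonoid M] (t : ℕ) (f : List β → M) :
    ∑ l ∈ Lk β (t + 1), f l = ∑ x, ∑ l ∈ Lk β t, f (x :: l) := by
  rw [← sum_product']
  symm
  refine sum_bij (fun q _ => q.1 :: q.2) ?_ ?_ ?_ fun _ _ => rfl
  · intro q hq
    simpa [mem_Lk] using hq
  · intro q _ q' _ h
    exact Prod.ext (List.cons.inj h).1 (List.cons.inj h).2
  · intro l hl
    rw [mem_Lk] at hl
    obtain ⟨x, l, rfl⟩ := List.exists_cons_of_length_eq_add_one hl
    exact ⟨(x, l), by simpa [mem_Lk] using hl, rfl⟩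

theorem finite_Sy (α : Type*) [Finite α] (k : ℕ) :
    {S : List (Ln α) | (sysE S).length = k}.Finite := by
  have h1 : {T : Ln α | T.2.1.length ≤ k}.Finite :=
    (Set.finite_univ.prod ((List.finite_length_le α k).prod Set.finite_univ)).subset
      fun T hT => ⟨trivial, hT, trivial⟩
  have := h1.to_subtype
  refine ((List.finite_length_le {T : Ln α | T.2.1.length ≤ k} k).image
    (List.map Subtype.val)).subset fun S hS => ?_
  have h2 : ∀ T ∈ S, T.2.1.length ≤ k := fun T hT => by
    obtain ⟨S₁, S₂, rfl⟩ := List.append_of_mem hT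
    have h3 : (sysE (S₁ ++ T :: S₂)).length = k := hS
    simp only [sysE, List.flatMap_append, List.flatMap_cons, List.length_append, length_eds] at h3
    omega
  refine ⟨S.pmap Subtype.mk h2, ?_, by simp [List.map_pmap]⟩
  have h3 := length_sysE S
  rw [show (sysE S).length = k from hS] at h3
  have h4 : S.length ≤ k := by omega
  exact List.length_pmap.trans_le h4

/-- systems of lines with `k` edges in total -/
noncomputable def Sy (α : Type*) [Fintype α] (k : ℕ) : Finset (List (Ln α)) :=
  (finite_Sy α k).toFinset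

theorem mem_Sy [Fintype α] {k : ℕ} {S : List (Ln α)} : S ∈ Sy α k ↔ (sysE S).length = k := by
  simp [Sy]

variable [DecidableEq α]

/-- the lines have their ends in `Q`, and are otherwise disjoint simple paths avoiding `Q` -/
structure Good (Q : Finset α) (S : List (Ln α)) : Prop where
  ends : ∀ T ∈ S, T.1 ∈ Q ∧ T.2.2 ∈ Q
  int : ∀ x ∈ sysI S, x ∉ Q
  ndI : (sysI S).Nodup
  ndE : (sysE S).Nodup

/-- degree of a vertex in an edge set -/
def dg (H : Finset (Sym2 α)) (x : α) : ℕ := (H.filter fun e => x ∈ e).card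

/-- no loops, degree `0` or `2` outside `Q`, every edge joined to `Q` -/
structure PQ (Q : Finset α) (H : Finset (Sym2 α)) : Prop where
  nd : ∀ e ∈ H, ¬ e.IsDiag
  two : ∀ x, x ∉ Q → dg H x = 0 ∨ dg H x = 2
  con : ∀ e ∈ H, ∃ q ∈ Q, ∃ u ∈ e, Rch H q u

/-- number of ends at `q` -/
def en (P : List (α × α)) (q : α) : ℕ :=
  (P.map fun c => (if c.1 = q then 1 else 0) + if c.2 = q then 1 else 0).sum

/-- iterated difference of a set function -/
def dl {β : Type*} (g : Finset β → ℝ) (U : Finset β) : ℝ :=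
  ∑ T ∈ U.powerset, (-1) ^ (U.card + T.card) * g T

theorem dl_empty {β : Type*} (g : Finset β → ℝ) : dl g ∅ = g ∅ := by simp [dl]

theorem dl_insert {β : Type*} [DecidableEq β] (g : Finset β → ℝ) {a : β} {U : Finset β}
    (ha : a ∉ U) : dl g (insert a U) = dl (fun T => g (insert a T)) U - dl g U := by
  unfold dl
  rw [sum_powerset_insert ha, card_insert_of_notMem ha, add_comm, sub_eq_add_neg,
    ← sum_neg_distrib]
  congr 1
  · refine sum_congr rfl fun T hT => ?_
    rw [card_insert_of_notMem fun h => ha (mem_powerset.1 hT h)]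
    ring
  · exact sum_congr rfl fun T _ => by ring

theorem dl_congr {β : Type*} {f g : Finset β → ℝ} {H : Finset β} (h : ∀ T ⊆ H, f T = g T) :
    dl f H = dl g H := sum_congr rfl fun T hT => by rw [h T (mem_powerset.1 hT)]

theorem dl_sub {β : Type*} (f g : Finset β → ℝ) (H : Finset β) :
    dl (fun T => f T - g T) H = dl f H - dl g H := by
  simp only [dl, mul_sub, sum_sub_distrib]

theorem dl_eq_zero {β : Type*} [DecidableEq β] {g : Finset β → ℝ} {a : β} {U : Finset β}
    (ha : a ∈ U) (h : ∀ T ⊆ U, a ∉ T → g (insert a T) = g T) : dl g U = 0 := by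
  rw [← insert_erase ha, dl_insert g (notMem_erase a U), sub_eq_zero]
  exact dl_congr fun T hT => h T (hT.trans (erase_subset _ _)) fun h => notMem_erase a U (hT h)

/-- inclusion-exclusion weight of the edge set `H` for the connection of `x` and `y`, the edges of
`R` being open -/
noncomputable def mu (x y : α) (R H : Finset (Sym2 α)) : ℝ := dl (fun T => ind (Rch (R ∪ T) x y)) H

/-- the same weight for a list of edges with repetitions -/
noncomputable def wt (x y : α) : Finset (Sym2 α) → List (Sym2 α) → ℝ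
  | R, [] => ind (Rch R x y)
  | R, e :: P => wt x y (insert e R) P - wt x y R P

/-- `U` contains `x` and is connected in `G` -/
def Cn (G : SimpleGraph α) (x : α) (U : Finset α) : Prop :=
  x ∈ U ∧ ∀ U' ⊆ U, x ∈ U' → (∀ a ∈ U', ∀ b ∈ U, G.Adj a b → b ∈ U') → U ⊆ U'

/-- branch vertices -/
def br [Fintype α] (x y : α) (H : Finset (Sym2 α)) : Finset α :=
  univ.filter fun u => u ≠ x ∧ u ≠ y ∧ 3 ≤ dg H u

/-- vertices of an edge set -/
def vs [Fintype α] (H : Finset (Sym2 α)) : Finset α := univ.filter fun u => ∃ e ∈ H, u ∈ e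

/-- an abstract line: is the interior nonempty, and the labels of the ends -/
abbrev AL (m : ℕ) := Bool × Fin m × Fin m

/-- the system `S` realises the abstract lines `P` under the labelling `φ` -/
def Match {m : ℕ} (φ : Fin m → α) (P : List (AL m)) (S : List (Ln α)) : Prop :=
  List.Forall₂ (fun c T => T.1 = φ c.2.1 ∧ T.2.2 = φ c.2.2 ∧ (c.1 = true ↔ T.2.1 ≠ [])) P S

/-- weight of an abstract diagram -/
noncomputable def om {b : ℕ} (P : List (AL (b + 2))) : ℝ :=
  wt 0 1 ∅ (P.map fun c => s(c.2.1, c.2.2)) *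
    ind ((∀ w, w ≠ 0 → w ≠ 1 → 3 ≤ en (P.map Prod.snd) w) ∧
      ((P.filter fun c => !c.1).map fun c => s(c.2.1, c.2.2)).Nodup)

/-- number of coinciding pairs in a list -/
def Xc [Fintype α] (L : List α) : ℕ := ∑ x, (L.count x).choose 2

/-- the interpolation polynomial -/
noncomputable def bet (J X : ℕ) : ℝ := ∏ j ∈ range J, (1 - (X : ℝ) / (j + 1))

/-- sum over the realisations of a diagram in `G` with `k` edges of a function of the list of all
vertices -/
noncomputable def Re [Fintype α] (G : SimpleGraph α) {m : ℕ} (P : List (AL m)) (k : ℕ)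
    (f : List α → ℝ) : ℝ :=
  ∑ φ : Fin m → α, ∑ S ∈ Sy α k,
    ind (Match φ P S ∧ ∀ e ∈ sysE S, e ∈ G.edgeSet) * f (List.ofFn φ ++ sysI S)

end Comb

section Gen

open PowerSeries

variable {α : Type*} [Fintype α] [DecidableEq α]

/-- walks with `m` interior vertices, each marked by a variable -/
noncomputable def wk (G : SimpleGraph α) : ℕ → α → α → MvPolynomial α ℝ
  | 0, a, b => MvPolynomial.C (ind (G.Adj a b))
  | m + 1, a, b => ∑ x, MvPolynomial.C (ind (G.Adj a x)) * MvPolynomial.X x * wk G m x b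

/-- a single edge -/
noncomputable def kE (G : SimpleGraph α) (ε : ℝ) (a b : α) : (MvPolynomial α ℝ)⟦X⟧ :=
  C (MvPolynomial.C (ε * ind (G.Adj a b))) * X

/-- all walks of positive length -/
noncomputable def kG (G : SimpleGraph α) (ε : ℝ) (a b : α) : (MvPolynomial α ℝ)⟦X⟧ :=
  (mk fun m => MvPolynomial.C (ε ^ (m + 1)) * wk G m a b) * X

/-- walks of length one, or of length at least two -/
noncomputable def kT (G : SimpleGraph α) (ε : ℝ) (τ : Bool) (a b : α) : (MvPolynomial α ℝ)⟦X⟧ :=
  if τ then kG G ε a b - kE G ε a b else kE G ε a b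

/-- generating function of the realisations of a diagram with given labelling -/
noncomputable def ZZ (G : SimpleGraph α) (ε : ℝ) {m : ℕ} (P : List (AL m)) (φ : Fin m → α) :
    (MvPolynomial α ℝ)⟦X⟧ :=
  (∏ w, C (MvPolynomial.X (φ w))) * (P.map fun c => kT G ε c.1 (φ c.2.1) (φ c.2.2)).prod

/-- Euler operator -/
noncomputable def th (x : α) : MvPolynomial α ℝ →ₗ[ℝ] MvPolynomial α ℝ :=
  LinearMap.mulLeft ℝ (MvPolynomial.X x) ∘ₗ (MvPolynomial.pderiv x).toLinearMap

/-- multiplies a monomial by its number of coinciding pairs -/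
noncomputable def Dop (α : Type*) [Fintype α] : MvPolynomial α ℝ →ₗ[ℝ] MvPolynomial α ℝ :=
  ∑ x, (1 / 2 : ℝ) • (th x ∘ₗ th x - th x)

/-- the interpolation polynomial in `Dop` -/
noncomputable def Bop (α : Type*) [Fintype α] : ℕ → MvPolynomial α ℝ →ₗ[ℝ] MvPolynomial α ℝ
  | 0 => LinearMap.id
  | J + 1 => Bop α J - ((J : ℝ) + 1)⁻¹ • (Bop α J ∘ₗ Dop α)

/-- all variables equal to one -/
noncomputable def ev1 (α : Type*) : MvPolynomial α ℝ →+* ℝ := MvPolynomial.eval fun _ => 1

/-- a linear map applied to every coefficient -/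
noncomputable def lft (L : MvPolynomial α ℝ →ₗ[ℝ] MvPolynomial α ℝ) (g : (MvPolynomial α ℝ)⟦X⟧) :
    (MvPolynomial α ℝ)⟦X⟧ := mk fun k => L (coeff k g)

/-- vertices of the Hamming graph -/
abbrev Vt (v n : ℕ) := Fin v → Fin n

/-- families, indexed by the side length, of functions of `m` vertices that are linear
combinations of products of kernels with at most `M` edges or walks -/
inductive Fr (v m : ℕ) :
    ℕ → (∀ n, (Fin m → Vt v n) → (MvPolynomial (Vt v n) ℝ)⟦X⟧) → Prop
  | one : Fr v m 0 fun _ _ => 1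
  | del (a b : Fin m) {M F} : Fr v m M F →
      Fr v m M fun n φ => C (MvPolynomial.C (ind (φ a = φ b))) * F n φ
  | z (a : Fin m) {M F} : Fr v m M F → Fr v m M fun n φ => C (MvPolynomial.X (φ a)) * F n φ
  | edge (a b : Fin m) {M F} : Fr v m M F →
      Fr v m (M + 1) fun n φ => kE (hamming v n) (n : ℝ)⁻¹ (φ a) (φ b) * F n φ
  | gr (a b : Fin m) {M F} : Fr v m M F →
      Fr v m (M + 1) fun n φ => kG (hamming v n) (n : ℝ)⁻¹ (φ a) (φ b) * F n φ
  | add {M F F'} : Fr v m M F → Fr v m M F' → Fr v m M fun n φ => F n φ + F' n φ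
  | smul (c : ℝ) {M F} : Fr v m M F → Fr v m M fun n φ => C (MvPolynomial.C c) * F n φ
  | mono {M F} : Fr v m M F → Fr v m (M + 1) F

open Polynomial in
/-- the universal denominator, a polynomial in `s` over polynomials in `1 / n` -/
noncomputable def Qe (v : ℕ) : ℝ[X][X] :=
  ∏ u ∈ range (v + 1), (1 - Polynomial.C (Polynomial.C (u : ℝ) - Polynomial.C (v : ℝ) *
    Polynomial.X) * Polynomial.X)

/-- specialisation of the inner variable to `1 / n` -/
noncomputable def pn (n : ℕ) : Polynomial (Polynomial ℝ) →+* ℝ⟦X⟧ :=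
  Polynomial.coeToPowerSeries.ringHom.comp
    (Polynomial.mapRingHom (Polynomial.evalRingHom (n : ℝ)⁻¹))

/-- `g n` is `n ^ E` times a rational function with denominator `Qe v ^ M` -/
def SS (v E M : ℕ) (g : ℕ → ℝ⟦X⟧) : Prop :=
  ∃ N : Polynomial (Polynomial ℝ), N.natDegree ≤ (v + 2) * M ∧
    ∀ n : ℕ, 1 ≤ n → g n * pn n (Qe v ^ M) = C ((n : ℝ) ^ E) * pn n N

end Gen

end HamPerc.RG
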