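import Pool.Agent.Lib.MP_58a483_pr.Main

/-!
Newton extrapolation of lower order gives the same first coefficients.
-/

open Finset Filter Topology Asymptotics

namespace HamPerc.RG

/-- Newton extrapolation of order `K` of the truncated inverse susceptibilities -/
noncomputable def PSK (d K : ℕ) (q : ℝ × ℝ) : ℝ := ∑ u ∈ range (K + 1), d.choose u *
  ∑ v ∈ range (u + 1), (-1) ^ (u + v) * u.choose v *
    (∑ i ∈ range (K + 1), q.1 ^ i * XX v i q.2)⁻¹

variable {d n K : ℕ}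

/-- the common error bound -/
noncomputable def erK (K n : ℕ) : ℝ := (n : ℝ) ^ (-(1 / 3) : ℝ) * (n : ℝ)⁻¹ ^ K

theorem erK_eq (hn : 1 ≤ n) : erK K n = (n : ℝ) ^ (-(1 / 3) - K : ℝ) := by
  have h0 : (0 : ℝ) < n := by exact_mod_cast hn
  rw [erK, inv_pow, ← Real.rpow_natCast, ← Real.rpow_neg h0.le, ← Real.rpow_add h0, sub_eq_add_neg]

theorem WV_le_erK (h3 : 3 * K < d) (hn : 1 ≤ n) : (WV d n)⁻¹ ≤ erK K n := by
  have h0 : (0 : ℝ) < n := by exact_mod_cast hn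
  rw [erK_eq hn, WV, ← Real.rpow_neg h0.le]
  refine Real.rpow_le_rpow_of_exponent_le (by exact_mod_cast hn) ?_
  have : ((3 * K + 1 : ℕ) : ℝ) ≤ d := by exact_mod_cast h3
  push_cast at this
  linarith

theorem pow_le_erK (hn : 1 ≤ n) : (n : ℝ) ^ (1 / 3 : ℝ) * (n : ℝ)⁻¹ ^ (K + 1) ≤ erK K n := by
  have h0 : (0 : ℝ) < n := by exact_mod_cast hn
  rw [erK_eq hn, inv_pow, ← Real.rpow_natCast, ← Real.rpow_neg h0.le, ← Real.rpow_add h0]
  refine Real.rpow_le_rpow_of_exponent_le (by exact_mod_cast hn) ?_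
  push_cast
  linarith

theorem pow_le_erK' (hn : 1 ≤ n) : (n : ℝ)⁻¹ ^ (K + 1) ≤ erK K n :=
  le_trans (le_mul_of_one_le_left (by positivity)
    (Real.one_le_rpow (by exact_mod_cast hn) (by norm_num))) (pow_le_erK hn)

theorem windowK (hK : 1 ≤ K) (hK3 : 3 * K < d) {lam : ℝ} (hl : 0 < lam) :
    ∃ C : ℝ, ∀ᶠ n : ℕ in atTop, ∀ p : ℝ, 0 ≤ p → p ≤ 1 → chi d n p = lam * WV d n →
      |∑ u ∈ range (K + 1), d.choose u *
        ∑ v ∈ range (u + 1), (-1) ^ (u + v) * u.choose v * (chi v n p)⁻¹| ≤ C * erK K n := by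
  have hd : 3 ≤ d := by omega
  set Λ := max lam 1
  have hΛ : 1 ≤ Λ := le_max_right _ _
  obtain ⟨C, hC, h2⟩ := regime hd hΛ
  set C2 := (1 + 4 ^ d) * ((K + 2) * (32 * C ^ 8 * (22 * C ^ 6) ^ (K + 1)) * (1 + Λ ^ 2) +
    C ^ 2 * Λ ^ 2 + (K + 1) * 2) with hC2
  refine ⟨lam⁻¹ + C2, ?_⟩
  filter_upwards [h2, bootstrap hd hΛ, eventually_ge_atTop 2,
    ((PL.const 2).mul ((PL_BB (d := d) K).pow 2)).le', (PL.const (C * Λ)).le',
    ((((PL.const 6).mul (PL_NN (d := d))).pow (K + 1)).mul (PL.const (C * Λ))).le',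
    (((PL.const 12).mul (((PL.const 2).mul ((PL_BB (d := d) K).pow 2)).pow (K + 1))).mul
      (((PL.const 2).mul (PL_NN (d := d))).pow (K + 1))).le (η := 1 / 3) (by norm_num)]
    with n h2 h3 hn h4 h5 h6 h7 p hp0 hp1 hχ
  have hn1 : 1 ≤ n := by omega
  have hn' : (2 : ℝ) ≤ n := by exact_mod_cast hn
  have hd' : (3 : ℝ) ≤ d := by exact_mod_cast hd
  have hW := le_WV hd hn1
  have hW0 : 0 < WV d n := by linarith
  have hX : chi d n p ≤ Λ * WV d n := hχ ▸ mul_le_mul_of_nonneg_right (le_max_left _ _) hW0.le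
  have hμ := h3 p hp0 hp1 hX
  have hC20 : 0 ≤ C2 := by positivity
  have hi : (chi d n p)⁻¹ = lam⁻¹ * (WV d n)⁻¹ := by rw [hχ, mul_inv]
  have hi0 : 0 < lam⁻¹ * (WV d n)⁻¹ := by positivity
  obtain ⟨a, b⟩ := h2 p hp0 hμ hX
  have hp2 := a.p2
  set s := -(n * Real.log (1 - p)) with hs
  have e : p = 1 - Real.exp (-(s / n)) := by
    rw [hs, neg_div, neg_neg, mul_div_cancel_left₀ _ (by linarith), Real.exp_log (by linarith)]
    ring
  have s0 : 0 ≤ s := neg_nonneg.2 (mul_nonpos_of_nonneg_of_nonpos (by positivity)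
    (Real.log_nonpos (by linarith) (by linarith)))
  have s1 : s ≤ 1 := by
    have c1 := Real.one_sub_inv_le_log_of_pos (x := 1 - p) (by linarith)
    have c2 : (1 - p)⁻¹ ≤ 1 + 3 / 2 * p := by
      have : 1 / ((LL d n + 1 : ℕ) : ℝ) ≤ 1 := by
        rw [div_le_one (by positivity)]; exact_mod_cast Nat.le_add_left _ _
      have : p ≤ 1 / 3 := by nlinarith [mul_nonneg hp0 (show 0 ≤ (n : ℝ) * d - 6 by nlinarith)]
      rw [inv_le_iff_one_le_mul₀ (by linarith)]; nlinarith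
    have c3 : 1 / ((LL d n + 1 : ℕ) : ℝ) ≤ 1 := by
      rw [div_le_one (by positivity)]; exact_mod_cast Nat.le_add_left _ _
    have c4 : p * n * 3 ≤ p * n * d := mul_le_mul_of_nonneg_left hd' (by positivity)
    nlinarith
  have e1 : Λ * WV d n * ((n : ℝ) ^ d)⁻¹ = Λ * (WV d n)⁻¹ * (WV d n)⁻¹ := by
    rw [← WV_cube]; field_simp
  have e2 : Λ * WV d n * (Λ * (WV d n)⁻¹ * (WV d n)⁻¹) = Λ ^ 2 * (WV d n)⁻¹ := by field_simp
  have w1 : ∀ x : ℝ, x ≤ n → x * (WV d n)⁻¹ ≤ 1 := fun x hx => by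
    rw [mul_inv_le_iff₀ hW0]; linarith
  have w0 : 0 < (WV d n)⁻¹ := by positivity
  have w2 : (WV d n)⁻¹ ≤ 1 := by simpa using w1 1 (by linarith)
  rw [e1] at a b
  rw [e] at a b hi ⊢
  have hN : 1 ≤ NN d n := Nat.mul_pos (by positivity) (Nat.mul_pos (by omega) (Nat.succ_pos _))
  have h8 := newton_chi (K := K) (B := BB d K n) s0 s1 a b hK hN le_rfl
    (by exact_mod_cast h4) (by
      have := mul_le_mul (w1 _ h5) w2 w0.le zero_le_one
      linarith)
  have c0 := WV_le_erK hK3 hn1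
  have c1 := pow_le_erK (K := K) hn1
  have c2 := pow_le_erK' (K := K) hn1
  have c3 : (6 * NN d n : ℝ) ^ (K + 1) * (C * (Λ * (WV d n)⁻¹ * (WV d n)⁻¹)) ≤ erK K n := by
    have := mul_le_mul_of_nonneg_right (w1 _ h6) w0.le
    linarith
  have c4 : 12 * ((2 * BB d K n ^ 2 : ℕ) * (n : ℝ)⁻¹) ^ (K + 1) * (2 * NN d n) ^ (K + 1) ≤
      erK K n := by
    refine le_trans ?_ ((mul_le_mul_of_nonneg_right h7 (by positivity)).trans c1)
    push_cast
    rw [mul_pow _ (n : ℝ)⁻¹]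
    exact le_of_eq (by ring)
  rw [e2, hi] at h8
  have c5 := mul_le_mul_of_nonneg_left c0 (sq_nonneg Λ)
  have h9 : _ ≤ C2 * erK K n := h8.trans (by
    rw [hC2, mul_assoc (1 + 4 ^ d : ℝ)]
    refine mul_le_mul_of_nonneg_left ?_ (by positivity)
    have d1 := mul_le_mul_of_nonneg_left (add_le_add c2 c5)
      (show 0 ≤ (K + 2) * (32 * C ^ 8 * (22 * C ^ 6) ^ (K + 1)) by positivity)
    have d2 := mul_le_mul_of_nonneg_left (add_le_add c3 c4) (show (0 : ℝ) ≤ K + 1 by positivity)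
    have d3 := mul_le_mul_of_nonneg_left c5 (sq_nonneg C)
    linarith)
  have a3 := mul_le_mul_of_nonneg_left c0 (inv_pos.2 hl).le
  rw [abs_le] at *
  constructor <;> linarith [h9.1, h9.2]

theorem PSK_analytic (hd : 3 ≤ d) (hK : K ≤ d / 3) : AnalyticAt ℝ (PSK d K) (0, 1 / d) := by
  have h := (inv_lt_rad hd).1.trans (inv_lt_rad hd).2
  refine analyticAt_fun_sum _ fun u hu => analyticAt_const.fun_mul
    (analyticAt_fun_sum _ fun v hv => analyticAt_const.fun_mul (AnalyticAt.fun_inv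
      (analyticAt_fun_sum _ fun i _ => (analyticAt_fst.fun_pow i).fun_mul ?_) ?_))
  all_goals have hv' : v ≤ d / 3 := by rw [mem_range] at hu hv; omega
  · exact (XX_analytic hd hv' i h).comp_of_eq analyticAt_snd rfl
  · simpa [sum_range_succ'] using right_ne_zero_of_mul_eq_one (XX_zero hd hv' h)

theorem PSK_zero (hd : 3 ≤ d) (hK1 : 1 ≤ K) (hK : K ≤ d / 3) :
    ∀ᶠ σ in 𝓝 (1 / d : ℝ), PSK d K (0, σ) = d * (1 / d - σ) := by
  have h := (inv_lt_rad hd).1.trans (inv_lt_rad hd).2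
  have hd' : (3 : ℝ) ≤ d := by exact_mod_cast hd
  filter_upwards [(continuous_abs.tendsto _).eventually (gt_mem_nhds h)] with σ hσ
  rw [mul_sub, mul_one_div_cancel (by linarith), ← newton_lin (K := K) hK1]
  refine sum_congr rfl fun u hu => congrArg _ (sum_congr rfl fun v hv => congrArg _ ?_)
  have hv' : v ≤ d / 3 := by rw [mem_range] at hu hv; omega
  simpa [sum_range_succ'] using (eq_inv_of_mul_eq_one_left (XX_zero hd hv' hσ)).symm

theorem PSK_approx (hd : 3 ≤ d) (hK : K ≤ d / 3) :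
    ∃ C : ℝ, ∀ᶠ n : ℕ in atTop, ∀ σ : ℝ, 0 ≤ σ →
    σ ≤ 17 / 18 * (3 / 4 * (3 / (2 * d))) →
    |PSK d K ((n : ℝ)⁻¹, σ) - ∑ u ∈ range (K + 1), d.choose u *
      ∑ v ∈ range (u + 1), (-1) ^ (u + v) * u.choose v * (chi v n (σ * (n : ℝ)⁻¹))⁻¹| ≤
      C * (n : ℝ)⁻¹ ^ (K + 1) := by
  have h1 := fun v (hv : v ≤ K) => chi_exp (par hd (hv.trans hK)).1 (par hd (hv.trans hK)).2.1
    (par hd (hv.trans hK)).2.2
    K (ρ := 17 / 18) (by norm_num) (by norm_num)
  choose! C hC using h1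
  set C' := ∑ v ∈ range (K + 1), |C v| with hC'
  have h2 : ∀ v ≤ K, C v ≤ C' := fun v hv => (le_abs_self _).trans
    (single_le_sum (f := fun v => |C v|) (fun _ _ => abs_nonneg _) (mem_range.2 (by omega)))
  have h3 : 0 ≤ C' := sum_nonneg fun _ _ => abs_nonneg _
  refine ⟨∑ u ∈ range (K + 1), d.choose u * ∑ v ∈ range (u + 1), u.choose v * (2 * C'), ?_⟩
  filter_upwards [eventually_ge_atTop 2, (PL.const (2 * C')).le'] with n hn h4 σ h5 h6
  have hn1 : 1 ≤ n := by omega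
  have h0 : (0 : ℝ) < n := by exact_mod_cast hn1
  rw [PSK, ← sum_sub_distrib, sum_mul]
  refine (abs_sum_le_sum_abs _ _).trans (sum_le_sum fun u hu => ?_)
  rw [← mul_sub, abs_mul, abs_of_nonneg (by positivity), mul_assoc, ← sum_sub_distrib, sum_mul]
  refine mul_le_mul_of_nonneg_left ((abs_sum_le_sum_abs _ _).trans (sum_le_sum fun v hv => ?_))
    (by positivity)
  have hv' : v ≤ K := by rw [mem_range] at hu hv; omega
  have hv'' := hv'.trans hK
  rw [← mul_sub, abs_mul, abs_mul, abs_pow, abs_neg, abs_one, one_pow, one_mul,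
    abs_of_nonneg (by positivity), mul_assoc]
  refine mul_le_mul_of_nonneg_left ?_ (by positivity)
  have a1 := (hC v hv' n hn σ h5 h6).trans (mul_le_mul_of_nonneg_right (h2 v hv') (by positivity))
  have a2 := one_le_chi (d := v) hn1 (show 0 ≤ σ * (n : ℝ)⁻¹ by positivity)
    (mul_le_one₀ (by linarith [(par hd hv'').2.1, (par hd hv'').1]) (by positivity) (inv_le_one' hn1))
  have a3 : C' * (n : ℝ)⁻¹ ^ (K + 1) ≤ 1 / 2 := by
    refine (mul_le_mul_of_nonneg_left (pow_le_of_le_one (by positivity) (inv_le_one' hn1)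
      (by omega)) h3).trans ?_
    rw [mul_inv_le_iff₀ h0]; linarith
  change |_ - ∑ i ∈ range (K + 1), (n : ℝ)⁻¹ ^ i * XX v i σ| ≤ _ at a1
  generalize ∑ i ∈ range (K + 1), (n : ℝ)⁻¹ ^ i * XX v i σ = B at *
  generalize chi v n (σ * (n : ℝ)⁻¹) = A at *
  have a4 : 1 / 2 ≤ B := by linarith [(abs_le.1 a1).2]
  rw [inv_sub_inv (by linarith) (by linarith), abs_div, abs_of_pos (show 0 < B * A by positivity),
    div_le_iff₀ (by positivity), mul_assoc 2]
  nlinarith [mul_le_mul_of_nonneg_left (show 1 / 2 ≤ B * A by nlinarith)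
    ((abs_nonneg _).trans a1)]

theorem mainK (hK : 1 ≤ K) (hK3 : 3 * K < d) {a : ℕ → ℝ} (ha : a 0 = 1 / d)
    (h : (fun ε => PSK d K (ε, ∑ i ∈ range (K + 1), a i * ε ^ i)) =O[𝓝 0]
      fun ε : ℝ => ε ^ (K + 1)) {lam : ℝ} (hl : 0 < lam) :
    ∃ C : ℝ, ∀ᶠ n : ℕ in atTop, ∀ p : ℝ, 0 ≤ p → p ≤ 1 → chi d n p = lam * WV d n →
      |p * n - ∑ i ∈ range (K + 1), a i * (n : ℝ)⁻¹ ^ i| ≤ C * erK K n := by
  have hd : 3 ≤ d := by omega
  have hK' : K ≤ d / 3 := by omega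
  have hd' : (3 : ℝ) ≤ d := by exact_mod_cast hd
  obtain ⟨C1, h1⟩ := window hd hl
  obtain ⟨C0, h0'⟩ := windowK hK hK3 hl
  obtain ⟨C2, h2⟩ := PSK_approx hd hK'
  obtain ⟨C3, h3⟩ := h.bound
  have h4 := (bilip (by linarith) (PSK_analytic hd hK') (PSK_zero hd hK hK')).and
    ((continuous_snd.fst.abs.tendsto _).eventually (gt_mem_nhds (inv_lt_rad hd).1))
  obtain ⟨η, hη, h4⟩ := Metric.eventually_nhds_iff.1 h4
  have t0 := tendsto_inv_atTop_nhds_zero_nat (𝕜 := ℝ)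
  have t1 := (tendsto_poly a K).comp t0
  rw [ha] at t1
  refine ⟨(C0 + |C2| + |C3|) / (d / 2), ?_⟩
  filter_upwards [h0', h1, h2, t0.eventually h3, t0.eventually (Metric.ball_mem_nhds _ hη),
    t1.eventually (Metric.ball_mem_nhds _ hη), eventually_ge_atTop 1,
    (mul_zero C1 ▸ t0.const_mul C1).eventually (gt_mem_nhds hη)]
    with n h0' h1 h2 h3 h5 h6 hn h7 p hp0 hp1 hχ
  have h0 : (0 : ℝ) < n := by exact_mod_cast hn
  have b1 := (h1 p hp0 hp1 hχ).1
  have b2 := h0' p hp0 hp1 hχ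
  have b3 : dist (p * n) (1 / d) < η := by
    refine lt_of_le_of_lt (le_trans ?_ b1) h7
    rw [Real.dist_eq, show p * n * d - 1 = d * (p * n - 1 / d) by field_simp, abs_mul]
    exact le_mul_of_one_le_left (abs_nonneg _) (le_trans (by linarith) (le_abs_self _))
  obtain ⟨⟨b4, _⟩, b5⟩ := h4 (y := ((n : ℝ)⁻¹, p * n,
    ∑ i ∈ range (K + 1), a i * (n : ℝ)⁻¹ ^ i)) (max_lt h5 (max_lt b3 h6))
  have b6 := h2 (p * n) (by positivity) ((le_abs_self _).trans b5.le)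
  rw [mul_inv_cancel_right₀ h0.ne'] at b6
  have c2 := pow_le_erK' (K := K) hn
  rw [Real.norm_eq_abs, Real.norm_of_nonneg (by positivity)] at h3
  have c3 := fun C => mul_le_mul (le_abs_self C) c2 (by positivity) (abs_nonneg _)
  rw [div_mul_eq_mul_div, le_div_iff₀' (by positivity)]
  refine b4.trans ?_
  have c4 := b6.trans (c3 _)
  have c5 := h3.trans (c3 _)
  simp only [] at c4 ⊢
  rw [abs_le] at *
  constructor <;> linarith [c4.1, c4.2, c5.1, c5.2, b2.1, b2.2]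

theorem coeff_top_zero (R : Polynomial ℝ) (C : ℝ)
    (h : ∀ᶠ n : ℕ in atTop, |R.eval (n : ℝ)⁻¹| ≤ C * erK K n) : R.coeff K = 0 := by
  have t2 : Tendsto (fun n : ℕ => C * (n : ℝ) ^ (-(1 / 3) : ℝ)) atTop (𝓝 0) :=
    mul_zero C ▸ ((tendsto_rpow_neg_atTop (by norm_num)).comp
      tendsto_natCast_atTop_atTop).const_mul C
  obtain ⟨Q, rfl⟩ : Polynomial.X ^ K ∣ R := by
    refine Polynomial.X_pow_dvd_iff.2 (poly_coeff_zero R K 1 ?_)
    filter_upwards [h, t2.eventually (gt_mem_nhds one_pos)] with n h1 h2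
    rw [erK, ← mul_assoc] at h1
    exact h1.trans (mul_le_mul_of_nonneg_right h2.le (by positivity))
  have t1 : Tendsto (fun n : ℕ => |Q.eval (n : ℝ)⁻¹|) atTop (𝓝 |Q.eval 0|) :=
    ((Q.continuous.tendsto 0).comp tendsto_inv_atTop_nhds_zero_nat).abs
  have := le_of_tendsto_of_tendsto t1 t2 ((h.and (eventually_ge_atTop 1)).mono fun n hn => by
    have h0 : (0 : ℝ) < (n : ℝ)⁻¹ ^ K := by have := hn.2; positivity
    have := hn.1
    simp only [Polynomial.eval_mul, Polynomial.eval_pow, Polynomial.eval_X, abs_mul,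
      abs_of_pos h0, erK] at this
    refine le_of_mul_le_mul_left (this.trans (le_of_eq ?_)) h0
    ring)
  rw [abs_nonpos_iff, ← Polynomial.coeff_zero_eq_eval_zero] at this
  simpa using (Polynomial.coeff_X_pow_mul Q K 0).trans this

theorem sol_agree {d K : ℕ} (hK : 1 ≤ K) (h3 : 3 * K < d) {a b : ℕ → ℝ} (ha : a 0 = 1 / d)
    (hb : b 0 = 1 / d)
    (h1 : (fun ε => PSK d K (ε, ∑ i ∈ range (K + 1), a i * ε ^ i)) =O[𝓝 0]
      fun ε : ℝ => ε ^ (K + 1))
    (h2 : (fun ε => PS d (ε, ∑ i ∈ range (d / 3 + 1), b i * ε ^ i)) =O[𝓝 0]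
      fun ε : ℝ => ε ^ (d / 3 + 1)) : a K = b K := by
  have hd : 3 ≤ d := by omega
  obtain ⟨C1, m1⟩ := mainK hK h3 ha h1 one_pos
  obtain ⟨C2, m2⟩ := main hd hb h2 one_pos
  have key := coeff_top_zero (K := K)
    (∑ i ∈ range (K + 1), Polynomial.monomial i (a i) -
      ∑ i ∈ range (d / 3 + 1), Polynomial.monomial i (b i)) (C1 + |C2|) (by
    filter_upwards [m1, m2, exists_pc hd one_pos, eventually_ge_atTop 1] with n e1 e2 e3 hn
    obtain ⟨p, p0, p1, hp⟩ := e3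
    have f1 := e1 p p0 p1 hp
    have f2 := (e2 p p0 p1 hp).trans (mul_le_mul (le_abs_self C2) (WV_le_erK h3 hn)
      (inv_nonneg.2 (le_trans (by positivity) (le_WV hd hn))) (abs_nonneg _))
    simp only [Polynomial.eval_sub, Polynomial.eval_finsetSum, Polynomial.eval_monomial]
    rw [abs_le] at *
    constructor <;> linarith [f1.1, f1.2, f2.1, f2.2])
  simp only [Polynomial.coeff_sub, Polynomial.finsetSum_coeff, Polynomial.coeff_monomial,
    sum_ite_eq', mem_range] at key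
  rw [if_pos (by omega), if_pos (by omega)] at key
  linarith

end HamPerc.RG
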