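import Pool.Agent.Lib.MP_58a483_pr.RFormal

/-!
The coefficients are rational functions of the dimension.
-/

open Finset

namespace HamPerc.RG

/-- functions of `d ≥ i` that are rational with poles among `0, ..., i - 1` -/
def RatD (i : ℕ) (f : ℕ → ℚ) : Prop :=
  ∃ (P : Polynomial ℚ) (m : ℕ), ∀ d : ℕ, i ≤ d →
    f d = P.eval (d : ℚ) / (∏ j ∈ range i, ((d : ℚ) - j)) ^ m

theorem sub_ne_rd {i d j : ℕ} (hd : i ≤ d) (hj : j < i) : (d : ℚ) - j ≠ 0 := by
  have : (j : ℚ) < d := by exact_mod_cast lt_of_lt_of_le hj hd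
  exact (sub_pos.mpr this).ne'

theorem prod_ne_rd {i d : ℕ} (hd : i ≤ d) : (∏ j ∈ range i, ((d : ℚ) - j)) ≠ 0 :=
  prod_ne_zero_iff.mpr fun _ hj => sub_ne_rd hd (mem_range.mp hj)

theorem RatD.congr {i : ℕ} {f g : ℕ → ℚ} (hf : RatD i f) (h : ∀ d, i ≤ d → g d = f d) :
    RatD i g := by
  obtain ⟨P, m, hP⟩ := hf
  exact ⟨P, m, fun d hd => (h d hd).trans (hP d hd)⟩

theorem RatD.poly (i : ℕ) (P : Polynomial ℚ) : RatD i fun d => P.eval (d : ℚ) :=
  ⟨P, 0, fun d _ => by simp⟩

theorem RatD.const (i : ℕ) (c : ℚ) : RatD i fun _ => c :=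
  (RatD.poly i (Polynomial.C c)).congr fun d _ => by simp

theorem RatD.self (i : ℕ) : RatD i fun d => (d : ℚ) :=
  (RatD.poly i Polynomial.X).congr fun d _ => by simp

theorem RatD.mul {i : ℕ} {f g : ℕ → ℚ} (hf : RatD i f) (hg : RatD i g) :
    RatD i fun d => f d * g d := by
  obtain ⟨P, m, hP⟩ := hf
  obtain ⟨Q, k, hQ⟩ := hg
  refine ⟨P * Q, m + k, fun d hd => ?_⟩
  simp only [hP d hd, hQ d hd, Polynomial.eval_mul, pow_add]
  rw [div_mul_div_comm]

theorem RatD.add {i : ℕ} {f g : ℕ → ℚ} (hf : RatD i f) (hg : RatD i g) :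
    RatD i fun d => f d + g d := by
  obtain ⟨P, m, hP⟩ := hf
  obtain ⟨Q, k, hQ⟩ := hg
  refine ⟨P * (∏ j ∈ range i, (Polynomial.X - Polynomial.C (j : ℚ))) ^ k +
    (∏ j ∈ range i, (Polynomial.X - Polynomial.C (j : ℚ))) ^ m * Q, m + k, fun d hd => ?_⟩
  have h := prod_ne_rd hd
  simp only [hP d hd, hQ d hd, Polynomial.eval_add, Polynomial.eval_mul, Polynomial.eval_pow,
    Polynomial.eval_prod, Polynomial.eval_sub, Polynomial.eval_X, Polynomial.eval_C, pow_add]
  rw [div_add_div _ _ (pow_ne_zero _ h) (pow_ne_zero _ h)]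

theorem RatD.sum {i : ℕ} {ι : Type*} (s : Finset ι) {f : ι → ℕ → ℚ}
    (hf : ∀ a ∈ s, RatD i (f a)) : RatD i fun d => ∑ a ∈ s, f a d := by
  classical
  induction s using Finset.induction_on with
  | empty => exact (RatD.const i 0).congr fun d _ => by simp
  | insert a s ha ih =>
    exact ((hf a (mem_insert_self _ _)).add
      (ih fun b hb => hf b (mem_insert_of_mem hb))).congr fun d _ => by rw [sum_insert ha]

theorem RatD.prod {i : ℕ} {ι : Type*} (s : Finset ι) {f : ι → ℕ → ℚ}
    (hf : ∀ a ∈ s, RatD i (f a)) : RatD i fun d => ∏ a ∈ s, f a d := by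
  classical
  induction s using Finset.induction_on with
  | empty => exact (RatD.const i 1).congr fun d _ => by simp
  | insert a s ha ih =>
    exact ((hf a (mem_insert_self _ _)).mul
      (ih fun b hb => hf b (mem_insert_of_mem hb))).congr fun d _ => by rw [prod_insert ha]

theorem RatD.pow {i : ℕ} {f : ℕ → ℚ} (hf : RatD i f) (k : ℕ) : RatD i fun d => f d ^ k := by
  induction k with
  | zero => exact (RatD.const i 1).congr fun d _ => by simp
  | succ k ih => exact (ih.mul hf).congr fun d _ => by rw [pow_succ]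

theorem RatD.inv_sub {i j : ℕ} (hj : j < i) : RatD i fun d => ((d : ℚ) - j)⁻¹ := by
  refine ⟨∏ l ∈ (range i).erase j, (Polynomial.X - Polynomial.C (l : ℚ)), 1, fun d hd => ?_⟩
  have h := prod_ne_rd hd
  have h1 := sub_ne_rd hd hj
  rw [pow_one, eq_div_iff h, ← mul_prod_erase (range i) (fun l : ℕ => (d : ℚ) - l)
    (mem_range.mpr hj), ← mul_assoc, inv_mul_cancel₀ h1, one_mul]
  simp only [Polynomial.eval_prod, Polynomial.eval_sub, Polynomial.eval_X, Polynomial.eval_C]

theorem RatD.one_div {i : ℕ} (hi : 1 ≤ i) : RatD i fun d => (1 / d : ℚ) :=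
  (RatD.inv_sub (j := 0) hi).congr fun d _ => by simp

theorem RatD.choose (i u : ℕ) : RatD i fun d => (d.choose u : ℚ) :=
  ((RatD.poly i (descPochhammer ℚ u)).mul (RatD.const i ((u.factorial : ℚ))⁻¹)).congr
    fun d _ => by rw [Nat.cast_choose_eq_descPochhammer_div, div_eq_mul_inv]

/-- families of power series whose coefficients are rational functions of `d` -/
def SerD (i : ℕ) (F : ℕ → PowerSeries ℚ) : Prop :=
  ∀ k, RatD i fun d => PowerSeries.coeff k (F d)

theorem SerD.congr {i : ℕ} {F G : ℕ → PowerSeries ℚ} (hF : SerD i F)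
    (h : ∀ d, i ≤ d → G d = F d) : SerD i G :=
  fun k => (hF k).congr fun d hd => by rw [h d hd]

theorem SerD.const (i : ℕ) (F : PowerSeries ℚ) : SerD i fun _ => F :=
  fun _ => RatD.const i _

theorem SerD.C {i : ℕ} {f : ℕ → ℚ} (hf : RatD i f) : SerD i fun d => PowerSeries.C (f d) := by
  intro k
  by_cases hk : k = 0
  · exact hf.congr fun d _ => by simp [hk]
  · exact (RatD.const i 0).congr fun d _ => by simp [PowerSeries.coeff_C, hk]

theorem SerD.add {i : ℕ} {F G : ℕ → PowerSeries ℚ} (hF : SerD i F) (hG : SerD i G) :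
    SerD i fun d => F d + G d :=
  fun k => ((hF k).add (hG k)).congr fun d _ => by rw [map_add]

theorem SerD.mul {i : ℕ} {F G : ℕ → PowerSeries ℚ} (hF : SerD i F) (hG : SerD i G) :
    SerD i fun d => F d * G d :=
  fun k => (RatD.sum (antidiagonal k) (f := fun p d =>
      PowerSeries.coeff p.1 (F d) * PowerSeries.coeff p.2 (G d))
    fun p _ => (hF p.1).mul (hG p.2)).congr fun d _ => by rw [PowerSeries.coeff_mul]

theorem SerD.sum {i : ℕ} {ι : Type*} (s : Finset ι) {F : ι → ℕ → PowerSeries ℚ}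
    (hF : ∀ a ∈ s, SerD i (F a)) : SerD i fun d => ∑ a ∈ s, F a d :=
  fun k => (RatD.sum s (f := fun a d => PowerSeries.coeff k (F a d))
    fun a ha => hF a ha k).congr fun d _ => by rw [map_sum]

theorem SerD.pow {i : ℕ} {F : ℕ → PowerSeries ℚ} (hF : SerD i F) (k : ℕ) :
    SerD i fun d => F d ^ k := by
  induction k with
  | zero => exact (SerD.const i 1).congr fun d _ => by simp
  | succ k ih => exact (ih.mul hF).congr fun d _ => by rw [pow_succ]

theorem SerD.aeval {i : ℕ} {F : ℕ → PowerSeries ℚ} (hF : SerD i F) (P : Polynomial ℚ) :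
    SerD i fun d => Polynomial.aeval (F d) P := by
  induction P using Polynomial.induction_on' with
  | add P Q hP hQ => exact (hP.add hQ).congr fun d _ => by rw [map_add]
  | monomial n a =>
    exact ((SerD.const i (algebraMap ℚ (PowerSeries ℚ) a)).mul (hF.pow n)).congr
      fun d _ => by rw [Polynomial.aeval_monomial]

theorem SerD.inv {i : ℕ} {F : ℕ → PowerSeries ℚ} (hF : SerD i F)
    (h0 : RatD i fun d => (PowerSeries.constantCoeff (F d))⁻¹) : SerD i fun d => (F d)⁻¹ := by
  intro k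
  induction k using Nat.strong_induction_on with
  | _ k ih =>
    by_cases hk : k = 0
    · exact h0.congr fun d _ => by rw [PowerSeries.coeff_inv, if_pos hk]
    · refine (((RatD.const i (-1)).mul h0).mul (RatD.sum (antidiagonal k) (f := fun x d =>
        if x.2 < k then PowerSeries.coeff x.1 (F d) * PowerSeries.coeff x.2 (F d)⁻¹ else 0)
        fun x _ => ?_)).congr fun d _ => ?_
      · by_cases hx : x.2 < k
        · exact ((hF x.1).mul (ih x.2 hx)).congr fun d _ => by rw [if_pos hx]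
        · exact (RatD.const i 0).congr fun d _ => by rw [if_neg hx]
      · rw [PowerSeries.coeff_inv, if_neg hk, neg_one_mul]

theorem const_aeval_rd (σ : PowerSeries ℚ) (P : Polynomial ℚ) :
    PowerSeries.constantCoeff (Polynomial.aeval σ P) =
      P.eval (PowerSeries.constantCoeff σ) := by
  induction P using Polynomial.induction_on' with
  | add P Q hP hQ => rw [map_add, map_add, hP, hQ, Polynomial.eval_add]
  | monomial n a =>
    rw [Polynomial.aeval_monomial, map_mul, map_pow, Polynomial.eval_monomial]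
    congr 1

theorem eval_den_rd (v l : ℕ) (s : ℚ) :
    (den v l).eval s = ∏ j ∈ Icc 1 v, (1 - (j : ℚ) * s) ^ ex l := by
  simp only [den, Polynomial.eval_prod, Polynomial.eval_pow, Polynomial.eval_sub,
    Polynomial.eval_one, Polynomial.eval_mul, Polynomial.eval_C, Polynomial.eval_X]

theorem one_sub_rd {i d j : ℕ} (hd : i ≤ d) (hj : j < i) :
    (1 - (j : ℚ) * (1 / d)) = ((d : ℚ) - j) / d := by
  have : (d : ℚ) ≠ 0 := by
    have : 0 < d := lt_of_le_of_lt (Nat.zero_le j) (lt_of_lt_of_le hj hd)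
    exact_mod_cast this.ne'
  field_simp

theorem eval_den_ne_rd {i d v : ℕ} (hd : i ≤ d) (hv : v < i) (l : ℕ) :
    (den v l).eval (1 / d : ℚ) ≠ 0 := by
  rw [eval_den_rd]
  refine prod_ne_zero_iff.mpr fun j hj => pow_ne_zero _ ?_
  have hji : j < i := lt_of_le_of_lt (mem_Icc.mp hj).2 hv
  have : (d : ℚ) ≠ 0 := by
    have : 0 < d := lt_of_le_of_lt (Nat.zero_le j) (lt_of_lt_of_le hji hd)
    exact_mod_cast this.ne'
  rw [one_sub_rd hd hji]
  exact div_ne_zero (sub_ne_rd hd hji) this

theorem ratD_den {i v : ℕ} (hv : v < i) (l : ℕ) :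
    RatD i fun d => ((den v l).eval (1 / d : ℚ))⁻¹ := by
  refine (RatD.prod (Icc 1 v) (f := fun j d => ((d : ℚ) * ((d : ℚ) - j)⁻¹) ^ ex l)
    fun j hj => ((RatD.self i).mul
      (RatD.inv_sub (lt_of_le_of_lt (mem_Icc.mp hj).2 hv))).pow _).congr fun d hd => ?_
  rw [eval_den_rd, ← prod_inv_distrib]
  refine prod_congr rfl fun j hj => ?_
  rw [one_sub_rd hd (lt_of_le_of_lt (mem_Icc.mp hj).2 hv), ← inv_pow, inv_div, div_eq_mul_inv]

theorem serD_step
    (h0 : ∀ v : ℕ, num v 0 * (1 - Polynomial.C (v : ℚ) * Polynomial.X) = den v 0) {K : ℕ}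
    {σ : ℕ → PowerSeries ℚ} (hσ : SerD (K + 1) σ)
    (hc : ∀ d, K + 1 ≤ d → PowerSeries.constantCoeff (σ d) = 1 / d) :
    SerD (K + 1) fun d => step d K (σ d) := by
  have h1 : RatD (K + 1) fun d => (1 / d : ℚ) := RatD.one_div (Nat.le_add_left 1 K)
  refine hσ.add ((SerD.C h1).mul (SerD.sum (range (K + 1)) fun u hu =>
    (SerD.C (RatD.choose _ u)).mul (SerD.sum (range (u + 1)) fun v hv =>
      (SerD.const _ _).mul ?_)))
  have hvK : v < K + 1 := by
    have := mem_range.mp hu
    have := mem_range.mp hv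
    omega
  refine SerD.inv (SerD.sum (range (K + 1)) fun l _ => (SerD.const _ _).mul
    ((hσ.aeval _).mul ((hσ.aeval _).inv ?_))) ?_
  · exact (ratD_den hvK l).congr fun d hd => by rw [const_aeval_rd, hc d hd]
  · refine ((RatD.const _ 1).add ((RatD.const _ (-(v : ℚ))).mul h1)).congr fun d hd => ?_
    have hne := eval_den_ne_rd hd hvK 0
    have he := congrArg (Polynomial.eval (1 / d : ℚ)) (h0 v)
    simp only [Polynomial.eval_mul, Polynomial.eval_sub, Polynomial.eval_one, Polynomial.eval_C,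
      Polynomial.eval_X] at he
    rw [map_sum, sum_eq_single 0]
    · rw [pow_zero, one_mul, map_mul, PowerSeries.constantCoeff_inv, const_aeval_rd,
        const_aeval_rd, hc d hd]
      refine inv_eq_of_mul_eq_one_right ?_
      rw [mul_right_comm, neg_mul, ← sub_eq_add_neg, he, mul_inv_cancel₀ hne]
    · intro l _ hl
      rw [map_mul, map_pow, PowerSeries.constantCoeff_X, zero_pow hl, zero_mul]
    · intro h
      exact absurd (mem_range.mpr (Nat.succ_pos K)) h

theorem acoef_rat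
    (h0 : ∀ v : ℕ, num v 0 * (1 - Polynomial.C (v : ℚ) * Polynomial.X) = den v 0) {i : ℕ}
    (hi : 1 ≤ i) : ∃ (P : Polynomial ℚ) (m : ℕ), ∀ d : ℕ, i ≤ d →
      acoef d i = P.eval (d : ℚ) / (∏ j ∈ range i, ((d : ℚ) - j)) ^ m := by
  obtain ⟨K, rfl⟩ : ∃ K, i = K + 1 := ⟨i - 1, by omega⟩
  have key : ∀ j, j ≤ K →
      SerD (K + 1) fun d => (step d K)^[j] (PowerSeries.C (1 / d : ℚ)) := by
    intro j
    induction j with
    | zero => exact fun _ => SerD.C (RatD.one_div hi)
    | succ j ih =>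
      intro hj
      exact (serD_step h0 (ih (by omega)) fun d hd =>
        const_iter h0 (by omega) (by omega) j).congr
          fun d _ => by rw [Function.iterate_succ_apply']
  exact key K le_rfl K

end HamPerc.RG
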