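import Pool.Agent.Lib.MP_58a483_pr.RCf
import Pool.Agent.Lib.MP_58a483_pr.RRatD
import Pool.Agent.Lib.MP_58a483_pr.RGenK
import Pool.Agent.Lib.MP_58a483_pr.H80Fin

/-!
The numbers `acoef d i` are the coefficients of the expansion of the critical value.
-/

open Finset Filter Topology Asymptotics

namespace HamPerc.RG

/-- coefficients of the formal solution of order `K` -/
noncomputable def sol (d K i : ℕ) : ℝ :=
  (PowerSeries.coeff i ((step d K)^[K] (PowerSeries.C (1 / d : ℚ))) : ℚ)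

theorem sol_zero {d K : ℕ} (hK : 1 ≤ K) (hd : K < d) : sol d K 0 = 1 / d := by
  rw [sol, PowerSeries.coeff_zero_eq_constantCoeff_apply, const_iter num_zero hK hd]
  push_cast; rfl

theorem sol_psk {d K : ℕ} (hd : 3 ≤ d) (hK : 1 ≤ K) (hK' : K ≤ d / 3) :
    (fun ε => PSK d K (ε, ∑ i ∈ range (K + 1), sol d K i * ε ^ i)) =O[𝓝 0]
      fun ε : ℝ => ε ^ (K + 1) := by
  have h1 := tendsto_poly (sol d K) K
  rw [sol_zero hK (by omega)] at h1
  refine (formal_sol num_zero hK (d := d) (by omega)).congr' ?_ EventuallyEq.rfl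
  filter_upwards [((continuous_abs.tendsto _).comp h1).eventually
    (gt_mem_nhds ((inv_lt_rad hd).1.trans (inv_lt_rad hd).2))] with ε hε
  refine sum_congr rfl fun u hu => congrArg _ (sum_congr rfl fun v hv => congrArg _
    (congrArg _ (sum_congr rfl fun i _ => congrArg _ (XX_eq hd ?_ i hε).symm)))
  rw [mem_range] at hu hv
  omega

theorem isSol {d : ℕ} (hd : 3 ≤ d) :
    IsSol (fun v k i => (QQ v k).coeff i) d fun i => sol d (d / 3) (i - 1) :=
  ⟨sol_zero (by omega) (by omega), sol_psk hd (by omega) le_rfl⟩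

theorem acoef_one (d : ℕ) : acoef d 1 = 1 / d := by simp [acoef]

theorem acoef_eq {d i : ℕ} (hd : 3 ≤ d) (hi : i ∈ Icc 1 ⌈(d : ℝ) / 3⌉₊) :
    (acoef d i : ℝ) = sol d (d / 3) (i - 1) := by
  rw [mem_Icc] at hi
  obtain ⟨K, rfl⟩ := Nat.exists_eq_add_of_le' hi.1
  rcases Nat.eq_zero_or_pos K with rfl | hK
  · rw [zero_add, acoef_one, sol_zero (by omega) (by omega)]
    push_cast; rfl
  have h1 : (K : ℝ) < d / 3 := Nat.lt_ceil.1 hi.2
  have h2 : 3 * K < d := by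
    have : ((3 * K : ℕ) : ℝ) < d := by push_cast; linarith
    exact_mod_cast this
  exact sol_agree hK h2 (sol_zero hK (by omega)) (sol_zero (by omega) (by omega))
    (sol_psk hd hK (by omega)) (sol_psk hd (by omega) le_rfl)

theorem expansion {d : ℕ} (hd : 3 ≤ d) {lam : ℝ} (hl : 0 < lam) :
    ∃ (C : ℝ) (n₀ : ℕ), ∀ n ≥ n₀, ∀ x : Fin d → Fin n,
      (∃ p ∈ Set.Icc (0 : ℝ) 1, susc d n x p = lam * ((n : ℝ) ^ d) ^ (1 / 3 : ℝ)) ∧
      ∀ p ∈ Set.Icc (0 : ℝ) 1, susc d n x p = lam * ((n : ℝ) ^ d) ^ (1 / 3 : ℝ) →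
        |p - ∑ i ∈ Icc 1 ⌈(d : ℝ) / 3⌉₊, (acoef d i : ℝ) / (n : ℝ) ^ i| ≤
          C * (n : ℝ) ^ (-1 - (d : ℝ) / 3) := by
  obtain ⟨C, n₀, h⟩ := pc_expansion hd (isSol hd) hl
  refine ⟨C, n₀, fun n hn x => ⟨(h n hn x).1, fun p hp e => ?_⟩⟩
  rw [sum_congr rfl fun i hi => by rw [acoef_eq hd hi]]
  exact (h n hn x).2 p hp e

theorem extend {i : ℕ} (hi : 1 ≤ i) (A B : Polynomial ℚ)
    (hB : ∀ d : ℕ, i ≤ d → B.eval (d : ℚ) ≠ 0) (d₀ : ℕ)
    (h : ∀ d : ℕ, d₀ ≤ d → acoef d i = A.eval (d : ℚ) / B.eval (d : ℚ)) (d : ℕ) (hd : i ≤ d) :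
    acoef d i = A.eval (d : ℚ) / B.eval (d : ℚ) := by
  obtain ⟨P, m, hP⟩ := acoef_rat num_zero hi
  have hD : ∀ d : ℕ, i ≤ d → (∏ j ∈ range i, ((d : ℚ) - j)) ^ m ≠ 0 := fun d hd =>
    pow_ne_zero _ (prod_ne_zero_iff.2 fun j hj => sub_ne_zero.2 (by
      have := mem_range.1 hj
      exact_mod_cast (by omega : d ≠ j)))
  have h1 : P * B = A * (∏ j ∈ range i, (Polynomial.X - Polynomial.C (j : ℚ))) ^ m := by
    refine Polynomial.eq_of_infinite_eval_eq _ _ (((Set.Ici_infinite (max i d₀)).image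
      (Nat.cast_injective (R := ℚ)).injOn).mono ?_)
    rintro _ ⟨e, he, rfl⟩
    have h2 : i ≤ e := (le_max_left _ _).trans he
    have h3 := (hP e h2).symm.trans (h e ((le_max_right _ _).trans he))
    rw [div_eq_div_iff (hD e h2) (hB e h2)] at h3
    simpa [Polynomial.eval_prod] using h3
  have h2 := congrArg (Polynomial.eval (d : ℚ)) h1
  rw [hP d hd, div_eq_div_iff (hD d hd) (hB d hd)]
  simpa [Polynomial.eval_prod] using h2

open Polynomial in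
theorem acoef_two (d : ℕ) (hd : 2 ≤ d) : acoef d 2 =
    (2 * (d : ℚ) ^ 3 - 2 * (d : ℚ) ^ 2 + 2 * (d : ℚ) - 1) / (2 * (d : ℚ) ^ 2 * ((d : ℚ) - 1) ^ 2) := by
  have := extend (i := 2) (by norm_num) (2 * X ^ 3 - 2 * X ^ 2 + 2 * X - 1)
    (2 * X ^ 2 * (X - 1) ^ 2) (fun d hd => ?_) 7 (fun d hd => ?_) d hd
  · simpa using this
  · have h1 : (2 : ℚ) ≤ d := by exact_mod_cast hd
    have h2 : (0 : ℚ) < d - 1 := by linarith
    simp only [eval_mul, eval_pow, eval_sub, eval_X, eval_one, eval_ofNat]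
    positivity
  · obtain ⟨C, n₀, hC⟩ := expansion (d := d) (by omega) one_pos
    have := (Pool.Agent.Lib.MP_58a483_pr.H80.coef_eq hd (a := fun i => (acoef d i : ℝ))
      (by rw [acoef_one]; push_cast; rfl) hC).1
    simp only [eval_mul, eval_pow, eval_sub, eval_add, eval_X, eval_one, eval_ofNat]
    refine Rat.cast_injective (α := ℝ) ?_
    push_cast
    exact this

open Polynomial in
theorem acoef_three (d : ℕ) (hd : 3 ≤ d) : acoef d 3 =
    (6 * (d : ℚ) ^ 9 - 42 * (d : ℚ) ^ 8 + 129 * (d : ℚ) ^ 7 - 231 * (d : ℚ) ^ 6 +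
      285 * (d : ℚ) ^ 5 - 259 * (d : ℚ) ^ 4 + 159 * (d : ℚ) ^ 3 - 73 * (d : ℚ) ^ 2 +
      24 * (d : ℚ) - 4) / (6 * (d : ℚ) ^ 3 * ((d : ℚ) - 1) ^ 5 * ((d : ℚ) - 2) ^ 2) := by
  have := extend (i := 3) (by norm_num) (6 * X ^ 9 - 42 * X ^ 8 + 129 * X ^ 7 - 231 * X ^ 6 +
    285 * X ^ 5 - 259 * X ^ 4 + 159 * X ^ 3 - 73 * X ^ 2 + 24 * X - 4)
    (6 * X ^ 3 * (X - 1) ^ 5 * (X - 2) ^ 2) (fun d hd => ?_) 7 (fun d hd => ?_) d hd
  · simpa using this
  · have h1 : (3 : ℚ) ≤ d := by exact_mod_cast hd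
    have h2 : (0 : ℚ) < d - 1 := by linarith
    have h3 : (0 : ℚ) < d - 2 := by linarith
    simp only [eval_mul, eval_pow, eval_sub, eval_X, eval_one, eval_ofNat]
    positivity
  · obtain ⟨C, n₀, hC⟩ := expansion (d := d) (by omega) one_pos
    have := (Pool.Agent.Lib.MP_58a483_pr.H80.coef_eq hd (a := fun i => (acoef d i : ℝ))
      (by rw [acoef_one]; push_cast; rfl) hC).2
    simp only [eval_mul, eval_pow, eval_sub, eval_add, eval_X, eval_one, eval_ofNat]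
    refine Rat.cast_injective (α := ℝ) ?_
    push_cast
    exact this

end HamPerc.RG
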