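import Pool.Agent.Lib.MP_58a483_pr.Alg

/-!
The formal iteration solves the extrapolated equation.
-/

open Finset Filter Topology Asymptotics

namespace HamPerc.RG

/-- the extrapolated equation with the rational functions -/
noncomputable def nwR (d K : ℕ) (ε s : ℝ) : ℝ :=
  ∑ u ∈ range (K + 1), (d.choose u : ℝ) * ∑ v ∈ range (u + 1), (-1) ^ (u + v) * u.choose v *
    (∑ i ∈ range (K + 1), ε ^ i *
      (Polynomial.aeval s (num v i) / Polynomial.aeval s (den v i)))⁻¹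

theorem fm_alt0 (u : ℕ) :
    ∑ v ∈ range (u + 1), ((-1) ^ (u + v) * u.choose v : ℚ) = if u = 0 then 1 else 0 := by
  have h := Int.alternating_sum_range_choose (n := u)
  have h2 : ∑ v ∈ range (u + 1), ((-1) ^ v * u.choose v : ℚ) = if u = 0 then 1 else 0 := by
    have h3 := congrArg (fun z : ℤ => (z : ℚ)) h
    simp only [Int.cast_sum, Int.cast_mul, Int.cast_pow, Int.cast_neg, Int.cast_one,
      Int.cast_natCast, Int.cast_ite, Int.cast_zero] at h3
    exact h3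
  have h4 : ∑ v ∈ range (u + 1), ((-1) ^ (u + v) * u.choose v : ℚ) =
      (-1) ^ u * ∑ v ∈ range (u + 1), ((-1) ^ v * u.choose v : ℚ) := by
    rw [mul_sum]
    refine sum_congr rfl fun v _ => ?_
    rw [pow_add]; ring
  rw [h4, h2]
  split_ifs with h5
  · subst h5; simp
  · simp

theorem fm_alt1 (u : ℕ) :
    ∑ v ∈ range (u + 1), ((-1) ^ (u + v) * u.choose v : ℚ) * v = if u = 1 then 1 else 0 := by
  cases u with
  | zero => simp
  | succ n =>
    rw [sum_range_succ']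
    have h1 : ∀ v ∈ range (n + 1),
        ((-1) ^ (n + 1 + (v + 1)) * (n + 1).choose (v + 1) : ℚ) * ((v + 1 : ℕ) : ℚ) =
          ((n : ℚ) + 1) * ((-1) ^ (n + v) * n.choose v) := by
      intro v _
      have h2 := congrArg (fun z : ℕ => (z : ℚ)) (Nat.add_one_mul_choose_eq n v)
      simp only [Nat.cast_mul, Nat.cast_add, Nat.cast_one] at h2
      have h3 : ((-1 : ℚ)) ^ (n + 1 + (v + 1)) = (-1) ^ (n + v) := by
        rw [show n + 1 + (v + 1) = n + v + 2 by ring, pow_add]; norm_num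
      rw [h3, mul_assoc, Nat.cast_add, Nat.cast_one, ← h2]; ring
    rw [sum_congr rfl h1, ← mul_sum, fm_alt0]
    by_cases h : n = 0
    · subst h; simp
    · simp [h]

open PowerSeries in
theorem fm_lin {d K : ℕ} (hK : 1 ≤ K) (σ : ℚ⟦X⟧) :
    ∑ u ∈ range (K + 1), C (d.choose u : ℚ) *
      ∑ v ∈ range (u + 1), C ((-1) ^ (u + v) * u.choose v : ℚ) * (1 - C (v : ℚ) * σ) =
      1 - C (d : ℚ) * σ := by
  have h1 : ∀ u ∈ range (K + 1), C (d.choose u : ℚ) *
      ∑ v ∈ range (u + 1), C ((-1) ^ (u + v) * u.choose v : ℚ) * (1 - C (v : ℚ) * σ) =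
      (if u = 0 then 1 else 0) - (if u = 1 then C (d : ℚ) * σ else 0) := by
    intro u _
    have h2 : ∑ v ∈ range (u + 1), C ((-1) ^ (u + v) * u.choose v : ℚ) * (1 - C (v : ℚ) * σ) =
        C (∑ v ∈ range (u + 1), ((-1) ^ (u + v) * u.choose v : ℚ)) -
          C (∑ v ∈ range (u + 1), ((-1) ^ (u + v) * u.choose v : ℚ) * v) * σ := by
      rw [map_sum, map_sum, sum_mul, ← sum_sub_distrib]
      refine sum_congr rfl fun v _ => ?_
      rw [map_mul _ _ (v : ℚ)]; ring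
    rw [h2, fm_alt0, fm_alt1]
    by_cases h0 : u = 0
    · subst h0; simp
    · by_cases h1 : u = 1
      · subst h1; simp
      · simp [h0, h1]
  rw [sum_congr rfl h1, sum_sub_distrib, sum_ite_eq', sum_ite_eq']
  rw [if_pos (by simp), if_pos (by simp; omega)]

open PowerSeries in
theorem fm_cc (σ : ℚ⟦X⟧) (P : Polynomial ℚ) :
    constantCoeff (Polynomial.aeval σ P) = P.eval (constantCoeff σ) := by
  induction P using Polynomial.induction_on' with
  | add p q hp hq => simp [hp, hq]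
  | monomial n a => simp [Polynomial.aeval_monomial]

open PowerSeries in
theorem fm_den {d v : ℕ} (hv : v < d) (i : ℕ) {σ : ℚ⟦X⟧} (hσ : constantCoeff σ = 1 / d) :
    constantCoeff (Polynomial.aeval σ (den v i)) ≠ 0 := by
  rw [fm_cc, hσ, den, Polynomial.eval_prod]
  refine prod_ne_zero_iff.2 fun j hj => ?_
  rw [Polynomial.eval_pow]
  refine pow_ne_zero _ ?_
  have hj2 : j < d := lt_of_le_of_lt (mem_Icc.1 hj).2 hv
  have hd : (0 : ℚ) < d := by exact_mod_cast lt_of_le_of_lt (Nat.zero_le _) hv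
  have hj3 : (j : ℚ) < d := by exact_mod_cast hj2
  have h1 : (j : ℚ) * (1 / d) < 1 := by
    rw [mul_one_div, div_lt_one hd]; exact hj3
  simp only [Polynomial.eval_sub, Polynomial.eval_one, Polynomial.eval_mul, Polynomial.eval_C,
    Polynomial.eval_X]
  linarith [h1, (by linarith : (1 : ℚ) - j * (1 / d) > 0)]

open PowerSeries in
/-- one rational function at a series -/
noncomputable def fmF (v i : ℕ) (σ : ℚ⟦X⟧) : ℚ⟦X⟧ :=
  Polynomial.aeval σ (num v i) * (Polynomial.aeval σ (den v i))⁻¹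

open PowerSeries in
/-- the truncated susceptibility -/
noncomputable def fmY (K v : ℕ) (σ : ℚ⟦X⟧) : ℚ⟦X⟧ := ∑ i ∈ range (K + 1), X ^ i * fmF v i σ

open PowerSeries in
/-- the higher order terms -/
noncomputable def fmG (K v : ℕ) (σ : ℚ⟦X⟧) : ℚ⟦X⟧ := ∑ i ∈ range K, X ^ i * fmF v (i + 1) σ

open PowerSeries in
/-- the Newton sum -/
noncomputable def fmN (d K : ℕ) (σ : ℚ⟦X⟧) : ℚ⟦X⟧ :=
  ∑ u ∈ range (K + 1), C (d.choose u : ℚ) *
    ∑ v ∈ range (u + 1), C ((-1) ^ (u + v) * u.choose v : ℚ) * (fmY K v σ)⁻¹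

open PowerSeries in
/-- the remainder of the Newton sum -/
noncomputable def fmM (d K : ℕ) (σ : ℚ⟦X⟧) : ℚ⟦X⟧ :=
  ∑ u ∈ range (K + 1), C (d.choose u : ℚ) *
    ∑ v ∈ range (u + 1), C ((-1) ^ (u + v) * u.choose v : ℚ) *
      (fmG K v σ * (1 - C (v : ℚ) * σ) * (fmY K v σ)⁻¹)

open PowerSeries in
theorem fm_step (d K : ℕ) (σ : ℚ⟦X⟧) : step d K σ = σ + C (1 / d : ℚ) * fmN d K σ := rfl

open PowerSeries in
theorem fmY_eq (K v : ℕ) (σ : ℚ⟦X⟧) : fmY K v σ = fmF v 0 σ + X * fmG K v σ := by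
  rw [fmY, sum_range_succ', fmG, mul_sum, pow_zero, one_mul, add_comm]
  refine congrArg _ (sum_congr rfl fun i _ => ?_)
  ring

section
variable (h0 : ∀ v : ℕ, num v 0 * (1 - Polynomial.C (v : ℚ) * Polynomial.X) = den v 0)
include h0

open PowerSeries in
theorem fmF_zero {d v : ℕ} (hv : v < d) {σ : ℚ⟦X⟧} (hσ : constantCoeff σ = 1 / d) :
    fmF v 0 σ * (1 - C (v : ℚ) * σ) = 1 := by
  have h1 := congrArg (Polynomial.aeval σ) (h0 v)
  simp only [map_mul, map_sub, map_one, Polynomial.aeval_C, Polynomial.aeval_X] at h1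
  have h2 : algebraMap ℚ ℚ⟦X⟧ (v : ℚ) = C (v : ℚ) := by simp
  rw [h2] at h1
  rw [fmF, mul_right_comm, h1]
  exact PowerSeries.mul_inv_cancel _ (fm_den hv 0 hσ)

open PowerSeries in
theorem fmY_ne {d v : ℕ} (K : ℕ) (hv : v < d) {σ : ℚ⟦X⟧} (hσ : constantCoeff σ = 1 / d) :
    constantCoeff (fmY K v σ) ≠ 0 := by
  rw [fmY_eq, map_add, map_mul, constantCoeff_X, zero_mul, add_zero]
  intro h
  have h1 := congrArg constantCoeff (fmF_zero h0 hv hσ)
  rw [map_mul, h, zero_mul, map_one] at h1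
  exact zero_ne_one h1

open PowerSeries in
theorem fmY_inv {d v : ℕ} (K : ℕ) (hv : v < d) {σ : ℚ⟦X⟧} (hσ : constantCoeff σ = 1 / d) :
    (fmY K v σ)⁻¹ = (1 - C (v : ℚ) * σ) -
      X * (fmG K v σ * (1 - C (v : ℚ) * σ) * (fmY K v σ)⁻¹) := by
  have h1 := PowerSeries.mul_inv_cancel _ (fmY_ne h0 K hv hσ)
  have h2 := fmF_zero h0 hv hσ
  have h3 := fmY_eq K v σ
  generalize (fmY K v σ)⁻¹ = Z at h1 ⊢
  rw [h3] at h1
  linear_combination (1 - C (v : ℚ) * σ) * h1 - Z * h2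

open PowerSeries in
theorem fmN_eq {d K : ℕ} (hK : 1 ≤ K) (hd : K < d) {σ : ℚ⟦X⟧} (hσ : constantCoeff σ = 1 / d) :
    fmN d K σ = 1 - C (d : ℚ) * σ - X * fmM d K σ := by
  rw [← fm_lin hK σ, fmN, fmM, mul_sum, ← sum_sub_distrib]
  refine sum_congr rfl fun u hu => ?_
  rw [mul_left_comm, ← mul_sub, mul_sum _ _ X, ← sum_sub_distrib]
  refine congrArg _ (sum_congr rfl fun v hv => ?_)
  have hv2 : v < d := by
    have h1 := mem_range.1 hu
    have h2 := mem_range.1 hv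
    omega
  rw [mul_left_comm, ← mul_sub, ← fmY_inv h0 K hv2 hσ]

open PowerSeries in
theorem fm_step_eq {d K : ℕ} (hK : 1 ≤ K) (hd : K < d) {σ : ℚ⟦X⟧}
    (hσ : constantCoeff σ = 1 / d) :
    step d K σ = C (1 / d : ℚ) - X * (C (1 / d : ℚ) * fmM d K σ) := by
  have hd0 : (d : ℚ) ≠ 0 := by exact_mod_cast (by omega : d ≠ 0)
  have h1 : (C (1 / d : ℚ) : ℚ⟦X⟧) * C (d : ℚ) = 1 := by
    rw [← map_mul, one_div_mul_cancel hd0, map_one]
  rw [fm_step, fmN_eq h0 hK hd hσ]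
  linear_combination (-σ) * h1

end

theorem const_iter
    (h0 : ∀ v : ℕ, num v 0 * (1 - Polynomial.C (v : ℚ) * Polynomial.X) = den v 0) {d K : ℕ}
    (hK : 1 ≤ K) (hd : K < d) (j : ℕ) :
    PowerSeries.constantCoeff ((step d K)^[j] (PowerSeries.C (1 / d : ℚ))) = 1 / d := by
  induction j with
  | zero => simp
  | succ j ih =>
    rw [Function.iterate_succ_apply', fm_step_eq h0 hK hd ih]
    simp

section Cong
open PowerSeries
variable {w a b c e : ℚ⟦X⟧}

theorem fmc_mul (h1 : w ∣ a - b) (h2 : w ∣ c - e) : w ∣ a * c - b * e := by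
  rw [show a * c - b * e = (a - b) * c + b * (c - e) by ring]
  exact dvd_add (h1.mul_right _) (h2.mul_left _)

theorem fmc_left (c : ℚ⟦X⟧) (h1 : w ∣ a - b) : w ∣ c * a - c * b := by
  rw [← mul_sub]; exact h1.mul_left _

theorem fmc_inv (h1 : w ∣ a - b) (ha : constantCoeff a ≠ 0) (hb : constantCoeff b ≠ 0) :
    w ∣ a⁻¹ - b⁻¹ := by
  have h2 := PowerSeries.mul_inv_cancel _ ha
  have h3 := PowerSeries.mul_inv_cancel _ hb
  have h4 : a⁻¹ - b⁻¹ = (a - b) * (-(a⁻¹ * b⁻¹)) := by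
    linear_combination b⁻¹ * h2 - a⁻¹ * h3
  rw [h4]; exact h1.mul_right _

theorem fmc_sum {s : Finset ℕ} {f g : ℕ → ℚ⟦X⟧} (h : ∀ i ∈ s, w ∣ f i - g i) :
    w ∣ ∑ i ∈ s, f i - ∑ i ∈ s, g i := by
  rw [← sum_sub_distrib]; exact dvd_sum h

theorem fmc_aeval (h1 : w ∣ a - b) (P : Polynomial ℚ) :
    w ∣ Polynomial.aeval a P - Polynomial.aeval b P := by
  rw [← Polynomial.eval_map_algebraMap, ← Polynomial.eval_map_algebraMap]
  exact h1.trans (Polynomial.sub_dvd_eval_sub _ _ _)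

theorem fmc_F {d v : ℕ} (hv : v < d) (i : ℕ) (h1 : w ∣ a - b) (ha : constantCoeff a = 1 / d)
    (hb : constantCoeff b = 1 / d) : w ∣ fmF v i a - fmF v i b :=
  fmc_mul (fmc_aeval h1 _) (fmc_inv (fmc_aeval h1 _) (fm_den hv i ha) (fm_den hv i hb))

theorem fmc_M (h0 : ∀ v : ℕ, num v 0 * (1 - Polynomial.C (v : ℚ) * Polynomial.X) = den v 0)
    {d K : ℕ} (hd : K < d) (h1 : w ∣ a - b) (ha : constantCoeff a = 1 / d)
    (hb : constantCoeff b = 1 / d) : w ∣ fmM d K a - fmM d K b := by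
  refine fmc_sum fun u hu => fmc_left _ (fmc_sum fun v hv => fmc_left _ ?_)
  have hv2 : v < d := by
    have h1 := mem_range.1 hu
    have h2 := mem_range.1 hv
    omega
  refine fmc_mul (fmc_mul ?_ ?_) (fmc_inv ?_ (fmY_ne h0 K hv2 ha) (fmY_ne h0 K hv2 hb))
  · exact fmc_sum fun i _ => fmc_left _ (fmc_F hv2 _ h1 ha hb)
  · rw [show 1 - C (v : ℚ) * a - (1 - C (v : ℚ) * b) = (a - b) * (-C (v : ℚ)) by ring]
    exact h1.mul_right _
  · exact fmc_sum fun i _ => fmc_left _ (fmc_F hv2 _ h1 ha hb)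

theorem fmc_step (h0 : ∀ v : ℕ, num v 0 * (1 - Polynomial.C (v : ℚ) * Polynomial.X) = den v 0)
    {d K : ℕ} (hK : 1 ≤ K) (hd : K < d) (h1 : w ∣ a - b) (ha : constantCoeff a = 1 / d)
    (hb : constantCoeff b = 1 / d) : X * w ∣ step d K a - step d K b := by
  rw [fm_step_eq h0 hK hd ha, fm_step_eq h0 hK hd hb, sub_sub_sub_cancel_left, ← mul_sub]
  refine mul_dvd_mul_left _ (fmc_left _ ?_)
  rw [← dvd_neg, neg_sub]
  exact fmc_M h0 hd h1 ha hb

theorem fmc_iter (h0 : ∀ v : ℕ, num v 0 * (1 - Polynomial.C (v : ℚ) * Polynomial.X) = den v 0)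
    {d K : ℕ} (hK : 1 ≤ K) (hd : K < d) (j : ℕ) :
    (X : ℚ⟦X⟧) ^ (j + 1) ∣ step d K ((step d K)^[j] (C (1 / d : ℚ))) -
      (step d K)^[j] (C (1 / d : ℚ)) := by
  induction j with
  | zero =>
    rw [Function.iterate_zero_apply, fm_step_eq h0 hK hd (by simp), zero_add, pow_one,
      sub_sub_cancel_left, dvd_neg]
    exact dvd_mul_right _ _
  | succ j ih =>
    rw [pow_succ', Function.iterate_succ_apply']
    refine fmc_step h0 hK hd ih ?_ (const_iter h0 hK hd j)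
    rw [← Function.iterate_succ_apply' (step d K)]
    exact const_iter h0 hK hd _

end Cong

/-- a real function near `0` and a series given by the same rational function -/
def RatF (f : ℝ → ℝ) (F : PowerSeries ℚ) : Prop :=
  ∃ A B : Polynomial ℚ, B.coeff 0 ≠ 0 ∧ F * (B : PowerSeries ℚ) = A ∧
    ∀ᶠ ε in 𝓝 (0 : ℝ), f ε * Polynomial.aeval ε B = Polynomial.aeval ε A

namespace RatF
open PowerSeries
variable {f g : ℝ → ℝ} {F G : ℚ⟦X⟧}

theorem const (c : ℚ) : RatF (fun _ => (c : ℝ)) (C c) :=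
  ⟨Polynomial.C c, 1, by simp, by simp, Eventually.of_forall fun ε => by simp⟩

theorem var : RatF (fun ε => ε) X :=
  ⟨Polynomial.X, 1, by simp, by simp, Eventually.of_forall fun ε => by simp⟩

theorem add (hf : RatF f F) (hg : RatF g G) : RatF (fun ε => f ε + g ε) (F + G) := by
  obtain ⟨A, B, h1, h2, h3⟩ := hf
  obtain ⟨A', B', h1', h2', h3'⟩ := hg
  refine ⟨A * B' + A' * B, B * B', ?_, ?_, ?_⟩
  · rw [Polynomial.mul_coeff_zero]; exact mul_ne_zero h1 h1'
  · rw [Polynomial.coe_add, Polynomial.coe_mul, Polynomial.coe_mul, Polynomial.coe_mul, ← h2, ← h2']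
    ring
  · filter_upwards [h3, h3'] with ε e1 e2
    rw [map_add, map_mul, map_mul, map_mul, ← e1, ← e2]; ring

theorem mul (hf : RatF f F) (hg : RatF g G) : RatF (fun ε => f ε * g ε) (F * G) := by
  obtain ⟨A, B, h1, h2, h3⟩ := hf
  obtain ⟨A', B', h1', h2', h3'⟩ := hg
  refine ⟨A * A', B * B', ?_, ?_, ?_⟩
  · rw [Polynomial.mul_coeff_zero]; exact mul_ne_zero h1 h1'
  · rw [Polynomial.coe_mul, Polynomial.coe_mul, ← h2, ← h2']
    ring
  · filter_upwards [h3, h3'] with ε e1 e2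
    rw [map_mul, map_mul, ← e1, ← e2]; ring

theorem ev_ne {B : Polynomial ℚ} (h : B.coeff 0 ≠ 0) :
    ∀ᶠ ε in 𝓝 (0 : ℝ), Polynomial.aeval ε B ≠ 0 := by
  refine (Polynomial.continuous_aeval B).continuousAt.eventually_ne ?_
  rw [← Polynomial.coeff_zero_eq_aeval_zero']
  simpa using h

theorem inv (hf : RatF f F) (hF : constantCoeff F ≠ 0) : RatF (fun ε => (f ε)⁻¹) F⁻¹ := by
  obtain ⟨A, B, h1, h2, h3⟩ := hf
  have hA : A.coeff 0 ≠ 0 := by
    have h4 := congrArg constantCoeff h2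
    rw [map_mul, Polynomial.constantCoeff_coe, Polynomial.constantCoeff_coe] at h4
    rw [← h4]; exact mul_ne_zero hF h1
  refine ⟨B, A, hA, ?_, ?_⟩
  · rw [← h2, ← mul_assoc, PowerSeries.inv_mul_cancel _ hF, one_mul]
  · filter_upwards [h3, ev_ne hA] with ε e1 e2
    have e3 : f ε ≠ 0 := by
      intro h; rw [h, zero_mul] at e1; exact e2 e1.symm
    rw [← e1, ← mul_assoc, inv_mul_cancel₀ e3, one_mul]

theorem pow (hf : RatF f F) (n : ℕ) : RatF (fun ε => f ε ^ n) (F ^ n) := by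
  induction n with
  | zero => simpa using const 1
  | succ n ih => simpa only [pow_succ] using ih.mul hf

theorem sum {s : Finset ℕ} {f : ℕ → ℝ → ℝ} {F : ℕ → ℚ⟦X⟧} (h : ∀ i ∈ s, RatF (f i) (F i)) :
    RatF (fun ε => ∑ i ∈ s, f i ε) (∑ i ∈ s, F i) := by
  induction s using Finset.induction_on with
  | empty => simpa using const 0
  | insert a s ha ih =>
    simp only [sum_insert ha]
    exact (h a (mem_insert_self _ _)).add (ih fun i hi => h i (mem_insert_of_mem hi))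

theorem aeval (hf : RatF f F) (P : Polynomial ℚ) :
    RatF (fun ε => Polynomial.aeval (f ε) P) (Polynomial.aeval F P) := by
  induction P using Polynomial.induction_on' with
  | add p q hp hq => simpa only [map_add] using hp.add hq
  | monomial n a =>
    have h1 := (const a).mul (hf.pow n)
    simpa [Polynomial.aeval_monomial] using h1

theorem isBigO (hf : RatF f F) {m : ℕ} (hm : (X : ℚ⟦X⟧) ^ m ∣ F) :
    f =O[𝓝 0] fun ε : ℝ => ε ^ m := by
  obtain ⟨A, B, h1, h2, h3⟩ := hf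
  have h4 : (X : ℚ⟦X⟧) ^ m ∣ (A : ℚ⟦X⟧) := h2 ▸ hm.mul_right _
  have h5 : Polynomial.X ^ m ∣ A := by
    rw [Polynomial.X_pow_dvd_iff]
    intro k hk
    have h6 := PowerSeries.X_pow_dvd_iff.1 h4 k hk
    rwa [Polynomial.coeff_coe] at h6
  obtain ⟨A', rfl⟩ := h5
  have hB0 : Polynomial.aeval (0 : ℝ) B ≠ 0 := (ev_ne h1).self_of_nhds
  have h7 : ContinuousAt (fun ε : ℝ => Polynomial.aeval ε A' / Polynomial.aeval ε B) 0 :=
    (Polynomial.continuous_aeval A').continuousAt.div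
      (Polynomial.continuous_aeval B).continuousAt hB0
  have h8 : (fun ε : ℝ => Polynomial.aeval ε A' / Polynomial.aeval ε B * ε ^ m) =O[𝓝 0]
      fun ε : ℝ => ε ^ m := by
    simpa using (h7.tendsto.isBigO_one ℝ).mul (isBigO_refl (fun ε : ℝ => ε ^ m) (𝓝 0))
  refine h8.congr' ?_ EventuallyEq.rfl
  filter_upwards [h3, ev_ne h1] with ε e1 e2
  rw [map_mul, map_pow, Polynomial.aeval_X] at e1
  field_simp
  linarith

end RatF

theorem formal_sol
    (h0 : ∀ v : ℕ, num v 0 * (1 - Polynomial.C (v : ℚ) * Polynomial.X) = den v 0) {d K : ℕ}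
    (hK : 1 ≤ K) (hd : K < d) :
    (fun ε : ℝ => nwR d K ε (∑ i ∈ range (K + 1),
      (PowerSeries.coeff i ((step d K)^[K] (PowerSeries.C (1 / d : ℚ))) : ℚ) * ε ^ i)) =O[𝓝 0]
      fun ε : ℝ => ε ^ (K + 1) := by
  have hσ := const_iter h0 hK hd K
  have hit := fmc_iter h0 hK hd K
  generalize (step d K)^[K] (PowerSeries.C (1 / d : ℚ)) = σ at hσ hit ⊢
  set τ : PowerSeries ℚ := ∑ i ∈ range (K + 1),
    PowerSeries.C (PowerSeries.coeff i σ) * PowerSeries.X ^ i with hτ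
  have hc : ∀ k < K + 1, PowerSeries.coeff k τ = PowerSeries.coeff k σ := by
    intro k hk
    rw [hτ, map_sum]
    simp only [PowerSeries.coeff_C_mul, PowerSeries.coeff_X_pow, mul_ite, mul_one, mul_zero]
    rw [sum_ite_eq, if_pos (mem_range.2 hk)]
  have h1 : (PowerSeries.X : PowerSeries ℚ) ^ (K + 1) ∣ τ - σ := by
    rw [PowerSeries.X_pow_dvd_iff]
    intro k hk
    rw [map_sub, hc k hk, sub_self]
  have hτ0 : PowerSeries.constantCoeff τ = 1 / d := by
    rw [← hσ, ← PowerSeries.coeff_zero_eq_constantCoeff_apply,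
      ← PowerSeries.coeff_zero_eq_constantCoeff_apply]
    exact hc 0 (by omega)
  have h2 : (PowerSeries.X : PowerSeries ℚ) ^ (K + 1) ∣ step d K τ - τ := by
    rw [show step d K τ - τ = (step d K τ - step d K σ) + (step d K σ - σ) - (τ - σ) by ring]
    exact dvd_sub (dvd_add ((dvd_mul_left _ _).trans (fmc_step h0 hK hd h1 hτ0 hσ)) hit) h1
  have hd0 : (d : ℚ) ≠ 0 := by exact_mod_cast (by omega : d ≠ 0)
  have h3 : (PowerSeries.X : PowerSeries ℚ) ^ (K + 1) ∣ fmN d K τ := by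
    have h4 : (PowerSeries.C (d : ℚ) : PowerSeries ℚ) * PowerSeries.C (1 / d : ℚ) = 1 := by
      rw [← map_mul, mul_one_div_cancel hd0, map_one]
    rw [show fmN d K τ = PowerSeries.C (d : ℚ) * (step d K τ - τ) by
      rw [fm_step, add_sub_cancel_left, ← mul_assoc, h4, one_mul]]
    exact h2.mul_left _
  have hs : RatF (fun ε : ℝ => ∑ i ∈ range (K + 1), (PowerSeries.coeff i σ : ℚ) * ε ^ i) τ :=
    RatF.sum fun i _ => (RatF.const _).mul (RatF.var.pow i)
  refine RatF.isBigO (F := fmN d K τ) ?_ h3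
  unfold nwR fmN
  refine RatF.sum fun u hu => RatF.mul ?_ (RatF.sum fun v hv => RatF.mul ?_ ?_)
  · simpa using RatF.const (d.choose u : ℚ)
  · simpa using RatF.const ((-1) ^ (u + v) * u.choose v : ℚ)
  · have hv2 : v < d := by
      have h1 := mem_range.1 hu
      have h2 := mem_range.1 hv
      omega
    refine RatF.inv ?_ (fmY_ne h0 K hv2 hτ0)
    refine RatF.sum fun i _ => (RatF.var.pow i).mul ?_
    simp only [div_eq_mul_inv]
    exact (hs.aeval _).mul ((hs.aeval _).inv (fm_den hv2 i hτ0))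

end HamPerc.RG
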