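import Pool.Agent.Lib.MP_58a483_pr.RDefs

/-!
Systems of lines: degrees of the union.
-/

open Finset

namespace HamPerc.RG

variable {α : Type*} [DecidableEq α]

theorem dg_toFinset_thr {L : List (Sym2 α)} (h : L.Nodup) (u : α) :
    dg L.toFinset u = L.countP fun e => decide (u ∈ e) := by
  rw [dg, List.countP_eq_length_filter, ← List.toFinset_card_of_nodup (h.filter _),
    List.toFinset_filter]
  simp

theorem ite_mem_thr {a x : α} (h : ¬ (s(a, x)).IsDiag) (u : α) :
    (if u ∈ s(a, x) then 1 else 0 : ℕ) = (if a = u then 1 else 0) + if x = u then 1 else 0 := by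
  rw [Sym2.mk_isDiag_iff] at h
  by_cases h1 : a = u
  · subst h1
    simp [Ne.symm h]
  · by_cases h2 : x = u
    · subst h2
      simp [h]
    · simp [h1, h2, Ne.symm h1, Ne.symm h2]

theorem countP_eds_thr (a : α) (l : List α) (b : α) (hd : ∀ e ∈ eds a l b, ¬ e.IsDiag) (u : α) :
    ((eds a l b).countP fun e => decide (u ∈ e)) =
      (if a = u then 1 else 0) + (if b = u then 1 else 0) + 2 * l.count u := by
  induction l generalizing a with
  | nil =>
    have := ite_mem_thr (hd s(a, b) (by simp [eds])) u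
    simp only [eds, List.countP_cons, List.countP_nil, decide_eq_true_eq, List.count_nil]
    omega
  | cons x l ih =>
    have h1 := ite_mem_thr (hd s(a, x) (by simp [eds])) u
    have h2 := ih x fun e he => hd e (by simp [eds, he])
    simp only [eds, List.countP_cons, decide_eq_true_eq, List.count_cons, beq_iff_eq, h2, h1]
    omega

theorem dg_eds (a : α) (l : List α) (b : α) (h : (eds a l b).Nodup)
    (hd : ∀ e ∈ eds a l b, ¬ e.IsDiag) (u : α) :
    dg (eds a l b).toFinset u =
      (if a = u then 1 else 0) + (if b = u then 1 else 0) + 2 * l.count u := by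
  rw [dg_toFinset_thr h, countP_eds_thr a l b hd]

theorem en_cons_thr (c : α × α) (P : List (α × α)) (q : α) :
    en (c :: P) q = ((if c.1 = q then 1 else 0) + if c.2 = q then 1 else 0) + en P q := by
  simp [en]

theorem sum_en {Q : Finset α} {P : List (α × α)} (h : ∀ c ∈ P, c.1 ∈ Q ∧ c.2 ∈ Q) :
    ∑ q ∈ Q, en P q = 2 * P.length := by
  induction P with
  | nil => simp [en]
  | cons c P ih =>
    have h1 := h c (by simp)
    simp only [en_cons_thr, sum_add_distrib, ih fun c hc => h c (by simp [hc]), sum_ite_eq,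
      if_pos h1.1, if_pos h1.2, List.length_cons]
    ring

theorem countP_sysE_thr {S : List (Ln α)} (hd : ∀ e ∈ sysE S, ¬ e.IsDiag) (u : α) :
    ((sysE S).countP fun e => decide (u ∈ e)) = en (sysP S) u + 2 * (sysI S).count u := by
  induction S with
  | nil => simp [en]
  | cons T S ih =>
    rw [sysE_cons] at hd
    rw [sysE_cons, sysI_cons, sysP_cons, List.countP_append, List.count_append, en_cons_thr,
      ih fun e he => hd e (List.mem_append_right _ he),
      countP_eds_thr _ _ _ fun e he => hd e (List.mem_append_left _ he)]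
    ring

theorem en_zero_thr {Q : Finset α} {P : List (α × α)} (h : ∀ c ∈ P, c.1 ∈ Q ∧ c.2 ∈ Q) {x : α}
    (hx : x ∉ Q) : en P x = 0 := by
  induction P with
  | nil => simp [en]
  | cons c P ih =>
    have h1 := h c (by simp)
    rw [en_cons_thr, ih fun c hc => h c (by simp [hc]),
      if_neg fun k : c.1 = x => hx (k ▸ h1.1), if_neg fun k : c.2 = x => hx (k ▸ h1.2)]

theorem rch_eds_thr {H : Finset (Sym2 α)} {q a b : α} {l : List α} (hq : Rch H q a)
    (h : ∀ e ∈ eds a l b, e ∈ H) : ∀ e ∈ eds a l b, ∃ u ∈ e, Rch H q u := by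
  induction l generalizing a with
  | nil =>
    intro e he
    rw [eds, List.mem_singleton] at he
    exact ⟨a, he ▸ Sym2.mem_mk_left _ _, hq⟩
  | cons x l ih =>
    intro e he
    rw [eds, List.mem_cons] at he
    rcases he with rfl | he
    · exact ⟨a, Sym2.mem_mk_left _ _, hq⟩
    · exact ih (hq.step (h _ (by simp [eds]))) (fun e he => h e (by simp [eds, he])) e he

theorem Good.pq {Q : Finset α} {S : List (Ln α)} (h : Good Q S)
    (hd : ∀ e ∈ sysE S, ¬ e.IsDiag) :
    PQ Q (sysE S).toFinset ∧ ∀ q ∈ Q, dg (sysE S).toFinset q = en (sysP S) q := by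
  have he : ∀ c ∈ sysP S, c.1 ∈ Q ∧ c.2 ∈ Q := fun c hc => by
    obtain ⟨T, hT, rfl⟩ := List.mem_map.1 hc
    exact h.ends T hT
  refine ⟨⟨fun e he => hd e (List.mem_toFinset.1 he), fun x hx => ?_, fun e he => ?_⟩,
    fun q hq => ?_⟩
  · rw [dg_toFinset_thr h.ndE, countP_sysE_thr hd, en_zero_thr he hx]
    have := List.nodup_iff_count_le_one.1 h.ndI x
    omega
  · obtain ⟨T, hT, hT'⟩ := List.mem_flatMap.1 (List.mem_toFinset.1 he)
    have k : ∀ e ∈ eds T.1 T.2.1 T.2.2, e ∈ (sysE S).toFinset := fun e he =>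
      List.mem_toFinset.2 (List.mem_flatMap.2 ⟨T, hT, he⟩)
    exact ⟨T.1, (h.ends T hT).1, rch_eds_thr (Rch.refl _ _) k e hT'⟩
  · rw [dg_toFinset_thr h.ndE, countP_sysE_thr hd,
      List.count_eq_zero_of_not_mem fun k => h.int q k hq]
    rfl

omit [DecidableEq α] in
theorem mem_eds_thr {a b u : α} {l : List α} {e : Sym2 α} (he : e ∈ eds a l b) (hu : u ∈ e) :
    u = a ∨ u ∈ l ∨ u = b := by
  induction l generalizing a with
  | nil =>
    rw [eds, List.mem_singleton] at he
    subst he
    rcases Sym2.mem_iff.1 hu with h | h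
    · exact Or.inl h
    · exact Or.inr (Or.inr h)
  | cons x l ih =>
    rw [eds, List.mem_cons] at he
    rcases he with rfl | he
    · rcases Sym2.mem_iff.1 hu with h | h
      · exact Or.inl h
      · exact Or.inr (Or.inl (h ▸ List.mem_cons_self))
    · rcases ih he with h | h | h
      · exact Or.inr (Or.inl (h ▸ List.mem_cons_self))
      · exact Or.inr (Or.inl (List.mem_cons_of_mem _ h))
      · exact Or.inr (Or.inr h)

omit [DecidableEq α] in
theorem has_start_thr {a b : α} {l : List α} {e : Sym2 α} (he : e ∈ eds a l b) :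
    ∃ u ∈ e, u ∈ a :: l := by
  induction l generalizing a with
  | nil =>
    rw [eds, List.mem_singleton] at he
    exact ⟨a, he ▸ Sym2.mem_mk_left _ _, List.mem_cons_self⟩
  | cons x l ih =>
    rw [eds, List.mem_cons] at he
    rcases he with rfl | he
    · exact ⟨a, Sym2.mem_mk_left _ _, List.mem_cons_self⟩
    · obtain ⟨u, h1, h2⟩ := ih he
      exact ⟨u, h1, List.mem_cons_of_mem _ h2⟩

omit [DecidableEq α] in
theorem has_int_thr {a b : α} {l : List α} {e : Sym2 α} (hl : l ≠ []) (he : e ∈ eds a l b) :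
    ∃ u ∈ e, u ∈ l := by
  obtain ⟨x, l, rfl⟩ := List.exists_cons_of_ne_nil hl
  rw [eds, List.mem_cons] at he
  rcases he with rfl | he
  · exact ⟨x, Sym2.mem_mk_right _ _, List.mem_cons_self⟩
  · exact has_start_thr he

omit [DecidableEq α] in
theorem nodup_eds_thr {a b : α} {l : List α} (ha : a ∉ l) (hl : l.Nodup) (hab : a ≠ b) (hb : b ∉ l) :
    (eds a l b).Nodup := by
  induction l generalizing a with
  | nil => simp [eds]
  | cons x l ih =>
    rw [List.nodup_cons] at hl
    rw [eds, List.nodup_cons]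
    refine ⟨fun he => ?_, ih hl.1 hl.2 (fun k => hb (k ▸ List.mem_cons_self))
      fun k => hb (List.mem_cons_of_mem _ k)⟩
    rcases mem_eds_thr he (Sym2.mem_mk_left a x) with h | h | h
    · exact ha (h ▸ List.mem_cons_self)
    · exact ha (List.mem_cons_of_mem _ h)
    · exact hab h

omit [DecidableEq α] in
theorem sublist_sysE_thr (S : List (Ln α)) :
    ((S.filter fun T => T.2.1 = []).map fun T => s(T.1, T.2.2)).Sublist (sysE S) := by
  induction S with
  | nil => simp
  | cons T S ih =>
    rw [sysE_cons, List.filter_cons]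
    split_ifs with h
    · rw [decide_eq_true_eq] at h
      rw [h, eds, List.map_cons]
      exact ih.cons_cons _
    · exact ih.trans (List.sublist_append_right _ _)

theorem nodup_sysE {Q : Finset α} {S : List (Ln α)} (h1 : ∀ T ∈ S, T.1 ∈ Q ∧ T.2.2 ∈ Q)
    (h2 : ∀ x ∈ sysI S, x ∉ Q) (h3 : (sysI S).Nodup) (h4 : ∀ T ∈ S, T.1 ≠ T.2.2) :
    (sysE S).Nodup ↔ ((S.filter fun T => T.2.1 = []).map fun T => s(T.1, T.2.2)).Nodup := by
  refine ⟨fun h => h.sublist (sublist_sysE_thr S), fun h => ?_⟩
  induction S with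
  | nil => simp
  | cons T S ih =>
    rw [sysI_cons] at h2 h3
    rw [List.nodup_append] at h3
    have q := h1 T List.mem_cons_self
    have k1 : ∀ x ∈ T.2.1, x ∉ Q := fun x hx => h2 x (List.mem_append_left _ hx)
    have k2 : ∀ x ∈ sysI S, x ∉ Q := fun x hx => h2 x (List.mem_append_right _ hx)
    rw [sysE_cons, List.nodup_append]
    refine ⟨nodup_eds_thr (fun k => k1 _ k q.1) h3.1 (h4 T List.mem_cons_self) fun k => k1 _ k q.2,
      ih (fun T hT => h1 T (List.mem_cons_of_mem _ hT)) k2 h3.2.1
        (fun T hT => h4 T (List.mem_cons_of_mem _ hT))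
        (h.sublist (((List.sublist_cons_self T S).filter _).map _)), ?_⟩
    rintro e he _ he' rfl
    obtain ⟨T', hT', he'⟩ := List.mem_flatMap.1 he'
    have q' := h1 T' (List.mem_cons_of_mem _ hT')
    have sub : ∀ x ∈ T'.2.1, x ∈ sysI S := fun x hx => List.mem_flatMap.2 ⟨T', hT', hx⟩
    by_cases hl : T.2.1 = []
    · rw [hl, eds, List.mem_singleton] at he
      by_cases hl' : T'.2.1 = []
      · rw [hl', eds, List.mem_singleton] at he'
        rw [List.filter_cons_of_pos (by simpa using hl), List.map_cons, List.nodup_cons] at h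
        exact h.1 (List.mem_map.2 ⟨T', List.mem_filter.2 ⟨hT', by simpa using hl'⟩,
          he'.symm.trans he⟩)
      · obtain ⟨u, u1, u2⟩ := has_int_thr hl' he'
        rw [he] at u1
        rcases Sym2.mem_iff.1 u1 with k | k
        · exact k2 u (sub u u2) (k ▸ q.1)
        · exact k2 u (sub u u2) (k ▸ q.2)
    · obtain ⟨u, u1, u2⟩ := has_int_thr hl he
      rcases mem_eds_thr he' u1 with k | k | k
      · exact k1 u u2 (k ▸ q'.1)
      · exact h3.2.2 u u2 u (sub u k) rfl
      · exact k1 u u2 (k ▸ q'.2)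

end HamPerc.RG
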