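import Pool.Agent.Lib.MP_58a483_pr.HamProb

/-!
The localised coefficients as finite sums over configurations.
-/

open Finset

namespace HamPerc

section Generic

variable {α γ : Type*} [DecidableEq α] [LinearOrder γ]

/-- vertices of an edge set -/
def vE (S : Finset (Sym2 α)) : Finset α := S.biUnion Sym2.toFinset

theorem mem_vE {S : Finset (Sym2 α)} {u : α} : u ∈ vE S ↔ ∃ e ∈ S, u ∈ e := by simp [vE]

theorem card_vE (S : Finset (Sym2 α)) : (vE S).card ≤ 2 * S.card := by
  rw [mul_comm]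
  refine card_biUnion_le_card_mul _ _ _ fun e _ => ?_
  induction e using Sym2.ind with
  | _ a b => rw [Sym2.toFinset_mk_eq]; exact card_le_two

open Classical in
/-- ball of radius `L` around `z` in the edge set `S` -/
noncomputable def ballF (L : ℕ) (S : Finset (Sym2 α)) (z : α) : Finset α :=
  (insert z (vE S)).filter (Nr S L z)

theorem mem_ballF {L : ℕ} {S : Finset (Sym2 α)} {z u : α} : u ∈ ballF L S z ↔ Nr S L z u := by
  classical
  unfold ballF
  rw [mem_filter, mem_insert, mem_vE]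
  exact ⟨fun h => h.2, fun h => ⟨let ⟨_, a, b, _⟩ := h; b.vis_end.mono a, h⟩⟩

theorem card_ballF (L : ℕ) (S : Finset (Sym2 α)) (z : α) :
    (ballF L S z).card ≤ 2 * S.card + 1 := by
  classical
  exact (card_filter_le _ _).trans ((card_insert_le _ _).trans (by linarith [card_vE S]))

theorem ballF_emap {σ : α → α} (hσ : Function.Injective σ) (L : ℕ) (S : Finset (Sym2 α)) (z : α) :
    ballF L (emap σ S) (σ z) = (ballF L S z).image σ := by
  ext u
  simp only [mem_ballF, mem_image, nr_map_iff hσ]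
  exact ⟨fun ⟨y, a, b⟩ => ⟨y, b, a.symm⟩, fun ⟨y, a, b⟩ => ⟨y, b.symm, a⟩⟩

theorem vE_emap (σ : α → α) (S : Finset (Sym2 α)) : vE (emap σ S) = (vE S).image σ := by
  ext u
  simp only [mem_vE, mem_image, emap]
  constructor
  · rintro ⟨_, ⟨e, he, rfl⟩, hu⟩
    obtain ⟨a, ha, rfl⟩ := Sym2.mem_map.1 hu
    exact ⟨a, ⟨e, he, ha⟩, rfl⟩
  · rintro ⟨a, ⟨e, he, ha⟩, rfl⟩
    exact ⟨_, ⟨e, he, rfl⟩, Sym2.mem_map.2 ⟨a, ha, rfl⟩⟩

theorem Ex_loc (p : ℝ) (E : Finset (Sym2 α)) (L : ℕ) (z : α) (ψ : Finset (Sym2 α) → ℝ) :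
    Ex p E (fun ω => ψ (loc L ω z)) = ∑ S ∈ E.powerset, ind (loc L S z = S) * ψ S *
      (p ^ S.card * (1 - p) ^ ((E.filter fun e => ∃ u ∈ ballF L S z, u ∈ e).card - S.card)) := by
  classical
  have e1 : Ex p E (fun ω => ψ (loc L ω z)) =
      Ex p E fun ω => ∑ S ∈ E.powerset, ψ S * ind (loc L ω z = S) := by
    refine Ex_congr fun ω hω => ?_
    rw [sum_eq_single (loc L ω z)]
    · rw [ind_pos rfl, mul_one]
    · intro b _ hb; rw [ind_neg hb.symm, mul_zero]
    · intro h; exact absurd (mem_powerset.2 (loc_subset.trans hω)) h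
  rw [e1, Ex_sum]
  refine sum_congr rfl fun S hS => ?_
  rw [Ex_const_mul]
  have ht : ∀ e : Sym2 α, (∃ u ∈ e, Nr S L z u) ↔ ∃ u ∈ ballF L S z, u ∈ e := fun e => by
    simp only [mem_ballF]; exact ⟨fun ⟨u, a, b⟩ => ⟨u, b, a⟩, fun ⟨u, a, b⟩ => ⟨u, b, a⟩⟩
  by_cases h : loc L S z = S
  · rw [ind_pos h, one_mul, ← Pr_filter_eq p E _ (S := S)]
    · congr 1
      refine Ex_congr fun ω _ => ind_congr ?_
      rw [loc_eq_iff, filter_congr fun e _ => ht e]
      simp [h]
    · intro e he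
      exact mem_filter.2 ⟨mem_powerset.1 hS he, (ht e).1 (mem_loc.1 (h.symm ▸ he)).2⟩
  · rw [ind_neg h, zero_mul, zero_mul, Ex_congr (g := fun _ => 0), Ex_const, mul_zero]
    exact fun ω _ => ind_neg fun h' => h (loc_eq_iff.1 h').1

/-- type of step predicates -/
abbrev StP (α : Type*) := Finset (Sym2 α) → Set α → α → α → Prop

/-- type of update rules -/
abbrev NxP (α : Type*) := Finset (Sym2 α) → Set α → α → α → Set α

/-- general localised operator -/
noncomputable def TG (p : ℝ) (E : Finset (Sym2 α)) (Λ : Finset α) (L N : ℕ) (st : StP α)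
    (nx : NxP α) (g : α → Set α → ℝ) (z : α) (B : Set α) : ℝ :=
  ∑ z' ∈ Λ, Ex p E fun ω => ind ((loc L ω z).card ≤ N ∧ st (loc L ω z) B z z') *
    g z' (nx (loc L ω z) B z z')

theorem sum_ind_vE (Λ : Finset α) {S : Finset (Sym2 α)} {N : ℕ} {P : α → Prop}
    (h : ∀ v, P v → S.card ≤ N ∧ v ∈ vE S) : ∑ v ∈ Λ, ind (P v) ≤ 2 * N := by
  classical
  rw [sum_ind]
  rcases (Λ.filter P).eq_empty_or_nonempty with h' | ⟨w, hw⟩
  · rw [h']; simp
  · have h2 : Λ.filter P ⊆ vE S := fun v hv => (h v (mem_filter.1 hv).2).2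
    have h3 := (h w (mem_filter.1 hw).2).1
    have := (card_le_card h2).trans (card_vE _)
    exact_mod_cast this.trans (by omega)

theorem TG_bound {p : ℝ} (h0 : 0 ≤ p) (h1 : p ≤ 1) (E : Finset (Sym2 α))
    (Λ : Finset α) (L N : ℕ) {st : StP α} (hst : ∀ S B z z', st S B z z' → z' ∈ vE S) (nx : NxP α)
    {g : α → Set α → ℝ} {Z : ℝ} (hZ : 0 ≤ Z)
    (hg : ∀ z B, g z B ≤ Z) (z : α) (B : Set α) : TG p E Λ L N st nx g z B ≤ 2 * N * Z := by
  unfold TG
  rw [← Ex_sum]
  refine Ex_le_const h0 h1 fun ω _ => ?_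
  refine (sum_le_sum fun z' _ => mul_le_mul_of_nonneg_left (hg _ _) (ind_nonneg _)).trans ?_
  rw [← sum_mul]
  exact mul_le_mul_of_nonneg_right (sum_ind_vE Λ fun v hv => ⟨hv.1, hst _ _ _ _ hv.2⟩) hZ

theorem TG_iter_bound {p : ℝ} (h0 : 0 ≤ p) (h1 : p ≤ 1) (E : Finset (Sym2 α))
    (Λ : Finset α) (L N : ℕ) {st : StP α} (hst : ∀ S B z z', st S B z z' → z' ∈ vE S) (nx : NxP α)
    (j : ℕ) (z : α) (B : Set α) : (TG p E Λ L N st nx)^[j] 1 z B ≤ (2 * N) ^ j := by
  induction j generalizing z B with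
  | zero => simp
  | succ j ih =>
    rw [Function.iterate_succ_apply', pow_succ']
    exact TG_bound h0 h1 E Λ L N hst nx (by positivity) ih z B

theorem Ent.mem_vE {S : Finset (Sym2 α)} {B : Set α} {z z' : α} (h : Ent S B z z') : z' ∈ vE S :=
  let ⟨_, _, _, he⟩ := h; HamPerc.mem_vE.2 ⟨_, he, Sym2.mem_mk_right _ _⟩

theorem vE_mono {S S' : Finset (Sym2 α)} (h : S ⊆ S') : vE S ⊆ vE S' := fun _ hu =>
  let ⟨e, a, b⟩ := mem_vE.1 hu; mem_vE.2 ⟨e, h a, b⟩

/-- step predicate using only the edges satisfying `t` -/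
def stU (rk : α → γ) (L : ℕ) (t : Sym2 α → Prop) [DecidablePred t] (fl : Prop) : StP α :=
  fun S B z z' => Ent (loc L (S.filter t) z) B z z' ∧
    (z' ∈ PP rk (loc L (S.filter t) z) B z z' ↔ fl)

/-- update rule using only the edges satisfying `t` -/
def nxU (rk : α → γ) (L : ℕ) (t : Sym2 α → Prop) [DecidablePred t] : NxP α :=
  fun S B z z' => PP rk (loc L (S.filter t) z) B z z'

theorem stU_vE {rk : α → γ} {L : ℕ} {t : Sym2 α → Prop} [DecidablePred t] {fl : Prop} :
    ∀ S B z z', stU rk L t fl S B z z' → z' ∈ vE S := fun _ _ _ _ h =>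
  vE_mono (loc_subset.trans (filter_subset _ _)) h.1.mem_vE

theorem Tl_TG {rk : α → γ} {p : ℝ} (h0 : 0 ≤ p) (h1 : p ≤ 1) (E : Finset (Sym2 α))
    (Λ : Finset α) (L N : ℕ) (t : Sym2 α → Prop) [DecidablePred t] (fl : Prop)
    {g g' : α → Set α → ℝ} {Z η β : ℝ} (hZ : 0 ≤ Z) (hη : 0 ≤ η)
    (hg : ∀ z B, |g' z B| ≤ Z) (hgg : ∀ z ∈ Λ, ∀ B, |g z B - g' z B| ≤ η) (z : α)
    (hβ : Pr p E (fun ω => N < (loc L ω z).card) ≤ β) (B : Set α) :
    |Tl rk p (E.filter t) Λ L N fl g z B - TG p E Λ L N (stU rk L t fl) (nxU rk L t) g' z B| ≤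
      2 * N * η + 2 * N * (Z + η) * β := by
  change |∑ z' ∈ Λ, T1 rk p (E.filter t) L N fl g z B z' - _| ≤ _
  unfold TG T1
  simp only [← Ex_filter p E t]
  rw [← Ex_sum, ← Ex_sum, ← Ex_sub]
  refine (abs_Ex_le h0 h1 (g := fun ω => 2 * N * η +
    2 * N * (Z + η) * ind (N < (loc L ω z).card)) fun ω _ => ?_).trans ?_
  · have hc : ∑ z' ∈ Λ, ind (okS rk fl N (loc L (ω.filter t) z) B z z') ≤ 2 * N :=
      sum_ind_vE Λ fun v hv => ⟨hv.1, hv.2.1.mem_vE⟩
    simp only [stU, nxU, loc_filter_loc]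
    by_cases hb : N < (loc L ω z).card
    · have n1 : ∀ P : Prop, ind ((loc L ω z).card ≤ N ∧ P) = 0 := fun P =>
        ind_neg fun h => absurd h.1 (not_le.2 hb)
      simp only [n1, zero_mul, sum_const_zero, sub_zero]
      rw [ind_pos hb, mul_one]
      refine (abs_sum_le_sum_abs _ _).trans ((sum_le_sum (g := fun z' =>
        ind (okS rk fl N (loc L (ω.filter t) z) B z z') * (Z + η)) fun z' hz' => ?_).trans ?_)
      · rw [abs_mul, abs_of_nonneg (ind_nonneg _)]
        refine mul_le_mul_of_nonneg_left ?_ (ind_nonneg _)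
        have a1 := hg z' (PP rk (loc L (ω.filter t) z) B z z')
        have a2 := hgg z' hz' (PP rk (loc L (ω.filter t) z) B z z')
        rw [abs_le] at *
        constructor <;> linarith [a1.1, a1.2, a2.1, a2.2]
      · rw [← sum_mul]
        have := mul_le_mul_of_nonneg_right hc (add_nonneg hZ hη)
        have : 0 ≤ 2 * (N : ℝ) * η := by positivity
        linarith
    · rw [ind_neg hb, mul_zero, add_zero, ← sum_sub_distrib]
      refine (abs_sum_le_sum_abs _ _).trans ((sum_le_sum (g := fun z' =>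
        ind (okS rk fl N (loc L (ω.filter t) z) B z z') * η) fun z' hz' => ?_).trans ?_)
      · have : (loc L (ω.filter t) z).card ≤ N :=
          (card_le_card (loc_mono (filter_subset _ _))).trans (not_lt.1 hb)
        rw [ind_congr (P := (loc L ω z).card ≤ N ∧ _)
          (Q := okS rk fl N (loc L (ω.filter t) z) B z z') (by simp [okS, this, not_lt.1 hb]),
          ← mul_sub, abs_mul, abs_of_nonneg (ind_nonneg _)]
        exact mul_le_mul_of_nonneg_left (hgg z' hz' _) (ind_nonneg _)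
      · rw [← sum_mul]
        exact mul_le_mul_of_nonneg_right hc hη
  · rw [Ex_add, Ex_const, Ex_const_mul]
    exact add_le_add le_rfl (mul_le_mul_of_nonneg_left hβ (by positivity))

theorem TG_nonneg {p : ℝ} (h0 : 0 ≤ p) (h1 : p ≤ 1) (E : Finset (Sym2 α))
    (Λ : Finset α) (L N : ℕ) (st : StP α) (nx : NxP α) (j : ℕ) (z : α) (B : Set α) :
    0 ≤ (TG p E Λ L N st nx)^[j] 1 z B := by
  induction j generalizing z B with
  | zero => simp
  | succ j ih =>
    rw [Function.iterate_succ_apply']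
    exact sum_nonneg fun _ _ => Ex_nonneg h0 h1 fun _ _ => mul_nonneg (ind_nonneg _) (ih _ _)

theorem Th_TG {rk : α → γ} {p : ℝ} (h0 : 0 ≤ p) (h1 : p ≤ 1) (E : Finset (Sym2 α))
    (Λ : Finset α) (L N : ℕ) (t : Sym2 α → Prop) [DecidablePred t] {β : ℝ} (hβ0 : 0 ≤ β)
    (hβ1 : β ≤ 1) (hβ : ∀ z ∈ Λ, Pr p E (fun ω => N < (loc L ω z).card) ≤ β) (fl : Prop) (j : ℕ)
    (z : α) (hz : z ∈ Λ) :
    |Th rk p (E.filter t) Λ L N fl j z - TG p E Λ L N (stU rk L t fl) (nxU rk L t)
      ((TG p E Λ L N (stU rk L t False) (nxU rk L t))^[j] 1) z {z}ᶜ| ≤ (6 * N) ^ (j + 1) * β := by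
  have step : ∀ (fl : Prop) (j : ℕ), (∀ z ∈ Λ, ∀ B, |(Tl rk p (E.filter t) Λ L N False ^ j) 1 z B -
      (TG p E Λ L N (stU rk L t False) (nxU rk L t))^[j] 1 z B| ≤ (6 * N) ^ j * β) →
      ∀ z ∈ Λ, ∀ B, |Tl rk p (E.filter t) Λ L N fl ((Tl rk p (E.filter t) Λ L N False ^ j) 1) z B -
      TG p E Λ L N (stU rk L t fl) (nxU rk L t)
        ((TG p E Λ L N (stU rk L t False) (nxU rk L t))^[j] 1) z B| ≤ (6 * N) ^ (j + 1) * β := by
    intro fl j ih z hz B
    have hZ : ∀ z B, |(TG p E Λ L N (stU rk L t False) (nxU rk L t))^[j] 1 z B| ≤ (6 * N) ^ j := by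
      intro z B
      rw [abs_of_nonneg (TG_nonneg h0 h1 _ _ _ _ _ _ _ _ _)]
      exact (TG_iter_bound h0 h1 E Λ L N stU_vE _ j z B).trans
        (pow_le_pow_left₀ (by positivity) (by linarith [show (0 : ℝ) ≤ N by positivity]) j)
    refine (Tl_TG h0 h1 E Λ L N t fl (by positivity) (by positivity) hZ ih z (hβ z hz) B).trans ?_
    have : (N : ℝ) * (6 * N) ^ j * β * β ≤ N * (6 * N) ^ j * β :=
      mul_le_of_le_one_right (by positivity) hβ1
    rw [pow_succ]
    nlinarith
  refine step fl j ?_ z hz _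
  induction j with
  | zero => intro z _ B; simp [hβ0]
  | succ j ih =>
    intro z hz B
    rw [pow_succ', Module.End.mul_apply, Function.iterate_succ_apply']
    exact step False j ih z hz B

end Generic

variable {d n : ℕ}

open Classical in
/-- number of Hamming edges inside a vertex set -/
noncomputable def inE (A : Finset (Vx d)) : ℕ := (A.sym2.filter AdjE).card

theorem touch_card {A : Finset (Vx d)} (hA : A ⊆ box d n) :
    ((edges d n).filter fun e => ∃ u ∈ A, u ∈ e).card + inE A = A.card * (d * (n - 1)) := by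
  classical
  have h1 : A.card * (d * (n - 1)) = ∑ x ∈ A, ∑ e ∈ edges d n, if x ∈ e then 1 else 0 := by
    rw [← smul_eq_mul, ← sum_const]
    exact sum_congr rfl fun x hx => by rw [← card_edges_at (hA hx), card_filter]
  have h2 : inE A = ((edges d n).filter fun e => ∀ u ∈ e, u ∈ A).card := by
    unfold inE
    congr 1
    ext e
    simp only [mem_filter, mem_sym2_iff, mem_edges]
    exact ⟨fun h => ⟨⟨fun u hu => hA (h.1 u hu), h.2⟩, h.1⟩, fun h => ⟨h.2, h.1.2⟩⟩
  rw [h1, h2, sum_comm, card_filter, card_filter, ← sum_add_distrib]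
  refine sum_congr rfl fun e he => ?_
  obtain ⟨a, b, rfl, hab⟩ := (mem_edges.1 he).2
  have hne := hab.ne
  have : ∀ x, (if x ∈ s(a, b) then 1 else 0) = (if a = x then 1 else 0) + if b = x then 1 else 0 := by
    intro x
    by_cases h1 : a = x
    · subst h1; simp [hne.symm]
    · by_cases h2 : b = x
      · subst h2; simp [h1]
      · simp [h1, h2, Ne.symm h1, Ne.symm h2]
  simp only [this]
  rw [sum_add_distrib, sum_ite_eq, sum_ite_eq]
  by_cases h1 : a ∈ A <;> by_cases h2 : b ∈ A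
  · rw [if_pos ⟨a, h1, Sym2.mem_mk_left _ _⟩]; simp [h1, h2]
  · rw [if_pos ⟨a, h1, Sym2.mem_mk_left _ _⟩]; simp [h1, h2]
  · rw [if_pos ⟨b, h2, Sym2.mem_mk_right _ _⟩]; simp [h1, h2]
  · rw [if_neg]
    · simp [h1, h2]
    · rintro ⟨u, hu, hu'⟩
      rcases Sym2.mem_iff.1 hu' with rfl | rfl
      · exact h1 hu
      · exact h2 hu

/-- a configuration: the explored edge sets and the successive entry points -/
abbrev Cf (d : ℕ) := List (Finset (Sym2 (Vx d)) × Vx d)

/-- admissible configurations -/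
def okG (L N : ℕ) (st : StP (Vx d)) (nx : NxP (Vx d)) :
    StP (Vx d) → Cf d → Vx d → Set (Vx d) → Prop
  | _, [], _, _ => True
  | s0, q :: c, z, B => ((∀ e ∈ q.1, AdjE e) ∧ loc L q.1 z = q.1 ∧ q.1.card ≤ N ∧ s0 q.1 B z q.2) ∧
      okG L N st nx st c q.2 (nx q.1 B z q.2)

/-- number of open edges -/
def sa : Cf d → ℕ
  | [] => 0
  | q :: c => q.1.card + sa c

/-- number of explored vertices -/
noncomputable def sb (L : ℕ) : Cf d → Vx d → ℕ
  | [], _ => 0
  | q :: c, z => (ballF L q.1 z).card + sb L c q.2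

/-- correction to the number of closed edges -/
noncomputable def se (L : ℕ) : Cf d → Vx d → ℕ
  | [], _ => 0
  | q :: c, z => (inE (ballF L q.1 z) + q.1.card) + se L c q.2

/-- configurations of a given length in the box -/
def CS (d n : ℕ) : ℕ → Finset (Cf d)
  | 0 => {[]}
  | j + 1 => (((box d n).sym2.powerset ×ˢ box d n) ×ˢ CS d n j).image fun q => q.1 :: q.2

/-- weight of a configuration -/
noncomputable def wt (p w m : ℝ) (a b e : ℕ) : ℝ := p ^ a * Real.exp (-w * (b * m - e))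

theorem wt_add (p w m : ℝ) (a b e a' b' e' : ℕ) :
    wt p w m (a + a') (b + b') (e + e') = wt p w m a b e * wt p w m a' b' e' := by
  unfold wt
  rw [pow_add, mul_mul_mul_comm, ← Real.exp_add]
  congr 2; push_cast; ring

theorem TG_rep {w : ℝ} (L N : ℕ) (st s0 : StP (Vx d)) (nx : NxP (Vx d)) (j : ℕ)
    {g : Vx d → Set (Vx d) → ℝ}
    (hg : ∀ z ∈ box d n, ∀ B, g z B = ∑ c ∈ CS d n j, ind (okG L N st nx st c z B) *
      wt (1 - Real.exp (-w)) w (d * (n - 1) : ℕ) (sa c) (sb L c z) (se L c z))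
    (z : Vx d) (hz : z ∈ box d n) (B : Set (Vx d)) :
    TG (1 - Real.exp (-w)) (edges d n) (box d n) L N s0 nx g z B =
      ∑ c ∈ CS d n (j + 1), ind (okG L N st nx s0 c z B) *
        wt (1 - Real.exp (-w)) w (d * (n - 1) : ℕ) (sa c) (sb L c z) (se L c z) := by
  classical
  rw [CS, sum_image (fun a _ b _ h => Prod.ext (List.cons.inj h).1 (List.cons.inj h).2),
    sum_product, sum_product_right]
  refine sum_congr rfl fun z' hz' => ?_
  rw [Ex_loc _ _ L z fun S => ind (S.card ≤ N ∧ s0 S B z z') * g z' (nx S B z z')]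
  have hsub : (edges d n).powerset ⊆ (box d n).sym2.powerset :=
    powerset_mono.2 (filter_subset _ _)
  rw [← sum_subset hsub]
  · refine sum_congr rfl fun S hS => ?_
    have hS' := mem_powerset.1 hS
    have hA : ∀ e ∈ S, AdjE e := fun e he => (mem_edges.1 (hS' he)).2
    simp only [okG, sa, sb, se, wt_add, ind_and, ind_pos hA, one_mul]
    rw [hg z' hz', mul_sum, mul_sum, sum_mul]
    refine sum_congr rfl fun c _ => ?_
    by_cases hl : loc L S z = S
    swap
    · simp [ind_neg hl]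
    have hB : ballF L S z ⊆ box d n := fun u hu =>
      let ⟨_, a, b, _⟩ := mem_ballF.1 hu; vis_mem edges_box hS' hz (b.vis_end.mono a)
    have h1 := touch_card hB
    have h2 : S.card ≤ ((edges d n).filter fun e => ∃ u ∈ ballF L S z, u ∈ e).card := by
      refine card_le_card fun e he => mem_filter.2 ⟨hS' he, ?_⟩
      obtain ⟨u, a, b⟩ := (mem_loc.1 (hl.symm ▸ he)).2
      exact ⟨u, mem_ballF.2 b, a⟩
    have h3 : (1 - (1 - Real.exp (-w))) ^
        (((edges d n).filter fun e => ∃ u ∈ ballF L S z, u ∈ e).card - S.card) =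
        Real.exp (-w * ((ballF L S z).card * (d * (n - 1) : ℕ) -
          (inE (ballF L S z) + S.card : ℕ))) := by
      rw [sub_sub_cancel, ← Real.exp_nat_mul, ← Nat.cast_mul, ← h1, Nat.cast_sub h2]
      congr 1; push_cast; ring
    rw [h3]
    unfold wt
    ring
  · intro S hS hS'
    refine sum_eq_zero fun c _ => ?_
    rw [ind_neg, zero_mul]
    intro h
    exact hS' (mem_powerset.2 fun e he => mem_filter.2 ⟨mem_powerset.1 hS he, h.1.1 e he⟩)

theorem ThG_rep (w : ℝ) (L N : ℕ) (st s0 : StP (Vx d)) (nx : NxP (Vx d)) (j : ℕ) {z : Vx d}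
    (hz : z ∈ box d n) (B : Set (Vx d)) :
    TG (1 - Real.exp (-w)) (edges d n) (box d n) L N s0 nx
      ((TG (1 - Real.exp (-w)) (edges d n) (box d n) L N st nx)^[j] 1) z B =
      ∑ c ∈ CS d n (j + 1), ind (okG L N st nx s0 c z B) *
        wt (1 - Real.exp (-w)) w (d * (n - 1) : ℕ) (sa c) (sb L c z) (se L c z) := by
  refine TG_rep L N st s0 nx j ?_ z hz _
  induction j with
  | zero => intro z _ B; simp [CS, okG, sa, sb, se, wt, ind_pos]
  | succ j ih =>
    intro z hz B
    rw [Function.iterate_succ_apply']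
    exact TG_rep L N st st nx j ih z hz B

/-- vertices of a configuration -/
def verts : Cf d → Finset (Vx d)
  | [] => ∅
  | q :: c => vE q.1 ∪ insert q.2 (verts c)

theorem mem_CS {j : ℕ} {c : Cf d} : c ∈ CS d n j ↔ c.length = j ∧ verts c ⊆ box d n := by
  induction j generalizing c with
  | zero =>
    simp only [CS, mem_singleton, List.length_eq_zero_iff]
    exact ⟨fun h => ⟨h, by rw [h]; exact empty_subset _⟩, fun h => h.1⟩
  | succ j ih =>
    have hs : ∀ S : Finset (Sym2 (Vx d)), S ⊆ (box d n).sym2 ↔ vE S ⊆ box d n := by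
      intro S
      simp only [subset_iff, mem_sym2_iff, mem_vE]
      exact ⟨fun h u ⟨e, a, b⟩ => h a u b, fun h e a u b => h ⟨e, a, b⟩⟩
    cases c with
    | nil => simp [CS]
    | cons q c =>
      simp only [CS, mem_image, mem_product, mem_powerset, List.cons.injEq, Prod.exists,
        List.length_cons, Nat.add_right_cancel_iff, verts, union_subset_iff, insert_subset_iff,
        ih, hs]
      constructor
      · rintro ⟨a, b, c', ⟨⟨h1, h2⟩, h3, h4⟩, rfl, rfl⟩
        exact ⟨h3, h1, h2, h4⟩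
      · rintro ⟨h3, h1, h2, h4⟩
        exact ⟨q.1, q.2, c, ⟨⟨h1, h2⟩, h3, h4⟩, rfl, rfl⟩

/-- image of a configuration -/
def cmap (σ : Vx d → Vx d) (c : Cf d) : Cf d := c.map fun q => (emap σ q.1, σ q.2)

theorem verts_cmap (σ : Vx d → Vx d) (c : Cf d) : verts (cmap σ c) = (verts c).image σ := by
  induction c with
  | nil => rfl
  | cons q c ih =>
    change vE (emap σ q.1) ∪ insert (σ q.2) (verts (cmap σ c)) = _
    rw [ih, verts, image_union, image_insert, vE_emap]

theorem cmap_cmap {σ τ : Vx d → Vx d} {c : Cf d} (h : ∀ x ∈ verts c, σ (τ x) = x) :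
    cmap σ (cmap τ c) = c := by
  induction c with
  | nil => rfl
  | cons q c ih =>
    change (emap σ (emap τ q.1), σ (τ q.2)) :: cmap σ (cmap τ c) = _
    rw [ih fun x hx => h x (mem_union_right _ (mem_insert_of_mem hx)),
      h _ (mem_union_right _ (mem_insert_self _ _))]
    congr 2
    unfold emap
    rw [image_image]
    conv_rhs => rw [← image_id (s := q.1)]
    refine image_congr fun e he => ?_
    induction e using Sym2.ind with
    | _ a b =>
      simp only [Function.comp, Sym2.map_mk, id]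
      rw [h a (mem_union_left _ (mem_vE.2 ⟨_, he, Sym2.mem_mk_left _ _⟩)),
        h b (mem_union_left _ (mem_vE.2 ⟨_, he, Sym2.mem_mk_right _ _⟩))]

section Inv

variable {s : Fin d → ℕ → ℕ}

/-- frame predicate: the next point is an explored vertex -/
def stF : StP (Vx d) := fun S _ _ z' => z' ∈ vE S

/-- trivial update rule -/
def nxF : NxP (Vx d) := fun _ B _ _ => B

theorem fr_cmap (hi : ∀ i, Function.Injective (s i)) (L N : ℕ) (c : Cf d) (z : Vx d)
    (B : Set (Vx d)) :
    okG L N stF nxF stF (cmap (cw s) c) (cw s z) B ↔ okG L N stF nxF stF c z B := by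
  have hσ := cw_inj hi
  induction c generalizing z with
  | nil => rfl
  | cons q c ih =>
    change (((∀ e ∈ emap (cw s) q.1, AdjE e) ∧ loc L (emap (cw s) q.1) (cw s z) = emap (cw s) q.1 ∧
      (emap (cw s) q.1).card ≤ N ∧ cw s q.2 ∈ vE (emap (cw s) q.1)) ∧
      okG L N stF nxF stF (cmap (cw s) c) (cw s q.2) B) ↔ _
    rw [propext (ih q.2), okG, loc_emap hσ, card_emap hσ, vE_emap, hσ.mem_finset_image]
    refine and_congr_left fun _ => and_congr ?_ (and_congr ?_ Iff.rfl)
    · simp only [emap, forall_mem_image, adjE_cw hi]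
    · exact (image_injective (Sym2.map.injective hσ)).eq_iff

theorem okG_fr {L N : ℕ} {st s0 : StP (Vx d)} {nx : NxP (Vx d)}
    (hst : ∀ S B z z', st S B z z' → z' ∈ vE S) (hs0 : ∀ S B z z', s0 S B z z' → z' ∈ vE S)
    {c : Cf d} {z : Vx d} {B : Set (Vx d)} (B' : Set (Vx d)) (h : okG L N st nx s0 c z B) :
    okG L N stF nxF stF c z B' := by
  induction c generalizing z B s0 with
  | nil => trivial
  | cons q c ih => exact ⟨⟨h.1.1, h.1.2.1, h.1.2.2.1, hs0 _ _ _ _ h.1.2.2.2⟩, ih hst h.2⟩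

theorem sa_cmap (hi : ∀ i, Function.Injective (s i)) (c : Cf d) : sa (cmap (cw s) c) = sa c := by
  induction c with
  | nil => rfl
  | cons q c ih =>
    change (emap (cw s) q.1).card + sa (cmap (cw s) c) = _
    rw [ih, card_emap (cw_inj hi), sa]

theorem sb_cmap (hi : ∀ i, Function.Injective (s i)) (L : ℕ) (c : Cf d) (z : Vx d) :
    sb L (cmap (cw s) c) (cw s z) = sb L c z := by
  induction c generalizing z with
  | nil => rfl
  | cons q c ih =>
    change (ballF L (emap (cw s) q.1) (cw s z)).card + sb L (cmap (cw s) c) (cw s q.2) = _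
    rw [ih, ballF_emap (cw_inj hi), card_image_of_injective _ (cw_inj hi), sb]

theorem inE_image (hi : ∀ i, Function.Injective (s i)) (A : Finset (Vx d)) :
    inE (A.image (cw s)) = inE A := by
  classical
  unfold inE
  rw [sym2_image, filter_image, card_image_of_injective _ (Sym2.map.injective (cw_inj hi))]
  simp only [adjE_cw hi]

theorem se_cmap (hi : ∀ i, Function.Injective (s i)) (L : ℕ) (c : Cf d) (z : Vx d) :
    se L (cmap (cw s) c) (cw s z) = se L c z := by
  induction c generalizing z with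
  | nil => rfl
  | cons q c ih =>
    change (inE (ballF L (emap (cw s) q.1) (cw s z)) + (emap (cw s) q.1).card) +
      se L (cmap (cw s) c) (cw s q.2) = _
    rw [ih, ballF_emap (cw_inj hi), inE_image hi, card_emap (cw_inj hi), se]

end Inv

theorem okG_bounds {L N : ℕ} {st s0 : StP (Vx d)} {nx : NxP (Vx d)} {c : Cf d} {z : Vx d}
    {B : Set (Vx d)} (h : okG L N st nx s0 c z B) :
    (verts c).card ≤ c.length * (2 * N + 1) ∧ sa c ≤ c.length * N ∧
      sb L c z ≤ c.length * (2 * N + 1) ∧ se L c z ≤ c.length * ((2 * N + 1) ^ 2 + N) := by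
  classical
  induction c generalizing s0 z B with
  | nil => simp [verts, sa, sb, se]
  | cons q c ih =>
    obtain ⟨h1, h2, h3, h4⟩ := ih h.2
    have h0 : q.1.card ≤ N := h.1.2.2.1
    have h5 := card_vE q.1
    have h6 := card_ballF L q.1 z
    have h7 : inE (ballF L q.1 z) ≤ (2 * N + 1) ^ 2 := by
      refine (card_filter_le _ _).trans ?_
      rw [sym2_eq_image]
      refine card_image_le.trans ?_
      rw [card_product, sq]
      exact Nat.mul_le_mul (by omega) (by omega)
    have h8 := (card_union_le (vE q.1) (insert q.2 (verts c))).trans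
      (add_le_add le_rfl (card_insert_le _ _))
    simp only [verts, sa, sb, se, List.length_cons, add_mul, one_mul]
    omega

end HamPerc
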