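import Pool.Agent.Lib.MP_58a483_pr.Mobius
import Pool.Agent.Lib.MP_58a483_pr.Extrap

/-!
Expansion in `1 / n` of the subcritical susceptibility.
-/

open Finset

namespace HamPerc

variable {d n : ℕ}

/-- probability weight of a cluster shape -/
noncomputable def wS (d n : ℕ) (s : ℝ) (S : Finset (Sym2 (Vx d))) : ℝ :=
  wR d n s (kS S) S.card (insert 0 (vE S)).card (inE (insert 0 (vE S)) + S.card)

theorem nr_iff {E S : Finset (Sym2 (Vx d))} (h : S ⊆ E) {x y : Vx d} :
    Nr S E.card x y ↔ Rch S x y :=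
  ⟨fun ⟨W, a, b, _⟩ => ⟨W, a, b⟩, fun ⟨W, a, b⟩ => ⟨W, a, b, card_le_card (a.trans h)⟩⟩

theorem cl_rep (hn : 1 ≤ n) (s : ℝ) (b : ℕ) (ψ : Finset (Sym2 (Vx d)) → ℝ)
    (hinv : ∀ s : Fin d → ℕ → ℕ, (∀ i, Function.Injective (s i)) → cw s 0 = 0 →
      ∀ S, ψ (emap (cw s) S) = ψ S) :
    Ex (1 - Real.exp (-(s / n))) (edges d n) (fun ω =>
      ind ((loc (edges d n).card ω 0).card = b) * ψ (loc (edges d n).card ω 0)) =
      ∑ S ∈ Sh d b, wS d n s S * ψ S := by
  rw [Ex_loc _ _ _ _ fun S => ind (S.card = b) * ψ S]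
  have := orbit1 hn b (fun S => wt (1 - Real.exp (-(s / n))) (s / n) (d * (n - 1) : ℕ) S.card
    (insert 0 (vE S)).card (inE (insert 0 (vE S)) + S.card) * ψ S) ?_
  · refine Eq.trans (sum_congr rfl fun S hS => ?_) (this.trans (sum_congr rfl fun S _ => ?_))
    · have hS' := mem_powerset.1 hS
      have e1 : loc (edges d n).card S 0 = S ↔ conn S := by
        simp only [Finset.ext_iff, mem_loc, nr_iff hS', conn]
        exact ⟨fun h e he => ((h e).2 he).2, fun h e => ⟨fun a => a.1, fun a => ⟨a, h e a⟩⟩⟩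
      rw [ind_congr e1, ind_and]
      by_cases hc : conn S
      swap
      · simp [ind_neg hc]
      have e2 : ballF (edges d n).card S 0 = insert 0 (vE S) := by
        ext u
        rw [mem_ballF, mem_insert, mem_vE]
        refine ⟨fun h => ((nr_iff hS').1 h).vis, ?_⟩
        rintro (rfl | ⟨e, he, hu⟩)
        · exact Nr.refl _ _ _
        · exact (nr_iff hS').2 (rch_of_loc ((e1.2 hc).symm ▸ he) hu)
      have hB : insert 0 (vE S) ⊆ box d n := insert_subset (zero_mem_box hn) fun u hu =>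
        let ⟨e, a, b⟩ := mem_vE.1 hu; edges_box e (hS' a) u b
      have h1 := touch_card hB
      have h2 : S.card ≤ ((edges d n).filter fun e => ∃ u ∈ insert 0 (vE S), u ∈ e).card := by
        refine card_le_card fun e he => mem_filter.2 ⟨hS' he, ?_⟩
        obtain ⟨u, a, _⟩ := hc e he
        exact ⟨u, mem_insert_of_mem (mem_vE.2 ⟨e, he, a⟩), a⟩
      have h3 : (1 - (1 - Real.exp (-(s / n)))) ^
          (((edges d n).filter fun e => ∃ u ∈ insert 0 (vE S), u ∈ e).card - S.card) =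
          Real.exp (-(s / n) * ((insert 0 (vE S)).card * (d * (n - 1) : ℕ) -
            (inE (insert 0 (vE S)) + S.card : ℕ))) := by
        rw [sub_sub_cancel, ← Real.exp_nat_mul, ← Nat.cast_mul, ← h1, Nat.cast_sub h2]
        congr 1; push_cast; ring
      rw [e2, h3]
      unfold wt
      ring
    · unfold wS wR; ring
  · intro s hi h0 S
    have e : insert 0 (vE (emap (cw s) S)) = (insert 0 (vE S)).image (cw s) := by
      rw [image_insert, h0, vE_emap]
    simp only [hinv s hi h0, card_emap (cw_inj hi), e, inE_image hi,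
      card_image_of_injective _ (cw_inj hi)]

theorem gf_sub {μ : ℝ} (h0 : 0 ≤ μ) (h : μ ≤ 1 / 2) (k : ℕ) : gf μ (11 / 10) k ≤ 2 := by
  induction k with
  | zero => simp [gf]
  | succ k ih =>
    have h1 := one_le_gf h0 (show (1 : ℝ) ≤ 11 / 10 by norm_num) k
    rw [gf, ← Real.exp_log (show (0 : ℝ) < 2 by norm_num), Real.exp_le_exp]
    nlinarith [Real.log_two_gt_d9]

theorem wS_sum (hn : 1 ≤ n) {s : ℝ} (hs0 : 0 ≤ s) (hs : d * s ≤ 1 / 2) (b : ℕ) :
    ∑ S ∈ Sh d b, wS d n s S ≤ 2 * (10 / 11) ^ b := by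
  have h1 := cl_rep (d := d) hn s b (fun _ => 1) fun _ _ _ _ => rfl
  simp only [mul_one] at h1
  have hp := exp_param (n := n) s hs0
  have h0 : (0 : ℝ) < n := by exact_mod_cast hn
  rw [← h1]
  calc _ ≤ Ex (1 - Real.exp (-(s / n))) (edges d n) fun ω =>
        (10 / 11) ^ b * (11 / 10 : ℝ) ^ (locG ((edges d n).card + 1) ω {0}).card := by
        refine Ex_mono hp.1 hp.2 fun ω _ => ind_le_of (by positivity) fun h => ?_
        rw [← loc_eq_locG, h, ← mul_pow]; norm_num
    _ ≤ _ := by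
        rw [Ex_const_mul, mul_comm]
        refine mul_le_mul_of_nonneg_right ((Ex_locG hp.1 hp.2 (by norm_num) _ _ _
          card_edges_at_le {0}).trans ?_) (by positivity)
        rw [card_singleton, pow_one]
        refine gf_sub (mul_nonneg hp.1 (by positivity)) (le_trans ?_ hs) _
        have a1 : 1 - Real.exp (-(s / n)) ≤ s / n := by linarith [Real.add_one_le_exp (-(s / n))]
        have a2 : ((d * (n - 1) : ℕ) : ℝ) ≤ d * n := by
          exact_mod_cast Nat.mul_le_mul_left d (Nat.sub_le n 1)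
        refine (mul_le_mul a1 a2 (by positivity) (by positivity)).trans (le_of_eq ?_)
        field_simp

theorem Ex_gam (p : ℝ) (E : Finset (Sym2 (Vx d))) (k : ℕ) :
    Ex p E (fun ω => gam (loc E.card ω 0) k) = gam E k * p ^ k := by
  have : ∀ ω ⊆ E, gam (loc E.card ω 0) k = ∑ H ∈ powersetCard k E, dlt csz H * ind (H ⊆ ω) := by
    intro ω hω
    symm
    rw [gam, ← sum_subset (powersetCard_mono (loc_subset.trans hω))]
    · exact sum_congr rfl fun H hH => by
        rw [ind_pos ((mem_powersetCard.1 hH).1.trans loc_subset), mul_one]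
    · intro H hH hH'
      by_contra hc
      have h1 := conn_of_dlt (left_ne_zero_of_mul hc)
      have h2 : H ⊆ ω := by
        by_contra h; exact right_ne_zero_of_mul hc (ind_neg h)
      refine hH' (mem_powersetCard.2 ⟨fun e he => ?_, (mem_powersetCard.1 hH).2⟩)
      obtain ⟨u, a, b⟩ := h1 e he
      exact mem_loc.2 ⟨h2 he, u, a, (nr_iff hω).2 (b.mono h2)⟩
  rw [Ex_congr this, Ex_sum, gam, sum_mul]
  refine sum_congr rfl fun H hH => ?_
  rw [Ex_const_mul, ← (mem_powersetCard.1 hH).2, ← Pr_subset p (mem_powersetCard.1 hH).1]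
  rfl

theorem hasSum_shapes (hn : 1 ≤ n) {s : ℝ} (hs : 0 < s) (t : ℕ → ℝ) :
    HasSum (fun b => ∑ S ∈ Sh d b, wS d n s S * ∑ k ∈ range (S.card + 1),
      gam S k * t k * ((n : ℝ)⁻¹ / (1 - Real.exp (-(s / n)))) ^ k)
      (∑ k ∈ range ((edges d n).card + 1), gam (edges d n) k * (n : ℝ)⁻¹ ^ k * t k) := by
  have h0 : (0 : ℝ) < n := by exact_mod_cast hn
  set p := 1 - Real.exp (-(s / n)) with hp
  have hp0 : p ≠ 0 := by
    rw [hp, sub_ne_zero, ne_comm, Ne, Real.exp_eq_one_iff, neg_eq_zero]; positivity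
  set ψ : Finset (Sym2 (Vx d)) → ℝ := fun S => ∑ k ∈ range (S.card + 1),
      gam S k * t k * ((n : ℝ)⁻¹ / p) ^ k with hψ
  have h1 := fun b => cl_rep hn s b ψ fun s hi h0 S => by
    simp only [hψ, card_emap (cw_inj hi), gam_emap (cw_inj hi) h0]
  change HasSum (fun b => ∑ S ∈ Sh d b, wS d n s S * ψ S) _
  simp only [← h1]
  have h2 : ∑ k ∈ range ((edges d n).card + 1), gam (edges d n) k * (n : ℝ)⁻¹ ^ k * t k =
      ∑ b ∈ range ((edges d n).card + 1), Ex p (edges d n) fun ω =>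
        ind ((loc (edges d n).card ω 0).card = b) * ψ (loc (edges d n).card ω 0) := by
    rw [← Ex_sum, Ex_congr (g := fun ω => ∑ k ∈ range ((edges d n).card + 1),
      gam (loc (edges d n).card ω 0) k * (t k * ((n : ℝ)⁻¹ / p) ^ k)), Ex_sum]
    · refine sum_congr rfl fun k _ => ?_
      rw [Ex_mul_const, Ex_gam, div_pow]
      field_simp
    · intro ω hω
      have hc : (loc (edges d n).card ω 0).card < (edges d n).card + 1 :=
        Nat.lt_succ_of_le (card_le_card (loc_subset.trans hω))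
      rw [sum_eq_single (loc (edges d n).card ω 0).card]
      · rw [ind_pos rfl, one_mul]
        simp only [hψ, mul_assoc]
        refine sum_subset (range_subset_range.2 hc) fun k _ hk => ?_
        rw [gam_eq_zero (by simpa using hk), zero_mul]
      · intro b _ hb; rw [ind_neg hb.symm, zero_mul]
      · intro h; exact absurd (mem_range.2 hc) h
  rw [h2]
  refine hasSum_sum_of_ne_finset_zero fun b hb => ?_
  rw [← Ex_const p (edges d n) 0]
  refine Ex_congr fun ω hω => ?_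
  rw [ind_neg fun h : (loc (edges d n).card ω 0).card = b => hb (mem_range.2 (h ▸ Nat.lt_succ_of_le
    (card_le_card (loc_subset.trans hω)))), zero_mul]

/-- size parameter of shapes with `b` edges -/
def Bb (d b : ℕ) : ℕ := (2 * d + 6) * (b + 1) ^ 2

theorem Bb_pos (d b : ℕ) : 1 ≤ Bb d b := Nat.succ_le_of_lt (by unfold Bb; positivity)

theorem Sh_prop {b : ℕ} {S : Finset (Sym2 (Vx d))} (h : S ∈ Sh d b) :
    (∀ e ∈ S, AdjE e) ∧ conn S ∧ S.card = b ∧ S.card ≤ Bb d b ∧
      (insert 0 (vE S)).card * d + (inE (insert 0 (vE S)) + S.card) ≤ Bb d b := by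
  classical
  obtain ⟨_, h1, h2, h3⟩ := (mem_filter.1 h).2
  have h4 := card_ins_vE S
  have h7 : inE (insert 0 (vE S)) ≤ (2 * b + 1) ^ 2 := by
    refine (card_filter_le _ _).trans ?_
    rw [sym2_eq_image]
    refine card_image_le.trans ?_
    rw [card_product, sq]
    exact Nat.mul_le_mul (by omega) (by omega)
  have h5 := Nat.mul_le_mul_right d h4
  rw [h3] at h5 ⊢
  unfold Bb
  exact ⟨h1, h2, rfl, by nlinarith [Nat.zero_le (d * b), Nat.zero_le (d * b ^ 2)],
    by nlinarith [Nat.zero_le (d * b), Nat.zero_le (d * b ^ 2)]⟩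

/-- analytic continuation of the contribution of shapes with small excess -/
noncomputable def yy (d : ℕ) (s : ℝ) (K b k : ℕ) (ε : ℂ) : ℂ :=
  ∑ S ∈ (Sh d b).filter fun S => S.card ≤ ∑ u, kS S u + K,
    WW d s (kS S) S.card (insert 0 (vE S)).card (inE (insert 0 (vE S)) + S.card) ε *
      (gam S k * (s * gg (s * ε))⁻¹ ^ k)

theorem norm_gg_ge {s : ℝ} (hs0 : 0 < s) {ε : ℂ} {r : ℝ} (h : s * ‖ε‖ ≤ r) (hr : r ≤ 1) :
    (1 - r) * s ≤ ‖s * gg (s * ε)‖ := by
  have h1 : ‖(s : ℂ) * ε‖ ≤ r := by rwa [norm_mul, Complex.norm_real, Real.norm_of_nonneg hs0.le]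
  have h2 := norm_gg_sub_one (h1.trans hr)
  have h3 := norm_sub_norm_le (1 : ℂ) (gg (s * ε))
  rw [norm_sub_rev, norm_one] at h3
  rw [norm_mul, Complex.norm_real, Real.norm_of_nonneg hs0.le, mul_comm]
  exact mul_le_mul_of_nonneg_left (by linarith) hs0.le

theorem yy_diff {s : ℝ} (hs0 : 0 < s) (hs1 : s ≤ 1 / 2) (K b k : ℕ) :
    DifferentiableOn ℂ (yy d s K b k) (Metric.ball 0 1) := by
  unfold yy
  refine DifferentiableOn.fun_sum fun S _ => (WW_diff _ _ _ _ _).differentiableOn.fun_mul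
    (DifferentiableOn.const_mul (DifferentiableOn.fun_pow (DifferentiableOn.fun_inv ?_ ?_) _) _)
  · have := gg_diff
    fun_prop
  · intro ε hε
    rw [mem_ball_zero_iff] at hε
    have := norm_gg_ge hs0 (ε := ε) (r := 1 / 2) (by nlinarith [norm_nonneg ε]) (by norm_num)
    exact norm_pos_iff.1 (lt_of_lt_of_le (by positivity) this)

theorem Bb_inv_le (d b : ℕ) : ((2 * Bb d b ^ 2 : ℕ) : ℝ)⁻¹ ≤ 1 / 2 := by
  rw [one_div]
  refine inv_anti₀ (by norm_num) ?_
  exact_mod_cast (by nlinarith [Bb_pos d b] : 2 ≤ 2 * Bb d b ^ 2)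

theorem yy_bound {s : ℝ} (hs0 : 0 < s) (hs1 : s ≤ 1 / 2) (hs : d * s ≤ 1 / 2) (K b k : ℕ) {ε : ℂ}
    (hε : ‖ε‖ ≤ ((2 * Bb d b ^ 2 : ℕ) : ℝ)⁻¹) :
    ‖yy d s K b k ε‖ ≤ 432 * (1 + 2 ^ 2 ^ K) * ((b + 1) * (10 / 11) ^ b) * (3 / 4 * s)⁻¹ ^ k := by
  have h1 := wS_sum (d := d) (n := 2 * Bb d b ^ 2) (by nlinarith [Bb_pos d b]) hs0.le hs b
  have h2 : ‖(s * gg (s * ε))⁻¹‖ ≤ (3 / 4 * s)⁻¹ := by
    rw [norm_inv]
    refine inv_anti₀ (by positivity) (le_trans (le_of_eq (by ring))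
      (norm_gg_ge hs0 (r := 1 / 4) ?_ (by norm_num)))
    nlinarith [norm_nonneg ε, hε.trans (Bb_inv_le d b)]
  calc _ ≤ ∑ S ∈ (Sh d b).filter fun S => S.card ≤ ∑ u, kS S u + K,
        108 * wS d (2 * Bb d b ^ 2) s S * (2 * (b + 1) * (1 + 2 ^ 2 ^ K) * (3 / 4 * s)⁻¹ ^ k) := by
        refine (norm_sum_le _ _).trans (sum_le_sum fun S hS => ?_)
        obtain ⟨hS, hx⟩ := mem_filter.1 hS
        obtain ⟨a1, a2, a3, a4, a5⟩ := Sh_prop hS
        rw [norm_mul, norm_mul, norm_pow, Complex.norm_real, Real.norm_eq_abs]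
        refine mul_le_mul (WW_le_wR hs0.le (by linarith) (Bb_pos d b) (sum_kS_le a1 a2) a4 a5 hε)
          (mul_le_mul ((sum_abs_gam a1 a2 k).trans ?_) (pow_le_pow_left₀ (norm_nonneg _) h2 k)
            (by positivity) (by positivity)) (by positivity)
          (mul_nonneg (by norm_num) (wR_nonneg hs0.le _ _ _ _))
        rw [a3]
        refine mul_le_mul (by linarith) (add_le_add le_rfl (pow_le_pow_right₀ (by norm_num)
          (Nat.pow_le_pow_right (by norm_num) (by omega)))) (by positivity) (by positivity)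
    _ ≤ _ := by
        rw [← sum_mul, ← mul_sum]
        have h3 := (sum_le_sum_of_subset_of_nonneg (filter_subset
          (fun S => S.card ≤ ∑ u, kS S u + K) (Sh d b))
          fun S _ _ => wR_nonneg hs0.le _ _ _ _).trans h1
        refine (mul_le_mul_of_nonneg_right (mul_le_mul_of_nonneg_left h3 (by norm_num))
          (by positivity)).trans (le_of_eq ?_)
        ring

theorem yy_real (hn : 1 ≤ n) {s : ℝ} (K b k : ℕ) :
    yy d s K b k (n : ℂ)⁻¹ = ((∑ S ∈ (Sh d b).filter fun S => S.card ≤ ∑ u, kS S u + K,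
      wS d n s S * (gam S k * ((n : ℝ)⁻¹ / (1 - Real.exp (-(s / n)))) ^ k) : ℝ) : ℂ) := by
  have h0 : (n : ℂ) ≠ 0 := by exact_mod_cast (by omega : n ≠ 0)
  unfold yy
  push_cast
  refine sum_congr rfl fun S hS => ?_
  obtain ⟨a1, a2, _⟩ := Sh_prop (mem_filter.1 hS).1
  rw [WW_real hn s (sum_kS_le a1 a2), div_eq_mul_inv (s : ℂ), ← mul_gg, wS]
  congr 3
  rw [mul_right_comm, div_mul_cancel_right₀ (inv_ne_zero h0)]

theorem yy_zero (s : ℝ) (K : ℕ) {b k : ℕ} (h : b < k) : yy d s K b k = fun _ => 0 := by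
  funext ε
  refine sum_eq_zero fun S hS => ?_
  rw [gam_eq_zero ((Sh_prop (mem_filter.1 hS).1).2.2.1 ▸ h)]
  simp

theorem summable_poly (R : ℕ) : Summable fun b : ℕ => ((b : ℝ) + 1) ^ R * (10 / 11) ^ b := by
  have := (summable_nat_add_iff 1).2
    (summable_pow_mul_geometric_of_norm_lt_one R (r := (10 / 11 : ℝ)) (by norm_num))
  refine (this.mul_left (11 / 10)).congr fun b => ?_
  push_cast; ring

theorem shape_est {s : ℝ} (hs0 : 0 < s) (hs1 : s ≤ 1 / 2) (hs : d * s ≤ 1 / 2) (K b : ℕ)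
    (hn : 2 ≤ n) {t : ℕ → ℝ} (ht : ∀ k, |t k| ≤ (3 / 4 * s) ^ k) {A : ℝ} {r : ℕ}
    (hA : ∀ S : Finset (Sym2 (Vx d)), |∑ k ∈ range (S.card + 1),
      gam S k * t k * ((n : ℝ)⁻¹ / (1 - Real.exp (-(s / n)))) ^ k| ≤ A * (S.card + 1) ^ r) :
    |∑ S ∈ Sh d b, wS d n s S * ∑ k ∈ range (S.card + 1),
        gam S k * t k * ((n : ℝ)⁻¹ / (1 - Real.exp (-(s / n)))) ^ k -
      ∑ i ∈ range (K + 1), (n : ℝ)⁻¹ ^ i * ∑ k ∈ range (b + 1), t k * (tc (yy d s K b k) i).re| ≤
      (24 * A * ((b + 1) ^ r * (10 / 11) ^ b) + (K + 2) * (432 * (1 + 2 ^ 2 ^ K)) *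
        ((b + 1) ^ 2 * (10 / 11) ^ b)) * (2 * (2 * Bb d b ^ 2 : ℕ) * (n : ℝ)⁻¹) ^ (K + 1) := by
  have hn1 : 1 ≤ n := by omega
  have h0 : (0 : ℝ) < n := by exact_mod_cast hn1
  have hA0 : 0 ≤ A := by simpa using (abs_nonneg _).trans (hA ∅)
  set m : ℝ := ((2 * Bb d b ^ 2 : ℕ) : ℝ) with hm
  have hm0 : 0 < m := by rw [hm]; have := Bb_pos d b; positivity
  set D : ℝ := 432 * (1 + 2 ^ 2 ^ K) * ((b + 1) * (10 / 11) ^ b) with hD
  have hD0 : 0 ≤ D := by positivity
  set lam : ℝ := (n : ℝ)⁻¹ / (1 - Real.exp (-(s / n))) with hlam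
  have hR : m⁻¹ < 1 := (Bb_inv_le d b).trans_lt (by norm_num)
  have htk : ∀ k, |t k| * (3 / 4 * s)⁻¹ ^ k ≤ 1 := fun k => by
    rw [inv_pow, mul_inv_le_iff₀ (by positivity), one_mul]; exact ht k
  have hΓ : ∀ (T : Finset (Finset (Sym2 (Vx d)))), T ⊆ Sh d b →
      |∑ S ∈ T, wS d n s S * ∑ k ∈ range (S.card + 1), gam S k * t k * lam ^ k| ≤
        (∑ S ∈ T, wS d n s S) * (A * (b + 1) ^ r) := by
    intro T hT
    rw [sum_mul]
    refine (abs_sum_le_sum_abs _ _).trans (sum_le_sum fun S hS => ?_)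
    rw [abs_mul, abs_of_nonneg (show 0 ≤ wS d n s S from wR_nonneg hs0.le _ _ _ _),
      ← (Sh_prop (hT hS)).2.2.1]
    exact mul_le_mul_of_nonneg_left (hA S) (wR_nonneg hs0.le _ _ _ _)
  have e0 : (K + 2) * (432 * (1 + 2 ^ 2 ^ K)) * ((b + 1) ^ 2 * (10 / 11) ^ b) =
      (K + 2) * ((b + 1) * D) := by rw [hD]; ring
  rw [e0]
  by_cases hb : 2 * m ≤ n
  · have hb' : 2 * Bb d b ^ 2 ≤ n := by
      have : m ≤ n := by linarith
      rw [hm] at this; exact_mod_cast this
    rw [← sum_filter_add_sum_filter_not (Sh d b) fun S => S.card ≤ ∑ u, kS S u + K, add_comm,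
      add_sub_assoc]
    refine (abs_add_le _ _).trans ?_
    have q1 : (m * (n : ℝ)⁻¹) ^ (K + 1) ≤ (2 * m * (n : ℝ)⁻¹) ^ (K + 1) :=
      pow_le_pow_left₀ (by positivity) (by nlinarith [show 0 < m * (n : ℝ)⁻¹ by positivity]) _
    rw [add_mul]
    refine add_le_add ((hΓ _ (filter_subset _ _)).trans ?_) ?_
    · have u1 : ∑ S ∈ (Sh d b).filter fun S => ¬ S.card ≤ ∑ u, kS S u + K, wS d n s S ≤
          12 * (m * (n : ℝ)⁻¹) ^ (K + 1) * (2 * (10 / 11) ^ b) := by
        refine le_trans ?_ (mul_le_mul_of_nonneg_left ((sum_le_sum_of_subset_of_nonneg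
          (filter_subset (fun S => ¬ S.card ≤ ∑ u, kS S u + K) _)
          fun S _ _ => wR_nonneg hs0.le _ _ _ _).trans
          (wS_sum (n := 2 * Bb d b ^ 2) (by nlinarith [Bb_pos d b]) hs0.le hs b)) (by positivity))
        rw [mul_sum]
        refine sum_le_sum fun S hS => ?_
        obtain ⟨hS, hx⟩ := mem_filter.1 hS
        obtain ⟨a1, a2, a3, a4, a5⟩ := Sh_prop hS
        exact wR_compare hs0.le (by linarith) (Bb_pos d b) hb' (by omega) a4 a5
      refine (mul_le_mul_of_nonneg_right (u1.trans (mul_le_mul_of_nonneg_right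
        (mul_le_mul_of_nonneg_left q1 (by norm_num)) (by positivity))) (by positivity)).trans
        (le_of_eq ?_)
      ring
    · have e1 : ∑ S ∈ (Sh d b).filter fun S => S.card ≤ ∑ u, kS S u + K,
          wS d n s S * ∑ k ∈ range (S.card + 1), gam S k * t k * lam ^ k =
          ∑ k ∈ range (b + 1), t k * (yy d s K b k (n : ℂ)⁻¹).re := by
        simp only [yy_real hn1, Complex.ofReal_re, mul_sum]
        rw [sum_comm]
        refine sum_congr rfl fun S hS => ?_
        rw [(Sh_prop (mem_filter.1 hS).1).2.2.1]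
        exact sum_congr rfl fun k _ => by ring
      simp only [mul_sum (range (b + 1))]
      rw [e1, sum_comm, ← sum_sub_distrib]
      refine (abs_sum_le_sum_abs _ _).trans ((sum_le_card_nsmul _ _
        (2 * D * (m * (n : ℝ)⁻¹) ^ (K + 1)) fun k _ => ?_).trans ?_)
      · have u1 := taylor_rem (inv_pos.2 hm0) hR (yy_diff hs0 hs1 K b k)
          (fun z hz => yy_bound hs0 hs1 hs K b k hz) (K + 1) (z := (n : ℂ)⁻¹) (by
            rw [norm_inv, Complex.norm_natCast, ← one_div m, div_div, one_div]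
            exact inv_anti₀ (by positivity) (by linarith))
        have u2 := (Complex.abs_re_le_norm _).trans u1
        have u3 : t k * (yy d s K b k (n : ℂ)⁻¹).re -
            ∑ i ∈ range (K + 1), (n : ℝ)⁻¹ ^ i * (t k * (tc (yy d s K b k) i).re) =
            t k * (yy d s K b k (n : ℂ)⁻¹ -
              ∑ i ∈ range (K + 1), tc (yy d s K b k) i * (n : ℂ)⁻¹ ^ i).re := by
          rw [Complex.sub_re, Complex.re_sum, mul_sub, mul_sum]
          congr 1
          refine sum_congr rfl fun i _ => ?_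
          rw [show (n : ℂ)⁻¹ ^ i = (((n : ℝ)⁻¹ ^ i : ℝ) : ℂ) by push_cast; rfl,
            Complex.re_mul_ofReal]
          ring
        rw [u3, abs_mul]
        rw [norm_inv, Complex.norm_natCast, inv_inv, mul_comm _ m] at u2
        refine (mul_le_mul_of_nonneg_left u2 (abs_nonneg _)).trans ?_
        calc _ = (|t k| * (3 / 4 * s)⁻¹ ^ k) * (2 * D * (m * (n : ℝ)⁻¹) ^ (K + 1)) := by ring
          _ ≤ _ := mul_le_of_le_one_left (by positivity) (htk k)
      · rw [card_range, nsmul_eq_mul]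
        push_cast
        have := mul_le_mul_of_nonneg_left q1 (show 0 ≤ (b + 1) * D by positivity)
        nlinarith [show 0 ≤ K * ((b + 1) * D * (2 * m * (n : ℝ)⁻¹) ^ (K + 1)) by positivity]
  · have q0 : 1 ≤ 2 * m * (n : ℝ)⁻¹ := by rw [le_mul_inv_iff₀ h0]; linarith
    have q1 : 1 ≤ (2 * m * (n : ℝ)⁻¹) ^ (K + 1) := one_le_pow₀ q0
    rw [add_mul]
    refine (abs_sub _ _).trans (add_le_add ((hΓ _ subset_rfl).trans ?_) ?_)
    · refine (mul_le_mul_of_nonneg_right (wS_sum hn1 hs0.le hs b) (by positivity)).trans ?_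
      refine le_trans ?_ (le_mul_of_one_le_right (by positivity) q1)
      nlinarith [show 0 ≤ A * ((b + 1) ^ r * (10 / 11) ^ b) by positivity]
    · refine (abs_sum_le_sum_abs _ _).trans ((sum_le_card_nsmul _ _
        ((b + 1) * D * (2 * m * (n : ℝ)⁻¹) ^ (K + 1)) fun i hi => ?_).trans ?_)
      · have u1 : |∑ k ∈ range (b + 1), t k * (tc (yy d s K b k) i).re| ≤ (b + 1) * (D * m ^ i) := by
          refine (abs_sum_le_sum_abs _ _).trans ((sum_le_card_nsmul _ _ (D * m ^ i)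
            fun k _ => ?_).trans (by rw [card_range, nsmul_eq_mul]; push_cast; rfl))
          have := (Complex.abs_re_le_norm _).trans (norm_tc_le (inv_pos.2 hm0) hR
            (yy_diff hs0 hs1 K b k) (fun z hz => yy_bound hs0 hs1 hs K b k hz) i)
          rw [inv_inv] at this
          rw [abs_mul]
          refine (mul_le_mul_of_nonneg_left this (abs_nonneg _)).trans ?_
          calc _ = (|t k| * (3 / 4 * s)⁻¹ ^ k) * (D * m ^ i) := by ring
            _ ≤ _ := mul_le_of_le_one_left (by positivity) (htk k)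
        rw [abs_mul, abs_of_nonneg (by positivity)]
        refine (mul_le_mul_of_nonneg_left u1 (by positivity)).trans ?_
        have u2 : (m * (n : ℝ)⁻¹) ^ i ≤ (2 * m * (n : ℝ)⁻¹) ^ (K + 1) :=
          (pow_le_pow_left₀ (by positivity)
            (by nlinarith [show 0 < m * (n : ℝ)⁻¹ by positivity]) _).trans
            (pow_le_pow_right₀ q0 (mem_range.1 hi).le)
        calc _ = (b + 1) * D * (m * (n : ℝ)⁻¹) ^ i := by ring
          _ ≤ _ := mul_le_mul_of_nonneg_left u2 (by positivity)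
      · rw [card_range, nsmul_eq_mul]
        push_cast
        nlinarith [show 0 ≤ (b + 1) * D * (2 * m * (n : ℝ)⁻¹) ^ (K + 1) by positivity]

end HamPerc
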