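import Pool.Agent.Lib.MP_58a483_pr.Ex

/-!
Trails (walks without repeated edges) recorded by their edge sets, and connection events.
-/

open Finset

namespace HamPerc

variable {α : Type*} [DecidableEq α]

/-- `Tr x y W`: `W` is the edge set of a trail from `x` to `y` -/
inductive Tr : α → α → Finset (Sym2 α) → Prop
  | nil (x : α) : Tr x x ∅
  | snoc {x y z : α} {W : Finset (Sym2 α)} : Tr x y W → s(y, z) ∉ W → Tr x z (insert s(y, z) W)

/-- `v` is visited by a trail from `x` with edge set `W` -/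
def Vis (x : α) (W : Finset (Sym2 α)) (v : α) : Prop := v = x ∨ ∃ e ∈ W, v ∈ e

variable {x y z v : α} {W η η' : Finset (Sym2 α)}

theorem Vis.mono {W' : Finset (Sym2 α)} (h : Vis x W v) (hW : W ⊆ W') : Vis x W' v :=
  h.imp id fun ⟨e, he, hv⟩ => ⟨e, hW he, hv⟩

theorem Tr.vis_end (h : Tr x y W) : Vis x W y := by
  cases h with
  | nil => exact Or.inl rfl
  | snoc h he => exact Or.inr ⟨_, mem_insert_self _ _, Sym2.mem_mk_right _ _⟩

theorem Tr.eq_of_empty (h : Tr x y ∅) : x = y := by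
  generalize hW : (∅ : Finset (Sym2 α)) = W at h
  cases h with
  | nil => rfl
  | snoc h he => exact absurd hW.symm (insert_ne_empty _ _)

theorem Tr.split (h : Tr x y W) (hv : Vis x W v) :
    ∃ W₁ W₂, Disjoint W₁ W₂ ∧ W₁ ∪ W₂ = W ∧ Tr x v W₁ ∧ Tr v y W₂ := by
  induction h with
  | nil =>
    rcases hv with rfl | ⟨e, he, _⟩
    · exact ⟨∅, ∅, by simp, by simp, Tr.nil _, Tr.nil _⟩
    · simp at he
  | @snoc y z W h he ih =>
    by_cases hW : Vis x W v
    · obtain ⟨W₁, W₂, hd, hu, h1, h2⟩ := ih hW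
      have e1 : s(y, z) ∉ W₁ := fun h => he (hu ▸ mem_union_left _ h)
      have e2 : s(y, z) ∉ W₂ := fun h => he (hu ▸ mem_union_right _ h)
      exact ⟨W₁, insert s(y, z) W₂, disjoint_insert_right.2 ⟨e1, hd⟩,
        by rw [union_insert, hu], h1, h2.snoc e2⟩
    · rcases hv with rfl | ⟨e, he', hv⟩
      · exact absurd (Or.inl rfl) hW
      · rcases mem_insert.1 he' with rfl | he'
        · rcases Sym2.mem_iff.1 hv with rfl | rfl
          · exact absurd h.vis_end hW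
          · exact ⟨_, ∅, by simp, by simp, h.snoc he, Tr.nil _⟩
        · exact absurd (Or.inr ⟨e, he', hv⟩) hW

theorem Tr.pre (h : Tr x y W) (hv : Vis x W v) : ∃ W₁ ⊆ W, Tr x v W₁ := by
  obtain ⟨W₁, W₂, _, hu, h1, _⟩ := h.split hv
  exact ⟨W₁, hu ▸ subset_union_left, h1⟩

theorem Tr.append {W₁ W₂ : Finset (Sym2 α)} (h1 : Tr x y W₁) (h2 : Tr y z W₂)
    (hd : Disjoint W₁ W₂) : Tr x z (W₁ ∪ W₂) := by
  induction h2 with
  | nil => simpa using h1
  | @snoc u w W h he ih =>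
    rw [disjoint_insert_right] at hd
    rw [union_insert]
    exact (ih hd.2).snoc (by simp [he, hd.1])

/-- the part of a trail after its last visit to a set -/
theorem Tr.last (h : Tr x y W) (A : Set α) (hx : x ∈ A) :
    ∃ v ∈ A, Vis x W v ∧ ∃ W' ⊆ W, Tr v y W' ∧ ∀ e ∈ W', ∃ u ∈ e, u ∉ A := by
  induction h with
  | nil => exact ⟨x, hx, Or.inl rfl, ∅, Subset.refl _, Tr.nil _, by simp⟩
  | @snoc y z W h he ih =>
    by_cases hz : z ∈ A
    · exact ⟨z, hz, (h.snoc he).vis_end, ∅, empty_subset _, Tr.nil _, by simp⟩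
    · obtain ⟨v, hv, hvis, W', hW', ht, hA⟩ := ih
      refine ⟨v, hv, hvis.mono (subset_insert _ _), insert s(y, z) W',
        insert_subset_insert _ hW', ht.snoc fun h => he (hW' h), ?_⟩
      intro e he'
      rcases mem_insert.1 he' with rfl | he'
      · exact ⟨z, Sym2.mem_mk_right _ _, hz⟩
      · exact hA e he'

/-- the part of a trail before its first visit to a set -/
theorem Tr.first (h : Tr x y W) (A : Set α) (hx : x ∉ A) (hW : ∃ e ∈ W, ∃ u ∈ e, u ∈ A) :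
    ∃ a b, a ∉ A ∧ b ∈ A ∧ ∃ W₁ W₂, s(a, b) ∈ W ∧ W₁ ⊆ W ∧ W₂ ⊆ W ∧
      Disjoint (insert s(a, b) W₁) W₂ ∧
      Tr x a W₁ ∧ Tr b y W₂ ∧ ∀ e ∈ W₁, ∀ u ∈ e, u ∉ A := by
  induction h with
  | nil => simp at hW
  | @snoc y z W h he ih =>
    by_cases hW' : ∃ e ∈ W, ∃ u ∈ e, u ∈ A
    · obtain ⟨a, b, ha, hb, W₁, W₂, h1, h2, h3, h4, h5, h6, h7⟩ := ih hW'
      refine ⟨a, b, ha, hb, W₁, insert s(y, z) W₂, mem_insert_of_mem h1,
        h2.trans (subset_insert _ _), insert_subset_insert _ h3, ?_, h5,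
        h6.snoc fun h => he (h3 h), h7⟩
      rw [disjoint_insert_right]
      exact ⟨fun h => he (insert_subset h1 h2 h), h4⟩
    · push Not at hW'
      have hy : y ∉ A := by
        rcases h.vis_end with rfl | ⟨e, he, hy⟩
        · exact hx
        · exact hW' e he y hy
      have hz : z ∈ A := by
        obtain ⟨e, he', u, hu, hA⟩ := hW
        rcases mem_insert.1 he' with rfl | he'
        · rcases Sym2.mem_iff.1 hu with rfl | rfl
          · exact absurd hA hy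
          · exact hA
        · exact absurd hA (hW' e he' u hu)
      exact ⟨y, z, hy, hz, W, ∅, mem_insert_self _ _, subset_insert _ _, empty_subset _,
        by simp, h, Tr.nil _, hW'⟩

/-- connected by an open trail -/
def Rch (η : Finset (Sym2 α)) (x y : α) : Prop := ∃ W ⊆ η, Tr x y W

/-- connected by an open trail with at most `k` edges -/
def Nr (η : Finset (Sym2 α)) (k : ℕ) (x y : α) : Prop := ∃ W ⊆ η, Tr x y W ∧ W.card ≤ k

/-- connected by an open trail with at least `k` edges -/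
def Lg (η : Finset (Sym2 α)) (k : ℕ) (x y : α) : Prop := ∃ W ⊆ η, Tr x y W ∧ k ≤ W.card

theorem Rch.refl (η : Finset (Sym2 α)) (x : α) : Rch η x x := ⟨∅, empty_subset _, Tr.nil _⟩

theorem Nr.refl (η : Finset (Sym2 α)) (k : ℕ) (x : α) : Nr η k x x :=
  ⟨∅, empty_subset _, Tr.nil _, by simp⟩

theorem Rch.mono (h : Rch η x y) (hη : η ⊆ η') : Rch η' x y :=
  let ⟨W, a, b⟩ := h; ⟨W, a.trans hη, b⟩

theorem Nr.mono {k : ℕ} (h : Nr η k x y) (hη : η ⊆ η') : Nr η' k x y :=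
  let ⟨W, a, b⟩ := h; ⟨W, a.trans hη, b⟩

theorem Rch.step (h : Rch η x y) (he : s(y, z) ∈ η) : Rch η x z := by
  obtain ⟨W, hW, ht⟩ := h
  by_cases h : s(y, z) ∈ W
  · obtain ⟨W₁, h1, h2⟩ := ht.pre (v := z) (Or.inr ⟨_, h, Sym2.mem_mk_right _ _⟩)
    exact ⟨W₁, h1.trans hW, h2⟩
  · exact ⟨_, insert_subset he hW, ht.snoc h⟩

theorem Rch.induction {P : α → Prop} (h : Rch η x y) (h0 : P x)
    (hs : ∀ a b, P a → s(a, b) ∈ η → P b) : P y := by
  obtain ⟨W, hW, ht⟩ := h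
  induction ht with
  | nil => exact h0
  | snoc h he ih => exact hs _ _ (ih ((subset_insert _ _).trans hW)) (hW (mem_insert_self _ _))

theorem Rch.trans (h1 : Rch η x y) (h2 : Rch η y z) : Rch η x z :=
  h2.induction (P := fun v => Rch η x v) h1 fun _ _ ha he => ha.step he

theorem Rch.symm (h : Rch η x y) : Rch η y x :=
  h.induction (P := fun v => Rch η v x) (Rch.refl _ _) fun a b ha he =>
    ((Rch.refl η b).step (by rwa [Sym2.eq_swap])).trans ha

theorem Tr.rch_vis (h : Tr x y W) (hW : W ⊆ η) (hv : Vis x W v) : Rch η x v :=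
  let ⟨W₁, a, b⟩ := h.pre hv; ⟨W₁, a.trans hW, b⟩

theorem Rch.vis (h : Rch η x y) : Vis x η y :=
  let ⟨_, a, b⟩ := h; b.vis_end.mono a

/-- a cluster is determined by the edges touching it -/
theorem Rch.stop (h : ∀ e, (∃ u ∈ e, Rch η x u) → (e ∈ η ↔ e ∈ η')) :
    Rch η' x y ↔ Rch η x y := by
  constructor
  · intro h'
    exact h'.induction (P := fun v => Rch η x v) (Rch.refl _ _) fun a b ha he =>
      ha.step ((h _ ⟨a, Sym2.mem_mk_left _ _, ha⟩).2 he)
  · rintro ⟨W, hW, ht⟩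
    refine ⟨W, fun e he => (h e ?_).1 (hW he), ht⟩
    induction e using Sym2.ind with
    | _ a b => exact ⟨a, Sym2.mem_mk_left _ _,
        ht.rch_vis hW (Or.inr ⟨_, he, Sym2.mem_mk_left _ _⟩)⟩

theorem Tr.nr_vis {k : ℕ} (h : Tr x y W) (hW : W ⊆ η) (hk : W.card ≤ k) (hv : Vis x W v) :
    Nr η k x v :=
  let ⟨W₁, a, b⟩ := h.pre hv; ⟨W₁, a.trans hW, b, (card_le_card a).trans hk⟩

/-- a ball is determined by the edges touching it -/
theorem Nr.stop {k : ℕ} (h : ∀ e, (∃ u ∈ e, Nr η k x u) → (e ∈ η ↔ e ∈ η')) :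
    Nr η' k x y ↔ Nr η k x y := by
  constructor
  · rintro ⟨W, hW, ht, hk⟩
    refine ⟨W, ?_, ht, hk⟩
    induction ht with
    | nil => exact empty_subset _
    | @snoc a b W ht he ih =>
      have h1 : W.card ≤ k := (card_le_card (subset_insert _ _)).trans hk
      have h2 := ih ((subset_insert _ _).trans hW) h1
      exact insert_subset ((h _ ⟨a, Sym2.mem_mk_left _ _, W, h2, ht, h1⟩).2
        (hW (mem_insert_self _ _))) h2
  · rintro ⟨W, hW, ht, hk⟩
    refine ⟨W, fun e he => (h e ?_).1 (hW he), ht, hk⟩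
    induction e using Sym2.ind with
    | _ a b => exact ⟨a, Sym2.mem_mk_left _ _,
        ht.nr_vis hW hk (Or.inr ⟨_, he, Sym2.mem_mk_left _ _⟩)⟩

/-- tree decomposition of a trail to `y` together with a connection to `v` -/
theorem tree_graph (h : Tr x y W) (hW : W ⊆ η) (hv : Rch η x v) :
    ∃ w, Vis x η w ∧ ∃ W₁ ⊆ η, ∃ W₂ ⊆ η, ∃ W₃ ⊆ η, Disjoint W₁ W₂ ∧ Disjoint W₁ W₃ ∧
      Disjoint W₂ W₃ ∧ Tr x w W₁ ∧ Tr w y W₂ ∧ Tr w v W₃ ∧ W₁.card + W₂.card = W.card := by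
  obtain ⟨U, hU, hu⟩ := hv
  obtain ⟨w, hw, _, W₃, h3, ht3, hA⟩ := hu.last {u | Vis x W u} (Or.inl rfl)
  obtain ⟨W₁, W₂, hd, hun, h1, h2⟩ := h.split hw
  have hd3 : Disjoint W W₃ := by
    rw [disjoint_right]
    intro e he heW
    obtain ⟨u, hu, hn⟩ := hA e he
    exact hn (Or.inr ⟨e, heW, hu⟩)
  have s1 : W₁ ⊆ W := hun ▸ subset_union_left
  have s2 : W₂ ⊆ W := hun ▸ subset_union_right
  exact ⟨w, Vis.mono hw hW, W₁, s1.trans hW, W₂, s2.trans hW, W₃, h3.trans hU, hd,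
    hd3.mono_left s1, hd3.mono_left s2, h1, h2, ht3, by rw [← card_union_of_disjoint hd, hun]⟩

section Map

variable {α' : Type*} [DecidableEq α'] {σ : α → α'}

/-- image of an edge set under a vertex map -/
def emap (σ : α → α') (η : Finset (Sym2 α)) : Finset (Sym2 α') := η.image (Sym2.map σ)

theorem mem_emap (hσ : Function.Injective σ) {e : Sym2 α} :
    Sym2.map σ e ∈ emap σ η ↔ e ∈ η :=
  (Sym2.map.injective hσ).mem_finset_image

theorem card_emap (hσ : Function.Injective σ) : (emap σ η).card = η.card :=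
  card_image_of_injective _ (Sym2.map.injective hσ)

theorem Tr.map (hσ : Function.Injective σ) (h : Tr x y W) : Tr (σ x) (σ y) (emap σ W) := by
  induction h with
  | nil => exact Tr.nil _
  | @snoc y z W h he ih =>
    unfold emap
    rw [image_insert]
    exact ih.snoc fun h => he ((mem_emap hσ (e := s(y, z))).1 h)

theorem Tr.comap (hσ : Function.Injective σ) {x' y' : α'} {W' : Finset (Sym2 α')}
    (h : Tr x' y' W') (hx : x' = σ x) (hW : W' ⊆ emap σ η) :
    ∃ y, y' = σ y ∧ ∃ W ⊆ η, Tr x y W ∧ W' = emap σ W := by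
  induction h with
  | nil => exact ⟨x, hx, ∅, empty_subset _, Tr.nil _, rfl⟩
  | @snoc a b W' h he ih =>
    obtain ⟨y, rfl, W, h1, h2, rfl⟩ := ih ((subset_insert _ _).trans hW)
    obtain ⟨e, he1, he2⟩ := mem_image.1 (hW (mem_insert_self _ _))
    have hb : b ∈ Sym2.map σ e := he2 ▸ Sym2.mem_mk_right _ _
    obtain ⟨z, _, rfl⟩ := Sym2.mem_map.1 hb
    have : e = s(y, z) := Sym2.map.injective hσ he2
    subst this
    refine ⟨z, rfl, insert s(y, z) W, insert_subset he1 h1,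
      h2.snoc fun h => he ((mem_emap hσ (e := s(y, z))).2 h), ?_⟩
    unfold emap
    rw [image_insert]; rfl

theorem emap_mono (h : η ⊆ η') : emap σ η ⊆ emap σ η' := image_subset_image h

theorem rch_map_iff (hσ : Function.Injective σ) {y' : α'} :
    Rch (emap σ η) (σ x) y' ↔ ∃ y, y' = σ y ∧ Rch η x y := by
  constructor
  · rintro ⟨W', h1, h2⟩
    obtain ⟨y, a, W, b, c, _⟩ := h2.comap hσ rfl h1
    exact ⟨y, a, W, b, c⟩
  · rintro ⟨y, rfl, W, b, c⟩
    exact ⟨_, emap_mono b, c.map hσ⟩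

theorem rch_map (hσ : Function.Injective σ) : Rch (emap σ η) (σ x) (σ y) ↔ Rch η x y := by
  rw [rch_map_iff hσ]
  exact ⟨fun ⟨_, a, b⟩ => hσ a ▸ b, fun h => ⟨y, rfl, h⟩⟩

theorem nr_map_iff (hσ : Function.Injective σ) {k : ℕ} {y' : α'} :
    Nr (emap σ η) k (σ x) y' ↔ ∃ y, y' = σ y ∧ Nr η k x y := by
  constructor
  · rintro ⟨W', h1, h2, h3⟩
    obtain ⟨y, a, W, b, c, rfl⟩ := h2.comap hσ rfl h1
    exact ⟨y, a, W, b, c, by rwa [card_emap hσ] at h3⟩
  · rintro ⟨y, rfl, W, b, c, h⟩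
    exact ⟨_, emap_mono b, c.map hσ, by rwa [card_emap hσ]⟩

theorem nr_map (hσ : Function.Injective σ) {k : ℕ} :
    Nr (emap σ η) k (σ x) (σ y) ↔ Nr η k x y := by
  rw [nr_map_iff hσ]
  exact ⟨fun ⟨_, a, b⟩ => hσ a ▸ b, fun h => ⟨y, rfl, h⟩⟩

end Map

end HamPerc
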